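import Mathlib

set_option autoImplicit false
open LinearMap

namespace Pool.Agent.MP_8c1b0d_co

section descent
variable {K W : Type*} [Field K] [CharP K 2] [AddCommGroup W] [Module K W]

/-- the symmetric form `a ⊙ b` -/
def symF (a b : W →ₗ[K] K) : LinearMap.BilinForm K W :=
  (LinearMap.mul K K).compl₁₂ a b + (LinearMap.mul K K).compl₁₂ b a

omit [CharP K 2] in
@[simp] lemma symF_apply (a b : W →ₗ[K] K) (u v : W) :
    symF a b u v = a u * b v + b u * a v := by
  simp [symF]

/-- the radical of `N` lies in `C` -/
def NonDeg (C : Submodule K W) (N : LinearMap.BilinForm K W) : Prop :=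
  ∀ u, (∀ k, N u k = 0) → u ∈ C

lemma descent {C : Submodule K W} {N : LinearMap.BilinForm K W} {a b : W →ₗ[K] K} {t : K}
    (hs : ∀ u v, N u v = N v u) (hC : ∀ c ∈ C, ∀ k, N c k = 0)
    (h : NonDeg C (N + t • symF a b)) : NonDeg C N ∨ NonDeg C (N + symF a b) := by
  have two : (2 : K) = 0 := CharTwo.two_eq_zero
  by_contra hn
  rw [not_or] at hn
  obtain ⟨h0, h1⟩ := hn
  simp only [NonDeg, not_forall] at h0 h1
  obtain ⟨u, hu, huC⟩ := h0
  obtain ⟨w, hw, hwC⟩ := h1
  simp only [LinearMap.add_apply, symF_apply] at hw
  have hD : a w * b u + b w * a u = 0 := by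
    have := hw u
    rw [hs, hu, zero_add] at this
    exact this
  have key : ∀ r : W, (∀ k, N r k + t * (a r * b k + b r * a k) = 0) → r ∈ C := by
    intro r hr
    apply h
    intro k
    simpa using hr k
  have t0 : t ≠ 0 := by
    rintro rfl
    exact huC (key u fun k => by simp [hu k])
  -- a scalar `μ` with `(a w, b w) = μ (a u, b u)`
  have hμ : ∃ μ : K, a w = μ * a u ∧ b w = μ * b u := by
    by_cases e : a u = 0
    · have e' : b u ≠ 0 := fun e' => huC (key u fun k => by simp [hu k, e, e'])
      refine ⟨b w / b u, ?_, by field_simp⟩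
      rw [e, mul_zero, add_zero] at hD
      rw [e, mul_zero]
      exact (mul_eq_zero.1 hD).resolve_right e'
    · refine ⟨a w / a u, by field_simp, ?_⟩
      field_simp
      linear_combination hD - (a w * b u) * two
  obtain ⟨μ, e1, e2⟩ := hμ
  have hr : t • w + ((t + 1) * μ) • u ∈ C := by
    apply key
    intro k
    simp only [map_add, map_smul, LinearMap.add_apply, LinearMap.smul_apply, smul_eq_mul, hu k]
    have := hw k
    rw [e1, e2] at this ⊢
    linear_combination t * this + (t ^ 2 * μ * (a u * b k + b u * a k)) * two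
  have hN : ∀ k, N w k = 0 := by
    intro k
    have := hC _ hr k
    simp only [map_add, map_smul, LinearMap.add_apply, LinearMap.smul_apply, smul_eq_mul, hu k,
      mul_zero, add_zero] at this
    exact (mul_eq_zero.1 this).resolve_left t0
  refine hwC (key w fun k => ?_)
  have := hw k
  rw [hN k, zero_add] at this
  rw [hN k, this]; simp

lemma descent_all {ι : Type*} [DecidableEq ι] {C : Submodule K W} (a b : ι → W →ₗ[K] K)
    (ha : ∀ i, ∀ c ∈ C, a i c = 0) (hb : ∀ i, ∀ c ∈ C, b i c = 0) (z : ι → K) (T : Finset ι) :
    ∀ {N : LinearMap.BilinForm K W}, (∀ u v, N u v = N v u) → (∀ c ∈ C, ∀ k, N c k = 0) →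
      NonDeg C (N + ∑ i ∈ T, z i • symF (a i) (b i)) →
      ∃ r : ι → Bool, NonDeg C (N + ∑ i ∈ T, (if r i then (1 : K) else 0) • symF (a i) (b i)) := by
  induction T using Finset.induction_on with
  | empty => intro N _ _ h; exact ⟨fun _ => false, by simpa using h⟩
  | insert j T hj ih =>
    intro N hs hC h
    rw [Finset.sum_insert hj, ← add_assoc] at h
    obtain ⟨r, hr⟩ := ih (N := N + z j • symF (a j) (b j))
      (fun u v => by simp [hs u v]; left; ring)
      (fun c hc k => by simp [hC c hc k, ha j c hc, hb j c hc]) h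
    rw [add_right_comm] at hr
    have hsum : ∀ x : Bool, ∑ i ∈ T, (if Function.update r j x i then (1 : K) else 0) •
        symF (a i) (b i) = ∑ i ∈ T, (if r i then (1 : K) else 0) • symF (a i) (b i) := by
      intro x
      refine Finset.sum_congr rfl fun i hi => ?_
      rw [Function.update_of_ne (fun e : i = j => hj (e ▸ hi))]
    refine (descent (fun u v => ?_) (fun c hc k => ?_) hr).elim (fun e => ?_) (fun e => ?_)
    rotate_left 2
    · refine ⟨Function.update r j false, ?_⟩
      rw [Finset.sum_insert hj, hsum]
      simpa using e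
    · refine ⟨Function.update r j true, ?_⟩
      rw [Finset.sum_insert hj, hsum, ← add_assoc, add_right_comm]
      simpa using e
    · simp only [LinearMap.add_apply, LinearMap.sum_apply, LinearMap.smul_apply, symF_apply, hs u v]
      refine congrArg _ (Finset.sum_congr rfl fun i _ => ?_)
      rw [add_comm, mul_comm (b i u), mul_comm (a i u)]
    · simp only [LinearMap.add_apply, LinearMap.sum_apply, LinearMap.smul_apply, symF_apply,
        hC c hc k, ha _ c hc, hb _ c hc, zero_mul, add_zero, smul_zero, Finset.sum_const_zero]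

omit [CharP K 2] in
/-- large parameter: if `L` is nondegenerate on the radical of `Z`, then `L + t Z` is
nondegenerate for some `t` (infinite field). -/
lemma exists_nondeg_large [Infinite K] [Module.Finite K W] {C : Submodule K W}
    {L Z : LinearMap.BilinForm K W} (sL : ∀ u v, L u v = L v u) (sZ : ∀ u v, Z u v = Z v u)
    (cL : ∀ c ∈ C, ∀ k, L c k = 0) (cZ : ∀ c ∈ C, ∀ k, Z c k = 0)
    (h : ∀ u, (∀ k, Z u k = 0) → (∀ k, (∀ k', Z k k' = 0) → L u k = 0) → u ∈ C) :
    ∃ t : K, NonDeg C (L + t • Z) := by
  classical
  obtain ⟨D, hD⟩ := C.exists_isCompl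
  let n := Module.finrank K D
  let e : Module.Basis (Fin n) K D := Module.finBasis K D
  let A : Matrix (Fin n) (Fin n) K := fun i j => L (e i) (e j)
  let B : Matrix (Fin n) (Fin n) K := fun i j => Z (e i) (e j)
  let M : Matrix (Fin n) (Fin n) (Polynomial K) :=
    fun i j => Polynomial.C (A i j) + Polynomial.X * Polynomial.C (B i j)
  -- a form vanishing on `C` and on the basis of `D` vanishes
  have ext0 : ∀ f : W →ₗ[K] K, (∀ c ∈ C, f c = 0) → (∀ i, f (e i) = 0) → ∀ k, f k = 0 := by
    intro f h1 h2 k
    obtain ⟨c, d, rfl, -⟩ := Submodule.existsUnique_add_of_isCompl hD k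
    have : f.domRestrict D = 0 := e.ext fun i => h2 i
    have h3 : f d = 0 := LinearMap.congr_fun this d
    rw [map_add, h1 c c.2, h3, add_zero]
  have hM : M.det ≠ 0 := by
    intro h0
    obtain ⟨v, hv0, hv⟩ := Matrix.exists_mulVec_eq_zero_iff.2 h0
    let w : ℕ → W := fun j => ∑ i, (v i).coeff j • (e i : W)
    have wD : ∀ j, w j ∈ D := fun j =>
      Submodule.sum_mem _ fun i _ => Submodule.smul_mem _ _ (e i).2
    have eq0 : ∀ k, L (w 0) k = 0 := by
      intro k
      refine ext0 (L (w 0)) (fun c hc => by rw [sL, cL c hc]) (fun i => ?_) k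
      have := congrArg (fun p => Polynomial.coeff p 0) (congrFun hv i)
      simp only [Matrix.mulVec, dotProduct, M, add_mul, Polynomial.finsetSum_coeff,
        Polynomial.coeff_add, Polynomial.coeff_C_mul, mul_assoc, Polynomial.coeff_X_mul_zero,
        Pi.zero_apply, Polynomial.coeff_zero, add_zero] at this
      rw [sL]
      simp only [w, map_sum, map_smul, smul_eq_mul]
      rw [← this]
      exact Finset.sum_congr rfl fun j _ => mul_comm _ _
    have eqS : ∀ j k, L (w (j + 1)) k + Z (w j) k = 0 := by
      intro j k
      refine ext0 (L (w (j + 1)) + Z (w j)) (fun c hc => ?_) (fun i => ?_) k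
      · simp only [LinearMap.add_apply]; rw [sL, sZ, cL c hc, cZ c hc, add_zero]
      have := congrArg (fun p => Polynomial.coeff p (j + 1)) (congrFun hv i)
      simp only [Matrix.mulVec, dotProduct, M, add_mul, Polynomial.finsetSum_coeff,
        Polynomial.coeff_add, Polynomial.coeff_C_mul, mul_assoc, Polynomial.coeff_X_mul,
        Pi.zero_apply, Polynomial.coeff_zero, Finset.sum_add_distrib] at this
      simp only [LinearMap.add_apply]
      rw [sL, sZ]
      simp only [w, map_sum, map_smul, smul_eq_mul]
      rw [← this]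
      congr 1 <;> exact Finset.sum_congr rfl fun j _ => mul_comm _ _
    have step : ∀ j, w (j + 1) ∈ C → w j ∈ C := by
      intro j hj
      refine h _ (fun k => ?_) (fun k hk => ?_)
      · have := eqS j k
        rwa [cL _ hj, zero_add] at this
      · cases j with
        | zero => exact eq0 k
        | succ j =>
          have := eqS j k
          rwa [sZ, hk, add_zero] at this
    obtain ⟨N, hN⟩ : ∃ N, ∀ i, (v i).natDegree < N :=
      ⟨Finset.univ.sup (fun i => (v i).natDegree) + 1, fun i =>
        Nat.lt_succ_of_le (Finset.le_sup (f := fun i => (v i).natDegree) (Finset.mem_univ i))⟩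
    have all : ∀ d j, N ≤ j + d → w j ∈ C := by
      intro d
      induction d with
      | zero =>
        intro j hj
        have : w j = 0 := Finset.sum_eq_zero fun i _ => by
          rw [Polynomial.coeff_eq_zero_of_natDegree_lt (n := j) (lt_of_lt_of_le (hN i) hj), zero_smul]
        rw [this]; exact C.zero_mem
      | succ d ih => intro j hj; exact step j (ih (j + 1) (by omega))
    apply hv0
    funext i
    ext j
    have h1 : w j = 0 := by
      have := hD.disjoint
      rw [Submodule.disjoint_def] at this
      exact this _ (all N j (by omega)) (wD j)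
    have h2 : ∑ i, (v i).coeff j • e i = 0 := by
      apply Subtype.ext
      simpa [w] using h1
    simpa using Fintype.linearIndependent_iff.1 e.linearIndependent _ h2 i
  obtain ⟨t, ht⟩ : ∃ t : K, M.det.eval t ≠ 0 := by
    by_contra hn
    push Not at hn
    exact hM (Polynomial.funext fun r => by simpa using hn r)
  refine ⟨t, fun u hu => ?_⟩
  obtain ⟨c, d, rfl, -⟩ := Submodule.existsUnique_add_of_isCompl hD u
  have hdet : (Matrix.of fun i j => A i j + t * B i j).det ≠ 0 := by
    have := (Polynomial.evalRingHom t).map_det M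
    rw [Polynomial.coe_evalRingHom] at this
    rw [this] at ht
    convert ht using 2
    ext i j
    rw [RingHom.mapMatrix_apply, Matrix.map_apply]
    simp only [M, Matrix.of_apply, Polynomial.coe_evalRingHom, Polynomial.eval_add,
      Polynomial.eval_mul, Polynomial.eval_C, Polynomial.eval_X]
  have hz : (fun i => e.repr d i) = 0 := by
    by_contra hne
    refine hdet (Matrix.exists_mulVec_eq_zero_iff.1 ⟨_, hne, ?_⟩)
    funext i
    have := hu (e i)
    simp only [LinearMap.add_apply, LinearMap.smul_apply, map_add, cL c c.2, cZ c c.2, zero_add,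
      smul_eq_mul, mul_zero] at this
    rw [sL, sZ] at this
    have hd : (d : W) = ∑ j, e.repr d j • (e j : W) := by
      have h3 := congrArg D.subtype (e.sum_repr d)
      rw [map_sum] at h3
      exact h3.symm
    rw [hd] at this
    simp only [map_sum, map_smul, smul_eq_mul, Finset.mul_sum, ← Finset.sum_add_distrib] at this
    simp only [Matrix.mulVec, dotProduct, Matrix.of_apply, Pi.zero_apply]
    rw [← this]
    refine Finset.sum_congr rfl fun j _ => ?_
    simp only [A, B]; ring
  have : d = 0 := by
    rw [← e.sum_repr d]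
    exact Finset.sum_eq_zero fun i _ => by rw [congrFun hz i]; simp
  rw [this]; simp

end descent

end Pool.Agent.MP_8c1b0d_co
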