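import Pool.Agent.MP_8c1b0d_co.Tour

set_option autoImplicit false
open SimpleGraph

namespace Pool.Agent.MP_8c1b0d_co

variable {V : Type}

def Good (G : SimpleGraph V) (S : Set V) : Prop :=
  ∃ R B : SimpleGraph (V × Bool), Tour R S ∧ Tour B S ∧ R ≤ G.boxProd ⊤ ∧ B ≤ G.boxProd ⊤ ∧
    ∀ u v l, G.Adj u v → u ∈ S → v ∈ S → (R.Adj (u, l) (v, l) ↔ ¬ B.Adj (u, l) (v, l))

lemma nbrs3 {G : SimpleGraph V} (hc : ∀ v, (G.neighborSet v).ncard = 3) {a w : V}
    (h : G.Adj a w) : ∃ x y, w ≠ x ∧ w ≠ y ∧ x ≠ y ∧ ∀ z, G.Adj a z ↔ z = w ∨ z = x ∨ z = y := by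
  obtain ⟨p, q, r, hpq, hpr, hqr, e⟩ := Set.ncard_eq_three.1 (hc a)
  have e' : ∀ z, G.Adj a z ↔ z = p ∨ z = q ∨ z = r := by
    intro z
    rw [← mem_neighborSet, e]; simp
  rcases (e' w).1 h with k | k | k
  · exact ⟨q, r, k ▸ hpq, k ▸ hpr, hqr, fun z => by rw [e', k]⟩
  · exact ⟨p, r, k ▸ hpq.symm, k ▸ hqr, hpr, fun z => by rw [e', k]; tauto⟩
  · exact ⟨p, q, k ▸ hpr.symm, k ▸ hqr.symm, hpq, fun z => by rw [e', k]; tauto⟩

lemma nbrs3' {G : SimpleGraph V} (hc : ∀ v, (G.neighborSet v).ncard = 3) {w a b : V}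
    (ha : G.Adj w a) (hb : G.Adj w b) (hab : a ≠ b) :
    ∃ c, a ≠ c ∧ b ≠ c ∧ ∀ z, G.Adj w z ↔ z = a ∨ z = b ∨ z = c := by
  obtain ⟨x, y, h1, h2, h3, e⟩ := nbrs3 hc ha
  rcases (e b).1 hb with k | k | k
  · exact absurd k.symm hab
  · exact ⟨y, h2, k ▸ h3, fun z => by rw [e, k]⟩
  · exact ⟨x, h1, k ▸ h3.symm, fun z => by rw [e, k]; tauto⟩

lemma prism_adj {G : SimpleGraph V} {a : V} {l : Bool} {r : V × Bool}
    (h : (G.boxProd (⊤ : SimpleGraph Bool)).Adj (a, l) r) :
    r = (a, !l) ∨ (G.Adj a r.1 ∧ r.2 = l) := by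
  obtain ⟨r1, r2⟩ := r
  rw [boxProd_adj] at h
  rcases h with h | h
  · exact Or.inr ⟨h.1, h.2.symm⟩
  · left
    obtain ⟨h1, h2⟩ := h
    simp only [top_adj] at h1 h2
    subst h2
    cases l <;> cases r2 <;> simp_all

lemma rung_of_port {G : SimpleGraph V} (hc : ∀ v, (G.neighborSet v).ncard = 3) {S : Set V}
    {R B : SimpleGraph (V × Bool)} (hR : Tour R S) (hB : Tour B S)
    (lR : R ≤ G.boxProd ⊤) (lB : B ≤ G.boxProd ⊤)
    (hd : ∀ u v l, G.Adj u v → u ∈ S → v ∈ S → R.Adj (u, l) (v, l) → ¬ B.Adj (u, l) (v, l))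
    {a w : V} (ha : a ∈ S) (hw : w ∉ S) (haw : G.Adj a w) : Rung R a := by
  by_contra hn
  obtain ⟨x, y, h1, h2, h3, e⟩ := nbrs3 hc haw
  obtain ⟨p, q, hpq, hr⟩ := hR.deg (a, false) ha
  obtain ⟨p', q', hpq', hr'⟩ := hB.deg (a, false) ha
  have A : ∀ r, R.Adj (a, false) r → r = (x, false) ∨ r = (y, false) := by
    intro r k
    have k1 := hR.supp _ _ k.symm
    rcases prism_adj (lR k) with m | ⟨m1, m2⟩
    · subst m; exact absurd k hn
    · obtain ⟨r1, r2⟩ := r
      simp only at m1 m2 k1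
      subst m2
      rcases (e _).1 m1 with t | t | t
      · exact absurd (t ▸ k1) hw
      · exact Or.inl (by rw [t])
      · exact Or.inr (by rw [t])
  have A' : ∀ r, B.Adj (a, false) r → r = (a, true) := by
    intro r k
    have k1 := hB.supp _ _ k.symm
    rcases prism_adj (lB k) with m | ⟨m1, m2⟩
    · exact m
    · obtain ⟨r1, r2⟩ := r
      simp only at m1 m2 k1
      subst m2
      exfalso
      refine hd a r1 false m1 ha k1 ?_ k
      have hp := A p ((hr p).2 (Or.inl rfl))
      have hq := A q ((hr q).2 (Or.inr rfl))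
      rw [hr]
      rcases (e _).1 m1 with t | t | t
      · exact absurd (t ▸ k1) hw
      · subst t; grind
      · subst t; grind
  exact hpq' ((A' p' ((hr' p').2 (Or.inl rfl))).trans (A' q' ((hr' q').2 (Or.inr rfl))).symm)

lemma pend_le {G : SimpleGraph V} {H : SimpleGraph (V × Bool)} (h : H ≤ G.boxProd ⊤) {a w : V}
    (haw : G.Adj w a) : pend H a w ≤ G.boxProd ⊤ := by
  rintro x y (k | k | k | k)
  · exact h k.1
  · rw [boxProd_adj]; left; exact ⟨by rw [k.1, k.2.1]; exact haw.symm, k.2.2.1⟩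
  · rw [boxProd_adj]; left; exact ⟨by rw [k.1, k.2.1]; exact haw, k.2.2.1⟩
  · rw [boxProd_adj]; right; exact ⟨k.2.2, k.1.trans k.2.1.symm⟩

lemma band_le {G : SimpleGraph V} {H : SimpleGraph (V × Bool)} (h : H ≤ G.boxProd ⊤) {a b w : V}
    (haw : G.Adj w a) (hbw : G.Adj w b) : band H a b w ≤ G.boxProd ⊤ := by
  rintro x y (k | k | k)
  · exact h k.1
  · rw [boxProd_adj]; left
    refine ⟨?_, k.2.2.1⟩
    rcases k.1 with e | e
    · rw [e, k.2.1]; exact haw.symm
    · rw [e, k.2.1]; exact hbw.symm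
  · rw [boxProd_adj]; left
    refine ⟨?_, k.2.2.1⟩
    rcases k.1 with e | e
    · rw [e, k.2.1]; exact haw
    · rw [e, k.2.1]; exact hbw

lemma Good.step [Finite V] {G : SimpleGraph V} (hc : ∀ v, (G.neighborSet v).ncard = 3) {S : Set V}
    (h : Good G S) {w a b : V} (hw : w ∉ S) (ha : a ∈ S) (hb : b ∈ S) (hab : a ≠ b)
    (haw : G.Adj w a) (hbw : G.Adj w b) : Good G (insert w S) := by
  obtain ⟨R, B, hR, hB, lR, lB, hd⟩ := h
  have rR : ∀ x ∈ S, G.Adj w x → Rung R x := fun x hx k =>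
    rung_of_port hc hR hB lR lB (fun u v l h1 h2 h3 => (hd u v l h1 h2 h3).1) hx hw k.symm
  have rB : ∀ x ∈ S, G.Adj w x → Rung B x := fun x hx k =>
    rung_of_port hc hB hR lB lR
      (fun u v l h1 h2 h3 h4 h5 => (hd u v l h1 h2 h3).1 h5 h4) hx hw k.symm
  have nR : ∀ l y, ¬ R.Adj (w, l) y := fun l y k => hw (hR.supp _ _ k)
  have nB : ∀ l y, ¬ B.Adj (w, l) y := fun l y k => hw (hB.supp _ _ k)
  have nR' : ∀ l y, ¬ R.Adj y (w, l) := fun l y k => nR l y k.symm
  have nB' : ∀ l y, ¬ B.Adj y (w, l) := fun l y k => nB l y k.symm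
  obtain ⟨c, hac, hbc, e⟩ := nbrs3' hc haw hbw hab
  have hcw : G.Adj w c := (e c).2 (Or.inr (Or.inr rfl))
  have step3 : ∀ a b c, a ∈ S → b ∈ S → c ∈ S → a ≠ b → a ≠ c → b ≠ c →
      (∀ z, G.Adj w z ↔ z = a ∨ z = b ∨ z = c) → ¬ Sep R a b w → Good G (insert w S) := by
    intro a b c ha hb hc' hab hac hbc e hs
    have haw : G.Adj w a := (e a).2 (Or.inl rfl)
    have hbw : G.Adj w b := (e b).2 (Or.inr (Or.inl rfl))
    have hcw : G.Adj w c := (e c).2 (Or.inr (Or.inr rfl))
    refine ⟨band R a b w, pend B c w, hR.band (rR a ha haw) (rR b hb hbw) hab hw hs,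
      hB.pend (rB c hc' hcw) hw, band_le lR haw hbw, pend_le lB hcw, ?_⟩
    intro u v l huv hu hv
    have n1 := huv.ne
    have n2 := haw.ne
    have n3 := hbw.ne
    have n4 := hcw.ne
    rcases hu with hu | hu
    · subst hu
      have := (e v).1 huv
      have := nR l (v, l)
      have := nB l (v, l)
      simp only [band, pend]
      grind
    · rcases hv with hv | hv
      · subst hv
        have := (e u).1 huv.symm
        have := nR' l (u, l)
        have := nB' l (u, l)
        simp only [band, pend]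
        grind
      · have := hd u v l huv hu hv
        have : u ≠ w := fun k => hw (k ▸ hu)
        have : v ≠ w := fun k => hw (k ▸ hv)
        simp only [band, pend]
        grind
  by_cases hcS : c ∈ S
  · by_cases s1 : Sep R a b w
    · by_cases s2 : Sep R a c w
      · by_cases s3 : Sep R b c w
        · exact (hR.three (rR a ha haw) (rR b hb hbw) (rR c hcS hcw) hab hac hbc hw s1 s2 s3).elim
        · exact step3 b c a hb hcS ha hbc hab.symm hac.symm (fun z => by rw [e]; tauto) s3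
      · exact step3 a c b ha hcS hb hac hab hbc.symm (fun z => by rw [e]; tauto) s2
    · exact step3 a b c ha hb hcS hab hac hbc e s1
  · refine ⟨pend R a w, pend B b w, hR.pend (rR a ha haw) hw,
      hB.pend (rB b hb hbw) hw, pend_le lR haw, pend_le lB hbw, ?_⟩
    intro u v l huv hu hv
    have n1 := huv.ne
    have n2 := haw.ne
    have n3 := hbw.ne
    rcases hu with hu | hu
    · subst hu
      have := (e v).1 huv
      have := nR l (v, l)
      have := nB l (v, l)
      have : v ≠ c := by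
        rintro rfl
        rcases hv with k | k
        · exact n1 k.symm
        · exact hcS k
      simp only [pend]
      grind
    · rcases hv with hv | hv
      · subst hv
        have := (e u).1 huv.symm
        have := nR' l (u, l)
        have := nB' l (u, l)
        have : u ≠ c := fun k => hcS (k ▸ hu)
        simp only [pend]
        grind
      · have := hd u v l huv hu hv
        have : u ≠ w := fun k => hw (k ▸ hu)
        have : v ≠ w := fun k => hw (k ▸ hv)
        simp only [pend]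
        grind

lemma exists_low {α : Type} [Finite α] [Nonempty α] {F : SimpleGraph α} (h : F.IsAcyclic) :
    ∃ u, ∀ x y, F.Adj u x → F.Adj u y → x = y := by
  obtain ⟨u, v, p, hp, hmax⟩ := Walk.exists_isPath_forall_isPath_length_le_length F
  refine ⟨u, fun x y hx hy => ?_⟩
  have key : ∀ z, F.Adj u z → z = p.snd := by
    intro z hz
    apply h.eq_snd_of_adj_start hp hz
    by_contra k
    have := hmax _ _ (p.cons hz.symm) (hp.cons k)
    simp at this
  rw [key x hx, key y hy]

lemma Good.grow [Finite V] {G : SimpleGraph V} (hc : ∀ v, (G.neighborSet v).ncard = 3) :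
    ∀ (n : ℕ) (S : Set V), (Sᶜ).ncard = n → Good G S → (G.induce Sᶜ).IsAcyclic →
      Good G Set.univ := by
  intro n
  induction n with
  | zero =>
    intro S hn h _
    rw [Set.ncard_eq_zero, Set.compl_empty_iff] at hn
    exact hn ▸ h
  | succ n ih =>
    intro S hn h hF
    have hne : (Sᶜ).Nonempty := Set.nonempty_of_ncard_ne_zero (by omega)
    have : Nonempty (↥(Sᶜ)) := hne.to_subtype
    obtain ⟨⟨w, hw⟩, hlow⟩ := exists_low hF
    have hlow' : ∀ x y, x ∉ S → y ∉ S → G.Adj w x → G.Adj w y → x = y := by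
      intro x y hx hy k1 k2
      exact congrArg Subtype.val (hlow ⟨x, hx⟩ ⟨y, hy⟩ k1 k2)
    obtain ⟨p, q, r, hpq, hpr, hqr, e⟩ := Set.ncard_eq_three.1 (hc w)
    have hp : G.Adj w p := by rw [← mem_neighborSet, e]; simp
    have hq : G.Adj w q := by rw [← mem_neighborSet, e]; simp
    have hr : G.Adj w r := by rw [← mem_neighborSet, e]; simp
    have hg : Good G (insert w S) := by
      by_cases sp : p ∈ S
      · by_cases sq : q ∈ S
        · exact h.step hc hw sp sq hpq hp hq
        · by_cases sr : r ∈ S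
          · exact h.step hc hw sp sr hpr hp hr
          · exact absurd (hlow' _ _ sq sr hq hr) hqr
      · by_cases sq : q ∈ S
        · by_cases sr : r ∈ S
          · exact h.step hc hw sq sr hqr hq hr
          · exact absurd (hlow' _ _ sp sr hp hr) hpr
        · exact absurd (hlow' _ _ sp sq hp hq) hpq
    refine ih (insert w S) ?_ hg ?_
    · have : (insert w S)ᶜ = Sᶜ \ {w} := by ext z; simp [and_comm]
      rw [this, Set.ncard_sdiff_singleton_of_mem hw]; omega
    · have hsub : (insert w S)ᶜ ⊆ Sᶜ := Set.compl_subset_compl.2 (Set.subset_insert _ _)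
      exact hF.embedding (G.induceHomOfLE hsub)

lemma Tour.ham [Fintype V] [DecidableEq V] [Nonempty V] {H K : SimpleGraph (V × Bool)}
    (h : Tour H Set.univ) (hle : H ≤ K) :
    ∃ (a : V × Bool) (c : K.Walk a a), c.IsHamiltonianCycle ∧ ∀ e, e ∈ c.edges ↔ e ∈ H.edgeSet := by
  classical
  obtain ⟨v⟩ := ‹Nonempty V›
  let a : V × Bool := (v, false)
  have hreach : ∀ x, H.Reachable a x := fun x =>
    h.conn _ (closed_reach H a) a x trivial trivial (Reachable.refl _)
  obtain ⟨p, q, hpq, hr⟩ := h.deg a trivial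
  obtain ⟨c, hc, hv⟩ := h.isCycles.exists_cycle_toSubgraph_verts_eq_connectedComponentSupp
    (c := H.connectedComponentMk a) (v := a) rfl ⟨p, (hr p).2 (Or.inl rfl)⟩
  have hall : ∀ x, x ∈ c.toSubgraph.verts := by
    intro x
    rw [hv, ConnectedComponent.mem_supp_iff, ConnectedComponent.eq]
    exact (hreach x).symm
  have hham : c.IsHamiltonianCycle := by
    rw [Walk.isHamiltonianCycle_iff_isCycle_and_support_count_tail_eq_one]
    refine ⟨hc, fun x => ?_⟩
    refine @List.count_eq_one_of_mem _ instBEqOfDecidableEq _ _ _ hc.support_nodup ?_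
    have hx := c.mem_verts_toSubgraph.1 (hall x)
    rw [Walk.mem_support_iff] at hx
    rcases hx with rfl | hx
    · exact c.end_mem_tail_support hc.not_nil
    · exact hx
  refine ⟨a, c.map (Hom.ofLE hle), hham.map Function.bijective_id, ?_⟩
  intro e
  rw [Walk.edges_map]
  simp only [Hom.coe_ofLE, Sym2.map_id, List.map_id_fun, id_eq]
  induction e using Sym2.ind with
  | _ x y =>
    rw [← Walk.adj_toSubgraph_iff_mem_edges, hc.adj_toSubgraph_iff_of_isCycles h.isCycles (hall x)]
    rfl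

lemma Good.final [Fintype V] [DecidableEq V] [Nonempty V] {G : SimpleGraph V}
    (hc : ∀ v, (G.neighborSet v).ncard = 3) (h : Good G Set.univ) :
    ∃ (a b : V × Bool)
        (c₁ : (G.boxProd (⊤ : SimpleGraph Bool)).Walk a a)
        (c₂ : (G.boxProd (⊤ : SimpleGraph Bool)).Walk b b),
        c₁.IsHamiltonianCycle ∧ c₂.IsHamiltonianCycle ∧
        ∀ e ∈ (G.boxProd (⊤ : SimpleGraph Bool)).edgeSet,
          (e ∈ c₁.edges ↔ e ∉ c₂.edges) := by
  obtain ⟨R, B, hR, hB, lR, lB, hd⟩ := h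
  obtain ⟨a, c₁, h1, e1⟩ := hR.ham lR
  obtain ⟨b, c₂, h2, e2⟩ := hB.ham lB
  refine ⟨a, b, c₁, c₂, h1, h2, ?_⟩
  intro e he
  rw [e1, e2]
  induction e using Sym2.ind with
  | _ x y =>
    obtain ⟨u, l⟩ := x
    rw [mem_edgeSet] at he ⊢
    rw [mem_edgeSet]
    rcases prism_adj he with m | ⟨m1, m2⟩
    · subst m
      obtain ⟨p, q, r, hpq, hpr, hqr, e⟩ := Set.ncard_eq_three.1 (hc u)
      have e' : ∀ z, G.Adj u z ↔ z = p ∨ z = q ∨ z = r := by
        intro z
        rw [← mem_neighborSet, e]; simp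
      obtain ⟨p1, q1, n1, r1⟩ := hR.deg (u, l) trivial
      obtain ⟨p2, q2, n2, r2⟩ := hB.deg (u, l) trivial
      have dp := hd u p l ((e' p).2 (Or.inl rfl)) trivial trivial
      have dq := hd u q l ((e' q).2 (Or.inr (Or.inl rfl))) trivial trivial
      have dr := hd u r l ((e' r).2 (Or.inr (Or.inr rfl))) trivial trivial
      have key : ∀ z, (G.boxProd (⊤ : SimpleGraph Bool)).Adj (u, l) z →
          z = (u, !l) ∨ z = (p, l) ∨ z = (q, l) ∨ z = (r, l) := by
        rintro ⟨z1, z2⟩ hz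
        rcases prism_adj hz with m | ⟨m1, m2⟩
        · exact Or.inl m
        · simp only at m1 m2
          subst m2
          rcases (e' _).1 m1 with t | t | t <;> simp [t]
      have k1 := key p1 (lR ((r1 p1).2 (Or.inl rfl)))
      have k2 := key q1 (lR ((r1 q1).2 (Or.inr rfl)))
      have k3 := key p2 (lB ((r2 p2).2 (Or.inl rfl)))
      have k4 := key q2 (lB ((r2 q2).2 (Or.inr rfl)))
      rw [r1, r2] at dp dq dr ⊢
      have t1 : (u, !l) ≠ (p, l) := by cases l <;> simp
      have t2 : (u, !l) ≠ (q, l) := by cases l <;> simp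
      have t3 : (u, !l) ≠ (r, l) := by cases l <;> simp
      have t4 : (p, l) ≠ (q, l) := by simp [hpq]
      have t5 : (p, l) ≠ (r, l) := by simp [hpr]
      have t6 : (q, l) ≠ (r, l) := by simp [hqr]
      generalize (u, !l) = z0 at *
      generalize (p, l) = z1 at *
      generalize (q, l) = z2 at *
      generalize (r, l) = z3 at *
      grind
    · obtain ⟨v, l'⟩ := y
      simp only at m1 m2
      subst m2
      exact hd u v _ m1 trivial trivial

end Pool.Agent.MP_8c1b0d_co
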