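import Pool.Agent.MP_8c1b0d_co.Alg
import Pool.Agent.MP_8c1b0d_co.Grow

set_option autoImplicit false
open SimpleGraph

namespace Pool.Agent.MP_8c1b0d_co

/-- A 3-edge-coloured cubic plane graph: colour classes `x y m` (involutions), faces `Φ`;
`fx v` is the face at `v` that does not contain the `x`-edge at `v`, and so on. -/
structure Col (V Φ : Type) where
  x : V → V
  y : V → V
  m : V → V
  fx : V → Φ
  fy : V → Φ
  fm : V → Φ
  xx : ∀ v, x (x v) = v
  yy : ∀ v, y (y v) = v
  mm : ∀ v, m (m v) = v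
  x_ne : ∀ v, x v ≠ v
  y_ne : ∀ v, y v ≠ v
  m_ne : ∀ v, m v ≠ v
  xy : ∀ v, x v ≠ y v
  xm : ∀ v, x v ≠ m v
  ym : ∀ v, y v ≠ m v
  hx : ∀ v, s(fy (x v), fm (x v)) = s(fy v, fm v)
  hy : ∀ v, s(fx (y v), fm (y v)) = s(fx v, fm v)
  hm : ∀ v, s(fx (m v), fy (m v)) = s(fx v, fy v)
  planar : ∀ f g : V → ZMod 2, (∀ v, f (x v) = f v) → (∀ v, g (y v) = g v) →
    (∀ v, f (m v) + g (m v) = f v + g v) →
    ∃ h : Φ → ZMod 2, ∀ v, f v = h (fy v) + h (fm v) ∧ g v = h (fx v) + h (fm v)

variable {V Φ : Type}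

/-- one colour of the prism: `s l` at level `l`, `m`-edges where `r`, rungs elsewhere -/
def layer (s : Bool → V → V) (m : V → V) (r : V → Bool) : SimpleGraph (V × Bool) :=
  SimpleGraph.fromRel fun a b =>
    b = (s a.2 a.1, a.2) ∨ b = (if r a.1 then (m a.1, a.2) else (a.1, !a.2))

lemma layer_adj {s : Bool → V → V} {m : V → V} {r : V → Bool} (ss : ∀ l v, s l (s l v) = v)
    (mm : ∀ v, m (m v) = v) (rm : ∀ v, r (m v) = r v) (s_ne : ∀ l v, s l v ≠ v)
    (m_ne : ∀ v, m v ≠ v) (a b : V × Bool) :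
    (layer s m r).Adj a b ↔
      b = (s a.2 a.1, a.2) ∨ b = (if r a.1 then (m a.1, a.2) else (a.1, !a.2)) := by
  obtain ⟨u, l⟩ := a
  obtain ⟨v, k⟩ := b
  have h1 := ss l u
  have h2 := ss k v
  have h3 := mm u
  have h4 := mm v
  have h5 := rm u
  have h6 := rm v
  have h7 := s_ne l u
  have h8 := m_ne u
  simp only [layer, fromRel_adj, ne_eq, Prod.mk.injEq]
  cases hu : r u <;> cases hv : r v <;> cases l <;> cases k <;>
    simp only [Prod.mk.injEq, Bool.false_eq_true, if_true, if_false, Bool.not_true,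
      Bool.not_false] <;> grind

lemma layer_tour {s : Bool → V → V} {m : V → V} {r : V → Bool} (ss : ∀ l v, s l (s l v) = v)
    (mm : ∀ v, m (m v) = v) (rm : ∀ v, r (m v) = r v) (s_ne : ∀ l v, s l v ≠ v)
    (m_ne : ∀ v, m v ≠ v) (sm : ∀ l v, s l v ≠ m v)
    (hc : ∀ f : Bool → V → ZMod 2, (∀ l v, f l (s l v) = f l v) →
      (∀ l v, r v = true → f l (m v) = f l v) → (∀ v, r v = false → f false v = f true v) →
      ∃ c, ∀ l v, f l v = c) :
    Tour (layer s m r) Set.univ := by
  classical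
  have A := layer_adj ss mm rm s_ne m_ne
  refine ⟨fun a _ => ⟨_, _, ?_, A a⟩, fun _ _ _ => trivial, fun P hP a b _ _ ha => ?_⟩
  · have h1 := sm a.2 a.1
    have h2 := s_ne a.2 a.1
    cases r a.1 <;> simp [h1, h2]
  · obtain ⟨c, hc⟩ := hc (fun l v => if P (v, l) then 1 else 0)
      (fun l v => by rw [hP.iff ((A (v, l) _).2 (Or.inl rfl))])
      (fun l v h => by
        rw [hP.iff ((A (v, l) (m v, l)).2 (Or.inr (by simp [h])))])
      (fun v h => by
        rw [hP.iff ((A (v, false) (v, true)).2 (Or.inr (by simp [h])))])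
    have e1 := hc a.2 a.1
    have e2 := hc b.2 b.1
    simp only [Prod.mk.eta, ha, if_true] at e1 e2
    by_contra hb
    rw [if_neg hb, ← e1] at e2
    exact zero_ne_one e2

namespace Col
variable (c : Col V Φ) (K : Type*) [Field K]

/-- evaluation of a face function -/
abbrev ev (a : Φ) : (Φ → K) →ₗ[K] K := LinearMap.proj a
/-- difference across the `m`-edge at `v` -/
def p (v : V) : (Φ → K) →ₗ[K] K := ev K (c.fx v) + ev K (c.fy v)
/-- difference of the two faces at the ends of the `m`-edge at `v` -/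
def q (v : V) : (Φ → K) →ₗ[K] K := ev K (c.fm v) + ev K (c.fm (c.m v))
/-- `0` for an untwisted `m`-edge, `p v` for a twisted one -/
def tw (v : V) : (Φ → K) →ₗ[K] K := ev K (c.fy v) + ev K (c.fy (c.m v))
/-- face functions that are constant on both sides -/
def triv : Submodule K (Φ → K) where
  carrier := {h | ∃ d, ∀ v, h (c.fy v) + h (c.fm v) = d ∧ h (c.fx v) + h (c.fm v) = d}
  zero_mem' := ⟨0, by simp⟩
  add_mem' := by
    rintro a b ⟨d, hd⟩ ⟨e, he⟩
    refine ⟨d + e, fun v => ⟨?_, ?_⟩⟩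
    · simp only [Pi.add_apply]; linear_combination (hd v).1 + (he v).1
    · simp only [Pi.add_apply]; linear_combination (hd v).2 + (he v).2
  smul_mem' := by
    rintro t a ⟨d, hd⟩
    refine ⟨t * d, fun v => ⟨?_, ?_⟩⟩
    · simp only [Pi.smul_apply, smul_eq_mul]; linear_combination t * (hd v).1
    · simp only [Pi.smul_apply, smul_eq_mul]; linear_combination t * (hd v).2
/-- the constant part: `∑ p ⊗ (tw + q)` over a transversal `T` of the `m`-edges -/
def base (T : Finset V) : LinearMap.BilinForm K (Φ → K) :=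
  ∑ v ∈ T, (LinearMap.mul K K).compl₁₂ (c.p K v) (c.tw K v + c.q K v)

variable {K}
lemma p_apply (v : V) (h : Φ → K) : c.p K v h = h (c.fx v) + h (c.fy v) := rfl
lemma q_apply (v : V) (h : Φ → K) : c.q K v h = h (c.fm v) + h (c.fm (c.m v)) := rfl
lemma tw_apply (v : V) (h : Φ → K) : c.tw K v h = h (c.fy v) + h (c.fy (c.m v)) := rfl
lemma base_apply (T : Finset V) (h k : Φ → K) :
    c.base K T h k = ∑ v ∈ T, c.p K v h * (c.tw K v k + c.q K v k) := by
  simp [base, LinearMap.sum_apply]

lemma m_cases (v : V) : (c.fx (c.m v) = c.fx v ∧ c.fy (c.m v) = c.fy v) ∨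
    (c.fx (c.m v) = c.fy v ∧ c.fy (c.m v) = c.fx v) := Sym2.eq_iff.1 (c.hm v)

variable [CharP K 2]

lemma tw_cases (v : V) : c.tw K v = 0 ∨ c.tw K v = c.p K v := by
  rcases c.m_cases v with h | h
  · left; ext1 k; rw [tw_apply, h.2]; exact CharTwo.add_self_eq_zero _
  · right; ext1 k; rw [tw_apply, h.2, p_apply, add_comm]

omit [CharP K 2] in
lemma p_m (v : V) : c.p K (c.m v) = c.p K v := by
  ext1 k
  rcases c.m_cases v with h | h <;> rw [p_apply, p_apply, h.1, h.2]
  rw [add_comm]

lemma triv_p {h : Φ → K} (hh : h ∈ c.triv K) (v : V) : c.p K v h = 0 := by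
  obtain ⟨d, hd⟩ := hh
  have two : (2 : K) = 0 := CharTwo.two_eq_zero
  rw [p_apply]
  linear_combination (hd v).1 + (hd v).2 + (d - h (c.fm v)) * two

lemma triv_q {h : Φ → K} (hh : h ∈ c.triv K) (v : V) : c.q K v h = 0 := by
  have hp := c.triv_p hh v
  obtain ⟨d, hd⟩ := hh
  have two : (2 : K) = 0 := CharTwo.two_eq_zero
  rw [p_apply] at hp
  rw [q_apply]
  have e1 := (hd v).1
  have e2 := (hd (c.m v)).1
  rcases c.m_cases v with e | e <;> rw [e.2] at e2
  · linear_combination e1 + e2 + (d - h (c.fy v)) * two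
  · linear_combination e1 + e2 - hp + d * two

lemma sum_invol [Fintype V] {s : V → V} (ss : ∀ v, s (s v) = v) (s_ne : ∀ v, s v ≠ v)
    (F : V → K) (hF : ∀ v, F (s v) = F v) : ∑ v, F v = 0 :=
  Finset.sum_involution (fun v _ => s v)
    (fun v _ => by rw [hF]; exact CharTwo.add_self_eq_zero _) (fun v _ _ => s_ne v)
    (fun _ _ => Finset.mem_univ _) (fun v _ => ss v)

omit [CharP K 2] in
lemma sum_trans [Fintype V] [DecidableEq V] {T : Finset V} (hT : ∀ v, c.m v ∈ T ↔ v ∉ T)
    (F : V → K) : ∑ v, F v = ∑ v ∈ T, (F v + F (c.m v)) := by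
  rw [Finset.sum_add_distrib, ← Finset.sum_add_sum_compl T]
  congr 1
  refine Finset.sum_bij' (fun v _ => c.m v) (fun v _ => c.m v) ?_ ?_ ?_ ?_ ?_
  · intro v hv; exact (hT v).2 (Finset.mem_compl.1 hv)
  · intro v hv; exact Finset.mem_compl.2 fun k => (hT v).1 k hv
  · intro v _; exact c.mm v
  · intro v _; exact c.mm v
  · intro v _; rw [c.mm]

/-- cuts of the two dual graphs are orthogonal -/
lemma orth [Fintype V] [DecidableEq V] {T : Finset V} (hT : ∀ v, c.m v ∈ T ↔ v ∉ T)
    (h k : Φ → K) : ∑ v ∈ T, (c.p K v h * c.q K v k + c.q K v h * c.p K v k) = 0 := by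
  have e1 := sum_invol c.xx c.x_ne
    (fun v => h (c.fy v) * k (c.fm v) + h (c.fm v) * k (c.fy v)) fun v => by
      rcases Sym2.eq_iff.1 (c.hx v) with e | e <;> simp only [e.1, e.2]
      ring
  have e2 := sum_invol c.yy c.y_ne
    (fun v => h (c.fx v) * k (c.fm v) + h (c.fm v) * k (c.fx v)) fun v => by
      rcases Sym2.eq_iff.1 (c.hy v) with e | e <;> simp only [e.1, e.2]
      ring
  have e3 : ∑ v, (c.p K v h * k (c.fm v) + h (c.fm v) * c.p K v k) = 0 := by
    rw [← add_zero (0 : K)]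
    nth_rewrite 1 [← e1]
    rw [← e2, ← Finset.sum_add_distrib]
    refine Finset.sum_congr rfl fun v _ => ?_
    simp only [p_apply]; ring
  rw [c.sum_trans hT] at e3
  rw [← e3]
  refine Finset.sum_congr rfl fun v _ => ?_
  rw [p_m, q_apply, q_apply]; ring

lemma base_symm [Fintype V] [DecidableEq V] {T : Finset V} (hT : ∀ v, c.m v ∈ T ↔ v ∉ T)
    (h k : Φ → K) : c.base K T h k = c.base K T k h := by
  have two : (2 : K) = 0 := CharTwo.two_eq_zero
  have e : c.base K T h k + c.base K T k h = 0 := by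
    rw [base_apply, base_apply, ← Finset.sum_add_distrib, ← c.orth hT h k]
    refine Finset.sum_congr rfl fun v _ => ?_
    rcases c.tw_cases (K := K) v with e | e <;> rw [e]
    · simp only [LinearMap.zero_apply]; ring
    · linear_combination (c.p K v h * c.p K v k) * two
  linear_combination e - (c.base K T k h) * two

/-- one colour is connected as soon as the transition equations have only trivial solutions -/
lemma conn_of {r : V → Bool} (rm : ∀ v, r (c.m v) = r v)
    (hn : ∀ h : Φ → K, (∀ v, r v = true → c.tw K v h + c.q K v h = 0) →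
      (∀ v, r v = false → c.p K v h = 0) → h ∈ c.triv K)
    (f g : V → ZMod 2) (hf : ∀ v, f (c.x v) = f v) (hg : ∀ v, g (c.y v) = g v)
    (h1 : ∀ v, r v = true → f (c.m v) = f v ∧ g (c.m v) = g v)
    (h0 : ∀ v, r v = false → f v = g v) : ∃ d, ∀ v, f v = d ∧ g v = d := by
  obtain ⟨h, hh⟩ := c.planar f g hf hg fun v => by
    cases e : r v
    · rw [h0 v e, h0 _ ((rm v).trans e), CharTwo.add_self_eq_zero, CharTwo.add_self_eq_zero]
    · rw [(h1 v e).1, (h1 v e).2]
  let ι : ZMod 2 →+* K := ZMod.castHom (dvd_refl 2) K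
  have two : (2 : ZMod 2) = 0 := rfl
  obtain ⟨d, hd⟩ := hn (fun a => ι (h a)) (fun v e => by
      simp only [tw_apply, q_apply, ← map_add]
      rw [← map_zero ι]; congr 1
      linear_combination (h1 v e).1 - (hh v).1 - (hh (c.m v)).1 + f v * two) (fun v e => by
      simp only [p_apply, ← map_add]
      rw [← map_zero ι]; congr 1
      linear_combination h0 v e - (hh v).1 - (hh v).2 + (g v - h (c.fm v)) * two)
  simp only [← map_add, ← (hh _).1, ← (hh _).2] at hd
  rcases isEmpty_or_nonempty V with hV | ⟨⟨v₀⟩⟩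
  · exact ⟨0, fun v => hV.elim v⟩
  · exact ⟨f v₀, fun v => ⟨ι.injective ((hd v).1.trans (hd v₀).1.symm),
      ι.injective ((hd v).2.trans (hd v₀).1.symm)⟩⟩

omit [CharP K 2] in
/-- both colours connected -/
theorem good_of_conn {G : SimpleGraph V}
    (hG : ∀ u v, G.Adj u v ↔ v = c.x u ∨ v = c.y u ∨ v = c.m u) {r : V → Bool}
    (rm : ∀ v, r (c.m v) = r v)
    (red : ∀ f g : V → ZMod 2, (∀ v, f (c.x v) = f v) → (∀ v, g (c.y v) = g v) →
      (∀ v, r v = true → f (c.m v) = f v ∧ g (c.m v) = g v) → (∀ v, r v = false → f v = g v) →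
      ∃ d, ∀ v, f v = d ∧ g v = d)
    (blue : ∀ f g : V → ZMod 2, (∀ v, f (c.x v) = f v) → (∀ v, g (c.y v) = g v) →
      (∀ v, (!r v) = true → f (c.m v) = f v ∧ g (c.m v) = g v) →
      (∀ v, (!r v) = false → f v = g v) → ∃ d, ∀ v, f v = d ∧ g v = d) :
    Good G Set.univ := by
  have rm' : ∀ v, (!r (c.m v)) = !r v := fun v => by rw [rm]
  have s1 : ∀ (l : Bool) v, cond l c.y c.x (cond l c.y c.x v) = v := by
    intro l v; cases l; exacts [c.xx v, c.yy v]
  have s2 : ∀ (l : Bool) v, cond l c.x c.y (cond l c.x c.y v) = v := by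
    intro l v; cases l; exacts [c.yy v, c.xx v]
  have n1 : ∀ (l : Bool) v, cond l c.y c.x v ≠ v := by
    intro l v; cases l; exacts [c.x_ne v, c.y_ne v]
  have n2 : ∀ (l : Bool) v, cond l c.x c.y v ≠ v := by
    intro l v; cases l; exacts [c.y_ne v, c.x_ne v]
  have A1 := layer_adj (r := r) s1 c.mm rm n1 c.m_ne
  have A2 := layer_adj (r := fun v => !r v) s2 c.mm rm' n2 c.m_ne
  refine ⟨layer (fun l => cond l c.y c.x) c.m r, layer (fun l => cond l c.x c.y) c.m fun v => !r v,
    layer_tour s1 c.mm rm n1 c.m_ne ?_ ?_, layer_tour s2 c.mm rm' n2 c.m_ne ?_ ?_, ?_, ?_, ?_⟩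
  · intro l v; cases l; exacts [c.xm v, c.ym v]
  · intro f h1 h2 h3
    obtain ⟨d, hd⟩ := red (f false) (f true) (h1 false) (h1 true)
      (fun v e => ⟨h2 _ v e, h2 _ v e⟩) h3
    exact ⟨d, fun l v => by cases l; exacts [(hd v).1, (hd v).2]⟩
  · intro l v; cases l; exacts [c.ym v, c.xm v]
  · intro f h1 h2 h3
    obtain ⟨d, hd⟩ := blue (f true) (f false) (h1 true) (h1 false)
      (fun v e => ⟨h2 _ v e, h2 _ v e⟩) (fun v e => (h3 v e).symm)
    exact ⟨d, fun l v => by cases l; exacts [(hd v).2, (hd v).1]⟩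
  · rintro ⟨u, l⟩ b hb
    rw [boxProd_adj]
    rcases (A1 _ _).1 hb with rfl | rfl
    · left; cases l <;> simp [hG]
    · cases r u <;> cases l <;> simp [hG]
  · rintro ⟨u, l⟩ b hb
    rw [boxProd_adj]
    rcases (A2 _ _).1 hb with rfl | rfl
    · left; cases l <;> simp [hG]
    · cases r u <;> cases l <;> simp [hG]
  · intro u v l huv _ _
    rw [A1, A2]
    have := (hG u v).1 huv
    have := c.xy u
    have := c.xm u
    have := c.ym u
    cases l <;> cases r u <;> simp <;> grind

/-- BRIDGE: if `base + ∑ z_v p_v ⊙ q_v` is nondegenerate modulo the trivial face functions for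
some `z` in some field of characteristic two, the prism has a Hamilton decomposition. -/
theorem good_of_nonDeg [Fintype V] [DecidableEq V] {G : SimpleGraph V}
    (hG : ∀ u v, G.Adj u v ↔ v = c.x u ∨ v = c.y u ∨ v = c.m u)
    {T : Finset V} (hT : ∀ v, c.m v ∈ T ↔ v ∉ T) (z : V → K)
    (h : NonDeg (c.triv K) (c.base K T + ∑ v ∈ T, z v • symF (c.p K v) (c.q K v))) :
    Good G Set.univ := by
  have two : (2 : K) = 0 := CharTwo.two_eq_zero
  obtain ⟨r₀, hr⟩ := descent_all (c.p K) (c.q K) (fun v _ hc => c.triv_p hc v)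
    (fun v _ hc => c.triv_q hc v) z T (c.base_symm hT)
    (fun a ha k => by simp [base_apply, c.triv_p ha]) h
  let r : V → Bool := fun v => if v ∈ T then r₀ v else r₀ (c.m v)
  have rT : ∀ v ∈ T, r v = r₀ v := fun v hv => if_pos hv
  have rm : ∀ v, r (c.m v) = r v := by
    intro v
    by_cases hv : v ∈ T
    · have : c.m v ∉ T := fun k => (hT v).1 k hv
      simp [r, hv, this, c.mm]
    · simp [r, hv, (hT v).2 hv]
  set N := c.base K T + ∑ v ∈ T, (if r₀ v then (1 : K) else 0) • symF (c.p K v) (c.q K v) with hN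
  have Nap : ∀ a k, N a k = ∑ v ∈ T, if r v then (c.tw K v a + c.q K v a) * c.p K v k
      else c.p K v a * (c.tw K v k + c.q K v k) := by
    intro a k
    simp only [hN, LinearMap.add_apply, LinearMap.sum_apply, LinearMap.smul_apply, symF_apply,
      base_apply, ← Finset.sum_add_distrib, smul_eq_mul]
    refine Finset.sum_congr rfl fun v hv => ?_
    rw [rT v hv]
    cases r₀ v
    · simp
    · simp only [if_true]
      rcases c.tw_cases (K := K) v with e | e <;> rw [e]
      · simp only [LinearMap.zero_apply]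
        linear_combination (c.p K v a * c.q K v k) * two
      · linear_combination (c.p K v a * c.q K v k) * two
  have Ns : ∀ a k, N a k = N k a := by
    intro a k
    simp only [hN, LinearMap.add_apply, LinearMap.sum_apply, LinearMap.smul_apply, symF_apply,
      c.base_symm hT a k]
    refine congrArg _ (Finset.sum_congr rfl fun i _ => ?_)
    ring
  have red := c.conn_of (K := K) rm fun a h1 h0 => hr a fun k => by
    rw [Nap]
    refine Finset.sum_eq_zero fun v _ => ?_
    cases e : r v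
    · simp [h0 v e]
    · simp [h1 v e]
  have blue := c.conn_of (K := K) (r := fun v => !r v) (fun v => by rw [rm]) fun a h1 h0 =>
    hr a fun k => by
      rw [Ns, Nap]
      refine Finset.sum_eq_zero fun v _ => ?_
      cases e : r v
      · simp [h1 v (by simp [e])]
      · simp [h0 v (by simp [e])]
  exact c.good_of_conn hG rm red blue

end Col

end Pool.Agent.MP_8c1b0d_co
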