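import Pool.Agent.MP_8c1b0d_co.CH

set_option autoImplicit false
set_option linter.unusedSectionVars false
open Finset Module

namespace Pool.Agent.MP_8c1b0d_co
namespace HS
variable {K H N B : Type} [Field K] [CharP K 2] [Fintype H] [DecidableEq H] [Fintype N]
  [DecidableEq N] [DecidableEq B] (s : HS K H N B)

/-- half-edges of a set of blocks -/
def HB (S : Finset B) : Finset H := {h | s.bl (s.nd h) ∈ S}
/-- half-edges whose other half lies in `S` -/
def tw (S : Finset B) : Finset H := {h | s.bl (s.nd (s.o h)) ∈ S}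
/-- legs of `S` -/
def bd (S : Finset B) : Finset H := {h | s.bl (s.nd h) ∈ S ∧ s.bl (s.nd (s.o h)) ∉ S}
/-- solutions on `S` with free legs -/
def G (S : Finset B) : Submodule K (H → K) where
  carrier := {f | f ∈ s.T ∧ (∀ h, s.bl (s.nd h) ∉ S → f h = 0) ∧
    ∀ h, s.bl (s.nd h) ∈ S → s.bl (s.nd (s.o h)) ∈ S → f (s.o h) = f h}
  zero_mem' := ⟨s.T.zero_mem, fun _ _ => rfl, fun _ _ _ => rfl⟩
  add_mem' := fun ha hb => ⟨s.T.add_mem ha.1 hb.1,
    fun h hh => by simp only [Pi.add_apply, ha.2.1 h hh, hb.2.1 h hh, add_zero],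
    fun h h1 h2 => by simp only [Pi.add_apply, ha.2.2 h h1 h2, hb.2.2 h h1 h2]⟩
  smul_mem' := fun t a ha => ⟨s.T.smul_mem t ha.1,
    fun h hh => by simp only [Pi.smul_apply, ha.2.1 h hh, smul_zero],
    fun h h1 h2 => by simp only [Pi.smul_apply, ha.2.2 h h1 h2]⟩
/-- dimension of the solutions on `S` vanishing on `Z` -/
noncomputable def g (S : Finset B) (Z : Finset H) : ℕ :=
  finrank K (s.G S ⊓ spt K Zᶜ : Submodule K (H → K))
/-- `S` is connected -/
def Conn (S : Finset B) : Prop := ∀ S₁ ⊆ S, S₁.Nonempty → S₁ ≠ S →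
  ∃ h, s.bl (s.nd h) ∈ S₁ ∧ s.bl (s.nd (s.o h)) ∈ S ∧ s.bl (s.nd (s.o h)) ∉ S₁
/-- class half-edges in `S` -/
def hcS (S : Finset B) : ℕ := #{h | s.bl (s.nd h) ∈ S ∧ s.bl (s.nd h) ∈ s.cls}
/-- twice the class nodes plus the classes in `S` -/
def ncS (S : Finset B) : ℕ := 2 * #{v | s.bl v ∈ S ∧ s.bl v ∈ s.cls} + #(S ∩ s.cls)
/-- no class has a leg word of weight two -/
def t1 : Prop := ∀ b ∈ s.cls, ∀ e ∈ s.bd {b}, ∀ f ∈ s.bd {b}, e ≠ f → ∀ t ∈ s.G {b},
  cut (s.bd {b}) t ≠ chi K {e, f}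
/-- no set of nodes has exactly two legs -/
def t2 : Prop := ∀ S : Finset N, #{h | s.nd h ∈ S ∧ s.nd (s.o h) ∉ S} ≠ 2
/-- atoms of the block `b`: the components along inner edges -/
structure Atoms (b : B) {At : Type} (am : N → At) : Prop where
  inn : ∀ h, s.bl (s.nd h) = b → s.bl (s.nd (s.o h)) = b → am (s.nd (s.o h)) = am (s.nd h)
  gen : ∀ c : N → K, (∀ h, s.bl (s.nd h) = b → s.bl (s.nd (s.o h)) = b →
    c (s.nd (s.o h)) = c (s.nd h)) → ∀ v v', s.bl v = b → s.bl v' = b → am v = am v' → c v = c v'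
  surj : ∀ a, ∃ v, s.bl v = b ∧ am v = a

lemma mem_G {S : Finset B} {f : H → K} : f ∈ s.G S ↔ f ∈ s.T ∧
    (∀ h, s.bl (s.nd h) ∉ S → f h = 0) ∧
    ∀ h, s.bl (s.nd h) ∈ S → s.bl (s.nd (s.o h)) ∈ S → f (s.o h) = f h := Iff.rfl

end HS
end Pool.Agent.MP_8c1b0d_co

set_option autoImplicit false
set_option linter.unusedSectionVars false
open Finset Module

namespace Pool.Agent.MP_8c1b0d_co
namespace HS
variable {K H N B : Type} [Field K] [CharP K 2] [Fintype H] [DecidableEq H] [Fintype N]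
  [DecidableEq N] [DecidableEq B] (s : HS K H N B)

lemma c1_mem_HB {S : Finset B} {h : H} : h ∈ s.HB S ↔ s.bl (s.nd h) ∈ S := by
  simp [HB]

lemma c1_mem_tw {S : Finset B} {h : H} : h ∈ s.tw S ↔ s.bl (s.nd (s.o h)) ∈ S := by
  simp [tw]

/-- `loc` for a set of blocks (induction on `S`, `cut` of a disjoint union is the sum) -/
theorem cut_HB_mem (S : Finset B) (f : H → K) (hf : f ∈ s.T) : cut (s.HB S) f ∈ s.T := by
  induction S using Finset.induction_on with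
  | empty =>
    have : cut (s.HB ∅) f = 0 := by
      ext e
      simp [cut_apply, c1_mem_HB]
    rw [this]; exact s.T.zero_mem
  | insert b S hb ih =>
    have : cut (s.HB (insert b S)) f = cut {h | s.bl (s.nd h) = b} f + cut (s.HB S) f := by
      ext e
      simp only [cut_apply, c1_mem_HB, Pi.add_apply, mem_insert, mem_filter, mem_univ, true_and]
      by_cases h1 : s.bl (s.nd e) = b
      · have h2 : s.bl (s.nd e) ∉ S := h1 ▸ hb
        simp [h1, hb]
      · by_cases h2 : s.bl (s.nd e) ∈ S <;> simp [h1, h2]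
    rw [this]
    exact s.T.add_mem (s.loc b f hf) ih

/-- restriction of a solution to a smaller set of blocks -/
theorem cut_mem_G {S S' : Finset B} (h : S' ⊆ S) (f : H → K) (hf : f ∈ s.G S) :
    cut (s.HB S') f ∈ s.G S' := by
  refine s.mem_G.2 ⟨s.cut_HB_mem S' f hf.1, fun e he => ?_, fun e h1 h2 => ?_⟩
  · rw [cut_apply, if_neg (fun hh => he (s.c1_mem_HB.1 hh))]
  · rw [cut_apply, cut_apply, if_pos (s.c1_mem_HB.2 h2), if_pos (s.c1_mem_HB.2 h1)]
    exact (s.mem_G.1 hf).2.2 e (h h1) (h h2)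

/-- more zeros, smaller dimension (`Submodule.finrank_mono`) -/
theorem g_mono (S : Finset B) (Z Z' : Finset H) (h : ∀ e ∈ Z, e ∈ s.HB S → e ∈ Z') :
    s.g S Z' ≤ s.g S Z := by
  refine Submodule.finrank_mono fun f hf => ⟨hf.1, fun e he => ?_⟩
  have he' : e ∈ Z := by simpa using he
  by_cases h1 : e ∈ s.HB S
  · exact hf.2 e (by simpa using h e he' h1)
  · exact (s.mem_G.1 hf.1).2.1 e (fun hh => h1 (s.c1_mem_HB.2 hh))

theorem g_empty (Z : Finset H) : s.g ∅ Z = 0 := by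
  have : (s.G ∅ ⊓ spt K Zᶜ : Submodule K (H → K)) = ⊥ := by
    rw [eq_bot_iff]
    intro f hf
    rw [Submodule.mem_bot]
    ext e
    exact (s.mem_G.1 hf.1).2.1 e (Finset.notMem_empty _)
  unfold g
  rw [this, finrank_bot]

lemma c1_rank (W : Submodule K (H → K)) (φ : (H → K) →ₗ[K] (H → K)) :
    finrank K W = finrank K (W.map φ) +
      finrank K (W ⊓ LinearMap.ker φ : Submodule K (H → K)) := by
  have h1 := LinearMap.finrank_range_add_finrank_ker (φ.domRestrict W)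
  rw [LinearMap.range_domRestrict, LinearMap.ker_domRestrict] at h1
  rw [← h1, ← Submodule.finrank_map_subtype_eq W, Submodule.map_comap_subtype]

/-- Rank-nullity for `cut (HB S₁)` on `G (S₁ ∪ S₂) ⊓ spt Zᶜ`: the image lies in
`G S₁ ⊓ spt Zᶜ`; a kernel element vanishes on `HB S₁`, so it lies in `G S₂` and vanishes on `Z`
and (symmetry) on `tw S₁`. -/
theorem g_union (S₁ S₂ : Finset B) (hd : Disjoint S₁ S₂) (Z : Finset H) :
    s.g (S₁ ∪ S₂) Z ≤ s.g S₁ Z + s.g S₂ (Z ∪ s.tw S₁) := by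
  unfold g
  set W : Submodule K (H → K) := s.G (S₁ ∪ S₂) ⊓ spt K Zᶜ with hW
  have h1 := c1_rank W (cut (s.HB S₁))
  have h2 : finrank K (W.map (cut (s.HB S₁))) ≤
      finrank K (s.G S₁ ⊓ spt K Zᶜ : Submodule K (H → K)) := by
    refine Submodule.finrank_mono ?_
    rintro _ ⟨f, hf, rfl⟩
    refine ⟨s.cut_mem_G Finset.subset_union_left f hf.1, fun e he => ?_⟩
    rw [cut_apply]
    split_ifs
    · exact hf.2 e he
    · rfl
  have h3 : finrank K (W ⊓ LinearMap.ker (cut (s.HB S₁)) : Submodule K (H → K)) ≤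
      finrank K (s.G S₂ ⊓ spt K (Z ∪ s.tw S₁)ᶜ : Submodule K (H → K)) := by
    refine Submodule.finrank_mono ?_
    rintro f ⟨hf, hk⟩
    have hz : ∀ e, s.bl (s.nd e) ∈ S₁ → f e = 0 := by
      intro e he
      have := congrFun (LinearMap.mem_ker.1 hk) e
      rwa [cut_apply, if_pos (s.c1_mem_HB.2 he)] at this
    have hG := s.mem_G.1 hf.1
    refine ⟨s.mem_G.2 ⟨hG.1, fun e he => ?_, fun e e1 e2 => ?_⟩, fun e he => ?_⟩
    · by_cases h1 : s.bl (s.nd e) ∈ S₁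
      · exact hz e h1
      · exact hG.2.1 e (by simp [h1, he])
    · exact hG.2.2 e (Finset.mem_union_right _ e1) (Finset.mem_union_right _ e2)
    · have he' : e ∈ Z ∪ s.tw S₁ := by simpa only [Finset.mem_compl, not_not] using he
      rcases Finset.mem_union.1 he' with h1 | h1
      · exact hf.2 e (by simpa using h1)
      · have h1' := s.c1_mem_tw.1 h1
        by_cases h4 : s.bl (s.nd e) ∈ S₁ ∪ S₂
        · rw [← hG.2.2 e h4 (Finset.mem_union_left _ h1')]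
          exact hz _ h1'
        · exact hG.2.1 e h4
  omega

lemma c1_disj {X : Finset B} {𝒞 : Finset (Finset B)} (hX : X ∉ 𝒞)
    (hd : ∀ Y ∈ insert X 𝒞, ∀ Y' ∈ insert X 𝒞, Y ≠ Y' → Disjoint Y Y') :
    Disjoint X (𝒞.biUnion id) := by
  rw [Finset.disjoint_biUnion_right]
  intro Y hY
  exact hd X (Finset.mem_insert_self _ _) Y (Finset.mem_insert_of_mem hY)
    (fun h => hX (h ▸ hY))

/-- induction on `𝒞` with `g_union`, `g_mono`, `g_empty` -/
theorem g_biUnion (𝒞 : Finset (Finset B)) (hd : ∀ X ∈ 𝒞, ∀ X' ∈ 𝒞, X ≠ X' → Disjoint X X')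
    (Z : Finset H) : s.g (𝒞.biUnion id) Z ≤ ∑ X ∈ 𝒞, s.g X Z := by
  induction 𝒞 using Finset.induction_on with
  | empty => simp [s.g_empty]
  | insert X 𝒞 hX ih =>
    rw [Finset.biUnion_insert, Finset.sum_insert hX]
    have hd' : Disjoint X (𝒞.biUnion id) := c1_disj hX hd
    have h1 := s.g_union X (𝒞.biUnion id) hd' Z
    have h2 := s.g_mono (𝒞.biUnion id) Z (Z ∪ s.tw X)
      (fun e he _ => Finset.mem_union_left _ he)
    have h3 := ih fun Y hY Y' hY' hne =>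
      hd Y (Finset.mem_insert_of_mem hY) Y' (Finset.mem_insert_of_mem hY') hne
    simp only [id] at h1 h2 h3 ⊢
    omega

lemma c1_card_union {α : Type} [Fintype α] [DecidableEq α] (φ : α → B) (C S₁ S₂ : Finset B)
    (hd : Disjoint S₁ S₂) : #{h | φ h ∈ S₁ ∪ S₂ ∧ φ h ∈ C} =
      #{h | φ h ∈ S₁ ∧ φ h ∈ C} + #{h | φ h ∈ S₂ ∧ φ h ∈ C} := by
  rw [← Finset.card_union_of_disjoint]
  · congr 1
    ext h
    simp only [mem_filter, mem_univ, true_and, mem_union]
    tauto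
  · rw [Finset.disjoint_left]
    intro h h1 h2
    simp only [mem_filter, mem_univ, true_and] at h1 h2
    exact Finset.disjoint_left.1 hd h1.1 h2.1

theorem hcS_union (S₁ S₂ : Finset B) (hd : Disjoint S₁ S₂) :
    s.hcS (S₁ ∪ S₂) = s.hcS S₁ + s.hcS S₂ := by
  unfold hcS
  exact c1_card_union (fun h => s.bl (s.nd h)) s.cls S₁ S₂ hd

theorem ncS_union (S₁ S₂ : Finset B) (hd : Disjoint S₁ S₂) :
    s.ncS (S₁ ∪ S₂) = s.ncS S₁ + s.ncS S₂ := by
  unfold ncS
  rw [c1_card_union s.bl s.cls S₁ S₂ hd, Finset.union_inter_distrib_right,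
    Finset.card_union_of_disjoint
      (Finset.disjoint_of_subset_left Finset.inter_subset_left
        (Finset.disjoint_of_subset_right Finset.inter_subset_left hd))]
  ring

theorem hcS_biUnion (𝒞 : Finset (Finset B)) (hd : ∀ X ∈ 𝒞, ∀ X' ∈ 𝒞, X ≠ X' → Disjoint X X') :
    s.hcS (𝒞.biUnion id) = ∑ X ∈ 𝒞, s.hcS X := by
  induction 𝒞 using Finset.induction_on with
  | empty => simp [hcS]
  | insert X 𝒞 hX ih =>
    rw [Finset.biUnion_insert, Finset.sum_insert hX]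
    have h1 := s.hcS_union X (𝒞.biUnion id) (c1_disj hX hd)
    have h3 := ih fun Y hY Y' hY' hne =>
      hd Y (Finset.mem_insert_of_mem hY) Y' (Finset.mem_insert_of_mem hY') hne
    simp only [id] at h1 h3 ⊢
    omega

theorem ncS_biUnion (𝒞 : Finset (Finset B)) (hd : ∀ X ∈ 𝒞, ∀ X' ∈ 𝒞, X ≠ X' → Disjoint X X') :
    s.ncS (𝒞.biUnion id) = ∑ X ∈ 𝒞, s.ncS X := by
  induction 𝒞 using Finset.induction_on with
  | empty => simp [ncS]
  | insert X 𝒞 hX ih =>
    rw [Finset.biUnion_insert, Finset.sum_insert hX]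
    have h1 := s.ncS_union X (𝒞.biUnion id) (c1_disj hX hd)
    have h3 := ih fun Y hY Y' hY' hne =>
      hd Y (Finset.mem_insert_of_mem hY) Y' (Finset.mem_insert_of_mem hY') hne
    simp only [id] at h1 h3 ⊢
    omega

/-- Components. Strong induction on `S`: `S = ∅` gives `𝒞 = ∅`; if `S` is connected take
`{S}`; otherwise `S = S₁ ∪ (S \ S₁)` without edges between the two (use `oo` for the other
direction), take the union of the two families. -/
theorem exists_comps (S : Finset B) : ∃ 𝒞 : Finset (Finset B), 𝒞.biUnion id = S ∧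
    (∀ X ∈ 𝒞, ∀ X' ∈ 𝒞, X ≠ X' → Disjoint X X') ∧ (∀ X ∈ 𝒞, X.Nonempty ∧ s.Conn X) ∧
    ∀ X ∈ 𝒞, ∀ h, s.bl (s.nd h) ∈ X → s.bl (s.nd (s.o h)) ∈ S → s.bl (s.nd (s.o h)) ∈ X := by
  induction S using Finset.strongInduction with
  | H S ih =>
  rcases S.eq_empty_or_nonempty with rfl | hS
  · exact ⟨∅, by simp, by simp, by simp, by simp⟩
  by_cases hc : s.Conn S
  · refine ⟨{S}, by simp, by simp, ?_, ?_⟩
    · intro X hX
      rw [Finset.mem_singleton.1 hX]
      exact ⟨hS, hc⟩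
    · intro X hX h _ h2
      rw [Finset.mem_singleton.1 hX]
      exact h2
  unfold Conn at hc
  push Not at hc
  obtain ⟨S₁, h1, hne, hneq, hno⟩ := hc
  obtain ⟨𝒞₁, a1, a2, a3, a4⟩ := ih S₁ (Finset.ssubset_iff_subset_ne.2 ⟨h1, hneq⟩)
  obtain ⟨𝒞₂, b1, b2, b3, b4⟩ := ih (S \ S₁) (Finset.sdiff_ssubset h1 hne)
  have sub1 : ∀ X ∈ 𝒞₁, X ⊆ S₁ := fun X hX => a1 ▸ Finset.subset_biUnion_of_mem id hX
  have sub2 : ∀ X ∈ 𝒞₂, X ⊆ S \ S₁ := fun X hX => b1 ▸ Finset.subset_biUnion_of_mem id hX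
  have dj : ∀ X ∈ 𝒞₁, ∀ X' ∈ 𝒞₂, Disjoint X X' := fun X hX X' hX' =>
    Finset.disjoint_of_subset_left (sub1 X hX)
      (Finset.disjoint_of_subset_right (sub2 X' hX') Finset.disjoint_sdiff)
  refine ⟨𝒞₁ ∪ 𝒞₂, ?_, ?_, ?_, ?_⟩
  · rw [Finset.union_biUnion, a1, b1, Finset.union_sdiff_of_subset h1]
  · intro X hX X' hX' hne'
    rcases Finset.mem_union.1 hX with hX | hX <;> rcases Finset.mem_union.1 hX' with hX' | hX'
    · exact a2 X hX X' hX' hne'
    · exact dj X hX X' hX'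
    · exact (dj X' hX' X hX).symm
    · exact b2 X hX X' hX' hne'
  · intro X hX
    rcases Finset.mem_union.1 hX with hX | hX
    · exact a3 X hX
    · exact b3 X hX
  · intro X hX h e1 e2
    rcases Finset.mem_union.1 hX with hX | hX
    · exact a4 X hX h e1 (hno h (sub1 X hX e1) e2)
    · refine b4 X hX h e1 (Finset.mem_sdiff.2 ⟨e2, fun e3 => ?_⟩)
      have e4 := Finset.mem_sdiff.1 (sub2 X hX e1)
      have := hno (s.o h) e3 (by rw [s.oo]; exact e4.1)
      rw [s.oo] at this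
      exact e4.2 this

lemma c1_even_node (v : N) : Even #{h | s.nd h = v} := by
  have h1 := s.iso _ (s.one v) _ (s.one v)
  have h2 : chi K ({h | s.nd h = v} : Finset H) ⬝ᵥ chi K ({h | s.nd h = v} : Finset H) =
      (#{h | s.nd h = v} : ℕ) := by
    unfold dotProduct chi
    rw [Finset.card_filter, Nat.cast_sum]
    refine Finset.sum_congr rfl fun h _ => ?_
    by_cases hh : s.nd h = v <;> simp [hh]
  rw [h2, CharP.cast_eq_zero_iff K 2] at h1
  exact even_iff_two_dvd.2 h1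

/-- the number of legs of a set of nodes is even: `#{h | nd h ∈ S}` is even (each node:
`chi ⬝ᵥ chi = 0` by `one`, `iso`), and `o` pairs the other half-edges
(`Finset.even_card_of_involution`-like: `Finset.sum_involution` in `ZMod 2`). -/
theorem even_legs (S : Finset N) : Even #{h | s.nd h ∈ S ∧ s.nd (s.o h) ∉ S} := by
  have h1 : Even #{h | s.nd h ∈ S} := by
    rw [Finset.card_eq_sum_card_fiberwise (f := s.nd) (t := S)
      (fun h hh => by simpa using hh)]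
    refine Finset.even_sum _ fun v hv => ?_
    have : ({h ∈ ({h | s.nd h ∈ S} : Finset H) | s.nd h = v} : Finset H) =
        ({h | s.nd h = v} : Finset H) := by
      ext h
      simp only [mem_filter, mem_univ, true_and]
      exact ⟨fun hh => hh.2, fun hh => ⟨hh ▸ hv, hh⟩⟩
    rw [this]
    exact s.c1_even_node v
  have h2 : Even #{h | s.nd h ∈ S ∧ s.nd (s.o h) ∈ S} := by
    rw [← ZMod.natCast_eq_zero_iff_even, Finset.card_eq_sum_ones, Nat.cast_sum]
    refine Finset.sum_involution (fun h _ => s.o h) (fun h _ => by decide)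
      (fun h _ _ => s.o_ne h) (fun h hh => ?_) (fun h _ => s.oo h)
    simp only [mem_filter, mem_univ, true_and] at hh ⊢
    rw [s.oo]
    exact hh.symm
  have h3 : #{h | s.nd h ∈ S} = #{h | s.nd h ∈ S ∧ s.nd (s.o h) ∈ S} +
      #{h | s.nd h ∈ S ∧ s.nd (s.o h) ∉ S} := by
    rw [← Finset.card_filter_add_card_filter_not (s := {h | s.nd h ∈ S})
      (fun h => s.nd (s.o h) ∈ S), Finset.filter_filter, Finset.filter_filter]
  rw [h3] at h1
  exact (Nat.even_add.1 h1).1 h2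

/-- Atoms exist. Take `Quot` of `N` by `r v v' := ∃ h, bl (nd h) = b ∧ bl (nd (o h)) = b ∧
nd h = v ∧ nd (o h) = v'`, `At` = the classes containing a node of `b`, nodes outside `b` are
sent to a fixed atom; for `gen` use `Quot.lift c`. -/
theorem exists_atoms (b : B) (hb : ∃ v, s.bl v = b) :
    ∃ (At : Type) (_ : Fintype At) (_ : DecidableEq At) (am : N → At), s.Atoms b am := by
  classical
  obtain ⟨v₀, hv₀⟩ := hb
  let r : N → N → Prop := fun v v' => ∃ h, s.bl (s.nd h) = b ∧ s.bl (s.nd (s.o h)) = b ∧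
    s.nd h = v ∧ s.nd (s.o h) = v'
  let At : Type := {q : Quot r // ∃ v, s.bl v = b ∧ Quot.mk r v = q}
  have : Finite (Quot r) := Finite.of_surjective _ Quot.mk_surjective
  let am : N → At := fun v =>
    if hv : s.bl v = b then ⟨Quot.mk r v, v, hv, rfl⟩ else ⟨Quot.mk r v₀, v₀, hv₀, rfl⟩
  have ham : ∀ v, s.bl v = b → (am v).1 = Quot.mk r v := by
    intro v hv
    simp only [am, dif_pos hv]
  refine ⟨At, Fintype.ofFinite At, inferInstance, am, ?_, ?_, ?_⟩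
  · intro h h1 h2
    apply Subtype.ext
    rw [ham _ h1, ham _ h2]
    exact (Quot.sound ⟨h, h1, h2, rfl, rfl⟩).symm
  · intro c hc v v' hv hv' he
    have e1 : Quot.mk r v = Quot.mk r v' := by
      rw [← ham _ hv, ← ham _ hv', he]
    have hr : ∀ a a', r a a' → c a = c a' := by
      rintro _ _ ⟨h, h1, h2, rfl, rfl⟩
      exact (hc h h1 h2).symm
    exact congrArg (Quot.lift c hr) e1
  · rintro ⟨q, v, hv, rfl⟩
    exact ⟨v, hv, Subtype.ext (ham v hv)⟩

end HS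
end Pool.Agent.MP_8c1b0d_co

set_option autoImplicit false
set_option linter.unusedSectionVars false
open Finset Module

namespace Pool.Agent.MP_8c1b0d_co
variable {K H N B : Type} [Field K] [CharP K 2] [Fintype H] [DecidableEq H] [Fintype N]
  [DecidableEq N] [DecidableEq B]

/-- the dot product as a bilinear form -/
def c2_β (K H : Type) [Field K] [Fintype H] : LinearMap.BilinForm K (H → K) := dotProductBilin K K

lemma c2_β_apply (f g : H → K) : c2_β K H f g = f ⬝ᵥ g := rfl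

lemma c2_sep (x : H → K) (h : ∀ y, x ⬝ᵥ y = 0) : x = 0 := by
  ext e
  have := h (Pi.single e 1)
  simpa using this

lemma c2_nd : (c2_β K H).Nondegenerate :=
  ⟨fun x h => c2_sep x h, fun x h => c2_sep x fun y => by rw [dotProduct_comm]; exact h y⟩

lemma c2_refl : (c2_β K H).IsRefl := fun a b hab => by
  rw [c2_β_apply, dotProduct_comm]
  exact hab

lemma c2_cut_dot (A : Finset H) (f g : H → K) : cut A f ⬝ᵥ g = f ⬝ᵥ cut A g := by
  unfold dotProduct
  refine Finset.sum_congr rfl fun e _ => ?_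
  rw [cut_apply, cut_apply]
  split_ifs <;> simp

lemma c2_cut_of_spt {A : Finset H} {f : H → K} (hf : f ∈ spt K A) : cut A f = f := by
  ext e
  rw [cut_apply]
  split_ifs with he
  · rfl
  · exact (hf e he).symm

lemma c2_chi_pair {h h' : H} (hne : h' ≠ h) (g : H → K) :
    chi K {h, h'} ⬝ᵥ g = g h + g h' := by
  have : chi K ({h, h'} : Finset H) ⬝ᵥ g = ∑ e ∈ ({h, h'} : Finset H), g e := by
    unfold dotProduct chi
    simp only [ite_mul, one_mul, zero_mul]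
    rw [← Finset.sum_filter]
    congr 1
    ext e
    simp
  rw [this, Finset.sum_pair hne.symm]

lemma c2_chi_symm {o : H → H} (oo : ∀ h, o (o h) = h) (h e : H) :
    chi K {h, o h} (o e) = chi K {h, o h} e := by
  have : o e ∈ ({h, o h} : Finset H) ↔ e ∈ ({h, o h} : Finset H) := by
    simp only [Finset.mem_insert, Finset.mem_singleton]
    constructor
    · rintro (h1 | h1)
      · right; rw [← h1, oo]
      · left; rw [← oo e, h1, oo]
    · rintro (h1 | h1)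
      · right; rw [h1]
      · left; rw [h1, oo]
  unfold chi
  simp only [this]

lemma c2_eq_of_add {x y : K} (h : x + y = 0) : y = x := by
  have two : (2 : K) = 0 := CharTwo.two_eq_zero
  linear_combination h - x * two

lemma c2_rank {M M' : Type} [AddCommGroup M] [Module K M] [FiniteDimensional K M]
    [AddCommGroup M'] [Module K M'] (W : Submodule K M) (φ : M →ₗ[K] M') :
    finrank K W = finrank K (W.map φ) + finrank K (W ⊓ LinearMap.ker φ : Submodule K M) := by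
  have h1 := LinearMap.finrank_range_add_finrank_ker (φ.domRestrict W)
  rw [LinearMap.range_domRestrict, LinearMap.ker_domRestrict] at h1
  rw [← h1, ← Submodule.finrank_map_subtype_eq W, Submodule.map_comap_subtype]

/-- `(A ⊓ C)ᗮ = Aᗮ ⊔ Cᗮ` for the dot product. Plan: with `β = dotProductBilin K K`
(symmetric, nondegenerate) `β.orthogonal (Aᗮ ⊔ Cᗮ) = A ⊓ C` by
`LinearMap.BilinForm.orthogonal_orthogonal`; apply `orthogonal` once more. -/
theorem orth_inf (A C : Submodule K (H → K)) (w : H → K) (hw : ∀ f ∈ A ⊓ C, w ⬝ᵥ f = 0) :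
    ∃ a c : H → K, w = a + c ∧ (∀ f ∈ A, a ⬝ᵥ f = 0) ∧ ∀ f ∈ C, c ⬝ᵥ f = 0 := by
  have h1 : w ∈ (c2_β K H).orthogonal A ⊔ (c2_β K H).orthogonal C := by
    rw [← LinearMap.BilinForm.orthogonal_orthogonal c2_nd c2_refl
      ((c2_β K H).orthogonal A ⊔ (c2_β K H).orthogonal C)]
    intro y hy
    have hA : y ∈ A := by
      rw [← LinearMap.BilinForm.orthogonal_orthogonal c2_nd c2_refl A]
      exact fun z hz => hy z (Submodule.mem_sup_left hz)
    have hC : y ∈ C := by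
      rw [← LinearMap.BilinForm.orthogonal_orthogonal c2_nd c2_refl C]
      exact fun z hz => hy z (Submodule.mem_sup_right hz)
    show y ⬝ᵥ w = 0
    rw [dotProduct_comm]
    exact hw y ⟨hA, hC⟩
  obtain ⟨a, ha, c, hc, rfl⟩ := Submodule.mem_sup.1 h1
  refine ⟨a, c, rfl, fun f hf => ?_, fun f hf => ?_⟩
  · rw [dotProduct_comm]
    exact ha f hf
  · rw [dotProduct_comm]
    exact hc f hf

/-- pairs cancel in characteristic 2 (`Finset.sum_involution`) -/
theorem dot_pairs (o : H → H) (oo : ∀ h, o (o h) = h) (o_ne : ∀ h, o h ≠ h) (A : Finset H)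
    (hA : ∀ h ∈ A, o h ∈ A) (f g : H → K) (hf : ∀ h ∈ A, f (o h) = f h)
    (hg : ∀ h ∈ A, g (o h) = g h) : cut A f ⬝ᵥ g = 0 := by
  have : cut A f ⬝ᵥ g = ∑ e ∈ A, f e * g e := by
    unfold dotProduct
    simp only [cut_apply, ite_mul, zero_mul]
    rw [← Finset.sum_filter]
    congr 1
    ext e
    simp
  rw [this]
  refine Finset.sum_involution (fun h _ => o h) (fun h hh => ?_) (fun h _ _ => o_ne h)
    (fun h hh => hA h hh) (fun h _ => oo h)
  rw [hf h hh, hg h hh]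
  exact CharTwo.add_self_eq_zero _

/-- symmetric functions supported on an `o`-closed set: one dimension per pair. Plan: the
space is isotropic (`dot_pairs`), so it lies in its orthogonal; or choose a half `A₀` of `A`
(with a linear order from `Fintype.equivFin`) and restrict to it. -/
theorem finrank_symm_le (o : H → H) (oo : ∀ h, o (o h) = h) (o_ne : ∀ h, o h ≠ h) (A : Finset H)
    (hA : ∀ h ∈ A, o h ∈ A) :
    2 * finrank K (spt K A ⊓ symm K o : Submodule K (H → K)) ≤ #A := by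
  have h := s1_iso (K := K) (M := H → K) (c2_β K H) c2_nd (cut A) (cut Aᶜ) (c2_cut_dot A)
    (fun x => by rw [cut_cut, Finset.inter_compl, s1_cut_empty])
    (U := spt K A ⊓ symm K o) (fun x hx => c2_cut_of_spt hx.1) (fun x hx y hy => by
      rw [c2_β_apply, ← c2_cut_of_spt hx.1]
      exact dot_pairs o oo o_ne A hA x y (fun h _ => hx.2 h) (fun h _ => hy.2 h))
  rw [s1_range_cut, finrank_spt, Module.finrank_fintype_fun_eq_card] at h
  have h2 := Finset.card_add_card_compl A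
  omega

/-- boundary map -/
def c2_bdy (K : Type) [Field K] {H N : Type} [Fintype H] [DecidableEq H] [DecidableEq N]
    (nd : H → N) : (H → K) →ₗ[K] (N → K) where
  toFun f v := chi K {h | nd h = v} ⬝ᵥ f
  map_add' f g := by ext v; simp [dotProduct_add]
  map_smul' t f := by ext v; simp [dotProduct_smul]

lemma c2_bdy_dot (nd : H → N) (f : H → K) (c : N → K) :
    c2_bdy K nd f ⬝ᵥ c = f ⬝ᵥ fun h => c (nd h) := by
  show (∑ v, (∑ h, chi K ({h | nd h = v} : Finset H) h * f h) * c v) = ∑ h, f h * c (nd h)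
  simp only [Finset.sum_mul]
  rw [Finset.sum_comm]
  refine Finset.sum_congr rfl fun h _ => ?_
  rw [Finset.sum_eq_single (nd h)]
  · simp [chi]
  · intro v _ hv
    simp [chi, hv.symm]
  · simp

/-- CYCLE SPACE. Plan: `J = spt In ⊓ symm o`; let `∂ : J → (Nb → K)`, `∂ f v = chi {nd = v} ⬝ᵥ f`.
`W ≤ ker ∂`, so it suffices that `#Nb ≤ rank ∂ + card At`. A vector `c : N → K` supported on
`Nb` and orthogonal to all `∂ f` satisfies `c (nd (o h)) = c (nd h)` (test with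
`f = chi {h, o h}`), so by `gen` it factors through `am` on `Nb`: the orthogonal of the image
inside `spt Nb` has dimension at most `card At` (inject by `c ↦ fun a => c (a chosen node)`). -/
theorem cyc {At : Type} [Fintype At] (o : H → H) (oo : ∀ h, o (o h) = h) (o_ne : ∀ h, o h ≠ h)
    (In : Finset H) (hIn : ∀ h ∈ In, o h ∈ In) (nd : H → N) (Nb : Finset N) (am : N → At)
    (gen : ∀ c : N → K, (∀ h ∈ In, c (nd (o h)) = c (nd h)) →
      ∀ v ∈ Nb, ∀ v' ∈ Nb, am v = am v' → c v = c v')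
    (W : Submodule K (H → K)) (hW : W ≤ spt K In ⊓ symm K o)
    (ev : ∀ f ∈ W, ∀ v, chi K {h | nd h = v} ⬝ᵥ f = 0) :
    2 * finrank K W + 2 * #Nb ≤ #In + 2 * Fintype.card At := by
  classical
  set J : Submodule K (H → K) := spt K In ⊓ symm K o with hJ
  have h1 : 2 * finrank K J ≤ #In := finrank_symm_le (K := K) o oo o_ne In hIn
  have h2 := c2_rank J (c2_bdy K nd)
  have h3 : finrank K W ≤ finrank K (J ⊓ LinearMap.ker (c2_bdy K nd) : Submodule K (H → K)) :=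
    Submodule.finrank_mono fun f hf => ⟨hW hf, LinearMap.mem_ker.2 (funext (ev f hf))⟩
  set O := (c2_β K N).orthogonal (J.map (c2_bdy K nd)) with hO
  have h4 : finrank K O = Fintype.card N - finrank K (J.map (c2_bdy K nd)) := by
    rw [hO, LinearMap.BilinForm.finrank_orthogonal c2_nd, Module.finrank_fintype_fun_eq_card]
  have h5 : finrank K (J.map (c2_bdy K nd)) ≤ Fintype.card N := by
    rw [← Module.finrank_fintype_fun_eq_card K]
    exact Submodule.finrank_le _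
  let ψ : (N → K) →ₗ[K] (At → K) := LinearMap.pi fun a =>
    if h : ∃ v ∈ Nb, am v = a then LinearMap.proj h.choose else 0
  have h6 := c2_rank O ψ
  have h7 : finrank K (O.map ψ) ≤ Fintype.card At := by
    rw [← Module.finrank_fintype_fun_eq_card K]
    exact Submodule.finrank_le _
  have h8 : finrank K (O ⊓ LinearMap.ker ψ : Submodule K (N → K)) ≤ #Nbᶜ := by
    rw [← finrank_spt (K := K)]
    refine Submodule.finrank_mono fun c hc v hv => ?_
    have hv' : v ∈ Nb := by simpa using hv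
    have hsym : ∀ h ∈ In, c (nd (o h)) = c (nd h) := by
      intro h hh
      have hm : chi K {h, o h} ∈ J := by
        refine ⟨fun e he => ?_, fun e => c2_chi_symm oo h e⟩
        unfold chi
        rw [if_neg]
        intro he'
        rcases Finset.mem_insert.1 he' with h1 | h1
        · exact he (h1 ▸ hh)
        · exact he (Finset.mem_singleton.1 h1 ▸ hIn h hh)
      have := hc.1 _ (Submodule.mem_map_of_mem hm)
      change c2_bdy K nd (chi K {h, o h}) ⬝ᵥ c = 0 at this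
      rw [c2_bdy_dot, c2_chi_pair (o_ne h)] at this
      exact c2_eq_of_add this
    have hex : ∃ v' ∈ Nb, am v' = am v := ⟨v, hv', rfl⟩
    have h0 : ψ c (am v) = 0 := congrFun (LinearMap.mem_ker.1 hc.2) (am v)
    have h9 : ψ c (am v) = c hex.choose := by
      simp only [ψ, LinearMap.pi_apply, dif_pos hex, LinearMap.proj_apply]
    rw [← h0, h9]
    exact gen c hsym v hv' _ hex.choose_spec.1 hex.choose_spec.2.symm
  have h10 := Finset.card_add_card_compl Nb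
  omega

namespace HS
variable (s : HS K H N B)

/-- the leg code of a set of blocks -/
def LC (S : Finset B) : Submodule K (H → K) := (s.G S).map (cut (s.bd S))

/-- inner half-edges -/
def c2_In (S : Finset B) : Finset H := {h | s.bl (s.nd h) ∈ S ∧ s.bl (s.nd (s.o h)) ∈ S}

lemma c2_mem_In {S : Finset B} {h : H} :
    h ∈ s.c2_In S ↔ s.bl (s.nd h) ∈ S ∧ s.bl (s.nd (s.o h)) ∈ S := by
  simp [c2_In]

lemma c2_mem_bd {S : Finset B} {h : H} :
    h ∈ s.bd S ↔ s.bl (s.nd h) ∈ S ∧ s.bl (s.nd (s.o h)) ∉ S := by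
  simp [bd]

lemma c2_In_o {S : Finset B} {h : H} (hh : h ∈ s.c2_In S) : s.o h ∈ s.c2_In S := by
  rw [c2_mem_In] at hh ⊢
  rw [s.oo]
  exact hh.symm

lemma c2_HB_one (b : B) : s.HB {b} = ({h | s.bl (s.nd h) = b} : Finset H) := by
  ext h
  simp [HB]

/-- `f ⬝ᵥ g = 0` splits into legs and inner half-edges, `dot_pairs` -/
theorem LC_iso (S : Finset B) : ∀ f ∈ s.LC S, ∀ g ∈ s.LC S, f ⬝ᵥ g = 0 := by
  rintro _ ⟨f, hf, rfl⟩ _ ⟨g, hg, rfl⟩
  have hf' := s.mem_G.1 hf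
  have hg' := s.mem_G.1 hg
  have h1 := s.iso f hf'.1 g hg'.1
  have h2 : f = cut (s.bd S) f + cut (s.c2_In S) f := by
    ext e
    simp only [Pi.add_apply, cut_apply, c2_mem_bd, c2_mem_In]
    by_cases e1 : s.bl (s.nd e) ∈ S
    · by_cases e2 : s.bl (s.nd (s.o e)) ∈ S <;> simp [e1, e2]
    · simp [e1, hf'.2.1 e e1]
  have h3 : cut (s.c2_In S) f ⬝ᵥ g = 0 :=
    dot_pairs s.o s.oo s.o_ne _ (fun h hh => s.c2_In_o hh) f g
      (fun h hh => hf'.2.2 h (s.c2_mem_In.1 hh).1 (s.c2_mem_In.1 hh).2)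
      (fun h hh => hg'.2.2 h (s.c2_mem_In.1 hh).1 (s.c2_mem_In.1 hh).2)
  rw [h2, add_dotProduct, h3, add_zero] at h1
  rw [← c2_cut_dot, cut_cut, Finset.inter_self]
  exact h1

/-- The leg code of a class is self-dual. Plan: `A = T ⊓ spt (HB {b})`, `C` = functions
symmetric on inner edges of `b`; `A ⊓ C = G {b}`; `orth_inf` gives `w = a + c`. `c ⟂ C` forces
`c` to vanish off the inner half-edges (test `Pi.single`) and to be symmetric (test
`chi {h, o h}`); so `a = w - c` is supported on the block, orthogonal to `T` (`loc`), in `T`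
by `sd`, in `G {b}`, and `cut bd a = w`. -/
theorem LC_sd {b : B} (hb : b ∈ s.cls) :
    ∀ w ∈ spt K (s.bd {b}), (∀ f ∈ s.LC {b}, w ⬝ᵥ f = 0) → w ∈ s.LC {b} := by
  intro w hw ho
  let C : Submodule K (H → K) :=
    { carrier := {f | ∀ h ∈ s.c2_In {b}, f (s.o h) = f h}
      zero_mem' := fun _ _ => rfl
      add_mem' := fun ha hb h hh => by simp only [Pi.add_apply, ha h hh, hb h hh]
      smul_mem' := fun t a ha h hh => by simp only [Pi.smul_apply, ha h hh] }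
  obtain ⟨a, c, hac, ha, hc⟩ := orth_inf (s.T ⊓ spt K (s.HB {b})) C w (by
    intro f hf
    have hG : f ∈ s.G {b} := s.mem_G.2 ⟨hf.1.1,
      fun h hh => hf.1.2 h (fun h1 => hh (s.c1_mem_HB.1 h1)),
      fun h h1 h2 => hf.2 h (s.c2_mem_In.2 ⟨h1, h2⟩)⟩
    rw [← c2_cut_of_spt hw, c2_cut_dot]
    exact ho _ (Submodule.mem_map_of_mem hG))
  have c0 : ∀ h, h ∉ s.c2_In {b} → c h = 0 := by
    intro h hh
    have := hc (Pi.single h 1) (fun e he => by
      have e1 : e ≠ h := fun e1 => hh (e1 ▸ he)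
      have e2 : s.o e ≠ h := fun e2 => hh (e2 ▸ s.c2_In_o he)
      simp [e1, e2])
    simpa using this
  have c1 : ∀ h, c (s.o h) = c h := by
    intro h
    have := hc (chi K {h, s.o h}) (fun e _ => c2_chi_symm s.oo h e)
    rw [dotProduct_comm, c2_chi_pair (s.o_ne h)] at this
    exact c2_eq_of_add this
  have hav : ∀ h, a h = w h - c h := fun h => by rw [hac]; simp
  have a0 : a ∈ spt K (s.HB {b}) := by
    intro h hh
    have hh' : s.bl (s.nd h) ∉ ({b} : Finset B) := fun h1 => hh (s.c1_mem_HB.2 h1)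
    rw [hav, hw h (fun h1 => hh' (s.c2_mem_bd.1 h1).1),
      c0 h (fun h1 => hh' (s.c2_mem_In.1 h1).1), sub_zero]
  have aT : a ∈ s.T := by
    refine s.sd b hb a (s.c2_HB_one b ▸ a0) fun f hf => ?_
    rw [← c2_cut_of_spt a0, c2_cut_dot]
    refine ha _ ⟨s.cut_HB_mem _ f hf, fun e he => ?_⟩
    rw [cut_apply, if_neg he]
  refine ⟨a, s.mem_G.2 ⟨aT, fun h hh => a0 h (fun h1 => hh (s.c1_mem_HB.1 h1)),
    fun h h1 h2 => ?_⟩, ?_⟩
  · rw [hav, hav, c1, hw h (fun h3 => (s.c2_mem_bd.1 h3).2 h2),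
      hw (s.o h) (fun h3 => (s.c2_mem_bd.1 h3).2 (by rw [s.oo]; exact h1))]
  · ext h
    rw [cut_apply]
    split_ifs with hh
    · rw [hav, c0 h (fun h1 => (s.c2_mem_bd.1 hh).2 (s.c2_mem_In.1 h1).2), sub_zero]
    · exact (hw h hh).symm

lemma c2_node (S : Finset N) (c : N → K) :
    cut ({h | s.nd h ∈ S} : Finset H) (fun h => c (s.nd h)) ∈ s.T := by
  have : cut ({h | s.nd h ∈ S} : Finset H) (fun h => c (s.nd h)) =
      ∑ v ∈ S, c v • chi K ({h | s.nd h = v} : Finset H) := by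
    ext e
    simp only [cut_apply, Finset.sum_apply, Pi.smul_apply, chi, mem_filter, mem_univ, true_and,
      smul_eq_mul, mul_ite, mul_one, mul_zero]
    rw [Finset.sum_ite_eq]
  rw [this]
  exact s.T.sum_mem fun v _ => s.T.smul_mem _ (s.one v)

/-- SPLITTING. Plan: show `cut {h | nd h ∈ S} f ∈ T` for `f ∈ T` and use `ind`. By `rz`,
`f = g + c ∘ nd` on the block with `g ∈ T` symmetric; the node part is a combination of
`one`; `cut S g ∈ T` by `sd`: for `f' = g' + c' ∘ nd` (after `loc`), `cut S g ⬝ᵥ c' ∘ nd = 0`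
by `iso` with `one`, and `cut S g ⬝ᵥ g'` = legs (hypothesis, with `cut (HB {b}) g ∈ G {b}`)
plus inner pairs (`dot_pairs`). -/
theorem split {b : B} (hb : b ∈ s.cls) (S : Finset N) (hS : ∀ v ∈ S, s.bl v = b)
    (cl : ∀ h, s.nd h ∈ S → s.bl (s.nd (s.o h)) = b → s.nd (s.o h) ∈ S)
    (hz : ∀ f ∈ s.G {b}, ∀ g ∈ s.G {b},
      cut {h ∈ s.bd {b} | s.nd h ∈ S} f ⬝ᵥ g = 0) : S = ∅ ∨ ∀ v, s.bl v = b → v ∈ S := by
  have key : ∀ f ∈ s.T, ∃ g ∈ s.T ⊓ symm K s.o, ∃ u ∈ s.T,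
      cut ({h | s.nd h ∈ S} : Finset H) f = cut ({h | s.nd h ∈ S} : Finset H) g - u := by
    intro f hf
    obtain ⟨g, hg, c, hc⟩ := s.rz b hb f hf
    refine ⟨g, hg, _, s.c2_node S c, ?_⟩
    ext e
    simp only [Pi.sub_apply, cut_apply, mem_filter, mem_univ, true_and]
    split_ifs with he
    · rw [hc e (hS _ he)]; ring
    · simp
  have symG : ∀ g ∈ s.T ⊓ symm K s.o, cut (s.HB {b}) g ∈ s.G {b} := by
    intro g hg
    refine s.mem_G.2 ⟨s.cut_HB_mem _ g hg.1, fun e he => ?_, fun e h1 h2 => ?_⟩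
    · rw [cut_apply, if_neg (fun hh => he (s.c1_mem_HB.1 hh))]
    · rw [cut_apply, cut_apply, if_pos (s.c1_mem_HB.2 h2), if_pos (s.c1_mem_HB.2 h1)]
      exact hg.2 e
  refine s.ind b hb S hS fun f hf => ?_
  obtain ⟨g, hg, u, hu, e0⟩ := key f hf
  rw [e0]
  refine s.T.sub_mem (s.sd b hb _ (fun e he => ?_) fun f' hf' => ?_) hu
  · rw [cut_apply, if_neg]
    intro h1
    simp only [mem_filter, mem_univ, true_and] at he h1
    exact he (hS _ h1)
  obtain ⟨g', hg', u', hu', e1⟩ := key f' hf'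
  rw [c2_cut_dot, e1, dotProduct_sub, s.iso g hg.1 u' hu', sub_zero, ← c2_cut_dot]
  have e2 : cut ({h | s.nd h ∈ S} : Finset H) g = cut {h ∈ s.bd {b} | s.nd h ∈ S} g +
      cut ({h | s.nd h ∈ S ∧ s.bl (s.nd (s.o h)) = b} : Finset H) g := by
    ext e
    simp only [Pi.add_apply, cut_apply, mem_filter, mem_univ, true_and, c2_mem_bd,
      Finset.mem_singleton]
    by_cases h1 : s.nd e ∈ S
    · by_cases h2 : s.bl (s.nd (s.o e)) = b <;> simp [h1, h2, hS _ h1]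
    · simp [h1]
  have e3 : cut ({h | s.nd h ∈ S ∧ s.bl (s.nd (s.o h)) = b} : Finset H) g ⬝ᵥ g' = 0 := by
    refine dot_pairs s.o s.oo s.o_ne _ (fun h hh => ?_) g g' (fun h _ => hg.2 h)
      (fun h _ => hg'.2 h)
    simp only [mem_filter, mem_univ, true_and] at hh ⊢
    rw [s.oo]
    exact ⟨cl h hh.1 hh.2, hS _ hh.1⟩
  have e4 := hz _ (symG g hg) _ (symG g' hg')
  have e5 : ({h ∈ s.bd {b} | s.nd h ∈ S} : Finset H) ∩ s.HB {b} =
      {h ∈ s.bd {b} | s.nd h ∈ S} := by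
    rw [Finset.inter_eq_left]
    intro h hh
    exact s.c1_mem_HB.2 (s.c2_mem_bd.1 (Finset.mem_filter.1 hh).1).1
  rw [← c2_cut_dot, cut_cut, cut_cut, Finset.inter_comm (s.HB {b}), e5, e5] at e4
  rw [e2, add_dotProduct, e3, e4, add_zero]

/-- `cyc` for a space of even symmetric functions on the inner half-edges of a block -/
theorem cyc_block {b : B} {At : Type} [Fintype At] {am : N → At} (ha : s.Atoms b am)
    (W : Submodule K (H → K)) (hW : W ≤ spt K (s.HB {b} \ s.bd {b}) ⊓ symm K s.o)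
    (ev : ∀ f ∈ W, ∀ v, chi K {h | s.nd h = v} ⬝ᵥ f = 0) :
    2 * finrank K W + 2 * #{v | s.bl v = b} + #(s.bd {b}) ≤
      #(s.HB {b}) + 2 * Fintype.card At := by
  have hm : ∀ h, h ∈ s.HB {b} \ s.bd {b} ↔ s.bl (s.nd h) = b ∧ s.bl (s.nd (s.o h)) = b := by
    intro h
    simp only [Finset.mem_sdiff, c1_mem_HB, c2_mem_bd, Finset.mem_singleton]
    tauto
  have h1 := cyc s.o s.oo s.o_ne (s.HB {b} \ s.bd {b}) (fun h hh => by
      rw [hm] at hh ⊢
      rw [s.oo]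
      exact hh.symm) s.nd {v | s.bl v = b} am (fun c hc v hv v' hv' he =>
      ha.gen c (fun h h1 h2 => hc h ((hm h).2 ⟨h1, h2⟩)) v v' (by simpa using hv)
        (by simpa using hv') he) W hW ev
  have h2 : #(s.HB {b} \ s.bd {b}) + #(s.bd {b}) = #(s.HB {b}) :=
    Finset.card_sdiff_add_card_eq_card fun h hh => s.c1_mem_HB.2 (s.c2_mem_bd.1 hh).1
  omega

/-- a class with a legless atom has only this atom (`split` with the nodes of the atom) -/
theorem atom_eq {b : B} (hb : b ∈ s.cls) {At : Type} {am : N → At} (ha : s.Atoms b am) (a : At)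
    (h0 : ∀ h ∈ s.bd {b}, am (s.nd h) ≠ a) (a' : At) : a' = a := by
  classical
  have h1 := s.split hb {v | s.bl v = b ∧ am v = a} (fun v hv => (Finset.mem_filter.1 hv).2.1)
    (fun h hh h2 => by
      simp only [mem_filter, mem_univ, true_and] at hh ⊢
      exact ⟨h2, (ha.inn h hh.1 h2).trans hh.2⟩) (fun f _ g _ => by
      have : ({h ∈ s.bd {b} | s.nd h ∈ ({v | s.bl v = b ∧ am v = a} : Finset N)} : Finset H)
          = ∅ := by
        rw [Finset.filter_eq_empty_iff]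
        intro h hh h2
        exact h0 h hh (Finset.mem_filter.1 h2).2.2
      rw [this, s1_cut_empty, zero_dotProduct])
  rcases h1 with h1 | h1
  · obtain ⟨v, hv, hv'⟩ := ha.surj a
    have : v ∈ ({v | s.bl v = b ∧ am v = a} : Finset N) := by simp [hv, hv']
    rw [h1] at this
    exact absurd this (Finset.notMem_empty _)
  · obtain ⟨v, hv, hv'⟩ := ha.surj a'
    rw [← hv']
    exact (Finset.mem_filter.1 (h1 v hv)).2.2

end HS
end Pool.Agent.MP_8c1b0d_co

set_option autoImplicit false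
set_option linter.unusedSectionVars false
open Finset Module

namespace Pool.Agent.MP_8c1b0d_co
namespace HS
variable {K H N B : Type} [Field K] [CharP K 2] [Fintype H] [DecidableEq H] [Fintype N]
  [DecidableEq N] [DecidableEq B] (s : HS K H N B)

/-- the leg space of `X`, moved to the other halves of the legs -/
def TX (X : Finset B) : Submodule K (H → K) :=
  (s.G X).map ((cut (s.tw X \ s.HB X)).comp (LinearMap.funLeft K K s.o))

/-- the sets `X ∈ 𝒳` hang at the block `P` -/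
structure Hang (P : B) (𝒳 : Finset (Finset B)) : Prop where
  nP : ∀ X ∈ 𝒳, P ∉ X
  disj : ∀ X ∈ 𝒳, ∀ X' ∈ 𝒳, X ≠ X' → Disjoint X X'
  hang : ∀ X ∈ 𝒳, ∀ h ∈ s.bd X, s.bl (s.nd (s.o h)) = P
  ne : ∀ X ∈ 𝒳, (s.bd X).Nonempty

lemma c3_rn {V V' : Type} [AddCommGroup V] [Module K V] [AddCommGroup V'] [Module K V']
    [FiniteDimensional K V] (W : Submodule K V) (φ : V →ₗ[K] V') :
    finrank K W = finrank K (W.map φ) + finrank K (W ⊓ LinearMap.ker φ : Submodule K V) := by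
  have h := LinearMap.finrank_range_add_finrank_ker (φ.domRestrict W)
  rw [LinearMap.range_domRestrict, LinearMap.ker_domRestrict] at h
  rw [← h, ← Submodule.finrank_map_subtype_eq W ((LinearMap.ker φ).comap W.subtype),
    Submodule.map_comap_subtype]

lemma c3_HB {S : Finset B} {h : H} : h ∈ s.HB S ↔ s.bl (s.nd h) ∈ S := by simp [HB]

lemma c3_tw {S : Finset B} {h : H} : h ∈ s.tw S ↔ s.bl (s.nd (s.o h)) ∈ S := by simp [tw]

lemma c3_bd {S : Finset B} {h : H} :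
    h ∈ s.bd S ↔ s.bl (s.nd h) ∈ S ∧ s.bl (s.nd (s.o h)) ∉ S := by simp [bd]

lemma c3_obd {S : Finset B} {h : H} : h ∈ s.tw S \ s.HB S ↔ s.o h ∈ s.bd S := by
  rw [Finset.mem_sdiff, c3_tw, c3_HB, c3_bd, s.oo]

lemma c3_phi (X : Finset B) (f : H → K) (h : H) :
    ((cut (s.tw X \ s.HB X)).comp (LinearMap.funLeft K K s.o)) f h = cut (s.bd X) f (s.o h) := by
  rw [LinearMap.comp_apply, cut_apply, cut_apply, LinearMap.funLeft_apply]
  by_cases hh : s.o h ∈ s.bd X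
  · rw [if_pos hh, if_pos (s.c3_obd.2 hh)]
  · rw [if_neg hh, if_neg fun h' => hh (s.c3_obd.1 h')]

lemma c3_ker_cut (A : Finset H) : LinearMap.ker (cut A : (H → K) →ₗ[K] (H → K)) = spt K Aᶜ := by
  ext f
  rw [LinearMap.mem_ker, mem_spt]
  constructor
  · intro hf e he
    have := congrFun hf e
    rwa [cut_apply, if_pos (by simpa using he)] at this
  · intro hf
    funext e
    rw [cut_apply]
    split_ifs with he
    · exact hf e (by simpa using he)
    · rfl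

lemma c3_g_empty (X : Finset B) : s.g X ∅ = finrank K (s.G X) := by
  have : (s.G X ⊓ spt K (∅ : Finset H)ᶜ : Submodule K (H → K)) = s.G X :=
    inf_eq_left.2 fun f _ e he => absurd (by simp) he
  rw [g, this]

lemma c3_one_T : (fun _ => 1 : H → K) ∈ s.T := by
  have : (fun _ => 1 : H → K) = ∑ v : N, chi K {h | s.nd h = v} := by
    funext h
    rw [Finset.sum_apply, Finset.sum_eq_single (s.nd h)]
    · simp [chi]
    · intro v _ hv
      simp [chi, hv.symm]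
    · simp
  rw [this]
  exact s.T.sum_mem fun v _ => s.one v

lemma c3_one_G (X : Finset B) : cut (s.HB X) (fun _ => 1 : H → K) ∈ s.G X := by
  refine ⟨s.cut_HB_mem X _ s.c3_one_T, fun h hh => ?_, fun h h1 h2 => ?_⟩
  · rw [cut_apply, if_neg fun h' => hh (s.c3_HB.1 h')]
  · rw [cut_apply, cut_apply, if_pos (s.c3_HB.2 h1), if_pos (s.c3_HB.2 h2)]

/-- rank-nullity: the kernel on `G X` is `G X ⊓ spt (bd X)ᶜ` (`tw X \ HB X = o (bd X)`) -/
theorem g_TX (X : Finset B) : s.g X ∅ = s.g X (s.bd X) + finrank K (s.TX X) := by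
  have hk : LinearMap.ker ((cut (s.tw X \ s.HB X)).comp (LinearMap.funLeft K K s.o)) =
      spt K (s.bd X)ᶜ := by
    rw [← c3_ker_cut]
    ext f
    rw [LinearMap.mem_ker, LinearMap.mem_ker]
    constructor
    · intro hf
      funext e
      have := congrFun hf (s.o e)
      rwa [c3_phi, s.oo] at this
    · intro hf
      funext e
      rw [c3_phi, hf]
      rfl
  rw [c3_g_empty, c3_rn (s.G X) ((cut (s.tw X \ s.HB X)).comp (LinearMap.funLeft K K s.o)), hk,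
    add_comm]
  rfl

/-- reindex the sum by `o` and use `LC_iso` -/
theorem TX_iso (X : Finset B) : ∀ f ∈ s.TX X, ∀ g ∈ s.TX X, f ⬝ᵥ g = 0 := by
  rintro _ ⟨f, hf, rfl⟩ _ ⟨g, hg, rfl⟩
  have h0 := s.LC_iso X _ ⟨f, hf, rfl⟩ _ ⟨g, hg, rfl⟩
  rw [← h0, dotProduct, dotProduct]
  simp only [c3_phi]
  exact Equiv.sum_comp (Function.Involutive.toPerm s.o s.oo)
    fun e => cut (s.bd X) f e * cut (s.bd X) g e

/-- `chi (HB X) ∈ G X` (a sum of `one`), its image is not zero -/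
theorem TX_pos (X : Finset B) (h : (s.bd X).Nonempty) : 1 ≤ finrank K (s.TX X) := by
  obtain ⟨e, he⟩ := h
  refine Nat.one_le_iff_ne_zero.2 fun h0 => ?_
  rw [Submodule.finrank_eq_zero] at h0
  have h1 : ((cut (s.tw X \ s.HB X)).comp (LinearMap.funLeft K K s.o))
      (cut (s.HB X) (fun _ => 1 : H → K)) ∈ s.TX X := ⟨_, s.c3_one_G X, rfl⟩
  rw [h0, Submodule.mem_bot] at h1
  have h2 := congrFun h1 (s.o e)
  rw [c3_phi, s.oo, cut_apply, if_pos he, cut_apply, if_pos (s.c3_HB.2 (s.c3_bd.1 he).1)] at h2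
  exact one_ne_zero h2

/-- Plan: `U = (G M ⊓ spt Zᶜ).map (cut (bd {P}))`, rank-nullity. `tw X \ HB X ⊆ bd {P}` by
`hang`. The kernel lies in `G M ⊓ spt Z'ᶜ` with `Z' = bd {P} ∪ ⋃ bd X`; `g_union`, `g_biUnion`,
`g_mono`. Use `cut_mem_G`. -/
theorem g_hang {P : B} {𝒳 : Finset (Finset B)} (hh : s.Hang P 𝒳) (Z : Finset H) :
    ∃ U : Submodule K (H → K), U ≤ s.LC {P} ∧ (∀ w ∈ U, ∀ h ∈ Z, w h = 0) ∧
      (∀ w ∈ U, ∀ X ∈ 𝒳, cut (s.tw X \ s.HB X) w ∈ s.TX X) ∧
      s.g ({P} ∪ 𝒳.biUnion id) Z ≤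
        finrank K U + s.g {P} (s.bd {P}) + ∑ X ∈ 𝒳, s.g X (s.bd X) := by
  have hP : ({P} : Finset B) ⊆ {P} ∪ 𝒳.biUnion id := Finset.subset_union_left
  have hX : ∀ X ∈ 𝒳, X ⊆ {P} ∪ 𝒳.biUnion id := fun X hX b hb =>
    Finset.mem_union_right _ (Finset.mem_biUnion.2 ⟨X, hX, hb⟩)
  have hleg : ∀ X ∈ 𝒳, ∀ e ∈ s.bd X, s.o e ∈ s.bd {P} := fun X hX e he => by
    rw [c3_bd, s.oo, Finset.mem_singleton, Finset.mem_singleton]
    exact ⟨hh.hang X hX e he, fun h => hh.nP X hX (h ▸ (s.c3_bd.1 he).1)⟩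
  refine ⟨(s.G ({P} ∪ 𝒳.biUnion id) ⊓ spt K Zᶜ).map (cut (s.bd {P})), ?_, ?_, ?_, ?_⟩
  · rintro _ ⟨f, hf, rfl⟩
    refine ⟨_, s.cut_mem_G hP f hf.1, ?_⟩
    rw [cut_cut, Finset.inter_eq_left.2 fun e he => s.c3_HB.2 (s.c3_bd.1 he).1]
  · rintro _ ⟨f, hf, rfl⟩ e he
    rw [cut_apply]
    split_ifs
    · exact hf.2 e (by simpa using he)
    · rfl
  · rintro _ ⟨f, hf, rfl⟩ X hX'
    refine ⟨_, s.cut_mem_G (hX X hX') f hf.1, ?_⟩
    funext e
    rw [c3_phi, cut_apply, cut_apply (s.tw X \ s.HB X)]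
    by_cases he : s.o e ∈ s.bd X
    · have h1 := hleg X hX' _ he
      rw [s.oo] at h1
      rw [if_pos he, if_pos (s.c3_obd.2 he), cut_apply, if_pos (s.c3_HB.2 (s.c3_bd.1 he).1),
        cut_apply, if_pos h1]
      exact hf.1.2.2 e (hP (s.c3_bd.1 h1).1) (hX X hX' (s.c3_bd.1 he).1)
    · rw [if_neg he, if_neg fun h' => he (s.c3_obd.1 h')]
  · have h1 := c3_rn (s.G ({P} ∪ 𝒳.biUnion id) ⊓ spt K Zᶜ) (cut (s.bd {P}))
    have h2 : finrank K ((s.G ({P} ∪ 𝒳.biUnion id) ⊓ spt K Zᶜ) ⊓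
        LinearMap.ker (cut (s.bd {P})) : Submodule K (H → K)) ≤
        s.g ({P} ∪ 𝒳.biUnion id) (s.bd {P} ∪ 𝒳.biUnion s.bd) := by
      refine Submodule.finrank_mono ?_
      rw [c3_ker_cut]
      rintro f ⟨⟨hf, -⟩, hk⟩
      refine ⟨hf, fun e he => ?_⟩
      rw [Finset.mem_compl, not_not, Finset.mem_union] at he
      rcases he with he | he
      · exact hk e (by simpa using he)
      · obtain ⟨X, hX', he⟩ := Finset.mem_biUnion.1 he
        have h3 := hleg X hX' e he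
        rw [← hf.2.2 e (hX X hX' (s.c3_bd.1 he).1) (hP (s.c3_bd.1 h3).1)]
        exact hk _ (by simpa using h3)
    have hd : Disjoint ({P} : Finset B) (𝒳.biUnion id) := by
      rw [Finset.disjoint_singleton_left]
      intro h
      obtain ⟨X, hX', h⟩ := Finset.mem_biUnion.1 h
      exact hh.nP X hX' h
    have h3 := s.g_union {P} (𝒳.biUnion id) hd (s.bd {P} ∪ 𝒳.biUnion s.bd)
    have h4 := s.g_mono {P} (s.bd {P}) (s.bd {P} ∪ 𝒳.biUnion s.bd)
      fun e he _ => Finset.mem_union_left _ he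
    have h5 := s.g_biUnion 𝒳 hh.disj (s.bd {P} ∪ 𝒳.biUnion s.bd ∪ s.tw {P})
    have h6 : ∑ X ∈ 𝒳, s.g X (s.bd {P} ∪ 𝒳.biUnion s.bd ∪ s.tw {P}) ≤
        ∑ X ∈ 𝒳, s.g X (s.bd X) :=
      Finset.sum_le_sum fun X hX' => s.g_mono X _ _ fun e he _ =>
        Finset.mem_union_left _ (Finset.mem_union_right _ (Finset.mem_biUnion.2 ⟨X, hX', he⟩))
    have h7 : s.g ({P} ∪ 𝒳.biUnion id) Z =
        finrank K (s.G ({P} ∪ 𝒳.biUnion id) ⊓ spt K Zᶜ : Submodule K (H → K)) := rfl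
    omega

lemma c3_const {P : B} (hP : P ∉ s.cls) {f : H → K} (hf : f ∈ s.G {P}) {e : H}
    (he : e ∈ s.HB {P}) : f e • cut (s.HB {P}) (fun _ => 1 : H → K) = f := by
  funext h
  rw [Pi.smul_apply, cut_apply, smul_eq_mul]
  have h1 : s.bl (s.nd e) = P := Finset.mem_singleton.1 (s.c3_HB.1 he)
  split_ifs with hh
  · rw [mul_one]
    have h2 : s.bl (s.nd h) = P := Finset.mem_singleton.1 (s.c3_HB.1 hh)
    exact (s.neu f hf.1 e h (h1 ▸ hP) (h2.trans h1.symm)).symm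
  · rw [mul_zero]
    exact (hf.2.1 h fun h' => hh (s.c3_HB.2 h')).symm

lemma c3_neu {P : B} (hP : P ∉ s.cls) (U : Submodule K (H → K)) (hU : U ≤ s.LC {P})
    (E : Finset H) (hE : E ⊆ s.bd {P}) (h0 : ∀ w ∈ U, ∀ h ∈ E, w h = 0) :
    finrank K U + s.g {P} (s.bd {P}) ≤ if E = ∅ then 1 else 0 := by
  split_ifs with hE0
  · have h1 := c3_rn (s.G {P}) (cut (s.bd {P}))
    rw [c3_ker_cut] at h1
    have h2 : finrank K U ≤ finrank K ((s.G {P}).map (cut (s.bd {P}))) :=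
      Submodule.finrank_mono hU
    have h3 : finrank K (s.G {P}) ≤ 1 := by
      refine finrank_le_one ⟨_, s.c3_one_G {P}⟩ fun f => ?_
      by_cases hne : (s.HB {P}).Nonempty
      · obtain ⟨e, he⟩ := hne
        exact ⟨f.1 e, Subtype.ext (s.c3_const hP f.2 he)⟩
      · refine ⟨0, Subtype.ext ?_⟩
        funext h
        rw [zero_smul]
        exact (f.2.2.1 h fun h' => hne ⟨h, s.c3_HB.2 h'⟩).symm
    have h4 : s.g {P} (s.bd {P}) =
        finrank K (s.G {P} ⊓ spt K (s.bd {P})ᶜ : Submodule K (H → K)) := rfl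
    omega
  · obtain ⟨e, he⟩ := Finset.nonempty_iff_ne_empty.2 hE0
    have hb : e ∈ s.HB {P} := s.c3_HB.2 (s.c3_bd.1 (hE he)).1
    have h1 : U = ⊥ := by
      refine (Submodule.eq_bot_iff _).2 fun w hw => ?_
      obtain ⟨f, hf, rfl⟩ := hU hw
      have h2 := h0 _ hw e he
      rw [cut_apply, if_pos (hE he)] at h2
      rw [← s.c3_const hP hf hb, h2, zero_smul, map_zero]
    have h2 : (s.G {P} ⊓ spt K (s.bd {P})ᶜ : Submodule K (H → K)) = ⊥ := by
      refine (Submodule.eq_bot_iff _).2 fun f hf => ?_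
      have h3 : f e = 0 := hf.2 e (by simpa using hE he)
      rw [← s.c3_const hP hf.1 hb, h3, zero_smul]
    rw [g, h1, h2, finrank_bot]

/-- NEUTRAL NODE. Functions in `G {P}` are constant on `HB {P}` (`neu`), so
`finrank U + g {P} (bd {P}) ≤ 1`, and `= 0` if `Z` contains a leg (if `bd {P} = ∅` then
`U = ⊥`, else `g {P} (bd {P}) = 0`). `g_hang` twice, `g_TX`, `TX_pos`. -/
theorem step_neu {P : B} (hP : P ∉ s.cls) {𝒳 : Finset (Finset B)} (hh : s.Hang P 𝒳)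
    (E L : Finset H) (hE : E ⊆ s.bd {P}) (hL : L ⊆ s.bd {P}) :
    s.g ({P} ∪ 𝒳.biUnion id) E + s.g ({P} ∪ 𝒳.biUnion id) L + s.ncS {P} + #𝒳 ≤
      s.hcS {P} + ∑ X ∈ 𝒳, (s.g X (s.bd X) + s.g X ∅) + (if E = ∅ then 1 else 0) +
        (if L = ∅ then 1 else 0) := by
  obtain ⟨U₁, l₁, z₁, -, d₁⟩ := s.g_hang hh E
  obtain ⟨U₂, l₂, z₂, -, d₂⟩ := s.g_hang hh L
  have n₁ := s.c3_neu hP U₁ l₁ E hE z₁
  have n₂ := s.c3_neu hP U₂ l₂ L hL z₂
  have hn : s.ncS {P} = 0 := by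
    have h1 : #{v | s.bl v ∈ ({P} : Finset B) ∧ s.bl v ∈ s.cls} = 0 := by
      rw [Finset.card_eq_zero, Finset.filter_eq_empty_iff]
      rintro v - ⟨h1, h2⟩
      exact hP (Finset.mem_singleton.1 h1 ▸ h2)
    rw [ncS, h1, Finset.singleton_inter_of_notMem hP]
    rfl
  have hs : ∑ X ∈ 𝒳, s.g X (s.bd X) + #𝒳 ≤ ∑ X ∈ 𝒳, s.g X ∅ := by
    rw [Finset.card_eq_sum_ones, ← Finset.sum_add_distrib]
    refine Finset.sum_le_sum fun X hX => ?_
    have := s.TX_pos X (hh.ne X hX)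
    rw [s.g_TX X]
    omega
  rw [Finset.sum_add_distrib, hn]
  omega

end HS
end Pool.Agent.MP_8c1b0d_co

set_option autoImplicit false
set_option linter.unusedSectionVars false
open Finset Module

namespace Pool.Agent.MP_8c1b0d_co
namespace HS
variable {K H N B : Type} [Field K] [CharP K 2] [Fintype H] [DecidableEq H] [Fintype N]
  [DecidableEq N] [DecidableEq B] (s : HS K H N B)

lemma c4_HB {S : Finset B} {h : H} : h ∈ s.HB S ↔ s.bl (s.nd h) ∈ S := by simp [HB]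
lemma c4_tw {S : Finset B} {h : H} : h ∈ s.tw S ↔ s.bl (s.nd (s.o h)) ∈ S := by simp [tw]
lemma c4_bd {S : Finset B} {h : H} :
    h ∈ s.bd S ↔ s.bl (s.nd h) ∈ S ∧ s.bl (s.nd (s.o h)) ∉ S := by simp [bd]
lemma c4_bd1 {P : B} {h : H} :
    h ∈ s.bd {P} ↔ s.bl (s.nd h) = P ∧ s.bl (s.nd (s.o h)) ≠ P := by simp [bd]

lemma c4_chi_nodes (S : Finset N) : chi K {h | s.nd h ∈ S} ∈ s.T := by
  have e : chi K ({h | s.nd h ∈ S} : Finset H) = ∑ v ∈ S, chi K {h | s.nd h = v} := by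
    funext h
    simp [chi, Finset.sum_apply]
  rw [e]
  exact Submodule.sum_mem _ fun v _ => s.one v

lemma c4_four (h2 : s.t2) (S : Finset N) {n : ℕ}
    (e : #{h | s.nd h ∈ S ∧ s.nd (s.o h) ∉ S} = n) : n = 0 ∨ 4 ≤ n := by
  have h3 := h2 S
  obtain ⟨k, hk⟩ := s.even_legs S
  omega

lemma c4_LC_le (S : Finset B) : s.LC S ≤ spt K (s.bd S) := by
  rintro _ ⟨f, -, rfl⟩ e he
  rw [cut_apply, if_neg he]

lemma c4_part {P : B} {𝒳 : Finset (Finset B)} (hh : s.Hang P 𝒳) {Y : Finset B} (hY : Y ∈ 𝒳)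
    {p : H → Prop} [DecidablePred p] (hp : ∀ h ∈ s.bd {P}, p h ↔ h ∈ s.tw Y) :
    {h ∈ s.bd {P} | p h} = s.tw Y \ s.HB Y := by
  ext h
  rw [mem_filter, mem_sdiff]
  refine ⟨fun ⟨a, b⟩ => ⟨(hp h a).1 b, fun c => hh.nP Y hY ?_⟩, fun ⟨a, b⟩ => ?_⟩
  · rw [← (s.c4_bd1.1 a).1]
    exact s.c4_HB.1 c
  · have c := hh.hang Y hY (s.o h) (s.c4_bd.2 ⟨s.c4_tw.1 a, by rw [s.oo]; exact mt s.c4_HB.2 b⟩)
    rw [s.oo] at c
    have d : h ∈ s.bd {P} := s.c4_bd1.2 ⟨c, fun e => hh.nP Y hY (e ▸ s.c4_tw.1 a)⟩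
    exact ⟨d, (hp h d).2 a⟩

section atoms
variable {P : B} {At : Type} [DecidableEq At] {am : N → At}

lemma c4_one (ha : s.Atoms P am) (a : At) : chi K {h ∈ s.bd {P} | am (s.nd h) = a} ∈ s.LC {P} := by
  refine ⟨chi K {h | s.nd h ∈ ({v | s.bl v = P ∧ am v = a} : Finset N)},
    ⟨s.c4_chi_nodes _, fun h hh => ?_, fun h h1 h2 => ?_⟩, ?_⟩
  · rw [mem_singleton] at hh
    simp [chi, hh]
  · rw [mem_singleton] at h1 h2
    simp [chi, h1, h2, ha.inn h h1 h2]
  · funext h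
    by_cases hb : h ∈ s.bd {P}
    · simp [chi, cut_apply, hb, (s.c4_bd1.1 hb).1]
    · simp [chi, cut_apply, hb]

lemma c4_legs (ha : s.Atoms P am) (a : At) :
    ({h | s.nd h ∈ ({v | s.bl v = P ∧ am v = a} : Finset N) ∧
      s.nd (s.o h) ∉ ({v | s.bl v = P ∧ am v = a} : Finset N)} : Finset H) =
      {h ∈ s.bd {P} | am (s.nd h) = a} := by
  ext h
  simp only [mem_filter, mem_univ, true_and, c4_bd1]
  exact ⟨fun ⟨⟨x, y⟩, z⟩ => ⟨⟨x, fun e => z ⟨e, (ha.inn h x e).trans y⟩⟩, y⟩,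
    fun ⟨⟨x, y⟩, z⟩ => ⟨⟨x, z⟩, fun e => y e.1⟩⟩

lemma c4_rz (hP : P ∈ s.cls) (ha : s.Atoms P am) {w : H → K} (hw : w ∈ s.LC {P}) :
    ∃ c : At → K, ∃ g ∈ s.T ⊓ symm K s.o, ∀ h ∈ s.bd {P}, g h = w h + c (am (s.nd h)) := by
  obtain ⟨f, hf, rfl⟩ := hw
  obtain ⟨g, hg, c, hc⟩ := s.rz P hP f hf.1
  choose rep r1 r2 using ha.surj
  refine ⟨fun a => c (rep a), g, hg, fun h hb => ?_⟩
  have hP' := (s.c4_bd1.1 hb).1
  rw [cut_apply, if_pos hb, hc h hP']
  refine congrArg _ (ha.gen c (fun e e1 e2 => ?_) _ _ hP' (r1 _) (r2 _).symm)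
  have e3 := hc _ e2
  rw [hg.2 e, hf.2.2 e (mem_singleton.2 e1) (mem_singleton.2 e2), hc e e1] at e3
  exact (add_left_cancel e3).symm

lemma c4_ind [Fintype At] (hP : P ∈ s.cls) (ha : s.Atoms P am) (S : Finset At)
    (hS : ∀ w ∈ s.LC {P}, cut {h | am (s.nd h) ∈ S} w ∈ s.LC {P}) : S = ∅ ∨ S = univ := by
  refine (s.split hP {v | s.bl v = P ∧ am v ∈ S} (fun v hv => (mem_filter.1 hv).2.1)
    (fun h h1 h2 => ?_) fun f hf g hg => ?_).imp (fun e => ?_) fun e => ?_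
  · simp only [mem_filter, mem_univ, true_and] at h1 ⊢
    exact ⟨h2, ha.inn h h1.1 h2 ▸ h1.2⟩
  · rw [← s.LC_iso {P} _ (hS _ ⟨f, hf, rfl⟩) _ ⟨g, hg, rfl⟩]
    refine Finset.sum_congr rfl fun h _ => ?_
    by_cases hb : h ∈ s.bd {P}
    · simp [cut_apply, hb, (s.c4_bd1.1 hb).1]
    · simp [cut_apply, hb]
  · refine eq_empty_of_forall_notMem fun a haS => ?_
    obtain ⟨v, h1, h2⟩ := ha.surj a
    exact eq_empty_iff_forall_notMem.1 e v (mem_filter.2 ⟨mem_univ _, h1, h2 ▸ haS⟩)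
  · refine eq_univ_of_forall fun a => ?_
    obtain ⟨v, h1, h2⟩ := ha.surj a
    exact h2 ▸ (mem_filter.1 (e v h1)).2.2

lemma c4_strad [Fintype At] (h2 : s.t2) (ha : s.Atoms P am) {𝒳 : Finset (Finset B)}
    (hh : s.Hang P 𝒳) {Y : Finset B} (hY : Y ∈ 𝒳) (pt : H → ℕ) (i : ℕ)
    (hp : ∀ h ∈ s.bd {P}, pt h = i ↔ h ∈ s.tw Y) :
    #(strad (s.bd {P}) (fun h => am (s.nd h)) pt i) = 0 ∨
      4 ≤ #(strad (s.bd {P}) (fun h => am (s.nd h)) pt i) := by
  refine s.c4_four h2 {v | s.bl v ∈ Y ∨ (s.bl v = P ∧ ∀ h ∈ s.bd {P}, am (s.nd h) = am v → pt h = i)}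
    (card_nbij' s.o s.o (fun h hm => ?_) (fun h hm => ?_) (fun h _ => s.oo h) fun h _ => s.oo h)
  · simp only [coe_filter, mem_filter, mem_univ, true_and, Set.mem_ofPred_eq, not_or, not_and] at hm
    obtain ⟨h1, h3, h4⟩ := hm
    rw [mem_coe, strad, mem_filter]
    rcases h1 with h1 | ⟨h1, h5⟩
    · have c := hh.hang Y hY h (s.c4_bd.2 ⟨h1, h3⟩)
      have d : s.o h ∈ s.bd {P} := s.c4_bd1.2 ⟨c, by
        rw [s.oo]
        exact fun e => hh.nP Y hY (e ▸ h1)⟩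
      refine ⟨d, (hp _ d).2 (s.c4_tw.2 (by rwa [s.oo])), ?_⟩
      by_contra hc
      exact h4 c fun e he e' => by_contra fun e'' => hc ⟨e, he, e', e''⟩
    · by_cases c : s.bl (s.nd (s.o h)) = P
      · exact absurd (ha.inn h h1 c ▸ h5) (h4 c)
      · have d := s.c4_bd1.2 ⟨h1, c⟩
        exact absurd (s.c4_tw.1 ((hp h d).1 (h5 h d rfl))) h3
  · rw [mem_coe, strad, mem_filter] at hm
    obtain ⟨h1, h3, e, he, e1, e2⟩ := hm
    simp only [coe_filter, mem_filter, mem_univ, true_and, Set.mem_ofPred_eq, not_or, not_and, s.oo]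
    refine ⟨Or.inl (s.c4_tw.1 ((hp h h1).1 h3)), ?_, fun _ c => e2 (c e he e1)⟩
    rw [(s.c4_bd1.1 h1).1]
    exact hh.nP Y hY

end atoms

lemma c4_enum (𝒳 : Finset (Finset B)) :
    ∃ X : ℕ → Finset B, Set.BijOn X (Icc 1 #𝒳 : Finset ℕ) 𝒳 := by
  let e : (Icc 1 #𝒳 : Finset ℕ) ≃ 𝒳 := Finset.equivOfCardEq (by simp)
  refine ⟨fun i => if h : i ∈ Icc 1 #𝒳 then e ⟨i, h⟩ else ∅, fun i hi => ?_,
    fun i hi j hj hij => ?_, fun Y hY => ⟨e.symm ⟨Y, hY⟩, (e.symm ⟨Y, hY⟩).2, ?_⟩⟩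
  · simp only [dif_pos (mem_coe.1 hi)]
    exact (e _).2
  · simp only [dif_pos (mem_coe.1 hi), dif_pos (mem_coe.1 hj)] at hij
    exact congrArg Subtype.val (e.injective (Subtype.ext hij))
  · simp only [dif_pos (e.symm ⟨Y, hY⟩).2, Subtype.coe_eta, Equiv.apply_symm_apply]

lemma c4_cyc {P : B} {At : Type} [Fintype At] {am : N → At} (ha : s.Atoms P am) :
    2 * s.g {P} (s.bd {P}) + 2 * #{v | s.bl v = P} + #(s.bd {P}) ≤
      #(s.HB {P}) + 2 * Fintype.card At := by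
  refine s.cyc_block ha _ (fun f hf => ?_) fun f hf v => s.iso _ (s.one v) _ hf.1.1
  have z : ∀ h ∈ s.bd {P}, f h = 0 := fun h hb => hf.2 h (by simpa using hb)
  refine ⟨fun h hm => ?_, fun h => ?_⟩
  · by_cases hb : h ∈ s.bd {P}
    · exact z h hb
    · exact hf.1.2.1 h fun e => hm (mem_sdiff.2 ⟨s.c4_HB.2 e, hb⟩)
  · by_cases e1 : s.bl (s.nd h) ∈ ({P} : Finset B) <;>
      by_cases e2 : s.bl (s.nd (s.o h)) ∈ ({P} : Finset B)
    · exact hf.1.2.2 h e1 e2
    · rw [hf.1.2.1 _ e2, z h (s.c4_bd.2 ⟨e1, e2⟩)]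
    · rw [hf.1.2.1 _ e1, z _ (s.c4_bd.2 ⟨e2, by rwa [s.oo]⟩)]
    · rw [hf.1.2.1 _ e1, hf.1.2.1 _ e2]

/-- The data of the node inequality at a class `P`. Plan, field by field. `le` clear, `iso`
`LC_iso`, `sd` `LC_sd`. `one`: the indicator of the half-edges of the nodes `v` of `P` with
`am v = a` is in `G {P}` (`one`, `inn`). `four`: this number is the number of legs of that node
set, even (`even_legs`), not 2 (`t2`), not 0 (`atom_eq` and `leg`). `hT`, `pne`: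
`tw (X i) \ HB (X i) = {h ∈ bd {P} | pt h = i}` (`hang`, `nP`, `ne`). `Tiso` `TX_iso`.
`rz`: for `w = cut bd f`, `f ∈ G {P}`, take `g, c` from `s.rz`; `c` is constant on atoms (`gen`,
as `f` and `g` are symmetric on inner edges), so `c v = c' (am v)` on `P` (`surj`, choice);
`cut (HB (X i)) g ∈ G (X i)` (`cut_HB_mem`) is moved to the required word. `no2`: `t1`.
`ind`: `split` with the nodes of `P` whose atom is in `S` (`LC_iso`), `surj`. `c1`: `t2` and
`even_legs` for the nodes in blocks of `X i` together with the nodes of `P` whose atom has all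
its legs in part `i`; the legs of this set are the images under `o` of `strad i`. -/
theorem nidata (h1 : s.t1) (h2 : s.t2) {P : B} (hP : P ∈ s.cls) (leg : (s.bd {P}).Nonempty)
    {At : Type} [Fintype At] [DecidableEq At] {am : N → At} (ha : s.Atoms P am)
    {𝒳 : Finset (Finset B)} (hh : s.Hang P 𝒳) (r : ℕ) (X : ℕ → Finset B) (pt : H → ℕ)
    (hX : ∀ i, 1 ≤ i → i ≤ r → X i ∈ 𝒳) (hpt : ∀ h ∈ s.bd {P}, pt h ≤ r + 1)
    (spec : ∀ i, 1 ≤ i → i ≤ r → ∀ h ∈ s.bd {P}, pt h = i ↔ h ∈ s.tw (X i)) :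
    NIdata K (s.bd {P}) (fun h => am (s.nd h)) pt r (s.LC {P}) (fun i => s.TX (X i)) := by
  have part : ∀ i, 1 ≤ i → i ≤ r → {h ∈ s.bd {P} | pt h = i} = s.tw (X i) \ s.HB (X i) :=
    fun i a b => s.c4_part hh (hX i a b) (spec i a b)
  refine ⟨s.c4_LC_le _, s.LC_iso _, s.LC_sd hP, s.c4_one ha, fun a => ?_, hpt, fun i a b => ?_,
    fun i _ _ => s.TX_iso _, fun w hw => ?_, ?_, s.c4_ind hP ha, fun i a b => ?_,
    fun i a b => s.c4_strad h2 ha hh (hX i a b) pt i (spec i a b)⟩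
  · refine (s.c4_four h2 _ (congrArg card (s.c4_legs ha a))).resolve_left fun e => ?_
    have h0 : ∀ h ∈ s.bd {P}, am (s.nd h) ≠ a := filter_eq_empty_iff.1 (card_eq_zero.1 e)
    obtain ⟨h, hb⟩ := leg
    exact h0 h hb (s.atom_eq hP ha a h0 _)
  · rw [part i a b]
    rintro _ ⟨f, -, rfl⟩ e he
    rw [LinearMap.comp_apply, cut_apply, if_neg he]
  · obtain ⟨c, g, hg, hc⟩ := s.c4_rz hP ha hw
    refine ⟨c, fun i a b => ⟨cut (s.HB (X i)) g, ⟨s.cut_HB_mem _ g hg.1, fun h e => ?_,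
      fun h e e' => ?_⟩, funext fun h => ?_⟩⟩
    · rw [cut_apply, if_neg (mt s.c4_HB.1 e)]
    · rw [cut_apply, cut_apply, if_pos (s.c4_HB.2 e), if_pos (s.c4_HB.2 e'), hg.2 h]
    · rw [LinearMap.comp_apply, ← part i a b, cut_apply, cut_apply]
      split_ifs with hm
      · obtain ⟨m1, m2⟩ := mem_filter.1 hm
        rw [LinearMap.funLeft_apply, cut_apply,
          if_pos (s.c4_HB.2 (s.c4_tw.1 ((spec i a b h m1).1 m2))), hg.2 h, hc h m1]
        rfl
      · rfl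
  · rintro e he f hf ef ⟨t, ht, et⟩
    exact h1 P hP e he f hf ef t ht et
  · obtain ⟨e, he⟩ := hh.ne _ (hX i a b)
    obtain ⟨e1, e2⟩ := s.c4_bd.1 he
    refine ⟨s.o e, (mem_filter (p := fun h => pt h = i)).1 ?_⟩
    rw [part i a b]
    exact mem_sdiff.2 ⟨s.c4_tw.2 (by rwa [s.oo]), mt s.c4_HB.1 e2⟩

/-- CLASS NODE. Plan: `exists_atoms`; number `𝒳` as `X 1, ..., X r` (`𝒳.equivFin`, `r = #𝒳`),
`pt h = 0` on `E`, `r + 1` on `L`, `i` on `tw (X i)` (these sets are disjoint by `disj`);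
`nidata`, `g_hang` for `E` and `L`, `NI`; `cyc_block` for `W = G {P} ⊓ spt (bd {P})ᶜ` (even by
`one`, `iso`); `g_TX`; `ncS {P} = 2 * #{v | bl v = P} + 1`, `hcS {P} = #(HB {P})`; omega. -/
theorem step_cls (h1 : s.t1) (h2 : s.t2) {P : B} (hP : P ∈ s.cls) (leg : (s.bd {P}).Nonempty)
    {𝒳 : Finset (Finset B)} (hh : s.Hang P 𝒳) (E L : Finset H) (hE : E ⊆ s.bd {P})
    (hL : L ⊆ s.bd {P}) (dEL : Disjoint E L)
    (cov : ∀ h ∈ s.bd {P}, (h ∈ E ∨ h ∈ L) ↔ ∀ X ∈ 𝒳, h ∉ s.tw X) :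
    s.g ({P} ∪ 𝒳.biUnion id) E + s.g ({P} ∪ 𝒳.biUnion id) L + s.ncS {P} + #𝒳 ≤
      s.hcS {P} + ∑ X ∈ 𝒳, (s.g X (s.bd X) + s.g X ∅) + (if E = ∅ then 1 else 0) +
        (if L = ∅ then 1 else 0) := by
  obtain ⟨At, _, _, am, ha⟩ := s.exists_atoms P (s.cls_ne P hP)
  have : Nonempty At := ⟨am (s.nd leg.choose)⟩
  obtain ⟨X, hX⟩ := c4_enum 𝒳
  have hX1 : ∀ i, 1 ≤ i → i ≤ #𝒳 → X i ∈ 𝒳 := fun i a b => hX.1 (mem_coe.2 (mem_Icc.2 ⟨a, b⟩))
  have ex : ∀ h, ∃ p, p ≤ #𝒳 + 1 ∧ (h ∈ s.bd {P} → (p = 0 ↔ h ∈ E) ∧ (p = #𝒳 + 1 ↔ h ∈ L) ∧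
      ∀ i, 1 ≤ i → i ≤ #𝒳 → (p = i ↔ h ∈ s.tw (X i))) := fun h => by
    by_cases hb : h ∈ s.bd {P}
    swap
    · exact ⟨0, by omega, fun c => absurd c hb⟩
    by_cases e1 : h ∈ E
    · exact ⟨0, by omega, fun _ => ⟨iff_of_true rfl e1,
        iff_of_false (by omega) (disjoint_left.1 dEL e1), fun i a b =>
          iff_of_false (by omega) ((cov h hb).1 (Or.inl e1) _ (hX1 i a b))⟩⟩
    by_cases e2 : h ∈ L
    · exact ⟨_, le_rfl, fun _ => ⟨iff_of_false (by omega) e1, iff_of_true rfl e2, fun i a b =>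
        iff_of_false (by omega) ((cov h hb).1 (Or.inr e2) _ (hX1 i a b))⟩⟩
    obtain ⟨Y, hY, hm⟩ : ∃ Y ∈ 𝒳, h ∈ s.tw Y := by
      by_contra hc
      exact ((cov h hb).2 fun Y hY hm => hc ⟨Y, hY, hm⟩).elim e1 e2
    obtain ⟨j, hj, rfl⟩ := hX.2.2 (mem_coe.2 hY)
    obtain ⟨j1, j2⟩ := mem_Icc.1 (mem_coe.1 hj)
    refine ⟨j, by omega, fun _ => ⟨iff_of_false (by omega) e1, iff_of_false (by omega) e2,
      fun i a b => ⟨fun e => e ▸ hm, fun e => hX.2.1 hj (mem_coe.2 (mem_Icc.2 ⟨a, b⟩)) ?_⟩⟩⟩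
    by_contra hc
    exact disjoint_left.1 (hh.disj _ hY _ (hX1 i a b) hc) (s.c4_tw.1 hm) (s.c4_tw.1 e)
  choose pt p1 p2 using ex
  have spec : ∀ i, 1 ≤ i → i ≤ #𝒳 → ∀ h ∈ s.bd {P}, pt h = i ↔ h ∈ s.tw (X i) :=
    fun i a b h hb => (p2 h hb).2.2 i a b
  have d := s.nidata h1 h2 hP leg ha hh #𝒳 X pt hX1 (fun h _ => p1 h) spec
  obtain ⟨U₁, l₁, z₁, t₁, g₁⟩ := s.g_hang hh E
  obtain ⟨U₂, l₂, z₂, t₂, g₂⟩ := s.g_hang hh L
  have key := d.NI U₁ U₂ l₁ l₂
    (fun w hw h e => by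
      by_cases hb : h ∈ s.bd {P}
      exacts [z₁ w hw h ((p2 h hb).1.1 e), d.le (l₁ hw) h hb])
    (fun w hw h e => by
      by_cases hb : h ∈ s.bd {P}
      exacts [z₂ w hw h ((p2 h hb).2.1.1 e), d.le (l₂ hw) h hb])
    (fun w hw i a b => s.c4_part hh (hX1 i a b) (spec i a b) ▸ t₁ w hw _ (hX1 i a b))
    (fun w hw i a b => s.c4_part hh (hX1 i a b) (spec i a b) ▸ t₂ w hw _ (hX1 i a b))
  have k1 : (∀ h ∈ s.bd {P}, pt h ≠ 0) ↔ E = ∅ :=
    ⟨fun c => eq_empty_of_forall_notMem fun h e => c h (hE e) ((p2 h (hE e)).1.2 e),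
      fun c h hb e => notMem_empty h (c ▸ (p2 h hb).1.1 e)⟩
  have k2 : (∀ h ∈ s.bd {P}, pt h ≠ #𝒳 + 1) ↔ L = ∅ :=
    ⟨fun c => eq_empty_of_forall_notMem fun h e => c h (hL e) ((p2 h (hL e)).2.1.2 e),
      fun c h hb e => notMem_empty h (c ▸ (p2 h hb).2.1.1 e)⟩
  have k3 : ∑ i ∈ Icc 1 #𝒳, finrank K (s.TX (X i)) = ∑ Y ∈ 𝒳, finrank K (s.TX Y) :=
    sum_nbij X (fun i hi => hX.1 (mem_coe.2 hi)) hX.2.1 hX.2.2 fun _ _ => rfl
  have k4 : ∑ Y ∈ 𝒳, (s.g Y (s.bd Y) + s.g Y ∅) =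
      2 * ∑ Y ∈ 𝒳, s.g Y (s.bd Y) + ∑ Y ∈ 𝒳, finrank K (s.TX Y) := by
    rw [mul_sum, ← sum_add_distrib]
    exact sum_congr rfl fun Y _ => by rw [s.g_TX]; ring
  have k5 : s.ncS {P} = 2 * #{v | s.bl v = P} + 1 := by
    rw [ncS, singleton_inter_of_mem hP, card_singleton]
    congr 3
    ext v
    simp only [mem_filter, mem_univ, true_and, mem_singleton, and_iff_left_iff_imp]
    exact fun e => e ▸ hP
  have k6 : s.hcS {P} = #(s.HB {P}) := by
    rw [hcS, HB]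
    congr 2
    ext v
    simp only [mem_singleton, and_iff_left_iff_imp]
    exact fun e => e ▸ hP
  have k7 := s.c4_cyc ha
  simp only [k1, k2, k3] at key
  rw [k4, k5, k6]
  omega

end HS
end Pool.Agent.MP_8c1b0d_co
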