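import Pool.Agent.MP_8c1b0d_co.SA

set_option autoImplicit false
set_option linter.unusedSectionVars false
open Finset Module

namespace Pool.Agent.MP_8c1b0d_co

/-- indicator of a finite set -/
def chi (K : Type) [Field K] {H : Type} [DecidableEq H] (A : Finset H) : H → K :=
  fun h => if h ∈ A then 1 else 0

/-- functions invariant under `o` -/
def symm (K : Type) [Field K] {H : Type} (o : H → H) : Submodule K (H → K) where
  carrier := {f | ∀ h, f (o h) = f h}
  zero_mem' := fun _ => rfl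
  add_mem' := fun ha hb h => by simp only [Pi.add_apply, ha h, hb h]
  smul_mem' := fun t a ha h => by simp only [Pi.smul_apply, ha h]

/-- Half-edges `H`, nodes `N`, blocks `B` (classes `cls`, the others neutral), edges `o`,
local constraints `T`. -/
structure HS (K H N B : Type) [Field K] [Fintype H] [DecidableEq H] [Fintype N] [DecidableEq N]
    [DecidableEq B] where
  nd : H → N
  bl : N → B
  cls : Finset B
  o : H → H
  T : Submodule K (H → K)
  nd_surj : Function.Surjective nd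
  cls_ne : ∀ b ∈ cls, ∃ v, bl v = b
  oo : ∀ h, o (o h) = h
  o_ne : ∀ h, o h ≠ h
  loc : ∀ b, ∀ f ∈ T, cut {h | bl (nd h) = b} f ∈ T
  iso : ∀ f ∈ T, ∀ g ∈ T, f ⬝ᵥ g = 0
  one : ∀ v, chi K {h | nd h = v} ∈ T
  neu : ∀ f ∈ T, ∀ h h', bl (nd h) ∉ cls → bl (nd h') = bl (nd h) → f h' = f h
  sd : ∀ b ∈ cls, ∀ w ∈ spt K {h | bl (nd h) = b}, (∀ f ∈ T, w ⬝ᵥ f = 0) → w ∈ T
  rz : ∀ b ∈ cls, ∀ f ∈ T, ∃ g ∈ T ⊓ symm K o, ∃ c : N → K,
    ∀ h, bl (nd h) = b → g h = f h + c (nd h)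
  ind : ∀ b ∈ cls, ∀ S : Finset N, (∀ v ∈ S, bl v = b) → (∀ f ∈ T, cut {h | nd h ∈ S} f ∈ T) →
    S = ∅ ∨ ∀ v, bl v = b → v ∈ S

namespace HS
variable {K H N B : Type} [Field K] [Fintype H] [DecidableEq H] [Fintype N] [DecidableEq N]
  [DecidableEq B] (s : HS K H N B)

/-- half-edges of the classes -/
def hc : ℕ := #{h | s.bl (s.nd h) ∈ s.cls}
/-- nodes of the classes -/
def nc : ℕ := #{v | s.bl v ∈ s.cls}
/-- dimension of the solution space -/
noncomputable def γ : ℕ := finrank K (s.T ⊓ symm K s.o : Submodule K (H → K))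

/-- the certificate of the abstract min-max theorem; `A` = split nodes with pairing `ρ` -/
structure Cert (A : Finset N) (ρ : H → H) (Y : Type) [Fintype Y] [DecidableEq Y] where
  lab : H → Option Y
  D : Finset H
  F : Finset Y
  surj : ∀ y, ∃ h, lab h = some y
  lX : ∀ h, s.nd h ∉ A → lab h ≠ none
  lN : ∀ h h', s.nd h ∉ A → s.nd h' = s.nd h → lab h' = lab h
  lA : ∀ h, s.nd h ∈ A → lab (ρ h) = lab h
  dX : ∀ h ∈ D, s.nd h ∉ A
  cl : ∀ h y, lab h = some y → h ∉ D → lab (s.o h) = some y ∧ s.o h ∉ D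
  fl : ∀ y ∈ F, ∃ b ∈ s.cls, (∃ v ∉ A, s.bl v = b) ∧
    (∀ h, s.nd h ∉ A → (lab h = some y ↔ s.bl (s.nd h) = b)) ∧
    ∀ g ∈ symm K s.o, (∀ h, s.nd h ∈ A → g (ρ h) = g h) →
      (∀ h, g h ≠ 0 → lab h = some y ∧ h ∉ D) → (∀ v, chi K {h | s.nd h = v} ⬝ᵥ g = 0) →
      cut {h | s.bl (s.nd h) = b} g ∈ s.T
  cnt : 6 + #D + 2 * #A ≤ 4 * Fintype.card Y + 2 * #F

end HS

/-- the rulings of a hexagon node: `Row false`, `Row true` are the triangular pairings -/
def Row {K E N : Type} [Field K] (x : V1 K (E ⊕ N × Bool)) (f : N) (i : Bool) : Prop :=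
  if i then x.1 (.inr (f, false)) = 0 ∧ x.1 (.inr (f, true)) = 0
  else x.2 (.inr (f, false)) = 0 ∧ x.2 (.inr (f, true)) = 0
/-- `Colm false`, `Colm true` are two of the parallel pairings -/
def Colm {K E N : Type} [Field K] (x : V1 K (E ⊕ N × Bool)) (f : N) (j : Bool) : Prop :=
  if j then x.1 (.inr (f, false)) = 0 ∧ x.2 (.inr (f, true)) = 0
  else x.1 (.inr (f, true)) = 0 ∧ x.2 (.inr (f, false)) = 0

/-- both colours meet `L` trivially -/
def Transv {K E N : Type} [Field K] (L : Submodule K (V1 K (E ⊕ N × Bool))) : Prop :=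
  ∃ (r : E → Bool) (sw i j : N → Bool), ∀ κ : Bool, ∀ x ∈ L,
    (∀ e, if r e = κ then x.2 (.inl e) = 0 else x.1 (.inl e) = 0) →
    (∀ f, if sw f = κ then Row x f (i f) else Colm x f (j f)) → x = 0

/-- output of the structure theorem for vertices and hexagon nodes -/
structure Pcs {K E N : Type} [Field K] [CharP K 2] [Fintype E] [DecidableEq E] [Fintype N]
    [DecidableEq N] (L : Submodule K (V1 K (E ⊕ N × Bool))) where
  𝒦 : Finset (Finset (E ⊕ N × Bool))
  R : Submodule K (V1 K (E ⊕ N × Bool))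
  le : R ≤ L
  ne : ∀ π ∈ 𝒦, π.Nonempty
  sat : ∀ π ∈ 𝒦, ∀ f b b', .inr (f, b) ∈ π → .inr (f, b') ∈ π
  disj : ∀ π ∈ 𝒦, ∀ π' ∈ 𝒦, π ≠ π' → Disjoint π π'
  iso : ∀ π ∈ 𝒦, ∀ x ∈ R, ∀ y ∈ R, om (pr π x) (pr π y) = 0
  dim : ∀ π ∈ 𝒦, finrank K (R.map (pr π)) = #π
  tot : ∀ r ∈ R, pr (𝒦.biUnion id) r = r
  cnt : 1 + 2 * ∑ π ∈ 𝒦, #π ≤ 2 * finrank K R + #𝒦
  q0 : ∀ π ∈ 𝒦, ∀ x ∈ R, bb (pr π x) (pr π x) = 0
  ind : ∀ π ∈ 𝒦, ∀ A ⊆ π, (∀ f b b', .inr (f, b) ∈ A → .inr (f, b') ∈ A) →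
    (∀ x ∈ R, pr A x ∈ R.map (pr π)) → A = ∅ ∨ A = π
  two : ∀ π ∈ 𝒦, ∀ a b, a ≠ b → π ≠ {.inl a, .inl b}

end Pool.Agent.MP_8c1b0d_co

set_option autoImplicit false
set_option linter.unusedSectionVars false
open Finset Module

namespace Pool.Agent.MP_8c1b0d_co
variable {K H : Type} [Field K] [CharP K 2] [Fintype H] [DecidableEq H]

lemma n1_nondeg :
    LinearMap.BilinForm.Nondegenerate (dotProductBilin K K : LinearMap.BilinForm K (H → K)) := by
  constructor
  · intro x hx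
    ext h
    have := hx (Pi.single h 1)
    simpa [dotProductBilin] using this
  · intro x hx
    ext h
    have := hx (Pi.single h 1)
    simpa [dotProductBilin] using this

/-- two orthogonal spaces supported in `Y` -/
lemma n1_key (Y : Finset H) (V W : Submodule K (H → K)) (hV : V ≤ spt K Y) (hW : W ≤ spt K Y)
    (orth : ∀ f ∈ W, ∀ g ∈ V, f ⬝ᵥ g = 0) : finrank K V + finrank K W ≤ #Y := by
  have h1 : V ⊔ spt K Yᶜ ≤
      LinearMap.BilinForm.orthogonal (dotProductBilin K K : LinearMap.BilinForm K (H → K)) W := by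
    refine sup_le (fun g hg f hf => orth f hf g hg) (fun g hg f hf => ?_)
    show f ⬝ᵥ g = 0
    refine Finset.sum_eq_zero fun e _ => ?_
    by_cases he : e ∈ Y
    · rw [hg e (by simpa using he), mul_zero]
    · rw [hW hf e he, zero_mul]
  have h2 : V ⊓ spt K Yᶜ = ⊥ := by
    rw [eq_bot_iff]
    rintro g ⟨hg, hg'⟩
    rw [Submodule.mem_bot]
    ext e
    by_cases he : e ∈ Y
    · exact hg' e (by simpa using he)
    · exact hV hg e he
  have h3 := Submodule.finrank_sup_add_finrank_inf_eq V (spt K Yᶜ)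
  have h4 := Submodule.finrank_mono h1
  rw [LinearMap.BilinForm.finrank_orthogonal n1_nondeg] at h4
  rw [h2, finrank_bot, finrank_spt, Finset.card_compl] at h3
  have h5 : finrank K (H → K) = Fintype.card H := by simp
  have h6 : #Y ≤ Fintype.card H := Finset.card_le_univ Y
  have h7 : finrank K W ≤ finrank K (H → K) := Submodule.finrank_le W
  omega

lemma n1_chi_dot (A B : Finset H) : chi K A ⬝ᵥ chi K B = (#(A ∩ B) : K) := by
  have : ∀ e, chi K A e * chi K B e = if e ∈ A ∩ B then (1 : K) else 0 := by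
    intro e
    by_cases h1 : e ∈ A <;> by_cases h2 : e ∈ B <;> simp [chi, h1, h2]
  simp only [dotProduct, this]
  rw [Finset.sum_boole]
  congr 2
  ext e
  simp

lemma n1_chi_disj {A B : Finset H} (h : Disjoint A B) : chi K A ⬝ᵥ chi K B = 0 := by
  rw [n1_chi_dot, Finset.disjoint_iff_inter_eq_empty.1 h]
  simp

lemma n1_chi_odd {A : Finset H} (h : Odd #A) : chi K A ⬝ᵥ chi K A = 1 := by
  rw [n1_chi_dot, Finset.inter_self]
  obtain ⟨k, hk⟩ := h
  have two : (2 : K) = 0 := CharTwo.two_eq_zero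
  rw [hk]
  push_cast
  linear_combination (k : K) * two

lemma n1_chi_even {A : Finset H} (h : Even #A) : chi K A ⬝ᵥ chi K A = 0 := by
  rw [n1_chi_dot, Finset.inter_self]
  obtain ⟨k, hk⟩ := h
  rw [hk]
  push_cast
  exact CharTwo.add_self_eq_zero _

lemma n1_chi_spt {A Y : Finset H} (h : A ⊆ Y) : chi K A ∈ spt K Y := by
  intro e he
  have : e ∉ A := fun h' => he (h h')
  simp [chi, this]

lemma n1_sup_span (W : Submodule K (H → K)) (w : H → K) (hw : w ∉ W) :
    finrank K (W ⊔ Submodule.span K {w} : Submodule K (H → K)) = finrank K W + 1 := by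
  have h0 : w ≠ 0 := fun h => hw (h ▸ W.zero_mem)
  have h3 := Submodule.finrank_sup_add_finrank_inf_eq W (Submodule.span K {w})
  have h2 : W ⊓ Submodule.span K {w} = ⊥ :=
    disjoint_iff.1 ((Submodule.disjoint_span_singleton' h0).2 hw)
  rw [h2, finrank_bot, finrank_span_singleton h0] at h3
  omega

/-- Isotropic spaces orthogonal to disjoint odd sets. Plan: let `O` be the span of the `chi K β`,
`β ∈ 𝒪`; `chi β ⬝ᵥ chi β = 1` (odd, char 2), `chi β ⬝ᵥ chi β' = 0`, so `finrank O = #𝒪` and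
`W ⊓ O = ⊥`. `W ⊔ O ⊔ spt K Yᶜ` is a direct sum inside the orthogonal of `W` for the
nondegenerate form `dotProductBilin K K` (`LinearMap.BilinForm.finrank_orthogonal`; test with
`Pi.single` for nondegeneracy), `finrank_spt : finrank (spt K A) = #A` (SA.lean). -/
theorem iso_odd (Y : Finset H) (W : Submodule K (H → K)) (hW : W ≤ spt K Y)
    (iso : ∀ f ∈ W, ∀ g ∈ W, f ⬝ᵥ g = 0) (𝒪 : Finset (Finset H))
    (sub : ∀ β ∈ 𝒪, β ⊆ Y) (odd : ∀ β ∈ 𝒪, Odd #β)
    (disj : ∀ β ∈ 𝒪, ∀ β' ∈ 𝒪, β ≠ β' → Disjoint β β')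
    (orth : ∀ β ∈ 𝒪, ∀ f ∈ W, chi K β ⬝ᵥ f = 0) : 2 * finrank K W + #𝒪 ≤ #Y := by
  let φ : (𝒪 → K) →ₗ[K] (H → K) := Fintype.linearCombination K fun β : 𝒪 => chi K β.1
  have hφ : ∀ c, φ c = ∑ β : 𝒪, c β • chi K β.1 := fun c => Fintype.linearCombination_apply _ _ _
  have hψ : ∀ c (β : 𝒪), chi K β.1 ⬝ᵥ φ c = c β := by
    intro c β
    rw [hφ, dotProduct_sum, Finset.sum_eq_single β]
    · rw [dotProduct_smul, n1_chi_odd (odd _ β.2), smul_eq_mul, mul_one]
    · intro β' _ hne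
      rw [dotProduct_smul, n1_chi_disj (disj _ β.2 _ β'.2 fun h => hne (Subtype.ext h.symm)),
        smul_zero]
    · intro h
      exact absurd (Finset.mem_univ _) h
  have inj : Function.Injective φ := by
    intro c c' h
    ext β
    rw [← hψ c β, ← hψ c' β, h]
  have hO : finrank K (LinearMap.range φ) = #𝒪 := by
    rw [LinearMap.finrank_range_of_inj inj]
    simp
  have hd : W ⊓ LinearMap.range φ = ⊥ := by
    rw [eq_bot_iff]
    rintro f ⟨hf, c, rfl⟩
    have : c = 0 := by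
      ext β
      rw [← hψ c β]
      exact orth _ β.2 _ hf
    rw [this, map_zero]
    exact Submodule.zero_mem _
  have h3 := Submodule.finrank_sup_add_finrank_inf_eq W (LinearMap.range φ)
  rw [hd, finrank_bot, hO] at h3
  have h4 := n1_key Y (W ⊔ LinearMap.range φ) W (sup_le hW (by
      rintro f ⟨c, rfl⟩
      rw [hφ]
      exact Submodule.sum_mem _ fun β _ => Submodule.smul_mem _ _ (n1_chi_spt (sub _ β.2)))) hW (by
    intro f hf g hg
    obtain ⟨a, ha, b, ⟨c, rfl⟩, rfl⟩ := Submodule.mem_sup.1 hg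
    rw [dotProduct_add, iso f hf a ha, zero_add, hφ, dotProduct_sum]
    refine Finset.sum_eq_zero fun β _ => ?_
    rw [dotProduct_smul, dotProduct_comm, orth _ β.2 f hf, smul_zero])
  omega

/-- The same with one more even set `β₀` whose indicator is not in `W`: apply `iso_odd` to
`W ⊔ span {chi K β₀}`. -/
theorem iso_odd_two (Y : Finset H) (W : Submodule K (H → K)) (hW : W ≤ spt K Y)
    (iso : ∀ f ∈ W, ∀ g ∈ W, f ⬝ᵥ g = 0) (𝒪 : Finset (Finset H))
    (sub : ∀ β ∈ 𝒪, β ⊆ Y) (odd : ∀ β ∈ 𝒪, Odd #β)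
    (disj : ∀ β ∈ 𝒪, ∀ β' ∈ 𝒪, β ≠ β' → Disjoint β β')
    (orth : ∀ β ∈ 𝒪, ∀ f ∈ W, chi K β ⬝ᵥ f = 0) (β₀ : Finset H) (s₀ : β₀ ⊆ Y)
    (e₀ : Even #β₀) (d₀ : ∀ β ∈ 𝒪, Disjoint β β₀) (o₀ : ∀ f ∈ W, chi K β₀ ⬝ᵥ f = 0)
    (n₀ : chi K β₀ ∉ W) : 2 * finrank K W + #𝒪 + 2 ≤ #Y := by
  have mem : ∀ f ∈ W ⊔ Submodule.span K {chi K β₀}, ∃ a ∈ W, ∃ t : K, f = a + t • chi K β₀ := by
    intro f hf
    obtain ⟨a, ha, b, hb, rfl⟩ := Submodule.mem_sup.1 hf
    obtain ⟨t, rfl⟩ := Submodule.mem_span_singleton.1 hb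
    exact ⟨a, ha, t, rfl⟩
  have h := iso_odd Y (W ⊔ Submodule.span K {chi K β₀})
    (sup_le hW ((Submodule.span_singleton_le_iff_mem _ _).2 (n1_chi_spt s₀))) (by
      intro f hf g hg
      obtain ⟨a, ha, t, rfl⟩ := mem f hf
      obtain ⟨b, hb, u, rfl⟩ := mem g hg
      rw [add_dotProduct, dotProduct_add, dotProduct_add, iso a ha b hb, dotProduct_smul,
        dotProduct_comm a, o₀ a ha, smul_dotProduct, o₀ b hb, smul_dotProduct, dotProduct_smul,
        n1_chi_even e₀]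
      simp) 𝒪 sub odd disj (by
      intro β hβ f hf
      obtain ⟨a, ha, t, rfl⟩ := mem f hf
      rw [dotProduct_add, orth β hβ a ha, dotProduct_smul, n1_chi_disj (d₀ β hβ)]
      simp)
  rw [n1_sup_span W _ n₀] at h
  omega

/-- An isotropic space of half dimension in `spt K Y` is its own orthogonal there
(otherwise `W ⊔ span {w}` is too large inside the orthogonal of `W`). -/
theorem mem_of_half (Y : Finset H) (W : Submodule K (H → K)) (hW : W ≤ spt K Y)
    (iso : ∀ f ∈ W, ∀ g ∈ W, f ⬝ᵥ g = 0) (hd : #Y ≤ 2 * finrank K W) (w : H → K)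
    (hw : w ∈ spt K Y) (orth : ∀ f ∈ W, w ⬝ᵥ f = 0) : w ∈ W := by
  by_contra hn
  have h := n1_key Y (W ⊔ Submodule.span K {w}) W
    (sup_le hW ((Submodule.span_singleton_le_iff_mem _ _).2 hw)) hW (by
      intro f hf g hg
      obtain ⟨a, ha, b, hb, rfl⟩ := Submodule.mem_sup.1 hg
      obtain ⟨t, rfl⟩ := Submodule.mem_span_singleton.1 hb
      rw [dotProduct_add, iso f hf a ha, dotProduct_smul, dotProduct_comm, orth f hf]
      simp)
  rw [n1_sup_span W _ hn] at h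
  omega

/-- a set whose indicator is isotropic has even size -/
theorem even_of_chi (β : Finset H) (h : chi K β ⬝ᵥ chi K β = 0) : Even #β := by
  by_contra hn
  rw [n1_chi_odd (Nat.not_even_iff_odd.1 hn)] at h
  exact one_ne_zero h

lemma n1_rank (V V' : Submodule K (H → K)) (c : (H → K) →ₗ[K] (H → K))
    (h : ∀ f ∈ V, c f = 0 → f ∈ V') : finrank K V ≤ finrank K (V.map c) + finrank K V' := by
  have h1 := LinearMap.finrank_range_add_finrank_ker (c.domRestrict V)
  rw [LinearMap.range_domRestrict] at h1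
  have h2 : finrank K (LinearMap.ker (c.domRestrict V)) ≤ finrank K V' := by
    rw [← Submodule.finrank_map_subtype_eq]
    refine Submodule.finrank_mono ?_
    rintro f ⟨g, hg, rfl⟩
    exact h _ g.2 hg
  omega

/-- Filtration by a grading of the coordinates. Plan: induction on `n - i` for
`U ⊓ spt {h | i ≤ pt h}`; rank-nullity for `cut {h | pt h = i}` on this space (its kernel is the
next space), the last space is `⊥`. -/
theorem finrank_le_sum_up (U : Submodule K (H → K)) (pt : H → ℕ) (n : ℕ)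
    (hU : ∀ f ∈ U, ∀ h, n ≤ pt h → f h = 0) :
    finrank K U ≤ ∑ i ∈ range n,
      finrank K ((U ⊓ spt K {h | i ≤ pt h}).map (cut {h | pt h = i})) := by
  have step : ∀ i, finrank K (U ⊓ spt K {h | i ≤ pt h} : Submodule K (H → K)) ≤
      finrank K ((U ⊓ spt K {h | i ≤ pt h}).map (cut {h | pt h = i})) +
        finrank K (U ⊓ spt K {h | i + 1 ≤ pt h} : Submodule K (H → K)) := by
    intro i
    refine n1_rank _ _ _ ?_
    rintro f ⟨hf, hf'⟩ h0
    refine ⟨hf, fun e he => ?_⟩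
    by_cases hi : pt e = i
    · have := congrFun h0 e
      rwa [cut_apply, if_pos (by simpa using hi)] at this
    · refine hf' e ?_
      simp only [Finset.mem_filter, Finset.mem_univ, true_and] at he ⊢
      omega
  have ind : ∀ m, finrank K U ≤ ∑ i ∈ range m,
      finrank K ((U ⊓ spt K {h | i ≤ pt h}).map (cut {h | pt h = i})) +
        finrank K (U ⊓ spt K {h | m ≤ pt h} : Submodule K (H → K)) := by
    intro m
    induction m with
    | zero =>
      rw [Finset.sum_range_zero, zero_add]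
      exact Submodule.finrank_mono (le_inf le_rfl fun f _ e he => absurd (by simp) he)
    | succ m ih =>
      rw [Finset.sum_range_succ]
      have := step m
      omega
  have last : U ⊓ spt K {h | n ≤ pt h} = ⊥ := by
    rw [eq_bot_iff]
    rintro f ⟨hf, hf'⟩
    rw [Submodule.mem_bot]
    ext e
    by_cases he : n ≤ pt e
    · exact hU f hf e he
    · exact hf' e (by simpa using he)
  have := ind n
  rwa [last, finrank_bot, add_zero] at this

/-- the same downwards -/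
theorem finrank_le_sum_down (U : Submodule K (H → K)) (pt : H → ℕ) (n : ℕ)
    (hU : ∀ f ∈ U, ∀ h, n ≤ pt h → f h = 0) :
    finrank K U ≤ ∑ i ∈ range n,
      finrank K ((U ⊓ spt K {h | pt h ≤ i}).map (cut {h | pt h = i})) := by
  have ind : ∀ m, finrank K (U ⊓ spt K {h | pt h < m} : Submodule K (H → K)) ≤ ∑ i ∈ range m,
      finrank K ((U ⊓ spt K {h | pt h ≤ i}).map (cut {h | pt h = i})) := by
    intro m
    induction m with
    | zero =>
      have : U ⊓ spt K {h | pt h < 0} = ⊥ := by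
        rw [eq_bot_iff]
        rintro f ⟨hf, hf'⟩
        rw [Submodule.mem_bot]
        ext e
        exact hf' e (by simp)
      rw [this, finrank_bot]
      exact Nat.zero_le _
    | succ m ih =>
      rw [Finset.sum_range_succ]
      have h1 : finrank K (U ⊓ spt K {h | pt h ≤ m} : Submodule K (H → K)) ≤
          finrank K ((U ⊓ spt K {h | pt h ≤ m}).map (cut {h | pt h = m})) +
            finrank K (U ⊓ spt K {h | pt h < m} : Submodule K (H → K)) := by
        refine n1_rank _ _ _ ?_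
        rintro f ⟨hf, hf'⟩ h0
        refine ⟨hf, fun e he => ?_⟩
        by_cases hi : pt e = m
        · have := congrFun h0 e
          rwa [cut_apply, if_pos (by simpa using hi)] at this
        · refine hf' e ?_
          simp only [Finset.mem_filter, Finset.mem_univ, true_and] at he ⊢
          omega
      have h2 : ({h | pt h < m + 1} : Finset H) = ({h | pt h ≤ m} : Finset H) := by
        ext e
        simp only [Finset.mem_filter, Finset.mem_univ, true_and]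
        omega
      rw [h2]
      omega
  have h0 : U ≤ U ⊓ spt K {h | pt h < n} :=
    le_inf le_rfl fun f hf e he => hU f hf e (by simpa using he)
  exact le_trans (Submodule.finrank_mono h0) (ind n)

end Pool.Agent.MP_8c1b0d_co

set_option autoImplicit false
set_option linter.unusedSectionVars false
open Finset Module

namespace Pool.Agent.MP_8c1b0d_co
variable {H At : Type} [Fintype H] [DecidableEq H] [Fintype At] [DecidableEq At]

/-- legs of the atom `a` in the part `i` -/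
def pce (Lg : Finset H) (am : H → At) (pt : H → ℕ) (a : At) (i : ℕ) : Finset H :=
  {h ∈ Lg | am h = a ∧ pt h = i}

/-- part `i` is the first or the last part met by the atom `a`, and not the only one -/
def Ext (Lg : Finset H) (am : H → At) (pt : H → ℕ) (a : At) (i : ℕ) : Prop :=
  (pce Lg am pt a i).Nonempty ∧ (∃ h ∈ Lg, am h = a ∧ pt h ≠ i) ∧
    ((∀ h ∈ Lg, am h = a → i ≤ pt h) ∨ ∀ h ∈ Lg, am h = a → pt h ≤ i)

/-- legs in part `i` of atoms that meet another part -/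
def strad (Lg : Finset H) (am : H → At) (pt : H → ℕ) (i : ℕ) : Finset H :=
  {h ∈ Lg | pt h = i ∧ ∃ h' ∈ Lg, am h' = am h ∧ pt h' ≠ i}

/-- the inequality for one atom; `U` = its unpaid straddling legs, `O` = its odd extreme parts -/
lemma n2_atom (Lg : Finset H) (am : H → At) (pt : H → ℕ) (n : ℕ) (hpt : ∀ h ∈ Lg, pt h < n)
    (a : At) (four : 4 ≤ #{h ∈ Lg | am h = a}) (even : Even #{h ∈ Lg | am h = a})
    (U : Finset H) (O : Finset ℕ)
    (hU : ∀ h ∈ U, h ∈ Lg ∧ am h = a ∧ (∃ h' ∈ Lg, am h' = a ∧ pt h' ≠ pt h) ∧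
      ¬(Ext Lg am pt a (pt h) ∧ #(pce Lg am pt a (pt h)) = 2))
    (hO : ∀ i < n, Ext Lg am pt a i → Odd #(pce Lg am pt a i) → i ∈ O) :
    #U + 8 ≤ 2 * #O + 2 * #{h ∈ Lg | am h = a} := by
  have ne : ({h ∈ Lg | am h = a} : Finset H).Nonempty := Finset.card_pos.1 (by omega)
  obtain ⟨x, hx, hmin⟩ := Finset.exists_min_image _ pt ne
  obtain ⟨y, hy, hmax⟩ := Finset.exists_max_image _ pt ne
  simp only [Finset.mem_filter, and_imp] at hx hy hmin hmax
  by_cases hxy : pt x = pt y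
  · have : U = ∅ := by
      refine Finset.eq_empty_of_forall_notMem fun h hh => ?_
      obtain ⟨h1, h2, ⟨h', h3, h4, h5⟩, -⟩ := hU h hh
      have := hmin h h1 h2
      have := hmax h h1 h2
      have := hmin h' h3 h4
      have := hmax h' h3 h4
      omega
    rw [this, Finset.card_empty]
    omega
  have mp : ∀ h i, h ∈ pce Lg am pt a i ↔ h ∈ Lg ∧ am h = a ∧ pt h = i := fun h i => by
    simp only [pce, Finset.mem_filter]
  have nx : (pce Lg am pt a (pt x)).Nonempty := ⟨x, (mp _ _).2 ⟨hx.1, hx.2, rfl⟩⟩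
  have ny : (pce Lg am pt a (pt y)).Nonempty := ⟨y, (mp _ _).2 ⟨hy.1, hy.2, rfl⟩⟩
  have ex : Ext Lg am pt a (pt x) := ⟨nx, ⟨y, hy.1, hy.2, Ne.symm hxy⟩, Or.inl hmin⟩
  have ey : Ext Lg am pt a (pt y) := ⟨ny, ⟨x, hx.1, hx.2, hxy⟩, Or.inr hmax⟩
  have sp : ∀ i, pce Lg am pt a i ⊆ {h ∈ Lg | am h = a} := fun i h hh =>
    Finset.mem_filter.2 ⟨((mp _ _).1 hh).1, ((mp _ _).1 hh).2.1⟩
  have sU : U ⊆ {h ∈ Lg | am h = a} := fun h hh =>
    Finset.mem_filter.2 ⟨(hU h hh).1, (hU h hh).2.1⟩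
  have dxy : Disjoint (pce Lg am pt a (pt x)) (pce Lg am pt a (pt y)) :=
    Finset.disjoint_left.2 fun h h1 h2 => hxy (((mp _ _).1 h1).2.2.symm.trans ((mp _ _).1 h2).2.2)
  have dU : ∀ i, Ext Lg am pt a i → #(pce Lg am pt a i) = 2 → Disjoint U (pce Lg am pt a i) :=
    fun i hi h2 => Finset.disjoint_left.2 fun h h1 h3 => (hU h h1).2.2.2 (by
      rw [((mp _ _).1 h3).2.2]
      exact ⟨hi, h2⟩)
  have c0 := Finset.card_le_card sU
  have c1 := Finset.card_pos.2 nx
  have c2 := Finset.card_pos.2 ny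
  have c3 := Finset.card_le_card (Finset.union_subset (sp (pt x)) (sp (pt y)))
  rw [Finset.card_union_of_disjoint dxy] at c3
  have c4 : ∀ i, Ext Lg am pt a i → #(pce Lg am pt a i) = 2 →
      #U + 2 ≤ #{h ∈ Lg | am h = a} := fun i hi h2 => by
    have := Finset.card_le_card (Finset.union_subset sU (sp i))
    rwa [Finset.card_union_of_disjoint (dU i hi h2), h2] at this
  have c5 : #(pce Lg am pt a (pt x)) = 2 → #(pce Lg am pt a (pt y)) = 2 →
      #U + 4 ≤ #{h ∈ Lg | am h = a} := fun h1 h2 => by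
    have := Finset.card_le_card
      (Finset.union_subset sU (Finset.union_subset (sp (pt x)) (sp (pt y))))
    rwa [Finset.card_union_of_disjoint (Finset.disjoint_union_right.2 ⟨dU _ ex h1, dU _ ey h2⟩),
      Finset.card_union_of_disjoint dxy, h1, h2] at this
  have o1 : #(pce Lg am pt a (pt x)) % 2 = 1 → pt x ∈ O := fun h =>
    hO _ (hpt x hx.1) ex (Nat.odd_iff.2 h)
  have o2 : #(pce Lg am pt a (pt y)) % 2 = 1 → pt y ∈ O := fun h =>
    hO _ (hpt y hy.1) ey (Nat.odd_iff.2 h)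
  have c6 : #(pce Lg am pt a (pt x)) % 2 = 1 → 1 ≤ #O := fun h => Finset.card_pos.2 ⟨_, o1 h⟩
  have c7 : #(pce Lg am pt a (pt y)) % 2 = 1 → 1 ≤ #O := fun h => Finset.card_pos.2 ⟨_, o2 h⟩
  have c8 : #(pce Lg am pt a (pt x)) % 2 = 1 → #(pce Lg am pt a (pt y)) % 2 = 1 → 2 ≤ #O :=
    fun h1 h2 => Finset.one_lt_card.2 ⟨_, o1 h1, _, o2 h2, hxy⟩
  have c9 := c4 _ ex
  have c10 := c4 _ ey
  rw [Nat.even_iff] at even
  omega

open Classical in
/-- CHARGING. Call part `i` paid if some extreme piece in it has size 2. Plan: it suffices to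
show, for every atom `a` with `t` legs, `u a + 8 ≤ 2 * o a + 2 * t`, where `u a` is the number
of legs of `a` that lie in `strad i` for an unpaid `i < n` and `o a = #{i < n | Ext a i, odd}`
(then sum over `a` and exchange sums; `∑ t = #Lg`). If `a` meets one part only, `u a = 0`.
Otherwise let `i₁ < i₂` be the least and the largest part met by `a`, both are `Ext`; the two
pieces are disjoint, nonempty, inside the atom; a piece of size 2 is paid, so its legs do not
count in `u a`. Cases (odd, odd): `u ≤ t`, `o ≥ 2`; (odd, 2): `u ≤ t - 2`; (2, 2): `u ≤ t - 4`;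
(odd, even ≥ 4): `t ≥ 6` as `t` is even; (2, even ≥ 4): `t ≥ 6`, `u ≤ t - 2`; else `t ≥ 8`. -/
theorem charge (Lg : Finset H) (am : H → At) (pt : H → ℕ) (n : ℕ) (hpt : ∀ h ∈ Lg, pt h < n)
    (four : ∀ a, 4 ≤ #{h ∈ Lg | am h = a}) (even : ∀ a, Even #{h ∈ Lg | am h = a}) :
    ∑ i ∈ range n, (if ∃ a, Ext Lg am pt a i ∧ #(pce Lg am pt a i) = 2 then 0
        else #(strad Lg am pt i)) + 8 * Fintype.card At ≤
      2 * ∑ i ∈ range n, #{a | Ext Lg am pt a i ∧ Odd #(pce Lg am pt a i)} + 2 * #Lg := by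
  let Us : Finset H := {h ∈ Lg | (∃ h' ∈ Lg, am h' = am h ∧ pt h' ≠ pt h) ∧
    ¬∃ a, Ext Lg am pt a (pt h) ∧ #(pce Lg am pt a (pt h)) = 2}
  have mU : ∀ h, h ∈ Us ↔ h ∈ Lg ∧ (∃ h' ∈ Lg, am h' = am h ∧ pt h' ≠ pt h) ∧
      ¬∃ a, Ext Lg am pt a (pt h) ∧ #(pce Lg am pt a (pt h)) = 2 := fun h => Finset.mem_filter
  have s1 : ∑ i ∈ range n, (if ∃ a, Ext Lg am pt a i ∧ #(pce Lg am pt a i) = 2 then 0
      else #(strad Lg am pt i)) ≤ #Us := by
    rw [Finset.card_eq_sum_card_fiberwise (s := Us) (t := range n) (f := pt)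
      fun h hh => Finset.mem_coe.2 (Finset.mem_range.2 (hpt h ((mU h).1 hh).1))]
    refine Finset.sum_le_sum fun i _ => ?_
    split_ifs with hp
    · exact Nat.zero_le _
    · refine Finset.card_le_card fun h hh => ?_
      obtain ⟨h1, rfl, h2⟩ := Finset.mem_filter.1 hh
      exact Finset.mem_filter.2 ⟨(mU h).2 ⟨h1, h2, hp⟩, rfl⟩
  have s2 : #Us = ∑ a, #{h ∈ Us | am h = a} :=
    Finset.card_eq_sum_card_fiberwise fun h _ => Finset.mem_coe.2 (Finset.mem_univ _)
  have s3 : #Lg = ∑ a, #{h ∈ Lg | am h = a} :=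
    Finset.card_eq_sum_card_fiberwise fun h _ => Finset.mem_coe.2 (Finset.mem_univ _)
  have s4 : ∑ i ∈ range n, #{a | Ext Lg am pt a i ∧ Odd #(pce Lg am pt a i)} =
      ∑ a, #{i ∈ range n | Ext Lg am pt a i ∧ Odd #(pce Lg am pt a i)} := by
    simp only [Finset.card_filter]
    exact Finset.sum_comm
  have s5 : ∑ a, (#{h ∈ Us | am h = a} + 8) ≤
      ∑ a, (2 * #{i ∈ range n | Ext Lg am pt a i ∧ Odd #(pce Lg am pt a i)} +
        2 * #{h ∈ Lg | am h = a}) := by
    refine Finset.sum_le_sum fun a _ => n2_atom Lg am pt n hpt a (four a) (even a) _ _ ?_ ?_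
    · intro h hh
      obtain ⟨h1, rfl⟩ := Finset.mem_filter.1 hh
      obtain ⟨h2, h3, h4⟩ := (mU h).1 h1
      exact ⟨h2, rfl, h3, fun h5 => h4 ⟨_, h5⟩⟩
    · intro i hi h1 h2
      exact Finset.mem_filter.2 ⟨Finset.mem_range.2 hi, h1, h2⟩
  rw [Finset.sum_add_distrib, Finset.sum_add_distrib, ← Finset.mul_sum, ← Finset.mul_sum, ← s2,
    ← s3, ← s4, Finset.sum_const, Finset.card_univ, smul_eq_mul] at s5
  omega

end Pool.Agent.MP_8c1b0d_co

set_option autoImplicit false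
set_option linter.unusedSectionVars false
open Finset Module

namespace Pool.Agent.MP_8c1b0d_co
variable {K H At : Type} [Field K] [CharP K 2] [Fintype H] [DecidableEq H] [Fintype At]
  [DecidableEq At]

theorem n3_chi_dot (A : Finset H) (f : H → K) : chi K A ⬝ᵥ f = ∑ h ∈ A, f h := by
  simp only [dotProduct, chi, ite_mul, one_mul, zero_mul]
  rw [Finset.sum_ite_mem, Finset.univ_inter]

theorem n3_cut_dot (A : Finset H) (f g : H → K) : cut A f ⬝ᵥ g = f ⬝ᵥ cut A g := by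
  simp only [dotProduct, cut_apply]
  refine Finset.sum_congr rfl fun h _ => ?_
  split_ifs <;> simp

theorem n3_cut_self {A : Finset H} {f : H → K} (hf : f ∈ spt K A) : cut A f = f := by
  funext h
  rw [cut_apply]
  split_ifs with hh
  · rfl
  · exact (hf h hh).symm

theorem n3_cut_mem (A : Finset H) (f : H → K) : cut A f ∈ spt K A := fun h hh => by
  rw [cut_apply, if_neg hh]

theorem n3_mem_pce {Lg : Finset H} {am : H → At} {pt : H → ℕ} {a : At} {i : ℕ} {h : H} :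
    h ∈ pce Lg am pt a i ↔ h ∈ Lg ∧ am h = a ∧ pt h = i := by
  simp only [pce, mem_filter]

theorem n3_strad {Lg : Finset H} {am : H → At} {pt : H → ℕ} {s : ℕ}
    (h0 : #(strad Lg am pt s) = 0) {h h' : H} (hh : h ∈ Lg) (hs : pt h = s) (hh' : h' ∈ Lg)
    (e : am h' = am h) : pt h' = s := by
  by_contra hne
  have : h ∈ strad Lg am pt s := mem_filter.2 ⟨hh, hs, h', hh', e, hne⟩
  rw [card_eq_zero.1 h0] at this
  exact notMem_empty _ this

/-- a self-dual code on the legs `Lg`, atoms `am`, parts `pt` (`0` = E, `r + 1` = L, the others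
hanging with leg spaces `T s`) -/
structure NIdata (K : Type) {H At : Type} [Field K] [Fintype H] [DecidableEq H] [Fintype At]
    [DecidableEq At] (Lg : Finset H) (am : H → At) (pt : H → ℕ) (r : ℕ)
    (C : Submodule K (H → K)) (T : ℕ → Submodule K (H → K)) : Prop where
  le : C ≤ spt K Lg
  iso : ∀ f ∈ C, ∀ g ∈ C, f ⬝ᵥ g = 0
  sd : ∀ w ∈ spt K Lg, (∀ f ∈ C, w ⬝ᵥ f = 0) → w ∈ C
  one : ∀ a, chi K {h ∈ Lg | am h = a} ∈ C
  four : ∀ a, 4 ≤ #{h ∈ Lg | am h = a}
  hpt : ∀ h ∈ Lg, pt h ≤ r + 1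
  hT : ∀ s, 1 ≤ s → s ≤ r → T s ≤ spt K {h ∈ Lg | pt h = s}
  Tiso : ∀ s, 1 ≤ s → s ≤ r → ∀ f ∈ T s, ∀ g ∈ T s, f ⬝ᵥ g = 0
  rz : ∀ w ∈ C, ∃ c : At → K, ∀ s, 1 ≤ s → s ≤ r →
    cut {h ∈ Lg | pt h = s} (w + fun h => c (am h)) ∈ T s
  no2 : ∀ e ∈ Lg, ∀ f ∈ Lg, e ≠ f → chi K {e, f} ∉ C
  ind : ∀ S : Finset At, (∀ w ∈ C, cut {h | am h ∈ S} w ∈ C) → S = ∅ ∨ S = univ
  pne : ∀ s, 1 ≤ s → s ≤ r → ∃ h ∈ Lg, pt h = s
  c1 : ∀ s, 1 ≤ s → s ≤ r → #(strad Lg am pt s) = 0 ∨ 4 ≤ #(strad Lg am pt s)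

namespace NIdata
variable {Lg : Finset H} {am : H → At} {pt : H → ℕ} {r : ℕ} {C : Submodule K (H → K)}
  {T : ℕ → Submodule K (H → K)} (d : NIdata K Lg am pt r C T)
include d

theorem n3_orth {a : At} {i : ℕ} (ha : Ext Lg am pt a i) {f : H → K}
    (up : ∃ w ∈ C, (∀ h, pt h < i → w h = 0) ∧ ∀ h, pt h = i → w h = f h)
    (down : ∃ w ∈ C, (∀ h, i < pt h → w h = 0) ∧ ∀ h, pt h = i → w h = f h) :
    chi K (pce Lg am pt a i) ⬝ᵥ f = 0 := by
  have key : ∀ w ∈ C, (∀ h ∈ Lg, am h = a → pt h ≠ i → w h = 0) →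
      (∀ h, pt h = i → w h = f h) → chi K (pce Lg am pt a i) ⬝ᵥ f = 0 := by
    intro w hw h1 h2
    have h0 := d.iso _ (d.one a) w hw
    rw [n3_chi_dot] at h0
    rw [n3_chi_dot, ← h0]
    have e1 : ∑ h ∈ pce Lg am pt a i, f h = ∑ h ∈ pce Lg am pt a i, w h :=
      Finset.sum_congr rfl fun h hh => (h2 h (n3_mem_pce.1 hh).2.2).symm
    rw [e1]
    refine Finset.sum_subset (fun h hh => ?_) (fun h hh hn => ?_)
    · exact mem_filter.2 ⟨(n3_mem_pce.1 hh).1, (n3_mem_pce.1 hh).2.1⟩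
    · obtain ⟨a1, a2⟩ := mem_filter.1 hh
      exact h1 h a1 a2 fun e => hn (n3_mem_pce.2 ⟨a1, a2, e⟩)
  rcases ha.2.2 with h | h
  · obtain ⟨w, hw, h1, h2⟩ := down
    exact key w hw (fun x hx ax nx => h1 x (lt_of_le_of_ne (h x hx ax) nx.symm)) h2
  · obtain ⟨w, hw, h1, h2⟩ := up
    exact key w hw (fun x hx ax nx => h1 x (lt_of_le_of_ne (h x hx ax) nx)) h2

theorem n3_atoms {s : ℕ} (h0 : #(strad Lg am pt s) = 0) (c : At → K) :
    cut {h ∈ Lg | pt h = s} (fun h => c (am h)) ∈ C := by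
  classical
  have e : cut {h ∈ Lg | pt h = s} (fun h => c (am h)) =
      ∑ a ∈ ({a | ∃ h ∈ Lg, am h = a ∧ pt h = s} : Finset At),
        c a • chi K {h ∈ Lg | am h = a} := by
    funext h
    rw [cut_apply, Finset.sum_apply]
    split_ifs with hh
    · obtain ⟨a1, a2⟩ := mem_filter.1 hh
      rw [Finset.sum_eq_single (am h)]
      · simp [chi, a1]
      · intro b _ hb
        simp [chi, hb.symm]
      · intro hn
        exact absurd (mem_filter.2 ⟨mem_univ _, h, a1, rfl, a2⟩) hn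
    · symm
      refine Finset.sum_eq_zero fun a ha => ?_
      obtain ⟨x, hx, ax, px⟩ := (mem_filter.1 ha).2
      have : h ∉ ({h ∈ Lg | am h = a} : Finset H) := fun hm => by
        obtain ⟨b1, b2⟩ := mem_filter.1 hm
        exact hh (mem_filter.2 ⟨b1, n3_strad h0 hx px b1 (b2.trans ax.symm)⟩)
      simp only [Pi.smul_apply, chi, if_neg this, smul_zero]
  rw [e]
  exact Submodule.sum_mem _ fun a _ => C.smul_mem _ (d.one a)

theorem n3_all {s : ℕ} (h0 : #(strad Lg am pt s) = 0) (hne : ∃ h ∈ Lg, pt h = s)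
    (hc : ∀ w ∈ C, cut {h ∈ Lg | pt h = s} w ∈ C) : ∀ h ∈ Lg, pt h = s := by
  classical
  have key := d.ind ({a | ∃ h ∈ Lg, am h = a ∧ pt h = s} : Finset At) (fun w hw => by
    have e : cut ({h | am h ∈ ({a | ∃ h ∈ Lg, am h = a ∧ pt h = s} : Finset At)} : Finset H) w =
        cut {h ∈ Lg | pt h = s} w := by
      funext h
      rw [cut_apply, cut_apply]
      by_cases hL : h ∈ Lg
      · refine if_congr ?_ rfl rfl
        simp only [mem_filter, mem_univ, true_and]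
        constructor
        · rintro ⟨x, hx, ax, px⟩
          exact ⟨hL, n3_strad h0 hx px hL ax.symm⟩
        · rintro ⟨_, px⟩
          exact ⟨h, hL, rfl, px⟩
      · rw [d.le hw h hL]
        simp
    rw [e]
    exact hc w hw)
  rcases key with k | k
  · obtain ⟨h, hh, ph⟩ := hne
    have : am h ∈ ({a | ∃ h ∈ Lg, am h = a ∧ pt h = s} : Finset At) :=
      mem_filter.2 ⟨mem_univ _, h, hh, rfl, ph⟩
    rw [k] at this
    exact absurd this (notMem_empty _)
  · intro h hh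
    have : am h ∈ ({a | ∃ h ∈ Lg, am h = a ∧ pt h = s} : Finset At) := by
      rw [k]; exact mem_univ _
    obtain ⟨x, hx, ax, px⟩ := (mem_filter.1 this).2
    exact n3_strad h0 hx px hh ax.symm

open Classical in
/-- Correction of one part. `W` is an isotropic space on part `i` such that every word of `W` is
the part-`i` restriction of a codeword vanishing on the earlier parts and of a codeword vanishing
on the later parts. Plan: if `i` is the least part met by the atom `a`, take for `f ∈ W` the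
codeword `w` vanishing on the later parts: `0 = chi (atom a) ⬝ᵥ w = chi (pce a i) ⬝ᵥ f`; same for
the largest part. Use `iso_odd` with `𝒪` = image of `a ↦ pce a i` on the odd extreme atoms
(injective there, pieces are nonempty and disjoint), and `iso_odd_two` with a piece of size 2
(`n2` says that its indicator is not in `W`). -/
theorem cor (i : ℕ) (W : Submodule K (H → K)) (hW : W ≤ spt K {h ∈ Lg | pt h = i})
    (iso : ∀ f ∈ W, ∀ g ∈ W, f ⬝ᵥ g = 0)
    (up : ∀ f ∈ W, ∃ w ∈ C, (∀ h, pt h < i → w h = 0) ∧ ∀ h, pt h = i → w h = f h)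
    (down : ∀ f ∈ W, ∃ w ∈ C, (∀ h, i < pt h → w h = 0) ∧ ∀ h, pt h = i → w h = f h)
    (n2 : ∀ e ∈ Lg, ∀ f ∈ Lg, e ≠ f → am e = am f → chi K {e, f} ∉ W) :
    2 * finrank K W + #{a | Ext Lg am pt a i ∧ Odd #(pce Lg am pt a i)} +
      (if ∃ a, Ext Lg am pt a i ∧ #(pce Lg am pt a i) = 2 then 2 else 0) ≤
      #{h ∈ Lg | pt h = i} := by
  have hcard : #(({a | Ext Lg am pt a i ∧ Odd #(pce Lg am pt a i)} : Finset At).image
      fun a => pce Lg am pt a i) = #{a | Ext Lg am pt a i ∧ Odd #(pce Lg am pt a i)} := by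
    refine card_image_of_injOn fun a ha a' _ e => ?_
    obtain ⟨h, hh⟩ := (mem_filter.1 (mem_coe.1 ha)).2.1.1
    have hh' : h ∈ pce Lg am pt a' i := by
      have e' : pce Lg am pt a i = pce Lg am pt a' i := e
      rw [← e']; exact hh
    exact (n3_mem_pce.1 hh).2.1.symm.trans (n3_mem_pce.1 hh').2.1
  have hsub : ∀ a, pce Lg am pt a i ⊆ {h ∈ Lg | pt h = i} := fun a h hh =>
    mem_filter.2 ⟨(n3_mem_pce.1 hh).1, (n3_mem_pce.1 hh).2.2⟩
  have hdis : ∀ a a', pce Lg am pt a i ≠ pce Lg am pt a' i →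
      Disjoint (pce Lg am pt a i) (pce Lg am pt a' i) := fun a a' hne =>
    Finset.disjoint_left.2 fun h h1 h2 => hne (by
      rw [(n3_mem_pce.1 h1).2.1.symm.trans (n3_mem_pce.1 h2).2.1])
  have hO : ∀ β ∈ (({a | Ext Lg am pt a i ∧ Odd #(pce Lg am pt a i)} : Finset At).image
      fun a => pce Lg am pt a i), ∃ a, Ext Lg am pt a i ∧ Odd #(pce Lg am pt a i) ∧
        β = pce Lg am pt a i := by
    intro β hβ
    obtain ⟨a, ha, rfl⟩ := mem_image.1 hβ
    exact ⟨a, (mem_filter.1 ha).2.1, (mem_filter.1 ha).2.2, rfl⟩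
  rw [← hcard]
  generalize (({a | Ext Lg am pt a i ∧ Odd #(pce Lg am pt a i)} : Finset At).image
      fun a => pce Lg am pt a i) = 𝒪 at hO
  have sub : ∀ β ∈ 𝒪, β ⊆ {h ∈ Lg | pt h = i} := fun β hβ => by
    obtain ⟨a, _, _, rfl⟩ := hO β hβ
    exact hsub a
  have odd : ∀ β ∈ 𝒪, Odd #β := fun β hβ => by
    obtain ⟨a, _, h, rfl⟩ := hO β hβ
    exact h
  have disj : ∀ β ∈ 𝒪, ∀ β' ∈ 𝒪, β ≠ β' → Disjoint β β' := fun β hβ β' hβ' => by
    obtain ⟨a, _, _, rfl⟩ := hO β hβ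
    obtain ⟨a', _, _, rfl⟩ := hO β' hβ'
    exact hdis a a'
  have orth : ∀ β ∈ 𝒪, ∀ f ∈ W, chi K β ⬝ᵥ f = 0 := fun β hβ f hf => by
    obtain ⟨a, ha, _, rfl⟩ := hO β hβ
    exact d.n3_orth ha (up f hf) (down f hf)
  split_ifs with hp
  · obtain ⟨a, ha, h2⟩ := hp
    refine iso_odd_two _ W hW iso 𝒪 sub odd disj orth (pce Lg am pt a i) (hsub a)
      (by rw [h2]; exact even_two) (fun β hβ => ?_)
      (fun f hf => d.n3_orth ha (up f hf) (down f hf)) ?_
    · obtain ⟨a', _, ho, rfl⟩ := hO β hβ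
      refine hdis a' a fun e => ?_
      rw [e, h2] at ho
      exact absurd ho (by decide)
    · obtain ⟨e, f, hef, hh⟩ := card_eq_two.1 h2
      have he : e ∈ pce Lg am pt a i := by rw [hh]; simp
      have hf : f ∈ pce Lg am pt a i := by rw [hh]; simp
      rw [hh]
      exact n2 e (n3_mem_pce.1 he).1 f (n3_mem_pce.1 hf).1 hef
        ((n3_mem_pce.1 he).2.1.trans (n3_mem_pce.1 hf).2.1.symm)
  · exact iso_odd _ W hW iso 𝒪 sub odd disj orth

/-- No weight-two word of `T s` inside an atom. Plan: `v = chi {e, f} ∈ T s` forces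
`pt e = pt f = s`; for `w ∈ C` take `c` from `rz`: `0 = v ⬝ᵥ cut (w + c ∘ am) = w e + w f +
c (am e) + c (am f) = v ⬝ᵥ w`; so `v ∈ C` by `sd`, against `no2`. -/
theorem T_no2 (s : ℕ) (h1 : 1 ≤ s) (h2 : s ≤ r) :
    ∀ e ∈ Lg, ∀ f ∈ Lg, e ≠ f → am e = am f → chi K {e, f} ∉ T s := by
  intro e he f hf hef ham hv
  have two : (2 : K) = 0 := CharTwo.two_eq_zero
  have hm : ∀ x ∈ ({e, f} : Finset H), x ∈ ({h ∈ Lg | pt h = s} : Finset H) := fun x hx => by
    by_contra hn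
    have := d.hT s h1 h2 hv x hn
    simp only [chi, if_pos hx] at this
    exact one_ne_zero this
  refine d.no2 e he f hf hef (d.sd _ (fun x hx => ?_) fun w hw => ?_)
  · have : x ∉ ({e, f} : Finset H) := fun hx' => hx (mem_filter.1 (hm x hx')).1
    simp only [chi, if_neg this]
  · obtain ⟨c, hc⟩ := d.rz w hw
    have h0 := d.Tiso s h1 h2 _ hv _ (hc s h1 h2)
    rw [n3_chi_dot, Finset.sum_pair hef, cut_apply, cut_apply, if_pos (hm e (by simp)),
      if_pos (hm f (by simp))] at h0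
    rw [n3_chi_dot, Finset.sum_pair hef]
    simp only [Pi.add_apply, ham] at h0
    linear_combination h0 - c (am f) * two

/-- A hanging part without straddling legs is everything. Plan: part `s` is a union of atoms,
`S = {a | some leg of a is in part s}`. For `w, w' ∈ C` write `cut_s w = t + α`, `cut_s w' = t' +
α'` with `t, t' ∈ T s` and `α, α'` combinations of atom indicators (in `C`, supported in part
`s`): `cut_s w ⬝ᵥ w' = 0`; so `cut_s w ∈ C` (`sd`), it equals `cut {h | am h ∈ S} w`, `ind` and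
`pne` give `S = univ`. -/
theorem all_of_strad (s : ℕ) (h1 : 1 ≤ s) (h2 : s ≤ r) (h0 : #(strad Lg am pt s) = 0) :
    ∀ h ∈ Lg, pt h = s := by
  refine d.n3_all h0 (d.pne s h1 h2) fun w hw => d.sd _ (fun x hx => ?_) fun w' hw' => ?_
  · exact n3_cut_mem _ w x fun hm => hx (mem_filter.1 hm).1
  · obtain ⟨c, hc⟩ := d.rz w hw
    obtain ⟨c', hc'⟩ := d.rz w' hw'
    have e0 := d.Tiso s h1 h2 _ (hc s h1 h2) _ (hc' s h1 h2)
    have a := d.n3_atoms h0 c
    have a' := d.n3_atoms h0 c'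
    rw [map_add, map_add, add_dotProduct, dotProduct_add, dotProduct_add, d.iso _ a _ a',
      n3_cut_dot _ w (cut _ fun h => c' (am h)), n3_cut_self (n3_cut_mem _ _), d.iso _ hw _ a',
      ← n3_cut_dot _ (cut _ fun h => c (am h)) w', n3_cut_self (n3_cut_mem _ _), d.iso _ a _ hw',
      ← n3_cut_dot, n3_cut_self (n3_cut_mem _ _)] at e0
    simpa using e0

/-- If part `0` is a nonempty proper union of atoms then `C ⊓ spt (part 0)` is not self-dual.
Plan: otherwise `mem_of_half` gives `cut_0 w ∈ C` for all `w ∈ C`, `ind` fails; the size of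
part `0` is even (sum of atoms, `even_of_chi`; or `chi (part 0) ∈ C`). -/
theorem cor_zero (h0 : #(strad Lg am pt 0) = 0) (hE : ∃ h ∈ Lg, pt h = 0)
    (hL : ∃ h ∈ Lg, pt h ≠ 0) :
    2 * finrank K (C ⊓ spt K {h ∈ Lg | pt h = 0} : Submodule K (H → K)) + 2 ≤
      #{h ∈ Lg | pt h = 0} := by
  have iso : ∀ f ∈ (C ⊓ spt K {h ∈ Lg | pt h = 0} : Submodule K (H → K)),
      ∀ g ∈ (C ⊓ spt K {h ∈ Lg | pt h = 0} : Submodule K (H → K)), f ⬝ᵥ g = 0 :=
    fun f hf g hg => d.iso f hf.1 g hg.1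
  have h1 := iso_odd _ _ (inf_le_right (a := C)) iso ∅ (by simp) (by simp) (by simp) (by simp)
  have ev : Even #{h ∈ Lg | pt h = 0} := by
    have a := d.n3_atoms h0 fun _ => 1
    have e : cut {h ∈ Lg | pt h = 0} (fun _ : H => (1 : K)) = chi K {h ∈ Lg | pt h = 0} := rfl
    rw [e] at a
    exact even_of_chi _ (d.iso _ a _ a)
  by_contra hlt
  obtain ⟨k, hk⟩ := ev
  have hd : #{h ∈ Lg | pt h = 0} ≤
      2 * finrank K (C ⊓ spt K {h ∈ Lg | pt h = 0} : Submodule K (H → K)) := by omega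
  obtain ⟨x, hx, px⟩ := hL
  refine px (d.n3_all h0 hE (fun w hw => ?_) x hx)
  refine (mem_of_half _ _ (inf_le_right (a := C)) iso hd _ (n3_cut_mem _ w) fun f hf => ?_).1
  rw [n3_cut_dot, n3_cut_self hf.2]
  exact d.iso w hw f hf.1

/-- The two filtrations. `W i` for `1 ≤ i ≤ r` is `T i ⊓ Dup i ⊓ Ddown i`, with
`Dup i = (C ⊓ spt {i ≤ pt}).map (cut {pt = i})` and `Ddown i` the same with `pt ≤ i`; `W 0` and
`W (r+1)` are `C ⊓ spt (part)`. Plan: `finrank_le_sum_up` for `U₁` with `n = r + 2`: the term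
`i = 0` is `⊥`, the terms `1 ≤ i ≤ r` lie in `T i ⊓ Dup i`, the last in `W (r+1)`;
`finrank_le_sum_down` for `U₂`; `finrank (T ⊓ A) + finrank (T ⊓ B) ≤ finrank T +
finrank (T ⊓ A ⊓ B)` by `Submodule.finrank_sup_add_finrank_inf_eq`. -/
theorem two_orders (U₁ U₂ : Submodule K (H → K)) (l₁ : U₁ ≤ C) (l₂ : U₂ ≤ C)
    (z₁ : ∀ w ∈ U₁, ∀ h, pt h = 0 → w h = 0) (z₂ : ∀ w ∈ U₂, ∀ h, pt h = r + 1 → w h = 0)
    (t₁ : ∀ w ∈ U₁, ∀ s, 1 ≤ s → s ≤ r → cut {h ∈ Lg | pt h = s} w ∈ T s)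
    (t₂ : ∀ w ∈ U₂, ∀ s, 1 ≤ s → s ≤ r → cut {h ∈ Lg | pt h = s} w ∈ T s) :
    ∃ W : ℕ → Submodule K (H → K),
      W 0 = C ⊓ spt K {h ∈ Lg | pt h = 0} ∧ W (r + 1) = C ⊓ spt K {h ∈ Lg | pt h = r + 1} ∧
      (∀ s, 1 ≤ s → s ≤ r → W s ≤ T s ∧
        (∀ f ∈ W s, ∃ w ∈ C, (∀ h, pt h < s → w h = 0) ∧ ∀ h, pt h = s → w h = f h) ∧
        (∀ f ∈ W s, ∃ w ∈ C, (∀ h, s < pt h → w h = 0) ∧ ∀ h, pt h = s → w h = f h)) ∧
      finrank K U₁ + finrank K U₂ ≤
        ∑ i ∈ range (r + 2), finrank K (W i) + ∑ s ∈ Icc 1 r, finrank K (T s) := by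
  have big : ∀ w ∈ C, ∀ h, r + 2 ≤ pt h → w h = 0 := fun w hw h hh =>
    d.le hw h fun hL => by have := d.hpt h hL; omega
  have cutL : ∀ w ∈ C, ∀ s, cut ({h | pt h = s} : Finset H) w = cut {h ∈ Lg | pt h = s} w := by
    intro w hw s
    funext h
    rw [cut_apply, cut_apply]
    by_cases hL : h ∈ Lg
    · refine if_congr ?_ rfl rfl
      simp [hL]
    · rw [d.le hw h hL]
      simp
  have u1 := finrank_le_sum_up U₁ pt (r + 2) fun f hf => big f (l₁ hf)
  have u2 := finrank_le_sum_down U₂ pt (r + 2) fun f hf => big f (l₂ hf)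
  let Dup : ℕ → Submodule K (H → K) := fun i =>
    (C ⊓ spt K {h | i ≤ pt h}).map (cut {h | pt h = i})
  let Ddn : ℕ → Submodule K (H → K) := fun i =>
    (C ⊓ spt K {h | pt h ≤ i}).map (cut {h | pt h = i})
  let W : ℕ → Submodule K (H → K) := fun i =>
    if 1 ≤ i ∧ i ≤ r then (T i ⊓ Dup i) ⊓ (T i ⊓ Ddn i) else C ⊓ spt K {h ∈ Lg | pt h = i}
  have W0 : W 0 = C ⊓ spt K {h ∈ Lg | pt h = 0} := if_neg (by omega)
  have WL : W (r + 1) = C ⊓ spt K {h ∈ Lg | pt h = r + 1} := if_neg (by omega)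
  have Wm : ∀ s, 1 ≤ s → s ≤ r → W s = (T s ⊓ Dup s) ⊓ (T s ⊓ Ddn s) := fun s h1 h2 =>
    if_pos ⟨h1, h2⟩
  refine ⟨W, W0, WL, fun s h1 h2 => ?_, ?_⟩
  · rw [Wm s h1 h2]
    refine ⟨inf_le_left.trans inf_le_left, fun f hf => ?_, fun f hf => ?_⟩
    · obtain ⟨w, hw, rfl⟩ := hf.1.2
      refine ⟨w, hw.1, fun h hh => hw.2 h (by simp; omega), fun h hh => ?_⟩
      rw [cut_apply, if_pos (by simpa using hh)]
    · obtain ⟨w, hw, rfl⟩ := hf.2.2
      refine ⟨w, hw.1, fun h hh => hw.2 h (by simp; omega), fun h hh => ?_⟩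
      rw [cut_apply, if_pos (by simpa using hh)]
  · have a0 : (U₁ ⊓ spt K {h | 0 ≤ pt h}).map (cut {h | pt h = 0}) = ⊥ := by
      rw [eq_bot_iff]
      rintro _ ⟨w, hw, rfl⟩
      rw [Submodule.mem_bot]
      funext h
      rw [cut_apply]
      split_ifs with hh
      · exact z₁ w hw.1 h (by simpa using hh)
      · rfl
    have bL : (U₂ ⊓ spt K {h | pt h ≤ r + 1}).map (cut {h | pt h = r + 1}) = ⊥ := by
      rw [eq_bot_iff]
      rintro _ ⟨w, hw, rfl⟩
      rw [Submodule.mem_bot]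
      funext h
      rw [cut_apply]
      split_ifs with hh
      · exact z₂ w hw.1 h (by simpa using hh)
      · rfl
    have aL : (U₁ ⊓ spt K {h | r + 1 ≤ pt h}).map (cut {h | pt h = r + 1}) ≤ W (r + 1) := by
      rw [WL]
      rintro _ ⟨w, hw, rfl⟩
      have hs : w ∈ spt K ({h | pt h = r + 1} : Finset H) := fun h hh => by
        by_cases hb : r + 2 ≤ pt h
        · exact big w (l₁ hw.1) h hb
        · exact hw.2 h (by simp at hh ⊢; omega)
      refine ⟨?_, ?_⟩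
      · rw [n3_cut_self hs]
        exact l₁ hw.1
      · rw [cutL w (l₁ hw.1)]
        exact n3_cut_mem _ _
    have b0 : (U₂ ⊓ spt K {h | pt h ≤ 0}).map (cut {h | pt h = 0}) ≤ W 0 := by
      rw [W0]
      rintro _ ⟨w, hw, rfl⟩
      have hs : w ∈ spt K ({h | pt h = 0} : Finset H) := fun h hh =>
        hw.2 h (by simp at hh ⊢; omega)
      refine ⟨?_, ?_⟩
      · rw [n3_cut_self hs]
        exact l₂ hw.1
      · rw [cutL w (l₂ hw.1)]
        exact n3_cut_mem _ _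
    have mid : ∀ s, 1 ≤ s → s ≤ r →
        finrank K ((U₁ ⊓ spt K {h | s ≤ pt h}).map (cut {h | pt h = s})) +
          finrank K ((U₂ ⊓ spt K {h | pt h ≤ s}).map (cut {h | pt h = s})) ≤
          finrank K (W s) + finrank K (T s) := by
      intro s h1 h2
      have m1 : (U₁ ⊓ spt K {h | s ≤ pt h}).map (cut {h | pt h = s}) ≤ T s ⊓ Dup s := by
        rintro _ ⟨w, hw, rfl⟩
        refine ⟨?_, w, ⟨l₁ hw.1, hw.2⟩, rfl⟩
        rw [cutL w (l₁ hw.1)]
        exact t₁ w hw.1 s h1 h2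
      have m2 : (U₂ ⊓ spt K {h | pt h ≤ s}).map (cut {h | pt h = s}) ≤ T s ⊓ Ddn s := by
        rintro _ ⟨w, hw, rfl⟩
        refine ⟨?_, w, ⟨l₂ hw.1, hw.2⟩, rfl⟩
        rw [cutL w (l₂ hw.1)]
        exact t₂ w hw.1 s h1 h2
      have f1 := Submodule.finrank_mono m1
      have f2 := Submodule.finrank_mono m2
      have f3 := Submodule.finrank_sup_add_finrank_inf_eq (T s ⊓ Dup s) (T s ⊓ Ddn s)
      have f4 : finrank K ((T s ⊓ Dup s) ⊔ (T s ⊓ Ddn s) : Submodule K (H → K)) ≤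
          finrank K (T s) := Submodule.finrank_mono (sup_le inf_le_left inf_le_left)
      rw [Wm s h1 h2]
      omega
    have sm := Finset.sum_le_sum (s := range r) fun i hi =>
      mid (i + 1) (by omega) (by have := mem_range.1 hi; omega)
    have eI : ∑ s ∈ Icc 1 r, finrank K (T s) = ∑ i ∈ range r, finrank K (T (i + 1)) := by
      rw [← Finset.Ico_add_one_right_eq_Icc, Finset.sum_Ico_eq_sum_range]
      exact Finset.sum_congr (by simp) fun i _ => by rw [add_comm]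
    have fL := Submodule.finrank_mono aL
    have f0 := Submodule.finrank_mono b0
    rw [Finset.sum_range_succ, Finset.sum_range_succ', a0, finrank_bot] at u1
    rw [Finset.sum_range_succ, Finset.sum_range_succ', bL, finrank_bot] at u2
    rw [Finset.sum_add_distrib, Finset.sum_add_distrib] at sm
    rw [Finset.sum_range_succ, Finset.sum_range_succ', eI]
    omega

open Classical in
/-- NODE INEQUALITY. Plan: `two_orders`; `cor` for every `i < r + 2` (for `i = 0, r + 1` use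
`w = f`, `no2`; else `T_no2`, `Tiso`, `hT`); `charge` with `n = r + 2` (`even_of_chi`, `one`,
`iso`); `∑ i < r + 2, #(part i) = #Lg`. Put `p i = 4` if part `i` is paid, else `#(strad i)`.
Then `4 * ∑ finrank (W i) + ∑ p i + 8 κ ≤ 4 * #Lg`. If `strad s` is empty for a hanging `s`,
`all_of_strad` and `pne` give `r = 1` and empty parts `0`, `2`: done. Else `p s ≥ 4` for all
hanging `s` (`c1`). If parts `0` and `r + 1` are both nonempty it is enough (integrality,
omega) that `p 0 + p (r+1) ≥ 1`; otherwise `strad 0` is empty, then no atom is `Ext` at `0` and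
`cor_zero` replaces `cor` for `i = 0` (gain 2 as for a paid part). -/
theorem NI [Nonempty At] (U₁ U₂ : Submodule K (H → K)) (l₁ : U₁ ≤ C) (l₂ : U₂ ≤ C)
    (z₁ : ∀ w ∈ U₁, ∀ h, pt h = 0 → w h = 0) (z₂ : ∀ w ∈ U₂, ∀ h, pt h = r + 1 → w h = 0)
    (t₁ : ∀ w ∈ U₁, ∀ s, 1 ≤ s → s ≤ r → cut {h ∈ Lg | pt h = s} w ∈ T s)
    (t₂ : ∀ w ∈ U₂, ∀ s, 1 ≤ s → s ≤ r → cut {h ∈ Lg | pt h = s} w ∈ T s) :
    finrank K U₁ + finrank K U₂ + r + 2 * Fintype.card At + 1 ≤
      #Lg + ∑ s ∈ Icc 1 r, finrank K (T s) + (if ∀ h ∈ Lg, pt h ≠ 0 then 1 else 0) +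
        (if ∀ h ∈ Lg, pt h ≠ r + 1 then 1 else 0) := by
  obtain ⟨W, W0, WL, Wm, hU⟩ := d.two_orders U₁ U₂ l₁ l₂ z₁ z₂ t₁ t₂
  have cend : ∀ i, W i = C ⊓ spt K {h ∈ Lg | pt h = i} →
      2 * finrank K (W i) + #{a | Ext Lg am pt a i ∧ Odd #(pce Lg am pt a i)} +
      (if ∃ a, Ext Lg am pt a i ∧ #(pce Lg am pt a i) = 2 then 2 else 0) ≤
      #{h ∈ Lg | pt h = i} := by
    intro i hi
    rw [hi]
    refine d.cor i _ inf_le_right (fun f hf g hg => d.iso f hf.1 g hg.1) (fun f hf => ?_)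
      (fun f hf => ?_) fun e he f hf hef _ hm => d.no2 e he f hf hef hm.1
    · exact ⟨f, hf.1, fun h hh => hf.2 h fun hm => by
        have := (mem_filter.1 hm).2; omega, fun _ _ => rfl⟩
    · exact ⟨f, hf.1, fun h hh => hf.2 h fun hm => by
        have := (mem_filter.1 hm).2; omega, fun _ _ => rfl⟩
  have cmid : ∀ i, 1 ≤ i → i ≤ r →
      2 * finrank K (W i) + #{a | Ext Lg am pt a i ∧ Odd #(pce Lg am pt a i)} +
      (if ∃ a, Ext Lg am pt a i ∧ #(pce Lg am pt a i) = 2 then 2 else 0) ≤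
      #{h ∈ Lg | pt h = i} := by
    intro i h1 h2
    obtain ⟨m1, m2, m3⟩ := Wm i h1 h2
    exact d.cor i _ (m1.trans (d.hT i h1 h2))
      (fun f hf g hg => d.Tiso i h1 h2 f (m1 hf) g (m1 hg)) m2 m3
      fun e he f hf hef ha hm => d.T_no2 i h1 h2 e he f hf hef ha (m1 hm)
  have ch := charge Lg am pt (r + 2) (fun h hh => by have := d.hpt h hh; omega) d.four
    fun a => even_of_chi _ (d.iso _ (d.one a) _ (d.one a))
  have tot : #Lg = ∑ i ∈ range (r + 2), #{h ∈ Lg | pt h = i} :=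
    Finset.card_eq_sum_card_fiberwise fun h hh =>
      mem_coe.2 (mem_range.2 (by have := d.hpt h (mem_coe.1 hh); omega))
  have c0 := cend 0 W0
  have cL := cend (r + 1) WL
  rw [Finset.sum_range_succ, Finset.sum_range_succ'] at hU tot
  rw [Finset.sum_range_succ, Finset.sum_range_succ', Finset.sum_range_succ,
    Finset.sum_range_succ'] at ch
  by_cases hs : ∃ s, 1 ≤ s ∧ s ≤ r ∧ #(strad Lg am pt s) = 0
  · obtain ⟨s, h1, h2, h0⟩ := hs
    have all := d.all_of_strad s h1 h2 h0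
    obtain ⟨x, hx, px⟩ := d.pne 1 le_rfl (h1.trans h2)
    obtain ⟨y, hy, py⟩ := d.pne r (h1.trans h2) le_rfl
    have ex := all x hx
    have ey := all y hy
    rw [if_pos fun h hh => by have := all h hh; omega,
      if_pos fun h hh => by have := all h hh; omega]
    have sm : ∑ i ∈ range r, (4 * finrank K (W (i + 1)) +
        2 * #{a | Ext Lg am pt a (i + 1) ∧ Odd #(pce Lg am pt a (i + 1))}) ≤
        ∑ i ∈ range r, 2 * #{h ∈ Lg | pt h = i + 1} := Finset.sum_le_sum fun i hi => by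
      have := cmid (i + 1) (by omega) (by have := mem_range.1 hi; omega)
      omega
    rw [Finset.sum_add_distrib, ← Finset.mul_sum, ← Finset.mul_sum, ← Finset.mul_sum] at sm
    omega
  · have sm : ∑ i ∈ range r, (4 * finrank K (W (i + 1)) +
        2 * #{a | Ext Lg am pt a (i + 1) ∧ Odd #(pce Lg am pt a (i + 1))} + 4) ≤
        ∑ i ∈ range r, (2 * #{h ∈ Lg | pt h = i + 1} +
          if ∃ a, Ext Lg am pt a (i + 1) ∧ #(pce Lg am pt a (i + 1)) = 2 then 0
            else #(strad Lg am pt (i + 1))) := Finset.sum_le_sum fun i hi => by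
      have hi' := mem_range.1 hi
      have h1 := cmid (i + 1) (by omega) (by omega)
      have h2 := (d.c1 (i + 1) (by omega) (by omega)).resolve_left
        fun h0 => hs ⟨i + 1, by omega, by omega, h0⟩
      by_cases hp : ∃ a, Ext Lg am pt a (i + 1) ∧ #(pce Lg am pt a (i + 1)) = 2
      · rw [if_pos hp] at h1 ⊢
        omega
      · rw [if_neg hp] at h1 ⊢
        omega
    rw [Finset.sum_add_distrib, Finset.sum_add_distrib, Finset.sum_add_distrib, ← Finset.mul_sum,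
      ← Finset.mul_sum, ← Finset.mul_sum, Finset.sum_const, card_range, smul_eq_mul] at sm
    by_cases hE : ∀ h ∈ Lg, pt h ≠ 0
    · rw [if_pos hE]
      omega
    by_cases hL : ∀ h ∈ Lg, pt h ≠ r + 1
    · rw [if_pos hL]
      omega
    push Not at hE hL
    by_cases hp : ∃ a, Ext Lg am pt a 0 ∧ #(pce Lg am pt a 0) = 2
    · rw [if_pos hp] at c0 ch
      omega
    rw [if_neg hp] at c0 ch
    by_cases h0 : #(strad Lg am pt 0) = 0
    · have cz := d.cor_zero h0 hE (by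
        obtain ⟨x, hx, px⟩ := hL
        exact ⟨x, hx, by omega⟩)
      have o0 : #{a | Ext Lg am pt a 0 ∧ Odd #(pce Lg am pt a 0)} = 0 := by
        rw [card_eq_zero, filter_eq_empty_iff]
        rintro a _ ⟨⟨⟨x, hx⟩, ⟨y, hy, ay, py⟩, _⟩, _⟩
        obtain ⟨x1, x2, x3⟩ := n3_mem_pce.1 hx
        exact py (n3_strad h0 x1 x3 hy (ay.trans x2.symm))
      rw [← W0] at cz
      omega
    · omega

end NIdata
end Pool.Agent.MP_8c1b0d_co
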