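import Pool.Agent.MP_8c1b0d_co.CA
import Pool.Agent.MP_8c1b0d_co.CH

set_option autoImplicit false
set_option linter.unusedSectionVars false
open Finset Module

namespace Pool.Agent.MP_8c1b0d_co
namespace HS
variable {K H N B : Type} [Field K] [CharP K 2] [Fintype H] [DecidableEq H] [Fintype N]
  [DecidableEq N] [DecidableEq B] (s : HS K H N B)

theorem c5_HB {S : Finset B} {h : H} : h ∈ s.HB S ↔ s.bl (s.nd h) ∈ S := by simp [HB]

theorem c5_tw {S : Finset B} {h : H} : h ∈ s.tw S ↔ s.bl (s.nd (s.o h)) ∈ S := by simp [tw]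

theorem c5_bd {S : Finset B} {h : H} :
    h ∈ s.bd S ↔ s.bl (s.nd h) ∈ S ∧ s.bl (s.nd (s.o h)) ∉ S := by simp [bd]

theorem c5_disj {𝒞 𝒜 ℬ : Finset (Finset B)}
    (hd : ∀ X ∈ 𝒞, ∀ X' ∈ 𝒞, X ≠ X' → Disjoint X X') (hA : 𝒜 ⊆ 𝒞) (hB : ℬ ⊆ 𝒞)
    (hAB : ∀ X ∈ 𝒜, X ∉ ℬ) : Disjoint (𝒜.biUnion id) (ℬ.biUnion id) := by
  rw [Finset.disjoint_left]
  intro b hb hb'
  obtain ⟨X, hX, h1⟩ := mem_biUnion.1 hb
  obtain ⟨Y, hY, h2⟩ := mem_biUnion.1 hb'
  exact Finset.disjoint_left.1 (hd X (hA hX) Y (hB hY) fun e => hAB X hX (e ▸ hY)) h1 h2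

/-- `g_union` twice and `g_mono` -/
theorem filt (U M W : Finset B) (d1 : Disjoint U M) (d2 : Disjoint U W) (d3 : Disjoint M W)
    (Z : Finset H) :
    s.g (U ∪ M ∪ W) Z ≤ s.g U Z + s.g M (Z ∪ s.tw U) + s.g W (Z ∪ s.tw M) := by
  have a1 := s.g_union (U ∪ M) W (disjoint_union_left.2 ⟨d2, d3⟩) Z
  have a2 := s.g_union U M d1 Z
  have a3 := s.g_mono W (Z ∪ s.tw M) (Z ∪ s.tw (U ∪ M)) fun e he _ => by
    rcases mem_union.1 he with he | he
    · exact mem_union_left _ he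
    · exact mem_union_right _ (s.c5_tw.2 (mem_union_right _ (s.c5_tw.1 he)))
  omega

/-- CORE INDUCTION. Strong induction on `S`. Choose `P ∈ S`, containing a half-edge of `E` if
`E ≠ ∅`. Let `𝒞` be the components of `S.erase P` (`exists_comps`). A leg of `X ∈ 𝒞` is in
`bd S` or in `tw {P}`, and `bd X ∩ tw {P}` is nonempty (`Conn S` with `S₁ = X`). Split `𝒞` by
filters: `𝒜` (a half-edge of `L` lies in `HB X`), `ℬ` (none of `L`, some of `E`), `𝒳` (none: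
`Hang P 𝒳`). `U`, `W` = unions of `ℬ`, `𝒜`, `M = {P} ∪ ⋃ 𝒳`. `filt U M W E`, `filt W M U L`,
`g_biUnion`, `g_mono`. Induction hypothesis for `X ∈ ℬ` with `(E ∩ HB X, bd X \ E)`, for
`X ∈ 𝒜` with `(bd X \ L, L ∩ HB X)` (all four nonempty), for `X ∈ 𝒳` with `(bd X, ∅)`.
`step_cls` or `step_neu` with `bd {P} ∩ (E ∪ tw U)` and `bd {P} ∩ (L ∪ tw W)`; the first is
nonempty if `E` is, the second if `L` is. A class `P` has a leg (`leg` if `S = {P}`, else
`Conn S` with `S₁ = {P}`). Add up with `hcS_union`, `hcS_biUnion`, `ncS_union`,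
`ncS_biUnion`, `Finset.sum_le_sum`. -/
theorem core_ind (h1 : s.t1) (h2 : s.t2) (S : Finset B) (ne : S.Nonempty) (hc : s.Conn S)
    (leg : ∀ b ∈ s.cls, S = {b} → (s.bd {b}).Nonempty) (E L : Finset H) (dEL : Disjoint E L)
    (cov : E ∪ L = s.bd S) :
    s.g S E + s.g S L + s.ncS S ≤
      s.hcS S + (if E = ∅ then 1 else 0) + (if L = ∅ then 1 else 0) := by
  induction S using Finset.strongInduction generalizing E L with
  | H S ih =>
  have hES : ∀ h ∈ E, h ∈ s.bd S := fun h hh => cov ▸ mem_union_left _ hh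
  have hLS : ∀ h ∈ L, h ∈ s.bd S := fun h hh => cov ▸ mem_union_right _ hh
  have hSEL : ∀ h ∈ s.bd S, h ∈ E ∨ h ∈ L := fun h hh => mem_union.1 (cov.symm ▸ hh)
  obtain ⟨P, hP, hPE⟩ : ∃ P ∈ S, E ≠ ∅ → ∃ e ∈ E, s.bl (s.nd e) = P := by
    by_cases hE : E = ∅
    · obtain ⟨P, hP⟩ := ne
      exact ⟨P, hP, fun h => (h hE).elim⟩
    · obtain ⟨e, he⟩ := nonempty_iff_ne_empty.2 hE
      exact ⟨_, (s.c5_bd.1 (hES e he)).1, fun _ => ⟨e, he, rfl⟩⟩
  obtain ⟨𝒞, hU, hd, hn, hcl⟩ := s.exists_comps (S.erase P)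
  have F1 : ∀ X ∈ 𝒞, X ⊆ S.erase P := fun X hX => hU ▸ subset_biUnion_of_mem id hX
  have F1S : ∀ X ∈ 𝒞, X ⊆ S := fun X hX => (F1 X hX).trans (erase_subset _ _)
  have F1P : ∀ X ∈ 𝒞, P ∉ X := fun X hX h => notMem_erase P S (F1 X hX h)
  have F1n : ∀ X ∈ 𝒞, X ≠ S := fun X hX e => F1P X hX (e ▸ hP)
  have F0 : ∀ b ∈ S, b ≠ P → ∃ X ∈ 𝒞, b ∈ X := fun b hb hne => by
    have : b ∈ 𝒞.biUnion id := hU ▸ mem_erase.2 ⟨hne, hb⟩
    exact mem_biUnion.1 this
  have F2 : ∀ X ∈ 𝒞, ∀ h ∈ s.bd X, h ∈ s.bd S ∨ s.bl (s.nd (s.o h)) = P := fun X hX h hh => by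
    obtain ⟨a1, a2⟩ := s.c5_bd.1 hh
    by_contra hc'
    push Not at hc'
    refine a2 (hcl X hX h a1 (mem_erase.2 ⟨hc'.2, ?_⟩))
    by_contra a3
    exact hc'.1 (s.c5_bd.2 ⟨F1S X hX a1, a3⟩)
  have F3 : ∀ X ∈ 𝒞, ∃ h ∈ s.bd X, s.bl (s.nd (s.o h)) = P := fun X hX => by
    obtain ⟨h, a1, a2, a3⟩ := hc X (F1S X hX) (hn X hX).1 (F1n X hX)
    have a4 := s.c5_bd.2 ⟨a1, a3⟩
    exact ⟨h, a4, (F2 X hX h a4).resolve_left fun a5 => (s.c5_bd.1 a5).2 a2⟩
  have F4 : ∀ X ∈ 𝒞, ∀ h ∈ s.bd S, h ∈ s.HB X → h ∈ s.bd X := fun X hX h hh hx =>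
    s.c5_bd.2 ⟨s.c5_HB.1 hx, fun a => (s.c5_bd.1 hh).2 (F1S X hX a)⟩
  have IH : ∀ X ∈ 𝒞, ∀ E' L' : Finset H, Disjoint E' L' → E' ∪ L' = s.bd X →
      s.g X E' + s.g X L' + s.ncS X ≤
        s.hcS X + (if E' = ∅ then 1 else 0) + (if L' = ∅ then 1 else 0) := fun X hX E' L' a b =>
    ih X (Finset.ssubset_iff_subset_ne.2 ⟨F1S X hX, F1n X hX⟩) (hn X hX).1 (hn X hX).2
      (fun b _ e => by
        obtain ⟨h, hh, -⟩ := F3 X hX
        exact ⟨h, e ▸ hh⟩) E' L' a b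
  have key : ∀ X ∈ 𝒞, ∀ (E' L' : Finset H) (M : Finset B), P ∈ M → (∀ h ∈ E', h ∈ s.bd S) →
      (∀ h ∈ s.bd S, h ∈ E' ∨ h ∈ L') → (∃ h ∈ E', h ∈ s.HB X) →
      s.g X E' + s.g X (L' ∪ s.tw M) + s.ncS X ≤ s.hcS X := by
    intro X hX E' L' M hM a1 a2 a3
    have b1 := IH X hX (E' ∩ s.HB X) (s.bd X \ E')
      (Finset.disjoint_left.2 fun h b c => (mem_sdiff.1 c).2 (mem_inter.1 b).1) (by
        ext h
        simp only [mem_union, mem_inter, mem_sdiff]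
        constructor
        · rintro (⟨b, c⟩ | ⟨b, -⟩)
          · exact F4 X hX h (a1 h b) c
          · exact b
        · intro b
          by_cases c : h ∈ E'
          · exact Or.inl ⟨c, s.c5_HB.2 (s.c5_bd.1 b).1⟩
          · exact Or.inr ⟨b, c⟩)
    have n1 : E' ∩ s.HB X ≠ ∅ := by
      obtain ⟨h, b, c⟩ := a3
      exact ne_empty_of_mem (mem_inter.2 ⟨b, c⟩)
    have n2 : s.bd X \ E' ≠ ∅ := by
      obtain ⟨h, b, c⟩ := F3 X hX
      exact ne_empty_of_mem (mem_sdiff.2 ⟨b, fun d => (s.c5_bd.1 (a1 h d)).2 (c ▸ hP)⟩)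
    rw [if_neg n1, if_neg n2] at b1
    have b2 := s.g_mono X (E' ∩ s.HB X) E' fun e he _ => (mem_inter.1 he).1
    have b3 := s.g_mono X (s.bd X \ E') (L' ∪ s.tw M) fun e he _ => by
      obtain ⟨c, d⟩ := mem_sdiff.1 he
      rcases F2 X hX e c with f | f
      · exact mem_union_left _ ((a2 e f).resolve_left d)
      · exact mem_union_right _ (s.c5_tw.2 (f ▸ hM))
    omega
  obtain ⟨𝒜, hA⟩ : ∃ 𝒜 : Finset (Finset B), ∀ X, X ∈ 𝒜 ↔ X ∈ 𝒞 ∧ ∃ h ∈ L, h ∈ s.HB X :=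
    ⟨𝒞.filter fun X => ∃ h ∈ L, h ∈ s.HB X, fun X => mem_filter⟩
  obtain ⟨ℬ, hB⟩ : ∃ ℬ : Finset (Finset B), ∀ X, X ∈ ℬ ↔
      X ∈ 𝒞 ∧ (¬∃ h ∈ L, h ∈ s.HB X) ∧ ∃ h ∈ E, h ∈ s.HB X :=
    ⟨𝒞.filter fun X => (¬∃ h ∈ L, h ∈ s.HB X) ∧ ∃ h ∈ E, h ∈ s.HB X, fun X => mem_filter⟩
  obtain ⟨𝒳, hX⟩ : ∃ 𝒳 : Finset (Finset B), ∀ X, X ∈ 𝒳 ↔
      X ∈ 𝒞 ∧ (¬∃ h ∈ L, h ∈ s.HB X) ∧ ¬∃ h ∈ E, h ∈ s.HB X :=
    ⟨𝒞.filter fun X => (¬∃ h ∈ L, h ∈ s.HB X) ∧ ¬∃ h ∈ E, h ∈ s.HB X, fun X => mem_filter⟩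
  have sA : 𝒜 ⊆ 𝒞 := fun X h => ((hA X).1 h).1
  have sB : ℬ ⊆ 𝒞 := fun X h => ((hB X).1 h).1
  have sX : 𝒳 ⊆ 𝒞 := fun X h => ((hX X).1 h).1
  have tri : ∀ X ∈ 𝒞, X ∈ 𝒜 ∨ X ∈ ℬ ∨ X ∈ 𝒳 := fun X h => by
    by_cases a : ∃ h ∈ L, h ∈ s.HB X
    · exact Or.inl ((hA X).2 ⟨h, a⟩)
    · by_cases b : ∃ h ∈ E, h ∈ s.HB X
      · exact Or.inr (Or.inl ((hB X).2 ⟨h, a, b⟩))
      · exact Or.inr (Or.inr ((hX X).2 ⟨h, a, b⟩))
  have dA : ∀ X ∈ 𝒜, ∀ X' ∈ 𝒜, X ≠ X' → Disjoint X X' := fun X a X' b => hd X (sA a) X' (sA b)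
  have dB : ∀ X ∈ ℬ, ∀ X' ∈ ℬ, X ≠ X' → Disjoint X X' := fun X a X' b => hd X (sB a) X' (sB b)
  have dX : ∀ X ∈ 𝒳, ∀ X' ∈ 𝒳, X ≠ X' → Disjoint X X' := fun X a X' b => hd X (sX a) X' (sX b)
  have nPU : ∀ 𝒟 : Finset (Finset B), 𝒟 ⊆ 𝒞 → Disjoint {P} (𝒟.biUnion id) := fun 𝒟 h =>
    disjoint_singleton_left.2 fun a => by
      obtain ⟨X, b, c⟩ := mem_biUnion.1 a
      exact F1P X (h b) c
  have sUS : ∀ 𝒟 : Finset (Finset B), 𝒟 ⊆ 𝒞 → 𝒟.biUnion id ⊆ S := fun 𝒟 h =>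
    biUnion_subset.2 fun X a => F1S X (h a)
  have dBA : Disjoint (ℬ.biUnion id) (𝒜.biUnion id) :=
    c5_disj hd sB sA fun X a b => ((hB X).1 a).2.1 ((hA X).1 b).2
  have dXA : Disjoint (𝒳.biUnion id) (𝒜.biUnion id) :=
    c5_disj hd sX sA fun X a b => ((hX X).1 a).2.1 ((hA X).1 b).2
  have dXB : Disjoint (𝒳.biUnion id) (ℬ.biUnion id) :=
    c5_disj hd sX sB fun X a b => ((hX X).1 a).2.2 ((hB X).1 b).2.2
  have dMA : Disjoint ({P} ∪ 𝒳.biUnion id) (𝒜.biUnion id) :=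
    disjoint_union_left.2 ⟨nPU _ sA, dXA⟩
  have dMB : Disjoint ({P} ∪ 𝒳.biUnion id) (ℬ.biUnion id) :=
    disjoint_union_left.2 ⟨nPU _ sB, dXB⟩
  have hPM : P ∈ {P} ∪ 𝒳.biUnion id := mem_union_left _ (mem_singleton_self P)
  have eS : ℬ.biUnion id ∪ ({P} ∪ 𝒳.biUnion id) ∪ 𝒜.biUnion id = S := by
    refine Subset.antisymm (union_subset (union_subset (sUS _ sB)
      (union_subset (singleton_subset_iff.2 hP) (sUS _ sX))) (sUS _ sA)) fun b hb => ?_
    by_cases e : b = P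
    · exact mem_union_left _ (mem_union_right _ (e ▸ hPM))
    · obtain ⟨X, a, c⟩ := F0 b hb e
      rcases tri X a with d | d | d
      · exact mem_union_right _ (mem_biUnion.2 ⟨X, d, c⟩)
      · exact mem_union_left _ (mem_union_left _ (mem_biUnion.2 ⟨X, d, c⟩))
      · exact mem_union_left _ (mem_union_right _ (mem_union_right _ (mem_biUnion.2 ⟨X, d, c⟩)))
  have eS' : 𝒜.biUnion id ∪ ({P} ∪ 𝒳.biUnion id) ∪ ℬ.biUnion id = S := by
    rw [← eS]
    ac_rfl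
  have hang : s.Hang P 𝒳 := ⟨fun X a => F1P X (sX a), dX, fun X a h hh => by
    refine (F2 X (sX a) h hh).resolve_left fun b => ?_
    have c := s.c5_HB.2 (s.c5_bd.1 hh).1
    rcases hSEL h b with d | d
    · exact ((hX X).1 a).2.2 ⟨h, d, c⟩
    · exact ((hX X).1 a).2.1 ⟨h, d, c⟩, fun X a => by
      obtain ⟨h, hh, -⟩ := F3 X (sX a)
      exact ⟨h, hh⟩⟩
  have g1 := s.filt _ _ _ dMB.symm dBA dMA E
  have g2 := s.filt _ _ _ dMA.symm dBA.symm dMB L
  rw [eS] at g1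
  rw [eS'] at g2
  have c1 : s.hcS S = ∑ X ∈ ℬ, s.hcS X + (s.hcS {P} + ∑ X ∈ 𝒳, s.hcS X) + ∑ X ∈ 𝒜, s.hcS X := by
    rw [← eS, s.hcS_union _ _ (disjoint_union_left.2 ⟨dBA, dMA⟩), s.hcS_union _ _ dMB.symm,
      s.hcS_union _ _ (nPU _ sX), s.hcS_biUnion _ dA, s.hcS_biUnion _ dB, s.hcS_biUnion _ dX]
  have c2 : s.ncS S = ∑ X ∈ ℬ, s.ncS X + (s.ncS {P} + ∑ X ∈ 𝒳, s.ncS X) + ∑ X ∈ 𝒜, s.ncS X := by
    rw [← eS, s.ncS_union _ _ (disjoint_union_left.2 ⟨dBA, dMA⟩), s.ncS_union _ _ dMB.symm,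
      s.ncS_union _ _ (nPU _ sX), s.ncS_biUnion _ dA, s.ncS_biUnion _ dB, s.ncS_biUnion _ dX]
  have u1 := s.g_biUnion ℬ dB E
  have u2 := s.g_biUnion ℬ dB (L ∪ s.tw ({P} ∪ 𝒳.biUnion id))
  have u3 := s.g_biUnion 𝒜 dA L
  have u4 := s.g_biUnion 𝒜 dA (E ∪ s.tw ({P} ∪ 𝒳.biUnion id))
  have kB := sum_le_sum fun X (a : X ∈ ℬ) =>
    key X (sB a) E L _ hPM hES hSEL ((hB X).1 a).2.2
  have kA := sum_le_sum fun X (a : X ∈ 𝒜) =>
    key X (sA a) L E _ hPM hLS (fun h b => (hSEL h b).symm) ((hA X).1 a).2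
  have kX : ∑ X ∈ 𝒳, (s.g X (s.bd X) + s.g X ∅ + s.ncS X) ≤ ∑ X ∈ 𝒳, (s.hcS X + 1) :=
    sum_le_sum fun X a => by
      have b := IH X (sX a) (s.bd X) ∅ (disjoint_empty_right _) (union_empty _)
      rwa [if_neg (hang.ne X a).ne_empty, if_pos rfl, add_zero] at b
  rw [sum_add_distrib, sum_add_distrib] at kA kB
  rw [sum_add_distrib, sum_add_distrib (g := fun _ => 1), sum_const, smul_eq_mul, mul_one] at kX
  have m1 := s.g_mono ({P} ∪ 𝒳.biUnion id) (s.bd {P} ∩ (E ∪ s.tw (ℬ.biUnion id)))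
    (E ∪ s.tw (ℬ.biUnion id)) fun e he _ => (mem_inter.1 he).2
  have m2 := s.g_mono ({P} ∪ 𝒳.biUnion id) (s.bd {P} ∩ (L ∪ s.tw (𝒜.biUnion id)))
    (L ∪ s.tw (𝒜.biUnion id)) fun e he _ => (mem_inter.1 he).2
  have bdP : ∀ h ∈ s.bd S, s.bl (s.nd h) = P → h ∈ s.bd {P} := fun h a b =>
    s.c5_bd.2 ⟨mem_singleton.2 b, fun c => (s.c5_bd.1 a).2 (mem_singleton.1 c ▸ hP)⟩
  have i1 : (if s.bd {P} ∩ (E ∪ s.tw (ℬ.biUnion id)) = ∅ then 1 else 0) ≤
      if E = ∅ then 1 else 0 := by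
    by_cases a : E = ∅
    · rw [if_pos a]
      split_ifs <;> omega
    · obtain ⟨e, b, c⟩ := hPE a
      rw [if_neg (ne_empty_of_mem (mem_inter.2 ⟨bdP e (hES e b) c, mem_union_left _ b⟩))]
      exact Nat.zero_le _
  have i2 : (if s.bd {P} ∩ (L ∪ s.tw (𝒜.biUnion id)) = ∅ then 1 else 0) ≤
      if L = ∅ then 1 else 0 := by
    by_cases a : L = ∅
    · rw [if_pos a]
      split_ifs <;> omega
    · obtain ⟨e, b⟩ := nonempty_iff_ne_empty.2 a
      have : (s.bd {P} ∩ (L ∪ s.tw (𝒜.biUnion id))).Nonempty := by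
        by_cases c : s.bl (s.nd e) = P
        · exact ⟨e, mem_inter.2 ⟨bdP e (hLS e b) c, mem_union_left _ b⟩⟩
        · obtain ⟨X, d, f⟩ := F0 _ (s.c5_bd.1 (hLS e b)).1 c
          obtain ⟨h, j, k⟩ := F3 X d
          have l := (s.c5_bd.1 j).1
          refine ⟨s.o h, mem_inter.2 ⟨s.c5_bd.2 ⟨mem_singleton.2 k, ?_⟩,
            mem_union_right _ (s.c5_tw.2 ?_)⟩⟩
          · rw [s.oo]
            exact fun n => F1P X d (mem_singleton.1 n ▸ l)
          · rw [s.oo]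
            exact mem_biUnion.2 ⟨X, (hA X).2 ⟨d, e, b, s.c5_HB.2 f⟩, l⟩
      rw [if_neg this.ne_empty]
      exact Nat.zero_le _
  have step : s.g ({P} ∪ 𝒳.biUnion id) (s.bd {P} ∩ (E ∪ s.tw (ℬ.biUnion id))) +
      s.g ({P} ∪ 𝒳.biUnion id) (s.bd {P} ∩ (L ∪ s.tw (𝒜.biUnion id))) + s.ncS {P} + #𝒳 ≤
      s.hcS {P} + ∑ X ∈ 𝒳, (s.g X (s.bd X) + s.g X ∅) +
        (if s.bd {P} ∩ (E ∪ s.tw (ℬ.biUnion id)) = ∅ then 1 else 0) +
        (if s.bd {P} ∩ (L ∪ s.tw (𝒜.biUnion id)) = ∅ then 1 else 0) := by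
    by_cases hcls : P ∈ s.cls
    swap
    · exact s.step_neu hcls hang _ _ inter_subset_left inter_subset_left
    have out : ∀ h ∈ s.bd S, ∀ 𝒟 : Finset (Finset B), 𝒟 ⊆ 𝒞 → h ∉ s.tw (𝒟.biUnion id) :=
      fun h a 𝒟 b c => (s.c5_bd.1 a).2 (sUS 𝒟 b (s.c5_tw.1 c))
    refine s.step_cls h1 h2 hcls ?_ hang _ _ inter_subset_left inter_subset_left ?_ ?_
    · by_cases e : S = {P}
      · exact leg P hcls e
      · obtain ⟨h, a, -, b⟩ := hc {P} (singleton_subset_iff.2 hP) (singleton_nonempty P)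
          (Ne.symm e)
        exact ⟨h, s.c5_bd.2 ⟨a, b⟩⟩
    · rw [Finset.disjoint_left]
      intro h a b
      rcases mem_union.1 (mem_inter.1 a).2 with c | c <;>
        rcases mem_union.1 (mem_inter.1 b).2 with d | d
      · exact Finset.disjoint_left.1 dEL c d
      · exact out h (hES h c) _ sA d
      · exact out h (hLS h d) _ sB c
      · exact Finset.disjoint_left.1 dBA (s.c5_tw.1 c) (s.c5_tw.1 d)
    · intro h a
      obtain ⟨a1, a2⟩ := s.c5_bd.1 a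
      rw [mem_singleton] at a1 a2
      constructor
      · intro b X c d
        have d' : h ∈ s.tw (𝒳.biUnion id) := s.c5_tw.2 (mem_biUnion.2 ⟨X, c, s.c5_tw.1 d⟩)
        rcases b with b | b <;> rcases mem_union.1 (mem_inter.1 b).2 with e | e
        · exact out h (hES h e) _ sX d'
        · exact Finset.disjoint_left.1 dXB (s.c5_tw.1 d') (s.c5_tw.1 e)
        · exact out h (hLS h e) _ sX d'
        · exact Finset.disjoint_left.1 dXA (s.c5_tw.1 d') (s.c5_tw.1 e)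
      · intro b
        by_cases c : s.bl (s.nd (s.o h)) ∈ S
        · obtain ⟨X, d, e⟩ := F0 _ c a2
          rcases tri X d with f | f | f
          · exact Or.inr (mem_inter.2 ⟨a, mem_union_right _
              (s.c5_tw.2 (mem_biUnion.2 ⟨X, f, e⟩))⟩)
          · exact Or.inl (mem_inter.2 ⟨a, mem_union_right _
              (s.c5_tw.2 (mem_biUnion.2 ⟨X, f, e⟩))⟩)
          · exact (b X f (s.c5_tw.2 e)).elim
        · rcases hSEL h (s.c5_bd.2 ⟨a1 ▸ hP, c⟩) with f | f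
          · exact Or.inl (mem_inter.2 ⟨a, mem_union_left _ f⟩)
          · exact Or.inr (mem_inter.2 ⟨a, mem_union_left _ f⟩)
  omega

end HS
end Pool.Agent.MP_8c1b0d_co

set_option autoImplicit false
set_option linter.unusedSectionVars false
open Finset Module

namespace Pool.Agent.MP_8c1b0d_co
namespace HS
variable {K H N B : Type} [Field K] [CharP K 2] [Fintype H] [DecidableEq H] [Fintype N]
  [DecidableEq N] [DecidableEq B] (s : HS K H N B)

/-- the block code contains all even symmetric functions on the block -/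
def Full (b : B) : Prop := ∀ f ∈ symm K s.o, f ∈ spt K (s.HB {b}) →
  (∀ v, chi K {h | s.nd h = v} ⬝ᵥ f = 0) → f ∈ s.T

open Classical in
/-- A class without legs. Plan: `exists_atoms`; `atom_eq` gives `card At ≤ 1`. Let `Ev` be the
space of even symmetric functions supported on the block; `G {b} ≤ Ev` (`one`, `iso`);
`cyc_block` for `Ev`: `2 * finrank Ev + 2 ν ≤ #(HB {b}) + 2`. If not `Full` then
`G {b} < Ev` (`Submodule.finrank_lt_finrank_of_lt`). -/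
theorem legless {b : B} (hb : b ∈ s.cls) (h0 : s.bd {b} = ∅) :
    2 * s.g {b} ∅ + s.ncS {b} ≤ s.hcS {b} + 2 + (if s.Full b then 1 else 0) := by
  obtain ⟨At, i1, i2, am, ha⟩ := s.exists_atoms b (s.cls_ne b hb)
  have hAt : Fintype.card At ≤ 1 := Fintype.card_le_one_iff.2 fun a a' =>
    s.atom_eq hb ha a' (by simp [h0]) a
  let Ev : Submodule K (H → K) := (spt K (s.HB {b}) ⊓ symm K s.o) ⊓
    ⨅ v, LinearMap.ker (dotProductBilin K K (chi K {h | s.nd h = v}))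
  have mE : ∀ f, f ∈ Ev ↔ (f ∈ spt K (s.HB {b}) ∧ f ∈ symm K s.o) ∧
      ∀ v, chi K {h | s.nd h = v} ⬝ᵥ f = 0 := fun f => by
    simp only [Ev, Submodule.mem_inf, Submodule.mem_iInf, LinearMap.mem_ker,
      dotProductBilin_apply_apply]
  have cl : ∀ h, s.bl (s.nd h) ∈ ({b} : Finset B) → s.bl (s.nd (s.o h)) ∈ ({b} : Finset B) :=
    fun h hh => by_contra fun hn => notMem_empty h (h0 ▸ mem_filter.2 ⟨mem_univ _, hh, hn⟩)
  have le : s.G {b} ⊓ spt K (∅ : Finset H)ᶜ ≤ Ev := fun f hf => by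
    obtain ⟨f1, f2, f3⟩ := hf.1
    refine (mE f).2 ⟨⟨fun h hh => f2 h fun e => hh (mem_filter.2 ⟨mem_univ _, e⟩), fun h => ?_⟩,
      fun v => s.iso _ (s.one v) _ f1⟩
    by_cases hh : s.bl (s.nd h) ∈ ({b} : Finset B)
    · exact f3 h hh (cl h hh)
    · rw [f2 h hh, f2 _ fun e => hh (s.oo h ▸ cl _ e)]
  have cy := s.cyc_block ha Ev (by
    rw [h0, sdiff_empty]
    exact inf_le_left) fun f hf => ((mE f).1 hf).2
  have e1 : s.ncS {b} = 2 * #{v | s.bl v = b} + 1 := by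
    rw [ncS, singleton_inter_of_mem hb, card_singleton]
    rw [filter_congr fun v _ => (⟨fun h => mem_singleton.1 h.1,
      fun h => ⟨mem_singleton.2 h, h ▸ hb⟩⟩ : _ ∧ _ ↔ s.bl v = b)]
  have e2 : s.hcS {b} = #(s.HB {b}) := by
    rw [hcS, HB]
    exact congrArg card (filter_congr fun v _ =>
      ⟨fun h => h.1, fun h => ⟨h, mem_singleton.1 h ▸ hb⟩⟩)
  have l1 : s.g {b} ∅ ≤ finrank K Ev := Submodule.finrank_mono le
  split_ifs with hF
  · omega
  · have l2 : s.g {b} ∅ < finrank K Ev := Submodule.finrank_lt_finrank_of_lt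
      (lt_of_le_of_ne le fun e => hF fun f f1 f2 f3 => (e.ge ((mE f).2 ⟨⟨f2, f1⟩, f3⟩)).1.1)
    omega

/-- THE CORE BOUND. Plan: `𝒞` = components of `S₀ = univ.image bl` (`exists_comps`), `Y = ↥𝒞`,
`own v` = the component containing `bl v`; `F` = the components `{b}` with `b ∈ cls` and
`Full b`. Every component has `bd X = ∅`. `γ ≤ g S₀ ∅ ≤ ∑ g X ∅` (`g_biUnion`); for `X = {b}`,
`b ∈ cls`, use `legless`, otherwise `core_ind` with `E = L = ∅`. `hcS S₀ = hc`,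
`ncS S₀ = 2 * nc + #cls` (`cls_ne`). -/
theorem core0 (h1 : s.t1) (h2 : s.t2) :
    ∃ (Y : Type) (_ : Fintype Y) (_ : DecidableEq Y) (own : N → Y) (F : Finset Y),
      Function.Surjective own ∧ (∀ h, own (s.nd (s.o h)) = own (s.nd h)) ∧
      (∀ y ∈ F, ∃ b ∈ s.cls, (∀ v, own v = y ↔ s.bl v = b) ∧ s.Full b) ∧
      2 * s.γ + 2 * s.nc + #s.cls ≤ s.hc + 2 * Fintype.card Y + #F := by
  classical
  obtain ⟨𝒞, c1, c2, c3, c4⟩ := s.exists_comps (univ.image s.bl)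
  have m0 : ∀ v, s.bl v ∈ univ.image s.bl := fun v => mem_image_of_mem _ (mem_univ v)
  have ex : ∀ v, ∃ y : 𝒞, s.bl v ∈ y.1 := fun v => by
    obtain ⟨X, hX, h⟩ := mem_biUnion.1 (c1.ge (m0 v))
    exact ⟨⟨X, hX⟩, h⟩
  choose own ho using ex
  have un : ∀ v (y : 𝒞), own v = y ↔ s.bl v ∈ y.1 := fun v y => ⟨fun e => e ▸ ho v, fun h =>
    by_contra fun hn => disjoint_left.1 (c2 _ (own v).2 _ y.2 fun e => hn (Subtype.ext e))
      (ho v) h⟩
  refine ⟨𝒞, inferInstance, inferInstance, own,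
    univ.filter fun y : 𝒞 => ∃ b ∈ s.cls, y.1 = {b} ∧ s.Full b,
    fun y => ?_, fun h => (un _ _).2 (c4 _ (own _).2 h (ho _) (m0 _)), fun y hy => ?_, ?_⟩
  · obtain ⟨b, hb⟩ := (c3 _ y.2).1
    obtain ⟨v, -, rfl⟩ := mem_image.1 (c1.le (mem_biUnion.2 ⟨_, y.2, hb⟩))
    exact ⟨v, (un v y).2 hb⟩
  · obtain ⟨b, hb, e, hF⟩ := (mem_filter.1 hy).2
    exact ⟨b, hb, fun v => by rw [un, e, mem_singleton], hF⟩
  have l1 : s.γ ≤ s.g (univ.image s.bl) ∅ := Submodule.finrank_mono fun f hf =>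
    ⟨⟨hf.1, fun h hh => (hh (m0 _)).elim, fun h _ _ => hf.2 h⟩, fun e he => by simp at he⟩
  have l2 := s.g_biUnion 𝒞 c2 ∅
  have l3 := s.hcS_biUnion 𝒞 c2
  have l4 := s.ncS_biUnion 𝒞 c2
  rw [c1] at l2 l3 l4
  have e1 : s.hcS (univ.image s.bl) = s.hc := by simp only [hcS, hc, m0, true_and]
  have e2 : s.ncS (univ.image s.bl) = 2 * s.nc + #s.cls := by
    rw [ncS, inter_eq_right.2 fun b hb => by
      obtain ⟨v, rfl⟩ := s.cls_ne b hb
      exact m0 v]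
    simp only [nc, m0, true_and]
  have key : ∀ X ∈ 𝒞, 2 * s.g X ∅ + s.ncS X ≤
      s.hcS X + 2 + if ∃ b ∈ s.cls, X = {b} ∧ s.Full b then 1 else 0 := fun X hX => by
    have h0 : s.bd X = ∅ := eq_empty_of_forall_notMem fun h hh =>
      (mem_filter.1 hh).2.2 (c4 X hX h (mem_filter.1 hh).2.1 (m0 _))
    by_cases hb : ∃ b ∈ s.cls, X = {b}
    · obtain ⟨b, hb, rfl⟩ := hb
      refine (s.legless hb h0).trans (Nat.add_le_add_left ?_ _)
      by_cases hF : s.Full b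
      · rw [if_pos hF, if_pos ⟨b, hb, rfl, hF⟩]
      · rw [if_neg hF]
        exact Nat.zero_le _
    · have := s.core_ind h1 h2 X (c3 X hX).1 (c3 X hX).2 (fun b h e => (hb ⟨b, h, e⟩).elim) ∅ ∅
        (disjoint_empty_left _) (by rw [h0, union_empty])
      rw [if_pos rfl] at this
      omega
  have l5 := sum_le_sum key
  simp only [sum_add_distrib, ← mul_sum, sum_const, smul_eq_mul] at l5
  rw [Fintype.card_coe, card_filter,
    sum_coe_sort 𝒞 fun X => if ∃ b ∈ s.cls, X = {b} ∧ s.Full b then 1 else 0]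
  omega

end HS
end Pool.Agent.MP_8c1b0d_co

set_option autoImplicit false
set_option linter.unusedSectionVars false
open Finset Module

namespace Pool.Agent.MP_8c1b0d_co
namespace HS
variable {K H N B : Type} [Field K] [CharP K 2] [Fintype H] [DecidableEq H] [Fintype N]
  [DecidableEq N] [DecidableEq B] (s : HS K H N B)

/-- the same system with other edges -/
def setO (o' : H → H) (h1 : ∀ h, o' (o' h) = h) (h2 : ∀ h, o' h ≠ h)
    (le : s.T ⊓ symm K s.o ≤ symm K o') : HS K H N B :=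
  { s with
    o := o'
    oo := h1
    o_ne := h2
    rz := fun b hb f hf => by
      obtain ⟨g, hg, c, hc⟩ := s.rz b hb f hf
      exact ⟨g, ⟨hg.1, le hg⟩, c, hc⟩ }

/-- RE-PAIRING `e ↔ f`, `o e ↔ o f`. The four half-edges are distinct (values of `t`). For
`g ∈ T` symmetric, `0 = t ⬝ᵥ g = g e + g f` (`dot_pairs` on the complement of the four), so `g`
is symmetric for `o'`; `t` is symmetric for `o'` but not for `o`
(`Submodule.finrank_lt_finrank_of_lt`). -/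
theorem repair (t : H → K) (ht : t ∈ s.T) (e f : H) (ef : e ≠ f) (te : t e = 1) (tf : t f = 1)
    (toe : t (s.o e) = 0) (tof : t (s.o f) = 0)
    (sy : ∀ h, h ≠ e → h ≠ f → h ≠ s.o e → h ≠ s.o f → t (s.o h) = t h) :
    ∃ (o' : H → H) (h1 : ∀ h, o' (o' h) = h) (h2 : ∀ h, o' h ≠ h)
      (le : s.T ⊓ symm K s.o ≤ symm K o'), s.γ < (s.setO o' h1 h2 le).γ ∧
      ∀ h, h ≠ e → h ≠ f → h ≠ s.o e → h ≠ s.o f → o' h = s.o h := by
  have n1 : e ≠ s.o e := (s.o_ne e).symm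
  have n2 : f ≠ s.o f := (s.o_ne f).symm
  have n3 : e ≠ s.o f := fun h => one_ne_zero (te.symm.trans (h ▸ tof))
  have n4 : f ≠ s.o e := fun h => one_ne_zero (tf.symm.trans (h ▸ toe))
  have inj : ∀ {a b}, s.o a = s.o b → a = b := fun {a b} h => by rw [← s.oo a, h, s.oo]
  have n5 : s.o e ≠ s.o f := fun h => ef (inj h)
  have oth : ∀ h, h ≠ e → h ≠ f → h ≠ s.o e → h ≠ s.o f →
      Equiv.swap f (s.o e) (s.o (Equiv.swap f (s.o e) h)) = s.o h := fun h a1 a2 a3 a4 => by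
    rw [Equiv.swap_apply_of_ne_of_ne a2 a3, Equiv.swap_apply_of_ne_of_ne
      (fun x => a4 (by rw [← x, s.oo])) fun x => a1 (inj x)]
  have le : s.T ⊓ symm K s.o ≤
      symm K fun h => Equiv.swap f (s.o e) (s.o (Equiv.swap f (s.o e) h)) := fun g hg h => by
    have hA : ∀ h ∈ ({e, f, s.o e, s.o f} : Finset H)ᶜ,
        s.o h ∈ ({e, f, s.o e, s.o f} : Finset H)ᶜ := fun h hh => by
      simp only [mem_compl, mem_insert, mem_singleton, not_or] at hh ⊢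
      exact ⟨fun x => hh.2.2.1 (by rw [← x, s.oo]), fun x => hh.2.2.2 (by rw [← x, s.oo]),
        fun x => hh.1 (inj x), fun x => hh.2.1 (inj x)⟩
    have d1 := dot_pairs s.o s.oo s.o_ne _ hA t g (fun h hh => by
      simp only [mem_compl, mem_insert, mem_singleton, not_or] at hh
      exact sy h hh.1 hh.2.1 hh.2.2.1 hh.2.2.2) fun h _ => hg.2 h
    have d2 : t = cut ({e, f, s.o e, s.o f} : Finset H)ᶜ t + Pi.single e 1 + Pi.single f 1 := by
      funext h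
      simp only [Pi.add_apply, cut_apply, mem_compl, mem_insert, mem_singleton]
      by_cases a1 : h = e
      · simp [a1, te, ef]
      by_cases a2 : h = f
      · simp [a2, tf, ef.symm]
      by_cases a3 : h = s.o e
      · simp [a3, toe, n1.symm, n4.symm]
      by_cases a4 : h = s.o f
      · simp [a4, tof, n2.symm, n3.symm]
      simp [a1, a2, a3, a4]
    have d3 := s.iso t ht g hg.1
    rw [d2, add_dotProduct, add_dotProduct, d1, zero_add, single_one_dotProduct,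
      single_one_dotProduct, CharTwo.add_eq_zero] at d3
    have d4 := Equiv.apply_swap_eq_self (v := g) (d3.symm.trans (hg.2 e).symm)
    exact (d4 _).trans ((hg.2 _).trans (d4 _))
  refine ⟨_, fun h => by rw [Equiv.swap_apply_self, s.oo, Equiv.swap_apply_self],
    fun h x => s.o_ne (Equiv.swap f (s.o e) h) (Equiv.swap_apply_eq_iff.1 x), le,
    Submodule.finrank_lt_finrank_of_lt (lt_of_le_of_ne (le_inf inf_le_left le) fun x => ?_), oth⟩
  have : t ∈ s.T ⊓ symm K s.o := x.ge ⟨ht, fun h => by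
    show t (Equiv.swap f (s.o e) (s.o (Equiv.swap f (s.o e) h))) = t h
    by_cases a1 : h = e
    · rw [a1, Equiv.swap_apply_of_ne_of_ne ef n1, Equiv.swap_apply_right, te, tf]
    by_cases a2 : h = f
    · rw [a2, Equiv.swap_apply_left, s.oo, Equiv.swap_apply_of_ne_of_ne ef n1, te, tf]
    by_cases a3 : h = s.o e
    · rw [a3, Equiv.swap_apply_right, Equiv.swap_apply_of_ne_of_ne n2.symm n5.symm, toe, tof]
    by_cases a4 : h = s.o f
    · rw [a4, Equiv.swap_apply_of_ne_of_ne n2.symm n5.symm, s.oo, Equiv.swap_apply_left, toe, tof]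
    rw [oth h a1 a2 a3 a4, sy h a1 a2 a3 a4]⟩
  exact one_ne_zero (te.symm.trans ((this.2 e).symm.trans toe))

theorem c7_legs (t : H → K) (ht : t ∈ s.T) (A : H → Prop) (e f : H) (ef : e ≠ f)
    (he : A e ∧ ¬ A (s.o e)) (hf : A f ∧ ¬ A (s.o f)) (h0 : ∀ h, ¬ A h → t h = 0)
    (hs : ∀ h, A h → A (s.o h) → t (s.o h) = t h)
    (hl : ∀ h, A h → ¬ A (s.o h) → t h = chi K {e, f} h) :
    ∃ (o' : H → H) (h1 : ∀ h, o' (o' h) = h) (h2 : ∀ h, o' h ≠ h)
      (le : s.T ⊓ symm K s.o ≤ symm K o'), s.γ < (s.setO o' h1 h2 le).γ ∧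
      #{h | o' h ≠ s.o h} ≤ 4 := by
  obtain ⟨o', h1, h2, le, lt, ot⟩ := s.repair t ht e f ef (by simp [hl e he.1 he.2, chi])
    (by simp [hl f hf.1 hf.2, chi]) (h0 _ he.2) (h0 _ hf.2) fun h a1 a2 a3 a4 => by
      by_cases b1 : A h <;> by_cases b2 : A (s.o h)
      · exact hs h b1 b2
      · simp [h0 _ b2, hl h b1 b2, chi, a1, a2]
      · have c1 : s.o h ≠ e := fun x => a3 (by rw [← x, s.oo])
        have c2 : s.o h ≠ f := fun x => a4 (by rw [← x, s.oo])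
        simp [h0 _ b1, hl _ b2 (by rwa [s.oo]), chi, c1, c2]
      · rw [h0 _ b1, h0 _ b2]
  refine ⟨o', h1, h2, le, lt,
    (card_le_card (t := {e, f, s.o e, s.o f}) fun h hh => ?_).trans card_le_four⟩
  by_contra hn
  simp only [mem_insert, mem_singleton, not_or] at hn
  exact (mem_filter.1 hh).2 (ot h hn.1 hn.2.1 hn.2.2.1 hn.2.2.2)

/-- If `t1` or `t2` fails, `repair` applies (for `t2` with `t = chi {h | nd h ∈ S}`, a sum of
`one`, and `Finset.card_eq_two`); at most four half-edges change. -/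
theorem repair_of_not (h : ¬ (s.t1 ∧ s.t2)) :
    ∃ (o' : H → H) (h1 : ∀ h, o' (o' h) = h) (h2 : ∀ h, o' h ≠ h)
      (le : s.T ⊓ symm K s.o ≤ symm K o'), s.γ < (s.setO o' h1 h2 le).γ ∧
      #{h | o' h ≠ s.o h} ≤ 4 := by
  rcases not_and_or.1 h with h | h
  · simp only [t1, not_forall, not_not] at h
    obtain ⟨b, -, e, he, f, hf, ef, t, ht, h⟩ := h
    exact s.c7_legs t ht.1 (fun h => s.bl (s.nd h) ∈ ({b} : Finset B)) e f ef (mem_filter.1 he).2
      (mem_filter.1 hf).2 ht.2.1 ht.2.2 fun x h1 h2 => by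
        rw [← h, cut_apply, if_pos (show x ∈ s.bd {b} from mem_filter.2 ⟨mem_univ _, h1, h2⟩)]
  · simp only [t2, not_forall, not_not] at h
    obtain ⟨S, h⟩ := h
    obtain ⟨e, f, ef, h⟩ := card_eq_two.1 h
    have ht : chi K {h | s.nd h ∈ S} = ∑ v ∈ S, chi K {h | s.nd h = v} := by
      funext x
      simp [chi, Finset.sum_apply]
    refine s.c7_legs (chi K {h | s.nd h ∈ S}) (ht ▸ s.T.sum_mem fun v _ => s.one v)
      (fun h => s.nd h ∈ S) e f ef (mem_filter.1 (h.ge (by simp))).2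
      (mem_filter.1 (h.ge (by simp))).2 (fun x hx => by simp [chi, hx])
      (fun x h1 h2 => by simp [chi, h1, h2]) fun x h1 h2 => ?_
    rw [← h]
    simp [chi, h1, h2]

/-- Iterate. Induction on `n` with `Fintype.card H ≤ s.γ + n` for all `s` (`γ ≤ card H`);
`(s.setO o₁ ..).setO o₂ ..` is `s.setO o₂ ..` by `rfl`, and `{o₂ ≠ o} ⊆ {o₂ ≠ o₁} ∪ {o₁ ≠ o}`. -/
theorem exists_tight :
    ∃ (o' : H → H) (h1 : ∀ h, o' (o' h) = h) (h2 : ∀ h, o' h ≠ h)
      (le : s.T ⊓ symm K s.o ≤ symm K o'), (s.setO o' h1 h2 le).t1 ∧ (s.setO o' h1 h2 le).t2 ∧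
      4 * s.γ + #{h | o' h ≠ s.o h} ≤ 4 * (s.setO o' h1 h2 le).γ := by
  obtain ⟨n, hn⟩ : ∃ n, Fintype.card H < s.γ + n := ⟨Fintype.card H + 1, by omega⟩
  induction n generalizing s with
  | zero =>
    have : s.γ ≤ Fintype.card H :=
      (Submodule.finrank_le _).trans_eq (Module.finrank_fintype_fun_eq_card K)
    omega
  | succ n ih =>
    by_cases h : s.t1 ∧ s.t2
    · exact ⟨s.o, s.oo, s.o_ne, inf_le_right, h.1, h.2, by
        rw [filter_false_of_mem fun _ _ => not_not.2 rfl]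
        exact le_rfl⟩
    obtain ⟨o₁, a1, a2, a3, a4, a5⟩ := s.repair_of_not h
    obtain ⟨o₂, b1, b2, b3, b4, b5, b6⟩ := ih (s.setO o₁ a1 a2 a3) (by omega)
    refine ⟨o₂, b1, b2, (le_inf inf_le_left a3).trans b3, b4, b5, le_trans ?_ b6⟩
    have c1 : #{h | o₂ h ≠ s.o h} ≤ #{h | o₂ h ≠ o₁ h} + #{h | o₁ h ≠ s.o h} := by
      refine (card_le_card fun h hh => ?_).trans (card_union_le _ _)
      simp only [mem_union, mem_filter, mem_univ, true_and] at hh ⊢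
      by_contra hc
      simp only [not_or, not_not] at hc
      exact hh (hc.1.trans hc.2)
    have c2 : #{h | o₂ h ≠ (s.setO o₁ a1 a2 a3).o h} = #{h | o₂ h ≠ o₁ h} := rfl
    omega

/-- `exists_tight`, `core0` for the new system, `D = {h | o' h ≠ o h}` (closed under `o` and
`o'`; a function symmetric for `o` and zero on `D` is symmetric for `o'`). -/
theorem cert0 :
    ∃ (Y : Type) (_ : Fintype Y) (_ : DecidableEq Y) (own : N → Y) (D : Finset H) (F : Finset Y),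
      Function.Surjective own ∧ (∀ h ∉ D, s.o h ∉ D ∧ own (s.nd (s.o h)) = own (s.nd h)) ∧
      (∀ y ∈ F, ∃ b ∈ s.cls, (∀ v, own v = y ↔ s.bl v = b) ∧
        ∀ f ∈ symm K s.o, f ∈ spt K (s.HB {b}) → (∀ h ∈ D, f h = 0) →
          (∀ v, chi K {h | s.nd h = v} ⬝ᵥ f = 0) → f ∈ s.T) ∧
      4 * s.γ + #D + 4 * s.nc + 2 * #s.cls ≤ 2 * s.hc + 4 * Fintype.card Y + 2 * #F := by
  obtain ⟨o', a1, a2, a3, a4, a5, a6⟩ := s.exists_tight
  obtain ⟨Y, i1, i2, own, F, b1, b2, b3, b4⟩ := (s.setO o' a1 a2 a3).core0 a4 a5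
  have mD : ∀ h, h ∉ ({h | o' h ≠ s.o h} : Finset H) ↔ o' h = s.o h := fun h => by simp
  refine ⟨Y, i1, i2, own, univ.filter fun h => o' h ≠ s.o h, F, b1,
    fun h hh => ?_, fun y hy => ?_, ?_⟩
  · rw [mD] at hh ⊢
    exact ⟨by rw [s.oo, ← hh, a1], hh ▸ b2 h⟩
  · obtain ⟨b, hb, c1, c2⟩ := b3 y hy
    refine ⟨b, hb, c1, fun f f1 f2 f3 f4 => c2 f (fun h => ?_) f2 f4⟩
    show f (o' h) = f h
    by_cases hh : o' h = s.o h
    · rw [hh, f1 h]
    · rw [f3 h (by simpa using hh), f3 (o' h) (by_contra fun x => hh (by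
        have := (mD _).1 x
        rw [a1] at this
        rw [← s.oo (o' h), ← this]))]
  · have c1 : 2 * (s.setO o' a1 a2 a3).γ + 2 * s.nc + #s.cls ≤
      s.hc + 2 * Fintype.card Y + #F := b4
    omega

end HS
end Pool.Agent.MP_8c1b0d_co

set_option autoImplicit false
set_option linter.unusedSectionVars false
open Finset Module

namespace Pool.Agent.MP_8c1b0d_co

/-- threads: the classes `thr` generated by `o` and by `ρ` on `P`; `o₁` joins the two ends -/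
structure Thr (K : Type) {H Λ : Type} (o ρ : H → H) (P : Finset H) (o₁ : H → H)
    (thr : H → Λ) : Prop where
  oo : ∀ h, o₁ (o₁ h) = h
  ne : ∀ h, o₁ h ≠ h
  onP : ∀ h ∈ P, o₁ h = ρ h
  off : ∀ h ∉ P, o₁ h ∉ P
  t0 : ∀ h, thr (o h) = thr h
  t1 : ∀ h, thr (o₁ h) = thr h
  surj : Function.Surjective thr
  gen : ∀ f : H → K, (∀ h, f (o h) = f h) → (∀ h ∈ P, f (ρ h) = f h) →
    ∀ h h', thr h = thr h' → f h = f h'
  ends : ∀ e ∉ P, ∀ e' ∉ P, thr e = thr e' → e' = e ∨ e' = o₁ e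

/-- the class of a fixed point of `r` under two involutions has exactly one more fixed point -/
lemma c8_ends {H : Type} [Fintype H] (r σ : Equiv.Perm H) (rr : r * r = 1) (σσ : σ * σ = 1)
    (σ_ne : ∀ h, σ h ≠ h) {e : H} (he : r e = e) :
    (∀ k : ℤ, r (((r * σ) ^ k) e) = ((r * σ) ^ (-k)) e) ∧
      (∀ k : ℤ, σ (((r * σ) ^ k) e) = ((r * σ) ^ (-(k + 1))) e) ∧
      ∃! e', r e' = e' ∧ e' ≠ e ∧ ∃ k : ℤ, ((r * σ) ^ k) e = e' := by
  obtain ⟨τ, hτ⟩ : ∃ τ, τ = r * σ := ⟨_, rfl⟩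
  rw [← hτ]
  have ri : r⁻¹ = r := inv_eq_of_mul_eq_one_right rr
  have σi : σ⁻¹ = σ := inv_eq_of_mul_eq_one_right σσ
  have h1 : r * τ * r⁻¹ = τ⁻¹ := by
    rw [hτ, mul_inv_rev, ri, σi, ← mul_assoc, rr, one_mul]
  have h2 : ∀ k : ℤ, r ((τ ^ k) e) = (τ ^ (-k)) e := by
    intro k
    have : r * τ ^ k = τ ^ (-k) * r := by
      rw [zpow_neg, ← inv_zpow, ← h1, conj_zpow, inv_mul_cancel_right]
    rw [← Equiv.Perm.mul_apply, this, Equiv.Perm.mul_apply, he]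
  have h3 : ∀ k : ℤ, σ ((τ ^ k) e) = (τ ^ (-(k + 1))) e := by
    intro k
    have : σ = r * τ := by rw [hτ, ← mul_assoc, rr, one_mul]
    rw [← h2, add_comm, zpow_one_add, Equiv.Perm.mul_apply, ← Equiv.Perm.mul_apply r, ← this]
  refine ⟨h2, h3, ?_⟩
  have hn : 0 < MulAction.period τ e := MulAction.period_pos_of_orderOf_pos (orderOf_pos τ) e
  have key : ∀ i j : ℤ, (τ ^ i) e = (τ ^ j) e ↔ (MulAction.period τ e : ℤ) ∣ i - j := by
    intro i j
    rw [← MulAction.zpow_smul_eq_iff_period_dvd, Equiv.Perm.smul_def, sub_eq_neg_add, zpow_add,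
      Equiv.Perm.mul_apply, zpow_neg, Equiv.Perm.inv_eq_iff_eq]
  obtain ⟨n, hn'⟩ : ∃ n : ℤ, n = MulAction.period τ e := ⟨_, rfl⟩
  rw [← hn'] at key
  have n0 : 0 < n := by omega
  obtain ⟨m, hm | hm⟩ := Int.even_or_odd' n
  swap
  · exact absurd ((h3 m).trans ((key _ _).2 ⟨-1, by omega⟩)) (σ_ne _)
  have z : (τ ^ (0 : ℤ)) e = e := by simp
  refine ⟨(τ ^ m) e, ⟨(h2 m).trans ((key _ _).2 ⟨-1, by omega⟩), fun h => ?_, m, rfl⟩, ?_⟩
  · have := Int.le_of_dvd (by omega) ((key m 0).1 (h.trans z.symm))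
    omega
  · rintro _ ⟨a1, a2, k, rfl⟩
    obtain ⟨q, hq⟩ := (key k (-k)).1 (a1.symm.trans (h2 k))
    obtain ⟨t, ht | ht⟩ := Int.even_or_odd' q
    · exact absurd (((key k 0).2 ⟨t, by rw [ht] at hq; linarith⟩).trans z) a2
    · exact (key k m).2 ⟨t, by rw [ht] at hq; linarith⟩

/-- Threads exist. -/
theorem exists_thr (K : Type) {H : Type} [Fintype H] [DecidableEq H] (o ρ : H → H)
    (P : Finset H) (oo : ∀ h, o (o h) = h) (o_ne : ∀ h, o h ≠ h) (ρP : ∀ h ∈ P, ρ h ∈ P)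
    (ρρ : ∀ h ∈ P, ρ (ρ h) = h) (ρ_ne : ∀ h ∈ P, ρ h ≠ h) :
    ∃ (Λ : Type) (_ : Fintype Λ) (_ : DecidableEq Λ) (o₁ : H → H) (thr : H → Λ),
      Thr K o ρ P o₁ thr := by
  classical
  let ρ' : H → H := fun h => if h ∈ P then ρ h else h
  have ρ1 : ∀ h ∈ P, ρ' h = ρ h := fun h hh => if_pos hh
  have ρ2 : ∀ h ∉ P, ρ' h = h := fun h hh => if_neg hh
  have ρ3 : Function.Involutive ρ' := by
    intro h
    by_cases hh : h ∈ P
    · rw [ρ1 h hh, ρ1 _ (ρP h hh), ρρ h hh]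
    · rw [ρ2 h hh, ρ2 h hh]
  have ρ4 : ∀ h, ρ' h = h ↔ h ∉ P :=
    fun h => ⟨fun e hh => ρ_ne h hh ((ρ1 h hh).symm.trans e), ρ2 h⟩
  let r : Equiv.Perm H := ρ3.toPerm
  let σ : Equiv.Perm H := Function.Involutive.toPerm o oo
  have rr : r * r = 1 := Equiv.ext ρ3
  have σσ : σ * σ = 1 := Equiv.ext oo
  let rel : H → H → Prop := fun h h' => h' = o h ∨ h' = ρ' h
  have t0 : ∀ h, Quot.mk rel (o h) = Quot.mk rel h := fun h =>
    (Quot.sound (r := rel) (a := h) (Or.inl rfl)).symm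
  have t1 : ∀ h, Quot.mk rel (ρ' h) = Quot.mk rel h := fun h =>
    (Quot.sound (r := rel) (a := h) (Or.inr rfl)).symm
  have gen : ∀ {K' : Type} (f : H → K'), (∀ h, f (o h) = f h) → (∀ h, f (ρ' h) = f h) →
      ∀ h h', Quot.mk rel h = Quot.mk rel h' → f h = f h' := by
    intro K' f f0 f1 h h' e
    exact congrArg (Quot.lift f (by
      rintro a b (rfl | rfl)
      exacts [(f0 a).symm, (f1 a).symm])) e
  have t2 : ∀ h, Quot.mk rel ((r * σ) h) = Quot.mk rel h := fun h => (t1 _).trans (t0 h)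
  have t3 : ∀ (k : ℤ) h, Quot.mk rel (((r * σ) ^ k) h) = Quot.mk rel h := by
    intro k h
    induction k using Int.induction_on with
    | zero => rfl
    | succ k ih => rw [add_comm, zpow_one_add, Equiv.Perm.mul_apply, t2, ih]
    | pred k ih =>
      rw [← ih, ← t2, ← Equiv.Perm.mul_apply, ← zpow_one_add, add_sub_cancel]
  have ex : ∀ e, ∃ e', e ∉ P → (e' ∉ P ∧ e' ≠ e ∧ Quot.mk rel e' = Quot.mk rel e) ∧
      ∀ y, y ∉ P → y ≠ e → Quot.mk rel y = Quot.mk rel e → y = e' := by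
    intro e
    by_cases he : e ∈ P
    · exact ⟨e, fun h => absurd he h⟩
    obtain ⟨h2, h3, e', ⟨a1, a2, k, rfl⟩, hu⟩ := c8_ends r σ rr σσ o_ne (ρ2 e he)
    refine ⟨_, fun _ => ⟨⟨(ρ4 _).1 a1, a2, t3 k e⟩, fun y hy hne hq => hu y ⟨ρ2 y hy, hne, ?_⟩⟩⟩
    have inv : ∀ g : H → H, (∀ h, g (g h) = h) →
        (∀ k : ℤ, ∃ j : ℤ, g (((r * σ) ^ k) e) = ((r * σ) ^ j) e) →
        ∀ h, (∃ k : ℤ, ((r * σ) ^ k) e = g h) = ∃ k : ℤ, ((r * σ) ^ k) e = h := by
      intro g gg hg h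
      refine propext ⟨fun ⟨k, hk⟩ => ?_, fun ⟨k, hk⟩ => ?_⟩
      · obtain ⟨j, hj⟩ := hg k
        exact ⟨j, by rw [← hj, hk, gg]⟩
      · obtain ⟨j, hj⟩ := hg k
        exact ⟨j, by rw [← hj, hk]⟩
    have := gen (fun h => ∃ k : ℤ, ((r * σ) ^ k) e = h) (inv o oo fun k => ⟨_, h3 k⟩)
      (inv ρ' ρ3 fun k => ⟨_, h2 k⟩) y e hq
    exact this ▸ ⟨0, rfl⟩
  choose g hg using ex
  let o₁ : H → H := fun h => if h ∈ P then ρ h else g h
  have o1 : ∀ h ∈ P, o₁ h = ρ h := fun h hh => if_pos hh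
  have o2 : ∀ h ∉ P, o₁ h = g h := fun h hh => if_neg hh
  refine ⟨Quot rel, Fintype.ofSurjective _ Quot.mk_surjective, inferInstance, o₁, Quot.mk rel,
    ?_, ?_, o1, ?_, t0, ?_, Quot.mk_surjective, ?_, ?_⟩
  · intro h
    by_cases hh : h ∈ P
    · rw [o1 h hh, o1 _ (ρP h hh), ρρ h hh]
    · obtain ⟨⟨a1, a2, a3⟩, -⟩ := hg h hh
      rw [o2 h hh, o2 _ a1]
      exact ((hg _ a1).2 h hh a2.symm a3.symm).symm
  · intro h
    by_cases hh : h ∈ P
    · rw [o1 h hh]; exact ρ_ne h hh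
    · rw [o2 h hh]; exact (hg h hh).1.2.1
  · intro h hh
    rw [o2 h hh]; exact (hg h hh).1.1
  · intro h
    by_cases hh : h ∈ P
    · rw [o1 h hh, ← ρ1 h hh, t1]
    · rw [o2 h hh]; exact (hg h hh).1.2.2
  · intro f f0 f1
    refine gen f f0 fun h => ?_
    by_cases hh : h ∈ P
    · rw [ρ1 h hh, f1 h hh]
    · rw [ρ2 h hh]
  · intro e he e' he' hq
    by_cases hne : e' = e
    · exact Or.inl hne
    · exact Or.inr (((hg e he).2 e' he' hne hq.symm).trans (o2 e he).symm)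

end Pool.Agent.MP_8c1b0d_co

set_option autoImplicit false
set_option linter.unusedSectionVars false
open Finset Module

namespace Pool.Agent.MP_8c1b0d_co
namespace HS
variable {K H N B : Type} [Field K] [CharP K 2] [Fintype H] [DecidableEq H] [Fintype N]
  [DecidableEq N] [DecidableEq B] (s : HS K H N B)

/-- `A` is a set of split nodes: singleton classes of degree 4 with the pairing `ρ` -/
structure Spl (A : Finset N) (ρ : H → H) : Prop where
  cls : ∀ v ∈ A, s.bl v ∈ s.cls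
  sing : ∀ v ∈ A, ∀ v', s.bl v' = s.bl v → v' = v
  deg : ∀ v ∈ A, #{h | s.nd h = v} = 4
  nd : ∀ h, s.nd h ∈ A → s.nd (ρ h) = s.nd h
  ρρ : ∀ h, s.nd h ∈ A → ρ (ρ h) = h
  ne : ∀ h, s.nd h ∈ A → ρ h ≠ h
  inv : ∀ f ∈ s.T, ∀ h, s.nd h ∈ A → f (ρ h) = f h
  mem : ∀ h, s.nd h ∈ A → chi K {h, ρ h} ∈ s.T

/-- solutions are constant on threads (`gen`, `inv`, `t1`) -/
theorem thr_le {A : Finset N} {ρ : H → H} (sp : s.Spl A ρ) {Λ : Type} {o₁ : H → H} {thr : H → Λ}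
    (th : Thr K s.o ρ {h | s.nd h ∈ A} o₁ thr) : s.T ⊓ symm K s.o ≤ symm K o₁ := by
  intro f hf h
  exact th.gen f hf.2 (fun h hh => sp.inv f hf.1 h (mem_filter.1 hh).2) _ _ (th.t1 h)

theorem c9_card {A : Finset N} {ρ : H → H} (sp : s.Spl A ρ) : #{h | s.nd h ∈ A} = 4 * #A := by
  rw [card_eq_sum_card_fiberwise (f := s.nd) (s := {h | s.nd h ∈ A}) (t := A)
      fun h hh => by simpa using hh,
    sum_congr rfl fun v hv => show #{h ∈ ({h | s.nd h ∈ A} : Finset H) | s.nd h = v} = 4 by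
      rw [← sp.deg v hv]
      congr 1
      ext h
      simp only [mem_filter, mem_univ, true_and, and_iff_right_iff_imp]
      exact fun e => e ▸ hv, sum_const, smul_eq_mul, mul_comm]

theorem c9_cut {A : Finset N} {ρ : H → H} (sp : s.Spl A ρ) {f : H → K} (hf : f ∈ s.T) :
    cut ({h | s.nd h ∈ A} : Finset H)ᶜ f ∈ s.T := by
  have e : cut ({h | s.nd h ∈ A} : Finset H)ᶜ f = f - cut (s.HB (A.image s.bl)) f := by
    ext h
    have : h ∈ s.HB (A.image s.bl) ↔ s.nd h ∈ A := by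
      simp only [HB, mem_filter, mem_univ, true_and, mem_image]
      exact ⟨fun ⟨v, hv, e⟩ => sp.sing v hv _ e.symm ▸ hv, fun hh => ⟨_, hh, rfl⟩⟩
    simp only [cut_apply, Pi.sub_apply, this, mem_compl, mem_filter, mem_univ, true_and]
    by_cases hh : s.nd h ∈ A <;> simp [hh]
  rw [e]
  exact s.T.sub_mem hf (s.cut_HB_mem _ f hf)

theorem c9_pairs {A : Finset N} {ρ : H → H} (sp : s.Spl A ρ) {Λ : Type} {o₁ : H → H}
    {thr : H → Λ} (th : Thr K s.o ρ {h | s.nd h ∈ A} o₁ thr) :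
    ∃ J : Submodule K (H → K), J ≤ s.T ⊓ symm K o₁ ∧ J ≤ spt K {h | s.nd h ∈ A} ∧
      2 * #A ≤ finrank K J := by
  set e := Fintype.equivFin H
  set P₀ : Finset H := {h | s.nd h ∈ A ∧ e h < e (ρ h)} with hP₀
  have m0 : ∀ {h}, h ∈ P₀ ↔ s.nd h ∈ A ∧ e h < e (ρ h) := by simp [hP₀]
  have ρA : ∀ h, s.nd h ∈ A → s.nd (ρ h) ∈ A := fun h hh => (sp.nd h hh).symm ▸ hh
  have li : LinearIndependent K fun p : P₀ => chi K {p.1, ρ p.1} := by
    refine Fintype.linearIndependent_iff.2 fun g hg p => ?_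
    have := congrFun hg p.1
    rw [Finset.sum_apply, sum_eq_single p] at this
    · simpa [chi] using this
    · intro q _ hq
      have h1 : p.1 ≠ q.1 := fun e => hq (Subtype.ext e.symm)
      have h2 : p.1 ≠ ρ q.1 := fun e' => by
        have a := (m0.1 p.2).2
        rw [e', sp.ρρ _ (m0.1 q.2).1] at a
        exact lt_asymm a (m0.1 q.2).2
      simp [chi, h1, h2]
    · simp
  refine ⟨Submodule.span K (Set.range fun p : P₀ => chi K {p.1, ρ p.1}),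
    Submodule.span_le.2 ?_, Submodule.span_le.2 ?_, ?_⟩
  · rintro _ ⟨p, rfl⟩
    have hp := (m0.1 p.2).1
    refine ⟨sp.mem _ hp, fun h => ?_⟩
    have key : ∀ h, h ∈ ({p.1, ρ p.1} : Finset H) → o₁ h ∈ ({p.1, ρ p.1} : Finset H) := by
      intro h hh
      simp only [mem_insert, mem_singleton] at hh ⊢
      rcases hh with rfl | rfl
      · exact Or.inr (th.onP _ (by simpa using hp))
      · exact Or.inl ((th.onP _ (by simpa using ρA _ hp)).trans (sp.ρρ _ hp))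
    have : o₁ h ∈ ({p.1, ρ p.1} : Finset H) ↔ h ∈ ({p.1, ρ p.1} : Finset H) :=
      ⟨fun hh => th.oo h ▸ key _ hh, key h⟩
    simp only [chi, this]
  · rintro _ ⟨p, rfl⟩ h hh
    have hp := (m0.1 p.2).1
    have : h ∉ ({p.1, ρ p.1} : Finset H) := by
      simp only [mem_insert, mem_singleton]
      rintro (rfl | rfl)
      · exact hh (by simpa using hp)
      · exact hh (by simpa using ρA _ hp)
    simp only [chi, if_neg this]
  · rw [finrank_span_eq_card li, Fintype.card_coe]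
    have h1 : ({h | s.nd h ∈ A} : Finset H) ⊆ P₀ ∪ P₀.image ρ := fun h hh => by
      have hh' : s.nd h ∈ A := by simpa using hh
      rcases lt_trichotomy (e h) (e (ρ h)) with a | a | a
      · exact mem_union_left _ (m0.2 ⟨hh', a⟩)
      · exact absurd (e.injective a).symm (sp.ne h hh')
      · exact mem_union_right _ (mem_image.2
          ⟨ρ h, m0.2 ⟨ρA h hh', by rwa [sp.ρρ h hh']⟩, sp.ρρ h hh'⟩)
    have h2 := (card_le_card h1).trans (card_union_le _ _)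
    have h3 : #(P₀.image ρ) ≤ #P₀ := card_image_le
    rw [s.c9_card sp] at h2
    omega

open Classical in
/-- Plan: `P = {h | nd h ∈ A} = HB (A.image bl)` (`sing`), `#P = 4 * #A`. Rank-nullity for
`cut Pᶜ` on `T ⊓ symm o`: the image `I` lies in `T ⊓ symm o₁ ⊓ spt Pᶜ` (`cut_HB_mem`, `off`);
kernel elements factor through `thr` and vanish on the classes with a point off `P`, so the
kernel injects into the functions on the loops. `J = spt P ⊓ symm o₁` lies in `T` (a function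
in `J` is a combination of the `chi {h, ρ h}`; induction on the support, or choose a half of `P`)
and has dimension at least `#P / 2` (the indicators of the pairs are independent);
`I ⊓ J = ⊥`. -/
theorem thr_dim {A : Finset N} {ρ : H → H} (sp : s.Spl A ρ) {Λ : Type} [Fintype Λ]
    {o₁ : H → H} {thr : H → Λ} (th : Thr K s.o ρ {h | s.nd h ∈ A} o₁ thr) :
    s.γ + 2 * #A ≤ (s.setO o₁ th.oo th.ne (s.thr_le sp th)).γ +
      #{l : Λ | ∀ h, thr h = l → s.nd h ∈ A} := by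
  obtain ⟨J, hJ, hJP, hJd⟩ := s.c9_pairs sp th
  set P : Finset H := {h | s.nd h ∈ A} with hP
  have mP : ∀ {h}, h ∈ P ↔ s.nd h ∈ A := by simp [hP]
  set W : Submodule K (H → K) := s.T ⊓ symm K s.o with hW
  set φ := (cut (K := K) Pᶜ).domRestrict W with hφ
  have rn := φ.finrank_range_add_finrank_ker
  choose rep hrep using th.surj
  have hk : finrank K (LinearMap.ker φ) ≤ #{l : Λ | ∀ h, thr h = l → s.nd h ∈ A} := by
    let ψ : LinearMap.ker φ →ₗ[K] ({l : Λ // ∀ h, thr h = l → s.nd h ∈ A} → K) :=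
      LinearMap.pi fun l => LinearMap.proj (rep l.1) ∘ₗ W.subtype ∘ₗ (LinearMap.ker φ).subtype
    have hi : Function.Injective ψ := by
      intro f f' hf
      refine Subtype.ext (Subtype.ext (funext fun h => ?_))
      have cst := fun f : LinearMap.ker φ =>
        th.gen f.1.1 f.1.2.2 fun h hh => sp.inv _ f.1.2.1 h (mP.1 hh)
      by_cases hl : ∀ h', thr h' = thr h → s.nd h' ∈ A
      · exact ((cst f h (rep (thr h)) (hrep _).symm).trans (congrFun hf ⟨thr h, hl⟩)).trans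
          (cst f' h (rep (thr h)) (hrep _).symm).symm
      · push Not at hl
        obtain ⟨h', e, hh'⟩ := hl
        have z : ∀ f : LinearMap.ker φ, f.1.1 h = 0 := fun f => by
          have : cut Pᶜ f.1.1 h' = 0 := congrFun (LinearMap.mem_ker.1 f.2) h'
          rw [cut_apply, if_pos (mem_compl.2 (mt mP.1 hh'))] at this
          exact (cst f h h' e.symm).trans this
        rw [z, z]
    have := LinearMap.finrank_le_finrank_of_injective hi
    rwa [Module.finrank_fintype_fun_eq_card, Fintype.card_subtype] at this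
  have hI : LinearMap.range φ ≤ s.T ⊓ symm K o₁ := by
    rintro _ ⟨f, rfl⟩
    refine ⟨s.c9_cut sp f.2.1, fun h => ?_⟩
    have : o₁ h ∈ Pᶜ ↔ h ∈ Pᶜ := by
      simp only [mem_compl]
      exact ⟨fun a => th.oo h ▸ th.off _ a, th.off h⟩
    simp only [hφ, LinearMap.domRestrict_apply, cut_apply, this, s.thr_le sp th f.2 h]
  have hb : LinearMap.range φ ⊓ J = ⊥ := by
    refine eq_bot_iff.2 ?_
    rintro _ ⟨⟨f, rfl⟩, hf⟩
    refine funext fun h => ?_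
    by_cases hh : h ∈ P
    · rw [hφ, LinearMap.domRestrict_apply, cut_apply, if_neg (by simpa using hh)]
      rfl
    · exact hJP hf h hh
  have h1 := Submodule.finrank_sup_add_finrank_inf_eq (LinearMap.range φ) J
  rw [hb, finrank_bot] at h1
  have h2 := Submodule.finrank_mono (sup_le hI hJ)
  change finrank K W + 2 * #A ≤ finrank K (s.T ⊓ symm K o₁ : Submodule K (H → K)) + _
  omega

/-- THE CERTIFICATE. Plan: `exists_thr`, `cert0` for `s.setO o₁ ..` gives `Y₁ own D₁ F₁`. Let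
`Y = {y : Y₁ // ∃ v ∉ A, own v = y} ⊕ {l : Λ // loop}`, `D = D₁` off `A`, `F` = the `y` with
`y.1 ∈ F₁`. `lab h = some (inl (own (nd h)))` off `A`; on `A`: `some (inr l)` on a loop `l`;
if the thread has an end `e ∉ D₁` off `A` then `some (inl (own (nd e)))` (both ends give the
same by `ends` and `cert0`), else `none`. If `h` and `o h` are off `A` then `o h = o₁ h`
(`ends`, `t0`). `fl`: apply the flag of `cert0` to `cut (HB {b}) g`; nodes of `b` are not in `A`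
(`sing`), `g (o₁ h) = g h` by `gen`. Count: at most `#A` labels of `Y₁` are lost (`own` is onto),
so `card Y₁ ≤ card Y' + #A` and `#F₁ ≤ #F + #A`; `thr_dim`; `hc`, `nc`, `cls` do not change. -/
theorem cert {A : Finset N} {ρ : H → H} (sp : s.Spl A ρ)
    (inp : 3 + s.hc ≤ 2 * s.γ + 2 * s.nc + #s.cls) :
    ∃ (Y : Type) (_ : Fintype Y) (_ : DecidableEq Y), Nonempty (s.Cert A ρ Y) := by
  classical
  have ρA : ∀ h, s.nd h ∈ A → s.nd (ρ h) ∈ A := fun h hh => (sp.nd h hh).symm ▸ hh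
  obtain ⟨Λ, _, _, o₁, thr, th⟩ := exists_thr K s.o ρ {h | s.nd h ∈ A} s.oo s.o_ne
    (fun h hh => by simpa using ρA h (by simpa using hh))
    (fun h hh => sp.ρρ h (by simpa using hh)) fun h hh => sp.ne h (by simpa using hh)
  have hdim := s.thr_dim sp th
  obtain ⟨Y₁, _, _, own, D₁, F₁, hs, hD, hF, hc⟩ := (s.setO o₁ th.oo th.ne (s.thr_le sp th)).cert0
  replace hD : ∀ h ∉ D₁, o₁ h ∉ D₁ ∧ own (s.nd (o₁ h)) = own (s.nd h) := hD
  replace hF : ∀ y ∈ F₁, ∃ b ∈ s.cls, (∀ v, own v = y ↔ s.bl v = b) ∧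
      ∀ f ∈ symm K o₁, f ∈ spt K (s.HB {b}) → (∀ h ∈ D₁, f h = 0) →
        (∀ v, chi K {h | s.nd h = v} ⬝ᵥ f = 0) → f ∈ s.T := hF
  replace hc : 4 * (s.setO o₁ th.oo th.ne (s.thr_le sp th)).γ + #D₁ + 4 * s.nc + 2 * #s.cls ≤
      2 * s.hc + 4 * Fintype.card Y₁ + 2 * #F₁ := hc
  have ends : ∀ e e', s.nd e ∉ A → s.nd e' ∉ A → thr e = thr e' → e' = e ∨ e' = o₁ e :=
    fun e e' h h' => th.ends e (by simpa using h) e' (by simpa using h')
  let Y' := {y : Y₁ // ∃ v ∉ A, own v = y}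
  let L := {l : Λ // ∀ h, thr h = l → s.nd h ∈ A}
  let lt : Λ → Option (Y' ⊕ L) := fun l =>
    if hl : ∀ h, thr h = l → s.nd h ∈ A then some (.inr ⟨l, hl⟩)
    else if he : ∃ e, thr e = l ∧ s.nd e ∉ A ∧ e ∉ D₁ then
      some (.inl ⟨own (s.nd he.choose), _, he.choose_spec.2.1, rfl⟩) else none
  let lab : H → Option (Y' ⊕ L) := fun h =>
    if hA : s.nd h ∈ A then lt (thr h) else some (.inl ⟨own (s.nd h), _, hA, rfl⟩)
  have l0 : ∀ h, s.nd h ∈ A → lab h = lt (thr h) := fun h hA => dif_pos hA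
  have l1 : ∀ h (hA : s.nd h ∉ A), lab h = some (.inl ⟨own (s.nd h), _, hA, rfl⟩) :=
    fun h hA => dif_neg hA
  have k1 : ∀ e, s.nd e ∉ A → e ∉ D₁ → lab e = lt (thr e) := fun e hA hD' => by
    have he : ∃ e', thr e' = thr e ∧ s.nd e' ∉ A ∧ e' ∉ D₁ := ⟨e, rfl, hA, hD'⟩
    have : own (s.nd he.choose) = own (s.nd e) := by
      rcases ends e _ hA he.choose_spec.2.1 he.choose_spec.1.symm with a | a
      · rw [a]
      · rw [a, (hD e hD').2]
    simp only [l1 e hA, lt, dif_neg (fun hl : ∀ h, thr h = thr e → s.nd h ∈ A => hA (hl e rfl)),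
      dif_pos he, this]
  have k2 : ∀ e y, lt (thr e) = some y → s.nd e ∉ A → e ∉ D₁ := fun e y hy hA => by
    simp only [lt, dif_neg (fun hl : ∀ h, thr h = thr e → s.nd h ∈ A => hA (hl e rfl))] at hy
    by_cases he : ∃ e', thr e' = thr e ∧ s.nd e' ∉ A ∧ e' ∉ D₁
    · obtain ⟨e', a1, a2, a3⟩ := he
      rcases ends e' e a2 hA a1 with a | a
      · rwa [a]
      · rw [a]
        exact (hD e' a3).1
    · rw [dif_neg he] at hy
      exact absurd hy (by simp)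
  refine ⟨Y' ⊕ L, inferInstance, inferInstance, ⟨⟨lab, {h ∈ D₁ | s.nd h ∉ A},
    ({y : Y' | y.1 ∈ F₁} : Finset Y').map Function.Embedding.inl, ?_, ?_, ?_, ?_, ?_, ?_, ?_, ?_⟩⟩⟩
  · rintro (⟨_, v, hv, rfl⟩ | ⟨l, hl⟩)
    · obtain ⟨h, rfl⟩ := s.nd_surj v
      exact ⟨h, l1 h hv⟩
    · obtain ⟨h, rfl⟩ := th.surj l
      exact ⟨h, (l0 h (hl h rfl)).trans (dif_pos hl)⟩
  · intro h hA
    rw [l1 h hA]
    simp
  · intro h h' hA e
    rw [l1 h hA, l1 h' (e ▸ hA)]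
    simp only [e]
  · intro h hA
    rw [l0 h hA, l0 _ (ρA h hA), ← th.onP h (by simpa using hA), th.t1]
  · exact fun h hh => (mem_filter.1 hh).2
  · intro h y hy hh
    have a1 : lt (thr (s.o h)) = some y := by
      rw [th.t0, ← hy]
      by_cases hA : s.nd h ∈ A
      · exact (l0 h hA).symm
      · exact (k1 h hA fun a => hh (mem_filter.2 ⟨a, hA⟩)).symm
    by_cases hA : s.nd (s.o h) ∈ A
    · exact ⟨(l0 _ hA).trans a1, fun a => (mem_filter.1 a).2 hA⟩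
    · have a2 := k2 _ y a1 hA
      exact ⟨(k1 _ hA a2).trans a1, fun a => a2 (mem_filter.1 a).1⟩
  · intro y hy
    obtain ⟨y, hy', rfl⟩ := mem_map.1 hy
    obtain ⟨b, hb, h1, h2⟩ := hF y.1 (mem_filter.1 hy').2
    obtain ⟨v₀, hv₀, e₀⟩ := y.2
    have b0 := (h1 v₀).1 e₀
    have nA : ∀ v, s.bl v = b → v ∉ A := fun v e hv =>
      hv₀ (sp.sing v hv v₀ (b0.trans e.symm) ▸ hv)
    have iff : ∀ h, s.nd h ∉ A →
        (lab h = some (Function.Embedding.inl y) ↔ s.bl (s.nd h) = b) := fun h hA => by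
      rw [l1 h hA, ← h1]
      exact ⟨fun e => congrArg Subtype.val (Sum.inl.inj (Option.some.inj e)),
        fun e => congrArg (fun z => some (Sum.inl z)) (Subtype.ext e)⟩
    refine ⟨b, hb, ⟨v₀, hv₀, b0⟩, iff, fun g g1 g2 g3 g4 => h2 _ (fun h => ?_) (fun h hh => ?_)
      (fun h hh => ?_) fun v => ?_⟩
    · have a1 : g (o₁ h) = g h :=
        th.gen g g1 (fun h hh => g2 h (by simpa using hh)) _ _ (th.t1 h)
      simp only [cut_apply, mem_filter, mem_univ, true_and, a1]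
      by_cases h0 : g h = 0
      · simp [h0]
      by_cases hA : s.nd h ∈ A
      · rw [th.onP h (by simpa using hA), sp.nd h hA]
      · have hA' : s.nd (o₁ h) ∉ A := by simpa using th.off h (by simpa using hA)
        rw [if_pos ((iff h hA).1 (g3 h h0).1), if_pos ((iff _ hA').1 (g3 _ (a1 ▸ h0)).1)]
    · rw [cut_apply, if_neg (by simpa [HB] using hh)]
    · rw [cut_apply]
      split_ifs with a
      · by_contra h0
        exact (g3 h h0).2 (mem_filter.2 ⟨hh, nA _ (mem_filter.1 a).2⟩)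
      · rfl
    · by_cases hv : s.bl v = b
      · rw [← g4 v]
        refine sum_congr rfl fun h _ => ?_
        by_cases e : s.nd h = v
        · rw [cut_apply, if_pos (by simp [e, hv])]
        · simp [chi, e]
      · refine sum_eq_zero fun h _ => ?_
        by_cases e : s.nd h = v
        · rw [cut_apply, if_neg (by simp [e, hv]), mul_zero]
        · simp [chi, e]
  · have good : ∀ y : Y₁, (∃ v ∉ A, own v = y) ∨ y ∈ A.image own := fun y => by
      obtain ⟨v, rfl⟩ := hs y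
      by_cases hv : v ∈ A
      · exact Or.inr (mem_image_of_mem _ hv)
      · exact Or.inl ⟨v, hv, rfl⟩
    have c0 : #(A.image own) ≤ #A := card_image_le
    have key : ∀ S : Finset Y₁, #S ≤ #{y : Y' | y.1 ∈ S} + #A := fun S => by
      have : S ⊆ ({y : Y' | y.1 ∈ S} : Finset Y').image Subtype.val ∪ A.image own := fun y hy =>
        (good y).elim (fun a => mem_union_left _ (mem_image.2 ⟨⟨y, a⟩, by simpa using hy, rfl⟩))
          (mem_union_right _)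
      have c1 := (card_le_card this).trans (card_union_le _ _)
      have c2 : #(({y : Y' | y.1 ∈ S} : Finset Y').image Subtype.val) ≤ #{y : Y' | y.1 ∈ S} :=
        card_image_le
      omega
    have c1 := key F₁
    have c2 := key univ
    have c3 : #{y : Y' | y.1 ∈ (univ : Finset Y₁)} ≤ Fintype.card Y' := card_le_univ _
    have c4 : #{h ∈ D₁ | s.nd h ∉ A} ≤ #D₁ := card_filter_le _ _
    have c5 : #{l : Λ | ∀ h, thr h = l → s.nd h ∈ A} ≤ Fintype.card L := by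
      rw [Fintype.card_subtype]
    rw [card_univ] at c2
    rw [card_map, Fintype.card_sum]
    have c6 : s.γ + 2 * #A ≤ (s.setO o₁ th.oo th.ne (s.thr_le sp th)).γ +
        #{l : Λ | ∀ h, thr h = l → s.nd h ∈ A} := hdim.trans_eq (by congr)
    omega

end HS
end Pool.Agent.MP_8c1b0d_co
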