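import Pool.Agent.MP_8c1b0d_co.Geo

set_option autoImplicit false
set_option linter.unusedSectionVars false
open Finset Module

namespace Pool.Agent.MP_8c1b0d_co

/-- a properly 3-edge-coloured simple cubic graph: the colour classes as involutions -/
structure Tri (V : Type) where
  x : V → V
  y : V → V
  m : V → V
  xx : ∀ v, x (x v) = v
  yy : ∀ v, y (y v) = v
  mm : ∀ v, m (m v) = v
  x_ne : ∀ v, x v ≠ v
  y_ne : ∀ v, y v ≠ v
  m_ne : ∀ v, m v ≠ v
  xy : ∀ v, x v ≠ y v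
  xm : ∀ v, x v ≠ m v
  ym : ∀ v, y v ≠ m v

namespace Tri
variable {V : Type} (t : Tri V)

/-- `false` is `x`, `true` is `y` -/
def col (c : Bool) (v : V) : V := cond c (t.y v) (t.x v)
/-- the other half of a half-edge `(v, c)` = the `c`-edge at `v` -/
def o (h : V × Bool) : V × Bool := (t.col h.2 h.1, h.2)
def Adj (u v : V) : Prop := v = t.x u ∨ v = t.y u ∨ v = t.m u
/-- `v` lies on a hexagon whose edges alternate between `m` and the colour `c` -/
def Alt (v : V) (c : Bool) : Prop :=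
  t.col c (t.m (t.col c (t.m (t.col c (t.m v))))) = v

variable [Fintype V] [DecidableEq V]

/-- number of edges leaving `S` -/
def cut (S : Finset V) : ℕ :=
  #{v ∈ S | t.x v ∉ S} + #{v ∈ S | t.y v ∉ S} + #{v ∈ S | t.m v ∉ S}
def C5 : Prop := ∀ S : Finset V, 3 ≤ #S → 3 ≤ #Sᶜ → 5 ≤ t.cut S
def hex (v : V) (c : Bool) : Finset V :=
  {v, t.m v, t.col c (t.m v), t.m (t.col c (t.m v)), t.col c (t.m (t.col c (t.m v))),
    t.m (t.col c (t.m (t.col c (t.m v))))}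
/-- no nontrivial active triple -/
def NoAct : Prop := ∀ P : Finset (V × Bool), (∀ h ∈ P, t.o h ∈ P) →
  (∀ v c, (v, c) ∈ P → (t.m v, c) ∈ P) →
  #{v | ¬ ((v, false) ∈ P ↔ (v, true) ∈ P)} = 6 →
  (∀ v, ¬ ((v, false) ∈ P ∧ (v, true) ∈ P)) ∨ ∀ v, (v, false) ∈ P ∨ (v, true) ∈ P

/-- the certificate produced by the min-max theorem, on the real graph -/
structure RC (Y : Type) [Fintype Y] [DecidableEq Y] where
  A0 : Finset V
  A1 : Finset V
  lab : V × Bool → Option Y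
  D : Finset (V × Bool)
  F : Finset Y
  m0 : ∀ v ∈ A0, t.m v ∈ A0
  m1 : ∀ v ∈ A1, t.m v ∈ A1
  disj : Disjoint A0 A1
  surj : ∀ y, ∃ h, lab h = some y
  l0 : ∀ v ∉ A1, lab (v, true) = lab (v, false)
  l1 : ∀ v ∉ A0, ∀ c, lab (t.m v, c) = lab (v, c)
  lX : ∀ v ∉ A0 ∪ A1, lab (v, false) ≠ none
  dX : ∀ h ∈ D, h.1 ∉ A0 ∪ A1
  cl : ∀ h y, lab h = some y → h ∉ D → lab (t.o h) = some y ∧ t.o h ∉ D
  big : ∀ y ∈ F, 6 ≤ #{v | v ∉ A0 ∪ A1 ∧ lab (v, false) = some y}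
  ori : ∀ y ∈ F, ∃ d : V × Bool → Bool, (∀ v ∉ A1, d (v, true) ≠ d (v, false)) ∧
    (∀ v ∉ A0, ∀ c, d (t.m v, c) ≠ d (v, c)) ∧
    ∀ h, lab h = some y → h ∉ D → d (t.o h) ≠ d h
  hexa : ∀ v c, t.Alt v c → ∃ u ∈ t.hex v c, ∃ c', t.Alt u c' ∧
    ∀ w ∈ t.hex u c', w ∉ A0 ∪ A1 ∧ lab (w, false) = lab (u, false)
  cnt : 6 + #D + #A0 + #A1 ≤ 4 * Fintype.card Y + 2 * #F

end Tri

def ColF.tri {V Φ : Type} (c : ColF V Φ) (g : c.Geo) : Tri V :=
  ⟨c.x, c.y, c.m, c.xx, c.yy, c.mm, c.x_ne, c.y_ne, g.m_ne, g.xy, g.xm, g.ym⟩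

end Pool.Agent.MP_8c1b0d_co

set_option autoImplicit false
set_option linter.unusedSectionVars false
open Finset

namespace Pool.Agent.MP_8c1b0d_co

namespace Tri
variable {V : Type} (t : Tri V)

/-- the neighbour along the colour `k`; `none` is `m` -/
def nb : Option Bool → V → V
  | none => t.m
  | some c => t.col c

@[simp] lemma nb_none : t.nb none = t.m := rfl
@[simp] lemma nb_some (c : Bool) : t.nb (some c) = t.col c := rfl

variable [Fintype V] [DecidableEq V]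

/-- half-edges that leave `S` -/
def bd (S : Finset V) : Finset (V × Option Bool) := {h | h.1 ∈ S ∧ t.nb h.2 h.1 ∉ S}

/-- a subgraph on the vertex set `S`; `B` = the half-edges at `S` that do not belong to it -/
structure Sub (S : Finset V) (B : Finset (V × Option Bool)) : Prop where
  mem : ∀ h ∈ B, h.1 ∈ S
  cl : ∀ v ∈ S, ∀ k, (v, k) ∉ B → t.nb k v ∈ S ∧ (t.nb k v, k) ∉ B

/-- the subgraph is connected -/
def Con (S : Finset V) (B : Finset (V × Option Bool)) : Prop :=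
  ∀ W ⊆ S, (∀ v ∈ W, ∀ k, (v, k) ∉ B → t.nb k v ∈ W) → W = ∅ ∨ W = S

/-- every vertex of `S` has two neighbours in `S` -/
def Deg2 (S : Finset V) : Prop := ∀ v ∈ S, ∃ k k', k ≠ k' ∧ t.nb k v ∈ S ∧ t.nb k' v ∈ S

structure OK : Prop where
  big : 6 < Fintype.card V
  c5 : t.C5

/-- one label of the certificate: a closed set `P` of half-edges, `D` its cut half-edges -/
structure Cl where
  A0 : Finset V
  A1 : Finset V
  P : Finset (V × Bool)
  D : Finset (V × Bool)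
  m0 : ∀ v ∈ A0, t.m v ∈ A0
  m1 : ∀ v ∈ A1, t.m v ∈ A1
  disj : Disjoint A0 A1
  l0 : ∀ v ∉ A1, ((v, true) ∈ P ↔ (v, false) ∈ P)
  l1 : ∀ v ∉ A0, ∀ c, ((t.m v, c) ∈ P ↔ (v, c) ∈ P)
  dX : ∀ h ∈ D, h.1 ∉ A0 ∧ h.1 ∉ A1
  dP : D ⊆ P
  cl : ∀ h ∈ P, h ∉ D → t.o h ∈ P ∧ t.o h ∉ D
  hexa : ∀ v c, t.Alt v c → ∃ u ∈ t.hex v c, ∃ c', t.Alt u c' ∧
    ∀ w ∈ t.hex u c', w ∉ A0 ∧ w ∉ A1 ∧ ((w, false) ∈ P ↔ (u, false) ∈ P)

namespace Cl
variable {t} (a : t.Cl)
/-- unsplit vertices -/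
def X : Finset V := {v | v ∉ a.A0 ∧ v ∉ a.A1 ∧ (v, false) ∈ a.P}
def U0 : Finset V := {v ∈ a.A0 | (v, false) ∈ a.P}
def U1 : Finset V := {v | ¬ ((v, false) ∈ a.P ↔ (v, true) ∈ a.P)}
def U2 : Finset V := {v ∈ a.A1 | (v, false) ∈ a.P ∧ (v, true) ∈ a.P}
def Sp : Finset V := {v | (v, false) ∈ a.P ∨ (v, true) ∈ a.P}
def Sm : Finset V := {v | (v, false) ∈ a.P ∧ (v, true) ∈ a.P}
/-- twice the weight -/
def w2 : ℕ := 2 * #a.D + 2 * #a.U0 + #a.U1 + 2 * #a.U2
/-- dangling half-edges -/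
def dang : Finset (V × Option Bool) :=
  {h | (h.2 = none ∧ h.1 ∈ a.U0) ∨ ∃ c, h.2 = some c ∧
    ((h.1, c) ∈ a.D ∨ ((h.1, c) ∉ a.P ∧ (h.1, !c) ∈ a.P))}
/-- half-edges of strands -/
def PH : Finset (V × Bool) := {h ∈ a.P | h.1 ∉ a.X}
/-- the other half-edge of the strand -/
def ρ (h : V × Bool) : V × Bool := if h.1 ∈ a.A0 then (h.1, !h.2) else (t.m h.1, h.2)
/-- strands with both ends in `S` -/
def M0 (S : Finset V) : Finset V := {u ∈ a.U0 | ∀ c, t.col c u ∈ S}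
def M1 (S : Finset V) : Finset V :=
  {u ∈ a.U1 | ∀ c, (u, c) ∈ a.P → t.col c u ∈ S ∧ t.col c (t.m u) ∈ S}
end Cl

end Tri

/-- a plane, cyclically 5-connected, 3-edge-coloured cubic graph -/
structure PG (V Φ : Type) [Fintype V] [DecidableEq V] [Fintype Φ] where
  c : ColF V Φ
  g : c.Geo
  euler : 2 * Fintype.card Φ = Fintype.card V + 4
  ok : (c.tri g).OK

namespace PG
variable {V Φ : Type} [Fintype V] [DecidableEq V] [Fintype Φ] [DecidableEq Φ] (p : PG V Φ)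

def t : Tri V := p.c.tri p.g

/-- the face at `v` opposite to the edge of colour `k` -/
def op : Option Bool → V → Φ
  | none => p.c.fm
  | some false => p.c.fx
  | some true => p.c.fy

/-- corners of a face -/
def cor (φ : Φ) : Finset V := {v | ∃ k, p.op k v = φ}
/-- the half-edge `h` lies on the face `φ` -/
def Al (φ : Φ) (h : V × Option Bool) : Prop := ∃ k, k ≠ h.2 ∧ p.op k h.1 = φ
instance (φ : Φ) : DecidablePred (p.Al φ) := fun h => by unfold Al; infer_instance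
/-- the half-edges of `B` on `φ` -/
def cr (B : Finset (V × Option Bool)) (φ : Φ) : Finset (V × Option Bool) := {h ∈ B | p.Al φ h}

/-- a flagged label of weight at most 5 -/
structure Fl extends p.t.Cl where
  na : p.t.NoAct
  ε : V × Bool → Bool
  e0 : ∀ v ∉ A1, ε (v, true) = ε (v, false)
  e1 : ∀ v ∉ A0, ∀ c, ε (p.t.m v, c) ≠ ε (v, c)
  e2 : ∀ h ∈ P, h ∉ D → ε (p.t.o h) ≠ ε h
  big : 6 ≤ #(toCl.X)
  light : toCl.w2 ≤ 11

end PG

end Pool.Agent.MP_8c1b0d_co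

set_option autoImplicit false
set_option linter.unusedSectionVars false
open Finset

namespace Pool.Agent.MP_8c1b0d_co

/-- e.g. `Finset.sum_involution` in `ZMod 2`, or induction -/
lemma even_card_inv {α : Type} (f : α → α) (S : Finset α) (h1 : ∀ a ∈ S, f a ∈ S)
    (h2 : ∀ a ∈ S, f (f a) = a) (h3 : ∀ a ∈ S, f a ≠ a) : Even #S := by
  have := Finset.sum_involution (s := S) (f := fun _ => (1 : ZMod 2)) (fun a _ => f a)
    (fun _ _ => by decide) (fun a ha _ => h3 a ha) h1 h2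
  rw [Finset.sum_const, nsmul_eq_mul, mul_one] at this
  exact (ZMod.natCast_eq_zero_iff_even).1 this

namespace Tri
variable {V : Type} (t : Tri V)

@[simp] lemma col_col (c : Bool) (v : V) : t.col c (t.col c v) = v := by
  cases c
  · exact t.xx v
  · exact t.yy v
@[simp] lemma o_o (h : V × Bool) : t.o (t.o h) = h := by
  simp [o]
lemma o_ne (h : V × Bool) : t.o h ≠ h := by
  obtain ⟨v, c⟩ := h
  intro e
  have := congrArg Prod.fst e
  cases c
  · exact t.x_ne v this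
  · exact t.y_ne v this
@[simp] lemma nb_nb (k : Option Bool) (v : V) : t.nb k (t.nb k v) = v := by
  rcases k with _ | _ | _
  · exact t.mm v
  · exact t.xx v
  · exact t.yy v
lemma nb_ne (k : Option Bool) (v : V) : t.nb k v ≠ v := by
  rcases k with _ | _ | _
  · exact t.m_ne v
  · exact t.x_ne v
  · exact t.y_ne v
lemma nb_inj {k k' : Option Bool} {v : V} (h : t.nb k v = t.nb k' v) : k = k' := by
  rcases k with _ | _ | _ <;> rcases k' with _ | _ | _ <;>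
    first
    | rfl
    | exact absurd h (t.xy v)
    | exact absurd h (t.xm v)
    | exact absurd h (t.ym v)
    | exact absurd h.symm (t.xy v)
    | exact absurd h.symm (t.xm v)
    | exact absurd h.symm (t.ym v)
lemma adj_iff (u v : V) : t.Adj u v ↔ ∃ k, v = t.nb k u := by
  constructor
  · rintro (h | h | h)
    · exact ⟨some false, h⟩
    · exact ⟨some true, h⟩
    · exact ⟨none, h⟩
  · rintro ⟨_ | _ | _, h⟩
    · exact Or.inr (Or.inr h)
    · exact Or.inl h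
    · exact Or.inr (Or.inl h)

variable [Fintype V] [DecidableEq V]

lemma mem_bd {S : Finset V} {v : V} {k : Option Bool} :
    (v, k) ∈ t.bd S ↔ v ∈ S ∧ t.nb k v ∉ S := by
  simp [bd]
lemma cut_eq (S : Finset V) : t.cut S = #(t.bd S) := by
  have e : ∀ f : V → V, #{v ∈ S | f v ∉ S} = ∑ v, if v ∈ S ∧ f v ∉ S then 1 else 0 := fun f => by
    rw [← card_filter]
    congr 1
    ext v
    simp
  rw [cut, bd, e, e, e, card_filter, Fintype.sum_prod_type_right, Fintype.sum_option,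
    Fintype.sum_bool]
  change _ = (∑ v, if v ∈ S ∧ t.m v ∉ S then 1 else 0) +
    ((∑ v, if v ∈ S ∧ t.y v ∉ S then 1 else 0) + ∑ v, if v ∈ S ∧ t.x v ∉ S then 1 else 0)
  omega
/-- the bijection `(v, k) ↦ (nb k v, k)` -/
lemma cut_compl (S : Finset V) : t.cut Sᶜ = t.cut S := by
  rw [cut_eq, cut_eq]
  refine card_bij' (fun h _ => (t.nb h.2 h.1, h.2)) (fun h _ => (t.nb h.2 h.1, h.2)) ?_ ?_ ?_ ?_
  · rintro ⟨v, k⟩ h
    rw [mem_bd] at h ⊢
    simpa [and_comm] using h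
  · rintro ⟨v, k⟩ h
    rw [mem_bd] at h ⊢
    simpa [and_comm] using h
  · rintro ⟨v, k⟩ _
    simp
  · rintro ⟨v, k⟩ _
    simp
lemma sub_bd (S : Finset V) : t.Sub S (t.bd S) := by
  refine ⟨fun h hh => (t.mem_bd.1 hh).1, fun v hv k hk => ?_⟩
  rw [mem_bd] at hk ⊢
  have : t.nb k v ∈ S := by tauto
  simp [this, hv]
lemma Sub.cut_le {S : Finset V} {B : Finset (V × Option Bool)} (h : t.Sub S B) :
    t.cut S ≤ #B := by
  rw [cut_eq]
  refine card_le_card fun d hd => ?_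
  obtain ⟨v, k⟩ := d
  rw [mem_bd] at hd
  by_contra hc
  exact hd.2 (h.cl v hd.1 k hc).1
/-- the half-edges at `S` outside `B` are paired; there are `3 * #S` half-edges at `S` -/
lemma Sub.parity {S : Finset V} {B : Finset (V × Option Bool)} (h : t.Sub S B) :
    #B % 2 = #S % 2 := by
  have hB : B ⊆ S ×ˢ univ := fun d hd => by simpa using h.mem d hd
  have h1 : Even #((S ×ˢ univ) \ B) :=
    even_card_inv (fun d => (t.nb d.2 d.1, d.2)) _ (fun d hd => by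
      simp only [mem_sdiff, mem_product, mem_univ, and_true] at hd ⊢
      exact h.cl d.1 hd.1 d.2 hd.2) (fun d _ => by simp)
      fun d _ e => t.nb_ne d.2 d.1 (congrArg Prod.fst e)
  have h2 := card_sdiff_add_card_eq_card hB
  rw [card_product, card_univ, show Fintype.card (Option Bool) = 3 from rfl] at h2
  obtain ⟨r, hr⟩ := h1
  omega
lemma even_card {S : Finset V} (h : ∀ v ∈ S, t.m v ∈ S) : Even #S := 
  even_card_inv t.m S h (fun v _ => t.mm v) fun v _ => t.m_ne v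
lemma even_cut {S : Finset V} (h : ∀ v ∈ S, t.m v ∈ S) : Even (t.cut S) := by
  have h1 := (t.sub_bd S).parity
  rw [cut_eq, Nat.even_iff, h1, ← Nat.even_iff]
  exact t.even_card h
/-- for an `m`-closed set only `x`- and `y`-edges leave -/
lemma cut_eq_of_m {S : Finset V} (h : ∀ v ∈ S, t.m v ∈ S) :
    t.cut S = #{d : V × Bool | d.1 ∈ S ∧ (t.o d).1 ∉ S} := by
  rw [cut_eq]
  symm
  refine card_bij (fun d _ => (d.1, some d.2)) ?_ ?_ ?_
  · intro d hd
    rw [mem_bd]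
    exact (mem_filter.1 hd).2
  · intro a _ b _ e
    simp only [Prod.mk.injEq, Option.some.injEq] at e
    exact Prod.ext e.1 e.2
  · rintro ⟨v, _ | c⟩ hd
    · rw [mem_bd] at hd
      exact absurd (h v hd.1) hd.2
    · rw [mem_bd] at hd
      exact ⟨(v, c), mem_filter.2 ⟨mem_univ _, hd⟩, rfl⟩
lemma cut_split {S W : Finset V} (hW : W ⊆ S) (h : ∀ v ∈ W, ∀ k, t.nb k v ∈ S → t.nb k v ∈ W) :
    t.cut S = t.cut W + t.cut (S \ W) := by
  rw [cut_eq, cut_eq, cut_eq, ← card_union_of_disjoint]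
  · congr 1
    ext ⟨v, k⟩
    simp only [mem_union, mem_bd, mem_sdiff]
    have h1 := h v
    have h2 := h (t.nb k v)
    have h3 := @hW v
    have h4 := @hW (t.nb k v)
    constructor
    · rintro ⟨a, b⟩
      by_cases c : v ∈ W
      · exact Or.inl ⟨c, fun d => b (h4 d)⟩
      · exact Or.inr ⟨⟨a, c⟩, fun d => b d.1⟩
    · rintro (⟨a, b⟩ | ⟨⟨a, b⟩, c⟩)
      · exact ⟨h3 a, fun d => b (h1 a k d)⟩
      · refine ⟨a, fun d => c ⟨d, fun e => b ?_⟩⟩
        simpa using h2 e k (by simpa using a)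
  · refine disjoint_left.2 ?_
    rintro ⟨v, k⟩ a b
    rw [mem_bd] at a b
    exact (mem_sdiff.1 b.1).2 a.1

lemma f1_sum (S : Finset V) : t.cut S = ∑ v ∈ S, #{k | t.nb k v ∉ S} := by
  rw [cut_eq, card_eq_sum_card_fiberwise (f := Prod.fst) (t := S)
    fun d hd => (t.mem_bd.1 (show (d.1, d.2) ∈ t.bd S from hd)).1]
  refine sum_congr rfl fun v hv => ?_
  symm
  refine card_bij (fun k _ => (v, k)) ?_ ?_ ?_
  · intro k hk
    simpa [mem_bd, hv] using hk
  · intro a _ b _ e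
    exact congrArg Prod.snd e
  · rintro ⟨w, k⟩ hd
    simp only [mem_filter, mem_bd] at hd
    obtain ⟨h1, rfl⟩ := hd
    exact ⟨k, by simpa using h1.2, rfl⟩

lemma f1_one {S : Finset V} (h : t.Deg2 S) {v : V} (hv : v ∈ S) : #{k | t.nb k v ∉ S} ≤ 1 := by
  obtain ⟨k, k', hk, h1, h2⟩ := h v hv
  have : ({k | t.nb k v ∉ S} : Finset (Option Bool)) ⊆ (univ.erase k).erase k' := fun l hl => by
    simp only [mem_filter, mem_univ, true_and] at hl
    simp only [mem_erase, mem_univ, and_true]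
    exact ⟨fun e => hl (e ▸ h2), fun e => hl (e ▸ h1)⟩
  refine (card_le_card this).trans ?_
  rw [card_erase_of_mem (by simp [hk.symm]), card_erase_of_mem (mem_univ _)]
  rfl

lemma Deg2.cut_le {S : Finset V} (h : t.Deg2 S) : t.cut S ≤ #S := by
  rw [f1_sum, card_eq_sum_ones]
  exact sum_le_sum fun v hv => t.f1_one h hv
/-- if equality holds every vertex has exactly one neighbour outside -/
lemma Deg2.leg {S : Finset V} (h : t.Deg2 S) (e : #S ≤ t.cut S) :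
    ∀ v ∈ S, ∃ k, t.nb k v ∉ S ∧ ∀ k', k' ≠ k → t.nb k' v ∈ S := by
  rw [f1_sum, card_eq_sum_ones] at e
  have h1 := (sum_eq_sum_iff_of_le fun v hv => t.f1_one h hv).1
    (le_antisymm (sum_le_sum fun v hv => t.f1_one h hv) e)
  intro v hv
  obtain ⟨k, hk⟩ := card_eq_one.1 (h1 v hv)
  have h2 : ∀ l, t.nb l v ∉ S ↔ l = k := fun l => by
    have := congrArg (l ∈ ·) hk
    simpa using this
  exact ⟨k, (h2 k).2 rfl, fun l hl => by_contra fun c => hl ((h2 l).1 c)⟩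

lemma f1_small {S : Finset V} (h1 : S.Nonempty) (h2 : #S ≤ 2) : #S + 2 ≤ t.cut S := by
  have key : ∀ v ∈ S, 4 - #S ≤ #{k | t.nb k v ∉ S} := by
    intro v hv
    have e1 := card_filter_add_card_filter_not (s := (univ : Finset (Option Bool)))
      fun k => t.nb k v ∈ S
    have e2 : #{k | t.nb k v ∈ S} ≤ #(S.erase v) :=
      card_le_card_of_injOn (fun k => t.nb k v) (fun k hk => by
        simp only [coe_filter, mem_univ, true_and, Set.mem_ofPred_eq] at hk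
        simp [hk, t.nb_ne]) fun a _ b _ e => t.nb_inj e
    rw [card_erase_of_mem hv] at e2
    rw [card_univ, show Fintype.card (Option Bool) = 3 from rfl] at e1
    have := card_pos.2 h1
    omega
  have h3 := card_nsmul_le_sum S _ _ key
  rw [← f1_sum, smul_eq_mul] at h3
  have := card_pos.2 h1
  obtain e | e : #S = 1 ∨ #S = 2 := by omega
  all_goals rw [e] at h3 ⊢; omega

variable {t}

lemma OK.small (h : t.OK) {S : Finset V} (k : t.cut S ≤ 4) : #S ≤ 2 ∨ #Sᶜ ≤ 2 := by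
  by_contra hc
  have := h.c5 S (by omega) (by omega)
  omega
/-- one vertex has cut 3, two vertices have cut at least 4; use `cut_compl` -/
lemma OK.three (h : t.OK) {S : Finset V} (h1 : S.Nonempty) (h2 : Sᶜ.Nonempty) :
    3 ≤ t.cut S := by
  by_contra hc
  have a := card_pos.2 h1
  have b := card_pos.2 h2
  rcases h.small (S := S) (by omega) with e | e
  · have := t.f1_small h1 e
    omega
  · have := t.f1_small h2 e
    rw [cut_compl] at this
    omega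
lemma OK.four (h : t.OK) {S : Finset V} (hm : ∀ v ∈ S, t.m v ∈ S) (h1 : S.Nonempty)
    (h2 : Sᶜ.Nonempty) : 4 ≤ t.cut S := by
  have a := h.three h1 h2
  obtain ⟨r, hr⟩ := t.even_cut hm
  omega
lemma OK.five (h : t.OK) {S : Finset V} (h1 : S.Nonempty) (h2 : t.Deg2 S) : 5 ≤ #S := by
  by_contra hc
  have a := h2.cut_le
  have b := card_add_card_compl S
  have c := h.big
  rcases h.small (S := S) (by omega) with e | e
  · have := t.f1_small h1 e
    omega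
  · omega
/-- no triangle -/
lemma OK.no3 (h : t.OK) (k1 k2 k3 : Option Bool) (v : V) :
    t.nb k3 (t.nb k2 (t.nb k1 v)) ≠ v := by
  intro e
  have h12 : k1 ≠ k2 := by
    rintro rfl
    rw [nb_nb] at e
    exact t.nb_ne _ _ e
  have h23 : k2 ≠ k3 := by
    rintro rfl
    rw [nb_nb] at e
    exact t.nb_ne _ _ e
  have e' : t.nb k3 v = t.nb k2 (t.nb k1 v) := by rw [← congrArg (t.nb k3) e, nb_nb]
  have h31 : k3 ≠ k1 := by
    rintro rfl
    exact t.nb_ne _ _ e'.symm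
  have := h.five (S := {v, t.nb k1 v, t.nb k2 (t.nb k1 v)}) ⟨v, by simp⟩ (by
    intro w hw
    simp only [mem_insert, mem_singleton] at hw
    rcases hw with rfl | rfl | rfl
    · exact ⟨k1, k3, h31.symm, by simp, by simp [e']⟩
    · exact ⟨k1, k2, h12, by simp, by simp⟩
    · exact ⟨k2, k3, h23, by simp, by simp [e]⟩)
  have := card_le_three (a := v) (b := t.nb k1 v) (c := t.nb k2 (t.nb k1 v))
  omega
/-- no 4-cycle -/
lemma OK.no4 (h : t.OK) {k1 k2 k3 k4 : Option Bool} (h1 : k1 ≠ k2) (h2 : k2 ≠ k3) (h3 : k3 ≠ k4)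
    (v : V) : t.nb k4 (t.nb k3 (t.nb k2 (t.nb k1 v))) ≠ v := by
  intro e
  have e' : t.nb k4 v = t.nb k3 (t.nb k2 (t.nb k1 v)) := by rw [← congrArg (t.nb k4) e, nb_nb]
  have h41 : k4 ≠ k1 := by
    rintro rfl
    have := congrArg (t.nb k3) e'
    rw [nb_nb] at this
    exact h2 (t.nb_inj this).symm
  have := h.five (S := {v, t.nb k1 v, t.nb k2 (t.nb k1 v), t.nb k3 (t.nb k2 (t.nb k1 v))})
    ⟨v, by simp⟩ (by
    intro w hw
    simp only [mem_insert, mem_singleton] at hw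
    rcases hw with rfl | rfl | rfl | rfl
    · exact ⟨k1, k4, h41.symm, by simp, by simp [e']⟩
    · exact ⟨k1, k2, h1, by simp, by simp⟩
    · exact ⟨k2, k3, h2, by simp, by simp⟩
    · exact ⟨k3, k4, h3, by simp, by simp [e]⟩)
  have := card_le_four (a := v) (b := t.nb k1 v) (c := t.nb k2 (t.nb k1 v))
    (d := t.nb k3 (t.nb k2 (t.nb k1 v)))
  omega
/-- `five` and `even_card` -/
lemma OK.six (h : t.OK) {Q : Finset V} {c : Bool} (hQ : ∀ v ∈ Q, t.m v ∈ Q ∧ t.col c v ∈ Q)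
    (h1 : Q.Nonempty) : 6 ≤ #Q := by
  have a := h.five h1 fun v hv => ⟨none, some c, by simp, (hQ v hv).1, (hQ v hv).2⟩
  obtain ⟨r, hr⟩ := t.even_card fun v hv => (hQ v hv).1
  omega
/-- the six vertices of `hex v c` are different (`no4`), so they are all of `Q` -/
lemma OK.alt (h : t.OK) {Q : Finset V} {c : Bool} (hQ : ∀ v ∈ Q, t.m v ∈ Q ∧ t.col c v ∈ Q)
    (h6 : #Q ≤ 6) {v : V} (hv : v ∈ Q) : t.Alt v c ∧ t.hex v c ⊆ Q := by
  have hsub : t.hex v c ⊆ Q := by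
    have a1 := (hQ v hv).1
    have a2 := (hQ _ a1).2
    have a3 := (hQ _ a2).1
    have a4 := (hQ _ a3).2
    have a5 := (hQ _ a4).1
    intro w hw
    simp only [hex, mem_insert, mem_singleton] at hw
    rcases hw with rfl | rfl | rfl | rfl | rfl | rfl <;> assumption
  refine ⟨?_, hsub⟩
  have n1 : ∀ k w, t.nb k w ≠ w := t.nb_ne
  have n2 : ∀ w, t.col c (t.m w) ≠ w := fun w e => by
    have : t.nb none w = t.nb (some c) w := by
      rw [← congrArg (t.nb (some c)) e]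
      simp
    simpa using t.nb_inj this
  have n2' : ∀ w, t.m (t.col c w) ≠ w := fun w e => n2 w (by
    have := congrArg t.m e
    rw [t.mm] at this
    rw [← this, col_col])
  have n3 : ∀ w, t.m (t.col c (t.m w)) ≠ w := h.no3 none (some c) none
  have n3' : ∀ w, t.col c (t.m (t.col c w)) ≠ w := h.no3 (some c) none (some c)
  have n4 : ∀ w, t.col c (t.m (t.col c (t.m w))) ≠ w :=
    h.no4 (k1 := none) (k2 := some c) (k3 := none) (k4 := some c) (by simp) (by simp) (by simp)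
  have n4' : ∀ w, t.m (t.col c (t.m (t.col c w))) ≠ w :=
    h.no4 (k1 := some c) (k2 := none) (k3 := some c) (k4 := none) (by simp) (by simp) (by simp)
  have n1m : ∀ w, t.m w ≠ w := t.m_ne
  have n1c : ∀ w, t.col c w ≠ w := n1 (some c)
  have n5 : t.m (t.col c (t.m (t.col c (t.m v)))) ≠ v := fun e => by
    have e1 := congrArg t.m e
    rw [t.mm] at e1
    have e2 := congrArg (t.col c) e1
    rw [col_col] at e2
    exact n1m _ e2
  have hc : #(t.hex v c) = 6 := by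
    rw [hex, card_insert_of_notMem, card_insert_of_notMem, card_insert_of_notMem,
      card_insert_of_notMem, card_insert_of_notMem, card_singleton]
    all_goals simp only [mem_insert, mem_singleton, not_or]
    · exact (n1m _).symm
    · exact ⟨(n1c _).symm, (n2' _).symm⟩
    · exact ⟨(n1m _).symm, (n2 _).symm, (n3 _).symm⟩
    · exact ⟨(n1c _).symm, (n2' _).symm, (n3' _).symm, (n4' _).symm⟩
    · exact ⟨(n1m _).symm, (n2 _).symm, (n3 _).symm, (n4 _).symm, n5.symm⟩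
  have hE : t.hex v c = Q := eq_of_subset_of_card_le hsub (by omega)
  have h7 : t.col c (t.m (t.col c (t.m (t.col c (t.m v))))) ∈ t.hex v c := by
    rw [hE]
    exact (hQ _ (hsub (by simp [hex]))).2
  simp only [hex, mem_insert, mem_singleton] at h7
  rcases h7 with e | e | e | e | e | e
  · exact e
  · have e1 := congrArg (t.col c) e
    rw [col_col] at e1
    exact absurd e1 (n3 _)
  · exact absurd e (n4 _)
  · exact absurd e (n3' _)
  · exact absurd e (n2 _)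
  · exact absurd e (n1c _)
/-- two `m`-closed parts would have cuts at least `4 + 4` (`cut_split`, `four`) -/
lemma OK.con_of_cut (h : t.OK) {S : Finset V} (hm : ∀ v ∈ S, t.m v ∈ S) (h2 : Sᶜ.Nonempty)
    (k : t.cut S ≤ 7) : t.Con S (t.bd S) := by
  intro W hW hc
  have h1 : ∀ v ∈ W, ∀ l, t.nb l v ∈ S → t.nb l v ∈ W := fun v hv l hl =>
    hc v hv l fun e => (t.mem_bd.1 e).2 hl
  have mW : ∀ v ∈ W, t.m v ∈ W := fun v hv => h1 v hv none (hm v (hW hv))
  have mD : ∀ v ∈ S \ W, t.m v ∈ S \ W := fun v hv => by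
    rw [mem_sdiff] at hv ⊢
    exact ⟨hm v hv.1, fun e => hv.2 (t.mm v ▸ mW _ e)⟩
  by_contra hn
  push Not at hn
  obtain ⟨z, hz⟩ := h2
  have a := h.four mW hn.1 ⟨z, by
    rw [mem_compl] at hz ⊢
    exact fun e => hz (hW e)⟩
  have b := h.four mD (sdiff_nonempty.2 fun e => hn.2 (Subset.antisymm hW e)) ⟨z, by
    rw [mem_compl] at hz ⊢
    exact fun e => hz (mem_sdiff.1 e).1⟩
  have := t.cut_split hW h1
  omega

end Tri
end Pool.Agent.MP_8c1b0d_co

set_option autoImplicit false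
set_option linter.unusedSectionVars false
open Finset

namespace Pool.Agent.MP_8c1b0d_co
namespace Tri
variable {V : Type} [Fintype V] [DecidableEq V]

def SS (P : Finset (V × Bool)) : Finset V := {v | (v, false) ∈ P ∧ (v, true) ∈ P}
def ZZ (P : Finset (V × Bool)) : Finset V := {v | ¬ ((v, false) ∈ P ↔ (v, true) ∈ P)}

lemma mem_SS {P : Finset (V × Bool)} {v : V} : v ∈ SS P ↔ ∀ c, (v, c) ∈ P := by simp [SS]
lemma mem_TT {P : Finset (V × Bool)} {v : V} : v ∈ SS Pᶜ ↔ ∀ c, (v, c) ∉ P := by simp [SS]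
lemma mem_ZZ {P : Finset (V × Bool)} {v : V} : v ∈ ZZ P ↔ ∃ c, (v, c) ∈ P ∧ (v, !c) ∉ P := by
  simp only [ZZ, mem_filter, mem_univ, true_and, Bool.exists_bool, Bool.not_false, Bool.not_true]
  tauto
lemma mem_ZZ' {P : Finset (V × Bool)} {v : V} : v ∈ ZZ P ↔ v ∉ SS P ∧ v ∉ SS Pᶜ := by
  simp only [ZZ, SS, mem_filter, mem_univ, true_and, mem_compl]
  tauto
lemma ZZ_not {P : Finset (V × Bool)} {v : V} (h : v ∈ ZZ P) (c : Bool) :
    (v, !c) ∈ P ↔ (v, c) ∉ P := by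
  simp only [ZZ, mem_filter, mem_univ, true_and] at h
  cases c <;> simp only [Bool.not_false, Bool.not_true] <;> tauto
lemma ZZ_compl (P : Finset (V × Bool)) : ZZ Pᶜ = ZZ P := by
  ext v; simp only [mem_ZZ', compl_compl, and_comm]
lemma card_ZZ {P : Finset (V × Bool)} (R : Finset V) :
    #{d ∈ P | d.1 ∈ ZZ P ∩ R} = #(ZZ P ∩ R) := by
  refine card_nbij Prod.fst (fun d h => (mem_filter.1 h).2) ?_ fun v h => ?_
  · rintro ⟨v, c⟩ h ⟨v', c'⟩ h' (rfl : v = v')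
    simp only [coe_filter, mem_inter, Set.mem_ofPred_eq] at h h'
    by_contra k
    obtain rfl : c' = !c := by cases c <;> cases c' <;> simp_all
    exact (ZZ_not h.2.1 c).1 h'.1 h.1
  · obtain ⟨c, k, _⟩ := mem_ZZ.1 (mem_inter.1 h).1
    exact ⟨(v, c), by simpa using ⟨k, by simpa using h⟩, rfl⟩

lemma fw_tot (R : Finset (V × Bool)) : #(SS R) + #(ZZ R) + #(SS Rᶜ) = Fintype.card V := by
  rw [← card_compl_add_card (SS Rᶜ), ← card_union_of_disjoint
    (disjoint_left.2 fun v a b => (mem_ZZ'.1 b).1 a)]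
  congr 2
  ext v
  rw [mem_union, mem_compl, mem_ZZ']
  refine ⟨fun a => a.elim (fun b u => mem_TT.1 u true (mem_SS.1 b _)) And.right, fun a => ?_⟩
  tauto

/-- a nontrivial active triple -/
structure Act (t : Tri V) (P : Finset (V × Bool)) : Prop where
  o : ∀ v c, (v, c) ∈ P → (t.col c v, c) ∈ P
  m : ∀ v c, (v, c) ∈ P → (t.m v, c) ∈ P
  six : #(ZZ P) = 6
  s : (SS P).Nonempty
  r : (SS Pᶜ).Nonempty

variable {t : Tri V} {P : Finset (V × Bool)}

lemma Act.o' (h : t.Act P) (v : V) (c : Bool) : (t.col c v, c) ∈ P ↔ (v, c) ∈ P :=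
  ⟨fun k => by simpa using h.o _ _ k, h.o _ _⟩
lemma Act.m' (h : t.Act P) (v : V) (c : Bool) : (t.m v, c) ∈ P ↔ (v, c) ∈ P :=
  ⟨fun k => by simpa [t.mm] using h.m _ _ k, h.m _ _⟩
lemma Act.compl (h : t.Act P) : t.Act Pᶜ :=
  ⟨fun v c => by simp [h.o'], fun v c => by simp [h.m'], by rw [ZZ_compl, h.six], h.r,
    by simpa using h.s⟩
lemma Act.mS (h : t.Act P) (v : V) : t.m v ∈ SS P ↔ v ∈ SS P := by simp only [mem_SS, h.m']
lemma Act.mZ (h : t.Act P) (v : V) : t.m v ∈ ZZ P ↔ v ∈ ZZ P := by simp only [mem_ZZ, h.m']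

lemma Act.three (ok : t.OK) (h : t.Act P) : 3 ≤ #(SS P) := by
  obtain ⟨v, hv⟩ := h.s
  have k : ∀ c, 6 ≤ #{v | (v, c) ∈ P} := fun c => ok.six (c := c)
    (fun v a => by simpa [h.m', h.o'] using a) ⟨v, by simpa using mem_SS.1 hv c⟩
  have e := card_union_add_card_inter ({v | (v, false) ∈ P} : Finset V) {v | (v, true) ∈ P}
  have e1 : ({v | (v, false) ∈ P} : Finset V) ∩ ({v | (v, true) ∈ P} : Finset V) = SS P := by
    ext v; simp [SS]
  have e2 : ({v | (v, false) ∈ P} : Finset V) ∪ ({v | (v, true) ∈ P} : Finset V) ⊆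
      SS P ∪ ZZ P := by
    intro v; simp only [SS, ZZ, mem_union, mem_filter, mem_univ, true_and]; tauto
  have e3 := (card_le_card e2).trans (card_union_le _ _)
  have := k false
  have := k true
  rw [e1] at e
  rw [h.six] at e3
  omega

lemma Act.nbr (ok : t.OK) (h : t.Act P) {v : V} {c : Bool} (hz : v ∈ ZZ P) (hv : (v, c) ∈ P) :
    t.col c v ∈ SS P := by
  by_contra k
  have inZ : ∀ v c, (v, c) ∈ P → v ∉ SS P → v ∈ ZZ P := fun v c a b =>
    mem_ZZ'.2 ⟨b, fun u => mem_TT.1 u c a⟩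
  have e := card_ZZ (P := P) univ
  rw [inter_univ, h.six] at e
  have n : (t.col c v, c) ≠ (v, c) := t.o_ne (v, c)
  have le : t.cut (SS P) ≤ #((({d ∈ P | d.1 ∈ ZZ P}).erase (v, c)).erase (t.col c v, c)) := by
    rw [t.cut_eq_of_m fun v => (h.mS v).2]
    refine card_le_card_of_injOn t.o ?_ (Function.Involutive.injective t.o_o).injOn
    rintro ⟨u, i⟩ a
    replace a : u ∈ SS P ∧ t.col i u ∉ SS P := (mem_filter.1 a).2
    have b := h.o _ _ (mem_SS.1 a.1 i)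
    simp only [coe_erase, Set.mem_sdiff, coe_filter, Set.mem_ofPred_eq, Set.mem_singleton_iff,
      Tri.o, Prod.mk.injEq, not_and]
    refine ⟨⟨⟨b, inZ _ _ b a.2⟩, ?_⟩, ?_⟩
    · rintro rfl rfl
      exact k (by simpa using a.1)
    · rintro w rfl
      have : u = v := by simpa using congrArg (t.col i) w
      exact (mem_ZZ'.1 hz).1 (this ▸ a.1)
  rw [card_erase_of_mem (by simpa [n] using ⟨h.o _ _ hv, inZ _ _ (h.o _ _ hv) k⟩),
    card_erase_of_mem (by simpa using ⟨hv, hz⟩), e] at le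
  have := h.three ok
  have : #(ZZ P) ≤ #(SS P)ᶜ := card_le_card fun v a => mem_compl.2 (mem_ZZ'.1 a).1
  have := ok.small le
  have := h.six
  omega

lemma Act.nbr' (ok : t.OK) (h : t.Act P) {v : V} {c : Bool} (hz : v ∈ ZZ P) (hv : (v, c) ∉ P) :
    t.col c v ∈ SS Pᶜ := h.compl.nbr ok (by rwa [ZZ_compl]) (mem_compl.2 hv)

/-- half-edges of `P` that leave `R` -/
def KK (t : Tri V) (P : Finset (V × Bool)) (R : Finset V) : Finset (V × Bool) :=
  {d ∈ P | d.1 ∈ R ∧ t.col d.2 d.1 ∉ R}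

lemma mem_KK {R : Finset V} {v : V} {c : Bool} :
    (v, c) ∈ t.KK P R ↔ (v, c) ∈ P ∧ v ∈ R ∧ t.col c v ∉ R := by simp [KK]

lemma Act.KK_compl (h : t.Act P) (R : Finset V) : #(t.KK P Rᶜ) = #(t.KK P R) := by
  refine card_nbij' t.o t.o ?_ ?_ (fun d _ => t.o_o d) fun d _ => t.o_o d <;> rintro ⟨v, c⟩ a <;>
    simp only [mem_coe, mem_KK, Tri.o, mem_compl, col_col, h.o'] at a ⊢ <;> tauto

lemma Act.cut (ok : t.OK) (h : t.Act P) {R : Finset V} (hR : ∀ v ∈ R, t.m v ∈ R) :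
    t.cut (R \ SS Pᶜ) = #(t.KK P R) + #(ZZ P ∩ R) := by
  rw [t.cut_eq_of_m fun v a => by
    rw [mem_sdiff] at a ⊢; exact ⟨hR v a.1, by rw [h.compl.mS]; exact a.2⟩, ← ZZ_compl,
    ← card_ZZ, ← card_union_of_disjoint (s := t.KK P R) (disjoint_left.2 fun d a b =>
      mem_compl.1 (mem_filter.1 b).1 (mem_filter.1 a).1), ZZ_compl]
  congr 1
  ext ⟨v, c⟩
  simp only [mem_filter, mem_univ, true_and, mem_sdiff, Tri.o, mem_union, mem_KK, mem_compl,
    mem_inter]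
  by_cases a : (v, c) ∈ P
  · have b : v ∉ SS Pᶜ := fun u => mem_TT.1 u c a
    have b' : t.col c v ∉ SS Pᶜ := fun u => mem_TT.1 u c (h.o _ _ a)
    tauto
  · have b : v ∉ SS P := fun u => a (mem_SS.1 u c)
    have := fun z => h.nbr' ok z a
    rw [mem_ZZ'] at this ⊢
    tauto

/-- `t'` arises from `t` by exchanging `m` and the colour `c` on `Q` -/
structure Swap (t t' : Tri V) (c : Bool) (Q : V → Prop) : Prop where
  oth : ∀ v, t'.col (!c) v = t.col (!c) v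
  ins : ∀ v, Q v → t'.col c v = t.m v ∧ t'.m v = t.col c v
  out : ∀ v, ¬ Q v → t'.col c v = t.col c v ∧ t'.m v = t.m v

lemma exists_swap (t : Tri V) (c : Bool) (Q : V → Prop) (h1 : ∀ v, Q (t.m v) ↔ Q v)
    (h2 : ∀ v, Q (t.col c v) ↔ Q v) : ∃ t', Swap t t' c Q := by
  classical
  have := t.xx
  have := t.yy
  have := t.mm
  have := t.x_ne
  have := t.y_ne
  have := t.m_ne
  have := t.xy
  have := t.xm
  have := t.ym
  cases c <;> simp only [col, cond_true, cond_false] at h2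
  · exact ⟨⟨fun v => if Q v then t.m v else t.x v, t.y, fun v => if Q v then t.x v else t.m v,
      by grind, t.yy, by grind, by grind, t.y_ne, by grind, by grind, by grind, by grind⟩,
      fun _ => rfl, fun v k => by simp [col, k], fun v k => by simp [col, k]⟩
  · exact ⟨⟨t.x, fun v => if Q v then t.m v else t.y v, fun v => if Q v then t.y v else t.m v,
      t.xx, by grind, by grind, t.x_ne, by grind, by grind, by grind, by grind, by grind⟩,
      fun _ => rfl, fun v k => by simp [col, k], fun v k => by simp [col, k]⟩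

variable {t' : Tri V} {c : Bool} {Q : V → Prop} {P' : Finset (V × Bool)}

lemma Swap.out' (s : Swap t t' c Q) {v : V} (h : ¬ Q v) (i : Bool) : t'.col i v = t.col i v := by
  by_cases k : i = c
  · rw [k, (s.out v h).1]
  · rw [show i = !c by revert k; cases i <;> cases c <;> simp, s.oth]

lemma Swap.adj (s : Swap t t' c Q) (u v : V) : t'.Adj u v ↔ t.Adj u v := by
  have h1 := s.oth u
  have h2 := s.ins u
  have h3 := s.out u
  cases c <;> simp only [col, cond_true, cond_false, Bool.not_true, Bool.not_false] at h1 h2 h3 <;>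
    unfold Adj <;> grind

lemma Swap.ok (s : Swap t t' c Q) (ok : t.OK) : t'.OK := by
  refine ⟨ok.big, fun S a b => (ok.c5 S a b).trans_eq ?_⟩
  simp only [cut, card_filter, ← sum_add_distrib]
  refine sum_congr rfl fun u _ => ?_
  have h1 := s.oth u
  have h2 := s.ins u
  have h3 := s.out u
  cases c <;> simp only [col, cond_true, cond_false, Bool.not_true, Bool.not_false] at h1 h2 h3 <;>
    by_cases k : Q u <;> simp only [k, forall_const, not_false_eq_true] at h2 h3 <;>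
    simp only [*] <;> ring

lemma Swap.old (s : Swap t t' c Q) (h : t'.Act P') (hQ : ∀ v, Q v → v ∈ SS P'ᶜ) : t.Act P' := by
  refine ⟨fun v i a => ?_, fun v i a => ?_, h.six, h.s, h.r⟩ <;>
    have n : ¬ Q v := fun k => mem_TT.1 (hQ v k) i a
  · rw [← s.out' n]; exact h.o _ _ a
  · rw [← (s.out v n).2]; exact h.m _ _ a

theorem Swap.last (ok : t.OK) (h : t.Act P) (s : Swap t t' c fun v => (v, c) ∈ P)
    (hc : #{z ∈ ZZ P | (z, c) ∈ P} ≤ 2 ∨ ∀ z ∈ ZZ P, (z, c) ∈ P) (h' : t'.Act P')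
    (c4 : #(SS Pᶜ \ SS P'ᶜ) ≤ #(ZZ P' ∩ SS Pᶜ)) (z4 : #(ZZ P' ∩ (SS Pᶜ)ᶜ) = 4)
    (k2 : #(t'.KK P' (SS Pᶜ)) = 2) : False := by
  have ok' := s.ok ok
  have e3 : #(ZZ P' ∩ SS Pᶜ) + #(ZZ P' ∩ (SS Pᶜ)ᶜ) = 6 := by
    rw [← h'.six, ← sdiff_eq_inter_compl, card_inter_add_card_sdiff]
  set T := SS Pᶜ with hT
  have nQ : ∀ v ∈ T, (v, c) ∉ P := fun v a => mem_TT.1 a c
  have mT : ∀ v ∈ T, t'.m v ∈ T := fun v a => by
    rw [(s.out v (nQ v a)).2]; exact (h.compl.mS v).2 a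
  have mX : ∀ v ∈ Tᶜ, t'.m v ∈ Tᶜ := fun v a => by
    rw [mem_compl] at a ⊢
    exact fun b => a (by simpa [t'.mm] using mT _ b)
  have sub : ∀ R : Finset V, ZZ P' ∩ R ⊆ R \ SS P'ᶜ := fun R v a => by
    rw [mem_inter, mem_ZZ'] at a; exact mem_sdiff.2 ⟨a.2, a.1.2⟩
  have T3 : 3 ≤ #T := h.compl.three ok
  have QX : ∀ v, (v, c) ∈ P → v ∈ Tᶜ := fun v a => mem_compl.2 fun b => nQ v b a
  have ST : ∀ v i, (v, i) ∈ P → t.col i v ∉ T := fun v i a b => mem_TT.1 b i (h.o _ _ a)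
  have nc : ∀ {i : Bool}, i ≠ c → i = !c := fun {i} => by cases i <;> cases c <;> simp
  have e := eq_of_subset_of_card_le (sub T) c4
  obtain ⟨a, ha⟩ : (ZZ P' ∩ T).Nonempty := card_pos.1 (by omega)
  obtain ⟨i, i1, _⟩ := mem_ZZ.1 (mem_inter.1 ha).1
  have one : ∀ a ∈ ZZ P' ∩ T, (a, i) ∈ P' → t.col i a ∈ SS P' ∧ (a, i) ∈ t'.KK P' T ∧
      t.col i a ∈ ZZ P ∧ (t.col i a, i) ∉ P := by
    intro a ha i1
    obtain ⟨a1, a2⟩ := mem_inter.1 ha
    have b1 := h'.nbr ok' a1 i1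
    have b2 : t'.col i a ∉ T := fun u => by
      have : t'.col i a ∈ ZZ P' ∩ T :=
        e ▸ mem_sdiff.2 ⟨u, fun w => mem_TT.1 w i (mem_SS.1 b1 i)⟩
      exact (mem_ZZ'.1 (mem_inter.1 this).1).1 b1
    have b3 : (t.col i a, i) ∉ P := by rw [h.o']; exact mem_TT.1 a2 i
    refine ⟨s.out' (nQ a a2) i ▸ b1, mem_KK.2 ⟨i1, a2, b2⟩,
      mem_ZZ'.2 ⟨fun u => b3 (mem_SS.1 u i), s.out' (nQ a a2) i ▸ b2⟩, b3⟩
  have ma : t'.m a = t.m a := (s.out a (nQ a (mem_inter.1 ha).2)).2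
  obtain ⟨p1, p2, p3, p4⟩ := one a ha i1
  obtain ⟨q1, q2, q3, q4⟩ := one (t.m a) (ma ▸ mem_inter.2
    ⟨(h'.mZ a).2 (mem_inter.1 ha).1, mT a (mem_inter.1 ha).2⟩) (ma ▸ h'.m _ _ i1)
  set p := t.col i a with hp
  set q := t.col i (t.m a) with hq
  have pq : p ≠ q := fun u => t.m_ne a (by simpa [hp, hq] using (congrArg (t.col i) u).symm)
  have pq' : t.m p ≠ q := fun u => ok.no4 (k1 := some i) (k2 := none) (k3 := some i) (k4 := none)
    (by simp) (by simp) (by simp) a (by simp [← hp, u, hq, t.mm])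
  have qp' : t.m q ≠ p := fun u => pq' (by rw [← u, t.mm])
  have KE : ∀ z ∈ ZZ P, (z, i) ∉ P → t'.col i z = t.col i z → (z, i) ∈ P' → z = p ∨ z = q := by
    intro z z1 z2 z3 z5
    have b1 := h.nbr' ok z1 z2
    have b2 : (t.col i z, i) ∈ t'.KK P' T := mem_KK.2 ⟨z3 ▸ h'.o _ _ z5, b1, by
      rw [← z3, col_col]; exact (mem_ZZ'.1 z1).2⟩
    have b3 : t'.KK P' T = {(a, i), (t.m a, i)} := (eq_of_subset_of_card_le
      (by simp [insert_subset_iff, p2, q2])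
      (by rw [k2, card_pair (by simpa using (t.m_ne a).symm)])).symm
    simp only [b3, mem_insert, mem_singleton, Prod.mk.injEq, and_true] at b2
    exact b2.imp (fun u => by simp [hp, ← u]) fun u => by simp [hq, ← u]
  have inQ : ∀ z ∈ ZZ P, z ∈ SS P' → (z, i) ∉ P → t.m z ≠ p → t.m z ≠ q → (z, c) ∈ P := by
    intro z z1 z2 z3 n1 n2
    by_contra u
    refine (KE _ ((h.mZ z).2 z1) (by rwa [h.m']) (s.out' (by rwa [h.m']) i) ?_).elim n1 n2
    rw [← (s.out z u).2]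
    exact h'.m _ _ (mem_SS.1 z2 i)
  have p5 := inQ p p3 p1 p4 (t.m_ne p) pq'
  have q5 := inQ q q3 q1 q4 qp' (t.m_ne q)
  obtain rfl : i = !c := nc fun u => p4 (u ▸ p5)
  have all : ∀ z ∈ ZZ P, (z, c) ∈ P := hc.resolve_left fun u => by
    have : ({p, t.m p, q} : Finset V) ⊆ {z ∈ ZZ P | (z, c) ∈ P} := by
      simp [insert_subset_iff, p3, p5, q3, q5, h.mZ, h.m']
    have := card_le_card this
    rw [card_eq_three.2 ⟨_, _, _, (t.m_ne p).symm, pq, pq', rfl⟩] at this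
    omega
  have nP : ∀ z ∈ ZZ P, (z, !c) ∉ P := fun z u => by rw [ZZ_not u]; simpa using all z u
  have two : ∀ z ∈ ZZ P, z ∈ SS P' → t.m z ≠ p → t.m z ≠ q → t.m z ∈ ZZ P' ∩ Tᶜ ∧
      t.col c (t.m z) ∈ ZZ P' ∩ Tᶜ ∧ (t.col c (t.m z), !c) ∉ P' ∧ t.col c (t.m z) ∈ SS P ∧
      (t.m z, !c) ∉ P' := by
    intro z z1 z2 n1 n2
    have b0 := (h.mZ z).2 z1
    have b1 : (t.m z, !c) ∉ P' := fun u => (KE _ b0 (nP _ b0) (s.oth _) u).elim n1 n2
    have b2 : t.m z ∈ ZZ P' ∩ Tᶜ := mem_inter.2 ⟨mem_ZZ.2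
      ⟨c, (s.ins z (all z z1)).1 ▸ h'.o _ _ (mem_SS.1 z2 c), b1⟩, QX _ (all _ b0)⟩
    have b3 := h.nbr ok b0 (all _ b0)
    rw [← (s.ins _ (all _ b0)).2] at b3 ⊢
    exact ⟨b2, mem_inter.2 ⟨(h'.mZ _).2 (mem_inter.1 b2).1, mX _ (mem_inter.1 b2).2⟩,
      by rwa [h'.m'], b3, b1⟩
  obtain ⟨r1, r2, r3, r4, r5⟩ := two p p3 p1 (t.m_ne p) pq'
  obtain ⟨u1, u2, u3, u4, u5⟩ := two q q3 q1 qp' (t.m_ne q)
  have mpq : t.m p ≠ t.m q := fun u => pq (by simpa [t.mm] using congrArg t.m u)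
  have ZS : ∀ z ∈ ZZ P, ∀ v ∈ SS P, z ≠ v := fun z a v b u => (mem_ZZ'.1 a).1 (u ▸ b)
  have p6 := (h.mZ p).2 p3
  have q6 := (h.mZ q).2 q3
  have E4 : ZZ P' ∩ Tᶜ = {t.m p, t.m q, t.col c (t.m p), t.col c (t.m q)} := by
    refine (eq_of_subset_of_card_le (by simp only [insert_subset_iff, singleton_subset_iff]; tauto)
      ?_).symm
    rw [z4, card_insert_of_notMem (by simp [mpq, ZS _ p6 _ r4, ZS _ p6 _ u4]),
      card_insert_of_notMem (by simp [ZS _ q6 _ r4, ZS _ q6 _ u4]),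
      card_pair fun u => mpq (by simpa using congrArg (t.col c) u)]
  let Z2 := ZZ P \ {p, q, t.m p, t.m q}
  have z2 : #Z2 = 2 := by
    rw [card_sdiff_of_subset (by simp [insert_subset_iff, p3, q3, p6, q6]), h.six,
      card_insert_of_notMem (by simp [pq, (t.m_ne p).symm, qp'.symm]),
      card_insert_of_notMem (by simp [pq'.symm, (t.m_ne q).symm]), card_pair mpq]
  let R := SS P'ᶜ \ T
  have cR : t'.cut R ≤ #(Z2.image (fun z => (z, !c)) ∪
      {t'.o (t.col c (t.m p), !c), t'.o (t.col c (t.m q), !c)}) := by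
    rw [t'.cut_eq_of_m fun v a => by
      rw [mem_sdiff] at a ⊢
      exact ⟨(h'.compl.mS v).2 a.1, mem_compl.1 (mX v (mem_compl.2 a.2))⟩]
    refine card_le_card ?_
    rintro ⟨v, j⟩ a
    simp only [mem_filter, mem_univ, true_and, R, mem_sdiff, Tri.o, not_and, not_not] at a
    obtain ⟨⟨a1, a2⟩, a3⟩ := a
    have b1 : (t'.col j v, j) ∉ P' := by rw [h'.o']; exact mem_TT.1 a1 j
    by_cases u : t'.col j v ∈ T
    · have b2 : v = t.col j (t'.col j v) := by rw [← s.out' (nQ _ u), col_col]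
      have b3 : (v, j) ∉ P := by rw [b2, h.o']; exact mem_TT.1 u j
      have b4 : v ∈ ZZ P := mem_ZZ'.2 ⟨fun w => b3 (mem_SS.1 w j), a2⟩
      refine mem_union_left _ (mem_image.2 ⟨v, mem_sdiff.2 ⟨b4, ?_⟩, ?_⟩)
      · simp only [mem_insert, mem_singleton, not_or]
        refine ⟨?_, ?_, ?_, ?_⟩ <;> rintro rfl
        exacts [mem_TT.1 a1 c (mem_SS.1 p1 c), mem_TT.1 a1 c (mem_SS.1 q1 c),
          (mem_ZZ'.1 (mem_inter.1 r1).1).2 a1, (mem_ZZ'.1 (mem_inter.1 u1).1).2 a1]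
      · rw [nc (i := j) fun w => b3 (w ▸ all v b4)]
    · have b2 : t'.col j v ∈ ZZ P' ∩ Tᶜ := mem_inter.2
        ⟨mem_ZZ'.2 ⟨fun w => b1 (mem_SS.1 w j), fun w => u (a3 w)⟩, mem_compl.2 u⟩
      have b3 : ∀ z, t'.col j v = z → (z, !c) ∉ P' → j = !c ∧ v = t'.col (!c) z := by
        rintro z rfl w
        have : j = !c := nc fun e => w (by rw [ZZ_not (mem_inter.1 b2).1, ← e]; exact b1)
        exact ⟨this, by rw [← this, col_col]⟩
      refine mem_union_right _ ?_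
      simp only [E4, mem_insert, mem_singleton] at b2
      rcases b2 with w | w | w | w
      · exact absurd ((b3 _ w r5).2 ▸ s.oth _ ▸ h.nbr' ok p6 (nP _ p6)) a2
      · exact absurd ((b3 _ w u5).2 ▸ s.oth _ ▸ h.nbr' ok q6 (nP _ q6)) a2
      · simp [Tri.o, b3 _ w r3]
      · simp [Tri.o, b3 _ w u3]
  have cR' : t'.cut R ≤ 4 := cR.trans ((card_union_le _ _).trans
    (add_le_add (card_image_le.trans z2.le) card_le_two))
  have w1 : t.col (!c) (t.col c (t.m p)) ∈ R := mem_sdiff.2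
    ⟨s.oth _ ▸ h'.nbr' ok' (mem_inter.1 r2).1 r3, ST _ _ (mem_SS.1 r4 _)⟩
  have w2 : insert (t.col (!c) (t.col c (t.m p))) Z2 ⊆ R := by
    refine insert_subset w1 fun z a => ?_
    simp only [Z2, mem_sdiff, mem_insert, mem_singleton, not_or] at a
    have b1 : (z, !c) ∉ P' := fun u => (KE z a.1 (nP z a.1) (s.oth z) u).elim a.2.1 a.2.2.1
    refine mem_sdiff.2 ⟨?_, (mem_ZZ'.1 a.1).2⟩
    by_contra u
    have : z ∈ ZZ P' ∩ Tᶜ :=
      mem_inter.2 ⟨mem_ZZ'.2 ⟨fun w => b1 (mem_SS.1 w _), u⟩, QX z (all z a.1)⟩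
    simp [E4, a.2.2.2.1, a.2.2.2.2, ZS _ a.1 _ r4, ZS _ a.1 _ u4] at this
  have w3 := card_le_card w2
  rw [card_insert_of_notMem fun u => nP _ (mem_sdiff.1 u).1 (h.o _ _ (mem_SS.1 r4 _)), z2] at w3
  have w4 : #T ≤ #Rᶜ := card_le_card fun v a => by simp [R, a]
  have := ok'.small cR'
  omega

theorem Swap.core (ok : t.OK) (h : t.Act P) (s : Swap t t' c fun v => (v, c) ∈ P)
    (hc : #{z ∈ ZZ P | (z, c) ∈ P} ≤ 2 ∨ ∀ z ∈ ZZ P, (z, c) ∈ P) (hz : ∃ z ∈ ZZ P, (z, c) ∈ P)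
    (h' : t'.Act P') (k3 : #(t'.KK P' (SS Pᶜ)) ≤ 3) :
    (∀ v, (v, c) ∈ P → v ∈ SS P'ᶜ) ∨ #(SS P') < #(SS P) := by
  have ok' := s.ok ok
  set T := SS Pᶜ with hT
  have nQ : ∀ v ∈ T, (v, c) ∉ P := fun v a => mem_TT.1 a c
  have mT : ∀ v ∈ T, t'.m v ∈ T := fun v a => by
    rw [(s.out v (nQ v a)).2]; exact (h.compl.mS v).2 a
  have mX : ∀ v ∈ Tᶜ, t'.m v ∈ Tᶜ := fun v a => by
    rw [mem_compl] at a ⊢
    exact fun b => a (by simpa [t'.mm] using mT _ b)
  have cA := h'.cut ok' mT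
  have cB := h'.cut ok' mX
  rw [h'.KK_compl] at cB
  have mc : ∀ R : Finset V, (∀ v ∈ R, t'.m v ∈ R) → ∀ v ∈ R \ SS P'ᶜ, t'.m v ∈ R \ SS P'ᶜ :=
    fun R a v b => by
      rw [mem_sdiff] at b ⊢; exact ⟨a v b.1, by rw [h'.compl.mS]; exact b.2⟩
  have ez : ∀ R : Finset V, (∀ v ∈ R, t'.m v ∈ R) → Even #(ZZ P' ∩ R) := fun R a =>
    t'.even_card fun v b => by
      rw [mem_inter] at b ⊢; exact ⟨(h'.mZ v).2 b.1, a v b.2⟩
  have sub : ∀ R : Finset V, ZZ P' ∩ R ⊆ R \ SS P'ᶜ := fun R v a => by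
    rw [mem_inter, mem_ZZ'] at a; exact mem_sdiff.2 ⟨a.2, a.1.2⟩
  have eA := t'.even_cut (mc T mT)
  have e1 := ez T mT
  have e2 := ez _ mX
  have e3 : #(ZZ P' ∩ T) + #(ZZ P' ∩ Tᶜ) = 6 := by
    rw [← h'.six, ← sdiff_eq_inter_compl, card_inter_add_card_sdiff]
  have T3 : 3 ≤ #T := h.compl.three ok
  have X6 : 6 ≤ #Tᶜ := h.six ▸ card_le_card fun v a => mem_compl.2 (mem_ZZ'.1 a).2
  have bA : 6 ≤ #(T \ SS P'ᶜ)ᶜ := X6.trans (card_le_card (compl_subset_compl.2 sdiff_subset))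
  have bB : 3 ≤ #(Tᶜ \ SS P'ᶜ)ᶜ :=
    T3.trans (card_le_card fun v a => by simp [a])
  have fA := fun a => ok'.four (mc T mT) a (card_pos.1 (by omega))
  have fB := fun a => ok'.four (mc _ mX) a (card_pos.1 (by omega))
  have zA := card_le_card (sub T)
  have zB := card_le_card (sub Tᶜ)
  have kne : (t'.KK P' T).Nonempty → (T \ SS P'ᶜ).Nonempty ∧ (Tᶜ \ SS P'ᶜ).Nonempty := by
    rintro ⟨⟨v, i⟩, a⟩
    rw [mem_KK] at a
    exact ⟨⟨v, mem_sdiff.2 ⟨a.2.1, fun u => mem_TT.1 u i a.1⟩⟩,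
      ⟨_, mem_sdiff.2 ⟨mem_compl.2 a.2.2, fun u => mem_TT.1 u i (h'.o _ _ a.1)⟩⟩⟩
  rw [← card_pos, ← card_pos, ← card_pos] at kne
  rw [← card_pos] at fA fB
  have sA := fun a => ok'.small (S := T \ SS P'ᶜ) a
  have sB := fun a => ok'.small (S := Tᶜ \ SS P'ᶜ) a
  have QX : ∀ v, (v, c) ∈ P → v ∈ Tᶜ := fun v a => mem_compl.2 fun b => nQ v b a
  have ST : ∀ v i, (v, i) ∈ P → t.col i v ∉ T := fun v i a b => mem_TT.1 b i (h.o _ _ a)
  have nc : ∀ {i : Bool}, i ≠ c → i = !c := fun {i} => by cases i <;> cases c <;> simp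
  obtain c1 | c2 | c3 | c4 : #(Tᶜ \ SS P'ᶜ) = 0 ∨ #(T \ SS P'ᶜ) = 0 ∨
      #(Tᶜ \ SS P'ᶜ) ≤ #(ZZ P' ∩ Tᶜ) ∨ (#(T \ SS P'ᶜ) ≤ #(ZZ P' ∩ T) ∧ #(ZZ P' ∩ Tᶜ) = 4 ∧
        #(t'.KK P' T) = 2) := by
    obtain ⟨_, e1⟩ := e1
    obtain ⟨_, e2⟩ := e2
    obtain ⟨_, eA⟩ := eA
    omega
  · left
    intro v a
    by_contra b
    exact notMem_empty v (card_eq_zero.1 c1 ▸ mem_sdiff.2 ⟨QX v a, b⟩)
  · right
    have TT : T ⊆ SS P'ᶜ := sdiff_eq_empty_iff_subset.1 (card_eq_zero.1 c2)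
    have t1 := fw_tot P
    have t2 := fw_tot P'
    rw [h.six, ← hT] at t1
    rw [h'.six] at t2
    by_contra lt
    have e : T = SS P'ᶜ := eq_of_subset_of_card_le TT (by omega)
    obtain ⟨z, z1, z2⟩ := hz
    have a1 : t.col (!c) z ∈ T := h.nbr' ok z1 (by rw [ZZ_not z1]; simpa)
    have a2 : (z, !c) ∉ P' := fun u => mem_TT.1 (e ▸ a1) (!c) (s.oth z ▸ h'.o _ _ u)
    have a3 := h.nbr ok z1 z2
    rw [← h'.m', (s.ins z z2).2] at a2
    have a4 := h'.nbr' ok' (mem_ZZ'.2 ⟨fun u => a2 (mem_SS.1 u _), fun u =>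
      nQ _ (e ▸ u) (mem_SS.1 a3 c)⟩) a2
    rw [s.oth, ← e] at a4
    exact ST _ _ (mem_SS.1 a3 _) a4
  · left
    have e := eq_of_subset_of_card_le (sub Tᶜ) c3
    have key : ∀ v, (v, c) ∈ P → v ∉ SS P'ᶜ → (v, !c) ∉ P := by
      intro v a b
      have z : v ∈ ZZ P' := (mem_inter.1 (e ▸ mem_sdiff.2 ⟨QX v a, b⟩)).1
      obtain ⟨i, i1, _⟩ := mem_ZZ.1 z
      have a1 := h'.nbr ok' z i1
      have a2 : t'.col i v ∈ T := by
        by_contra u
        have : t'.col i v ∈ ZZ P' ∩ Tᶜ :=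
          e ▸ mem_sdiff.2 ⟨mem_compl.2 u, fun w => mem_TT.1 w i (mem_SS.1 a1 i)⟩
        exact (mem_ZZ'.1 (mem_inter.1 this).1).1 a1
      by_cases u : i = c
      · rw [u, (s.ins v a).1] at a2
        exact absurd (h.m _ _ a) (nQ _ a2)
      · rw [nc u, s.oth] at a2
        exact fun w => ST _ _ w a2
    intro v a
    by_contra b
    have a1 := h.nbr ok (mem_ZZ.2 ⟨c, a, key v a b⟩) a
    refine key _ (mem_SS.1 a1 c) ?_ (mem_SS.1 a1 _)
    rwa [← (s.ins v a).2, h'.compl.mS]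
  exact (s.last ok h hc h' c4.1 c4.2.1 c4.2.2).elim

theorem Act.step (ok : t.OK) (h : t.Act P) : ∃ t' : Tri V, (∀ u v, t'.Adj u v ↔ t.Adj u v) ∧
    t'.OK ∧ ∀ P', t'.Act P' → (t.Act P' ∧ P' ≠ P) ∨ min #(SS P') #(SS P'ᶜ) < #(SS P) := by
  obtain ⟨c, hc, hz⟩ : ∃ c, (#{z ∈ ZZ P | (z, c) ∈ P} ≤ 2 ∨ ∀ z ∈ ZZ P, (z, c) ∈ P) ∧
      ∃ z ∈ ZZ P, (z, c) ∈ P := by
    have ev : Even #{z ∈ ZZ P | (z, false) ∈ P} := t.even_card fun v a => by
      simpa [h.mZ, h.m'] using a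
    have e := card_filter_add_card_filter_not (s := ZZ P) fun z => (z, false) ∈ P
    rw [h.six, ← filter_congr fun z a => ZZ_not a false, Bool.not_false] at e
    have ex : ∀ c, 0 < #{z ∈ ZZ P | (z, c) ∈ P} → ∃ z ∈ ZZ P, (z, c) ∈ P := fun c a => by
      obtain ⟨z, a⟩ := card_pos.1 a
      exact ⟨z, mem_filter.1 a⟩
    have al : ∀ c, 6 ≤ #{z ∈ ZZ P | (z, c) ∈ P} → ∀ z ∈ ZZ P, (z, c) ∈ P := fun c a =>
      filter_eq_self.1 (eq_of_subset_of_card_le (filter_subset _ _) (h.six ▸ a))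
    obtain ⟨n, ev⟩ := ev
    obtain a | a | a | a : n = 0 ∨ n = 1 ∨ n = 2 ∨ n = 3 := by omega
    exacts [⟨true, Or.inr (al _ (by omega)), ex _ (by omega)⟩,
      ⟨false, Or.inl (by omega), ex _ (by omega)⟩, ⟨true, Or.inl (by omega), ex _ (by omega)⟩,
      ⟨false, Or.inr (al _ (by omega)), ex _ (by omega)⟩]
  have h1 := fun v => h.m' v c
  have h2 := fun v => h.o' v c
  obtain ⟨t', s⟩ := t.exists_swap c (fun v => (v, c) ∈ P) h1 h2
  refine ⟨t', s.adj, s.ok ok, fun P' h' => ?_⟩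
  have ne : P' ≠ P := by
    rintro rfl
    obtain ⟨z, z1, z2⟩ := hz
    have := mem_SS.1 (h.nbr ok z1 z2) (!c)
    rw [← (s.ins z z2).2, h'.m', ZZ_not z1] at this
    exact this z2
  have k6 : #(t'.KK P' (SS Pᶜ)) + #(t'.KK P'ᶜ (SS Pᶜ)) ≤ 6 := by
    rw [← card_union_of_disjoint (s := t'.KK P' _) (t := t'.KK P'ᶜ _) (disjoint_left.2 fun d a b =>
      mem_compl.1 (mem_filter.1 b).1 (mem_filter.1 a).1), ← h.six, ← inter_univ (ZZ P),
      ← ZZ_compl, ← card_ZZ]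
    refine card_le_card_of_injOn t'.o ?_ (Function.Involutive.injective t'.o_o).injOn
    rintro ⟨v, i⟩ a
    have b : v ∈ SS Pᶜ ∧ t'.col i v ∉ SS Pᶜ := by
      rcases mem_union.1 a with a | a <;> exact (mem_KK.1 a).2
    have b1 : (t'.col i v, i) ∉ P := by
      rw [s.out' (mem_TT.1 b.1 c), h.o']; exact mem_TT.1 b.1 i
    simp only [coe_filter, Set.mem_ofPred_eq, Tri.o, mem_compl, inter_univ, ZZ_compl]
    exact ⟨b1, mem_ZZ'.2 ⟨fun u => b1 (mem_SS.1 u i), b.2⟩⟩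
  by_cases k : #(t'.KK P' (SS Pᶜ)) ≤ 3
  · exact (s.core ok h hc hz h' k).imp (fun a => ⟨s.old h' a, ne⟩)
      fun a => (min_le_left _ _).trans_lt a
  · exact (s.core ok h hc hz h'.compl (by omega)).imp
      (fun a => ⟨by simpa using (s.old h'.compl a).compl, ne⟩)
      fun a => (min_le_right _ _).trans_lt a

/-- (W) Kempe changes remove all nontrivial active triples -/
theorem exists_noAct (t : Tri V) (big : 6 < Fintype.card V) (h5 : t.C5) :
    ∃ t' : Tri V, (∀ u v, t'.Adj u v ↔ t.Adj u v) ∧ t'.C5 ∧ t'.NoAct := by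
  classical
  let N := Fintype.card (Finset (V × Bool)) + 1
  let μ : Finset (V × Bool) → ℕ := fun P => min #(SS P) #(SS Pᶜ)
  let pot : Tri V → ℕ := fun t => ∑ P with t.Act P, N ^ μ P
  have main : ∀ n (t : Tri V), t.OK → pot t = n →
      ∃ t' : Tri V, (∀ u v, t'.Adj u v ↔ t.Adj u v) ∧ t'.C5 ∧ t'.NoAct := by
    intro n
    induction n using Nat.strong_induction_on with
    | _ n ih =>
    intro t ok e
    by_cases k : t.NoAct
    · exact ⟨t, fun _ _ => Iff.rfl, ok.c5, k⟩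
    obtain ⟨P, h, le⟩ : ∃ P, t.Act P ∧ #(SS P) ≤ #(SS Pᶜ) := by
      simp only [NoAct, not_forall, not_or, not_not, exists_prop] at k
      obtain ⟨P, a1, a2, a3, ⟨u, a4⟩, v, a5⟩ := k
      have h : t.Act P := ⟨fun v c b => a1 _ b, a2, a3, ⟨u, by simpa [SS] using a4⟩,
        ⟨v, by simpa [SS] using a5⟩⟩
      rcases le_total #(SS P) #(SS Pᶜ) with b | b
      exacts [⟨P, h, b⟩, ⟨Pᶜ, h.compl, by rwa [compl_compl]⟩]
    obtain ⟨t', a1, a2, a3⟩ := h.step ok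
    have m0 : μ P = #(SS P) := min_eq_left le
    obtain ⟨s, hs⟩ : ∃ s, #(SS P) = s + 1 := ⟨_, (Nat.succ_pred_eq_of_pos (card_pos.2 h.s)).symm⟩
    have lt : pot t' < pot t := by
      have b1 : pot t' ≤ ∑ P' ∈ (univ.filter t.Act).erase P, N ^ μ P' +
          ∑ P' with μ P' ≤ s, N ^ μ P' := by
        refine (sum_le_sum_of_subset (t := _ ∪ _) fun P' b => ?_).trans
          (le_of_add_le_left (le_of_eq sum_union_inter))
        rcases a3 P' (mem_filter.1 b).2 with b | b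
        · exact mem_union_left _ (by simp [b.1, b.2])
        · exact mem_union_right _ (by simpa [μ, hs, Nat.lt_succ_iff] using b)
      have b2 : ∑ P' with μ P' ≤ s, N ^ μ P' ≤ Fintype.card (Finset (V × Bool)) * N ^ s :=
        (sum_le_card_nsmul _ _ _ fun P' b =>
          Nat.pow_le_pow_right (Nat.succ_pos _) (mem_filter.1 b).2).trans
          (Nat.mul_le_mul_right _ (card_le_univ _))
      have b3 := add_sum_erase (univ.filter t.Act) (fun P => N ^ μ P) (a := P) (by simpa using h)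
      have b4 : 0 < N ^ s := Nat.pow_pos (Nat.succ_pos _)
      simp only [m0, hs, pow_succ] at b3
      simp only [pot, N] at *
      nlinarith
    obtain ⟨t'', b1, b2⟩ := ih _ (e ▸ lt) t' a2 rfl
    exact ⟨t'', fun u v => (b1 u v).trans (a1 u v), b2⟩
  exact main _ t ⟨big, h5⟩ rfl

end Tri
end Pool.Agent.MP_8c1b0d_co
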