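import Pool.Agent.MP_8c1b0d_co.Grow

set_option autoImplicit false
open SimpleGraph

namespace Pool.Agent.MP_8c1b0d_co

variable {V : Type}

def One (K : SimpleGraph V) (v : V) : Prop := ∃ p, ∀ z, K.Adj v z ↔ z = p
def Two (K : SimpleGraph V) (v : V) : Prop := ∃ p q, p ≠ q ∧ ∀ z, K.Adj v z ↔ z = p ∨ z = q

lemma One.not_two {K : SimpleGraph V} {v : V} (h : One K v) : ¬ Two K v := by
  rintro ⟨p, q, hpq, e⟩
  obtain ⟨r, e'⟩ := h
  exact hpq (((e' p).1 ((e p).2 (Or.inl rfl))).trans ((e' q).1 ((e q).2 (Or.inr rfl))).symm)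

def lay (K : Bool → SimpleGraph V) : SimpleGraph (V × Bool) where
  Adj x y := (x.2 = y.2 ∧ (K x.2).Adj x.1 y.1) ∨ (x.1 = y.1 ∧ x.2 ≠ y.2 ∧ One (K false) x.1)
  symm := ⟨fun x y h => by
    rcases h with h | h
    · exact Or.inl ⟨h.1.symm, h.1 ▸ h.2.symm⟩
    · exact Or.inr ⟨h.1.symm, fun k => h.2.1 k.symm, h.1 ▸ h.2.2⟩⟩
  loopless := ⟨fun x h => by
    rcases h with h | h
    · exact h.2.ne rfl
    · exact h.2.1 rfl⟩

lemma lay_deg {K : Bool → SimpleGraph V} {v : V}
    (h : (∀ l, One (K l) v) ∨ (∀ l, Two (K l) v)) (l : Bool) :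
    ∃ p q, p ≠ q ∧ ∀ r, (lay K).Adj (v, l) r ↔ r = p ∨ r = q := by
  rcases h with h | h
  · obtain ⟨p, e⟩ := h l
    refine ⟨(p, l), (v, !l), by cases l <;> simp, ?_⟩
    rintro ⟨r1, r2⟩
    have := h false
    have := e r1
    simp only [lay, Prod.mk.injEq]
    cases l <;> cases r2 <;> grind
  · obtain ⟨p, q, hpq, e⟩ := h l
    refine ⟨(p, l), (q, l), by simp [hpq], ?_⟩
    rintro ⟨r1, r2⟩
    have : ¬ One (K false) v := fun k => k.not_two (h false)
    have := e r1
    simp only [lay, Prod.mk.injEq]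
    grind

lemma lay_bridge [Finite V] {K : Bool → SimpleGraph V} (hcyc : (lay K).IsCycles)
    {D : SimpleGraph V} (hD : ∀ l, K l ≤ D) {v u : V} (hvu : (K false).Adj v u)
    (hb : D.IsBridge s(v, u)) : (lay K).Reachable (v, false) (v, true) := by
  by_contra hn
  have hadj : (lay K).Adj (v, false) (u, false) := Or.inl ⟨rfl, hvu⟩
  have hcl : Closed ((lay K).deleteEdges {s((v, false), (u, false))})
      (fun x => (lay K).Reachable (v, false) x ∧ (D.deleteEdges {s(v, u)}).Reachable v x.1) := by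
    rintro ⟨x1, x2⟩ ⟨y1, y2⟩ hxy ⟨k1, k2⟩
    rw [deleteEdges_adj] at hxy
    obtain ⟨hxy, hne⟩ := hxy
    refine ⟨k1.trans hxy.reachable, ?_⟩
    rcases hxy with ⟨e1, e2⟩ | ⟨e1, -⟩
    · simp only at e1 e2 k2 ⊢
      subst e1
      by_cases k : s(x1, y1) = s(v, u)
      · rw [Sym2.eq_iff] at k
        rcases k with ⟨rfl, rfl⟩ | ⟨rfl, rfl⟩
        · cases x2
          · exact absurd rfl hne
          · exact absurd k1 hn
        · exact Reachable.refl _
      · exact k2.trans (Adj.reachable (by rw [deleteEdges_adj]; exact ⟨hD _ e2, k⟩))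
    · simp only at e1 k2 ⊢
      exact e1 ▸ k2
  exact hb (hcl.reach (hcyc.reachable_deleteEdges hadj) ⟨Reachable.refl _, Reachable.refl _⟩).2

lemma sum_match (M : SimpleGraph V) (T : Finset V) (f : V → ℤ) (h1 : ∀ x ∈ T, One M x)
    (h2 : ∀ x ∈ T, ∀ y, M.Adj x y → y ∈ T ∧ f x + f y = 0) : ∑ x ∈ T, f x = 0 := by
  choose g hg using h1
  have hadj : ∀ x hx, M.Adj x (g x hx) := fun x hx => (hg x hx _).2 rfl
  refine Finset.sum_involution g (fun x hx => (h2 x hx _ (hadj x hx)).2)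
    (fun x hx _ => (hadj x hx).ne') (fun x hx => (h2 x hx _ (hadj x hx)).1) ?_
  intro x hx
  exact ((hg _ _ x).1 (hadj x hx).symm).symm

lemma exists_sign {C : SimpleGraph V} (hb : C.Colorable 2) :
    ∃ σ : V → ℤ, (∀ x, σ x ≠ 0) ∧ ∀ x y, C.Adj x y → σ y = - σ x := by
  obtain ⟨χ⟩ := hb
  refine ⟨fun x => if χ x = 0 then 1 else -1, fun x => by dsimp only; split_ifs <;> simp, ?_⟩
  intro x y hxy
  have := χ.valid hxy
  dsimp only
  split_ifs with h1 h2 h2
  · exact absurd (h2.trans h1.symm) this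
  · simp
  · simp
  · exfalso; apply this; omega

lemma sign_walk {C : SimpleGraph V} {σ : V → ℤ} (h : ∀ x y, C.Adj x y → σ y = - σ x) {u v : V}
    (p : C.Walk u v) : σ v = (-1) ^ p.length * σ u := by
  induction p with
  | nil => simp
  | cons ha p ih => rw [ih, h _ _ ha, Walk.length_cons, pow_succ]; ring

lemma exists_XY [Finite V] (C : SimpleGraph V) (hC : C.IsCycles) (hb : C.Colorable 2) :
    ∃ X Y : SimpleGraph V, (∀ u v, C.Adj u v ↔ X.Adj u v ∨ Y.Adj u v) ∧
      ∀ v, (∃ u, C.Adj v u) → ∃ x y, x ≠ y ∧ (∀ z, X.Adj v z ↔ z = x) ∧ (∀ z, Y.Adj v z ↔ z = y) := by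
  classical
  have := Fintype.ofFinite V
  obtain ⟨χ⟩ := hb
  let W : Set V := {v | ∃ u, C.Adj v u}
  let C' : SimpleGraph W := C.induce W
  have hbip : C'.IsBipartiteWith {v | χ v.1 = 0} {v | χ v.1 = 1} := by
    refine ⟨?_, ?_⟩
    · rw [Set.disjoint_left]
      intro v h1 h2
      simp only [Set.mem_ofPred_eq] at h1 h2
      rw [h1] at h2; exact absurd h2 (by decide)
    · intro v w hvw
      have := χ.valid (show C.Adj v.1 w.1 from hvw)
      simp only [Set.mem_ofPred_eq]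
      omega
  have hdeg : ∀ v : W, (C'.neighborFinset v).card = 2 := by
    intro v
    have h2 := hC (v := v.1) v.2
    rw [← h2, ← Set.ncard_coe_finset, coe_neighborFinset,
      ← Set.ncard_image_of_injective _ Subtype.val_injective]
    congr 1
    ext z
    simp only [Set.mem_image, mem_neighborSet]
    constructor
    · rintro ⟨a, ha, rfl⟩; exact ha
    · intro hz; exact ⟨⟨z, v.1, hz.symm⟩, hz, rfl⟩
  obtain ⟨M, hM⟩ := exists_isPerfectMatching_of_forall_ncard_le hbip (by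
    intro s
    have h := Finset.card_mul_le_card_mul (s := s.toFinset)
      (t := (⋃ x ∈ s, C'.neighborSet x).toFinset) (m := 2) (n := 2) (fun a b => C'.Adj a b)
      (by
        intro a ha
        rw [← hdeg a]
        apply Finset.card_le_card
        intro b hb
        rw [mem_neighborFinset] at hb
        rw [Finset.mem_bipartiteAbove]
        refine ⟨?_, hb⟩
        simp only [Set.mem_toFinset, Set.mem_iUnion] at ha ⊢
        exact ⟨a, ha, hb⟩)
      (by
        intro b _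
        rw [← hdeg b]
        apply Finset.card_le_card
        intro a ha
        rw [Finset.mem_bipartiteBelow] at ha
        rw [mem_neighborFinset]
        exact ha.2.symm)
    rw [Set.ncard_eq_toFinset_card', Set.ncard_eq_toFinset_card']
    omega)
  let X : SimpleGraph V :=
    { Adj := fun u v => ∃ (hu : u ∈ W) (hv : v ∈ W), M.Adj ⟨u, hu⟩ ⟨v, hv⟩
      symm := ⟨fun u v ⟨hu, hv, h⟩ => ⟨hv, hu, h.symm⟩⟩
      loopless := ⟨fun u ⟨hu, hv, h⟩ => h.adj_sub.ne rfl⟩ }
  have hXC : ∀ u v, X.Adj u v → C.Adj u v := fun u v ⟨hu, hv, h⟩ => h.adj_sub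
  refine ⟨X, C \ X, ?_, ?_⟩
  · intro u v
    rw [sdiff_adj]
    refine ⟨fun h => ?_, fun h => h.elim (hXC u v) fun k => k.1⟩
    by_cases k : X.Adj u v
    · exact Or.inl k
    · exact Or.inr ⟨h, k⟩
  · intro v hv
    obtain ⟨x, hx, hx'⟩ := hM.1 (hM.2 ⟨v, hv⟩)
    have e1 : ∀ z, X.Adj v z ↔ z = x.1 := by
      intro z
      constructor
      · rintro ⟨hu, hz, h⟩
        exact congrArg Subtype.val (hx' ⟨z, hz⟩ h)
      · rintro rfl
        exact ⟨hv, x.2, hx⟩
    obtain ⟨y, ⟨hy1, hy2⟩, hy3⟩ := hC.existsUnique_ne_adj (hXC _ _ ((e1 _).2 rfl))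
    refine ⟨x.1, y, hy1, e1, fun z => ?_⟩
    rw [sdiff_adj, e1]
    constructor
    · rintro ⟨k1, k2⟩
      exact hy3 z ⟨fun k => k2 k.symm, k1⟩
    · rintro rfl
      exact ⟨hy2, fun k => hy1 k.symm⟩

lemma colour_tour [Finite V] {G : SimpleGraph V} (hc : ∀ v, (G.neighborSet v).ncard = 3)
    {S : Set V} {C R B : SimpleGraph V} (X : Bool → SimpleGraph V) (hb : C.Colorable 2)
    (hXY : ∀ u v, C.Adj u v ↔ (X false).Adj u v ∨ (X true).Adj u v)
    (hm : ∀ v, (∃ u, C.Adj v u) → ∃ x y, x ≠ y ∧ (∀ z, (X false).Adj v z ↔ z = x) ∧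
      (∀ z, (X true).Adj v z ↔ z = y))
    (hsub : ∀ u v, C.Adj u v ∨ R.Adj u v ∨ B.Adj u v → G.Adj u v ∧ u ∈ S)
    (hCR : ∀ u v, C.Adj u v → ¬ R.Adj u v) (hRB : ∀ u v, R.Adj u v → ¬ B.Adj u v)
    (hR1 : ∀ v ∈ S, ∃ u, C.Adj v u ∨ R.Adj v u) (hB1 : ∀ v ∈ S, ∃ u, C.Adj v u ∨ B.Adj v u)
    (hconn : ∀ u ∈ S, ∀ v ∈ S, (C ⊔ R).Reachable u v)
    (hbr : ∀ u v, R.Adj u v → (C ⊔ R).IsBridge s(u, v) ∨ ((∃ p : C.Walk u v, Even p.length) ∧
      ∀ x y, R.Adj x y → C.Reachable u x → s(x, y) = s(u, v) ∨ (C ⊔ R).IsBridge s(x, y))) :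
    Tour (lay fun l => R ⊔ X l) S := by
  classical
  have := Fintype.ofFinite V
  have hXC : ∀ l u v, (X l).Adj u v → C.Adj u v := by
    intro l u v h
    cases l
    · exact (hXY u v).2 (Or.inl h)
    · exact (hXY u v).2 (Or.inr h)
  have hdeg : ∀ v ∈ S, (∀ l, One (R ⊔ X l) v) ∨ ((∀ l, Two (R ⊔ X l) v) ∧ ∃ u, R.Adj v u) := by
    intro v hv
    by_cases hvC : ∃ u, C.Adj v u
    · obtain ⟨x, y, hxy, ex, ey⟩ := hm v hvC
      have cx := hXC _ _ _ ((ex x).2 rfl)
      have cy := hXC _ _ _ ((ey y).2 rfl)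
      obtain ⟨t, hxt, hyt, e⟩ := nbrs3' hc (hsub _ _ (Or.inl cx)).1 (hsub _ _ (Or.inl cy)).1 hxy
      have hRt : ∀ z, R.Adj v z → z = t := by
        intro z hz
        rcases (e z).1 (hsub _ _ (Or.inr (Or.inl hz))).1 with k | k | k
        · exact absurd hz (k ▸ hCR _ _ cx)
        · exact absurd hz (k ▸ hCR _ _ cy)
        · exact k
      by_cases ht : R.Adj v t
      · refine Or.inr ⟨fun l => ?_, t, ht⟩
        cases l
        · exact ⟨x, t, hxt, fun z => by rw [sup_adj, ex]; grind⟩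
        · exact ⟨y, t, hyt, fun z => by rw [sup_adj, ey]; grind⟩
      · refine Or.inl fun l => ?_
        cases l
        · exact ⟨x, fun z => by rw [sup_adj, ex]; grind⟩
        · exact ⟨y, fun z => by rw [sup_adj, ey]; grind⟩
    · have nX : ∀ l z, ¬ (X l).Adj v z := fun l z k => hvC ⟨z, hXC _ _ _ k⟩
      obtain ⟨r, hr⟩ := hR1 v hv
      obtain ⟨b, hb⟩ := hB1 v hv
      have hr' : R.Adj v r := hr.resolve_left fun k => hvC ⟨_, k⟩
      have hb' : B.Adj v b := hb.resolve_left fun k => hvC ⟨_, k⟩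
      have hrb : r ≠ b := fun k => hRB _ _ hr' (k ▸ hb')
      obtain ⟨t, hrt, hbt, e⟩ := nbrs3' hc (hsub _ _ (Or.inr (Or.inl hr'))).1
        (hsub _ _ (Or.inr (Or.inr hb'))).1 hrb
      have hRt : ∀ z, R.Adj v z → z = r ∨ z = t := by
        intro z hz
        rcases (e z).1 (hsub _ _ (Or.inr (Or.inl hz))).1 with k | k | k
        · exact Or.inl k
        · exact absurd (k ▸ hb') (hRB _ _ hz)
        · exact Or.inr k
      by_cases ht : R.Adj v t
      · refine Or.inr ⟨fun l => ⟨r, t, hrt, fun z => ?_⟩, t, ht⟩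
        have := nX l z
        rw [sup_adj]; grind
      · refine Or.inl fun l => ⟨r, fun z => ?_⟩
        have := nX l z
        rw [sup_adj]; grind
  have hS : ∀ l u v, (R ⊔ X l).Adj u v → u ∈ S := by
    rintro l u v (k | k)
    · exact (hsub _ _ (Or.inr (Or.inl k))).2
    · exact (hsub _ _ (Or.inl (hXC _ _ _ k))).2
  have hsupp : ∀ x y, (lay fun l => R ⊔ X l).Adj x y → x.1 ∈ S := by
    rintro x y (k | ⟨-, -, p, k⟩)
    · exact hS _ _ _ k.2
    · exact hS _ _ _ ((k p).2 rfl)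
  have hd2 : ∀ x : V × Bool, x.1 ∈ S →
      ∃ p q, p ≠ q ∧ ∀ r, (lay fun l => R ⊔ X l).Adj x r ↔ r = p ∨ r = q := by
    rintro ⟨v, l⟩ hv
    exact lay_deg (K := fun l => R ⊔ X l) ((hdeg v hv).imp id fun k => k.1) l
  have hcyc : (lay fun l => R ⊔ X l).IsCycles := isCycles_of_deg fun x y k => hd2 x (hsupp x y k)
  refine ⟨hd2, hsupp, ?_⟩
  intro P hP
  have hle : ∀ l, R ⊔ X l ≤ C ⊔ R := by
    rintro l u v (k | k)
    · exact Or.inr k
    · exact Or.inl (hXC _ _ _ k)
  have br : ∀ v u, R.Adj v u → (C ⊔ R).IsBridge s(v, u) → (P (v, false) ↔ P (v, true)) := by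
    intro v u h1 h2
    have := lay_bridge (K := fun l => R ⊔ X l) hcyc hle (Or.inl h1) h2
    exact ⟨hP.reach this, hP.reach this.symm⟩
  have one : ∀ v, One (R ⊔ X false) v → (P (v, false) ↔ P (v, true)) := fun v h =>
    hP.iff (Or.inr ⟨rfl, by simp, h⟩)
  have lev : ∀ l u v, (R ⊔ X l).Adj u v → (P (u, l) ↔ P (v, l)) := fun l u v h =>
    hP.iff (Or.inl ⟨rfl, h⟩)
  have both : ∀ v ∈ S, (P (v, false) ↔ P (v, true)) := by
    intro v hv
    rcases hdeg v hv with h | ⟨-, u, hu⟩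
    · exact one v (h false)
    rcases hbr v u hu with h | ⟨⟨p, hp⟩, h⟩
    · exact br v u hu h
    obtain ⟨σ, hσ0, hσ⟩ := exists_sign hb
    have huv : σ u = σ v := by rw [sign_walk hσ p, hp.neg_one_pow, one_mul]
    let T : Finset V := Finset.univ.filter fun x => C.Reachable v x
    have hT : ∀ x, x ∈ T ↔ C.Reachable v x := by simp [T]
    have hTC : ∀ x ∈ T, ∃ z, C.Adj x z := by
      intro x hx
      by_cases k : x = v
      · subst k
        exact ⟨_, p.adj_snd (p.not_nil_of_ne hu.ne)⟩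
      · obtain ⟨q⟩ := ((hT x).1 hx).symm
        exact ⟨_, q.adj_snd (q.not_nil_of_ne k)⟩
    let f : Bool → V → ℤ := fun l x => if P (x, l) then σ x else 0
    have hsum : ∀ l, ∑ x ∈ T, f l x = 0 := by
      intro l
      apply sum_match (X l)
      · intro x hx
        obtain ⟨a, b, -, ea, eb⟩ := hm x (hTC x hx)
        cases l
        · exact ⟨a, ea⟩
        · exact ⟨b, eb⟩
      · intro x hx y hxy
        refine ⟨(hT y).2 (((hT x).1 hx).trans (hXC _ _ _ hxy).reachable), ?_⟩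
        have e1 := lev l x y (Or.inr hxy)
        have e2 := hσ x y (hXC _ _ _ hxy)
        simp only [f, ← e1, e2]
        split_ifs <;> simp
    have hdiff : ∑ x ∈ T, (f false x - f true x) = 0 := by
      rw [Finset.sum_sub_distrib, hsum, hsum, sub_self]
    have hsub2 : ({v, u} : Finset V) ⊆ T := by
      intro x hx
      simp only [Finset.mem_insert, Finset.mem_singleton] at hx
      rcases hx with rfl | rfl
      · exact (hT _).2 (Reachable.refl _)
      · exact (hT _).2 ⟨p⟩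
    rw [← Finset.sum_subset hsub2, Finset.sum_pair hu.ne] at hdiff
    · have e1 := lev false v u (Or.inl hu)
      have e2 := lev true v u (Or.inl hu)
      have := hσ0 v
      simp only [f, ← e1, ← e2, huv] at hdiff
      by_contra hn
      split_ifs at hdiff with k1 k2 k2
      · exact hn ⟨fun _ => k2, fun _ => k1⟩
      · omega
      · omega
      · exact hn ⟨fun k => absurd k k1, fun k => absurd k k2⟩
    · intro x hx hx'
      simp only [Finset.mem_insert, Finset.mem_singleton, not_or] at hx'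
      obtain ⟨z, hz⟩ := hTC x hx
      have : P (x, false) ↔ P (x, true) := by
        rcases hdeg x (hsub _ _ (Or.inl hz)).2 with k | ⟨-, y, hy⟩
        · exact one x (k false)
        · rcases h x y hy ((hT x).1 hx) with k | k
          · rw [Sym2.eq_iff] at k
            rcases k with k | k
            · exact absurd k.1 hx'.1
            · exact absurd k.1 hx'.2
          · exact br x y hy k
      simp only [f, this, sub_self]
  have hcl : Closed (C ⊔ R) (fun v => v ∈ S ∧ P (v, false)) := by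
    rintro u v huv ⟨k1, k2⟩
    have hvS : v ∈ S := by
      rcases huv with k | k
      · exact (hsub _ _ (Or.inl k.symm)).2
      · exact (hsub _ _ (Or.inr (Or.inl k.symm))).2
    refine ⟨hvS, ?_⟩
    rcases huv with k | k
    · rcases (hXY u v).1 k with t | t
      · exact (lev false u v (Or.inr t)).1 k2
      · exact (both v hvS).2 ((lev true u v (Or.inr t)).1 ((both u k1).1 k2))
    · exact (lev false u v (Or.inl k)).1 k2
  rintro ⟨x, l⟩ ⟨y, m⟩ hx hy hPx
  have h0 : P (x, false) := by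
    cases l
    · exact hPx
    · exact (both x hx).2 hPx
  have h1 := (hcl.reach (hconn x hx y hy) ⟨hx, h0⟩).2
  cases m
  · exact h1
  · exact (both y hy).1 h1

end Pool.Agent.MP_8c1b0d_co
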