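import Pool.Agent.MP_8c1b0d_co.Bridge

set_option autoImplicit false
open SimpleGraph Module

namespace Pool.Agent.MP_8c1b0d_co

variable {V Φ : Type}

lemma exists_transversal [Fintype V] [DecidableEq V] {s : V → V} (ss : ∀ v, s (s v) = v)
    (s_ne : ∀ v, s v ≠ v) : ∃ T : Finset V, ∀ v, s v ∈ T ↔ v ∉ T := by
  let e := Fintype.equivFin V
  refine ⟨Finset.univ.filter fun v => e v < e (s v), fun v => ?_⟩
  have : e (s v) ≠ e v := fun k => s_ne v (e.injective k)
  simp only [Finset.mem_filter, Finset.mem_univ, true_and, ss, not_lt]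
  exact ⟨le_of_lt, fun h => lt_of_le_of_ne h this⟩

lemma card_transversal [Fintype V] [DecidableEq V] {s : V → V} (ss : ∀ v, s (s v) = v)
    {T : Finset V} (hT : ∀ v, s v ∈ T ↔ v ∉ T) : 2 * T.card = Fintype.card V := by
  have : T.card = Tᶜ.card := by
    refine Finset.card_bij' (fun v _ => s v) (fun v _ => s v) ?_ ?_ ?_ ?_
    · intro v hv; exact Finset.mem_compl.2 fun k => (hT v).1 k hv
    · intro v hv; exact (hT v).2 (Finset.mem_compl.1 hv)
    · intro v _; exact ss v
    · intro v _; exact ss v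
  rw [← Finset.card_add_card_compl T]; omega

/-- functions invariant under `s` -/
def invF (s : V → V) : Submodule (ZMod 2) (V → ZMod 2) where
  carrier := {f | ∀ v, f (s v) = f v}
  zero_mem' := fun _ => rfl
  add_mem' := fun ha hb v => by simp only [Pi.add_apply, ha v, hb v]
  smul_mem' := fun t a ha v => by simp only [Pi.smul_apply, ha v]

lemma finrank_invF [Fintype V] [DecidableEq V] {s : V → V} (ss : ∀ v, s (s v) = v)
    (s_ne : ∀ v, s v ≠ v) : 2 * finrank (ZMod 2) (invF s) ≤ Fintype.card V := by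
  obtain ⟨T, hT⟩ := exists_transversal ss s_ne
  let r : invF s →ₗ[ZMod 2] (T → ZMod 2) :=
    (LinearMap.funLeft (ZMod 2) (ZMod 2) (fun t : T => (t : V))).comp (invF s).subtype
  have hr : Function.Injective r := by
    rw [injective_iff_map_eq_zero]
    intro f hf
    ext v
    by_cases hv : v ∈ T
    · exact congrFun hf ⟨v, hv⟩
    · exact (f.2 v).symm.trans (congrFun hf ⟨s v, (hT v).2 hv⟩)
  have := LinearMap.finrank_le_finrank_of_injective hr
  rw [finrank_fintype_fun_eq_card, Fintype.card_coe] at this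
  have := card_transversal ss hT
  omega

theorem planar_of_euler [Fintype V] [DecidableEq V] [Fintype Φ] [Nonempty V] {x y m : V → V}
    {fx fy fm : V → Φ} (xx : ∀ v, x (x v) = v) (yy : ∀ v, y (y v) = v) (mm : ∀ v, m (m v) = v)
    (x_ne : ∀ v, x v ≠ v) (y_ne : ∀ v, y v ≠ v) (m_ne : ∀ v, m v ≠ v)
    (hx : ∀ v, s(fy (x v), fm (x v)) = s(fy v, fm v))
    (hy : ∀ v, s(fx (y v), fm (y v)) = s(fx v, fm v))
    (hm : ∀ v, s(fx (m v), fy (m v)) = s(fx v, fy v))
    (conn : ∀ P : V → Prop, (∀ v, P v → P (x v) ∧ P (y v) ∧ P (m v)) → ∀ u v, P u → P v)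
    (surj : ∀ a, ∃ v, a = fx v ∨ a = fy v ∨ a = fm v)
    (euler : 2 * Fintype.card Φ = Fintype.card V + 4)
    (f g : V → ZMod 2) (hf : ∀ v, f (x v) = f v) (hg : ∀ v, g (y v) = g v)
    (hk : ∀ v, f (m v) + g (m v) = f v + g v) :
    ∃ h : Φ → ZMod 2, ∀ v, f v = h (fy v) + h (fm v) ∧ g v = h (fx v) + h (fm v) := by
  classical
  obtain ⟨v₀⟩ := ‹Nonempty V›
  have two : ∀ a : ZMod 2, a + a = 0 := CharTwo.add_self_eq_zero
  let P := invF x × invF y × invF m
  let bd : P →ₗ[ZMod 2] (V → ZMod 2) :=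
    (invF x).subtype.coprod ((invF y).subtype.coprod (invF m).subtype)
  have bd_ap : ∀ a : P, ∀ v, bd a v = a.1.1 v + (a.2.1.1 v + a.2.2.1 v) := fun _ _ => rfl
  let mk : ∀ (s : V → V) (a b : V → Φ), (∀ v, s(a (s v), b (s v)) = s(a v, b v)) →
      (Φ → ZMod 2) →ₗ[ZMod 2] invF s := fun s a b hs =>
    LinearMap.codRestrict (invF s)
      (LinearMap.funLeft (ZMod 2) (ZMod 2) a + LinearMap.funLeft (ZMod 2) (ZMod 2) b)
      (fun h v => by
        show h (a (s v)) + h (b (s v)) = h (a v) + h (b v)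
        rcases Sym2.eq_iff.1 (hs v) with e | e <;> rw [e.1, e.2]
        exact add_comm _ _)
  let cb : (Φ → ZMod 2) →ₗ[ZMod 2] P := (mk x fy fm hx).prod ((mk y fx fm hy).prod (mk m fx fy hm))
  have cb1 : ∀ h v, (cb h).1.1 v = h (fy v) + h (fm v) := fun _ _ => rfl
  have cb2 : ∀ h v, (cb h).2.1.1 v = h (fx v) + h (fm v) := fun _ _ => rfl
  have cb3 : ∀ h v, (cb h).2.2.1 v = h (fx v) + h (fy v) := fun _ _ => rfl
  have le : LinearMap.range cb ≤ LinearMap.ker bd := by
    rintro _ ⟨h, rfl⟩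
    rw [LinearMap.mem_ker]
    funext v
    rw [bd_ap, cb1, cb2, cb3, Pi.zero_apply]
    linear_combination two (h (fx v)) + two (h (fy v)) + two (h (fm v))
  -- the kernel of the coboundary consists of constants
  have k1 : finrank (ZMod 2) (LinearMap.ker cb) ≤ 1 := by
    let r : LinearMap.ker cb →ₗ[ZMod 2] ZMod 2 :=
      (LinearMap.proj (fx v₀)).comp (LinearMap.ker cb).subtype
    have hr : Function.Injective r := by
      rw [injective_iff_map_eq_zero]
      rintro ⟨h, hh⟩ h0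
      rw [LinearMap.mem_ker] at hh
      have e2 : ∀ v, h (fm v) = h (fx v) := fun v => by
        have := cb2 h v
        rw [hh] at this
        exact (CharTwo.add_eq_zero.1 this.symm).symm
      have e3 : ∀ v, h (fy v) = h (fx v) := fun v => by
        have := cb3 h v
        rw [hh] at this
        exact (CharTwo.add_eq_zero.1 this.symm).symm
      have all : ∀ v, h (fx v) = 0 := fun v => conn (fun v => h (fx v) = 0) (fun v hv => by
        refine ⟨?_, ?_, ?_⟩
        · rcases Sym2.eq_iff.1 (hx v) with e | e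
          · rw [← e3, e.1, e3, hv]
          · rw [← e3, e.1, e2, hv]
        · rcases Sym2.eq_iff.1 (hy v) with e | e
          · rw [e.1, hv]
          · rw [e.1, e2, hv]
        · rcases Sym2.eq_iff.1 (hm v) with e | e
          · rw [e.1, hv]
          · rw [e.1, e3, hv]) v₀ v h0
      ext a
      obtain ⟨v, rfl | rfl | rfl⟩ := surj a
      · exact all v
      · exact (e3 v).trans (all v)
      · exact (e2 v).trans (all v)
    simpa using LinearMap.finrank_le_finrank_of_injective hr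
  -- the boundary map has rank at least `|V| - 1`
  have k2 : Fintype.card V ≤ finrank (ZMod 2) (LinearMap.range bd) + 1 := by
    have inv : ∀ s : V → V, (∀ v, s (s v) = v) → ∀ v,
        (Pi.single v 1 + Pi.single (s v) 1 : V → ZMod 2) ∈ invF s := by
      intro s ss v w
      have e1 : s w = v ↔ w = s v := ⟨fun k => by rw [← k, ss], fun k => by rw [k, ss]⟩
      have e2 : s w = s v ↔ w = v := ⟨fun k => by rw [← ss w, k, ss], fun k => by rw [k]⟩
      simp only [Pi.add_apply, Pi.single_apply, e1, e2]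
      exact add_comm _ _
    have stepR : ∀ u v : V, (Pi.single u 1 + Pi.single v 1 : V → ZMod 2) ∈ LinearMap.range bd →
        (Pi.single u 1 + Pi.single v₀ 1 : V → ZMod 2) ∈ LinearMap.range bd →
        (Pi.single v 1 + Pi.single v₀ 1 : V → ZMod 2) ∈ LinearMap.range bd := by
      intro u v h1 h2
      convert Submodule.add_mem _ h1 h2 using 1
      funext w
      simp only [Pi.add_apply]
      linear_combination - two ((Pi.single u 1 : V → ZMod 2) w)
    have all : ∀ v, (Pi.single v 1 + Pi.single v₀ 1 : V → ZMod 2) ∈ LinearMap.range bd := by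
      intro v
      refine conn (fun v => (Pi.single v 1 + Pi.single v₀ 1 : V → ZMod 2) ∈ LinearMap.range bd)
        (fun v hv => ⟨stepR _ _ ⟨(⟨_, inv x xx v⟩, 0, 0), ?_⟩ hv,
          stepR _ _ ⟨(0, ⟨_, inv y yy v⟩, 0), ?_⟩ hv,
          stepR _ _ ⟨(0, 0, ⟨_, inv m mm v⟩), ?_⟩ hv⟩) v₀ v ?_
      · funext w; simp [bd_ap]
      · funext w; simp [bd_ap]
      · funext w; simp [bd_ap]
      · convert Submodule.zero_mem _
        funext w; exact two _
    have top : LinearMap.range bd ⊔ Submodule.span (ZMod 2) {(Pi.single v₀ 1 : V → ZMod 2)} = ⊤ := by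
      rw [eq_top_iff, ← (Pi.basisFun (ZMod 2) V).span_eq, Submodule.span_le]
      rintro _ ⟨v, rfl⟩
      rw [Pi.basisFun_apply]
      have := Submodule.add_mem_sup (all v)
        (Submodule.mem_span_singleton_self (R := ZMod 2) (Pi.single v₀ 1 : V → ZMod 2))
      rwa [add_assoc, CharTwo.add_self_eq_zero, add_zero] at this
    have h1 := Submodule.finrank_add_le_finrank_add_finrank (LinearMap.range bd)
      (Submodule.span (ZMod 2) {(Pi.single v₀ 1 : V → ZMod 2)})
    have h2 := finrank_span_le_card (R := ZMod 2) ({(Pi.single v₀ 1 : V → ZMod 2)} : Set _)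
    rw [top, finrank_top, finrank_fintype_fun_eq_card] at h1
    simp only [Set.toFinset_singleton, Finset.card_singleton] at h2
    omega
  have k3 := LinearMap.finrank_range_add_finrank_ker cb
  have k4 := LinearMap.finrank_range_add_finrank_ker bd
  rw [finrank_fintype_fun_eq_card] at k3
  have k5 : finrank (ZMod 2) P = finrank (ZMod 2) (invF x) +
      (finrank (ZMod 2) (invF y) + finrank (ZMod 2) (invF m)) := by
    simp only [P, finrank_prod]
  have i1 := finrank_invF xx x_ne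
  have i2 := finrank_invF yy y_ne
  have i3 := finrank_invF mm m_ne
  have eq := Submodule.eq_of_le_of_finrank_le le (by omega)
  have mem : ((⟨f, hf⟩, ⟨g, hg⟩, ⟨f + g, hk⟩) : P) ∈ LinearMap.ker bd := by
    rw [LinearMap.mem_ker]
    funext v
    rw [bd_ap]
    simp only [Pi.add_apply, Pi.zero_apply]
    linear_combination two (f v) + two (g v)
  rw [← eq] at mem
  obtain ⟨h, hh⟩ := mem
  exact ⟨h, fun v => ⟨by rw [← cb1, hh], by rw [← cb2, hh]⟩⟩

/-- the face permutation of a rotation system -/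
def facePerm {G : SimpleGraph V} (σ : Equiv.Perm G.Dart) : Equiv.Perm G.Dart :=
  σ * Function.Involutive.toPerm _ Dart.symm_involutive

/-- a rotation system with Euler's formula and a 3-edge-colouring give a `Col` -/
theorem exists_col [Fintype V] [DecidableEq V] {G : SimpleGraph V} (hc : G.Connected)
    {x y m : V → V} (xx : ∀ v, x (x v) = v) (yy : ∀ v, y (y v) = v) (mm : ∀ v, m (m v) = v)
    (xy : ∀ v, x v ≠ y v) (xm : ∀ v, x v ≠ m v) (ym : ∀ v, y v ≠ m v)
    (hG : ∀ u v, G.Adj u v ↔ v = x u ∨ v = y u ∨ v = m u)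
    (σ : Equiv.Perm G.Dart) (h1 : ∀ d, (σ d).fst = d.fst) (h2 : ∀ d, σ d ≠ d)
    (euler : 2 * Nat.card (Quotient (Equiv.Perm.SameCycle.setoid (facePerm σ))) =
      Fintype.card V + 4) :
    ∃ c : Col V (Quotient (Equiv.Perm.SameCycle.setoid (facePerm σ))),
      c.x = x ∧ c.y = y ∧ c.m = m ∧
      (∀ v (h : G.Adj v (x v)), c.fx v = ⟦σ (σ ⟨(v, x v), h⟩)⟧) ∧
      (∀ v (h : G.Adj v (y v)), c.fy v = ⟦σ (σ ⟨(v, y v), h⟩)⟧) ∧
      (∀ v (h : G.Adj v (m v)), c.fm v = ⟦σ (σ ⟨(v, m v), h⟩)⟧) := by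
  classical
  have ax : ∀ v, G.Adj v (x v) := fun v => (hG _ _).2 (Or.inl rfl)
  have ay : ∀ v, G.Adj v (y v) := fun v => (hG _ _).2 (Or.inr (Or.inl rfl))
  have am : ∀ v, G.Adj v (m v) := fun v => (hG _ _).2 (Or.inr (Or.inr rfl))
  let Φ := Quotient (Equiv.Perm.SameCycle.setoid (facePerm σ))
  let F : G.Dart → Φ := fun d => ⟦d⟧
  have hF : ∀ d, F (σ d) = F d.symm := fun d => by
    have : σ d = facePerm σ d.symm := by simp [facePerm]
    rw [this]
    exact Quotient.sound (Equiv.Perm.sameCycle_apply_left.2 (Equiv.Perm.SameCycle.refl _ _))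
  let dx : V → G.Dart := fun v => ⟨(v, x v), ax v⟩
  let dy : V → G.Dart := fun v => ⟨(v, y v), ay v⟩
  let dm : V → G.Dart := fun v => ⟨(v, m v), am v⟩
  have three : ∀ v (d : G.Dart), d.fst = v → d = dx v ∨ d = dy v ∨ d = dm v := by
    rintro v ⟨⟨a, b⟩, h⟩ rfl
    rcases (hG _ _).1 h with e | e | e <;> simp only at e <;> subst e <;> simp [dx, dy, dm]
  have nxy : ∀ v, dx v ≠ dy v := fun v k => xy v (congrArg (fun d : G.Dart => d.snd) k)
  have nxm : ∀ v, dx v ≠ dm v := fun v k => xm v (congrArg (fun d : G.Dart => d.snd) k)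
  have nym : ∀ v, dy v ≠ dm v := fun v k => ym v (congrArg (fun d : G.Dart => d.snd) k)
  have rot : ∀ v, (σ (dx v) = dy v ∧ σ (dy v) = dm v ∧ σ (dm v) = dx v) ∨
      (σ (dx v) = dm v ∧ σ (dm v) = dy v ∧ σ (dy v) = dx v) := by
    intro v
    have a1 := three v _ (h1 (dx v))
    have a2 := three v _ (h1 (dy v))
    have a3 := three v _ (h1 (dm v))
    have b1 := h2 (dx v)
    have b2 := h2 (dy v)
    have b3 := h2 (dm v)
    have c1 : σ (dx v) ≠ σ (dy v) := σ.injective.ne (nxy v)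
    have c2 : σ (dx v) ≠ σ (dm v) := σ.injective.ne (nxm v)
    have c3 : σ (dy v) ≠ σ (dm v) := σ.injective.ne (nym v)
    grind
  have sx : ∀ v, s(F (σ (σ (dy v))), F (σ (σ (dm v)))) = s(F (dx v), F (dx v).symm) := by
    intro v
    rw [← hF]
    rcases rot v with ⟨e1, e2, e3⟩ | ⟨e1, e2, e3⟩ <;> simp only [e1, e2, e3]
    exact Sym2.eq_swap
  have sy : ∀ v, s(F (σ (σ (dx v))), F (σ (σ (dm v)))) = s(F (dy v), F (dy v).symm) := by
    intro v
    rw [← hF]
    rcases rot v with ⟨e1, e2, e3⟩ | ⟨e1, e2, e3⟩ <;> simp only [e1, e2, e3]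
    exact Sym2.eq_swap
  have sm : ∀ v, s(F (σ (σ (dx v))), F (σ (σ (dy v)))) = s(F (dm v), F (dm v).symm) := by
    intro v
    rw [← hF]
    rcases rot v with ⟨e1, e2, e3⟩ | ⟨e1, e2, e3⟩ <;> simp only [e1, e2, e3]
    exact Sym2.eq_swap
  have tx : ∀ v, dx (x v) = (dx v).symm := fun v => Dart.ext _ _ (by simp [dx, xx])
  have ty : ∀ v, dy (y v) = (dy v).symm := fun v => Dart.ext _ _ (by simp [dy, yy])
  have tm : ∀ v, dm (m v) = (dm v).symm := fun v => Dart.ext _ _ (by simp [dm, mm])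
  have hx : ∀ v, s(F (σ (σ (dy (x v)))), F (σ (σ (dm (x v))))) =
      s(F (σ (σ (dy v))), F (σ (σ (dm v)))) := fun v => by
    rw [sx, sx, tx, Dart.symm_symm, Sym2.eq_swap]
  have hy : ∀ v, s(F (σ (σ (dx (y v)))), F (σ (σ (dm (y v))))) =
      s(F (σ (σ (dx v))), F (σ (σ (dm v)))) := fun v => by
    rw [sy, sy, ty, Dart.symm_symm, Sym2.eq_swap]
  have hm : ∀ v, s(F (σ (σ (dx (m v)))), F (σ (σ (dy (m v))))) =
      s(F (σ (σ (dx v))), F (σ (σ (dy v)))) := fun v => by
    rw [sm, sm, tm, Dart.symm_symm, Sym2.eq_swap]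
  have : Nonempty V := hc.nonempty
  have : Fintype Φ := Fintype.ofFinite _
  refine ⟨⟨x, y, m, fun v => F (σ (σ (dx v))), fun v => F (σ (σ (dy v))),
    fun v => F (σ (σ (dm v))), xx, yy, mm, fun v => (ax v).ne', fun v => (ay v).ne',
    fun v => (am v).ne', xy, xm, ym, hx, hy, hm,
    planar_of_euler xx yy mm (fun v => (ax v).ne') (fun v => (ay v).ne') (fun v => (am v).ne')
      hx hy hm ?_ ?_ (by rw [← Nat.card_eq_fintype_card]; exact euler)⟩,
    rfl, rfl, rfl, fun _ _ => rfl, fun _ _ => rfl, fun _ _ => rfl⟩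
  · intro P hP u v hu
    refine Closed.reach (H := G) (fun a b hab ha => ?_) (hc.preconnected u v) hu
    rcases (hG _ _).1 hab with rfl | rfl | rfl
    exacts [(hP a ha).1, (hP a ha).2.1, (hP a ha).2.2]
  · intro a
    obtain ⟨d, rfl⟩ := Quotient.exists_rep a
    obtain ⟨d', rfl⟩ := (σ * σ).surjective d
    refine ⟨d'.fst, ?_⟩
    rcases three _ d' rfl with e | e | e
    · left; rw [← e]; rfl
    · right; left; rw [← e]; rfl
    · right; right; rw [← e]; rfl

end Pool.Agent.MP_8c1b0d_co
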