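import Pool.Agent.MP_8c1b0d_co.CT
import Pool.Agent.MP_8c1b0d_co.CH
import Pool.Agent.MP_8c1b0d_co.CA

set_option autoImplicit false
set_option linter.unusedSectionVars false
open Finset Module

namespace Pool.Agent.MP_8c1b0d_co

/-- the `m`-edges: ordinary ones `E` and a family `N` of disjoint alternating hexagons -/
structure Fam {V : Type} (t : Tri V) (E N : Type) where
  vx : (E × Bool) ⊕ (N × Fin 3 × Bool) ≃ V
  c : N → Bool
  m1 : ∀ e b, t.m (vx (.inl (e, b))) = vx (.inl (e, !b))
  m2 : ∀ f i b, t.m (vx (.inr (f, i, b))) = vx (.inr (f, i, !b))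
  hx : ∀ f i, t.col (c f) (vx (.inr (f, i, true))) = vx (.inr (f, i + 1, false))

/-- functions invariant under the three colours are constant -/
def Tri.Cn {V : Type} (t : Tri V) : Prop := ∀ (X : Type) (φ : V → X), (∀ v, φ (t.x v) = φ v) →
  (∀ v, φ (t.y v) = φ v) → (∀ v, φ (t.m v) = φ v) → ∀ u v, φ u = φ v

/-- the site of a coordinate -/
def site {E N : Type} : E ⊕ N × Bool → E ⊕ N := Sum.map id Prod.fst

namespace Fam
variable {V E N : Type} [Fintype V] [DecidableEq V] [Fintype E] [DecidableEq E] [Fintype N]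
  [DecidableEq N] {t : Tri V} (F : Fam t E N)

/-- ends of an ordinary edge -/
def u (e : E) (b : Bool) : V := F.vx (.inl (e, b))
/-- vertices of a hexagon -/
def w (f : N) (i : Fin 3) (b : Bool) : V := F.vx (.inr (f, i, b))
/-- legs of a hexagon -/
def lg (f : N) (i : Fin 3) (b : Bool) : V × Bool := (F.w f i b, !F.c f)
/-- the node of a vertex -/
def ndv (v : V) : E ⊕ N := Sum.map Prod.fst Prod.fst (F.vx.symm v)
/-- the node of a half-edge -/
def nd (h : V × Bool) : E ⊕ N := F.ndv h.1
/-- the side of a vertex on its `m`-edge -/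
def sd (v : V) : Bool := Sum.elim Prod.snd (fun p => p.2.2) (F.vx.symm v)
/-- inner half-edges of the hexagons -/
def In : Finset (V × Bool) := {h | ∃ f, F.ndv h.1 = .inr f ∧ h.2 = F.c f}
/-- the family is maximal -/
def Max : Prop := ∀ v c, t.Alt v c → ∃ v' ∈ t.hex v c, ∃ f, F.ndv v' = .inr f

variable (K : Type) [Field K] [CharP K 2]

/-- local coordinates -/
def pi : (V × Bool → K) →ₗ[K] V1 K (E ⊕ N × Bool) where
  toFun g :=
    (Sum.elim (fun e => g (F.u e false, false) + g (F.u e false, true))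
      (fun p => if p.2 then g (F.lg p.1 1 true) + g (F.lg p.1 2 false)
        else g (F.lg p.1 0 false) + g (F.lg p.1 2 true)),
     Sum.elim (fun e => g (F.u e false, false) + g (F.u e true, false))
      (fun p => if p.2 then g (F.lg p.1 1 false) + g (F.lg p.1 1 true)
        else g (F.lg p.1 0 false) + g (F.lg p.1 0 true)))
  map_add' a b := by
    ext (e | ⟨f, _ | _⟩) <;> simp <;> ring
  map_smul' r a := by
    ext (e | ⟨f, _ | _⟩) <;> simp <;> ring

/-- symmetric on inner edges and even at every node -/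
def EI : Submodule K (V × Bool → K) where
  carrier := {g | (∀ h ∈ F.In, g (t.o h) = g h) ∧ ∀ v, chi K {h | F.nd h = v} ⬝ᵥ g = 0}
  zero_mem' := ⟨fun _ _ => rfl, fun _ => dotProduct_zero _⟩
  add_mem' := fun ha hb => ⟨fun h hh => by simp only [Pi.add_apply, ha.1 h hh, hb.1 h hh],
    fun v => by rw [dotProduct_add, ha.2 v, hb.2 v, add_zero]⟩
  smul_mem' := fun r a ha => ⟨fun h hh => by simp only [Pi.smul_apply, ha.1 h hh],
    fun v => by rw [dotProduct_smul, ha.2 v, smul_zero]⟩

/-- the isotropic space of the graph -/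
def L : Submodule K (V1 K (E ⊕ N × Bool)) := (symm K t.o ⊓ F.EI K).map (F.pi K)

end Fam
end Pool.Agent.MP_8c1b0d_co

set_option autoImplicit false
set_option linter.unusedSectionVars false
open Finset Module

namespace Pool.Agent.MP_8c1b0d_co

namespace Fam
variable {V E N : Type} [Fintype V] [DecidableEq V] [Fintype E] [DecidableEq E] [Fintype N]
  [DecidableEq N] {t : Tri V} (F : Fam t E N)

theorem ndv_u (e : E) (b : Bool) : F.ndv (F.u e b) = .inl e := by
  simp [ndv, u]
theorem ndv_w (f : N) (i : Fin 3) (b : Bool) : F.ndv (F.w f i b) = .inr f := by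
  simp [ndv, w]
theorem cases (v : V) : (∃ e b, v = F.u e b) ∨ ∃ f i b, v = F.w f i b := by
  obtain ⟨⟨e, b⟩ | ⟨f, i, b⟩, rfl⟩ := F.vx.surjective v
  · exact .inl ⟨e, b, rfl⟩
  · exact .inr ⟨f, i, b, rfl⟩
theorem ndv_m (v : V) : F.ndv (t.m v) = F.ndv v := by
  obtain ⟨⟨e, b⟩ | ⟨f, i, b⟩, rfl⟩ := F.vx.surjective v
  · rw [F.m1]
    simp [ndv]
  · rw [F.m2]
    simp [ndv]
theorem sd_m (v : V) : F.sd (t.m v) = !F.sd v := by
  obtain ⟨⟨e, b⟩ | ⟨f, i, b⟩, rfl⟩ := F.vx.surjective v
  · rw [F.m1]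
    simp [sd]
  · rw [F.m2]
    simp [sd]
/-- from `hx` at `i - 1` and the involution -/
theorem hx' (f : N) (i : Fin 3) : t.col (F.c f) (F.w f (i + 1) false) = F.w f i true := by
  exact (congrArg (t.col (F.c f)) (F.hx f i).symm).trans
    (congrArg Prod.fst (t.o_o (F.w f i true, F.c f)))
theorem mem_In_w (f : N) (i : Fin 3) (b c : Bool) : (F.w f i b, c) ∈ F.In ↔ c = F.c f := by
  simp [In, ndv_w]
theorem not_In_u (e : E) (b c : Bool) : (F.u e b, c) ∉ F.In := by
  simp [In, ndv_u]
theorem o_In (h : V × Bool) (hh : h ∈ F.In) : t.o h ∈ F.In ∧ F.nd (t.o h) = F.nd h := by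
  obtain ⟨v, c⟩ := h
  rcases F.cases v with ⟨e, b, rfl⟩ | ⟨f, i, b, rfl⟩
  · exact absurd hh (F.not_In_u e b c)
  obtain rfl := (F.mem_In_w f i b c).1 hh
  cases b
  · obtain ⟨j, rfl⟩ : ∃ j, i = j + 1 := ⟨i - 1, (sub_add_cancel i 1).symm⟩
    rw [show t.o (F.w f (j + 1) false, F.c f) = (F.w f j true, F.c f) from
      Prod.ext (F.hx' f j) rfl]
    exact ⟨(F.mem_In_w ..).2 rfl, (F.ndv_w ..).trans (F.ndv_w ..).symm⟩
  · rw [show t.o (F.w f i true, F.c f) = (F.w f (i + 1) false, F.c f) from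
      Prod.ext (F.hx f i) rfl]
    exact ⟨(F.mem_In_w ..).2 rfl, (F.ndv_w ..).trans (F.ndv_w ..).symm⟩

theorem g1_s1 (e : E) : site (.inl e : E ⊕ N × Bool) = .inl e := rfl

theorem g1_s2 (f : N) (b : Bool) : site (.inr (f, b) : E ⊕ N × Bool) = .inr f := rfl

theorem g1_nd_u (e : E) (b c : Bool) : F.nd (F.u e b, c) = .inl e := F.ndv_u e b

theorem g1_nd_w (f : N) (i : Fin 3) (b c : Bool) : F.nd (F.w f i b, c) = .inr f := F.ndv_w f i b

theorem g1_nd_lg (f : N) (i : Fin 3) (b : Bool) : F.nd (F.lg f i b) = .inr f := F.ndv_w f i b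

theorem g1_lg_notIn (f : N) (i : Fin 3) (b : Bool) : F.lg f i b ∉ F.In := fun h => by
  simpa using (F.mem_In_w f i b _).1 h

theorem g1_inl {h : V × Bool} {e : E} (hh : F.nd h = .inl e) : ∃ b c, h = (F.u e b, c) := by
  obtain ⟨v, c⟩ := h
  rcases F.cases v with ⟨e', b, rfl⟩ | ⟨f, i, b, rfl⟩
  · obtain rfl : e' = e := Sum.inl.inj ((F.ndv_u e' b).symm.trans hh)
    exact ⟨b, c, rfl⟩
  · exact absurd ((F.ndv_w f i b).symm.trans hh) (by simp)

theorem g1_inr {h : V × Bool} {f : N} (hI : h ∉ F.In) (hh : F.nd h = .inr f) :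
    ∃ i b, h = F.lg f i b := by
  obtain ⟨v, c⟩ := h
  rcases F.cases v with ⟨e', b, rfl⟩ | ⟨f', i, b, rfl⟩
  · exact absurd ((F.ndv_u e' b).symm.trans hh) (by simp)
  · obtain rfl : f' = f := Sum.inr.inj ((F.ndv_w f' i b).symm.trans hh)
    exact ⟨i, b, Prod.ext rfl (Bool.eq_not.2 fun e => hI ((F.mem_In_w ..).2 e))⟩

variable {K : Type} [Field K] [CharP K 2]

theorem g1_sum (φ : V × Bool → K) : ∑ h, φ h =
    ∑ e, (φ (F.u e false, false) + φ (F.u e false, true) + φ (F.u e true, false) +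
      φ (F.u e true, true)) + ∑ f, ∑ i : Fin 3, (φ (F.w f i false, false) +
        φ (F.w f i false, true) + φ (F.w f i true, false) + φ (F.w f i true, true)) := by
  rw [Fintype.sum_prod_type, ← F.vx.sum_comp, Fintype.sum_sum_type]
  simp only [Fintype.sum_prod_type, Fintype.sum_bool, u, w]
  congr 1
  · exact sum_congr rfl fun e _ => by ring
  · exact sum_congr rfl fun f _ => sum_congr rfl fun i _ => by ring

theorem g1_hex (φ : V × Bool → K) (h : ∀ h ∈ F.In, φ (t.o h) = φ h) (f : N) :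
    ∑ i : Fin 3, (φ (F.w f i false, false) + φ (F.w f i false, true) + φ (F.w f i true, false) +
      φ (F.w f i true, true)) = φ (F.lg f 0 false) + φ (F.lg f 0 true) + φ (F.lg f 1 false) +
        φ (F.lg f 1 true) + φ (F.lg f 2 false) + φ (F.lg f 2 true) := by
  have two : (2 : K) = 0 := CharTwo.two_eq_zero
  have h1 : ∀ i, φ (F.w f (i + 1) false, F.c f) = φ (F.w f i true, F.c f) := fun i => by
    rw [← h (F.w f i true, F.c f) ((F.mem_In_w ..).2 rfl)]
    exact congrArg φ (Prod.ext (F.hx f i).symm rfl)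
  have h2 : ∀ i b, φ (F.w f i b, false) + φ (F.w f i b, true) =
      φ (F.w f i b, F.c f) + φ (F.lg f i b) := fun i b => by
    unfold lg
    cases F.c f
    · rfl
    · exact add_comm _ _
  have a0 : φ (F.w f 1 false, F.c f) = _ := h1 0
  have a1 : φ (F.w f 2 false, F.c f) = _ := h1 1
  have a2 : φ (F.w f 0 false, F.c f) = _ := h1 2
  rw [Fin.sum_univ_three]
  linear_combination h2 0 false + h2 0 true + h2 1 false + h2 1 true + h2 2 false + h2 2 true +
    a0 + a1 + a2 + (φ (F.w f 0 true, F.c f) + φ (F.w f 1 true, F.c f) +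
      φ (F.w f 2 true, F.c f)) * two

theorem g1_pi1 (g : V × Bool → K) (e : E) :
    (F.pi K g).1 (.inl e) = g (F.u e false, false) + g (F.u e false, true) := rfl
theorem g1_pi2 (g : V × Bool → K) (e : E) :
    (F.pi K g).2 (.inl e) = g (F.u e false, false) + g (F.u e true, false) := rfl
theorem g1_pi3 (g : V × Bool → K) (f : N) :
    (F.pi K g).1 (.inr (f, false)) = g (F.lg f 0 false) + g (F.lg f 2 true) := rfl
theorem g1_pi4 (g : V × Bool → K) (f : N) :
    (F.pi K g).1 (.inr (f, true)) = g (F.lg f 1 true) + g (F.lg f 2 false) := rfl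
theorem g1_pi5 (g : V × Bool → K) (f : N) :
    (F.pi K g).2 (.inr (f, false)) = g (F.lg f 0 false) + g (F.lg f 0 true) := rfl
theorem g1_pi6 (g : V × Bool → K) (f : N) :
    (F.pi K g).2 (.inr (f, true)) = g (F.lg f 1 false) + g (F.lg f 1 true) := rfl

theorem g1_ord {a b c d a' b' c' d' : K} (h : a + b + c + d = 0) (h' : a' + b' + c' + d' = 0) :
    a * a' + b * b' + c * c' + d * d' = (a + b) * (a' + c') + (a' + b') * (a + c) := by
  have two : (2 : K) = 0 := CharTwo.two_eq_zero
  linear_combination d' * h + (a + b + c) * h' - (a * a' + a * b' + a * c' + a * d' + a' * b +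
    a' * c + b * c' + b * d' + b' * c + c * d') * two

theorem g1_six {a b c d e f a' b' c' d' e' f' : K} (h : a + b + c + d + e + f = 0)
    (h' : a' + b' + c' + d' + e' + f' = 0) :
    a * a' + b * b' + c * c' + d * d' + e * e' + f * f' =
      (d + e) * (c' + d') + (d' + e') * (c + d) + ((a + f) * (a' + b') + (a' + f') * (a + b)) := by
  have two : (2 : K) = 0 := CharTwo.two_eq_zero
  linear_combination (f' + a' + b') * h + (a + b + c + d + e + a + b) * h' -
    (2 * a * a' + 2 * a * b' + a * c' + a * d' + a * e' + 2 * a * f' + 2 * a' * b + a' * c +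
      a' * d + a' * e + a' * f + b * b' + b * c' + b * d' + b * e' + 2 * b * f' + b' * c +
      b' * d + b' * e + b' * f + c * d' + c * e' + c * f' + c' * d + c' * e + d * d' +
      d * e' + d * f' + d' * e + e * f') * two

/-- the values of the section on the legs -/
def g1_tab (x : V1 K (E ⊕ N × Bool)) (f : N) (i : Fin 3) (b : Bool) : K :=
  ![cond b (x.2 (.inr (f, false))) 0,
    cond b (x.1 (.inr (f, false)) + x.2 (.inr (f, false)) + x.1 (.inr (f, true)) +
      x.2 (.inr (f, true))) (x.1 (.inr (f, false)) + x.2 (.inr (f, false)) + x.1 (.inr (f, true)) +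
      x.2 (.inr (f, true)) + x.2 (.inr (f, true))),
    cond b (x.1 (.inr (f, false))) (x.1 (.inr (f, false)) + x.2 (.inr (f, false)) +
      x.1 (.inr (f, true)) + x.2 (.inr (f, true)) + x.1 (.inr (f, true)))] i

/-- the section -/
def g1_sec (x : V1 K (E ⊕ N × Bool)) (h : V × Bool) : K :=
  Sum.elim (fun p : E × Bool => (if h.2 then x.1 (.inl p.1) else 0) +
      if p.2 then x.2 (.inl p.1) else 0)
    (fun p : N × Fin 3 × Bool => if h.2 = F.c p.1 then 0 else g1_tab x p.1 p.2.1 p.2.2)
    (F.vx.symm h.1)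

/-- sum over the half-edges of an ordinary node (reindex by `vx`) -/
theorem sum_u (e : E) (g : V × Bool → K) : chi K {h | F.nd h = .inl e} ⬝ᵥ g =
    g (F.u e false, false) + g (F.u e false, true) + g (F.u e true, false) +
      g (F.u e true, true) := by
  rw [dotProduct, F.g1_sum]
  simp only [chi, mem_filter, mem_univ, true_and, g1_nd_u, g1_nd_w, Sum.inl.injEq, reduceCtorEq,
    if_false, zero_mul, add_zero, sum_const_zero]
  rw [Finset.sum_eq_single e (fun e' _ he => by simp [he]) (by simp)]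
  simp

/-- sum over the half-edges of a hexagon node -/
theorem sum_w (f : N) (g : V × Bool → K) : chi K {h | F.nd h = .inr f} ⬝ᵥ g =
    ∑ i : Fin 3, (g (F.w f i false, false) + g (F.w f i false, true) + g (F.w f i true, false) +
      g (F.w f i true, true)) := by
  rw [dotProduct, F.g1_sum]
  simp only [chi, mem_filter, mem_univ, true_and, g1_nd_u, g1_nd_w, Sum.inr.injEq, reduceCtorEq,
    if_false, zero_mul, add_zero, sum_const_zero, zero_add]
  rw [Finset.sum_eq_single f (fun e' _ he => by simp [he]) (by simp)]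
  simp

/-- evenness in coordinates (the inner values cancel in pairs by `hx`) -/
theorem mem_EI (g : V × Bool → K) : g ∈ F.EI K ↔ (∀ h ∈ F.In, g (t.o h) = g h) ∧
    (∀ e, g (F.u e false, false) + g (F.u e false, true) + g (F.u e true, false) +
      g (F.u e true, true) = 0) ∧
    ∀ f, g (F.lg f 0 false) + g (F.lg f 0 true) + g (F.lg f 1 false) + g (F.lg f 1 true) +
      g (F.lg f 2 false) + g (F.lg f 2 true) = 0 := by
  refine and_congr_right fun h1 => ?_
  rw [Sum.forall]
  simp only [F.sum_u, F.sum_w, F.g1_hex g h1]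

theorem cut_EI (S : Finset (E ⊕ N)) (g : V × Bool → K) (hg : g ∈ F.EI K) :
    cut {h | F.nd h ∈ S} g ∈ F.EI K := by
  obtain ⟨h1, h2, h3⟩ := (F.mem_EI g).1 hg
  refine (F.mem_EI _).2 ⟨fun h hh => ?_, fun e => ?_, fun f => ?_⟩
  · simp only [cut_apply, mem_filter, mem_univ, true_and, (F.o_In h hh).2, h1 h hh]
  · simp only [cut_apply, mem_filter, mem_univ, true_and, g1_nd_u]
    split_ifs
    · exact h2 e
    · simp
  · simp only [cut_apply, mem_filter, mem_univ, true_and, g1_nd_lg]
    split_ifs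
    · exact h3 f
    · simp

theorem pi_cut (S : Finset (E ⊕ N)) (g : V × Bool → K) :
    F.pi K (cut {h | F.nd h ∈ S} g) = pr {p | site p ∈ S} (F.pi K g) := by
  refine Prod.ext (funext ?_) (funext ?_) <;> rintro (e | ⟨f, _ | _⟩) <;>
    simp only [s1_pr_fst, s1_pr_snd, g1_pi1, g1_pi2, g1_pi3, g1_pi4, g1_pi5, g1_pi6, cut_apply,
      mem_filter, mem_univ, true_and, g1_nd_u, g1_nd_lg, g1_s1, g1_s2] <;>
    split_ifs <;> simp

/-- `pi` only reads non-inner half-edges -/
theorem pi_congr (g g' : V × Bool → K) (h : ∀ a ∉ F.In, g a = g' a) : F.pi K g = F.pi K g' := by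
  refine Prod.ext (funext ?_) (funext ?_) <;> rintro (e | ⟨f, _ | _⟩) <;>
    simp only [g1_pi1, g1_pi2, g1_pi3, g1_pi4, g1_pi5, g1_pi6, h _ (F.not_In_u _ _ _),
      h _ (F.g1_lg_notIn _ _ _)]

/-- The dot product is the symplectic form. Plan: write both sides as sums over the nodes
(`sum_u`, `sum_w` applied to `g * g'`; `Fintype.sum_sum_type`, `Finset.sum_fiberwise`), eliminate
the last value by `mem_EI`, inner products cancel in pairs; `linear_combination .. * two`. -/
theorem dot_eq (g g' : V × Bool → K) (hg : g ∈ F.EI K) (hg' : g' ∈ F.EI K) :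
    g ⬝ᵥ g' = om (F.pi K g) (F.pi K g') := by
  obtain ⟨h1, h2, h3⟩ := (F.mem_EI g).1 hg
  obtain ⟨k1, k2, k3⟩ := (F.mem_EI g').1 hg'
  rw [dotProduct, F.g1_sum, om_apply, bb_apply, bb_apply, ← sum_add_distrib,
    Fintype.sum_sum_type, Fintype.sum_prod_type]
  congr 1
  · exact sum_congr rfl fun e _ => g1_ord (h2 e) (k2 e)
  · refine sum_congr rfl fun f _ => ?_
    rw [F.g1_hex (fun h => g h * g' h) (fun h hh => by rw [h1 h hh, k1 h hh]), Fintype.sum_bool]
    exact g1_six (h3 f) (k3 f)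

/-- A section. Ordinary node with coordinates `(a, b)`: values `0, a, b, a + b`. Hexagon with
`p = x.1 (f,false)`, `q = x.2 (f,false)`, `p' = x.1 (f,true)`, `q' = x.2 (f,true)`,
`s = p + q + p' + q'`: legs `0, q, s + q', s, s + p', p`; inner values `0`. -/
theorem sect (x : V1 K (E ⊕ N × Bool)) :
    ∃ g ∈ F.EI K, F.pi K g = x ∧ ∀ h ∈ F.In, g h = 0 := by
  have two : (2 : K) = 0 := CharTwo.two_eq_zero
  have hu : ∀ e b c, F.g1_sec x (F.u e b, c) =
      (if c then x.1 (.inl e) else 0) + if b then x.2 (.inl e) else 0 := fun e b c => by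
    simp [g1_sec, u]
  have hl : ∀ f i b, F.g1_sec x (F.lg f i b) = g1_tab x f i b := fun f i b => by
    simp [g1_sec, lg, w]
  have h0 : ∀ h ∈ F.In, F.g1_sec x h = 0 := by
    rintro ⟨v, c⟩ hh
    rcases F.cases v with ⟨e, b, rfl⟩ | ⟨f, i, b, rfl⟩
    · exact absurd hh (F.not_In_u e b c)
    · obtain rfl := (F.mem_In_w f i b c).1 hh
      simp [g1_sec, w]
  refine ⟨F.g1_sec x, (F.mem_EI _).2 ⟨fun h hh => by rw [h0 h hh, h0 _ (F.o_In h hh).1],
    fun e => ?_, fun f => ?_⟩, ?_, h0⟩
  · simp only [hu, if_true, Bool.false_eq_true, if_false]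
    linear_combination (x.1 (.inl e) + x.2 (.inl e)) * two
  · simp only [hl, g1_tab, Matrix.cons_val, cond_true, cond_false]
    linear_combination (2 * (x.1 (.inr (f, false)) + x.2 (.inr (f, false)) +
      x.1 (.inr (f, true)) + x.2 (.inr (f, true)))) * two
  · refine Prod.ext (funext ?_) (funext ?_) <;> rintro (e | ⟨f, _ | _⟩) <;>
      simp only [g1_pi1, g1_pi2, g1_pi3, g1_pi4, g1_pi5, g1_pi6, hu, hl, g1_tab, Matrix.cons_val,
        cond_true, cond_false, if_true, Bool.false_eq_true, if_false, zero_add, add_zero]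
    · linear_combination (x.1 (.inr (f, false)) + x.2 (.inr (f, false)) +
        x.1 (.inr (f, true)) + x.2 (.inr (f, true))) * two
    · linear_combination (x.1 (.inr (f, false)) + x.2 (.inr (f, false)) +
        x.1 (.inr (f, true)) + x.2 (.inr (f, true))) * two

/-- an even function with zero coordinates at a node is constant on its non-inner half-edges,
and conversely -/
theorem ker_iff (g : V × Bool → K) (hg : g ∈ F.EI K) (v : E ⊕ N) :
    (∀ p, site p = v → (F.pi K g).1 p = 0 ∧ (F.pi K g).2 p = 0) ↔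
      ∀ h ∉ F.In, ∀ h' ∉ F.In, F.nd h = v → F.nd h' = v → g h' = g h := by
  have two : (2 : K) = 0 := CharTwo.two_eq_zero
  obtain ⟨-, h2, h3⟩ := (F.mem_EI g).1 hg
  constructor
  · intro H
    suffices key : ∃ a, ∀ h ∉ F.In, F.nd h = v → g h = a by
      obtain ⟨a, ha⟩ := key
      exact fun h hh h' hh' e e' => (ha h' hh' e').trans (ha h hh e).symm
    rcases v with e | f
    · obtain ⟨a1, a2⟩ := H (.inl e) rfl
      rw [g1_pi1, CharTwo.add_eq_zero] at a1
      rw [g1_pi2, CharTwo.add_eq_zero] at a2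
      refine ⟨g (F.u e false, false), fun h _ hh => ?_⟩
      obtain ⟨b, c, rfl⟩ := F.g1_inl hh
      cases b <;> cases c
      · rfl
      · exact a1.symm
      · exact a2.symm
      · linear_combination h2 e + a1 + a2 - 2 * g (F.u e false, false) * two
    · obtain ⟨a1, a2⟩ := H (.inr (f, false)) rfl
      obtain ⟨a3, a4⟩ := H (.inr (f, true)) rfl
      rw [g1_pi3, CharTwo.add_eq_zero] at a1
      rw [g1_pi5, CharTwo.add_eq_zero] at a2
      rw [g1_pi4, CharTwo.add_eq_zero] at a3
      rw [g1_pi6, CharTwo.add_eq_zero] at a4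
      have a5 : g (F.lg f 1 true) = g (F.lg f 0 false) := by
        linear_combination h3 f + a1 + a2 + a3 - a4 -
          (2 * g (F.lg f 0 false) + g (F.lg f 1 true)) * two
      refine ⟨g (F.lg f 0 false), fun h hh' hh => ?_⟩
      obtain ⟨i, b, rfl⟩ := F.g1_inr hh' hh
      fin_cases i <;> cases b
      · rfl
      · exact a2.symm
      · exact a4.trans a5
      · exact a5
      · exact a3.symm.trans a5
      · exact a1.symm
  · intro H
    rintro (e | ⟨f, _ | _⟩) rfl
    · rw [g1_pi1, g1_pi2, CharTwo.add_eq_zero, CharTwo.add_eq_zero]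
      exact ⟨H _ (F.not_In_u _ _ _) _ (F.not_In_u _ _ _) (F.g1_nd_u ..) (F.g1_nd_u ..),
        H _ (F.not_In_u _ _ _) _ (F.not_In_u _ _ _) (F.g1_nd_u ..) (F.g1_nd_u ..)⟩
    · rw [g1_pi3, g1_pi5, CharTwo.add_eq_zero, CharTwo.add_eq_zero]
      exact ⟨H _ (F.g1_lg_notIn _ _ _) _ (F.g1_lg_notIn _ _ _) (F.g1_nd_lg ..) (F.g1_nd_lg ..),
        H _ (F.g1_lg_notIn _ _ _) _ (F.g1_lg_notIn _ _ _) (F.g1_nd_lg ..) (F.g1_nd_lg ..)⟩
    · rw [g1_pi4, g1_pi6, CharTwo.add_eq_zero, CharTwo.add_eq_zero]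
      exact ⟨H _ (F.g1_lg_notIn _ _ _) _ (F.g1_lg_notIn _ _ _) (F.g1_nd_lg ..) (F.g1_nd_lg ..),
        H _ (F.g1_lg_notIn _ _ _) _ (F.g1_lg_notIn _ _ _) (F.g1_nd_lg ..) (F.g1_nd_lg ..)⟩

/-- every node has a non-inner half-edge -/
theorem exists_leg (v : E ⊕ N) : ∃ h ∉ F.In, F.nd h = v := by
  rcases v with e | f
  · exact ⟨(F.u e false, false), F.not_In_u _ _ _, F.g1_nd_u ..⟩
  · exact ⟨F.lg f 0 false, F.g1_lg_notIn _ _ _, F.g1_nd_lg ..⟩

/-- functions of the node are even with zero coordinates -/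
theorem const_EI (c : E ⊕ N → K) :
    (fun h => c (F.nd h)) ∈ F.EI K ∧ F.pi K (fun h => c (F.nd h)) = 0 := by
  have two : (2 : K) = 0 := CharTwo.two_eq_zero
  refine ⟨(F.mem_EI _).2 ⟨fun h hh => by rw [(F.o_In h hh).2], fun e => ?_, fun f => ?_⟩, ?_⟩
  · simp only [g1_nd_u]
    linear_combination 2 * c (.inl e) * two
  · simp only [g1_nd_lg]
    linear_combination 3 * c (.inr f) * two
  · refine Prod.ext (funext ?_) (funext ?_) <;> rintro (e | ⟨f, _ | _⟩) <;>
      simp only [g1_pi1, g1_pi2, g1_pi3, g1_pi4, g1_pi5, g1_pi6, g1_nd_u, g1_nd_lg,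
        CharTwo.add_self_eq_zero] <;> rfl

/-- use `mem_EI` and `θ ∘ g` -/
theorem L_ac (θ : RingAut K) : ∀ x ∈ F.L K, ac θ x ∈ F.L K := by
  rintro _ ⟨g, ⟨hs, hg⟩, rfl⟩
  obtain ⟨h1, h2, h3⟩ := (F.mem_EI g).1 hg
  refine ⟨fun h => θ (g h), ⟨fun h => congrArg θ (hs h), (F.mem_EI _).2
    ⟨fun h hh => congrArg θ (h1 h hh), fun e => ?_, fun f => ?_⟩⟩, ?_⟩
  · simp only [← map_add, h2 e, map_zero]
  · simp only [← map_add, h3 f, map_zero]
  · refine Prod.ext (funext ?_) (funext ?_) <;> rintro (e | ⟨f, _ | _⟩) <;>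
      simp only [ac, g1_pi1, g1_pi2, g1_pi3, g1_pi4, g1_pi5, g1_pi6, map_add]

/-- `dot_eq` and `dot_pairs` with `A = univ` -/
theorem L_iso : ∀ x ∈ F.L K, ∀ y ∈ F.L K, om x y = 0 := by
  rintro _ ⟨g, ⟨hs, hg⟩, rfl⟩ _ ⟨g', ⟨hs', hg'⟩, rfl⟩
  rw [← F.dot_eq g g' hg hg', ← dot_pairs t.o t.o_o t.o_ne univ (fun _ _ => mem_univ _) g g'
    (fun h _ => hs h) fun h _ => hs' h]
  congr 1
  ext h
  simp [cut_apply]

end Fam
end Pool.Agent.MP_8c1b0d_co

set_option autoImplicit false
set_option linter.unusedSectionVars false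
open Finset Module

namespace Pool.Agent.MP_8c1b0d_co
variable {V : Type} [Fintype V] [DecidableEq V] (t : Tri V)

lemma g2_cc (c : Bool) (v : V) : t.col c (t.col c v) = v := by
  cases c
  exacts [t.xx v, t.yy v]

lemma g2_cne (c : Bool) (v : V) : t.col c v ≠ v := by
  cases c
  exacts [t.x_ne v, t.y_ne v]

lemma g2_cm (c : Bool) (v : V) : t.col c v ≠ t.m v := by
  cases c
  exacts [t.xm v, t.ym v]

/-- the vertices of a hexagon -/
def g2w (p : V × Bool) (q : Fin 3 × Bool) : V :=
  cond q.2 (t.m ((fun u => t.col p.2 (t.m u))^[q.1] p.1)) ((fun u => t.col p.2 (t.m u))^[q.1] p.1)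

lemma g2_mem {p : V × Bool} {u : V} : u ∈ t.hex p.1 p.2 ↔ ∃ q, g2w t p q = u := by
  constructor
  · intro h
    simp only [Tri.hex, mem_insert, mem_singleton] at h
    rcases h with rfl | rfl | rfl | rfl | rfl | rfl
    exacts [⟨(0, false), rfl⟩, ⟨(0, true), rfl⟩, ⟨(1, false), rfl⟩, ⟨(1, true), rfl⟩,
      ⟨(2, false), rfl⟩, ⟨(2, true), rfl⟩]
  · rintro ⟨⟨i, b⟩, rfl⟩
    fin_cases i <;> cases b <;> simp [g2w, Tri.hex]

lemma g2_m (p : V × Bool) (i : Fin 3) (b : Bool) : t.m (g2w t p (i, b)) = g2w t p (i, !b) := by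
  cases b
  exacts [rfl, t.mm _]

lemma g2_inj {p : V × Bool} (h : t.Alt p.1 p.2) : Function.Injective (g2w t p) := by
  rintro ⟨i, b⟩ ⟨j, d⟩ e
  have h1 := g2_cc t p.2
  have h2 := g2_cne t p.2
  have h3 := g2_cm t p.2
  have h4 := t.mm
  have h5 := t.m_ne
  rw [Tri.Alt] at h
  fin_cases i <;> fin_cases j <;> cases b <;> cases d <;> first
    | rfl
    | exfalso
      simp only [g2w, cond_true, cond_false, Function.iterate_succ, Function.iterate_zero,
        Function.comp_apply, id] at e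
      grind

lemma g2_pairs {G : SimpleGraph V} [DecidableRel G.Adj] (hG : ∀ u v, G.Adj u v ↔ t.Adj u v)
    (S B : Finset V) : #{p : V × V | p.1 ∈ S ∧ p.2 ∈ B ∧ G.Adj p.1 p.2} =
      #{v ∈ S | t.x v ∈ B} + #{v ∈ S | t.y v ∈ B} + #{v ∈ S | t.m v ∈ B} := by
  have key : ∀ v w, (if v ∈ S ∧ w ∈ B ∧ G.Adj v w then 1 else 0) =
      (if w = t.x v then if v ∈ S ∧ w ∈ B then 1 else 0 else 0) +
      (if w = t.y v then if v ∈ S ∧ w ∈ B then 1 else 0 else 0) +
      (if w = t.m v then if v ∈ S ∧ w ∈ B then 1 else 0 else 0 : ℕ) := fun v w => by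
    have := t.xy v
    have := t.xm v
    have := t.ym v
    simp only [hG, Tri.Adj]
    grind
  have e : ∀ f : V → V, #{v ∈ S | f v ∈ B} = ∑ v, if v ∈ S ∧ f v ∈ B then 1 else 0 := fun f => by
    rw [← card_filter]
    congr 1
    ext v
    simp
  rw [card_filter, Fintype.sum_prod_type, e, e, e, ← sum_add_distrib, ← sum_add_distrib]
  simp only [key, sum_add_distrib, sum_ite_eq', mem_univ, if_true]

lemma g2_cut_compl (S : Finset V) : t.cut Sᶜ = t.cut S := by
  have e : ∀ f : V → V, (∀ v, f (f v) = v) → #{v ∈ Sᶜ | f v ∉ Sᶜ} = #{v ∈ S | f v ∉ S} :=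
    fun f ff => card_nbij' f f (fun v hv => by simpa [ff, and_comm] using hv)
      (fun v hv => by simpa [ff, and_comm] using hv) (fun v _ => ff v) fun v _ => ff v
  rw [Tri.cut, Tri.cut, e _ t.xx, e _ t.yy, e _ t.mm]

/-- A maximal family exists. Plan: among the finsets `𝓗 : Finset (V × Bool)` of pairs `(v, c)`
with `Alt v c` and pairwise disjoint `hex` take one of largest card (`Finset.exists_max_image`);
`N = ↥𝓗`, `w (v, c) i false = (col c ∘ m)^[i] v`, `w .. i true = m` of it. The six vertices are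
distinct (`col c` and `m` are fixed-point free involutions that differ everywhere) and form
`hex v c`, which is closed under `m`. `E` = the vertices outside all hexagons with
`k v < k (m v)` for `k = Fintype.equivFin V`; `vx (inl (e, false)) = e`,
`vx (inl (e, true)) = m e`; `Equiv.ofBijective`. Maximality gives `Max`. -/
theorem Tri.exists_fam : ∃ (E N : Type) (_ : Fintype E) (_ : DecidableEq E) (_ : Fintype N)
    (_ : DecidableEq N) (F : Fam t E N), F.Max := by
  classical
  obtain ⟨𝓗, h1, h2⟩ := exists_max_image (univ.filter fun 𝓗 : Finset (V × Bool) =>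
    (∀ p ∈ 𝓗, t.Alt p.1 p.2) ∧
      ∀ p ∈ 𝓗, ∀ q ∈ 𝓗, p ≠ q → Disjoint (t.hex p.1 p.2) (t.hex q.1 q.2)) card ⟨∅, by simp⟩
  obtain ⟨-, h0, h1⟩ := mem_filter.1 h1
  let k := Fintype.equivFin V
  let E := {v : V // (∀ p ∈ 𝓗, v ∉ t.hex p.1 p.2) ∧ k v < k (t.m v)}
  let φ : (E × Bool) ⊕ (𝓗 × Fin 3 × Bool) → V :=
    Sum.elim (fun a => cond a.2 (t.m a.1.1) a.1.1) fun a => g2w t a.1.1 a.2
  have cl : ∀ (p : V × Bool) v, t.m v ∈ t.hex p.1 p.2 → v ∈ t.hex p.1 p.2 := fun p v hv => by
    obtain ⟨⟨i, b⟩, e⟩ := (g2_mem t).1 hv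
    exact (g2_mem t).2 ⟨_, by rw [← g2_m, e, t.mm]⟩
  have out : ∀ (a : E × Bool) (a' : 𝓗 × Fin 3 × Bool), φ (.inl a) ≠ φ (.inr a') := by
    rintro ⟨e, _ | _⟩ ⟨p, q⟩ h
    · exact e.2.1 p p.2 ((g2_mem t).2 ⟨q, h.symm⟩)
    · exact e.2.1 p p.2 (cl _ _ ((g2_mem t).2 ⟨q, h.symm⟩))
  have inj : Function.Injective φ := by
    rintro (⟨e, b⟩ | ⟨p, q⟩) (⟨e', b'⟩ | ⟨p', q'⟩) h
    · have a1 := e.2.2
      have a2 := e'.2.2
      cases b <;> cases b'
      · rw [show e = e' from Subtype.ext h]
      · rw [show e.1 = t.m e'.1 from h, t.mm] at a1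
        exact (lt_asymm a1 a2).elim
      · rw [← show t.m e.1 = e'.1 from h, t.mm] at a2
        exact (lt_asymm a1 a2).elim
      · rw [show e = e' from Subtype.ext (Function.LeftInverse.injective t.mm h)]
    · exact (out _ _ h).elim
    · exact (out _ _ h.symm).elim
    · obtain rfl : p = p' := by_contra fun hn =>
        disjoint_left.1 (h1 _ p.2 _ p'.2 fun e => hn (Subtype.ext e))
          ((g2_mem t).2 ⟨q, rfl⟩) ((g2_mem t).2 ⟨q', h.symm⟩)
      rw [show q = q' from g2_inj t (h0 _ p.2) h]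
  have sur : Function.Surjective φ := fun v => by
    by_cases hv : ∀ p ∈ 𝓗, v ∉ t.hex p.1 p.2
    · rcases lt_or_gt_of_ne fun e : k v = k (t.m v) => t.m_ne v (k.injective e).symm with a | a
      · exact ⟨.inl (⟨v, hv, a⟩, false), rfl⟩
      · exact ⟨.inl (⟨t.m v, fun p hp e => hv p hp (cl _ _ e), by rwa [t.mm]⟩, true), t.mm v⟩
    · push Not at hv
      obtain ⟨p, hp, hv⟩ := hv
      obtain ⟨q, e⟩ := (g2_mem t).1 hv
      exact ⟨.inr (⟨p, hp⟩, q), e⟩
  refine ⟨E, 𝓗, inferInstance, inferInstance, inferInstance, inferInstance,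
    ⟨Equiv.ofBijective φ ⟨inj, sur⟩, fun f => f.1.2, fun e b => ?_, fun f i b => g2_m t _ i b,
      fun f i => ?_⟩, fun v c hv => ?_⟩
  · cases b
    exacts [rfl, t.mm _]
  · fin_cases i
    exacts [rfl, rfl, h0 _ f.2]
  · by_contra hn
    have dj : ∀ p ∈ 𝓗, Disjoint (t.hex v c) (t.hex p.1 p.2) := fun p hp =>
      disjoint_left.2 fun u a b => by
        obtain ⟨q, rfl⟩ := (g2_mem t).1 b
        exact hn ⟨_, a, ⟨p, hp⟩, congrArg (Sum.map Prod.fst Prod.fst)
          ((Equiv.ofBijective φ ⟨inj, sur⟩).symm_apply_apply (.inr (⟨p, hp⟩, q)))⟩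
    have nm : (v, c) ∉ 𝓗 := fun hp =>
      disjoint_left.1 (dj _ hp) (mem_insert_self _ _) (mem_insert_self _ _)
    have := h2 (insert (v, c) 𝓗) (mem_filter.2 ⟨mem_univ _, forall_mem_insert .. |>.2 ⟨hv, h0⟩,
      fun p hp q hq pq => by
        rcases mem_insert.1 hp with rfl | hp <;> rcases mem_insert.1 hq with rfl | hq
        exacts [(pq rfl).elim, dj _ hq, (dj _ hp).symm, h1 _ hp _ hq pq]⟩)
    rw [card_insert_of_notMem nm] at this
    omega

/-- `S = {v | φ v = φ u}` has `cut S = 0` and `cut Sᶜ = 0`; a nonempty closed set contains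
`v, x v, y v, m v`, so it has at least 4 elements. -/
theorem Tri.cn_of_C5 (h : t.C5) : t.Cn := by
  classical
  intro X φ hx hy hm u v
  by_contra hn
  have three : ∀ (S : Finset V) w, w ∈ S → t.x w ∈ S → t.y w ∈ S → 3 ≤ #S := fun S w a b c =>
    (card_eq_three.2 ⟨w, t.x w, t.y w, (t.x_ne w).symm, (t.y_ne w).symm, t.xy w, rfl⟩).ge.trans
      (card_le_card (insert_subset a (insert_subset b (singleton_subset_iff.2 c))))
  have := h {w | φ w = φ u} (three _ u (by simp) (by simp [hx]) (by simp [hy]))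
    (three _ v (by simp [Ne.symm hn]) (by simp [hx, Ne.symm hn]) (by simp [hy, Ne.symm hn]))
  simp [Tri.cut, hx, hy, hm, filter_filter] at this

/-- copy the proof of `good_of_conn` in Bridge.lean (`layer_adj`, `layer_tour`) -/
theorem Tri.good_of_conn {G : SimpleGraph V} (hG : ∀ u v, G.Adj u v ↔ t.Adj u v) (r : V → Bool)
    (rm : ∀ v, r (t.m v) = r v)
    (both : ∀ κ : Bool, ∀ g : V × Bool → ZMod 2, (∀ h, g (t.o h) = g h) →
      (∀ v, r v = κ → ∀ c, g (t.m v, c) = g (v, c)) →
      (∀ v, r v ≠ κ → g (v, true) = g (v, false)) → ∃ d, ∀ h, g h = d) :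
    Good G Set.univ := by
  have rm' : ∀ v, (!r (t.m v)) = !r v := fun v => by rw [rm]
  have A1 := layer_adj (r := r) (g2_cc t) t.mm rm (g2_cne t) t.m_ne
  have A2 := layer_adj (r := fun v => !r v) (s := fun l => t.col !l) (fun l => g2_cc t _) t.mm rm'
    (fun l => g2_cne t _) t.m_ne
  refine ⟨layer t.col t.m r, layer (fun l => t.col !l) t.m fun v => !r v,
    layer_tour (g2_cc t) t.mm rm (g2_cne t) t.m_ne (g2_cm t) ?_,
    layer_tour (fun l => g2_cc t _) t.mm rm' (fun l => g2_cne t _) t.m_ne (fun l => g2_cm t _) ?_,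
    ?_, ?_, ?_⟩
  · intro f h1 h2 h3
    obtain ⟨d, hd⟩ := both true (fun h => f h.2 h.1) (fun h => h1 _ _) (fun v e c => h2 c v e)
      fun v e => (h3 v (by simpa using e)).symm
    exact ⟨d, fun l v => hd (v, l)⟩
  · intro f h1 h2 h3
    obtain ⟨d, hd⟩ := both false (fun h => f (!h.2) h.1)
      (fun h => by simpa [Tri.o] using h1 (!h.2) h.1) (fun v e c => h2 _ v (by simp [e]))
      fun v e => h3 v (by simpa using e)
    exact ⟨d, fun l v => by simpa using hd (v, !l)⟩
  · rintro ⟨u, l⟩ b hb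
    rw [SimpleGraph.boxProd_adj]
    rcases (A1 _ _).1 hb with rfl | rfl
    · left; cases l <;> simp [hG, Tri.Adj, Tri.col]
    · cases r u <;> cases l <;> simp [hG, Tri.Adj]
  · rintro ⟨u, l⟩ b hb
    rw [SimpleGraph.boxProd_adj]
    rcases (A2 _ _).1 hb with rfl | rfl
    · left; cases l <;> simp [hG, Tri.Adj, Tri.col]
    · cases r u <;> cases l <;> simp [hG, Tri.Adj]
  · intro u v l huv _ _
    rw [A1, A2]
    have := (hG u v).1 huv
    have := t.xy u
    have := t.xm u
    have := t.ym u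
    cases l <;> cases r u <;> simp [Tri.col] <;> grind [Tri.Adj]

/-- A side of a small cut that contains no cycle is small. Plan: `G.induce S` is acyclic; a
finite forest on `n ≥ 1` vertices has at most `n - 1` edges (extend it to a maximal
acyclic subgraph of `⊤`, a tree, see Mathlib Acyclic.lean, `IsTree.card_edgeFinset`); `3 * #S = 2 * edges + cut S`. -/
theorem Tri.cut_of_acyclic {G : SimpleGraph V} (hG : ∀ u v, G.Adj u v ↔ t.Adj u v)
    (S : Finset V) (hS : S.Nonempty) (ha : (G.induce (S : Set V)).IsAcyclic) :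
    #S + 2 ≤ t.cut S := by
  classical
  have : Nonempty (S : Set V) := hS.to_subtype
  obtain ⟨T, h1, -, h2⟩ := SimpleGraph.connected_top.exists_isTree_le_of_le_of_isAcyclic le_top ha
  have h3 := h2.card_edgeFinset
  have h4 := card_le_card (SimpleGraph.edgeFinset_mono h1)
  have h5 := (G.induce (S : Set V)).dart_card_eq_twice_card_edges
  have h6 : #{p : V × V | p.1 ∈ S ∧ p.2 ∈ S ∧ G.Adj p.1 p.2} ≤
      Fintype.card (G.induce (S : Set V)).Dart :=
    card_le_card_of_surjOn (fun d => (d.fst.1, d.snd.1)) fun p hp => by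
      obtain ⟨-, a, b, c⟩ := mem_filter.1 hp
      exact ⟨⟨(⟨_, a⟩, ⟨_, b⟩), c⟩, mem_coe.2 (mem_univ _), rfl⟩
  have h7 : Fintype.card (S : Set V) = #S := by simp
  rw [g2_pairs t hG] at h6
  have h8 := card_filter_add_card_filter_not (s := S) fun v => t.x v ∈ S
  have h9 := card_filter_add_card_filter_not (s := S) fun v => t.y v ∈ S
  have h10 := card_filter_add_card_filter_not (s := S) fun v => t.m v ∈ S
  rw [Tri.cut]
  omega

/-- Cyclic 5-edge-connectivity gives `C5`. `cut S = cut Sᶜ` = the number of pairs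
(bijections by the involutions; the three colours at `v` are different neighbours). -/
theorem Tri.C5_of_cyc {G : SimpleGraph V} (hG : ∀ u v, G.Adj u v ↔ t.Adj u v)
    (hc : ∀ S : Set V, ¬ (G.induce S).IsAcyclic → ¬ (G.induce Sᶜ).IsAcyclic →
      5 ≤ {p : V × V | p.1 ∈ S ∧ p.2 ∉ S ∧ G.Adj p.1 p.2}.ncard) : t.C5 := by
  classical
  intro S h1 h2
  by_cases a : (G.induce (S : Set V)).IsAcyclic
  · have := t.cut_of_acyclic hG S (card_pos.1 (by omega)) a
    omega
  by_cases b : (G.induce ((Sᶜ : Finset V) : Set V)).IsAcyclic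
  · have := t.cut_of_acyclic hG Sᶜ (card_pos.1 (by omega)) b
    rw [g2_cut_compl] at this
    omega
  rw [coe_compl] at b
  have h3 := g2_pairs t hG S Sᶜ
  simp only [mem_compl] at h3
  rw [Tri.cut, ← h3, ← Set.ncard_coe_finset]
  simpa using hc S a b

/-- a proper 3-edge-colouring of a cubic graph as three involutions: at each `v` the colour map
from the 3 neighbours to `Fin 3` is injective (`lineGraph_adj_iff_exists`), hence bijective -/
theorem exists_tri {G : SimpleGraph V} (hc : ∀ v, (G.neighborSet v).ncard = 3)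
    (hcol : G.lineGraph.Colorable 3) : ∃ t : Tri V, ∀ u v, G.Adj u v ↔ t.Adj u v := by
  obtain ⟨C⟩ := hcol
  have bij : ∀ v, Function.Bijective fun w : G.neighborSet v => C ⟨s(v, w.1), w.2⟩ := fun v =>
    (Nat.bijective_iff_injective_and_card _).2 ⟨fun w w' e => by_contra fun hn =>
      C.valid (SimpleGraph.lineGraph_adj_iff_exists.2 ⟨fun e' => hn (Subtype.ext
        (Sym2.congr_right.1 (congrArg Subtype.val e'))), v, Sym2.mem_mk_left _ _,
          Sym2.mem_mk_left _ _⟩) e, by rw [Nat.card_coe_set_eq, hc, Nat.card_fin]⟩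
  choose n hn using fun v i => (bij v).2 i
  have un : ∀ v w (h : G.Adj v w), (n v (C ⟨s(v, w), h⟩)).1 = w := fun v w h =>
    congrArg Subtype.val ((bij v).1 (a₂ := ⟨w, h⟩) (hn v _))
  have nn : ∀ i v, (n (n v i).1 i).1 = v := fun i v => by
    have := un _ v (G.adj_symm (n v i).2)
    simp only [Sym2.eq_swap (a := (n v i).1)] at this
    rwa [show C _ = i from hn v i] at this
  have ne : ∀ i v, (n v i).1 ≠ v := fun i v => (G.ne_of_adj (n v i).2).symm
  have df : ∀ i j, i ≠ j → ∀ v, (n v i).1 ≠ (n v j).1 := fun i j ij v e =>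
    ij (by rw [← hn v i, Subtype.ext e, hn v j])
  refine ⟨⟨fun v => (n v 0).1, fun v => (n v 1).1, fun v => (n v 2).1, nn 0, nn 1, nn 2, ne 0,
    ne 1, ne 2, df 0 1 (by decide), df 0 2 (by decide), df 1 2 (by decide)⟩, fun u v =>
      ⟨fun h => ?_, ?_⟩⟩
  · have := un u v h
    generalize C _ = i at this
    fin_cases i
    exacts [Or.inl this.symm, Or.inr (Or.inl this.symm), Or.inr (Or.inr this.symm)]
  · rintro (rfl | rfl | rfl)
    exacts [(n u 0).2, (n u 1).2, (n u 2).2]

end Pool.Agent.MP_8c1b0d_co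

set_option autoImplicit false
set_option linter.unusedSectionVars false
open Finset Module

namespace Pool.Agent.MP_8c1b0d_co

theorem g3_cc {V : Type} (t : Tri V) (k : Bool) (v : V) : t.col k (t.col k v) = v := by
  cases k
  exacts [t.xx v, t.yy v]

theorem g3_cne {V : Type} (t : Tri V) (k : Bool) (v : V) : t.col k v ≠ v := by
  cases k
  exacts [t.x_ne v, t.y_ne v]

/-- exchange of `m` and the colour `k` on the set `sw v = some k` -/
theorem g3_tri {V : Type} (t : Tri V) (sw : V → Option Bool) (s1 : ∀ v, sw (t.m v) = sw v)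
    (s2 : ∀ v k, sw v = some k → sw (t.col k v) = some k) : ∃ t' : Tri V,
    (∀ a b, t'.Adj a b ↔ t.Adj a b) ∧ (∀ v, sw v = none → t'.m v = t.m v) ∧
    (∀ v k, sw v = some k → t'.m v = t.col k v ∧ t'.col k v = t.m v) ∧
    ∀ v k, sw v ≠ some k → t'.col k v = t.col k v := by
  have inv : ∀ k v, (fun v => if sw v = some k then t.m v else t.col k v)
      ((fun v => if sw v = some k then t.m v else t.col k v) v) = v := fun k v => by
    by_cases h : sw v = some k
    · simp only [h, if_true, s1, t.mm]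
    · have h' : sw (t.col k v) ≠ some k := fun e => h (g3_cc t k v ▸ s2 _ k e)
      simp only [h, if_false, h', g3_cc]
  have ne : ∀ k v, (if sw v = some k then t.m v else t.col k v) ≠ v := fun k v => by
    split_ifs
    exacts [t.m_ne v, g3_cne t k v]
  have tri : ∀ v, sw v = none ∨ sw v = some false ∨ sw v = some true := fun v => by
    rcases sw v with _ | _ | _ <;> simp
  refine ⟨⟨fun v => if sw v = some false then t.m v else t.col false v,
    fun v => if sw v = some true then t.m v else t.col true v,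
    fun v => (sw v).elim (t.m v) fun k => t.col k v, inv false, inv true, fun v => ?_, ne false,
    ne true, fun v => ?_, fun v => ?_, fun v => ?_, fun v => ?_⟩, fun a b => ?_, fun v h => ?_,
    fun v k h => ⟨?_, ?_⟩, fun v k h => ?_⟩
  · rcases h : sw v with _ | k
    · simp only [Option.elim_none, s1, h, t.mm]
    · simp only [Option.elim_some, s2 v k h, g3_cc]
  · rcases sw v with _ | k
    exacts [t.m_ne v, g3_cne t k v]
  · rcases tri v with h | h | h <;> simp only [h, Tri.col] <;> simp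
    exacts [t.xy v, (t.ym v).symm, t.xm v]
  · rcases tri v with h | h | h <;> simp only [h, Tri.col] <;> simp
    exacts [t.xm v, (t.xm v).symm, t.xy v]
  · rcases tri v with h | h | h <;> simp only [h, Tri.col] <;> simp
    exacts [t.ym v, (t.xy v).symm, (t.ym v).symm]
  · rcases tri a with h | h | h <;> simp only [Tri.Adj, h, Tri.col] <;> simp <;> tauto
  · simp only [h, Option.elim_none]
  · simp only [h, Option.elim_some]
  · cases k <;> simp only [Tri.col, h] <;> simp
  · cases k <;> simp only [Tri.col, h] <;> simp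

/-- renumbering of the vertices of the swapped hexagons -/
def g3_perm {N : Type} (I : N → Bool) : N × Fin 3 × Bool ≃ N × Fin 3 × Bool where
  toFun p := (p.1, if I p.1 then (if p.2.2 then (p.2.1 + 1, false) else (p.2.1, true)) else p.2)
  invFun p := (p.1, if I p.1 then (if p.2.2 then (p.2.1, false) else (p.2.1 - 1, true)) else p.2)
  left_inv := by
    rintro ⟨f, i, _ | _⟩ <;> cases h : I f <;> simp [h]
  right_inv := by
    rintro ⟨f, i, _ | _⟩ <;> cases h : I f <;> simp [h]

theorem g3_hex {X : Type} (a l : Fin 3 → Bool → X) (sy : ∀ i, a (i + 1) false = a i true)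
    (k : Fin 3) (one : Bool)
    (t1 : ∀ i, (i = k ↔ one = true) → a i true = a i false ∧ l i true = l i false)
    (t0 : ∀ i, ¬ (i = k ↔ one = true) → ∀ b, a i b = l i b) :
    (one = false → ∀ i, l i true = l i false) ∧
    (one = true → l k true = l k false ∧ l (k + 1) true = l (k + 2) false ∧
      l (k + 1) false = l (k + 2) true) ∧ ∀ i b, ∃ i' b', a i b = l i' b' := by
  obtain ⟨n1, n2, tri, n3, n4⟩ := (by decide : ∀ k : Fin 3, k + 1 ≠ k ∧ k + 2 ≠ k ∧
    (∀ i, i = k ∨ i = k + 1 ∨ i = k + 2) ∧ k + 1 + 1 = k + 2 ∧ k + 2 + 1 = k) k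
  have y0 := sy k
  have y1 := sy (k + 1)
  have y2 := sy (k + 2)
  rw [n3] at y1
  rw [n4] at y2
  cases one
  · have a0 := t0 k (by simp)
    obtain ⟨a1, b1⟩ := t1 (k + 1) (by simp [n1])
    obtain ⟨a2, b2⟩ := t1 (k + 2) (by simp [n2])
    have e : a k true = a k false := by rw [← y0, ← a1, ← y1, ← a2, ← y2]
    refine ⟨fun _ i => ?_, fun h => by simp at h, fun i b => ⟨k, false, ?_⟩⟩
    · rcases tri i with rfl | rfl | rfl
      · rw [← a0, ← a0, e]
      · exact b1
      · exact b2
    · rw [← a0]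
      rcases tri i with rfl | rfl | rfl <;> cases b
      · rfl
      · exact e
      · rw [y0, e]
      · rw [a1, y0, e]
      · rw [← a2, y2]
      · rw [y2]
  · obtain ⟨a0, b0⟩ := t1 k (by simp)
    have a1 := t0 (k + 1) (by simp [n1])
    have a2 := t0 (k + 2) (by simp [n2])
    refine ⟨fun h => by simp at h, fun _ => ⟨b0, by rw [← a1, ← a2, y1], ?_⟩, fun i b => ?_⟩
    · rw [← a1, ← a2, y0, a0, y2]
    · rcases tri i with rfl | rfl | rfl
      · refine ⟨i + 1, false, ?_⟩
        rw [← a1, y0]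
        cases b
        exacts [a0.symm, rfl]
      · exact ⟨_, _, a1 b⟩
      · exact ⟨_, _, a2 b⟩

namespace Fam
variable {V E N : Type} [Fintype V] [DecidableEq V] [Fintype E] [DecidableEq E] [Fintype N]
  [DecidableEq N] {t : Tri V} (F : Fam t E N)

/-- Kempe swap along the hexagons `f` with `I f = true`. Plan: let `sw v : Option Bool` be
`some (c f)` on a swapped hexagon `f`, else `none`; `m' v = col (c f) v` and
`col' (c f) v = m v` on swapped hexagons, nothing else changes. A swapped hexagon is closed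
under `m` and `col (c f)` (`ndv_m`, `o_In`); the colour `!c f` edge at `v` keeps its colour at
both ends because its other half is not inner (`o_In`, `o_o`). The new family has
`w' f i false = w f i true`, `w' f i true = w f (i+1) false` on swapped hexagons. -/
theorem swap (I : N → Bool) : ∃ (t' : Tri V) (F' : Fam t' E N),
    (∀ a b, t'.Adj a b ↔ t.Adj a b) ∧ F'.c = F.c ∧ (∀ v, F'.ndv v = F.ndv v) ∧
    (∀ e b, F'.u e b = F.u e b) ∧ (∀ h ∉ F.In, t'.o h = t.o h) ∧
    (∀ f i b, I f = false → F'.w f i b = F.w f i b) ∧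
    ∀ f i, I f = true → F'.w f i false = F.w f i true ∧ F'.w f i true = F.w f (i + 1) false := by
  have key : ∀ v k, (F.ndv v).elim (fun _ => none)
      (fun f => if I f then some (F.c f) else none) = some k → (v, k) ∈ F.In := fun v k h => by
    rcases e : F.ndv v with a | f
    · simp [e] at h
    · simp only [e, Sum.elim_inr, Option.ite_none_right_eq_some, Option.some.injEq] at h
      exact mem_filter.2 ⟨mem_univ _, f, e, h.2.symm⟩
  obtain ⟨t', h1, h2, h3, h4⟩ := g3_tri t (fun v => (F.ndv v).elim (fun _ => none)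
    fun f => if I f then some (F.c f) else none) (fun v => by rw [F.ndv_m]) fun v k h => by
      have e : F.ndv (t.col k v) = F.ndv v := (F.o_In _ (key v k h)).2
      rw [e, h]
  have su : ∀ e b, t'.m (F.u e b) = F.u e (!b) := fun e b => by
    rw [h2 _ (by rw [F.ndv_u]; rfl)]
    exact F.m1 e b
  have s0 : ∀ f i b, I f = false → t'.m (F.w f i b) = t.m (F.w f i b) ∧
      t'.col (F.c f) (F.w f i b) = t.col (F.c f) (F.w f i b) := fun f i b h =>
    ⟨h2 _ (by rw [F.ndv_w]; simp [h]), h4 _ _ (by rw [F.ndv_w]; simp [h])⟩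
  have s1 : ∀ f i b, I f = true → t'.m (F.w f i b) = t.col (F.c f) (F.w f i b) ∧
      t'.col (F.c f) (F.w f i b) = t.m (F.w f i b) := fun f i b h =>
    h3 _ _ (by rw [F.ndv_w]; simp [h])
  have w0 : ∀ f i b, I f = false →
      ((Equiv.sumCongr (Equiv.refl _) (g3_perm I)).trans F.vx) (.inr (f, i, b)) = F.w f i b :=
    fun f i b h => by simp [g3_perm, h, w]
  have w1 : ∀ f i, I f = true →
      ((Equiv.sumCongr (Equiv.refl _) (g3_perm I)).trans F.vx) (.inr (f, i, false)) =
        F.w f i true ∧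
      ((Equiv.sumCongr (Equiv.refl _) (g3_perm I)).trans F.vx) (.inr (f, i, true)) =
        F.w f (i + 1) false := fun f i h => by simp [g3_perm, h, w]
  refine ⟨t', ⟨(Equiv.sumCongr (Equiv.refl _) (g3_perm I)).trans F.vx, F.c, su, fun f i b => ?_,
    fun f i => ?_⟩, h1, rfl, fun v => ?_, fun _ _ => rfl, fun h hh => ?_, w0, w1⟩
  · cases h : I f
    · rw [w0 f i _ h, w0 f i _ h, (s0 f i b h).1]
      exact F.m2 f i b
    · cases b
      · rw [Bool.not_false, (w1 f i h).1, (w1 f i h).2, (s1 f i _ h).1]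
        exact F.hx f i
      · rw [Bool.not_true, (w1 f i h).1, (w1 f i h).2, (s1 f _ _ h).1]
        exact F.hx' f i
  · cases h : I f
    · rw [w0 f _ _ h, w0 f _ _ h, (s0 f i _ h).2]
      exact F.hx f i
    · rw [(w1 f i h).2, (w1 f _ h).1, (s1 f _ _ h).2]
      exact F.m2 f (i + 1) false
  · simp only [ndv, Equiv.symm_trans_apply]
    rcases F.vx.symm v with a | a <;> rfl
  · exact Prod.ext (h4 _ _ fun e => hh (key _ _ e)) rfl

/-- One hexagon, one colour: `g` is symmetric on the inner edges; at the `m`-edge `i` it is of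
type 1 if `ty i`, else of type 0. If exactly the edge `k` has type 0 then all three pairs of
legs agree; if exactly the edge `k` has type 1 then the legs are paired in parallel. In both
cases every inner value equals a leg value. Plan: name the 12 values, `fin_cases k`. -/
theorem hex_local {X : Type} (g : V × Bool → X) (f : N) (sy : ∀ h ∈ F.In, g (t.o h) = g h)
    (k : Fin 3) (one : Bool)
    (t1 : ∀ i, (i = k ↔ one = true) → ∀ c, g (F.w f i true, c) = g (F.w f i false, c))
    (t0 : ∀ i, ¬ (i = k ↔ one = true) → ∀ b, g (F.w f i b, true) = g (F.w f i b, false)) :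
    (one = false → ∀ i, g (F.lg f i true) = g (F.lg f i false)) ∧
    (one = true → g (F.lg f k true) = g (F.lg f k false) ∧
      g (F.lg f (k + 1) true) = g (F.lg f (k + 2) false) ∧
      g (F.lg f (k + 1) false) = g (F.lg f (k + 2) true)) ∧
    ∀ i b, ∃ i' b', g (F.w f i b, F.c f) = g (F.lg f i' b') := by
  refine g3_hex (fun i b => g (F.w f i b, F.c f)) (fun i b => g (F.lg f i b)) (fun i => ?_) k one
    (fun i h => ⟨t1 i h _, t1 i h _⟩) fun i h b => ?_
  · have := sy _ ((F.mem_In_w f i true _).2 rfl)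
    rwa [Tri.o, show t.col (F.c f) (F.w f i true) = F.w f (i + 1) false from F.hx f i] at this
  · have := t0 i h b
    simp only [lg]
    cases F.c f
    exacts [this.symm, this]

/-- LIFT. Plan: from `Transv` get `r sw i j`; `swap i`; special edge of `F'` at `f`:
`k f = 0, 1` for `i f = false`, `j f = false, true`, and `k f = 1, 2` for `i f = true`. Colour
`r' v = r e` on an ordinary edge, `!sw f` on the special edge, `sw f` on the two other edges.
`Tri.good_of_conn` for `t'`. Given `κ` and `g`, let `g₀ = ι ∘ g` off `F.In`, `0` on `F.In`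
(`ι = ZMod.castHom (dvd_refl 2) K`, injective). `hex_local` for `F'` with `one = (sw f != κ)`
gives `g₀ ∈ symm o ⊓ EI` (`mem_EI`) and the conditions `Row`, `Colm` (legs `g1..g6` =
`lg 0 false, lg 0 true, ..`: `Row false` = 12 34 56, `Row true` = 61 45 23, `Colm false` =
12 36 45, `Colm true` = 34 16 25). So `pi g₀ = 0`; by `ker_iff` and `exists_leg` there is
`φ : E ⊕ N → K` with `g₀ h = φ (nd h)` off `In`; `φ ∘ ndv` is invariant under `x, y, m`
(`o_In`, `ndv_m`), constant by `Cn`; inner values by the last part of `hex_local`. -/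
theorem lift {K : Type} [Field K] [CharP K 2] (cn : t.Cn) {G : SimpleGraph V}
    (hG : ∀ u v, G.Adj u v ↔ t.Adj u v) (h : Transv (F.L K)) : Good G Set.univ := by
  obtain ⟨r, sw, i, j, hT⟩ := h
  obtain ⟨t', F', h1, hc, hn, hu, ho, w0, w1⟩ := F.swap i
  have hIn : F'.In = F.In := by
    ext a
    simp only [In, hc, hn]
  obtain ⟨k, hk⟩ : ∃ k : N → Fin 3, ∀ f,
      k f = if i f then (if j f then 2 else 1) else (if j f then 1 else 0) := ⟨_, fun _ => rfl⟩
  obtain ⟨r', ru, rw'⟩ : ∃ r' : V → Bool, (∀ e b, r' (F'.u e b) = r e) ∧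
      ∀ f a b, r' (F'.w f a b) = if a = k f then !sw f else sw f :=
    ⟨fun v => (F'.vx.symm v).elim (fun p => r p.1)
      fun p => if p.2.1 = k p.1 then !sw p.1 else sw p.1,
      fun e b => by simp [u], fun f a b => by simp [w]⟩
  have mu : ∀ e b, t'.m (F'.u e b) = F'.u e (!b) := F'.m1
  have mw : ∀ f a b, t'.m (F'.w f a b) = F'.w f a (!b) := F'.m2
  refine t'.good_of_conn (fun a b => (hG a b).trans (h1 a b).symm) r' (fun v => ?_)
    fun κ g gs g1 g0 => ?_
  · rcases F'.cases v with ⟨e, b, rfl⟩ | ⟨f, a, b, rfl⟩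
    · rw [mu, ru, ru]
    · rw [mw, rw', rw']
  have hex := fun f => F'.hex_local g f (fun a _ => gs a) (k f) (sw f != κ)
    (fun a ha c => by
      have := g1 (F'.w f a false) (by
        rw [rw']
        revert ha
        by_cases e : a = k f <;> cases sw f <;> cases κ <;> simp [e]) c
      rwa [mw] at this)
    (fun a ha b => g0 _ (by
      rw [rw']
      revert ha
      by_cases e : a = k f <;> cases sw f <;> cases κ <;> simp [e]))
  have two : ∀ a : K, a + a = 0 := CharTwo.add_self_eq_zero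
  have lgn : ∀ f a b, F.lg f a b ∉ F.In := fun f a b hh => by
    have := (F.mem_In_w f a b _).1 hh
    simp at this
  obtain ⟨g', gi, go⟩ : ∃ g' : V × Bool → K, (∀ a ∈ F.In, g' a = 0) ∧
      ∀ a ∉ F.In, g' a = ZMod.castHom (dvd_refl 2) K (g a) :=
    ⟨fun a => if a ∈ F.In then 0 else ZMod.castHom (dvd_refl 2) K (g a),
      fun a ha => if_pos ha, fun a ha => if_neg ha⟩
  have oIn : ∀ a ∉ F.In, t.o a ∉ F.In := fun a ha hb => ha (t.o_o a ▸ (F.o_In _ hb).1)
  have gs' : ∀ a ∉ F.In, g (t.o a) = g a := fun a ha => by rw [← ho a ha, gs]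
  have sy : ∀ a, g' (t.o a) = g' a := fun a => by
    by_cases ha : a ∈ F.In
    · rw [gi _ ha, gi _ (F.o_In _ ha).1]
    · rw [go _ ha, go _ (oIn a ha), gs' a ha]
  have tu : ∀ e, (r e = κ → ∀ c, g' (F.u e true, c) = g' (F.u e false, c)) ∧
      (r e ≠ κ → ∀ b, g' (F.u e b, true) = g' (F.u e b, false)) := fun e => by
    refine ⟨fun he c => ?_, fun he b => ?_⟩
    · have := g1 (F'.u e false) ((ru e false).trans he) c
      rw [mu, hu, hu] at this
      rw [go _ (F.not_In_u _ _ _), go _ (F.not_In_u _ _ _)]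
      exact congrArg _ this
    · have := g0 (F'.u e b) fun e' => he ((ru e b).symm.trans e')
      rw [hu] at this
      rw [go _ (F.not_In_u _ _ _), go _ (F.not_In_u _ _ _), this]
  have tw : ∀ f, (g' (F.lg f 0 false) + g' (F.lg f 0 true) + g' (F.lg f 1 false) +
      g' (F.lg f 1 true) + g' (F.lg f 2 false) + g' (F.lg f 2 true) = 0) ∧
      if sw f = κ then Row (F.pi K g') f (i f) else Colm (F.pi K g') f (j f) := fun f => by
    obtain ⟨x0, x1, -⟩ := hex f
    have l0 : i f = false → ∀ a b, F'.lg f a b = F.lg f a b := fun e a b => by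
      rw [lg, lg, hc, w0 f a b e]
    have l1 : i f = true → ∀ a, F'.lg f a false = F.lg f a true := fun e a => by
      rw [lg, lg, hc, (w1 f a e).1]
    have l2 : i f = true → ∀ a, F'.lg f a true = F.lg f (a + 1) false := fun e a => by
      rw [lg, lg, hc, (w1 f a e).2]
    have tq : ∀ a b, ZMod.castHom (dvd_refl 2) K (g (F.lg f a b)) +
        ZMod.castHom (dvd_refl 2) K (g (F.lg f a b)) = 0 := fun _ _ => two _
    have e11 : (1 : Fin 3) + 1 = 2 := rfl
    have e21 : (2 : Fin 3) + 1 = 0 := rfl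
    have e12 : (1 : Fin 3) + 2 = 0 := rfl
    have e22 : (2 : Fin 3) + 2 = 1 := rfl
    simp only [Row, Colm, pi, LinearMap.coe_mk, AddHom.coe_mk, Sum.elim_inr, go _ (lgn _ _ _),
      Bool.false_eq_true, if_true, if_false]
    by_cases e : sw f = κ
    · have y := x0 (by simp [e])
      have y0 := y 0
      have y1 := y 1
      have y2 := y 2
      rw [if_pos e]
      cases e' : i f
      · simp only [l0 e'] at y0 y1 y2
        simp only [y0, y1, y2, two, Bool.false_eq_true, if_false, and_self, zero_add]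
      · simp only [l1 e', l2 e', zero_add, e11, e21] at y0 y1 y2
        simp only [y0, y1, y2, two, if_true, and_self, and_true]
        linear_combination tq 2 true + tq 0 true + tq 1 true
    · obtain ⟨y0, y1, y2⟩ := x1 (by simp [e])
      rw [if_neg e]
      rw [hk] at y0 y1 y2
      cases e' : i f <;> cases e'' : j f <;>
        simp only [e', e'', Bool.false_eq_true, if_true, if_false] at y0 y1 y2
      · simp only [l0 e', zero_add] at y0 y1 y2
        simp only [y0, y1, y2, two, Bool.false_eq_true, if_false, and_self, and_true]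
        linear_combination tq 2 true + tq 2 false
      · simp only [l0 e', e11, e12] at y0 y1 y2
        simp only [y0, y1, y2, two, if_true, and_self, and_true]
        linear_combination tq 0 false + tq 0 true + tq 1 false
      · simp only [l1 e', l2 e', zero_add, e11, e21, e12] at y0 y1 y2
        simp only [y0, y1, y2, two, Bool.false_eq_true, if_false, and_self, and_true]
        linear_combination tq 1 false + tq 1 true
      · simp only [l1 e', l2 e', zero_add, e11, e21, e22] at y0 y1 y2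
        simp only [y0, y1, y2, two, if_true, and_self, and_true]
        linear_combination tq 2 true + tq 2 false + tq 1 true
  have hE : g' ∈ F.EI K := (F.mem_EI g').2 ⟨fun a _ => sy a, fun e => by
    by_cases he : r e = κ
    · rw [(tu e).1 he, (tu e).1 he]
      linear_combination two (g' (F.u e false, false)) + two (g' (F.u e false, true))
    · rw [(tu e).2 he, (tu e).2 he, two, zero_add, two], fun f => (tw f).1⟩
  have hz : F.pi K g' = 0 := hT κ _ ⟨g', ⟨sy, hE⟩, rfl⟩ (fun e => by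
    split_ifs with he
    · change g' (F.u e false, false) + g' (F.u e true, false) = 0
      rw [(tu e).1 he, two]
    · change g' (F.u e false, false) + g' (F.u e false, true) = 0
      rw [(tu e).2 he, two]) fun f => (tw f).2
  choose lg' l1 l2 using F.exists_leg
  have hφ : ∀ a ∉ F.In, g a = g (lg' (F.nd a)) := fun a ha => by
    have := (F.ker_iff g' hE (F.nd a)).1 (fun p _ => by rw [hz]; exact ⟨rfl, rfl⟩) _ (l1 _) a ha
      (l2 _) rfl
    rw [go _ ha, go _ (l1 _)] at this
    exact (ZMod.castHom (dvd_refl 2) K).injective this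
  have hcol : ∀ c v, g (lg' (F.ndv (t.col c v))) = g (lg' (F.ndv v)) := fun c v => by
    by_cases ha : (v, c) ∈ F.In
    · exact congrArg (fun z => g (lg' z)) (F.o_In _ ha).2
    · exact (hφ _ (oIn _ ha)).symm.trans ((gs' _ ha).trans (hφ _ ha))
  have cst := cn _ (fun v => g (lg' (F.ndv v))) (hcol false) (hcol true) fun v => by rw [F.ndv_m]
  rcases isEmpty_or_nonempty V with hV | ⟨⟨v0⟩⟩
  · exact ⟨0, fun a => hV.elim a.1⟩
  have out : ∀ a ∉ F.In, g a = g (lg' (F.ndv v0)) := fun a ha => (hφ a ha).trans (cst a.1 v0)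
  refine ⟨g (lg' (F.ndv v0)), fun a => ?_⟩
  by_cases ha : a ∈ F.In
  swap
  · exact out a ha
  obtain ⟨v, c⟩ := a
  rw [← hIn] at ha
  rcases F'.cases v with ⟨e, b, rfl⟩ | ⟨f, a, b, rfl⟩
  · exact (F'.not_In_u e b c ha).elim
  · obtain ⟨a', b', e⟩ := (hex f).2.2 a b
    rw [(F'.mem_In_w f a b c).1 ha, e]
    refine out _ fun hh => ?_
    rw [← hIn] at hh
    have := (F'.mem_In_w f a' b' _).1 hh
    simp at this

end Fam
end Pool.Agent.MP_8c1b0d_co
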