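import Pool.Agent.MP_8c1b0d_co.Grow

set_option autoImplicit false
open SimpleGraph

namespace Pool.Agent.MP_8c1b0d_co

/-- A system of even cycles `x, y` inside the cubic graph `G`, with real `m`-edges, virtual
`m`-edges (paths through a vertex outside, whose third neighbour is a free port) and free ports
(`m a = a`); `τ a` is the third neighbour of `ι a`. -/
structure Virt {V W : Type} (G : SimpleGraph V) (ι τ : W → V) (x y m : W → W) : Prop where
  cubic : ∀ v, (G.neighborSet v).ncard = 3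
  inj : Function.Injective ι
  xx : ∀ a, x (x a) = a
  yy : ∀ a, y (y a) = a
  mm : ∀ a, m (m a) = a
  xy : ∀ a, x a ≠ y a
  xt : ∀ a, ι (x a) ≠ τ a
  yt : ∀ a, ι (y a) ≠ τ a
  adj : ∀ a u, G.Adj (ι a) u ↔ u = ι (x a) ∨ u = ι (y a) ∨ u = τ a
  real : ∀ a b, τ a = ι b → b = m a
  virt : ∀ a, τ a ∉ Set.range ι → m a ≠ a → τ (m a) = τ a ∧ ∃ p, τ p = τ a ∧ m p = p

namespace Virt
variable {V W : Type} {G : SimpleGraph V} {ι τ : W → V} {x y m : W → W}

lemma swap (h : Virt G ι τ x y m) : Virt G ι τ y x m :=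
  ⟨h.cubic, h.inj, h.yy, h.xx, h.mm, fun a => (h.xy a).symm, h.yt, h.xt,
    fun a u => by rw [h.adj]; tauto, h.real, h.virt⟩

lemma adj_t (h : Virt G ι τ x y m) (a : W) : G.Adj (ι a) (τ a) := (h.adj _ _).2 (by simp)

lemma real_ne (h : Virt G ι τ x y m) {a b : W} (e : τ a = ι b) : m a ≠ a := fun k =>
  (h.adj_t a).ne (by rw [e, h.real a b e, k])

lemma real_symm (h : Virt G ι τ x y m) {a b : W} (e : τ a = ι b) : τ b = ι a := by
  have k := (h.adj_t a).symm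
  rw [e] at k
  rcases (h.adj _ _).1 k with t | t | t
  · exact absurd (by rw [e, h.inj t, h.xx]) (h.xt a)
  · exact absurd (by rw [e, h.inj t, h.yy]) (h.yt a)
  · exact t.symm

/-- the three neighbours of a band vertex -/
lemma band_nb (h : Virt G ι τ x y m) {a : W} (h1 : τ a ∉ Set.range ι) (h2 : m a ≠ a) :
    ∃ p, m p = p ∧ τ p = τ a ∧ τ (m a) = τ a ∧ (∀ u, G.Adj (τ a) u → ∃ b, u = ι b ∧ τ b = τ a) ∧
      ∀ b, τ b = τ a → b = a ∨ b = m a ∨ b = p := by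
  obtain ⟨e, p, e1, e2⟩ := h.virt a h1 h2
  have k1 := (h.adj_t a).symm
  have k2 := (h.adj_t (m a)).symm
  have k3 := (h.adj_t p).symm
  rw [e] at k2
  rw [e1] at k3
  obtain ⟨c, c1, c2, hc⟩ := nbrs3' h.cubic k1 k2 (h.inj.ne h2.symm)
  have pc : ι p = c := by
    rcases (hc _).1 k3 with t | t | t
    · exact absurd (by rw [← h.inj t, e2]) h2
    · exact absurd (by rw [← h.mm a, ← h.inj t, e2, e2]) h2
    · exact t
  refine ⟨p, e2, e1, e, fun u hu => ?_, fun b hb => ?_⟩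
  · rcases (hc _).1 hu with t | t | t
    exacts [⟨a, t, rfl⟩, ⟨m a, t, e⟩, ⟨p, t.trans pc.symm, e1⟩]
  · have k := (h.adj_t b).symm
    rw [hb, hc, ← pc] at k
    simpa only [h.inj.eq_iff] using k

variable (ι τ m)
/-- the third edge at `ι a` has the colour -/
def rho (r : W → Bool) (a : W) : Prop :=
  (m a ≠ a ∧ r a = true) ∨ (m a = a ∧ ∃ b, m b ≠ b ∧ τ b = τ a ∧ r b = false)
/-- the vertices that are covered -/
def cover : Set V := {u | u ∈ Set.range ι ∨ ∃ a, m a ≠ a ∧ τ a = u}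
/-- horizontal edges of the colour -/
def hor (s : W → W) (r : W → Bool) (u v : V) : Prop :=
  (∃ a, u = ι a ∧ v = ι (s a)) ∨
    ∃ a, rho τ m r a ∧ ((u = ι a ∧ v = τ a) ∨ (v = ι a ∧ u = τ a))
/-- rungs of the colour -/
def rung (r : W → Bool) (u : V) : Prop :=
  (∃ a, u = ι a ∧ ¬ rho τ m r a) ∨ (u ∉ Set.range ι ∧ ∃ b, m b ≠ b ∧ τ b = u ∧ r b = false)
/-- one colour class -/
def lay (x y : W → W) (r : W → Bool) : SimpleGraph (V × Bool) :=
  SimpleGraph.fromRel fun p q => (q.2 = p.2 ∧ hor ι τ m (cond p.2 y x) r p.1 q.1) ∨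
    (p.1 = q.1 ∧ rung ι τ m r p.1)
variable {ι τ m}

lemma ss (h : Virt G ι τ x y m) (l : Bool) (a : W) : cond l y x (cond l y x a) = a := by
  cases l; exacts [h.xx a, h.yy a]

lemma hor_adj (h : Virt G ι τ x y m) {l : Bool} {r : W → Bool} {u v : V}
    (k : hor ι τ m (cond l y x) r u v) : G.Adj u v := by
  rcases k with ⟨a, rfl, rfl⟩ | ⟨a, _, ⟨rfl, rfl⟩ | ⟨rfl, rfl⟩⟩
  · cases l <;> simp [h.adj]
  · exact h.adj_t a
  · exact (h.adj_t a).symm

lemma hor_symm (h : Virt G ι τ x y m) {l : Bool} {r : W → Bool} {u v : V}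
    (k : hor ι τ m (cond l y x) r u v) : hor ι τ m (cond l y x) r v u := by
  rcases k with ⟨a, rfl, rfl⟩ | ⟨a, k, k'⟩
  · exact Or.inl ⟨_, rfl, by rw [h.ss]⟩
  · exact Or.inr ⟨a, k, k'.symm⟩

lemma lay_adj (h : Virt G ι τ x y m) (r : W → Bool) (u v : V) (l k : Bool) :
    (lay ι τ m x y r).Adj (u, l) (v, k) ↔
      (k = l ∧ hor ι τ m (cond l y x) r u v) ∨ (v = u ∧ k = (!l) ∧ rung ι τ m r u) := by
  simp only [lay, fromRel_adj, ne_eq, Prod.mk.injEq]
  constructor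
  · rintro ⟨n, (⟨e, t⟩ | ⟨e, t⟩) | ⟨e, t⟩ | ⟨e, t⟩⟩
    · exact Or.inl ⟨e, t⟩
    · subst e; exact Or.inr ⟨rfl, by cases l <;> cases k <;> simp_all, t⟩
    · subst e; exact Or.inl ⟨rfl, h.hor_symm t⟩
    · subst e; exact Or.inr ⟨rfl, by cases l <;> cases k <;> simp_all, t⟩
  · rintro (⟨e, t⟩ | ⟨e, e', t⟩)
    · exact ⟨fun n => (h.hor_adj t).ne n.1, Or.inl (Or.inl ⟨e, t⟩)⟩
    · subst e e'
      exact ⟨by cases l <;> simp, Or.inl (Or.inr ⟨rfl, t⟩)⟩

lemma hor_i (h : Virt G ι τ x y m) {r : W → Bool} (rm : ∀ a, r (m a) = r a) (s : W → W) (a : W)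
    (v : V) : hor ι τ m s r (ι a) v ↔ v = ι (s a) ∨ (rho τ m r a ∧ v = τ a) := by
  constructor
  · rintro (⟨b, e, rfl⟩ | ⟨b, k, ⟨e, rfl⟩ | ⟨rfl, e⟩⟩)
    · rw [h.inj e]; exact Or.inl rfl
    · rw [h.inj e]; exact Or.inr ⟨k, rfl⟩
    · have e1 := h.real_symm e.symm
      have e2 := h.real_ne e.symm
      refine Or.inr ⟨Or.inl ⟨h.real_ne e1, ?_⟩, e1.symm⟩
      rcases k with k | k
      · rw [h.real _ _ e.symm, rm]; exact k.2
      · exact absurd k.1 e2
  · rintro (rfl | ⟨k, rfl⟩)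
    · exact Or.inl ⟨a, rfl, rfl⟩
    · exact Or.inr ⟨a, k, Or.inl ⟨rfl, rfl⟩⟩

lemma rung_i (h : Virt G ι τ x y m) (r : W → Bool) (a : W) :
    rung ι τ m r (ι a) ↔ ¬ rho τ m r a := by
  constructor
  · rintro (⟨b, e, k⟩ | ⟨k, _⟩)
    · rwa [h.inj e]
    · exact absurd ⟨a, rfl⟩ k
  · exact fun k => Or.inl ⟨a, rfl, k⟩

lemma hor_o {r : W → Bool} {s : W → W} {u : V} (hu : u ∉ Set.range ι) (v : V) :
    hor ι τ m s r u v ↔ ∃ a, rho τ m r a ∧ v = ι a ∧ u = τ a := by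
  constructor
  · rintro (⟨b, e, _⟩ | ⟨b, k, ⟨e, _⟩ | e⟩)
    · exact absurd ⟨b, e.symm⟩ hu
    · exact absurd ⟨b, e.symm⟩ hu
    · exact ⟨b, k, e⟩
  · rintro ⟨a, k, e⟩
    exact Or.inr ⟨a, k, Or.inr e⟩

/-- colours at a band vertex -/
lemma band_col (h : Virt G ι τ x y m) {r : W → Bool} (rm : ∀ a, r (m a) = r a) {a : W}
    (h1 : τ a ∉ Set.range ι) (h2 : m a ≠ a) :
    (∀ p, m p = p → τ p = τ a → (rho τ m r p ↔ r a = false)) ∧
      (rung ι τ m r (τ a) ↔ r a = false) := by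
  obtain ⟨p, p1, _, _, _, hb⟩ := h.band_nb h1 h2
  have key : (∃ b, m b ≠ b ∧ τ b = τ a ∧ r b = false) ↔ r a = false := by
    refine ⟨?_, fun k => ⟨a, h2, rfl, k⟩⟩
    rintro ⟨b, b1, b2, b3⟩
    rcases hb b b2 with rfl | rfl | rfl
    exacts [b3, (rm a).symm.trans b3, absurd p1 b1]
  refine ⟨fun q q1 q2 => ?_, ?_⟩
  · simp only [rho, q1, q2, ne_eq, not_true, false_and, false_or, true_and]
    exact key
  · rw [← key]
    refine ⟨?_, fun k => Or.inr ⟨h1, k⟩⟩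
    rintro (⟨b, e, _⟩ | k)
    · exact absurd ⟨b, e.symm⟩ h1
    · exact k.2

lemma rho_ne {r : W → Bool} {a : W} (h2 : m a ≠ a) : rho τ m r a ↔ r a = true := by
  simp [rho, h2]

lemma tour (h : Virt G ι τ x y m) {r : W → Bool} (rm : ∀ a, r (m a) = r a)
    (hc : ∀ f g : W → ZMod 2, (∀ v, f (x v) = f v) → (∀ v, g (y v) = g v) →
      (∀ v, r v = true → f (m v) = f v ∧ g (m v) = g v) →
      (∀ v, r v = false ∨ m v = v → f v = g v) → ∃ d, ∀ v, f v = d ∧ g v = d) :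
    Tour (lay ι τ m x y r) (cover ι τ m) := by
  classical
  have A := h.lay_adj r
  have st : ∀ (l : Bool) a, ι (cond l y x a) ≠ τ a := fun l a => by
    cases l; exacts [h.xt a, h.yt a]
  refine ⟨?_, ?_, ?_⟩
  · rintro ⟨u, l⟩ hu
    by_cases hr : u ∈ Set.range ι
    · obtain ⟨a, rfl⟩ := hr
      by_cases k : rho τ m r a
      · refine ⟨(ι (cond l y x a), l), (τ a, l), by simp [st], ?_⟩
        rintro ⟨v, j⟩
        simp only [A, h.hor_i rm, h.rung_i, k, Prod.mk.injEq]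
        tauto
      · refine ⟨(ι (cond l y x a), l), (ι a, !l), by cases l <;> simp, ?_⟩
        rintro ⟨v, j⟩
        simp only [A, h.hor_i rm, h.rung_i, k, Prod.mk.injEq]
        tauto
    · obtain ⟨a, h2, rfl⟩ := hu.resolve_left hr
      obtain ⟨p, p1, p2, p3, _, hb⟩ := h.band_nb hr h2
      obtain ⟨c1, c2⟩ := h.band_col rm hr h2
      have c3 := c1 p p1 p2
      have c4 : rho τ m r a ↔ r a = true := rho_ne h2
      have c5 : rho τ m r (m a) ↔ r a = true := by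
        rw [rho_ne (by rw [h.mm]; exact h2.symm), rm]
      have key : ∀ v, (∃ b, rho τ m r b ∧ v = ι b ∧ τ a = τ b) ↔
          (r a = true ∧ (v = ι a ∨ v = ι (m a))) ∨ (r a = false ∧ v = ι p) := by
        intro v
        constructor
        · rintro ⟨b, b1, rfl, b3⟩
          rcases hb b b3.symm with rfl | rfl | rfl
          exacts [Or.inl ⟨c4.1 b1, Or.inl rfl⟩, Or.inl ⟨c5.1 b1, Or.inr rfl⟩, Or.inr ⟨c3.1 b1, rfl⟩]
        · rintro (⟨k, rfl | rfl⟩ | ⟨k, rfl⟩)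
          exacts [⟨_, c4.2 k, rfl, rfl⟩, ⟨_, c5.2 k, rfl, p3.symm⟩, ⟨_, c3.2 k, rfl, p2.symm⟩]
      cases k : r a
      · refine ⟨(ι p, l), (τ a, !l), by cases l <;> simp, ?_⟩
        rintro ⟨v, j⟩
        simp only [A, hor_o hr, key, c2, k, Prod.mk.injEq]
        tauto
      · refine ⟨(ι a, l), (ι (m a), l), by simpa [h.inj.eq_iff] using h2.symm, ?_⟩
        rintro ⟨v, j⟩
        simp only [A, hor_o hr, key, c2, k, Prod.mk.injEq]
        tauto
  · rintro ⟨u, l⟩ ⟨v, k⟩ huv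
    rcases (A _ _ _ _).1 huv with ⟨_, ⟨a, e, _⟩ | ⟨a, t, ⟨e, _⟩ | ⟨_, e⟩⟩⟩ | ⟨_, _, ⟨a, e, _⟩ | t⟩
    · exact Or.inl ⟨a, e.symm⟩
    · exact Or.inl ⟨a, e.symm⟩
    · rcases t with t | ⟨_, b, b1, b2, _⟩
      · exact Or.inr ⟨a, t.1, e.symm⟩
      · exact Or.inr ⟨b, b1, b2.trans e.symm⟩
    · exact Or.inl ⟨a, e.symm⟩
    · obtain ⟨_, b, b1, b2, _⟩ := t
      exact Or.inr ⟨b, b1, b2⟩
  · intro P hP
    have e1 : ∀ (l : Bool) a, P (ι a, l) ↔ P (ι (cond l y x a), l) := fun l a =>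
      hP.iff ((A _ _ _ _).2 (Or.inl ⟨rfl, Or.inl ⟨a, rfl, rfl⟩⟩))
    have e2 : ∀ (l : Bool) a, rho τ m r a → (P (ι a, l) ↔ P (τ a, l)) := fun l a k =>
      hP.iff ((A _ _ _ _).2 (Or.inl ⟨rfl, Or.inr ⟨a, k, Or.inl ⟨rfl, rfl⟩⟩⟩))
    have e3 : ∀ u, rung ι τ m r u → (P (u, false) ↔ P (u, true)) := fun u k =>
      hP.iff ((A _ _ _ _).2 (Or.inr ⟨rfl, rfl, k⟩))
    have e4 : ∀ (l : Bool) a, r a = true → (P (ι (m a), l) ↔ P (ι a, l)) := by
      intro l a k
      by_cases h2 : m a = a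
      · rw [h2]
      rw [e2 l a ((rho_ne h2).2 k)]
      by_cases hr : τ a ∈ Set.range ι
      · obtain ⟨b, hb⟩ := hr
        rw [← hb, h.real a b hb.symm]
      · rw [← (h.virt a hr h2).1]
        exact e2 l _ ((rho_ne (by rw [h.mm]; exact Ne.symm h2)).2 ((rm a).trans k))
    have e5 : ∀ a, r a = false ∨ m a = a → (P (ι a, false) ↔ P (ι a, true)) := by
      intro a k
      by_cases t : rho τ m r a
      · rw [e2 _ a t, e2 _ a t]
        rcases t with t | ⟨t, b, b1, b2, b3⟩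
        · rcases k with k | k
          · rw [k] at t; exact absurd t.2 (by simp)
          · exact absurd k t.1
        · refine e3 _ (Or.inr ⟨?_, b, b1, b2, b3⟩)
          rintro ⟨c, hc⟩
          exact h.real_ne hc.symm t
      · exact e3 _ ((h.rung_i r a).2 t)
    obtain ⟨d, hd⟩ := hc (fun a => if P (ι a, false) then 1 else 0)
      (fun a => if P (ι a, true) then 1 else 0) (fun a => by rw [e1 false a]; rfl)
      (fun a => by rw [e1 true a]; rfl) (fun a k => by rw [e4 _ a k, e4 _ a k]; exact ⟨rfl, rfl⟩)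
      (fun a k => by rw [e5 a k])
    have e6 : ∀ (l : Bool) a, P (ι a, l) ↔ d = 1 := by
      intro l a
      cases l
      · rw [← (hd a).1]; split_ifs with k <;> simp [k]
      · rw [← (hd a).2]; split_ifs with k <;> simp [k]
    have e7 : ∀ p : V × Bool, p.1 ∈ cover ι τ m → (P p ↔ d = 1) := by
      rintro ⟨u, l⟩ hu
      by_cases hr : u ∈ Set.range ι
      · obtain ⟨a, rfl⟩ := hr
        exact e6 l a
      · obtain ⟨a, h2, rfl⟩ := hu.resolve_left hr
        cases k : r a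
        · obtain ⟨p, p1, p2, _⟩ := h.band_nb hr h2
          rw [← p2, ← e2 l p (((h.band_col rm hr h2).1 p p1 p2).2 k), e6]
        · rw [← e2 l a ((rho_ne h2).2 k), e6]
    intro p q hp hq k
    exact (e7 q hq).2 ((e7 p hp).1 k)

lemma lay_le (h : Virt G ι τ x y m) (r : W → Bool) : lay ι τ m x y r ≤ G.boxProd ⊤ := by
  rintro ⟨u, l⟩ ⟨v, k⟩ huv
  rw [boxProd_adj]
  rcases (h.lay_adj r _ _ _ _).1 huv with ⟨e, t⟩ | ⟨e, e', _⟩
  · exact Or.inl ⟨h.hor_adj t, e.symm⟩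
  · subst e e'
    right; cases l <;> simp

/-- LIFT: both virtual colours connected gives a partial decomposition -/
theorem good (h : Virt G ι τ x y m) {r : W → Bool} (rm : ∀ a, r (m a) = r a)
    (red : ∀ f g : W → ZMod 2, (∀ v, f (x v) = f v) → (∀ v, g (y v) = g v) →
      (∀ v, r v = true → f (m v) = f v ∧ g (m v) = g v) →
      (∀ v, r v = false ∨ m v = v → f v = g v) → ∃ d, ∀ v, f v = d ∧ g v = d)
    (blue : ∀ f g : W → ZMod 2, (∀ v, f (x v) = f v) → (∀ v, g (y v) = g v) →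
      (∀ v, (!r v) = true → f (m v) = f v ∧ g (m v) = g v) →
      (∀ v, (!r v) = false ∨ m v = v → f v = g v) → ∃ d, ∀ v, f v = d ∧ g v = d) :
    Good G (cover ι τ m) := by
  have rm' : ∀ v, (!r (m v)) = !r v := fun v => by rw [rm]
  refine ⟨lay ι τ m x y r, lay ι τ m y x fun v => !r v, h.tour rm red,
    h.swap.tour rm' fun f g hf hg h1 h0 => ?_, h.lay_le _, h.swap.lay_le _, ?_⟩
  · obtain ⟨d, hd⟩ := blue g f hg hf (fun v e => (h1 v e).symm) fun v e => (h0 v e).symm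
    exact ⟨d, fun v => (hd v).symm⟩
  have main : ∀ a v l, G.Adj (ι a) v → v ∈ cover ι τ m → ((lay ι τ m x y r).Adj (ι a, l) (v, l) ↔
      ¬ (lay ι τ m y x fun v => !r v).Adj (ι a, l) (v, l)) := by
    intro a v l huv hv
    rw [h.lay_adj, h.swap.lay_adj, h.hor_i rm, h.hor_i rm']
    have n1 := h.inj.ne (h.xy a)
    have n2 := h.xt a
    have n3 := h.yt a
    rcases (h.adj _ _).1 huv with rfl | rfl | rfl
    · cases l <;> simp [n1, n2]
    · cases l <;> simp [n1.symm, n3]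
    · have key : rho τ m r a ↔ ¬ rho τ m (fun v => !r v) a := by
        by_cases h2 : m a = a
        · have hr : τ a ∉ Set.range ι := by
            rintro ⟨c, hc⟩
            exact h.real_ne hc.symm h2
          obtain ⟨b, b1, b2⟩ := hv.resolve_left hr
          rw [← b2] at hr
          rw [(h.band_col rm hr b1).1 a h2 b2.symm, (h.band_col rm' hr b1).1 a h2 b2.symm]
          simp
        · simp [rho_ne h2]
      cases l <;> simp [n2.symm, n3.symm, key]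
  intro u v l huv hu hv
  by_cases hr : u ∈ Set.range ι
  · obtain ⟨a, rfl⟩ := hr
    exact main a v l huv hv
  · obtain ⟨a, h2, rfl⟩ := hu.resolve_left hr
    obtain ⟨_, _, _, _, k, _⟩ := h.band_nb hr h2
    obtain ⟨b, rfl, _⟩ := k v huv
    rw [adj_comm, adj_comm (lay ι τ m y x _)]
    exact main b _ l huv.symm hu

/-- the uncovered vertices induce a forest -/
theorem good_univ [Finite V] (h : Virt G ι τ x y m) (hg : Good G (cover ι τ m))
    (hF : (G.induce (Set.range ι)ᶜ).IsAcyclic) : Good G Set.univ :=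
  Good.grow h.cubic _ _ rfl hg
    (hF.embedding (G.induceHomOfLE (Set.compl_subset_compl.2 fun _ k => Or.inl k)))

lemma acyclic_of_indep {S : Set V} (hS : ∀ a b, a ∈ S → b ∈ S → ¬ G.Adj a b) :
    (G.induce S).IsAcyclic := by
  have : G.induce S = ⊥ := by
    ext a b
    simpa using hS a b a.2 b.2
  rw [this]
  exact isAcyclic_bot

end Virt

end Pool.Agent.MP_8c1b0d_co
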