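import Mathlib

set_option autoImplicit false
set_option linter.unusedSectionVars false
open Finset Module

namespace Pool.Agent.MP_8c1b0d_co

/-- functions supported on `A` -/
def spt (K : Type*) [Field K] {E : Type*} (A : Finset E) : Submodule K (E → K) where
  carrier := {P | ∀ e, e ∉ A → P e = 0}
  zero_mem' := fun _ _ => rfl
  add_mem' := fun ha hb e he => by simp [ha e he, hb e he]
  smul_mem' := fun t a ha e he => by simp [ha e he]

lemma mem_spt {K : Type*} [Field K] {E : Type*} {A : Finset E} {P : E → K} :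
    P ∈ spt K A ↔ ∀ e, e ∉ A → P e = 0 := Iff.rfl

/-- Quad system of a Hamiltonian fullerene. `F` faces, `E` chords (quads of the dual
triangulation). `hE e` are the two faces along the chord (`hE e false` is the child,
`hE e true` the parent in the tree of its side), `fE e` the faces at its two ends.
A triple `(e, i, j)` is a half of a cycle edge: at the end `j` of the chord, on the face `hE e i`;
`gl` is the other half, `col` its colour. -/
structure QS (F E : Type) [Fintype E] [DecidableEq F] where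
  side : F → Bool
  hE : E → Bool → F
  fE : E → Bool → F
  sd : E → Bool
  side_h : ∀ e i, side (hE e i) = sd e
  side_f : ∀ e j, side (fE e j) = !sd e
  gl : E × Bool × Bool → E × Bool × Bool
  gl_gl : ∀ d, gl (gl d) = d
  gl_ne : ∀ d, gl d ≠ d
  gl_end : ∀ d, s(hE (gl d).1 (gl d).2.1, fE (gl d).1 (gl d).2.2) = s(hE d.1 d.2.1, fE d.1 d.2.2)
  col : E × Bool × Bool → Bool
  col_gl : ∀ d, col (gl d) = col d
  col_i : ∀ e i j, col (e, !i, j) = !col (e, i, j)
  fc : ∀ (φ : F) (P : E × Bool × Bool → Prop),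
    (∀ e i j, hE e i = φ → P (e, i, j) → P (gl (e, i, j)) ∧ P (e, i, !j)) →
    (∀ e i j, fE e j = φ → P (e, i, j) → P (gl (e, i, j)) ∧ P (e, !i, j)) →
    ∀ d d' : E × Bool × Bool, (hE d.1 d.2.1 = φ ∨ fE d.1 d.2.2 = φ) →
      (hE d'.1 d'.2.1 = φ ∨ fE d'.1 d'.2.2 = φ) → P d → P d'
  pent : Finset F
  deg : ∀ φ, 2 * #{p : E × Bool | hE p.1 p.2 = φ} + #{p : E × Bool | fE p.1 p.2 = φ} +
    (if φ ∈ pent then 1 else 0) = 6
  flip_ne : ∀ e, fE e false ≠ fE e true
  root : Bool → F
  side_root : ∀ s, side (root s) = s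
  child_inj : ∀ e e', hE e false = hE e' false → e = e'
  child_ne : ∀ e s, hE e false ≠ root s
  child_surj : ∀ φ, φ ≠ root (side φ) → ∃ e, hE e false = φ
  dep : F → ℕ
  dep_lt : ∀ e, dep (hE e true) < dep (hE e false)
  root_pent : ∃ s, root s ∈ pent
  root_adj : ∃ e i j, hE e i = root (sd e) ∧ fE e j = root (!sd e)

namespace QS
variable {F E : Type} [Fintype F] [Fintype E] [DecidableEq F] [DecidableEq E] (q : QS F E)

/-- the ends of the diagonal of `e` that lies on side `s` -/
def dg (s : Bool) (e : E) : Bool → F := if q.sd e = s then q.hE e else q.fE e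

/-- twisted chords whose hard diagonal lies on side `s` -/
def good (s : Bool) : Finset E :=
  {e | q.sd e = s ∧ q.col (e, false, false) ≠ q.col (e, false, true)}

variable (K : Type) [Field K]

/-- coboundary of a face function along the diagonals of side `s` -/
def δ (s : Bool) : (F → K) →ₗ[K] (E → K) where
  toFun u e := u (q.dg s e false) + u (q.dg s e true)
  map_add' u v := by ext e; simp only [Pi.add_apply]; ring
  map_smul' c u := by ext e; simp only [Pi.smul_apply, smul_eq_mul, RingHom.id_apply]; ring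

lemma δ_apply (s : Bool) (u : F → K) (e : E) :
    q.δ K s u e = u (q.dg s e false) + u (q.dg s e true) := rfl

/-- dimension of the space of side `s` coboundaries supported on `A` -/
noncomputable def nu (s : Bool) (A : Finset E) : ℕ :=
  finrank K (LinearMap.range (q.δ K s) ⊓ spt K A : Submodule K (E → K))

/-- every pentagon of side `s` is an end of the side `s` diagonal of a quad outside `A` -/
def WB (s : Bool) (A : Finset E) : Prop :=
  ∀ u ∈ q.pent, q.side u = s → ∃ e, e ∉ A ∧ ∃ i, q.dg s e i = u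

/-- The local picture at a hexagon `y = hE e4 true` that changes its side. Around `y`:
`w1 = hE e4 false`, `x1 = hE e1 i1`, `x2 = hE e1 !i1`, `w2 = hE e3 !i3`, `x3 = hE e2 i2`,
`x4 = hE e2 !i2`. -/
structure Cfg where
  e1 : E
  e2 : E
  e3 : E
  e4 : E
  i1 : Bool
  j1 : Bool
  i2 : Bool
  j2 : Bool
  i3 : Bool
  j3 : Bool
  j4 : Bool
  g41 : q.gl (e4, true, j4) = (e1, i1, j1)
  g13 : q.gl (e1, !i1, j1) = (e3, i3, j3)
  g32 : q.gl (e3, i3, !j3) = (e2, i2, j2)
  g24 : q.gl (e2, !i2, j2) = (e4, true, !j4)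
  y1 : q.fE e1 j1 = q.hE e4 true
  y2 : q.fE e2 j2 = q.hE e4 true
  y3 : q.hE e3 i3 = q.hE e4 true
  n12 : e1 ≠ e2
  n34 : e3 ≠ e4
  bad3 : q.col (e3, false, false) = q.col (e3, false, true)
  bad4 : q.col (e4, false, false) = q.col (e4, false, true)
  hex : q.hE e4 true ∉ q.pent

/-- the four quads of a configuration -/
def Cfg.quads {q : QS F E} (c : q.Cfg) : Finset E := {c.e1, c.e2, c.e3, c.e4}

/-- What the counting part delivers: a family of moves with disjoint quads after which the
sparsity conditions hold on both sides. -/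
def Repair (M : Finset q.Cfg) : Prop :=
  (∀ c ∈ M, ∀ c' ∈ M, c ≠ c' → Disjoint c.quads c'.quads) ∧
  ∀ (s : Bool) (A : Finset E), q.WB s A →
    (∀ c ∈ M, q.sd c.e4 ≠ s → c.e1 ∉ A ∧ c.e2 ∉ A ∧ c.e3 ∈ A) →
    (∀ c ∈ M, q.sd c.e4 = s → c.e1 ∈ A ∧ c.e2 ∈ A ∧ c.e3 ∉ A) →
    2 * q.nu K s A + #{c ∈ M | q.sd c.e4 ≠ s} + 2 * #{c ∈ M | q.sd c.e4 = s} ≤ #A

end QS

end Pool.Agent.MP_8c1b0d_co
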