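import Pool.Agent.MP_8c1b0d_co.Heawood
import Pool.Agent.MP_8c1b0d_co.Lift
import Pool.Agent.MP_8c1b0d_co.QS

set_option autoImplicit false
open SimpleGraph Finset

namespace Pool.Agent.MP_8c1b0d_co

/-- A plane system of even cycles `x, y` with bands `m`; `m v = v` is a free port. -/
structure ColF (V Φ : Type) where
  x : V → V
  y : V → V
  m : V → V
  fx : V → Φ
  fy : V → Φ
  fm : V → Φ
  xx : ∀ v, x (x v) = v
  yy : ∀ v, y (y v) = v
  mm : ∀ v, m (m v) = v
  x_ne : ∀ v, x v ≠ v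
  y_ne : ∀ v, y v ≠ v
  hx : ∀ v, s(fy (x v), fm (x v)) = s(fy v, fm v)
  hy : ∀ v, s(fx (y v), fm (y v)) = s(fx v, fm v)
  hm : ∀ v, s(fx (m v), fy (m v)) = s(fx v, fy v)
  free : ∀ v, m v = v → fx v = fy v
  planar : ∀ f g : V → ZMod 2, (∀ v, f (x v) = f v) → (∀ v, g (y v) = g v) →
    (∀ v, f (m v) + g (m v) = f v + g v) → (∀ v, m v = v → f v = g v) →
    ∃ h : Φ → ZMod 2, ∀ v, f v = h (fy v) + h (fm v) ∧ g v = h (fx v) + h (fm v)
  conn : ∀ P : V → Prop, (∀ v, P v → P (x v) ∧ P (y v) ∧ P (m v)) → ∀ u v, P u → P v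

namespace ColF
variable {V Φ : Type} (c : ColF V Φ)

/-- the two sides of the 2-factor -/
lemma exists_side : ∃ σ : Φ → Bool, ∀ v, σ (c.fy v) = σ (c.fx v) ∧ σ (c.fm v) = !σ (c.fx v) := by
  obtain ⟨s, hs⟩ := c.planar (fun _ => 1) (fun _ => 1) (fun _ => rfl) (fun _ => rfl)
    (fun _ => rfl) fun _ _ => rfl
  refine ⟨fun a => decide (s a = 1), fun v => ?_⟩
  have h1 := (hs v).1
  have h2 := (hs v).2
  beta_reduce
  revert h1 h2
  generalize s (c.fx v) = p, s (c.fy v) = q, s (c.fm v) = r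
  revert p q r; decide

lemma m_cases (v : V) : (c.fx (c.m v) = c.fx v ∧ c.fy (c.m v) = c.fy v) ∨
    (c.fx (c.m v) = c.fy v ∧ c.fy (c.m v) = c.fx v) := Sym2.eq_iff.1 (c.hm v)

end ColF

lemma add_of_sym2 {Φ K : Type} [AddCommMonoid K] {a a' b b' : Φ} (k : s(a, a') = s(b, b'))
    (h : Φ → K) : h a + h a' = h b + h b' := by
  rcases Sym2.eq_iff.1 k with t | t <;> rw [t.1, t.2]
  exact add_comm _ _

variable {V : Type} {G : SimpleGraph V}

/-- the 3-edge-colouring given by a Hamilton cycle -/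
theorem exists_ham_col [Fintype V] [DecidableEq V] (hc : ∀ v, (G.neighborSet v).ncard = 3)
    (hn : 2 ∣ Fintype.card V) {a : V} {p : G.Walk a a} (hp : p.IsHamiltonianCycle) :
    ∃ x y m : V → V, (∀ v, x (x v) = v) ∧ (∀ v, y (y v) = v) ∧ (∀ v, m (m v) = v) ∧
      (∀ v, x v ≠ y v) ∧ (∀ v, x v ≠ m v) ∧ (∀ v, y v ≠ m v) ∧
      (∀ u v, G.Adj u v ↔ v = x u ∨ v = y u ∨ v = m u) ∧
      ∀ P : V → Prop, (∀ v, P v → P (x v) ∧ P (y v)) → ∀ u v, P u → P v := by
  set n := Fintype.card V with hn'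
  have hl : p.length = n := hp.length_eq
  have h3 : 3 ≤ n := hl ▸ hp.isCycle.three_le_length
  have inj : ∀ i j, i < n → j < n → p.getVert i = p.getVert j → i = j := fun i j hi hj k =>
    hp.isCycle.getVert_injOn' (by simp only [Set.mem_ofPred_eq]; omega)
      (by simp only [Set.mem_ofPred_eq]; omega) k
  have bij : Function.Bijective fun i : Fin n => p.getVert i :=
    (Fintype.bijective_iff_injective_and_card _).2
      ⟨fun i j k => Fin.ext (inj _ _ i.2 j.2 k), by simp [hn']⟩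
  choose idx hidx using bij.2
  have idx_get : ∀ i, i < n → (idx (p.getVert i) : ℕ) = i := fun i hi =>
    inj _ _ (idx _).2 hi (hidx _)
  have ext : ∀ u v, (idx u : ℕ) = idx v → u = v := fun u v k => by
    rw [← hidx u, ← hidx v]; simp only [k]
  let s : V → V := fun v => p.getVert (idx v + 1)
  have sadj : ∀ v, G.Adj v (s v) := fun v => by
    have := p.adj_getVert_succ (i := idx v) (by rw [hl]; exact (idx v).2)
    rwa [show p.getVert (idx v) = v from hidx v] at this
  have sidx : ∀ v, ((idx v : ℕ) + 1 < n ∧ (idx (s v) : ℕ) = idx v + 1) ∨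
      ((idx v : ℕ) + 1 = n ∧ (idx (s v) : ℕ) = 0) := by
    intro v
    rcases Nat.lt_or_ge (idx v + 1) n with k | k
    · exact Or.inl ⟨k, idx_get _ k⟩
    · have e : (idx v : ℕ) + 1 = n := le_antisymm (idx v).2 k
      refine Or.inr ⟨e, ?_⟩
      have : s v = p.getVert 0 := by
        simp only [s]
        rw [e, ← hl, Walk.getVert_length, Walk.getVert_zero]
      rw [this, idx_get 0 (by omega)]
  have sinj : Function.Injective s := fun u v k => ext _ _ (by
    have h1 := sidx u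
    have h2 := sidx v
    rw [k] at h1
    omega)
  let S : V ≃ V := Equiv.ofBijective s (Finite.injective_iff_bijective.1 sinj)
  have par : ∀ v, (idx (S v) : ℕ) % 2 = 0 ↔ ¬ (idx v : ℕ) % 2 = 0 := fun v => by
    have := sidx v
    show (idx (s v) : ℕ) % 2 = 0 ↔ _
    omega
  have par' : ∀ v, (idx (S.symm v) : ℕ) % 2 = 0 ↔ ¬ (idx v : ℕ) % 2 = 0 := fun v => by
    have := par (S.symm v)
    rw [S.apply_symm_apply] at this
    tauto
  have ne : ∀ v, S v ≠ S.symm v := fun v k => by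
    have k' : s (s v) = v := by
      have := congrArg S k
      rwa [S.apply_symm_apply] at this
    have h1 := sidx v
    have h2 := sidx (s v)
    rw [k'] at h2
    omega
  have adj1 : ∀ v, G.Adj v (S v) := sadj
  have adj2 : ∀ v, G.Adj v (S.symm v) := fun v => by
    have := adj1 (S.symm v)
    rw [S.apply_symm_apply] at this
    exact this.symm
  let x : V → V := fun v => if (idx v : ℕ) % 2 = 0 then S v else S.symm v
  let y : V → V := fun v => if (idx v : ℕ) % 2 = 0 then S.symm v else S v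
  have xx : ∀ v, x (x v) = v := fun v => by
    by_cases k : (idx v : ℕ) % 2 = 0 <;> simp [x, k, par, par']
  have yy : ∀ v, y (y v) = v := fun v => by
    by_cases k : (idx v : ℕ) % 2 = 0 <;> simp [y, k, par, par']
  have xy : ∀ v, x v ≠ y v := fun v => by
    by_cases k : (idx v : ℕ) % 2 = 0 <;> simp [x, y, k, ne, (ne v).symm]
  have ax : ∀ v, G.Adj v (x v) := fun v => by simp only [x]; split_ifs; exacts [adj1 v, adj2 v]
  have ay : ∀ v, G.Adj v (y v) := fun v => by simp only [y]; split_ifs; exacts [adj2 v, adj1 v]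
  choose m xm ym hG using fun v => nbrs3' hc (ax v) (ay v) (xy v)
  refine ⟨x, y, m, xx, yy, fun v => ?_, xy, xm, ym, hG, fun P hP u v hu => ?_⟩
  · rcases (hG (m v) v).1 ((hG v (m v)).2 (by simp)).symm with k | k | k
    · exact absurd (by rw [← xx (m v), ← k]) (xm v)
    · exact absurd (by rw [← yy (m v), ← k]) (ym v)
    · exact k.symm
  · have st : ∀ w, P w → P (s w) := fun w hw => by
      have := hP w hw
      by_cases k : (idx w : ℕ) % 2 = 0 <;> simp only [x, y, k, if_true, if_false] at this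
      exacts [this.1, this.2]
    have st' : ∀ w, P (s w) → P w := fun w hw => by
      have := hP _ hw
      have e : S.symm (s w) = w := S.symm_apply_apply w
      by_cases k : (idx (s w) : ℕ) % 2 = 0 <;> simp only [x, y, k, if_true, if_false, e] at this
      exacts [this.2, this.1]
    have all : ∀ i, i < n → (P (p.getVert 0) ↔ P (p.getVert i)) := by
      intro i
      induction i with
      | zero => exact fun _ => Iff.rfl
      | succ i ih =>
        intro hi
        have e : p.getVert (i + 1) = s (p.getVert i) := by simp only [s]; rw [idx_get i (by omega)]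
        rw [ih (by omega), e]
        exact ⟨st _, st' _⟩
    rw [← hidx u] at hu
    rw [← hidx v]
    exact (all _ (idx v).2).1 ((all _ (idx u).2).2 hu)

/-- a 3-connected cubic graph has no edge cut with at most two edges -/
lemma no_two_cut [DecidableEq V] (hc : ∀ v, (G.neighborSet v).ncard = 3)
    (h3 : ∀ S : Finset V, S.card ≤ 2 → (G.induce ((S : Set V)ᶜ)).Connected)
    (g : V → ZMod 2) {u₁ v₁ u₂ v₂ : V} (g2 : g u₂ ≠ g v₂)
    (hg : ∀ u v, G.Adj u v → g u ≠ g v → s(u, v) = s(u₁, v₁) ∨ s(u, v) = s(u₂, v₂)) : False := by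
  have same : ∀ u, ∃ w, G.Adj u w ∧ g u = g w := by
    intro u
    obtain ⟨p, q, r, hpq, hpr, hqr, e⟩ := Set.ncard_eq_three.1 (hc u)
    have hp : G.Adj u p := by rw [← mem_neighborSet, e]; simp
    have hq : G.Adj u q := by rw [← mem_neighborSet, e]; simp
    have hr : G.Adj u r := by rw [← mem_neighborSet, e]; simp
    by_contra k
    push Not at k
    have n : ∀ a b, a ≠ b → s(u, a) ≠ s(u, b) := fun a b hab t => hab (Sym2.congr_right.1 t)
    rcases hg _ _ hp (k p hp) with a | a <;> rcases hg _ _ hq (k q hq) with b | b <;>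
      rcases hg _ _ hr (k r hr) with c | c <;>
      first
      | exact n _ _ hpq (a.trans b.symm)
      | exact n _ _ hpr (a.trans c.symm)
      | exact n _ _ hqr (b.trans c.symm)
  have main : ∀ u₂ v₂, g u₁ ≠ g v₂ →
      (∀ u v, G.Adj u v → g u ≠ g v → s(u, v) = s(u₁, v₁) ∨ s(u, v) = s(u₂, v₂)) → False := by
    intro u₂ v₂ g3 hg
    obtain ⟨a, a1, a2⟩ := same u₁
    obtain ⟨b, b1, b2⟩ := same v₂
    have ha : a ∈ ((({u₁, v₂} : Finset V) : Set V))ᶜ := by
      simp only [coe_insert, coe_singleton, Set.mem_compl_iff, Set.mem_insert_iff,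
        Set.mem_singleton_iff, not_or]
      exact ⟨a1.ne', fun k => g3 (k ▸ a2)⟩
    have hb : b ∈ ((({u₁, v₂} : Finset V) : Set V))ᶜ := by
      simp only [coe_insert, coe_singleton, Set.mem_compl_iff, Set.mem_insert_iff,
        Set.mem_singleton_iff, not_or]
      exact ⟨fun k => g3 (k ▸ b2.symm), b1.ne'⟩
    have := Closed.reach (H := G.induce ((({u₁, v₂} : Finset V) : Set V))ᶜ)
      (P := fun w => g a = g w.1) (fun s t hst hs => by
        rw [hs]
        by_contra k
        have s2 := s.2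
        have t2 := t.2
        simp only [coe_insert, coe_singleton, Set.mem_compl_iff, Set.mem_insert_iff,
          Set.mem_singleton_iff, not_or] at s2 t2
        rcases hg _ _ hst k with e | e <;> rcases Sym2.eq_iff.1 e with e | e
        exacts [s2.1 e.1, t2.1 e.2, t2.2 e.2, s2.2 e.1])
      ((h3 {u₁, v₂} card_le_two).preconnected ⟨a, ha⟩ ⟨b, hb⟩) rfl
    exact g3 (a2.trans (this.trans b2.symm))
  by_cases k : g u₁ = g v₂
  · exact main v₂ u₂ (fun t => g2 (t.symm.trans k)) fun u v a b => by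
      rw [Sym2.eq_swap (a := v₂)]; exact hg u v a b
  · exact main u₂ v₂ k hg

/-- the face of a dart -/
abbrev Face (σ : Equiv.Perm G.Dart) := Quotient (Equiv.Perm.SameCycle.setoid (facePerm σ))

lemma face_rot (σ : Equiv.Perm G.Dart) (d : G.Dart) : (⟦σ d⟧ : Face σ) = ⟦d.symm⟧ := by
  have : σ d = facePerm σ d.symm := by simp [facePerm]
  rw [this]
  exact Quotient.sound (Equiv.Perm.sameCycle_apply_left.2 (Equiv.Perm.SameCycle.refl _ _))

/-- cycles of the dual graph are cuts -/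
theorem dual_cut [Fintype V] [DecidableEq V] (hc : ∀ v, (G.neighborSet v).ncard = 3)
    (hconn : G.Connected) (σ : Equiv.Perm G.Dart) (h1 : ∀ d, (σ d).fst = d.fst)
    (h2 : ∀ d, σ d ≠ d) (euler : 2 * Nat.card (Face σ) = Fintype.card V + 4)
    [Fintype G.Dart] (Z : G.Dart → ZMod 2) (hZ : ∀ d, Z d.symm = Z d)
    (h0 : ∀ h : Face σ → ZMod 2, ∑ d, h ⟦d⟧ * Z d = 0) :
    ∃ g : V → ZMod 2, ∀ d, Z d = g d.fst + g d.snd := by
  classical
  have : Fintype (Face σ) := Fintype.ofFinite _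
  have deg : ∀ v, G.degree v = 3 := fun v => by
    rw [← hc v, ← card_neighborFinset_eq_degree, neighborFinset_def, Set.ncard_eq_toFinset_card']
  obtain ⟨g, hg⟩ := exact_of_euler (K := ZMod 2) (ι := Dart.symm) Dart.symm_symm
    (fun d => d.symm_ne) (fun d => (⟦d⟧ : Face σ)) (fun d => d.fst)
    (fun h g => by
      simp only [mul_sub, sum_sub_distrib]
      rw [← Equiv.sum_comp σ fun d => h ⟦d⟧ * g d.fst,
        ← Equiv.sum_comp (Function.Involutive.toPerm _ Dart.symm_involutive)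
          fun d => h ⟦d⟧ * g d.symm.fst]
      simp [h1, face_rot])
    (fun h hh u v => by
      obtain ⟨d, rfl⟩ := Quotient.exists_rep u
      obtain ⟨d', rfl⟩ := Quotient.exists_rep v
      have loc : ∀ e e' : G.Dart, e'.fst = e.fst → h ⟦e'⟧ = h ⟦e⟧ := fun e e' k => by
        rcases dart_three hc σ h1 h2 e e' k with rfl | rfl | rfl
        · rfl
        · rw [face_rot, hh]
        · rw [face_rot, hh, face_rot, hh]
      exact Closed.reach (H := G) (P := fun w => ∀ e : G.Dart, e.fst = w → h ⟦d⟧ = h ⟦e⟧)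
        (fun a b hab ha e he => by
          rw [ha ⟨(a, b), hab⟩ rfl, ← hh]
          exact loc _ _ he.symm) (hconn.preconnected d.fst d'.fst)
        (fun e he => (loc d e he).symm) d' rfl)
    (fun g hg u v => Closed.reach (H := G) (P := fun w => g u = g w)
      (fun a b hab ha => ha.trans (hg ⟨(a, b), hab⟩).symm) (hconn.preconnected u v) rfl)
    (by
      have := G.dart_card_eq_sum_degrees
      simp only [deg, sum_const, card_univ, smul_eq_mul] at this
      rw [← Nat.card_eq_fintype_card (α := Face σ), mul_add, euler,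
        show Fintype.card G.Dart = Fintype.card V * 3 by convert this]
      omega)
    Z (fun d => by rw [hZ, CharTwo.neg_eq]) h0
  exact ⟨g, fun d => by rw [hg, CharTwo.sub_eq_add]; rfl⟩

/-- the dual of a 3-connected plane cubic graph is simple -/
theorem dual_simple [Fintype V] [DecidableEq V] (hc : ∀ v, (G.neighborSet v).ncard = 3)
    (h3 : ∀ S : Finset V, S.card ≤ 2 → (G.induce ((S : Set V)ᶜ)).Connected)
    (hconn : G.Connected) (σ : Equiv.Perm G.Dart) (h1 : ∀ d, (σ d).fst = d.fst)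
    (h2 : ∀ d, σ d ≠ d) (euler : 2 * Nat.card (Face σ) = Fintype.card V + 4) :
    (∀ d : G.Dart, (⟦d⟧ : Face σ) ≠ ⟦d.symm⟧) ∧
      ∀ d d' : G.Dart, s((⟦d⟧ : Face σ), (⟦d.symm⟧ : Face σ)) = s(⟦d'⟧, ⟦d'.symm⟧) →
        d' = d ∨ d' = d.symm := by
  classical
  have two : ∀ t : ZMod 2, t + t = 0 := CharTwo.add_self_eq_zero
  let I : G.Dart → G.Dart → ZMod 2 := fun d e =>
    (if e = d then 1 else 0) + if e = d.symm then 1 else 0
  have Is : ∀ d e, I d e.symm = I d e := fun d e => by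
    have e1 : e.symm = d ↔ e = d.symm := Dart.symm_involutive.eq_iff
    have e2 : e.symm = d.symm ↔ e = d := Dart.symm_involutive.injective.eq_iff
    simp only [I, e1, e2, add_comm]
  have Isum : ∀ d (h : Face σ → ZMod 2), ∑ e, h ⟦e⟧ * I d e = h ⟦d⟧ + h ⟦d.symm⟧ := fun d h => by
    simp [I, mul_add, sum_add_distrib]
  have Id : ∀ d, I d d = 1 := fun d => by simp [I, d.symm_ne.symm]
  have I0 : ∀ d u v (h : G.Adj u v), s(u, v) ≠ s(d.fst, d.snd) → I d ⟨(u, v), h⟩ = 0 := by
    intro d u v h k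
    have n1 : (⟨(u, v), h⟩ : G.Dart) ≠ d := by rintro rfl; exact k rfl
    have n2 : (⟨(u, v), h⟩ : G.Dart) ≠ d.symm := by
      intro t
      apply k
      have t1 : u = d.snd := congrArg (fun e : G.Dart => e.fst) t
      have t2 : v = d.fst := congrArg (fun e : G.Dart => e.snd) t
      rw [t1, t2, Sym2.eq_swap]
    simp [I, n1, n2]
  have ne1 : ∀ a b : ZMod 2, 1 = a + b → a ≠ b := by decide
  have ne0 : ∀ a b : ZMod 2, 0 = a + b → a = b := by decide
  constructor
  · intro d k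
    obtain ⟨g, hg⟩ := dual_cut hc hconn σ h1 h2 euler (I d) (Is d) fun h => by
      rw [Isum, k, two]
    have g1 := ne1 _ _ ((Id d).symm.trans (hg d))
    refine no_two_cut hc h3 g (u₁ := d.fst) (v₁ := d.snd) g1 fun u v huv n => Or.inl ?_
    by_contra t
    exact n (ne0 _ _ ((I0 d u v huv t).symm.trans (hg _)))
  · intro d d' k
    by_contra n
    push Not at n
    obtain ⟨g, hg⟩ := dual_cut hc hconn σ h1 h2 euler (fun e => I d e + I d' e)
      (fun e => by rw [Is, Is]) fun h => by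
        simp only [mul_add, sum_add_distrib, Isum]
        rw [add_of_sym2 k h, two]
    have z1 : I d d' = 0 := by simp [I, n.1, n.2]
    refine no_two_cut hc h3 g (u₁ := d.fst) (v₁ := d.snd) (u₂ := d'.fst) (v₂ := d'.snd)
      (ne1 _ _ (by rw [← hg, Id, z1, zero_add])) fun u v huv t => ?_
    by_contra t'
    push Not at t'
    exact t (ne0 _ _ (by rw [← hg ⟨(u, v), huv⟩, I0 d u v huv t'.1, I0 d' u v huv t'.2, add_zero]))

/-- `v` is a corner of the face `a` -/
def ColF.On {Φ : Type} (c : ColF V Φ) (a : Φ) (v : V) : Prop :=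
  a = c.fx v ∨ a = c.fy v ∨ a = c.fm v

/-- geometry of a 3-edge-coloured 3-connected plane cubic graph -/
structure ColF.Geo {Φ : Type} (c : ColF V Φ) : Prop where
  m_ne : ∀ v, c.m v ≠ v
  xy : ∀ v, c.x v ≠ c.y v
  xm : ∀ v, c.x v ≠ c.m v
  ym : ∀ v, c.y v ≠ c.m v
  surj : ∀ a, ∃ v, c.On a v
  nxy : ∀ v, c.fx v ≠ c.fy v
  nxm : ∀ v, c.fx v ≠ c.fm v
  nym : ∀ v, c.fy v ≠ c.fm v
  sxx : ∀ u v, s(c.fy u, c.fm u) = s(c.fy v, c.fm v) → v = u ∨ v = c.x u
  syy : ∀ u v, s(c.fx u, c.fm u) = s(c.fx v, c.fm v) → v = u ∨ v = c.y u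
  smm : ∀ u v, s(c.fx u, c.fy u) = s(c.fx v, c.fy v) → v = u ∨ v = c.m u
  sxy : ∀ u v, s(c.fy u, c.fm u) ≠ s(c.fx v, c.fm v)
  sxm : ∀ u v, s(c.fy u, c.fm u) ≠ s(c.fx v, c.fy v)
  sym : ∀ u v, s(c.fx u, c.fm u) ≠ s(c.fx v, c.fy v)
  fc : ∀ (a : Φ) (P : V → Prop), (∀ v, P v → (a = c.fy v ∨ a = c.fm v → P (c.x v)) ∧
    (a = c.fx v ∨ a = c.fm v → P (c.y v)) ∧ (a = c.fx v ∨ a = c.fy v → P (c.m v))) →
    ∀ u v, c.On a u → c.On a v → P u → P v

/-- the flip diagonal is not a loop -/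
lemma ColF.Geo.flip_ne {Φ : Type} {c : ColF V Φ} (h : c.Geo) (v : V) : c.fm (c.m v) ≠ c.fm v := by
  intro k
  rcases c.m_cases v with t | t
  · rcases h.syy v (c.m v) (by rw [t.1, k]) with e | e
    exacts [h.m_ne v e, h.ym v e.symm]
  · exact h.sxy (c.m v) v (by rw [t.2, k])

/-- if `x, y` form one cycle, the hard diagonals connect each side -/
lemma ColF.side_conn {Φ : Type} (c : ColF V Φ) (surj : ∀ a, ∃ v, c.On a v)
    (ham : ∀ P : V → Prop, (∀ v, P v → P (c.x v) ∧ P (c.y v)) → ∀ u v, P u → P v)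
    {σ : Φ → Bool} (hσ : ∀ v, σ (c.fy v) = σ (c.fx v) ∧ σ (c.fm v) = !σ (c.fx v))
    (P : Φ → Prop) (hP : ∀ v, P (c.fx v) ↔ P (c.fy v)) (a b : Φ) (hab : σ a = σ b) (ha : P a) :
    P b := by
  let Q : V → Prop := fun v => ∀ f, c.On f v → σ f = σ a → P f
  have one : ∀ v f, c.On f v → σ f = σ a → P f → Q v := by
    rintro v f hf e k f' hf' e'
    have s1 := (hσ v).1
    have s2 := (hσ v).2
    have := hP v
    rcases hf with rfl | rfl | rfl <;> rcases hf' with rfl | rfl | rfl <;>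
      first | exact k | tauto | (exfalso; cases h : σ (c.fx v) <;> simp_all)
  have cl : ∀ v, Q v → Q (c.x v) ∧ Q (c.y v) := by
    intro v hv
    have s1 := (hσ v).1
    have s2 := (hσ v).2
    constructor
    · have : ∃ f, (f = c.fy v ∨ f = c.fm v) ∧ σ f = σ a := by
        by_cases e : σ (c.fy v) = σ a
        · exact ⟨_, Or.inl rfl, e⟩
        · exact ⟨_, Or.inr rfl, by revert e; rw [s1, s2]; cases σ (c.fx v) <;> cases σ a <;> simp⟩
      obtain ⟨f, f1, f2⟩ := this
      refine one _ f ?_ f2 (hv f (Or.inr f1) f2)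
      rcases Sym2.eq_iff.1 (c.hx v) with t | t <;> simp only [ColF.On, t.1, t.2] <;> tauto
    · have : ∃ f, (f = c.fx v ∨ f = c.fm v) ∧ σ f = σ a := by
        by_cases e : σ (c.fx v) = σ a
        · exact ⟨_, Or.inl rfl, e⟩
        · exact ⟨_, Or.inr rfl, by revert e; rw [s2]; cases σ (c.fx v) <;> cases σ a <;> simp⟩
      obtain ⟨f, f1, f2⟩ := this
      refine one _ f ?_ f2 (hv f (by unfold ColF.On; tauto) f2)
      rcases Sym2.eq_iff.1 (c.hy v) with t | t <;> simp only [ColF.On, t.1, t.2] <;> tauto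
  obtain ⟨u, hu⟩ := surj a
  obtain ⟨v, hv⟩ := surj b
  exact ham Q cl u v (one u a hu rfl ha) b hv hab.symm

/-- GEOMETRY: a 3-edge-coloured 3-connected plane cubic graph as a `ColF` -/
theorem exists_geo [Fintype V] [DecidableEq V] (hc : ∀ v, (G.neighborSet v).ncard = 3)
    (h3 : ∀ S : Finset V, S.card ≤ 2 → (G.induce ((S : Set V)ᶜ)).Connected)
    {x y m : V → V} (xx : ∀ v, x (x v) = v) (yy : ∀ v, y (y v) = v) (mm : ∀ v, m (m v) = v)
    (xy : ∀ v, x v ≠ y v) (xm : ∀ v, x v ≠ m v) (ym : ∀ v, y v ≠ m v)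
    (hG : ∀ u v, G.Adj u v ↔ v = x u ∨ v = y u ∨ v = m u)
    (σ : Equiv.Perm G.Dart) (h1 : ∀ d, (σ d).fst = d.fst) (h2 : ∀ d, σ d ≠ d)
    (euler : 2 * Nat.card (Face σ) = Fintype.card V + 4) :
    ∃ c : ColF V (Face σ), c.x = x ∧ c.y = y ∧ c.m = m ∧ c.Geo ∧
      ∀ d : G.Dart, {v | c.On ⟦d⟧ v}.ncard = Function.minimalPeriod (facePerm σ) d := by
  classical
  have hconn : G.Connected := by
    have := h3 ∅ (by simp)
    rw [coe_empty, Set.compl_empty] at this
    exact (induceUnivIso G).connected_iff.1 this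
  obtain ⟨c, cx, cy, cm, fx, fy, fm⟩ := exists_col hconn xx yy mm xy xm ym hG σ h1 h2 euler
  obtain ⟨d1, d2⟩ := dual_simple hc h3 hconn σ h1 h2 euler
  have ax : ∀ v, G.Adj v (x v) := fun v => (hG _ _).2 (Or.inl rfl)
  have ay : ∀ v, G.Adj v (y v) := fun v => (hG _ _).2 (Or.inr (Or.inl rfl))
  have am : ∀ v, G.Adj v (m v) := fun v => (hG _ _).2 (Or.inr (Or.inr rfl))
  let dx : V → G.Dart := fun v => ⟨(v, x v), ax v⟩
  let dy : V → G.Dart := fun v => ⟨(v, y v), ay v⟩
  let dm : V → G.Dart := fun v => ⟨(v, m v), am v⟩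
  have fx' : ∀ v, c.fx v = ⟦σ (σ (dx v))⟧ := fun v => fx v _
  have fy' : ∀ v, c.fy v = ⟦σ (σ (dy v))⟧ := fun v => fy v _
  have fm' : ∀ v, c.fm v = ⟦σ (σ (dm v))⟧ := fun v => fm v _
  have three : ∀ v (d : G.Dart), d.fst = v → d = dx v ∨ d = dy v ∨ d = dm v := by
    rintro v ⟨⟨a, b⟩, h⟩ rfl
    rcases (hG _ _).1 h with e | e | e <;> simp only at e <;> subst e <;> simp [dx, dy, dm]
  have nxy : ∀ v, dx v ≠ dy v := fun v k => xy v (congrArg (fun d : G.Dart => d.snd) k)
  have nxm : ∀ v, dx v ≠ dm v := fun v k => xm v (congrArg (fun d : G.Dart => d.snd) k)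
  have nym : ∀ v, dy v ≠ dm v := fun v k => ym v (congrArg (fun d : G.Dart => d.snd) k)
  have rot : ∀ v, (σ (dx v) = dy v ∧ σ (dy v) = dm v ∧ σ (dm v) = dx v) ∨
      (σ (dx v) = dm v ∧ σ (dm v) = dy v ∧ σ (dy v) = dx v) := by
    intro v
    have a1 := three v _ (h1 (dx v))
    have a2 := three v _ (h1 (dy v))
    have a3 := three v _ (h1 (dm v))
    have b1 := h2 (dx v)
    have b2 := h2 (dy v)
    have b3 := h2 (dm v)
    have c1 : σ (dx v) ≠ σ (dy v) := σ.injective.ne (nxy v)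
    have c2 : σ (dx v) ≠ σ (dm v) := σ.injective.ne (nxm v)
    have c3 : σ (dy v) ≠ σ (dm v) := σ.injective.ne (nym v)
    grind
  have sx : ∀ v, s(c.fy v, c.fm v) = s((⟦dx v⟧ : Face σ), (⟦(dx v).symm⟧ : Face σ)) := by
    intro v
    rw [← face_rot, fy', fm']
    rcases rot v with ⟨e1, e2, e3⟩ | ⟨e1, e2, e3⟩ <;> simp only [e1, e2, e3]
    exact Sym2.eq_swap
  have sy : ∀ v, s(c.fx v, c.fm v) = s((⟦dy v⟧ : Face σ), (⟦(dy v).symm⟧ : Face σ)) := by
    intro v
    rw [← face_rot, fx', fm']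
    rcases rot v with ⟨e1, e2, e3⟩ | ⟨e1, e2, e3⟩ <;> simp only [e1, e2, e3]
    exact Sym2.eq_swap
  have sm : ∀ v, s(c.fx v, c.fy v) = s((⟦dm v⟧ : Face σ), (⟦(dm v).symm⟧ : Face σ)) := by
    intro v
    rw [← face_rot, fx', fy']
    rcases rot v with ⟨e1, e2, e3⟩ | ⟨e1, e2, e3⟩ <;> simp only [e1, e2, e3]
    exact Sym2.eq_swap
  have ne : ∀ {a b : Face σ} {d : G.Dart}, s(a, b) = s((⟦d⟧ : Face σ), (⟦d.symm⟧ : Face σ)) →
      a ≠ b := by
    intro a b d k e
    rcases Sym2.eq_iff.1 k with t | t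
    exacts [d1 d (t.1.symm.trans (e.trans t.2)), d1 d (t.2.symm.trans (e.symm.trans t.1))]
  have fs : ∀ {d d' : G.Dart}, d' = d ∨ d' = d.symm →
      (d'.fst = d.fst ∧ d'.snd = d.snd) ∨ (d'.fst = d.snd ∧ d'.snd = d.fst) := by
    rintro d d' (rfl | rfl)
    exacts [Or.inl ⟨rfl, rfl⟩, Or.inr ⟨rfl, rfl⟩]
  let c' : ColF V (Face σ) :=
    { x := c.x, y := c.y, m := c.m, fx := c.fx, fy := c.fy, fm := c.fm, xx := c.xx, yy := c.yy
      mm := c.mm, x_ne := c.x_ne, y_ne := c.y_ne, hx := c.hx, hy := c.hy, hm := c.hm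
      free := fun v k => absurd k (c.m_ne v)
      planar := fun f g a b d _ => c.planar f g a b d
      conn := fun P hP u v hu => by
        refine Closed.reach (H := G) (fun a b hab ha => ?_) (hconn.preconnected u v) hu
        rw [cx, cy, cm] at hP
        rcases (hG _ _).1 hab with rfl | rfl | rfl
        exacts [(hP a ha).1, (hP a ha).2.1, (hP a ha).2.2] }
  have on : ∀ (a : Face σ) v, c'.On a v ↔ ∃ d : G.Dart, d.fst = v ∧ a = ⟦d⟧ := by
    intro a v
    constructor
    · rintro (e | e | e)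
      exacts [⟨_, (h1 _).trans (h1 _), e.trans (fx' v)⟩, ⟨_, (h1 _).trans (h1 _), e.trans (fy' v)⟩,
        ⟨_, (h1 _).trans (h1 _), e.trans (fm' v)⟩]
    · rintro ⟨d, rfl, rfl⟩
      obtain ⟨d', rfl⟩ := (σ * σ).surjective d
      have e : ((σ * σ) d').fst = d'.fst := (h1 _).trans (h1 _)
      rw [e]
      rcases three _ d' rfl with e | e | e
      · left; rw [show c'.fx _ = _ from fx' _, ← e]; rfl
      · right; left; rw [show c'.fy _ = _ from fy' _, ← e]; rfl
      · right; right; rw [show c'.fm _ = _ from fm' _, ← e]; rfl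
  refine ⟨c', cx, cy, cm, ⟨c.m_ne, c.xy, c.xm, c.ym, fun a => ?_, fun v => ne (sm v),
    fun v => ne (sy v), fun v => ne (sx v), fun u v k => ?_, fun u v k => ?_, fun u v k => ?_,
    fun u v k => ?_, fun u v k => ?_, fun u v k => ?_, fun a P hP u v hu hv pu => ?_⟩, fun d => ?_⟩
  · obtain ⟨d, rfl⟩ := Quotient.exists_rep a
    exact ⟨d.fst, (on _ _).2 ⟨d, rfl, rfl⟩⟩
  · exact (fs (d2 _ _ ((sx u).symm.trans (k.trans (sx v))))).imp And.left
      fun t => t.1.trans (congrFun cx u).symm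
  · exact (fs (d2 _ _ ((sy u).symm.trans (k.trans (sy v))))).imp And.left
      fun t => t.1.trans (congrFun cy u).symm
  · exact (fs (d2 _ _ ((sm u).symm.trans (k.trans (sm v))))).imp And.left
      fun t => t.1.trans (congrFun cm u).symm
  · rcases fs (d2 _ _ ((sx u).symm.trans (k.trans (sy v)))) with t | t <;>
      simp only [dx, dy] at t
    · exact xy u (by rw [← t.2, t.1])
    · exact xy v (by rw [t.2, t.1, xx])
  · rcases fs (d2 _ _ ((sx u).symm.trans (k.trans (sm v)))) with t | t <;>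
      simp only [dx, dm] at t
    · exact xm u (by rw [← t.2, t.1])
    · exact xm v (by rw [t.2, t.1, xx])
  · rcases fs (d2 _ _ ((sy u).symm.trans (k.trans (sm v)))) with t | t <;>
      simp only [dy, dm] at t
    · exact ym u (by rw [← t.2, t.1])
    · exact ym v (by rw [t.2, t.1, yy])
  · obtain ⟨d, rfl, rfl⟩ := (on _ _).1 hu
    obtain ⟨d', rfl, e⟩ := (on _ _).1 hv
    obtain ⟨n, rfl⟩ := Equiv.Perm.SameCycle.exists_nat_pow_eq (Quotient.exact e)
    have step : ∀ t : G.Dart, (⟦d⟧ : Face σ) = ⟦t⟧ → P t.fst → P t.snd := by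
      intro t e pt
      obtain ⟨k1, k2, k3⟩ := hP _ pt
      rcases three _ t rfl with q | q | q
      · have : t.snd = c'.x t.fst := (congrArg (fun d : G.Dart => d.snd) q).trans
          (congrFun cx _).symm
        rw [this]
        refine k1 ?_
        rcases Sym2.eq_iff.1 (sx t.fst) with w | w <;> rw [← q, ← e] at w
        exacts [Or.inl w.1.symm, Or.inr w.2.symm]
      · have : t.snd = c'.y t.fst := (congrArg (fun d : G.Dart => d.snd) q).trans
          (congrFun cy _).symm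
        rw [this]
        refine k2 ?_
        rcases Sym2.eq_iff.1 (sy t.fst) with w | w <;> rw [← q, ← e] at w
        exacts [Or.inl w.1.symm, Or.inr w.2.symm]
      · have : t.snd = c'.m t.fst := (congrArg (fun d : G.Dart => d.snd) q).trans
          (congrFun cm _).symm
        rw [this]
        refine k3 ?_
        rcases Sym2.eq_iff.1 (sm t.fst) with w | w <;> rw [← q, ← e] at w
        exacts [Or.inl w.1.symm, Or.inr w.2.symm]
    clear e hv
    induction n with
    | zero => exact pu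
    | succ n ih =>
      rw [pow_succ', Equiv.Perm.mul_apply]
      exact (h1 _).symm ▸ step _ (Quotient.sound ⟨n, by simp⟩) ih
  · have e : {v | c'.On ⟦d⟧ v} = (fun t : G.Dart => t.fst) ''
        MulAction.orbit (Subgroup.zpowers (facePerm σ)) d := by
      ext v
      simp only [Set.mem_ofPred_eq, on, Set.mem_image]
      constructor
      · rintro ⟨t, rfl, e⟩
        obtain ⟨i, rfl⟩ := Quotient.exact e
        exact ⟨_, ⟨⟨_, i, rfl⟩, rfl⟩, rfl⟩
      · rintro ⟨t, ⟨⟨_, i, rfl⟩, rfl⟩, rfl⟩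
        exact ⟨_, rfl, Quotient.sound ⟨i, rfl⟩⟩
    rw [e, Set.InjOn.ncard_image]
    · have := MulAction.minimalPeriod_eq_card (a := facePerm σ) (b := d)
      rw [← Nat.card_eq_fintype_card, Nat.card_coe_set_eq] at this
      exact this.symm
    · have key : ∀ t, t ∈ MulAction.orbit (Subgroup.zpowers (facePerm σ)) d →
          (⟦d⟧ : Face σ) = ⟦t⟧ := by
        rintro _ ⟨⟨_, i, rfl⟩, rfl⟩
        exact Quotient.sound ⟨i, rfl⟩
      intro t ht t' ht' k
      have e := (key t ht).symm.trans (key t' ht')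
      rcases dart_three hc σ h1 h2 t t' k.symm with q | q | q
      · exact q.symm
      · rw [q, face_rot] at e
        exact absurd e (d1 t)
      · rcases dart_three hc σ h1 h2 t' t k with q' | q' | q'
        · exact q'
        · rw [q', face_rot] at e
          exact absurd e.symm (d1 t')
        · rcases dart_three hc σ h1 h2 t (σ t') ((h1 _).trans k.symm) with w | w | w
          · rw [← w, face_rot] at e
            exact absurd e.symm (d1 t')
          · exact (σ.injective w).symm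
          · exact absurd ((σ.injective w).symm.trans q) (h2 _).symm

/-- GEOMETRY, Hamiltonian case -/
theorem exists_geo_ham [Fintype V] [DecidableEq V] (hc : ∀ v, (G.neighborSet v).ncard = 3)
    (h3 : ∀ S : Finset V, S.card ≤ 2 → (G.induce ((S : Set V)ᶜ)).Connected)
    {a : V} {p : G.Walk a a} (hp : p.IsHamiltonianCycle)
    (σ : Equiv.Perm G.Dart) (h1 : ∀ d, (σ d).fst = d.fst) (h2 : ∀ d, σ d ≠ d)
    (euler : 2 * Nat.card (Face σ) = Fintype.card V + 4) :
    ∃ c : ColF V (Face σ), (∀ u v, G.Adj u v ↔ v = c.x u ∨ v = c.y u ∨ v = c.m u) ∧ c.Geo ∧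
      (∀ P : V → Prop, (∀ v, P v → P (c.x v) ∧ P (c.y v)) → ∀ u v, P u → P v) ∧
      ∀ d : G.Dart, {v | c.On ⟦d⟧ v}.ncard = Function.minimalPeriod (facePerm σ) d := by
  obtain ⟨x, y, m, xx, yy, mm, xy, xm, ym, hG, ham⟩ := exists_ham_col hc (by omega) hp
  obtain ⟨c, rfl, rfl, rfl, g, k⟩ := exists_geo hc h3 xx yy mm xy xm ym hG σ h1 h2 euler
  exact ⟨c, hG, g, ham, k⟩

end Pool.Agent.MP_8c1b0d_co
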