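import Pool.Agent.MP_8c1b0d_co.Zig

set_option autoImplicit false
open SimpleGraph Finset Module

namespace Pool.Agent.MP_8c1b0d_co

lemma finrank_cob {D V K : Type} [Fintype V] [Field K] (ι : D → D) (A : D → V) (T : Finset D)
    (cA : ∀ g : V → K, (∀ d ∈ T, g (A d) - g (A (ι d)) = 0) → ∀ u v, g u = g v) :
    Fintype.card V ≤ finrank K (LinearMap.range
      (LinearMap.funLeft K K (fun d : T => A d) - LinearMap.funLeft K K fun d : T => A (ι d))) + 1 := by
  set δ := LinearMap.funLeft K K (fun d : T => A d) - LinearMap.funLeft K K fun d : T => A (ι d)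
  have k3 := LinearMap.finrank_range_add_finrank_ker δ
  rw [finrank_fintype_fun_eq_card] at k3
  rcases isEmpty_or_nonempty V with hV | ⟨⟨v₀⟩⟩
  · simp
  have k1 : finrank K (LinearMap.ker δ) ≤ 1 := by
    let r : LinearMap.ker δ →ₗ[K] K := (LinearMap.proj v₀).comp (LinearMap.ker δ).subtype
    have hr : Function.Injective r := by
      rw [injective_iff_map_eq_zero]
      rintro ⟨g, hg⟩ h0
      ext v
      exact (cA g (fun d hd => congrFun (LinearMap.mem_ker.1 hg) ⟨d, hd⟩) v v₀).trans h0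
    simpa using LinearMap.finrank_le_finrank_of_injective hr
  omega

/-- on the sphere every circulation is a coboundary of a function on the faces -/
theorem exact_of_euler {D V Φ K : Type} [Fintype D] [DecidableEq D] [Fintype V] [Fintype Φ]
    [Field K] {ι : D → D} (ιι : ∀ d, ι (ι d) = d) (ι_ne : ∀ d, ι d ≠ d) (A : D → V) (F : D → Φ)
    (orth : ∀ (g : V → K) (h : Φ → K), ∑ d, g (A d) * (h (F d) - h (F (ι d))) = 0)
    (cA : ∀ g : V → K, (∀ d, g (A (ι d)) = g (A d)) → ∀ u v, g u = g v)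
    (cF : ∀ h : Φ → K, (∀ d, h (F (ι d)) = h (F d)) → ∀ u v, h u = h v)
    (euler : 2 * (Fintype.card V + Fintype.card Φ) = Fintype.card D + 4)
    (a : D → K) (anti : ∀ d, a (ι d) = - a d) (ha : ∀ g : V → K, ∑ d, g (A d) * a d = 0) :
    ∃ h : Φ → K, ∀ d, a d = h (F d) - h (F (ι d)) := by
  obtain ⟨T, hT⟩ := exists_transversal ιι ι_ne
  have hcard := card_transversal ιι hT
  have ext : ∀ {W : Type} (B : D → W) (g : W → K), (∀ d ∈ T, g (B d) - g (B (ι d)) = 0) →
      ∀ d, g (B (ι d)) = g (B d) := by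
    intro W B g hg d
    by_cases hd : d ∈ T
    · exact (sub_eq_zero.1 (hg d hd)).symm
    · have := sub_eq_zero.1 (hg _ ((hT d).2 hd))
      rwa [ιι] at this
  have kA := finrank_cob ι A T fun g hg => cA g (ext A g hg)
  have kF := finrank_cob ι F T fun g hg => cF g (ext F g hg)
  set δA := LinearMap.funLeft K K (fun d : T => A d) - LinearMap.funLeft K K fun d : T => A (ι d)
  set δF := LinearMap.funLeft K K (fun d : T => F d) - LinearMap.funLeft K K fun d : T => F (ι d)
  let B : LinearMap.BilinForm K (T → K) := dotProductBilin K K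
  have hB : B.Nondegenerate := by
    constructor
    · intro u hu
      funext d
      simpa [B] using hu (Pi.single d 1)
    · intro u hu
      funext d
      simpa [B] using hu (Pi.single d 1)
  have mem : ∀ b : D → K, (∀ d, b (ι d) = - b d) → (∀ g : V → K, ∑ d, g (A d) * b d = 0) →
      (fun d : T => b d) ∈ B.orthogonal (LinearMap.range δA) := by
    rintro b hb h0 _ ⟨g, rfl⟩
    have e : ∑ d, g (A d) * b d = ∑ d ∈ T, (g (A d) - g (A (ι d))) * b d := by
      rw [← sum_add_sum_compl T]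
      simp only [sub_mul, sum_sub_distrib]
      rw [sub_eq_add_neg, ← sum_neg_distrib]
      congr 1
      refine sum_bij' (fun v _ => ι v) (fun v _ => ι v) ?_ ?_ ?_ ?_ ?_
      · intro v hv; exact (hT v).2 (mem_compl.1 hv)
      · intro v hv; exact mem_compl.2 fun k => (hT v).1 k hv
      · intro v _; exact ιι v
      · intro v _; exact ιι v
      · intro v _; rw [ιι, hb]; ring
    rw [h0, ← sum_coe_sort] at e
    exact e.symm
  have le : LinearMap.range δF ≤ B.orthogonal (LinearMap.range δA) := by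
    rintro _ ⟨h, rfl⟩
    exact mem (fun d => h (F d) - h (F (ι d))) (fun d => by rw [ιι]; ring) fun g => orth g h
  have k := LinearMap.BilinForm.finrank_orthogonal hB (LinearMap.range δA)
  rw [finrank_fintype_fun_eq_card, Fintype.card_coe] at k
  have k' := Submodule.finrank_le (LinearMap.range δA)
  rw [finrank_fintype_fun_eq_card, Fintype.card_coe] at k'
  have eq := Submodule.eq_of_le_of_finrank_le le (by omega)
  have := mem a anti ha
  rw [← eq] at this
  obtain ⟨h, hh⟩ := this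
  have hh' : ∀ d ∈ T, a d = h (F d) - h (F (ι d)) := fun d hd => (congrFun hh ⟨d, hd⟩).symm
  refine ⟨h, fun d => ?_⟩
  by_cases hd : d ∈ T
  · exact hh' d hd
  · have := hh' _ ((hT d).2 hd)
    rw [anti, ιι] at this
    linear_combination -this

lemma exists_pos {D : Type} (ρ : Equiv.Perm D) (h3 : ∀ d, 3 ∣ Function.minimalPeriod ρ d) :
    ∃ pos : D → ZMod 3, ∀ d, pos (ρ d) = pos d + 1 := by
  let S := Equiv.Perm.SameCycle.setoid ρ
  have hb : ∀ d, ∃ i : ℤ, (ρ ^ i) (Quotient.out (Quotient.mk S d)) = d :=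
    fun d => Quotient.mk_out (s := S) d
  choose i hi using hb
  refine ⟨fun d => (i d : ZMod 3), fun d => ?_⟩
  have e : Quotient.mk S (ρ d) = Quotient.mk S d :=
    Quotient.sound (Equiv.Perm.sameCycle_apply_left.2 (Equiv.Perm.SameCycle.refl _ _))
  have h1 := hi (ρ d)
  rw [e] at h1
  set b := Quotient.out (Quotient.mk S d)
  have h2 : ρ ^ (i (ρ d) - (i d + 1)) • b = b := by
    rw [Equiv.Perm.smul_def, sub_eq_neg_add, zpow_add, Equiv.Perm.mul_apply, h1, neg_add, zpow_add,
      Equiv.Perm.mul_apply, zpow_neg_one, Equiv.Perm.inv_def, Equiv.symm_apply_apply, zpow_neg,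
      Equiv.Perm.inv_eq_iff_eq, hi]
  have h4 := MulAction.zpow_smul_eq_iff_minimalPeriod_dvd.1 h2
  have h5 : ((3 : ℕ) : ℤ) ∣ i (ρ d) - (i d + 1) :=
    (Int.natCast_dvd_natCast.2 (h3 b)).trans h4
  have h6 := (ZMod.intCast_zmod_eq_zero_iff_dvd _ 3).2 h5
  push_cast at h6
  exact sub_eq_zero.1 h6

variable {V : Type} {G : SimpleGraph V}

lemma dart_three (hc : ∀ v, (G.neighborSet v).ncard = 3) (σ : Equiv.Perm G.Dart)
    (h1 : ∀ d, (σ d).fst = d.fst) (h2 : ∀ d, σ d ≠ d) (d d' : G.Dart) (h : d'.fst = d.fst) :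
    d' = d ∨ d' = σ d ∨ d' = σ (σ d) := by
  obtain ⟨⟨v, w⟩, hw⟩ := d
  obtain ⟨x, y, n1, n2, n3, e⟩ := nbrs3 hc hw
  have hx : G.Adj v x := (e x).2 (by simp)
  have hy : G.Adj v y := (e y).2 (by simp)
  set dw : G.Dart := ⟨(v, w), hw⟩
  let dx : G.Dart := ⟨(v, x), hx⟩
  let dy : G.Dart := ⟨(v, y), hy⟩
  have three : ∀ d : G.Dart, d.fst = v → d = dw ∨ d = dx ∨ d = dy := by
    rintro ⟨⟨a, b⟩, hab⟩ ha
    simp only at ha
    subst ha
    rcases (e _).1 hab with k | k | k <;> simp only at k <;> subst k <;> simp [dx, dy, dw]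
  have m1 : dw ≠ dx := fun k => n1 (congrArg (fun d : G.Dart => d.snd) k)
  have m2 : dw ≠ dy := fun k => n2 (congrArg (fun d : G.Dart => d.snd) k)
  have m3 : dx ≠ dy := fun k => n3 (congrArg (fun d : G.Dart => d.snd) k)
  have a0 := three d' h
  have a1 := three _ (h1 dw)
  have a2 := three _ (h1 dx)
  have a3 := three _ (h1 dy)
  have b1 := h2 dw
  have b2 := h2 dx
  have b3 := h2 dy
  have c1 : σ dw ≠ σ dx := σ.injective.ne m1
  have c2 : σ dw ≠ σ dy := σ.injective.ne m2
  have c3 : σ dx ≠ σ dy := σ.injective.ne m3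
  grind

/-- Heawood colouring of a plane cubic map all of whose face lengths are multiples of three -/
theorem exists_heawood [Fintype V] [DecidableEq V] (hc : ∀ v, (G.neighborSet v).ncard = 3)
    (hconn : G.Connected) (σ : Equiv.Perm G.Dart) (h1 : ∀ d, (σ d).fst = d.fst)
    (h2 : ∀ d, σ d ≠ d)
    (euler : 2 * Nat.card (Quotient (Equiv.Perm.SameCycle.setoid (facePerm σ))) =
      Fintype.card V + 4)
    (h3 : ∀ d, 3 ∣ Function.minimalPeriod (facePerm σ) d) :
    ∃ κ : G.Dart → ZMod 3, (∀ d, κ (σ d) = κ d + 1) ∧ ∀ d, κ d.symm = κ d := by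
  classical
  have : Fact (Nat.Prime 3) := ⟨Nat.prime_three⟩
  let Φ := Quotient (Equiv.Perm.SameCycle.setoid (facePerm σ))
  have : Fintype Φ := Fintype.ofFinite _
  let F : G.Dart → Φ := fun d => ⟦d⟧
  have hσ : ∀ d, σ d = facePerm σ d.symm := fun d => by simp [facePerm]
  have hF : ∀ d, F (σ d) = F d.symm := fun d => by
    rw [hσ]
    exact Quotient.sound (Equiv.Perm.sameCycle_apply_left.2 (Equiv.Perm.SameCycle.refl _ _))
  obtain ⟨pos, hpos⟩ := exists_pos _ h3
  have hp : ∀ d, pos d.symm = pos (σ d) - 1 := fun d => by rw [hσ, hpos]; ring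
  have deg : ∀ v, G.degree v = 3 := fun v => by
    rw [← hc v, ← card_neighborFinset_eq_degree, neighborFinset_def, Set.ncard_eq_toFinset_card']
  have three : ∀ g : V → ZMod 3, ∑ d : G.Dart, g d.fst = 0 := fun g => by
    rw [← sum_fiberwise (g := fun d : G.Dart => d.fst)]
    refine sum_eq_zero fun v _ => ?_
    rw [sum_congr rfl (g := fun _ => g v) fun d hd => by rw [(mem_filter.1 hd).2], sum_const,
      G.dart_fst_fiber_card_eq_degree, deg, nsmul_eq_mul]
    exact mul_eq_zero_of_left rfl _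
  have shift : ∀ (g : V → ZMod 3) (k : G.Dart → ZMod 3),
      ∑ d, g d.fst * k (σ d) = ∑ d, g d.fst * k d := fun g k => by
    rw [← Equiv.sum_comp σ fun d => g d.fst * k d]
    simp only [h1]
  obtain ⟨h, hh⟩ := exact_of_euler (K := ZMod 3) (ι := Dart.symm) Dart.symm_symm
    (fun d => d.symm_ne) (fun d => d.fst) F
    (fun g h => by
      simp only [mul_sub, sum_sub_distrib, ← hF]
      rw [shift g fun d => h (F d), sub_self])
    (fun g hg u v => Closed.reach (H := G) (P := fun w => g u = g w)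
      (fun a b hab ha => ha.trans (hg ⟨(a, b), hab⟩).symm) (hconn.preconnected u v) rfl)
    (fun h hh u v => by
      obtain ⟨d, rfl⟩ := Quotient.exists_rep u
      obtain ⟨d', rfl⟩ := Quotient.exists_rep v
      have loc : ∀ e e' : G.Dart, e'.fst = e.fst → h (F e') = h (F e) := fun e e' k => by
        rcases dart_three hc σ h1 h2 e e' k with rfl | rfl | rfl
        · rfl
        · rw [hF, hh]
        · rw [hF, hh, hF, hh]
      exact Closed.reach (H := G) (P := fun w => ∀ e : G.Dart, e.fst = w → h (F d) = h (F e))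
        (fun a b hab ha e he => by
          rw [ha ⟨(a, b), hab⟩ rfl, ← hh]
          exact loc _ _ he.symm) (hconn.preconnected d.fst d'.fst)
        (fun e he => (loc d e he).symm) d' rfl)
    (by
      rw [G.dart_card_eq_sum_degrees, ← Nat.card_eq_fintype_card (α := Φ), mul_add, euler]
      simp only [deg, sum_const, card_univ, smul_eq_mul]
      omega)
    (fun d => pos d - pos d.symm) (fun d => by rw [Dart.symm_symm]; ring)
    (fun g => by
      simp only [hp, mul_sub, sum_sub_distrib, mul_one]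
      rw [shift g pos, three, sub_zero, sub_self])
  have k2 : ∀ d, pos d.symm - h (F d.symm) = pos d - h (F d) := fun d => by
    linear_combination - hh d
  refine ⟨fun d => pos d - h (F d), fun d => ?_, k2⟩
  beta_reduce
  rw [← k2 d, hp, hF]
  ring

theorem good_of_faces [Fintype V] [DecidableEq V] (hc : ∀ v, (G.neighborSet v).ncard = 3)
    (hconn : G.Connected) (σ : Equiv.Perm G.Dart) (h1 : ∀ d, (σ d).fst = d.fst)
    (h2 : ∀ d, σ d ≠ d)
    (euler : 2 * Nat.card (Quotient (Equiv.Perm.SameCycle.setoid (facePerm σ))) =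
      Fintype.card V + 4)
    (h3 : ∀ d, 3 ∣ Function.minimalPeriod (facePerm σ) d) (d₁ d₂ : G.Dart)
    (h6 : ∀ d, Function.minimalPeriod (facePerm σ) d ≤ 6 ∨ (facePerm σ).SameCycle d d₁ ∨
      (facePerm σ).SameCycle d d₂) : Good G Set.univ := by
  classical
  obtain ⟨κ, κσ, κs⟩ := exists_heawood hc hconn σ h1 h2 euler h3
  have ex : ∀ (i : ZMod 3) v, ∃ d : G.Dart, d.fst = v ∧ κ d = i := by
    intro i v
    obtain ⟨w, hw⟩ : (G.neighborSet v).Nonempty := Set.nonempty_of_ncard_ne_zero (by simp [hc])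
    let d : G.Dart := ⟨(v, w), hw⟩
    have : ∀ a b : ZMod 3, a = b ∨ a + 1 = b ∨ a + 1 + 1 = b := by decide
    rcases this (κ d) i with e | e | e
    · exact ⟨d, rfl, e⟩
    · exact ⟨σ d, h1 d, by rw [κσ, e]⟩
    · exact ⟨σ (σ d), by rw [h1, h1], by rw [κσ, κσ, e]⟩
  have uniq : ∀ d d' : G.Dart, d'.fst = d.fst → κ d' = κ d → d' = d := by
    intro d d' k e
    have n1 : ∀ a : ZMod 3, a + 1 ≠ a := by decide
    have n2 : ∀ a : ZMod 3, a + 1 + 1 ≠ a := by decide
    rcases dart_three hc σ h1 h2 d d' k with rfl | rfl | rfl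
    · rfl
    · exact absurd ((κσ d).symm.trans e) (n1 _)
    · rw [κσ, κσ] at e; exact absurd e (n2 _)
  choose dd df dk using ex
  let e : ZMod 3 → V → V := fun i v => (dd i v).snd
  have es : ∀ i v, dd i (e i v) = (dd i v).symm := fun i v =>
    uniq _ _ (df _ _) (by rw [κs, dk, dk])
  have ee : ∀ i v, e i (e i v) = v := fun i v => by
    show (dd i (e i v)).snd = v
    rw [es]; exact df i v
  have ea : ∀ i v (h : G.Adj v (e i v)), (⟨(v, e i v), h⟩ : G.Dart) = dd i v := fun i v h =>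
    Dart.ext _ _ (Prod.ext (df i v).symm rfl)
  have adj : ∀ i v, G.Adj v (e i v) := fun i v => by
    have := (dd i v).adj
    rwa [df] at this
  have en : ∀ i j v, i ≠ j → e i v ≠ e j v := fun i j v hij k => hij (by
    rw [← dk i v, ← dk j v]
    exact congrArg κ (Dart.ext _ _ (Prod.ext ((df i v).trans (df j v).symm) k)))
  have hG : ∀ u v, G.Adj u v ↔ v = e 0 u ∨ v = e 1 u ∨ v = e 2 u := by
    intro u v
    constructor
    · intro h
      have k : v = e (κ ⟨(u, v), h⟩) u :=
        congrArg (fun d : G.Dart => d.snd) (uniq (dd (κ ⟨(u, v), h⟩) u) ⟨(u, v), h⟩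
          (df _ _).symm (dk _ _).symm)
      have : ∀ a : ZMod 3, a = 0 ∨ a = 1 ∨ a = 2 := by decide
      rcases this (κ ⟨(u, v), h⟩) with t | t | t <;> rw [t] at k <;> simp [← k]
    · rintro (rfl | rfl | rfl) <;> exact adj _ _
  have sd : ∀ i v, σ (dd i v) = dd (i + 1) v := fun i v =>
    uniq _ _ (by rw [h1, df, df]) (by rw [κσ, dk, dk])
  obtain ⟨c, cx, cy, cm, fx, fy, fm⟩ := exists_col hconn (ee 0) (ee 1) (ee 2)
    (fun v => en 0 1 v (by decide)) (fun v => en 0 2 v (by decide))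
    (fun v => en 1 2 v (by decide)) hG σ h1 h2 euler
  have hσ : ∀ d, σ d = facePerm σ d.symm := fun d => by simp [facePerm]
  have hF : ∀ d, (⟦σ d⟧ : Quotient (Equiv.Perm.SameCycle.setoid (facePerm σ))) = ⟦d.symm⟧ :=
    fun d => by
      rw [hσ]
      exact Quotient.sound (Equiv.Perm.sameCycle_apply_left.2 (Equiv.Perm.SameCycle.refl _ _))
  have fx' : ∀ v, c.fx v = ⟦dd 2 v⟧ := fun v => by rw [fx v (adj _ _), ea, sd, sd]; rfl
  have fy' : ∀ v, c.fy v = ⟦dd 0 v⟧ := fun v => by rw [fy v (adj _ _), ea, sd, sd]; rfl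
  have fm' : ∀ v, c.fm v = ⟦dd 1 v⟧ := fun v => by rw [fm v (adj _ _), ea, sd, sd]; rfl
  have z : c.Zig := by
    refine ⟨fun v => ?_, fun v => ?_, fun v => ?_, fun P hP u v hu => ?_⟩
    · rw [fy', fm', cx, es, ← hF, sd]; rfl
    · rw [fm', fx', cy, es, ← hF, sd]; rfl
    · rw [fx', fy', cm, es, ← hF, sd]; rfl
    · refine Closed.reach (H := G) (fun a b hab ha => ?_) (hconn.preconnected u v) hu
      rw [cx, cy, cm] at hP
      rcases (hG _ _).1 hab with rfl | rfl | rfl
      exacts [(hP a ha).1, (hP a ha).2.1, (hP a ha).2.2]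
  refine z.good_two (by rw [cx, cy, cm]; exact hG) ⟦d₁⟧ ⟦d₂⟧ fun a n1 n2 u v w hu hv hw => ?_
  let ρ := facePerm σ
  have κρ : ∀ (n : ℕ) d, κ (ρ^[n] d) = κ d + n := by
    intro n d
    induction n with
    | zero => simp
    | succ n ih =>
      rw [Function.iterate_succ_apply', ← Dart.symm_symm (ρ^[n] d), ← hσ, κσ, κs, ih]
      push_cast; ring
  have hper : Function.minimalPeriod ρ (dd 2 u) ≤ 6 := by
    rcases h6 (dd 2 u) with k | k | k
    · exact k
    · exact absurd (hu.symm.trans ((fx' u).trans (Quotient.sound k))) n1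
    · exact absurd (hu.symm.trans ((fx' u).trans (Quotient.sound k))) n2
  have two : ∀ t, c.fx t = a → dd 2 t = dd 2 u ∨ dd 2 t = ρ^[3] (dd 2 u) := by
    intro t ht
    have k : ρ.SameCycle (dd 2 u) (dd 2 t) :=
      Quotient.exact ((fx' u).symm.trans (hu.trans (ht.symm.trans (fx' t))))
    obtain ⟨n, hn⟩ := k.exists_nat_pow_eq
    rw [← Equiv.Perm.iterate_eq_pow, ← Function.iterate_mod_minimalPeriod_eq] at hn
    have hpos : 0 < Function.minimalPeriod ρ (dd 2 u) :=
      Function.minimalPeriod_pos_of_mem_periodicPts (ρ.injective.mem_periodicPts _)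
    have hlt := Nat.mod_lt n hpos
    generalize n % Function.minimalPeriod ρ (dd 2 u) = j at hn hlt
    have k3 := κρ j (dd 2 u)
    rw [hn, dk, dk] at k3
    have : 3 ∣ j := (ZMod.natCast_eq_zero_iff j 3).1 (by linear_combination -k3)
    obtain rfl | rfl : j = 0 ∨ j = 3 := by omega
    · exact Or.inl hn.symm
    · exact Or.inr hn.symm
  have inj : ∀ s t, dd 2 s = dd 2 t → s = t := fun s t k => by rw [← df 2 s, k, df]
  rcases two v hv with p | p
  · exact Or.inl (inj _ _ p).symm
  rcases two w hw with q | q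
  · exact Or.inr (Or.inl (inj _ _ q).symm)
  · exact Or.inr (Or.inr (inj _ _ (p.trans q.symm)))

end Pool.Agent.MP_8c1b0d_co
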