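import Pool.Agent.MP_8c1b0d_co.SA

set_option autoImplicit false
set_option linter.unusedSectionVars false
open Finset Module

namespace Pool.Agent.MP_8c1b0d_co
variable {K E : Type} [Field K] [CharP K 2] [Fintype E] [DecidableEq E]

/-- `FractionRing (MvPolynomial E (ZMod 2))`; the involution `aeval (fun e => X e + if u = e then 1
else 0)` gives a ring automorphism, extended by `IsFractionRing.ringEquivOfRingEquiv`. -/
theorem exists_field (E : Type) [DecidableEq E] : ∃ (K : Type) (_ : Field K) (_ : CharP K 2)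
    (z : E → K) (σ : E → K ≃+* K), ∀ u e, σ u (z e) = z e + if u = e then 1 else 0 := by
  let f : E → (MvPolynomial E (ZMod 2) →ₐ[ZMod 2] MvPolynomial E (ZMod 2)) := fun u =>
    MvPolynomial.aeval (fun e => MvPolynomial.X e + if u = e then 1 else 0)
  have hX : ∀ u e, f u (MvPolynomial.X e) = MvPolynomial.X e + if u = e then 1 else 0 := by
    intro u e; simp only [f, MvPolynomial.aeval_X]
  have hf : ∀ u, (f u).comp (f u) = AlgHom.id _ _ := by
    intro u
    apply MvPolynomial.algHom_ext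
    intro e
    rw [AlgHom.comp_apply, hX, map_add, hX, AlgHom.id_apply]
    by_cases h : u = e
    · simp only [if_pos h, map_one, add_assoc, CharTwo.add_self_eq_zero, add_zero]
    · simp only [if_neg h, map_zero, add_zero]
  let g : E → (MvPolynomial E (ZMod 2) ≃+* MvPolynomial E (ZMod 2)) := fun u =>
    (AlgEquiv.ofAlgHom (f u) (f u) (hf u) (hf u)).toRingEquiv
  have hg : ∀ u p, g u p = f u p := fun _ _ => rfl
  have hc : CharP (FractionRing (MvPolynomial E (ZMod 2))) 2 :=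
    charP_of_injective_algebraMap (IsFractionRing.injective (MvPolynomial E (ZMod 2)) _) 2
  refine ⟨FractionRing (MvPolynomial E (ZMod 2)), inferInstance, hc,
    fun e => algebraMap (MvPolynomial E (ZMod 2)) _ (MvPolynomial.X e),
    fun u => IsFractionRing.ringEquivOfRingEquiv (g u), ?_⟩
  intro u e
  rw [IsFractionRing.ringEquivOfRingEquiv_algebraMap, hg, hX, map_add]
  by_cases h : u = e
  · simp only [if_pos h, map_one]
  · simp only [if_neg h, map_zero]

lemma m1_det {n : Type} [Fintype n] [DecidableEq n] (M : Matrix n n K)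
    (hs : ∀ i j, M i j = M j i) (hd : ∀ i, M i i = 0) (hn : ¬ 2 ∣ Fintype.card n) :
    M.det = 0 := by
  rw [Matrix.det_apply]
  refine Finset.sum_involution (fun σ _ => σ⁻¹) ?_ ?_ (fun _ _ => mem_univ _)
    (fun σ _ => inv_inv σ)
  · intro σ _
    have h1 : ∏ i, M (σ⁻¹ i) i = ∏ i, M (σ i) i := by
      rw [← Equiv.prod_comp σ (fun i => M (σ⁻¹ i) i)]
      refine Finset.prod_congr rfl fun i _ => ?_
      rw [hs]; simp
    rw [Equiv.Perm.sign_inv, h1]
    exact CharTwo.add_self_eq_zero _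
  · intro σ _ hne heq
    apply hne
    have h2 : σ ^ 2 ^ 1 = 1 := by
      rw [pow_one, sq]
      nth_rewrite 1 [← heq]
      exact inv_mul_cancel σ
    have : Fact (Nat.Prime 2) := ⟨Nat.prime_two⟩
    obtain ⟨a, ha⟩ := Equiv.Perm.exists_fixed_point_of_prime hn h2
    have : ∏ i, M (σ i) i = 0 := Finset.prod_eq_zero (mem_univ a) (by rw [ha]; exact hd a)
    rw [this, smul_zero]

/-- An alternating form has even rank. Take a complement `D` of the kernel with a basis; the Gram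
matrix is symmetric (characteristic two) with zero diagonal and invertible. If its size were odd,
pair `σ` with `σ⁻¹` in `Matrix.det_apply` (`Finset.sum_involution`): an involution of a set of odd size
has a fixed point, so its term vanishes; hence the determinant is 0. -/
lemma alt_even {W : Type} [AddCommGroup W] [Module K W] [FiniteDimensional K W]
    (B : LinearMap.BilinForm K W) (h : ∀ x, B x x = 0) :
    Even (finrank K W + finrank K (LinearMap.ker B)) := by
  have hsym : ∀ x y, B x y = B y x := by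
    intro x y
    have h1 := h (x + y)
    simp only [map_add, LinearMap.add_apply, h x, h y, zero_add, add_zero] at h1
    have two : (2 : K) = 0 := CharTwo.two_eq_zero
    linear_combination h1 - B y x * two
  obtain ⟨D, hD⟩ := Submodule.exists_isCompl (LinearMap.ker B)
  have hdim := Submodule.finrank_add_eq_of_isCompl hD
  have hev : 2 ∣ finrank K D := by
    by_contra hn
    let b := Module.finBasis K D
    have hdet := m1_det (Matrix.of fun i j => B (b i) (b j)) (fun i j => hsym _ _)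
      (fun i => h _) (by simpa using hn)
    obtain ⟨v, hv, hmv⟩ := Matrix.exists_mulVec_eq_zero_iff.2 hdet
    let x : D := ∑ j, v j • b j
    have hx : ∀ i, B (b i) x = 0 := by
      intro i
      have := congrFun hmv i
      simp only [Matrix.mulVec, dotProduct, Matrix.of_apply, Pi.zero_apply] at this
      simp only [x, Submodule.coe_sum, Submodule.coe_smul, map_sum, map_smul, smul_eq_mul]
      rw [← this]
      exact Finset.sum_congr rfl fun j _ => mul_comm _ _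
    have hxD : ∀ d : D, B d x = 0 := by
      intro d
      rw [← b.sum_repr d]
      simp only [Submodule.coe_sum, Submodule.coe_smul, map_sum, map_smul, LinearMap.sum_apply,
        LinearMap.smul_apply, hx, smul_zero, Finset.sum_const_zero]
    have hk : (x : W) ∈ LinearMap.ker B := by
      rw [LinearMap.mem_ker]
      ext y
      have hy : y ∈ LinearMap.ker B ⊔ D := by rw [hD.sup_eq_top]; trivial
      obtain ⟨k, hk, d, hd, rfl⟩ := Submodule.mem_sup.1 hy
      rw [LinearMap.mem_ker] at hk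
      rw [hsym, map_add, LinearMap.add_apply, hk, hxD ⟨d, hd⟩]
      simp
    have hx0 : x = 0 := by
      have := (Submodule.disjoint_def.1 hD.disjoint) _ hk x.2
      exact Subtype.ext this
    apply hv
    funext j
    exact Fintype.linearIndependent_iff.1 b.linearIndependent v hx0 j
  obtain ⟨m, hm⟩ := hev
  exact ⟨finrank K (LinearMap.ker B) + m, by omega⟩

lemma m1_fst (z : E → K) (G1 G2 : Finset E) (x : V1 K E) (e : E) :
    (Aop z G1 G2 x).1 e = z e * x.1 e + if e ∈ G2 then x.2 e else 0 := rfl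

lemma m1_snd (z : E → K) (G1 G2 : Finset E) (x : V1 K E) (e : E) :
    (Aop z G1 G2 x).2 e = (z e + 1) * x.2 e + if e ∈ G1 then x.1 e else 0 := rfl

lemma m1_pr1 (A : Finset E) (x : V1 K E) (e : E) :
    (pr A x).1 e = if e ∈ A then x.1 e else 0 := rfl

lemma m1_pr2 (A : Finset E) (x : V1 K E) (e : E) :
    (pr A x).2 e = if e ∈ A then x.2 e else 0 := rfl

lemma m1_ac1 (θ : RingAut K) (x : V1 K E) (e : E) : (ac θ x).1 e = θ (x.1 e) := rfl

lemma m1_ac2 (θ : RingAut K) (x : V1 K E) (e : E) : (ac θ x).2 e = θ (x.2 e) := rfl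

lemma Aop_adj (z : E → K) (G1 G2 : Finset E) (x y : V1 K E) :
    om (Aop z G1 G2 x) y + om x (Aop z G1 G2 y) + om x y = 0 := by
  have two : (2 : K) = 0 := CharTwo.two_eq_zero
  simp only [om_apply, bb_apply, m1_fst, m1_snd, ← Finset.sum_add_distrib]
  refine Finset.sum_eq_zero fun e _ => ?_
  by_cases h1 : e ∈ G1 <;> by_cases h2 : e ∈ G2 <;> simp only [h1, h2, if_true, if_false]
  · linear_combination ((z e + 1) * (x.1 e * y.2 e + y.1 e * x.2 e) + x.1 e * y.1 e
      + x.2 e * y.2 e) * two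
  · linear_combination ((z e + 1) * (x.1 e * y.2 e + y.1 e * x.2 e) + x.1 e * y.1 e) * two
  · linear_combination ((z e + 1) * (x.1 e * y.2 e + y.1 e * x.2 e) + x.2 e * y.2 e) * two
  · linear_combination ((z e + 1) * (x.1 e * y.2 e + y.1 e * x.2 e)) * two

lemma Aop_pr (z : E → K) (G1 G2 : Finset E) (A : Finset E) (x : V1 K E) :
    Aop z G1 G2 (pr A x) = pr A (Aop z G1 G2 x) := by
  ext e
  · simp only [m1_fst, m1_pr1, m1_pr2]
    by_cases h : e ∈ A <;> simp [h]
  · simp only [m1_snd, m1_pr1, m1_pr2]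
    by_cases h : e ∈ A <;> simp [h]

/-- use `sum_pow_char` / `add_pow_char` -/
lemma Aop_self (z : E → K) (G1 G2 : Finset E) (x : V1 K E) :
    om (Aop z G1 G2 x) x = bb x x + (∑ e ∈ G1, x.1 e + ∑ e ∈ G2, x.2 e) ^ 2 := by
  have two : (2 : K) = 0 := CharTwo.two_eq_zero
  have : Fact (Nat.Prime 2) := ⟨Nat.prime_two⟩
  have e1 : ∀ (G : Finset E) (P : E → K),
      ∑ e ∈ G, P e ^ 2 = ∑ e, if e ∈ G then P e ^ 2 else 0 := by
    intro G P
    rw [Finset.sum_ite_mem, Finset.univ_inter]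
  rw [add_pow_char, sum_pow_char, sum_pow_char, e1, e1]
  simp only [om_apply, bb_apply, m1_fst, m1_snd, ← Finset.sum_add_distrib]
  refine Finset.sum_congr rfl fun e _ => ?_
  by_cases h1 : e ∈ G1 <;> by_cases h2 : e ∈ G2 <;> simp only [h1, h2, if_true, if_false] <;>
    linear_combination (z e * x.1 e * x.2 e) * two

/-- an automorphism moving `z e` to `z e + 1` wherever `x` is nonzero -/
lemma m1_shift (z : E → K) (G1 G2 : Finset E) (θ : RingAut K) (x : V1 K E)
    (h : ∀ e, θ (z e) = z e + 1 ∨ (x.1 e = 0 ∧ x.2 e = 0)) :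
    ac θ (Aop z G1 G2 x) + ac θ x = Aop z G1 G2 (ac θ x) := by
  have two : (2 : K) = 0 := CharTwo.two_eq_zero
  ext e
  · simp only [Prod.fst_add, Pi.add_apply, m1_fst, m1_ac1, m1_ac2, map_add, map_mul]
    rcases h e with h | ⟨h1, h2⟩
    · rw [h]
      by_cases h2 : e ∈ G2 <;> simp only [h2, if_true, if_false, map_zero] <;>
        linear_combination θ (x.1 e) * two
    · simp [h1, h2]
  · simp only [Prod.snd_add, Pi.add_apply, m1_snd, m1_ac1, m1_ac2, map_add, map_mul, map_one]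
    rcases h e with h | ⟨h1, h2⟩
    · rw [h]
      by_cases h2 : e ∈ G1 <;> simp only [h2, if_true, if_false, map_zero] <;>
        linear_combination θ (x.2 e) * two
    · simp [h1, h2]

lemma m1_list (z : E → K) (σ : E → RingAut K)
    (hσ : ∀ u e, σ u (z e) = z e + if u = e then 1 else 0) (e : E) (l : List E) :
    (l.map σ).prod (z e) = z e + (l.count e : K) := by
  induction l with
  | nil => simp
  | cons u l ih =>
    rw [List.map_cons, List.prod_cons]
    change σ u ((l.map σ).prod (z e)) = _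
    rw [ih, map_add, map_natCast, hσ, List.count_cons]
    by_cases h : u = e
    · simp only [h, if_true, beq_self_eq_true]; push_cast; ring
    · simp [h]

lemma m1_fib (v : E) : fib (id : E → E) v = {v} := by
  ext e; simp [fib]

/-- Every quad is a site: `site = id`, `G v = zpowers (σ v)`, `Γ` the graph of `Aop`.
`shift`: the product of all `σ u` along `univ.toList` sends `z e` to `z e + 1`.
`line`: for `θ = σ v` one has `Ph y (ac2 θ w) = om y.1 (ac θ w.1)` (`Aop_adj`), and two vectors of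
the plane of `v` orthogonal to the same nonzero vector are proportional. -/
theorem exists_sys (z : E → K) (σ : E → K ≃+* K)
    (hσ : ∀ u e, σ u (z e) = z e + if u = e then 1 else 0) (G1 G2 : Finset E) :
    ∃ s : Sys K E E, s.Γ = LinearMap.graph (Aop z G1 G2) := by
  let σ' : E → RingAut K := σ
  have hσ' : ∀ u e, σ' u (z e) = z e + if u = e then 1 else 0 := hσ
  have hfix : ∀ v, ∀ θ ∈ Subgroup.zpowers (σ' v), ∀ e, e ≠ v → θ (z e) = z e := by
    intro v θ hθ e he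
    have hle : Subgroup.zpowers (σ' v) ≤ MulAction.stabilizer (RingAut K) (z e) := by
      rw [Subgroup.zpowers_le]
      change σ' v (z e) = z e
      rw [hσ', if_neg (Ne.symm he), add_zero]
    exact hle hθ
  refine ⟨⟨id, fun v => Subgroup.zpowers (σ' v), LinearMap.graph (Aop z G1 G2), ?_, ?_, ?_, ?_,
    ?_, ?_⟩, rfl⟩
  · intro x hx y hy
    rw [LinearMap.mem_graph_iff] at hx hy
    rw [Ph_apply, hx, hy]
    exact Aop_adj z G1 G2 _ _
  · rw [LinearMap.graph_eq_range_prod, LinearMap.finrank_range_of_inj]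
    · simp [two_mul]
    · intro a b hab
      exact congrArg Prod.fst hab
  · intro v x hx
    rw [LinearMap.mem_graph_iff] at hx ⊢
    rw [pr2_fst, pr2_snd, hx, Aop_pr]
  · intro v θ hθ x hx
    rw [LinearMap.mem_graph_iff] at hx ⊢
    rw [pr2_fst, pr2_snd, m1_fib]
    change pr {v}ᶜ (ac θ x.2) = Aop z G1 G2 (pr {v}ᶜ (ac θ x.1))
    rw [hx, Aop_pr]
    ext e
    · simp only [m1_pr1, m1_fst, m1_ac1, m1_ac2]
      by_cases h : e = v
      · simp [h]
      · have hm : e ∈ ({v}ᶜ : Finset E) := by simpa using h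
        simp only [hm, if_true, map_add, map_mul, hfix v θ hθ e h]
        by_cases h2 : e ∈ G2 <;> simp [h2]
    · simp only [m1_pr2, m1_snd, m1_ac1, m1_ac2]
      by_cases h : e = v
      · simp [h]
      · have hm : e ∈ ({v}ᶜ : Finset E) := by simpa using h
        simp only [hm, if_true, map_add, map_mul, map_one, hfix v θ hθ e h]
        by_cases h2 : e ∈ G1 <;> simp [h2]
  · refine ⟨((univ : Finset E).toList.map σ').prod, ?_, ?_⟩
    · refine Subgroup.list_prod_mem _ ?_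
      intro θ hθ
      obtain ⟨u, -, rfl⟩ := List.mem_map.1 hθ
      exact (le_iSup (fun v => Subgroup.zpowers (σ' v)) u) (Subgroup.mem_zpowers _)
    · intro x hx
      rw [LinearMap.mem_graph_iff] at hx ⊢
      dsimp only
      rw [hx]
      refine m1_shift z G1 G2 _ _ fun e => Or.inl ?_
      rw [m1_list z σ' hσ', List.count_eq_one_of_mem (Finset.nodup_toList _) (by simp)]
      simp
  · intro v w hw y hy hpw hpy hw0 h1 h2
    rw [LinearMap.mem_graph_iff] at hw hy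
    rw [m1_fib] at hpw hpy
    have hpw1 : pr {v} w.1 = w.1 := congrArg Prod.fst hpw
    have hpy1 : pr {v} y.1 = y.1 := congrArg Prod.fst hpy
    have hw1 : w.1 ≠ 0 := by
      intro h0
      apply hw0
      ext1
      · exact h0
      · rw [hw, h0, map_zero]; rfl
    set u : V1 K E := ac (σ' v) w.1 with hu
    have hu0 : u ≠ 0 := by
      intro h0
      apply hw1
      rw [← ac_inv_ac (σ' v) w.1, ← hu, h0, ac_zero]
    have hpu : pr {v} u = u := by rw [hu, ← ac_pr, hpw1]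
    have hsh : ac (σ' v) (Aop z G1 G2 w.1) + u = Aop z G1 G2 u := by
      refine m1_shift z G1 G2 _ _ fun e => ?_
      by_cases h : e = v
      · left; rw [hσ', if_pos h.symm]
      · right
        have hm : e ∉ ({v} : Finset E) := by simpa using h
        constructor
        · rw [← hpw1, m1_pr1, if_neg hm]
        · rw [← hpw1, m1_pr2, if_neg hm]
    have key : ∀ t : V2 K E, t.2 = Aop z G1 G2 t.1 → pr {v} t.1 = t.1 →
        Ph t (ac2 (σ' v) w) = 0 → ∃ c : K, c • u = t.1 := by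
      intro t ht hpt h0
      have h3 : om u t.1 = 0 := by
        have h4 := Aop_adj z G1 G2 t.1 u
        rw [← hsh, map_add] at h4
        rw [Ph_apply] at h0
        change om t.2 u + om t.1 (ac (σ' v) w.2) + om t.1 u = 0 at h0
        rw [ht, hw] at h0
        rw [om_symm]
        linear_combination h4 - h0
      refine Submodule.mem_span_singleton.1 (mem_of_orth (A := {v}) ?_ ?_ ?_ hpt ?_)
      · intro x hx
        obtain ⟨c, rfl⟩ := Submodule.mem_span_singleton.1 hx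
        rw [map_smul, hpu]
      · intro x hx x' hx'
        obtain ⟨c, rfl⟩ := Submodule.mem_span_singleton.1 hx
        obtain ⟨c', rfl⟩ := Submodule.mem_span_singleton.1 hx'
        simp [om_self]
      · rw [finrank_span_singleton hu0, Finset.card_singleton]
      · intro x hx
        obtain ⟨c, rfl⟩ := Submodule.mem_span_singleton.1 hx
        simp [h3]
    obtain ⟨a, ha⟩ := key w hw hpw1 (h1 _ (Subgroup.mem_zpowers _))
    obtain ⟨b, hb⟩ := key y hy hpy1 (h2 _ (Subgroup.mem_zpowers _))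
    have ha0 : a ≠ 0 := by
      rintro rfl
      exact hw1 (by rw [← ha, zero_smul])
    have hyw : y.1 = (b / a) • w.1 := by
      rw [← ha, ← hb, smul_smul, div_mul_cancel₀ _ ha0]
    refine ⟨b / a, ?_⟩
    ext1
    · exact hyw
    · rw [hy, hyw, map_smul, ← hw]; rfl

/-- `alt_even` for `(x, y) ↦ om (Aop x) y` on `U`; its kernel is `{x ∈ U | Aop x ∈ U}`
(`mem_of_orth`, `Aop_pr`), which is isomorphic to the intersection in `h1`. -/
lemma odd_piece (z : E → K) (G1 G2 : Finset E) {π : Finset E} {U : Submodule K (V1 K E)}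
    (hs : ∀ x ∈ U, pr π x = x) (hi : ∀ x ∈ U, ∀ y ∈ U, om x y = 0) (hd : finrank K U = #π)
    (h1 : finrank K (LinearMap.graph (Aop z G1 G2) ⊓ U.prod U : Submodule K (V2 K E)) = 1)
    (ha : ∀ x ∈ U, om (Aop z G1 G2 x) x = 0) : Odd #π := by
  let B : LinearMap.BilinForm K U :=
    LinearMap.compl₁₂ (om : LinearMap.BilinForm K (V1 K E)) (Aop z G1 G2 ∘ₗ U.subtype) U.subtype
  have hB : ∀ x y : U, B x y = om (Aop z G1 G2 x) y := fun _ _ => rfl
  have hev := alt_even B (fun x => by rw [hB]; exact ha _ x.2)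
  let f : U →ₗ[K] V2 K E := LinearMap.prod U.subtype (Aop z G1 G2 ∘ₗ U.subtype)
  have hf : Function.Injective f := fun a b hab => Subtype.ext (congrArg Prod.fst hab)
  have hmap : (LinearMap.ker B).map f = LinearMap.graph (Aop z G1 G2) ⊓ U.prod U := by
    ext t
    rw [Submodule.mem_map, Submodule.mem_inf, LinearMap.mem_graph_iff, Submodule.mem_prod]
    constructor
    · rintro ⟨x, hx, rfl⟩
      refine ⟨rfl, x.2, ?_⟩
      change Aop z G1 G2 x ∈ U
      refine mem_of_orth hs hi hd ?_ ?_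
      · rw [← Aop_pr, hs _ x.2]
      · intro y hy
        rw [om_symm, ← hB x ⟨y, hy⟩, LinearMap.mem_ker.1 hx, LinearMap.zero_apply]
    · rintro ⟨h2, h3, h4⟩
      refine ⟨⟨t.1, h3⟩, ?_, ?_⟩
      · rw [LinearMap.mem_ker]
        ext y
        rw [hB, LinearMap.zero_apply]
        change om (Aop z G1 G2 t.1) (y : V1 K E) = 0
        rw [← h2]
        exact hi _ h4 _ y.2
      · ext1
        · rfl
        · exact h2.symm
  have hk : finrank K (LinearMap.ker B) = 1 := by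
    rw [← h1, ← hmap]
    exact (Submodule.equivMapOfInjective f hf _).finrank_eq
  rw [hd, hk] at hev
  exact Nat.not_even_iff_odd.1 (Nat.even_add_one.1 hev)

end Pool.Agent.MP_8c1b0d_co

namespace Pool.Agent.MP_8c1b0d_co
variable {K E : Type} [Field K] [CharP K 2] [Fintype E] [DecidableEq E]

lemma m2_rn {V W : Type} [AddCommGroup V] [Module K V] [AddCommGroup W] [Module K W]
    [FiniteDimensional K V] (f : V →ₗ[K] W) (p : Submodule K V) :
    finrank K (p.map f) + finrank K (p ⊓ LinearMap.ker f : Submodule K V) = finrank K p := by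
  have h := LinearMap.finrank_range_add_finrank_ker (f.domRestrict p)
  rw [LinearMap.range_domRestrict, LinearMap.ker_domRestrict,
    ← Submodule.finrank_map_subtype_eq, Submodule.map_comap_subtype] at h
  exact h

lemma m2_sup {V ι : Type} [AddCommGroup V] [Module K V] [FiniteDimensional K V] [DecidableEq ι]
    (𝒜 : Finset ι) (U : ι → Submodule K V) :
    finrank K (𝒜.sup U : Submodule K V) ≤ ∑ π ∈ 𝒜, finrank K (U π) := by
  induction 𝒜 using Finset.induction_on with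
  | empty => simp
  | insert a s ha ih =>
    rw [sup_insert, sum_insert ha]
    have := Submodule.finrank_add_le_finrank_add_finrank (U a) (s.sup U)
    omega

/-- the dot product -/
def m2_dp : LinearMap.BilinForm K (E → K) :=
  LinearMap.mk₂ K (fun x y => ∑ e, x e * y e)
    (fun a b c => by simp [add_mul, sum_add_distrib])
    (fun t a b => by simp [mul_sum, mul_assoc])
    (fun a b c => by simp [mul_add, sum_add_distrib])
    (fun t a b => by simp [mul_sum, mul_left_comm])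

lemma m2_dp_apply (x y : E → K) : m2_dp x y = ∑ e, x e * y e := rfl

lemma m2_dp_symm (x y : E → K) : m2_dp x y = m2_dp y x := by
  simp only [m2_dp_apply, mul_comm]

lemma m2_dp_refl : (m2_dp : LinearMap.BilinForm K (E → K)).IsRefl := fun x y h => by
  rw [m2_dp_symm]; exact h

lemma m2_dp_nondeg : (m2_dp : LinearMap.BilinForm K (E → K)).Nondegenerate := by
  have h : ∀ x : E → K, (∀ y, m2_dp x y = 0) → x = 0 := by
    intro x hx
    ext e
    have := hx (Pi.single e 1)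
    simpa [m2_dp_apply, Pi.single_apply] using this
  exact ⟨h, fun x hx => h x fun y => by rw [m2_dp_symm]; exact hx y⟩

lemma m2_orth (W : Submodule K (E → K)) :
    finrank K W + finrank K (m2_dp.orthogonal W) = Fintype.card E := by
  have h1 := LinearMap.BilinForm.finrank_orthogonal (m2_dp_nondeg (K := K) (E := E)) W
  have h2 := Submodule.finrank_le W
  rw [Module.finrank_fintype_fun_eq_card] at h1 h2
  omega

lemma m2_cut_spt {A : Finset E} {P : E → K} (h : P ∈ spt K A) : cut A P = P := by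
  ext e
  rw [cut_apply]
  split_ifs with he
  · rfl
  · exact (h e he).symm

lemma m2_cut_zero {A B : Finset E} (hd : Disjoint A B) {P : E → K} (h : P ∈ spt K B) :
    cut A P = 0 := by
  ext e
  rw [cut_apply]
  split_ifs with he
  · exact h e (disjoint_left.1 hd he)
  · rfl

lemma m2_dp_cut (A : Finset E) (P Q : E → K) : m2_dp (cut A P) Q = m2_dp P (cut A Q) := by
  simp only [m2_dp_apply, cut_apply]
  refine sum_congr rfl fun e _ => ?_
  split_ifs <;> simp

lemma m2_pair {π : Finset E} {A B : Submodule K (E → K)} (hA : A ≤ spt K π) (hB : B ≤ spt K π)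
    (ho : ∀ P ∈ A, ∀ Q ∈ B, m2_dp P Q = 0) :
    finrank K A + finrank K B ≤ #π ∧ (#π ≤ finrank K A + finrank K B →
      ∀ P : E → K, (∀ Q ∈ B, m2_dp P Q = 0) → cut π P ∈ A) := by
  have h1 : A ⊔ spt K πᶜ ≤ m2_dp.orthogonal B := by
    refine sup_le (fun P hP Q hQ => ?_) (fun P hP Q hQ => ?_)
    · exact m2_dp_refl _ _ (ho P hP Q hQ)
    · show m2_dp Q P = 0
      rw [← m2_cut_spt (hB hQ), m2_dp_cut, m2_cut_zero disjoint_compl_right hP, map_zero]
  have h2 : A ⊓ spt K πᶜ = ⊥ := by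
    rw [eq_bot_iff]
    intro P hP
    rw [Submodule.mem_bot, ← m2_cut_spt (hA hP.1), m2_cut_zero disjoint_compl_right hP.2]
  have h3 := Submodule.finrank_sup_add_finrank_inf_eq A (spt K πᶜ)
  rw [h2, finrank_bot, finrank_spt, card_compl] at h3
  have h4 := m2_orth B
  have h5 := Submodule.finrank_mono h1
  have h6 := card_le_univ π
  refine ⟨by omega, fun hle P hP => ?_⟩
  have h7 : A ⊔ spt K πᶜ = m2_dp.orthogonal B :=
    Submodule.eq_of_le_of_finrank_le h1 (by omega)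
  have h8 : P ∈ A ⊔ spt K πᶜ := by
    rw [h7]
    exact fun Q hQ => m2_dp_refl _ _ (hP Q hQ)
  obtain ⟨a, ha, b, hb, rfl⟩ := Submodule.mem_sup.1 h8
  rw [map_add, m2_cut_spt (hA ha), m2_cut_zero disjoint_compl_right hb, add_zero]
  exact ha

lemma m2_mem_XX {C : Submodule K (E → K)} {𝒜 : Finset (Finset E)}
    {RI : Finset E → Submodule K (E → K)} {P : E → K} :
    P ∈ XX C 𝒜 RI ↔ P ∈ C ⊓ spt K (𝒜.biUnion id) ∧ ∀ π ∈ 𝒜, cut π P ∈ RI π := by
  simp only [XX, Submodule.mem_inf, Submodule.mem_iInf, Submodule.mem_comap]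

/-- Induction on `𝒜`. If every part of every element of `C ⊓ spt` lies in `RI π`, use `Base` and
`XX ≤ C ⊓ spt`. Otherwise remove such a piece `π`: with `x`, `c` the dimensions of the images of `XX`
and of `C ⊓ spt` under `cut π` one has `x ≤ finrank (RI π)`, `x < c`, and the kernels are the spaces for
`𝒜.erase π` (rank-nullity for the restricted maps). -/
lemma step7 (C : Submodule K (E → K)) (RI : Finset E → Submodule K (E → K))
    (𝒜 : Finset (Finset E)) (hd : ∀ π ∈ 𝒜, ∀ π' ∈ 𝒜, π ≠ π' → Disjoint π π')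
    (hb : Base C 𝒜 RI) :
    4 * finrank K (XX C 𝒜 RI) + #𝒜 ≤
      2 * finrank K (C ⊓ spt K (𝒜.biUnion id) : Submodule K (E → K)) +
        2 * ∑ π ∈ 𝒜, finrank K (RI π) := by
  induction 𝒜 using Finset.strongInduction with
  | H 𝒜 ih =>
  have hle : XX C 𝒜 RI ≤ C ⊓ spt K (𝒜.biUnion id) := fun P hP => (m2_mem_XX.1 hP).1
  by_cases hall : ∀ π ∈ 𝒜, ∀ P ∈ C ⊓ spt K (𝒜.biUnion id), cut π P ∈ RI π
  · have h1 := hb 𝒜 (Subset.refl _) hall
    have h2 := Submodule.finrank_mono hle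
    omega
  push Not at hall
  obtain ⟨π, hπ, P, hP, hP'⟩ := hall
  have hsub := erase_subset π 𝒜
  have h0 := ih (𝒜.erase π) (erase_ssubset hπ)
    (fun a ha b hb' => hd a (hsub ha) b (hsub hb'))
    (fun ℬ hℬ => hb ℬ (hℬ.trans hsub))
  have h1 := m2_rn (cut π) (XX C 𝒜 RI)
  have h2 := m2_rn (cut π) (C ⊓ spt K (𝒜.biUnion id))
  have h3 : (XX C 𝒜 RI).map (cut π) ≤ RI π := by
    rintro _ ⟨Q, hQ, rfl⟩
    exact (m2_mem_XX.1 hQ).2 π hπ
  have h4 : (XX C 𝒜 RI).map (cut π) < (C ⊓ spt K (𝒜.biUnion id)).map (cut π) := by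
    refine lt_of_le_of_ne (Submodule.map_mono hle) fun h => hP' (h3 ?_)
    rw [h]
    exact ⟨P, hP, rfl⟩
  have h5 : XX C 𝒜 RI ⊓ LinearMap.ker (cut π) ≤ XX C (𝒜.erase π) RI := by
    rintro Q ⟨hQ, hQ0⟩
    obtain ⟨⟨q1, q2⟩, q3⟩ := m2_mem_XX.1 hQ
    refine m2_mem_XX.2 ⟨⟨q1, fun e he => ?_⟩, fun a ha => q3 a (hsub ha)⟩
    by_cases heπ : e ∈ π
    · have := congrFun (LinearMap.mem_ker.1 hQ0) e
      rwa [cut_apply, if_pos heπ] at this
    · refine q2 e fun h => he ?_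
      obtain ⟨a, ha, hea⟩ := mem_biUnion.1 h
      exact mem_biUnion.2 ⟨a, mem_erase.2 ⟨fun h => heπ (h ▸ hea), ha⟩, hea⟩
  have h6 : C ⊓ spt K ((𝒜.erase π).biUnion id) ≤
      C ⊓ spt K (𝒜.biUnion id) ⊓ LinearMap.ker (cut π) := by
    rintro Q ⟨q1, q2⟩
    refine ⟨⟨q1, fun e he => q2 e fun h => he (biUnion_subset_biUnion_of_subset_left _ hsub h)⟩,
      LinearMap.mem_ker.2 (m2_cut_zero ?_ q2)⟩
    rw [disjoint_biUnion_right]
    intro a ha
    exact hd π hπ a (hsub ha) (ne_of_mem_erase ha).symm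
  have h7 := Submodule.finrank_mono h3
  have h8 := Submodule.finrank_lt_finrank_of_lt h4
  have h9 := Submodule.finrank_mono h5
  have h10 := Submodule.finrank_mono h6
  have h11 := add_sum_erase 𝒜 (fun π => finrank K (RI π)) hπ
  have h12 := card_erase_add_one hπ
  omega

/-- Let `D = ⨆ π ∈ 𝒜, RO π`, `C0 = C ⊓ spt`. The image of `Y` lies in `D ⊓ C0^⊥` (dot product,
`cut_biUnion`), `finrank (C0^⊥ ⊓ D) + finrank (C0^⊥ ⊔ D) = finrank C0^⊥ + finrank D`, and the orthogonal of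
`C0^⊥ ⊔ D` is `C0 ⊓ D^⊥ ≤ XX`. -/
lemma half (C : Submodule K (E → K)) (RI RO : Finset E → Submodule K (E → K))
    (𝒜 : Finset (Finset E)) (hd : ∀ π ∈ 𝒜, ∀ π' ∈ 𝒜, π ≠ π' → Disjoint π π')
    (hdual : ∀ π ∈ 𝒜, ∀ P : E → K, (∀ Q ∈ RO π, ∑ e, P e * Q e = 0) → cut π P ∈ RI π)
    (Y : Submodule K (E → K)) (ho : ∀ P ∈ C, ∀ Q ∈ Y, ∑ e, P e * Q e = 0)
    (hY : ∀ π ∈ 𝒜, ∀ Q ∈ Y, cut π Q ∈ RO π) :
    finrank K (Y.map (cut (𝒜.biUnion id))) +
      finrank K (C ⊓ spt K (𝒜.biUnion id) : Submodule K (E → K)) ≤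
      ∑ π ∈ 𝒜, finrank K (RO π) + finrank K (XX C 𝒜 RI) := by
  set C0 : Submodule K (E → K) := C ⊓ spt K (𝒜.biUnion id) with hC0
  have h1 : Y.map (cut (𝒜.biUnion id)) ≤ m2_dp.orthogonal C0 ⊓ 𝒜.sup RO := by
    rintro _ ⟨Q, hQ, rfl⟩
    refine ⟨fun P hP => ?_, ?_⟩
    · show m2_dp P (cut _ Q) = 0
      rw [← m2_dp_cut, m2_cut_spt hP.2]
      exact ho P hP.1 Q hQ
    · show cut _ Q ∈ 𝒜.sup RO
      rw [cut_biUnion hd]
      exact Submodule.sum_mem _ fun π hπ => (le_sup (f := RO) hπ) (hY π hπ Q hQ)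
  have h2 : m2_dp.orthogonal (m2_dp.orthogonal C0 ⊔ 𝒜.sup RO) ≤ XX C 𝒜 RI := by
    intro P hP
    refine m2_mem_XX.2 ⟨?_, fun π hπ => hdual π hπ P fun Q hQ => ?_⟩
    · rw [← hC0, ← LinearMap.BilinForm.orthogonal_orthogonal m2_dp_nondeg m2_dp_refl C0]
      exact fun Q hQ => hP Q (Submodule.mem_sup_left hQ)
    · exact m2_dp_refl _ _ (hP Q (Submodule.mem_sup_right ((le_sup (f := RO) hπ) hQ)))
  have h3 := Submodule.finrank_sup_add_finrank_inf_eq (m2_dp.orthogonal C0) (𝒜.sup RO)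
  have h4 := m2_orth C0
  have h5 := m2_orth (m2_dp.orthogonal C0 ⊔ 𝒜.sup RO)
  have h6 := m2_sup 𝒜 RO
  have h7 := Submodule.finrank_mono h1
  have h8 := Submodule.finrank_mono h2
  omega

/-- Non-split pieces. `D = ⨆ π ∈ 𝒩, U π`; `bb` is symmetric on `D` (isotropy, disjoint supports);
`T ≤ D` is totally isotropic, so `2 dim T ≤ dim D + dim rad`
(`LinearMap.BilinForm.finrank_add_finrank_orthogonal` for the restriction of `bb` to `D`). The radical lies in the
kernel of the surjective map `D → (𝒩 → K)`, `x ↦ (bb x y_π)`. `dim D ≤ ∑ #π`. -/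
lemma step6 (𝒩 : Finset (Finset E)) (hd : ∀ π ∈ 𝒩, ∀ π' ∈ 𝒩, π ≠ π' → Disjoint π π')
    (U : Finset E → Submodule K (V1 K E)) (hs : ∀ π ∈ 𝒩, ∀ x ∈ U π, pr π x = x)
    (hi : ∀ π ∈ 𝒩, ∀ x ∈ U π, ∀ y ∈ U π, om x y = 0) (hdim : ∀ π ∈ 𝒩, finrank K (U π) = #π)
    (hn : ∀ π ∈ 𝒩, ∃ x ∈ U π, ∃ y ∈ U π, bb x y ≠ 0)
    (T : Submodule K (V1 K E)) (ht : ∀ t ∈ T, pr (𝒩.biUnion id) t = t)
    (hp : ∀ π ∈ 𝒩, ∀ t ∈ T, pr π t ∈ U π) (hT : ∀ t ∈ T, ∀ t' ∈ T, bb t t' = 0) :
    2 * finrank K T + #𝒩 ≤ 2 * ∑ π ∈ 𝒩, #π := by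
  set D : Submodule K (V1 K E) := 𝒩.sup U with hD
  have hUD : ∀ π ∈ 𝒩, U π ≤ D := fun π hπ => le_sup (f := U) hπ
  have hTD : T ≤ D := by
    intro t htT
    rw [← ht t htT, pr_biUnion hd]
    exact Submodule.sum_mem _ fun π hπ => hUD π hπ (hp π hπ t htT)
  choose! x hx y hy hxy using hn
  let B : LinearMap.BilinForm K D := (bb : LinearMap.BilinForm K (V1 K E)).restrict D
  let T' : Submodule K D := T.comap D.subtype
  let φ : D →ₗ[K] (𝒩 → K) :=
    LinearMap.pi fun π : 𝒩 => (LinearMap.flip bb (y π)).comp D.subtype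
  have hφ : ∀ (v : D) (π : 𝒩), φ v π = bb (v : V1 K E) (y π) := fun _ _ => rfl
  have h1 : finrank K T' = finrank K T := by
    rw [← Submodule.finrank_map_subtype_eq, Submodule.map_comap_subtype, inf_eq_right.2 hTD]
  have h2 := LinearMap.BilinForm.finrank_add_finrank_orthogonal' (B := B) T'
  have h3 : T' ≤ B.orthogonal T' := fun a ha b hb => hT _ hb _ ha
  have h4 : T' ⊓ LinearMap.ker B ≤ LinearMap.ker φ := by
    rintro a ⟨-, ha⟩
    refine LinearMap.mem_ker.2 (funext fun π => ?_)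
    have := LinearMap.congr_fun (LinearMap.mem_ker.1 ha) ⟨y π, hUD π π.2 (hy π π.2)⟩
    exact this
  have h5 : LinearMap.range φ = ⊤ := by
    rw [LinearMap.range_eq_top]
    intro c
    refine ⟨∑ π : 𝒩, (c π / bb (x π) (y π)) • ⟨x π, hUD π π.2 (hx π π.2)⟩, funext fun π => ?_⟩
    rw [map_sum, Finset.sum_apply, Finset.sum_eq_single π]
    · rw [map_smul, Pi.smul_apply, hφ, smul_eq_mul]
      exact div_mul_cancel₀ _ (hxy π π.2)
    · intro π' _ hne
      rw [map_smul, Pi.smul_apply, hφ]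
      have : bb (x π') (y π) = (0 : K) := by
        rw [← hs π' π'.2 _ (hx π' π'.2), ← hs π π.2 _ (hy π π.2), bb_pr, pr_pr,
          disjoint_iff_inter_eq_empty.1 (hd π' π'.2 π π.2 fun h => hne (Subtype.ext h)), pr_empty,
          map_zero]
      simp only [this, smul_zero]
    · intro h
      exact absurd (mem_univ _) h
  have h6 := LinearMap.finrank_range_add_finrank_ker φ
  rw [h5, finrank_top, Module.finrank_fintype_fun_eq_card, Fintype.card_coe] at h6
  have h7 := Submodule.finrank_mono h3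
  have h8 := Submodule.finrank_mono h4
  have h9 : finrank K D ≤ ∑ π ∈ 𝒩, #π := (m2_sup 𝒩 U).trans (sum_congr rfl hdim).le
  omega

/-- Split pieces: the two projections are orthogonal subspaces of `spt π` and `U` lies in their
product, so they are orthogonal complements in `spt π` and `U` is the product. -/
lemma split_piece {π : Finset E} {U : Submodule K (V1 K E)} (hs : ∀ x ∈ U, pr π x = x)
    (hdim : finrank K U = #π) (hb : ∀ x ∈ U, ∀ y ∈ U, bb x y = 0) :
    finrank K (U.map (LinearMap.fst K _ _)) + finrank K (U.map (LinearMap.snd K _ _)) = #π ∧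
    (∀ P : E → K, (∀ Q ∈ U.map (LinearMap.snd K _ _), ∑ e, P e * Q e = 0) →
      cut π P ∈ U.map (LinearMap.fst K _ _)) ∧
    (∀ Q : E → K, (∀ P ∈ U.map (LinearMap.fst K _ _), ∑ e, Q e * P e = 0) →
      cut π Q ∈ U.map (LinearMap.snd K _ _)) ∧
    (∀ x ∈ U, (x.1, 0) ∈ U ∧ (0, x.2) ∈ U) := by
  set A : Submodule K (E → K) := U.map (LinearMap.fst K _ _) with hA
  set B : Submodule K (E → K) := U.map (LinearMap.snd K _ _) with hB
  have sA : A ≤ spt K π := by
    rintro _ ⟨x, hx, rfl⟩ e he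
    have := congrFun (congrArg Prod.fst (hs x hx)) e
    exact this.symm.trans (if_neg he)
  have sB : B ≤ spt K π := by
    rintro _ ⟨x, hx, rfl⟩ e he
    have := congrFun (congrArg Prod.snd (hs x hx)) e
    exact this.symm.trans (if_neg he)
  have ho : ∀ P ∈ A, ∀ Q ∈ B, m2_dp P Q = 0 := by
    rintro _ ⟨x, hx, rfl⟩ _ ⟨y, hy, rfl⟩
    exact hb x hx y hy
  have h1 := m2_pair sA sB ho
  have h2 := m2_pair sB sA fun Q hQ P hP => m2_dp_refl _ _ (ho P hP Q hQ)
  set N : Submodule K (V1 K E) := U ⊓ LinearMap.ker (LinearMap.fst K (E → K) (E → K)) with hN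
  set B' : Submodule K (V1 K E) := B.map (LinearMap.inr K (E → K) (E → K)) with hB'
  have h3 : finrank K A + finrank K N = finrank K U := m2_rn (LinearMap.fst K (E → K) (E → K)) U
  have h4 : N ≤ B' := by
    rintro x ⟨hx, hx0⟩
    exact ⟨x.2, ⟨x, hx, rfl⟩, Prod.ext (LinearMap.mem_ker.1 hx0).symm rfl⟩
  have h5 : finrank K N ≤ finrank K B' := Submodule.finrank_mono h4
  have h6 : finrank K B' ≤ finrank K B :=
    Submodule.finrank_map_le (LinearMap.inr K (E → K) (E → K)) B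
  have h7 : #π ≤ finrank K A + finrank K B := by omega
  refine ⟨by omega, h1.2 h7, h2.2 (by omega), fun x hx => ?_⟩
  have h8 : N = B' := Submodule.eq_of_le_of_finrank_le h4 (by omega)
  have h9 : ((0, x.2) : V1 K E) ∈ U := by
    have : ((0, x.2) : V1 K E) ∈ B' := ⟨x.2, ⟨x, hx, rfl⟩, rfl⟩
    rw [← h8] at this
    exact this.1
  refine ⟨?_, h9⟩
  have := U.sub_mem hx h9
  have e : x - (0, x.2) = (x.1, 0) := Prod.ext (sub_zero _) (sub_self _)
  rwa [e] at this

end Pool.Agent.MP_8c1b0d_co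

namespace Pool.Agent.MP_8c1b0d_co
variable {K E : Type} [Field K] [CharP K 2] [Fintype E] [DecidableEq E]

lemma m3_rn {V W : Type} [AddCommGroup V] [Module K V] [AddCommGroup W] [Module K W]
    [FiniteDimensional K V] (f : V →ₗ[K] W) (U Z : Submodule K V)
    (h : ∀ x ∈ U, f x = 0 → x ∈ Z) : finrank K U ≤ finrank K (U.map f) + finrank K Z := by
  have h1 := (f.domRestrict U).finrank_range_add_finrank_ker
  rw [LinearMap.range_domRestrict, LinearMap.ker_domRestrict] at h1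
  have h2 : finrank K ((LinearMap.ker f).comap U.subtype) ≤ finrank K Z := by
    rw [← Submodule.finrank_map_subtype_eq]
    refine Submodule.finrank_mono ?_
    rintro _ ⟨x, hx, rfl⟩
    exact h x x.2 hx
  omega

lemma m3_prod (X Y : Submodule K (E → K)) :
    finrank K (X.prod Y) = finrank K X + finrank K Y := by
  rw [← Module.finrank_prod]
  refine LinearEquiv.finrank_eq
    { toFun := fun x => (⟨x.1.1, x.2.1⟩, ⟨x.1.2, x.2.2⟩)
      invFun := fun x => ⟨(x.1.1, x.2.1), x.1.2, x.2.2⟩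
      map_add' := fun _ _ => rfl
      map_smul' := fun _ _ => rfl
      left_inv := fun _ => rfl
      right_inv := fun _ => rfl }

lemma m3_mem_XX {C : Submodule K (E → K)} {𝒜 : Finset (Finset E)}
    {RI : Finset E → Submodule K (E → K)} {P : E → K} :
    P ∈ XX C 𝒜 RI ↔ P ∈ C ∧ (∀ e, e ∉ 𝒜.biUnion id → P e = 0) ∧ ∀ π ∈ 𝒜, cut π P ∈ RI π := by
  simp only [XX, Submodule.mem_inf, mem_spt, Submodule.mem_iInf, Submodule.mem_comap, and_assoc]

lemma m3_split (C : Submodule K (E → K)) (RI : Finset E → Submodule K (E → K))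
    (𝒜 ℬ : Finset (Finset E)) :
    finrank K (XX C (𝒜 ∪ ℬ) RI) ≤
      finrank K ((XX C (𝒜 ∪ ℬ) RI).map (cut (ℬ.biUnion id))) + finrank K (XX C 𝒜 RI) := by
  refine m3_rn _ _ _ fun P hP h0 => ?_
  obtain ⟨h1, h2, h3⟩ := m3_mem_XX.1 hP
  refine m3_mem_XX.2 ⟨h1, fun e he => ?_, fun π hπ => h3 π (mem_union_left _ hπ)⟩
  by_cases hb : e ∈ ℬ.biUnion id
  · have := congrFun h0 e
    rwa [cut_apply, if_pos hb] at this
  · refine h2 e fun h => ?_
    rw [union_biUnion, mem_union] at h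
    exact h.elim he hb

lemma m3_bb {𝒜 : Finset (Finset E)} (h : ∀ π ∈ 𝒜, ∀ π' ∈ 𝒜, π ≠ π' → Disjoint π π')
    (x y : V1 K E) :
    bb (pr (𝒜.biUnion id) x) y = ∑ π ∈ 𝒜, bb (pr π x) (pr π y) := by
  rw [pr_biUnion h, map_sum, LinearMap.sum_apply]
  refine sum_congr rfl fun π _ => ?_
  rw [← bb_pr, pr_pr, inter_self]

/-- Assembly of steps 6 and 7. `r ≤ dim (R.map (pr ⋃𝒩)) + dim (R ⊓ ker)`; `step6` for the first
(`bb` vanishes on `R`, and on the split pieces); the second embeds into `X × Y` with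
`X = XX C1 (𝒜1 ∪ 𝒜2) RI`, `Y = XX C2 (𝒜1 ∪ 𝒜2) RO`;
`dim X ≤ dim (XX C1 𝒜1 RI) + dim (X.map (cut ⋃𝒜2))`, the same for `Y`; then `half` and `step7` twice,
`split_piece`, and `cnt`. -/
theorem assemble {S : Type} [DecidableEq S] (s : Sys K E S) (C1 C2 : Submodule K (E → K))
    (orth : ∀ P ∈ C1, ∀ Q ∈ C2, ∑ e, P e * Q e = 0) (p : s.Pieces (C1.prod C2))
    (𝒩 𝒜1 𝒜2 : Finset (Finset E)) (hu : p.𝒦 = 𝒩 ∪ (𝒜1 ∪ 𝒜2)) (d1 : Disjoint 𝒩 (𝒜1 ∪ 𝒜2))
    (d2 : Disjoint 𝒜1 𝒜2)
    (hn : ∀ π ∈ 𝒩, ∃ x ∈ p.R.map (pr π), ∃ y ∈ p.R.map (pr π), bb x y ≠ 0)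
    (hs : ∀ π ∈ 𝒜1 ∪ 𝒜2, ∀ x ∈ p.R.map (pr π), ∀ y ∈ p.R.map (pr π), bb x y = 0)
    (b1 : Base C1 𝒜1 fun π => (p.R.map (pr π)).map (LinearMap.fst K _ _))
    (b2 : Base C2 𝒜2 fun π => (p.R.map (pr π)).map (LinearMap.snd K _ _)) :
    s.Γ ⊓ (C1.prod C2).prod (C1.prod C2) = ⊥ := by
  have sub𝒩 : ∀ π ∈ 𝒩, π ∈ p.𝒦 := fun π h => hu ▸ mem_union_left _ h
  have sub𝒜 : ∀ π ∈ 𝒜1 ∪ 𝒜2, π ∈ p.𝒦 := fun π h => hu ▸ mem_union_right _ h
  have dj {𝒜 : Finset (Finset E)} (h : ∀ π ∈ 𝒜, π ∈ p.𝒦) :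
      ∀ π ∈ 𝒜, ∀ π' ∈ 𝒜, π ≠ π' → Disjoint π π' :=
    fun π hπ π' hπ' => p.disj π (h π hπ) π' (h π' hπ')
  have s1 : ∀ π ∈ 𝒜1, π ∈ 𝒜1 ∪ 𝒜2 := fun π h => mem_union_left _ h
  have s2 : ∀ π ∈ 𝒜2, π ∈ 𝒜1 ∪ 𝒜2 := fun π h => mem_union_right _ h
  have hsup : ∀ π : Finset E, ∀ x ∈ p.R.map (pr π), pr π x = x := by
    rintro π _ ⟨x, -, rfl⟩
    rw [pr_pr, inter_self]
  set RI : Finset E → Submodule K (E → K) := fun π => (p.R.map (pr π)).map (LinearMap.fst K _ _)
    with hRI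
  set RO : Finset E → Submodule K (E → K) := fun π => (p.R.map (pr π)).map (LinearMap.snd K _ _)
    with hRO
  have sp := fun π (h : π ∈ 𝒜1 ∪ 𝒜2) =>
    split_piece (hsup π) (p.dim π (sub𝒜 π h)) (hs π h)
  -- step 6
  have h6 := step6 𝒩 (dj sub𝒩) (fun π => p.R.map (pr π)) (fun π _ => hsup π)
    (fun π hπ => by
      rintro _ ⟨x, hx, rfl⟩ _ ⟨y, hy, rfl⟩
      exact p.iso π (sub𝒩 π hπ) x hx y hy)
    (fun π hπ => p.dim π (sub𝒩 π hπ)) hn (p.R.map (pr (𝒩.biUnion id))) (hsup _)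
    (fun π hπ => by
      rintro _ ⟨x, hx, rfl⟩
      refine ⟨x, hx, ?_⟩
      rw [pr_pr, inter_eq_left.2
        (show π ⊆ 𝒩.biUnion id from subset_biUnion_of_mem id hπ)])
    (by
      rintro _ ⟨x, hx, rfl⟩ _ ⟨y, hy, rfl⟩
      have e0 : bb x y = 0 := orth _ (p.le hx).1 _ (p.le hy).2
      have e1 := m3_bb (dj fun π h => h) x y
      rw [p.tot x hx, e0, hu, sum_union d1, sum_eq_zero (s := 𝒜1 ∪ 𝒜2)
        fun π h => hs π h _ ⟨x, hx, rfl⟩ _ ⟨y, hy, rfl⟩, add_zero] at e1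
      rw [← bb_pr, pr_pr, inter_self, m3_bb (dj sub𝒩), ← e1])
  -- the kernel
  have hk := m3_rn (pr (𝒩.biUnion id)) p.R
    ((XX C1 (𝒜1 ∪ 𝒜2) RI).prod (XX C2 (𝒜1 ∪ 𝒜2) RO)) fun x hx h0 => by
      have ht := p.tot x hx
      have z {P : E → K} (h1 : cut (p.𝒦.biUnion id) P = P) (h2 : cut (𝒩.biUnion id) P = 0) :
          ∀ e, e ∉ (𝒜1 ∪ 𝒜2).biUnion id → P e = 0 := fun e he => by
        by_cases hb : e ∈ 𝒩.biUnion id
        · have := congrFun h2 e
          rwa [cut_apply, if_pos hb] at this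
        · have := congrFun h1 e
          rw [cut_apply, if_neg] at this
          · exact this.symm
          · rw [hu, union_biUnion, mem_union]
            exact fun h => h.elim hb he
      exact ⟨m3_mem_XX.2 ⟨(p.le hx).1, z (congrArg Prod.fst ht) (congrArg Prod.fst h0),
          fun π _ => ⟨_, ⟨x, hx, rfl⟩, rfl⟩⟩,
        m3_mem_XX.2 ⟨(p.le hx).2, z (congrArg Prod.snd ht) (congrArg Prod.snd h0),
          fun π _ => ⟨_, ⟨x, hx, rfl⟩, rfl⟩⟩⟩
  rw [m3_prod] at hk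
  have x1 := m3_split C1 RI 𝒜1 𝒜2
  have x2 := m3_split C2 RO 𝒜2 𝒜1
  rw [union_comm 𝒜2 𝒜1] at x2
  have g1 := half C1 RI RO 𝒜1 (dj fun π h => sub𝒜 π (s1 π h))
    (fun π h => (sp π (s1 π h)).2.1) (XX C2 (𝒜1 ∪ 𝒜2) RO)
    (fun P hP Q hQ => orth P hP Q (m3_mem_XX.1 hQ).1)
    (fun π h Q hQ => (m3_mem_XX.1 hQ).2.2 π (s1 π h))
  have g2 := half C2 RO RI 𝒜2 (dj fun π h => sub𝒜 π (s2 π h))
    (fun π h => (sp π (s2 π h)).2.2.1) (XX C1 (𝒜1 ∪ 𝒜2) RI)
    (fun P hP Q hQ => by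
      rw [← orth Q (m3_mem_XX.1 hQ).1 P hP]
      exact sum_congr rfl fun e _ => mul_comm _ _)
    (fun π h Q hQ => (m3_mem_XX.1 hQ).2.2 π (s2 π h))
  have t1 := step7 C1 RI 𝒜1 (dj fun π h => sub𝒜 π (s1 π h)) b1
  have t2 := step7 C2 RO 𝒜2 (dj fun π h => sub𝒜 π (s2 π h)) b2
  have c1 : ∑ π ∈ 𝒜1, finrank K (RI π) + ∑ π ∈ 𝒜1, finrank K (RO π) = ∑ π ∈ 𝒜1, #π := by
    rw [← sum_add_distrib]
    exact sum_congr rfl fun π h => (sp π (s1 π h)).1
  have c2 : ∑ π ∈ 𝒜2, finrank K (RI π) + ∑ π ∈ 𝒜2, finrank K (RO π) = ∑ π ∈ 𝒜2, #π := by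
    rw [← sum_add_distrib]
    exact sum_congr rfl fun π h => (sp π (s2 π h)).1
  have cnt := p.cnt
  rw [hu, sum_union d1, sum_union d2, card_union_of_disjoint d1, card_union_of_disjoint d2] at cnt
  exact Submodule.finrank_eq_zero.1 (by omega)

end Pool.Agent.MP_8c1b0d_co

namespace Pool.Agent.MP_8c1b0d_co
variable {K E : Type} [Field K] [CharP K 2] [Fintype E] [DecidableEq E]

lemma m4_upd (G1 G2 : Finset E) (z : E → K) (e : E) (t : K) (x : V1 K E) :
    Aop (Function.update z e t) G1 G2 x =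
      Aop (Function.update z e 0) G1 G2 x + t • pr {e} x := by
  ext f <;> by_cases h : f = e <;> simp [Aop, pr, cut_apply, h] <;> ring

lemma m4_om (e : E) (x y : V1 K E) : om x (pr {e} y) = x.1 e * y.2 e + y.1 e * x.2 e := by
  simp [om_apply, bb_apply, pr, cut_apply]

lemma m4_prop (e : E) {x y : V1 K E} (hx : pr {e} x ≠ 0) (h : om x (pr {e} y) = 0) :
    ∃ μ : K, pr {e} y = μ • pr {e} x := by
  have two : (2 : K) = 0 := CharTwo.two_eq_zero
  rw [m4_om] at h
  obtain ⟨μ, h1, h2⟩ : ∃ μ : K, y.1 e = μ * x.1 e ∧ y.2 e = μ * x.2 e := by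
    by_cases ha : x.1 e = 0
    · have hb : x.2 e ≠ 0 := fun hb => hx (by
        ext f <;> by_cases hf : f = e <;> simp [pr, cut_apply, hf, ha, hb])
      refine ⟨y.2 e / x.2 e, ?_, by field_simp⟩
      rw [ha, zero_mul, zero_add] at h
      rw [ha, mul_zero]
      exact (mul_eq_zero.1 h).resolve_right hb
    · refine ⟨y.1 e / x.1 e, by field_simp, ?_⟩
      field_simp
      linear_combination h - y.1 e * x.2 e * two
  exact ⟨μ, by ext f <;> by_cases hf : f = e <;> simp [pr, cut_apply, hf, h1, h2]⟩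

/-- One variable becomes boolean. Let `A0`, `A1` be the operators for `z e = 0`, `1`, `π = pr {e}`, so
`Aop z = A0 + z e • π`, `A1 = A0 + π`. Suppose `x0, x1 ≠ 0` in `L` with `A0 x0, A1 x1 ∈ L`. `Aop_adj` and
isotropy give `om x0 (π x1) = 0`. `π x0 ≠ 0` and `π x1 ≠ 0` (else `h` applies), so `π x1 = μ • π x0`,
`μ ≠ 0`; `w = (t+1) • x0 + (t/μ) • x1` has `Aop z w ∈ L`, so `w = 0`; for `t ≠ 0, 1` this makes `x1` a
multiple of `x0`, so `π x0 ∈ L` and `Aop z x0 ∈ L`. -/
lemma desc_one (G1 G2 : Finset E) {L : Submodule K (V1 K E)}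
    (hi : ∀ x ∈ L, ∀ y ∈ L, om x y = 0) (z : E → K) (e : E)
    (h : ∀ x ∈ L, Aop z G1 G2 x ∈ L → x = 0) :
    (∀ x ∈ L, Aop (Function.update z e 0) G1 G2 x ∈ L → x = 0) ∨
      (∀ x ∈ L, Aop (Function.update z e 1) G1 G2 x ∈ L → x = 0) := by
  by_contra hn
  simp only [not_or, not_forall] at hn
  obtain ⟨⟨x0, m0, a0, n0⟩, x1, m1, a1, n1⟩ := hn
  have hz : ∀ x, Aop z G1 G2 x = Aop (Function.update z e 0) G1 G2 x + z e • pr {e} x := fun x => by
    rw [← m4_upd, Function.update_eq_self]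
  have h1 : ∀ x, Aop (Function.update z e 0) G1 G2 x =
      Aop (Function.update z e 1) G1 G2 x - pr {e} x := fun x => by
    rw [m4_upd G1 G2 z e 1, one_smul, add_sub_cancel_right]
  have ho : om x0 (pr {e} x1) = 0 := by
    have := Aop_adj (Function.update z e 0) G1 G2 x0 x1
    rw [hi _ a0 _ m1, hi _ m0 _ m1, h1, map_sub, hi _ m0 _ a1] at this
    simpa using this
  have p0 : pr {e} x0 ≠ 0 := fun hp => n0 (h _ m0 (by rwa [hz, hp, smul_zero, add_zero]))
  have p1 : pr {e} x1 ≠ 0 := fun hp => n1 (h _ m1 (by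
    rwa [hz, h1, hp, smul_zero, add_zero, sub_zero]))
  obtain ⟨μ, hμ⟩ := m4_prop e p0 ho
  have hμ0 : μ ≠ 0 := fun h0 => p1 (by rw [hμ, h0, zero_smul])
  have hw : ((z e - 1) * μ) • x0 - z e • x1 = 0 := by
    refine h _ (L.sub_mem (L.smul_mem _ m0) (L.smul_mem _ m1)) ?_
    have : Aop z G1 G2 (((z e - 1) * μ) • x0 - z e • x1) =
        ((z e - 1) * μ) • Aop (Function.update z e 0) G1 G2 x0 -
          z e • Aop (Function.update z e 1) G1 G2 x1 := by
      rw [map_sub, map_smul, map_smul, hz, hz, h1 x1, hμ]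
      module
    rw [this]
    exact L.sub_mem (L.smul_mem _ a0) (L.smul_mem _ a1)
  by_cases ht : z e = 1
  · rw [ht, sub_self, zero_mul, zero_smul, one_smul, zero_sub, neg_eq_zero] at hw
    exact n1 hw
  have hc : (z e - 1) * μ ≠ 0 := mul_ne_zero (sub_ne_zero.2 ht) hμ0
  have a2 : Aop (Function.update z e 1) G1 G2 x0 ∈ L := by
    rw [← L.smul_mem_iff hc, ← map_smul, sub_eq_zero.1 hw, map_smul]
    exact L.smul_mem _ a1
  have a3 : pr {e} x0 ∈ L := by
    have := L.sub_mem a2 a0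
    rwa [h1, sub_sub_cancel] at this
  exact n0 (h _ m0 (by rw [hz]; exact L.add_mem a0 (L.smul_mem _ a3)))

/-- induction over the set of coordinates that are already boolean -/
lemma desc_all (G1 G2 : Finset E) {L : Submodule K (V1 K E)}
    (hi : ∀ x ∈ L, ∀ y ∈ L, om x y = 0) (z : E → K)
    (h : ∀ x ∈ L, Aop z G1 G2 x ∈ L → x = 0) :
    ∃ r : E → Bool, ∀ x ∈ L, Aop (fun e => if r e then 1 else 0) G1 G2 x ∈ L → x = 0 := by
  have key : ∀ A : Finset E, ∃ y : E → K, (∀ e ∈ A, y e = 0 ∨ y e = 1) ∧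
      ∀ x ∈ L, Aop y G1 G2 x ∈ L → x = 0 := by
    intro A
    induction A using Finset.induction_on with
    | empty => exact ⟨z, by simp, h⟩
    | insert e A _ ih =>
      obtain ⟨y, hy, hL⟩ := ih
      have hu : ∀ t : K, t = 0 ∨ t = 1 → ∀ f ∈ insert e A,
          Function.update y e t f = 0 ∨ Function.update y e t f = 1 := fun t ht f hf => by
        by_cases hfe : f = e
        · rwa [hfe, Function.update_self]
        · rw [Function.update_of_ne hfe]
          exact hy f ((mem_insert.1 hf).resolve_left hfe)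
      rcases desc_one G1 G2 hi y e hL with h' | h'
      · exact ⟨_, hu 0 (Or.inl rfl), h'⟩
      · exact ⟨_, hu 1 (Or.inr rfl), h'⟩
  classical
  obtain ⟨y, hy, hL⟩ := key univ
  refine ⟨fun e => decide (y e = 1), ?_⟩
  have : (fun e => if decide (y e = 1) = true then (1 : K) else 0) = y := by
    funext e
    rcases hy e (mem_univ e) with h' | h' <;> simp [h']
  rwa [this]

/-- for colour `c` the vector is an eigenvector with eigenvalue `1` (`c = true`) or `0` -/
lemma bool_out (G1 G2 : Finset E) (hG : Disjoint G1 G2) {L : Submodule K (V1 K E)} (r : E → Bool)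
    (h : ∀ x ∈ L, Aop (fun e => if r e then (1 : K) else 0) G1 G2 x ∈ L → x = 0) (c : Bool)
    (x : V1 K E) (hx : x ∈ L) (h1 : ∀ e, r e = c → x.2 e = if e ∈ G1 then x.1 e else 0)
    (h2 : ∀ e, r e ≠ c → x.1 e = if e ∈ G2 then x.2 e else 0) : x = 0 := by
  have hd : ∀ e, e ∈ G1 → e ∈ G2 → False := fun e a b => disjoint_left.1 hG a b
  refine h x hx ?_
  have key : ∀ (b : Bool) (p q : K) (g1 g2 : Prop) [Decidable g1] [Decidable g2], (g1 → g2 → False) →
      (b = c → q = if g1 then p else 0) → (b ≠ c → p = if g2 then q else 0) →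
      (if b then (1 : K) else 0) * p + (if g2 then q else 0) = (if c then (1 : K) else 0) * p ∧
      ((if b then (1 : K) else 0) + 1) * q + (if g1 then p else 0) =
        (if c then (1 : K) else 0) * q := by
    intro b p q g1 g2 _ _ h0 h1 h2
    cases c <;> cases b <;> by_cases a1 : g1 <;> by_cases a2 : g2 <;>
      simp_all [CharTwo.add_self_eq_zero]
  have : Aop (fun e => if r e then (1 : K) else 0) G1 G2 x = (if c then (1 : K) else 0) • x :=
    Prod.ext (funext fun e => (key _ _ _ _ _ (hd e) (h1 e) (h2 e)).1)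
      (funext fun e => (key _ _ _ _ _ (hd e) (h1 e) (h2 e)).2)
  rw [this]
  exact L.smul_mem _ hx

end Pool.Agent.MP_8c1b0d_co

namespace Pool.Agent.MP_8c1b0d_co
variable {K E : Type} [Field K] [CharP K 2] [Fintype E] [DecidableEq E]

lemma base_of_U (C : Submodule K (E → K)) (G : Finset E)
    (U : ∀ A : Finset E, (∀ P ∈ C ⊓ spt K A, ∑ e ∈ G, P e = 0) →
      2 * finrank K (C ⊓ spt K A : Submodule K (E → K)) ≤ #A)
    (𝒜 : Finset (Finset E)) (hd : ∀ π ∈ 𝒜, ∀ π' ∈ 𝒜, π ≠ π' → Disjoint π π')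
    (RI : Finset E → Submodule K (E → K)) (h1 : ∀ π ∈ 𝒜, #π + 1 ≤ 2 * finrank K (RI π))
    (h2 : ∀ π ∈ 𝒜, ∀ P ∈ RI π, ∑ e ∈ G, P e = 0) : Base C 𝒜 RI := by
  intro ℬ hℬ h
  have k1 := U (ℬ.biUnion id) fun P hP => by
    have e : P = ∑ π ∈ ℬ, cut π P := by
      rw [← cut_biUnion fun a ha b hb => hd a (hℬ ha) b (hℬ hb)]
      ext e
      rw [cut_apply]
      split_ifs with k
      · rfl
      · exact hP.2 e k
    rw [e]
    simp only [Finset.sum_apply]
    rw [sum_comm]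
    exact sum_eq_zero fun π hπ => h2 π (hℬ hπ) _ (h π hπ P hP)
  have k2 : #(ℬ.biUnion id) ≤ ∑ π ∈ ℬ, #π := card_biUnion_le
  have k3 : ∑ π ∈ ℬ, (#π + 1) ≤ ∑ π ∈ ℬ, 2 * finrank K (RI π) :=
    sum_le_sum fun π hπ => h1 π (hℬ hπ)
  rw [sum_add_distrib, ← mul_sum, sum_const, smul_eq_mul, mul_one] at k3
  omega

/-- the two functionals together -/
def lamG (G1 G2 : Finset E) : V1 K E →ₗ[K] K where
  toFun x := ∑ e ∈ G1, x.1 e + ∑ e ∈ G2, x.2 e
  map_add' x y := by simp [sum_add_distrib]; ring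
  map_smul' t x := by simp [mul_sum, mul_add]

/-- MIN-MAX, boolean form: a red/blue choice at every quad such that both colours meet
`C1 × C2` trivially. -/
theorem MM0 (z : E → K) (σ : E → K ≃+* K) (hσ : ∀ u e, σ u (z e) = z e + if u = e then 1 else 0)
    (C1 C2 : Submodule K (E → K))
    (st1 : ∀ θ : K ≃+* K, ∀ P ∈ C1, (fun e => θ (P e)) ∈ C1)
    (st2 : ∀ θ : K ≃+* K, ∀ Q ∈ C2, (fun e => θ (Q e)) ∈ C2)
    (orth : ∀ P ∈ C1, ∀ Q ∈ C2, ∑ e, P e * Q e = 0)
    (G1 G2 : Finset E)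
    (U1 : ∀ A : Finset E, (∀ P ∈ C1 ⊓ spt K A, ∑ e ∈ G1, P e = 0) →
      2 * finrank K (C1 ⊓ spt K A : Submodule K (E → K)) ≤ #A)
    (U2 : ∀ A : Finset E, (∀ Q ∈ C2 ⊓ spt K A, ∑ e ∈ G2, Q e = 0) →
      2 * finrank K (C2 ⊓ spt K A : Submodule K (E → K)) ≤ #A) :
    ∀ x ∈ C1.prod C2, Aop z G1 G2 x ∈ C1.prod C2 → x = 0 := by
  classical
  obtain ⟨s, hΓ⟩ := exists_sys z σ hσ G1 G2
  have hi : ∀ x ∈ C1.prod C2, ∀ y ∈ C1.prod C2, om x y = 0 := fun x hx y hy => by
    rw [om_apply, bb_apply, bb_apply, orth _ hx.1 _ hy.2, orth _ hy.1 _ hx.2, add_zero]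
  have hs : s.Stable (C1.prod C2) := fun v θ _ x hx => ⟨st1 θ _ hx.1, st2 θ _ hx.2⟩
  let p := Sys.pieces hi hs
  let U : Finset E → Submodule K (V1 K E) := fun π => p.R.map (pr π)
  let Sp : Finset E → Prop := fun π => ∀ x ∈ U π, ∀ y ∈ U π, bb x y = 0
  let big : Finset E → Prop := fun π => finrank K ((U π).map (LinearMap.snd K _ _)) <
    finrank K ((U π).map (LinearMap.fst K _ _))
  have supp : ∀ π, ∀ x ∈ U π, pr π x = x := by
    rintro π _ ⟨y, -, rfl⟩; rw [pr_pr, inter_self]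
  have iso : ∀ π ∈ p.𝒦, ∀ x ∈ U π, ∀ y ∈ U π, om x y = 0 := by
    rintro π hπ _ ⟨x, hx, rfl⟩ _ ⟨y, hy, rfl⟩; exact p.iso π hπ x hx y hy
  have lam0 : ∀ π ∈ p.𝒦, Sp π → ∀ x ∈ U π, lamG G1 G2 x = 0 := by
    rintro π hπ hsp _ ⟨x, hx, rfl⟩
    refine p.lam π hπ (lamG G1 G2) (fun v θ _ x _ => ?_) (fun g hg h1 h2 => ?_) x hx
    · generalize pr π x = y
      simp [lamG, ac, map_sum]
    · rw [hΓ, LinearMap.mem_graph_iff] at hg
      have := Aop_self z G1 G2 g.1
      rw [← hg, iso π hπ _ h2 _ h1, hsp _ h1 _ h1, zero_add] at this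
      exact pow_eq_zero_iff two_ne_zero |>.1 this.symm
  have odd : ∀ π ∈ p.𝒦, Sp π → Odd #π := fun π hπ hsp =>
    odd_piece z G1 G2 (supp π) (iso π hπ) (p.dim π hπ) (hΓ ▸ p.one π hπ) fun x hx => by
      rw [Aop_self, hsp x hx x hx, zero_add]
      exact (congrArg (· ^ 2) (lam0 π hπ hsp x hx)).trans (by simp)
  have bot := assemble s C1 C2 orth p (p.𝒦.filter fun π => ¬ Sp π)
    (p.𝒦.filter fun π => Sp π ∧ big π) (p.𝒦.filter fun π => Sp π ∧ ¬ big π)
    (by ext π; simp only [mem_union, mem_filter]; tauto)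
    (by rw [Finset.disjoint_left]; intro π; simp only [mem_union, mem_filter]; tauto)
    (by rw [Finset.disjoint_left]; intro π; simp only [mem_filter]; tauto)
    (fun π hπ => by
      have := (mem_filter.1 hπ).2
      simp only [Sp, not_forall] at this
      obtain ⟨x, hx, y, hy, h⟩ := this
      exact ⟨x, hx, y, hy, h⟩)
    (fun π hπ => by
      rcases mem_union.1 hπ with h | h <;> exact (mem_filter.1 h).2.1)
    (base_of_U C1 G1 U1 _ (fun a ha b hb => p.disj a (mem_filter.1 ha).1 b (mem_filter.1 hb).1) _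
      (fun π hπ => by
        obtain ⟨h1, h2, h3⟩ := mem_filter.1 hπ
        have := (split_piece (supp π) (p.dim π h1) h2).1
        simp only [big, U] at h3 this
        omega)
      (fun π hπ => by
        obtain ⟨h1, h2, h3⟩ := mem_filter.1 hπ
        rintro _ ⟨x, hx, rfl⟩
        have := lam0 π h1 h2 _ ((split_piece (supp π) (p.dim π h1) h2).2.2.2 x hx).1
        simpa [lamG] using this))
    (base_of_U C2 G2 U2 _ (fun a ha b hb => p.disj a (mem_filter.1 ha).1 b (mem_filter.1 hb).1) _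
      (fun π hπ => by
        obtain ⟨h1, h2, h3⟩ := mem_filter.1 hπ
        have := (split_piece (supp π) (p.dim π h1) h2).1
        obtain ⟨k, hk⟩ := odd π h1 h2
        simp only [big, U] at h3 this
        omega)
      (fun π hπ => by
        obtain ⟨h1, h2, h3⟩ := mem_filter.1 hπ
        rintro _ ⟨x, hx, rfl⟩
        have := lam0 π h1 h2 _ ((split_piece (supp π) (p.dim π h1) h2).2.2.2 x hx).2
        simpa [lamG] using this))
  intro x hx hA
  have : (x, Aop z G1 G2 x) ∈ s.Γ ⊓ (C1.prod C2).prod (C1.prod C2) :=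
    ⟨by rw [hΓ, SetLike.mem_coe, LinearMap.mem_graph_iff], hx, hA⟩
  rw [bot, Submodule.mem_bot] at this
  exact congrArg Prod.fst this

theorem MM (z : E → K) (σ : E → K ≃+* K) (hσ : ∀ u e, σ u (z e) = z e + if u = e then 1 else 0)
    (C1 C2 : Submodule K (E → K))
    (st1 : ∀ θ : K ≃+* K, ∀ P ∈ C1, (fun e => θ (P e)) ∈ C1)
    (st2 : ∀ θ : K ≃+* K, ∀ Q ∈ C2, (fun e => θ (Q e)) ∈ C2)
    (orth : ∀ P ∈ C1, ∀ Q ∈ C2, ∑ e, P e * Q e = 0)
    (G1 G2 : Finset E) (hG : Disjoint G1 G2)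
    (U1 : ∀ A : Finset E, (∀ P ∈ C1 ⊓ spt K A, ∑ e ∈ G1, P e = 0) →
      2 * finrank K (C1 ⊓ spt K A : Submodule K (E → K)) ≤ #A)
    (U2 : ∀ A : Finset E, (∀ Q ∈ C2 ⊓ spt K A, ∑ e ∈ G2, Q e = 0) →
      2 * finrank K (C2 ⊓ spt K A : Submodule K (E → K)) ≤ #A) :
    ∃ r : E → Bool, ∀ c : Bool, ∀ P ∈ C1, ∀ Q ∈ C2,
      (∀ e, r e = c → Q e = if e ∈ G1 then P e else 0) →
      (∀ e, r e ≠ c → P e = if e ∈ G2 then Q e else 0) → P = 0 ∧ Q = 0 := by
  classical
  have hi : ∀ x ∈ C1.prod C2, ∀ y ∈ C1.prod C2, om x y = 0 := fun x hx y hy => by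
    rw [om_apply, bb_apply, bb_apply, orth _ hx.1 _ hy.2, orth _ hy.1 _ hx.2, add_zero]
  obtain ⟨r, hr⟩ := desc_all G1 G2 hi z (MM0 z σ hσ C1 C2 st1 st2 orth G1 G2 U1 U2)
  refine ⟨r, fun c P hP Q hQ h1 h2 => ?_⟩
  have := bool_out G1 G2 hG r hr c (P, Q) ⟨hP, hQ⟩ h1 h2
  exact ⟨congrArg Prod.fst this, congrArg Prod.snd this⟩

/-- the same with generic parameters, in the form used by the bridge -/
theorem MMW (z : E → K) (σ : E → K ≃+* K) (hσ : ∀ u e, σ u (z e) = z e + if u = e then 1 else 0)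
    (C1 C2 : Submodule K (E → K))
    (st1 : ∀ θ : K ≃+* K, ∀ P ∈ C1, (fun e => θ (P e)) ∈ C1)
    (st2 : ∀ θ : K ≃+* K, ∀ Q ∈ C2, (fun e => θ (Q e)) ∈ C2)
    (orth : ∀ P ∈ C1, ∀ Q ∈ C2, ∑ e, P e * Q e = 0)
    (G1 G2 : Finset E) (ε g₁ g₂ : E → K) (hε : ∀ i, ε i = 0 ∨ ε i = 1)
    (hg₁ : ∀ i, g₁ i = if i ∈ G1 then 1 else 0) (hg₂ : ∀ i, g₂ i = if i ∈ G2 then 1 else 0)
    (U1 : ∀ A : Finset E, (∀ P ∈ C1 ⊓ spt K A, ∑ e ∈ G1, P e = 0) →
      2 * finrank K (C1 ⊓ spt K A : Submodule K (E → K)) ≤ #A)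
    (U2 : ∀ A : Finset E, (∀ Q ∈ C2 ⊓ spt K A, ∑ e ∈ G2, Q e = 0) →
      2 * finrank K (C2 ⊓ spt K A : Submodule K (E → K)) ≤ #A) :
    ∀ P ∈ C1, ∀ Q ∈ C2, (fun i => (z i + ε i) * P i + g₂ i * Q i) ∈ C1 →
      (fun i => (z i + ε i + 1) * Q i + g₁ i * P i) ∈ C2 → P = 0 ∧ Q = 0 := by
  intro P hP Q hQ h1 h2
  have e : Aop (fun i => z i + ε i) G1 G2 (P, Q) = ((fun i => (z i + ε i) * P i + g₂ i * Q i),
      fun i => (z i + ε i + 1) * Q i + g₁ i * P i) := by
    refine Prod.ext (funext fun i => ?_) (funext fun i => ?_)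
    · by_cases k : i ∈ G2 <;> simp [Aop, hg₂, k]
    · by_cases k : i ∈ G1 <;> simp [Aop, hg₁, k]
  have := MM0 (fun i => z i + ε i) σ (fun u e => by
      rw [map_add, hσ]
      rcases hε e with k | k <;> rw [k] <;> simp
      ring)
    C1 C2 st1 st2 orth G1 G2 U1 U2 (P, Q) ⟨hP, hQ⟩ (by rw [e]; exact ⟨h1, h2⟩)
  exact ⟨congrArg Prod.fst this, congrArg Prod.snd this⟩

end Pool.Agent.MP_8c1b0d_co
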