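import Pool.Agent.MP_8c1b0d_co.Cactus

set_option autoImplicit false
open SimpleGraph

namespace Pool.Agent.MP_8c1b0d_co

variable {V : Type}

lemma lay_le {G : SimpleGraph V} {K : Bool → SimpleGraph V} (h : ∀ l, K l ≤ G) :
    lay K ≤ G.boxProd ⊤ := by
  rintro x y (k | k)
  · rw [boxProd_adj]; left; exact ⟨h _ k.2, k.1⟩
  · rw [boxProd_adj]; right; exact ⟨k.2.1, k.1⟩

lemma reach_of_induce {K : SimpleGraph V} {S : Set V} (h : (K.induce S).Connected) :
    ∀ u ∈ S, ∀ v ∈ S, K.Reachable u v := fun u hu v hv =>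
  (h.preconnected ⟨u, hu⟩ ⟨v, hv⟩).map (Embedding.induce S).toHom

lemma nbr_of_reach {K : SimpleGraph V} {S : Set V} (hS : S.Nontrivial)
    (h : ∀ u ∈ S, ∀ v ∈ S, K.Reachable u v) : ∀ v ∈ S, ∃ u, K.Adj v u := by
  intro v hv
  obtain ⟨u, hu, huv⟩ := hS.exists_ne v
  obtain ⟨p⟩ := h v hv u hu
  exact ⟨_, p.adj_snd (p.not_nil_of_ne huv.symm)⟩

theorem good_of_cactus [Finite V] {G : SimpleGraph V} (hc : ∀ v, (G.neighborSet v).ncard = 3)
    {S : Set V} (hS : S.Nontrivial) {C R B : SimpleGraph V} (hC : C.IsCycles) (hb : C.Colorable 2)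
    (hun : ∀ u v, (C ⊔ R ⊔ B).Adj u v ↔ G.Adj u v ∧ u ∈ S ∧ v ∈ S)
    (hCR : Disjoint C R) (hCB : Disjoint C B) (hRB : Disjoint R B)
    (h : ∀ K ∈ ({R, B} : Set (SimpleGraph V)), ((C ⊔ K).induce S).Connected ∧
      ∀ u v, K.Adj u v → (C ⊔ K).IsBridge s(u, v) ∨ ((∃ p : C.Walk u v, Even p.length) ∧
        ∀ x y, K.Adj x y → C.Reachable u x → s(x, y) = s(u, v) ∨ (C ⊔ K).IsBridge s(x, y))) :
    Good G S := by
  obtain ⟨X, Y, hXY, hm⟩ := exists_XY C hC hb
  obtain ⟨cR, bR⟩ := h R (by simp)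
  obtain ⟨cB, bB⟩ := h B (by simp)
  have dj : ∀ {A D : SimpleGraph V}, Disjoint A D → ∀ u v, A.Adj u v → ¬ D.Adj u v := by
    intro A D hd u v h1 h2
    have : (A ⊓ D).Adj u v := ⟨h1, h2⟩
    rw [hd.eq_bot] at this
    exact this
  have hsub : ∀ u v, C.Adj u v ∨ R.Adj u v ∨ B.Adj u v → G.Adj u v ∧ u ∈ S := by
    intro u v k
    have := (hun u v).1 (by simpa [or_assoc] using k)
    exact ⟨this.1, this.2.1⟩
  have rR := reach_of_induce cR
  have rB := reach_of_induce cB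
  have nR := nbr_of_reach hS rR
  have nB := nbr_of_reach hS rB
  have t1 := colour_tour hc (S := S) (C := C) (R := R) (B := B) (fun l => cond l Y X) hb hXY hm hsub
    (dj hCR) (dj hRB) nR nB rR bR
  have t2 := colour_tour hc (S := S) (C := C) (R := B) (B := R) (fun l => cond l X Y) hb
    (fun u v => (hXY u v).trans or_comm)
    (fun v hv => by
      obtain ⟨x, y, hxy, e1, e2⟩ := hm v hv
      exact ⟨y, x, hxy.symm, e2, e1⟩)
    (fun u v k => hsub u v (by tauto))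
    (dj hCB) (dj hRB.symm) nB nR rB bB
  have hXG : X ≤ G := fun u v k => (hsub u v (Or.inl ((hXY u v).2 (Or.inl k)))).1
  have hYG : Y ≤ G := fun u v k => (hsub u v (Or.inl ((hXY u v).2 (Or.inr k)))).1
  have hRG : R ≤ G := fun u v k => (hsub u v (Or.inr (Or.inl k))).1
  have hBG : B ≤ G := fun u v k => (hsub u v (Or.inr (Or.inr k))).1
  refine ⟨_, _, t1, t2, lay_le fun l => ?_, lay_le fun l => ?_, ?_⟩
  · cases l
    · exact sup_le hRG hXG
    · exact sup_le hRG hYG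
  · cases l
    · exact sup_le hBG hYG
    · exact sup_le hBG hXG
  · intro u v l huv hu hv
    have a1 := (hun u v).2 ⟨huv, hu, hv⟩
    have a2 := hXY u v
    have a3 := dj hCR u v
    have a4 := dj hCB u v
    have a5 := dj hRB u v
    have a6 : X.Adj u v → ¬ Y.Adj u v := by
      intro k1 k2
      obtain ⟨x, y, hxy, e1, e2⟩ := hm u ⟨v, a2.2 (Or.inl k1)⟩
      exact hxy (((e1 v).1 k1).symm.trans ((e2 v).1 k2))
    simp only [sup_adj] at a1
    cases l <;> simp only [lay, sup_adj, cond, true_and, ne_eq, not_true_eq_false, false_and,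
      and_false, or_false] <;> tauto

end Pool.Agent.MP_8c1b0d_co
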