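import Pool.Agent.MP_8c1b0d_co.NA

set_option autoImplicit false
set_option linter.unusedSectionVars false
open Finset Module

namespace Pool.Agent.MP_8c1b0d_co
section scalar
variable {K : Type} [Field K] [CharP K 2]

lemma prop_of {r1 r2 s1 s2 : K} (hr : ¬ (r1 = 0 ∧ r2 = 0)) (h : s1 * r2 + s2 * r1 = 0) :
    ∃ c, s1 = c * r1 ∧ s2 = c * r2 := by
  have two : (2 : K) = 0 := CharTwo.two_eq_zero
  by_cases k : r1 = 0
  · have k2 : r2 ≠ 0 := fun j => hr ⟨k, j⟩
    refine ⟨s2 / r2, ?_, by field_simp⟩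
    rw [k, mul_zero, add_zero] at h
    rw [k, mul_zero]
    exact (mul_eq_zero.1 h).resolve_right k2
  · refine ⟨s1 / r1, by field_simp, ?_⟩
    field_simp
    linear_combination h - s1 * r2 * two

lemma prop_theta (θ : RingAut K) {r1 r2 s1 s2 : K} (hr : ¬ (r1 = 0 ∧ r2 = 0))
    (h : r1 * θ r2 + r2 * θ r1 = 0) (h' : s1 * θ r2 + s2 * θ r1 = 0) :
    ∃ c, s1 = c * r1 ∧ s2 = c * r2 := by
  have ht : ¬ (θ r1 = 0 ∧ θ r2 = 0) := by simpa using hr
  obtain ⟨c, c1, c2⟩ := prop_of ht h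
  obtain ⟨d, d1, d2⟩ := prop_of ht h'
  refine prop_of hr ?_
  rw [d1, d2]
  linear_combination d * h

lemma pick {r1 r2 : K} (hr : ¬ (r1 = 0 ∧ r2 = 0)) (b : K) :
    ∃ ζ : Bool, r1 + (b + if ζ then 1 else 0) * r2 ≠ 0 := by
  by_contra hn
  push Not at hn
  have h1 := hn false
  have h2 := hn true
  simp only [if_true, Bool.false_eq_true, if_false] at h1 h2
  have : r2 = 0 := by linear_combination h2 - h1
  exact hr ⟨by linear_combination h1 - b * this, this⟩

lemma line_alg {a b r1 r2 k1 k2 s1 s2 l1 l2 : K} (hne : ¬ ((r1 = 0 ∧ r2 = 0) ∧ k1 = 0 ∧ k2 = 0))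
    (θa θb : RingAut K) (ha : r1 * θa r2 + r2 * θa r1 = 0) (ha' : s1 * θa r2 + s2 * θa r1 = 0)
    (hb : k1 * θb k2 + k2 * θb k1 = 0) (hb' : l1 * θb k2 + l2 * θb k1 = 0)
    (θ : Bool → Bool → RingAut K)
    (h : ∀ η ζ, θ η ζ (k1 + (a + if η then 1 else 0) * k2) * (r1 + (b + if ζ then 1 else 0) * r2) +
      (k1 + (a + if η then 1 else 0) * k2) * θ η ζ (r1 + (b + if ζ then 1 else 0) * r2) = 0)
    (h' : ∀ η ζ, θ η ζ (k1 + (a + if η then 1 else 0) * k2) * (s1 + (b + if ζ then 1 else 0) * s2) +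
      (l1 + (a + if η then 1 else 0) * l2) * θ η ζ (r1 + (b + if ζ then 1 else 0) * r2) = 0) :
    ∃ c, (s1 = c * r1 ∧ s2 = c * r2) ∧ l1 = c * k1 ∧ l2 = c * k2 := by
  have two : (2 : K) = 0 := CharTwo.two_eq_zero
  by_cases hr : r1 = 0 ∧ r2 = 0
  · have hk : ¬ (k1 = 0 ∧ k2 = 0) := fun j => hne ⟨hr, j⟩
    obtain ⟨c, c1, c2⟩ := prop_theta θb hk hb hb'
    obtain ⟨η, hη⟩ := pick hk a
    have : s1 = 0 ∧ s2 = 0 := by
      by_contra hs
      obtain ⟨ζ, hζ⟩ := pick hs b
      have := h' η ζ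
      simp only [hr.1, hr.2, mul_zero, add_zero, map_zero, mul_eq_zero,
        EmbeddingLike.map_eq_zero_iff] at this
      tauto
    exact ⟨c, by simp [this, hr], c1, c2⟩
  obtain ⟨c, c1, c2⟩ := prop_theta θa hr ha ha'
  obtain ⟨ζ, hζ⟩ := pick hr b
  by_cases hk : k1 = 0 ∧ k2 = 0
  · have : l1 = 0 ∧ l2 = 0 := by
      by_contra hs
      obtain ⟨η, hη⟩ := pick hs a
      have := h' η ζ
      simp only [hk.1, hk.2, mul_zero, add_zero, map_zero, mul_eq_zero, zero_mul, zero_add,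
        EmbeddingLike.map_eq_zero_iff] at this
      tauto
    exact ⟨c, ⟨c1, c2⟩, by simp [this, hk]⟩
  obtain ⟨d, d1, d2⟩ := prop_theta θb hk hb hb'
  obtain ⟨η, hη⟩ := pick hk a
  have e1 := h η ζ
  have e2 := h' η ζ
  have e3 : θ η ζ (k1 + (a + if η then 1 else 0) * k2) ≠ 0 := (map_ne_zero _).2 hη
  generalize (a + if η then 1 else 0) = a', (b + if ζ then 1 else 0) = b' at *
  have : (c - d) * (θ η ζ (k1 + a' * k2) * (r1 + b' * r2)) = 0 := by
    rw [c1, c2, d1, d2] at e2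
    linear_combination e2 - d * e1
  have cd : c = d := sub_eq_zero.1 ((mul_eq_zero.1 this).resolve_right (mul_ne_zero e3 hζ))
  exact ⟨c, ⟨c1, c2⟩, cd ▸ d1, cd ▸ d2⟩

lemma exists_theta {X : Type} [Fintype X] [DecidableEq X] (Z : X → K) (σ : X → RingAut K)
    (hσ : ∀ u e, σ u (Z e) = Z e + if u = e then 1 else 0) (A : Finset X) :
    ∃ θ : RingAut K, (∀ x, θ (Z x) = Z x + if x ∈ A then 1 else 0) ∧
      ∀ H : Subgroup (RingAut K), (∀ x ∈ A, σ x ∈ H) → θ ∈ H := by
  refine ⟨(A.toList.map σ).prod, fun x => ?_, fun H h => Subgroup.list_prod_mem _ fun θ hθ => ?_⟩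
  · rw [m1_list Z σ hσ]
    split_ifs with k
    · rw [List.count_eq_one_of_mem (Finset.nodup_toList _) (by simpa using k)]; simp
    · rw [List.count_eq_zero_of_not_mem (by simpa using k)]; simp
  · obtain ⟨u, hu, rfl⟩ := List.mem_map.1 hθ
    exact h u (by simpa using hu)

end scalar

variable {K E N : Type} [Field K] [CharP K 2] [Fintype E] [DecidableEq E] [Fintype N]
  [DecidableEq N]

lemma sN_inl {e : E} {P : E ⊕ N × Bool → Prop} (h : P (.inl e)) : ∀ i, sN i = .inl e → P i := by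
  rintro (i | i) hi
  · obtain rfl : i = e := Sum.inl.inj hi
    exact h
  · cases hi

lemma sN_inr {f : N} {P : E ⊕ N × Bool → Prop} (h : P (.inr (f, false))) (h' : P (.inr (f, true))) :
    ∀ i, sN i = .inr f → P i := by
  rintro (i | ⟨g, b⟩) hi
  · cases hi
  · obtain rfl : g = f := Sum.inr.inj hi
    cases b <;> assumption

lemma tw_ac {z z' : E ⊕ N → K} {θ : RingAut K} {i : E ⊕ N × Bool} (h : θ (z (sN i)) = z' (sN i))
    (w : V2 K (E ⊕ N × Bool)) : (tw z' (ac2 θ w)).1 i = θ ((tw z w).1 i) ∧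
      (tw z' (ac2 θ w)).2 i = θ ((tw z w).2 i) := by
  simp only [tw1, tw2, map_add, map_mul, h]
  exact ⟨rfl, rfl⟩

lemma At_ac {z : E ⊕ N → K} {α c : N → K × K} {v : E ⊕ N} {w : V2 K (E ⊕ N × Bool)}
    (θ : RingAut K) (h : At z α c v w) : At (fun v => θ (z v)) (fun f => (θ (α f).1, θ (α f).2))
      (fun f => (θ (c f).1, θ (c f).2)) v (ac2 θ w) := by
  rcases v with e | f
  · rw [At_inl] at h ⊢
    have h1 := congrArg θ h.1
    have h2 := congrArg θ h.2
    simp only [map_add, map_mul, map_one, map_zero] at h1 h2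
    exact ⟨h1, h2⟩
  · rw [At_inr'] at h ⊢
    have h1 := congrArg θ h.1.1
    have h2 := congrArg θ h.1.2
    have h3 := congrArg θ h.2.1
    have h4 := congrArg θ h.2.2
    simp only [map_add, map_mul, map_one, map_zero] at h1 h2 h3 h4
    exact ⟨⟨h1, h2⟩, h3, h4⟩

lemma At_pr {z : E ⊕ N → K} {α c : N → K × K} {v : E ⊕ N} {w : V2 K (E ⊕ N × Bool)}
    {A : Finset (E ⊕ N × Bool)}
    (h : ((∀ i, sN i = v → i ∈ A) ∧ At z α c v w) ∨ ∀ i, sN i = v → i ∉ A) :
    At z α c v (pr2 A w) := by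
  rcases v with e | f
  · rw [At_inl] at h ⊢
    simp only [pr2_fst, pr2_snd, m1_pr1, m1_pr2]
    rcases h with ⟨h, k⟩ | h
    · simpa [h (.inl e) rfl] using k
    · simp [h (.inl e) rfl]
  · rw [At_inr'] at h ⊢
    simp only [pr2_fst, pr2_snd, m1_pr1, m1_pr2]
    rcases h with ⟨h, k⟩ | h
    · simpa only [h (.inr (f, true)) rfl, h (.inr (f, false)) rfl, if_true] using k
    · simp [h (.inr (f, true)) rfl, h (.inr (f, false)) rfl]

lemma At_shift {z : E ⊕ N → K} {α c : N → K × K} {v : E ⊕ N} {w : V2 K (E ⊕ N × Bool)}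
    (h : At (z + 1) α c v w) : At z α c v (w.1, w.2 + w.1) := by
  have two : (2 : K) = 0 := CharTwo.two_eq_zero
  rcases v with e | f
  · rw [At_inl] at h ⊢
    simp only [Pi.add_apply, Pi.one_apply, Prod.fst_add, Prod.snd_add] at h ⊢
    exact ⟨by linear_combination h.1, by linear_combination h.2⟩
  · rw [At_inr'] at h ⊢
    simp only [Pi.add_apply, Pi.one_apply, Prod.fst_add, Prod.snd_add] at h ⊢
    exact ⟨⟨by linear_combination h.1.1, by linear_combination h.1.2⟩,
      by linear_combination h.2.1, by linear_combination h.2.2⟩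

lemma supp_zero {v : E ⊕ N} {y : V2 K (E ⊕ N × Bool)} (hy : pr2 (fib sN v) y = y)
    {i : E ⊕ N × Bool} (hi : sN i ≠ v) :
    y.1.1 i = 0 ∧ y.1.2 i = 0 ∧ y.2.1 i = 0 ∧ y.2.2 i = 0 := by
  have : i ∉ fib sN v := by simpa [fib] using hi
  rw [← hy]
  simp [pr2_fst, pr2_snd, m1_pr1, m1_pr2, this]

lemma Ph_supp {v : E ⊕ N} {y : V2 K (E ⊕ N × Bool)} (hy : pr2 (fib sN v) y = y)
    (t : V2 K (E ⊕ N × Bool)) : Ph y t = PhL y t v := by
  rw [Ph_sum, sum_eq_single v _ (by simp)]
  rintro (e | f) _ hv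
  · simp [PhL, omL, supp_zero hy (i := .inl e) hv]
  · simp [PhL, omL, supp_zero hy (i := .inr (f, true)) hv, supp_zero hy (i := .inr (f, false)) hv]

lemma ext_site (z : E ⊕ N → K) {v : E ⊕ N} {y w : V2 K (E ⊕ N × Bool)}
    (hy : pr2 (fib sN v) y = y) (hw : pr2 (fib sN v) w = w) (c : K)
    (h : ∀ i, sN i = v → ((tw z y).1 i = c * (tw z w).1 i ∧ (tw z y).2 i = c * (tw z w).2 i) ∧
      (tw (z + 1) y).1 i = c * (tw (z + 1) w).1 i ∧ (tw (z + 1) y).2 i = c * (tw (z + 1) w).2 i) :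
    y = c • w := by
  have key : ∀ i, y.1.1 i = c * w.1.1 i ∧ y.1.2 i = c * w.1.2 i ∧ y.2.1 i = c * w.2.1 i ∧
      y.2.2 i = c * w.2.2 i := fun i => by
    by_cases k : sN i = v
    · obtain ⟨⟨h1, h2⟩, h3, h4⟩ := h i k
      simp only [tw1, tw2, Pi.add_apply, Pi.one_apply] at h1 h2 h3 h4
      exact ⟨by linear_combination h3 - h1, by linear_combination h4 - h2,
        by linear_combination (z (sN i) + 1) * h1 - z (sN i) * h3,
        by linear_combination (z (sN i) + 1) * h2 - z (sN i) * h4⟩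
    · simp [supp_zero hy k, supp_zero hw k]
  exact Prod.ext (Prod.ext (funext fun i => (key i).1) (funext fun i => (key i).2.1))
    (Prod.ext (funext fun i => (key i).2.2.1) (funext fun i => (key i).2.2.2))

/-- the site of a variable -/
def sX : (E ⊕ N) ⊕ N × Bool → E ⊕ N := Sum.elim id fun p => .inr p.1

/-- automorphisms that fix the variables of the other sites -/
def GX (Z : (E ⊕ N) ⊕ N × Bool → K) (v : E ⊕ N) : Subgroup (RingAut K) :=
  ⨅ x, ⨅ _ : sX x ≠ v, MulAction.stabilizer (RingAut K) (Z x)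

lemma mem_GX {Z : (E ⊕ N) ⊕ N × Bool → K} {v : E ⊕ N} {θ : RingAut K} :
    θ ∈ GX Z v ↔ ∀ x, sX x ≠ v → θ (Z x) = Z x := by
  simp only [GX, Subgroup.mem_iInf]; rfl

theorem exists_sysN (Z : (E ⊕ N) ⊕ N × Bool → K) (σ : (E ⊕ N) ⊕ N × Bool → RingAut K)
    (hσ : ∀ u e, σ u (Z e) = Z e + if u = e then 1 else 0) :
    ∃ s : Sys K (E ⊕ N × Bool) (E ⊕ N), s.site = sN ∧ s.Γ = LinearMap.ker (eqs
      (fun v => Z (.inl v)) (fun f => (1, Z (.inr (f, false)))) fun f => (1, Z (.inr (f, true)))) := by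
  have two : (2 : K) = 0 := CharTwo.two_eq_zero
  set z : E ⊕ N → K := fun v => Z (.inl v) with hz
  set α : N → K × K := fun f => (1, Z (.inr (f, false))) with hα
  set c : N → K × K := fun f => (1, Z (.inr (f, true))) with hc
  have iso : ∀ x ∈ LinearMap.ker (eqs z α c), ∀ y ∈ LinearMap.ker (eqs z α c), Ph x y = 0 := by
    intro x hx y hy
    rw [mem_eqs] at hx hy
    rw [Ph_sum]
    refine sum_eq_zero fun v _ => ?_
    rw [PhL_tw z, omL_row (α := α) (fun f => Or.inl one_ne_zero) (fun i hi => (hx v i hi).1)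
      fun i hi => (hy v i hi).1, omL_row (α := c) (fun f => Or.inl one_ne_zero)
      (fun i hi => (hx v i hi).2) fun i hi => (hy v i hi).2, add_zero]
  have th : ∀ v (A : Finset ((E ⊕ N) ⊕ N × Bool)), (∀ x ∈ A, sX x = v) → ∃ θ ∈ GX Z v,
      ∀ x, θ (Z x) = Z x + if x ∈ A then 1 else 0 := fun v A hA => by
    obtain ⟨θ, h, -⟩ := exists_theta Z σ hσ A
    exact ⟨θ, mem_GX.2 fun x hx => by rw [h, if_neg fun k => hx (hA x k), add_zero], h⟩
  refine ⟨⟨sN, GX Z, LinearMap.ker (eqs z α c), iso, ?_, ?_, ?_, ?_, ?_⟩, rfl, rfl⟩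
  · have h1 := iso_bound2 (A := univ) (U := LinearMap.ker (eqs z α c)) (fun x _ => by
      have := pr2_add_compl univ x
      rwa [compl_univ, pr2_empty, add_zero] at this) iso
    have h2 := LinearMap.finrank_range_add_finrank_ker (eqs z α c)
    have h3 := Submodule.finrank_le (LinearMap.range (eqs z α c))
    rw [finrank_V2] at h2
    rw [s1_finrank_V1] at h3
    rw [card_univ] at h1
    omega
  · intro v x hx
    rw [mem_eqs] at hx ⊢
    intro v'
    by_cases k : v' = v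
    · exact At_pr (Or.inl ⟨fun i hi => by simp [fib, hi, k], hx v'⟩)
    · exact At_pr (Or.inr fun i hi => by simp [fib, hi, k])
  · intro v θ hθ x hx
    rw [mem_eqs] at hx ⊢
    rw [mem_GX] at hθ
    intro v'
    by_cases k : v' = v
    · exact At_pr (Or.inr fun i hi => by simp [fib, hi, k])
    · refine At_pr (Or.inl ⟨fun i hi => by simp [fib, hi, k], (At_congr ?_ ?_).1 (At_ac θ (hx v'))⟩)
      · exact hθ (.inl v') k
      · rintro f rfl
        exact ⟨Prod.ext (map_one θ) (hθ (.inr (f, false)) k),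
          Prod.ext (map_one θ) (hθ (.inr (f, true)) k)⟩
  · obtain ⟨τ, h1, h2⟩ := exists_theta Z σ hσ (univ.image .inl)
    refine ⟨τ, h2 _ fun x _ => (le_iSup (GX Z) (sX x)) (mem_GX.2 fun y hy => ?_), fun x hx => ?_⟩
    · rw [hσ, if_neg fun k => hy (by rw [k]), add_zero]
    · rw [mem_eqs] at hx ⊢
      intro v
      refine At_shift (w := ac2 τ x) ((At_congr ?_ ?_).1 (At_ac τ (hx v)))
      · simp [hz, h1]
      · rintro f rfl
        simp [hα, hc, h1]
  · rintro (e | f) w hw y hy pw py w0 h1 h2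
    · have a1 := At_inl.1 (mem_eqs.1 hw (.inl e))
      have a2 := At_inl.1 (mem_eqs.1 hy (.inl e))
      obtain ⟨θ, t1, t2⟩ := th (.inl e) {.inl (.inl e)} (by simp [sX])
      have t3 : θ (z (sN (.inl e))) = (z + 1) (sN (.inl e)) := by simp [hz, t2, sN]
      have t4 : θ ((z + 1) (sN (.inl e))) = z (sN (.inl e)) := by
        rw [Pi.add_apply, Pi.one_apply, map_add, map_one, t3, Pi.add_apply, Pi.one_apply,
          add_assoc, CharTwo.add_self_eq_zero, add_zero]
      have e1 := h1 θ t1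
      have e2 := h2 θ t1
      rw [Ph_supp pw, PhL_tw z, omL_tr] at e1
      rw [Ph_supp py, PhL_tw z, omL_tr] at e2
      have b1 : (tw z w).1 (.inl e) = 0 := a1.1
      have b2 : (tw (z + 1) w).2 (.inl e) = 0 := a1.2
      have b3 : (tw z y).1 (.inl e) = 0 := a2.1
      have b4 : (tw (z + 1) y).2 (.inl e) = 0 := a2.2
      simp only [omL, Sum.elim_inl, tw_ac t3, tw_ac t4, b1, b2, b3, b4, map_zero, mul_zero,
        zero_add, add_zero] at e1 e2
      obtain ⟨d, d1, d2⟩ := prop_theta θ (r1 := (tw z w).2 (.inl e))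
        (r2 := (tw (z + 1) w).1 (.inl e)) (s1 := (tw z y).2 (.inl e))
        (s2 := (tw (z + 1) y).1 (.inl e)) (fun k => w0 (by
          rw [ext_site z pw pw 0 (sN_inl (by simp [b1, b2, k])), zero_smul]))
          (by linear_combination e1) (by linear_combination e2)
      exact ⟨d, ext_site z py pw d (sN_inl (by simp [b1, b2, b3, b4, d1, d2]))⟩
    · have co : ∀ t ∈ LinearMap.ker (eqs z α c),
          ((tw z t).1 (.inr (f, false)) = Z (.inr (f, false)) * (tw z t).2 (.inr (f, true)) ∧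
          (tw z t).1 (.inr (f, true)) = Z (.inr (f, false)) * (tw z t).2 (.inr (f, false))) ∧
          (tw (z + 1) t).1 (.inr (f, false)) =
            Z (.inr (f, true)) * (tw (z + 1) t).1 (.inr (f, true)) ∧
          (tw (z + 1) t).2 (.inr (f, true)) =
            Z (.inr (f, true)) * (tw (z + 1) t).2 (.inr (f, false)) := fun t ht => by
        obtain ⟨⟨k1, k2⟩, k3, k4⟩ := At_inr'.1 (mem_eqs.1 ht (.inr f))
        simp only [hα, hc, one_mul] at k1 k2 k3 k4
        exact ⟨⟨CharTwo.add_eq_zero.1 k1, CharTwo.add_eq_zero.1 k2⟩, CharTwo.add_eq_zero.1 k3,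
          CharTwo.add_eq_zero.1 k4⟩
      have a1 := co w hw
      have a2 := co y hy
      have ev : ∀ t, pr2 (fib sN (.inr f)) t = t → ∀ θ : RingAut K, Ph t (ac2 θ w) = 0 →
          omL (tw z t) (tw z (ac2 θ w)) (.inr f) +
            omL (tw (z + 1) t) (tw (z + 1) (ac2 θ w)) (.inr f) = 0 := fun t ht θ k => by
        rwa [Ph_supp ht, PhL_tw z, omL_tr] at k
      obtain ⟨θa, p1, p2⟩ := th (.inr f) {.inr (f, false)} (by simp [sX])
      obtain ⟨θb, q1, q2⟩ := th (.inr f) {.inr (f, true)} (by simp [sX])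
      have th' : ∀ η ζ : Bool, ∃ θ ∈ GX Z (.inr f), θ (Z (.inl (.inr f))) = Z (.inl (.inr f)) + 1 ∧
          θ (Z (.inr (f, false))) = Z (.inr (f, false)) + (if η then 1 else 0) ∧
          θ (Z (.inr (f, true))) = Z (.inr (f, true)) + if ζ then 1 else 0 := fun η ζ => by
        obtain ⟨θ, k1, k2⟩ := th (.inr f) {x | x = .inl (.inr f) ∨ (η ∧ x = .inr (f, false)) ∨
          (ζ ∧ x = .inr (f, true))} (by
            intro x hx
            rcases (mem_filter.1 hx).2 with rfl | ⟨-, rfl⟩ | ⟨-, rfl⟩ <;> rfl)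
        exact ⟨θ, k1, by simp [k2], by simp [k2], by simp [k2]⟩
      choose θ t1 t2 t3 t4 using th'
      have f0 : ∀ θ : RingAut K, θ (Z (.inl (.inr f))) = Z (.inl (.inr f)) → ∀ b,
          θ (z (sN (.inr (f, b)))) = z (sN (.inr (f, b))) ∧
          θ ((z + 1) (sN (.inr (f, b)))) = (z + 1) (sN (.inr (f, b))) := fun θ k b =>
        ⟨k, by rw [Pi.add_apply, Pi.one_apply, map_add, map_one]; exact congrArg (· + 1) k⟩
      have f1 : ∀ η ζ b, θ η ζ (z (sN (.inr (f, b)))) = (z + 1) (sN (.inr (f, b))) ∧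
          θ η ζ ((z + 1) (sN (.inr (f, b)))) = z (sN (.inr (f, b))) := fun η ζ b =>
        ⟨t2 η ζ, by
          rw [Pi.add_apply, Pi.one_apply, map_add, map_one]
          exact (congrArg (· + 1) (t2 η ζ)).trans (by
            simp only [add_assoc, CharTwo.add_self_eq_zero, add_zero]; rfl)⟩
      have e0 : ∀ (θ : RingAut K) (η ζ : K), θ (Z (.inl (.inr f))) = Z (.inl (.inr f)) →
          θ (Z (.inr (f, false))) = Z (.inr (f, false)) + η →
          θ (Z (.inr (f, true))) = Z (.inr (f, true)) + ζ →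
          ∀ t ∈ LinearMap.ker (eqs z α c), pr2 (fib sN (.inr f)) t = t → Ph t (ac2 θ w) = 0 →
          η * ((tw z t).2 (.inr (f, true)) * θ ((tw z w).2 (.inr (f, false))) +
            (tw z t).2 (.inr (f, false)) * θ ((tw z w).2 (.inr (f, true)))) +
          ζ * ((tw (z + 1) t).1 (.inr (f, true)) * θ ((tw (z + 1) w).2 (.inr (f, false))) +
            (tw (z + 1) t).2 (.inr (f, false)) * θ ((tw (z + 1) w).1 (.inr (f, true)))) = 0 := by
        intro θ η ζ k1 k2 k3 t ht pt k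
        have e := ev t pt θ k
        have g := f0 θ k1
        simp only [omL, Sum.elim_inr, tw_ac (g true).1, tw_ac (g false).1, tw_ac (g true).2,
          tw_ac (g false).2, a1, co t ht, map_mul, k2, k3] at e
        generalize θ ((tw z w).2 (.inr (f, false))) = R2, θ ((tw z w).2 (.inr (f, true))) = R1,
          θ ((tw (z + 1) w).2 (.inr (f, false))) = K2, θ ((tw (z + 1) w).1 (.inr (f, true))) = K1,
          (tw z t).2 (.inr (f, true)) = s1, (tw z t).2 (.inr (f, false)) = s2,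
          (tw (z + 1) t).1 (.inr (f, true)) = l1, (tw (z + 1) t).2 (.inr (f, false)) = l2,
          Z (.inr (f, false)) = a, Z (.inr (f, true)) = b at e ⊢
        linear_combination e - (a * s2 * R1 + a * s1 * R2 + b * l1 * K2 + b * l2 * K1) * two
      have e1 : ∀ η ζ, ∀ t ∈ LinearMap.ker (eqs z α c), pr2 (fib sN (.inr f)) t = t →
          Ph t (ac2 (θ η ζ) w) = 0 →
          θ η ζ ((tw (z + 1) w).1 (.inr (f, true)) + (Z (.inr (f, false)) + if η then 1 else 0) *
            (tw (z + 1) w).2 (.inr (f, false))) * ((tw z t).2 (.inr (f, true)) +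
            (Z (.inr (f, true)) + if ζ then 1 else 0) * (tw z t).2 (.inr (f, false))) +
          ((tw (z + 1) t).1 (.inr (f, true)) + (Z (.inr (f, false)) + if η then 1 else 0) *
            (tw (z + 1) t).2 (.inr (f, false))) * θ η ζ ((tw z w).2 (.inr (f, true)) +
            (Z (.inr (f, true)) + if ζ then 1 else 0) * (tw z w).2 (.inr (f, false))) = 0 := by
        intro η ζ t ht pt k
        have e := ev t pt _ k
        have g := f1 η ζ
        have u : ∀ β : Bool, θ η ζ (if β then 1 else 0) = if β then 1 else 0 := fun β => by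
          cases β <;> simp
        simp only [omL, Sum.elim_inr, tw_ac (g true).1, tw_ac (g false).1, tw_ac (g true).2,
          tw_ac (g false).2, a1, co t ht, map_mul, t3, t4] at e
        simp only [map_add, map_mul, t3, t4, u]
        generalize θ η ζ ((tw z w).2 (.inr (f, false))) = R2,
          θ η ζ ((tw z w).2 (.inr (f, true))) = R1,
          θ η ζ ((tw (z + 1) w).2 (.inr (f, false))) = K2,
          θ η ζ ((tw (z + 1) w).1 (.inr (f, true))) = K1,
          (tw z t).2 (.inr (f, true)) = s1, (tw z t).2 (.inr (f, false)) = s2,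
          (tw (z + 1) t).1 (.inr (f, true)) = l1, (tw (z + 1) t).2 (.inr (f, false)) = l2,
          Z (.inr (f, false)) = a, Z (.inr (f, true)) = b, (if η then 1 else 0 : K) = x,
          (if ζ then 1 else 0 : K) = y at e ⊢
        linear_combination e + (x * K2 * (s1 + (b + y) * s2) + y * R2 * (l1 + (a + x) * l2)) * two
      obtain ⟨d, ⟨d1, d2⟩, d3, d4⟩ := line_alg (fun k => w0 (by
          rw [ext_site z pw pw 0 (sN_inr (by simp [a1, k]) (by simp [a1, k])), zero_smul])) θa θb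
        (by simpa using e0 θa 1 0 (by simp [p2]) (by simp [p2]) (by simp [p2]) w hw pw (h1 _ p1))
        (by simpa using e0 θa 1 0 (by simp [p2]) (by simp [p2]) (by simp [p2]) y hy py (h2 _ p1))
        (by simpa using e0 θb 0 1 (by simp [q2]) (by simp [q2]) (by simp [q2]) w hw pw (h1 _ q1))
        (by simpa using e0 θb 0 1 (by simp [q2]) (by simp [q2]) (by simp [q2]) y hy py (h2 _ q1))
        θ (fun η ζ => e1 η ζ w hw pw (h1 _ (t1 η ζ))) fun η ζ => e1 η ζ y hy py (h2 _ (t1 η ζ))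
      refine ⟨d, ext_site z py pw d (sN_inr ?_ ?_)⟩ <;>
        simp only [a1, a2, d1, d2, d3, d4, mul_left_comm, and_self]

lemma bb_tr (x : V1 K (E ⊕ N × Bool)) : bb (tr x) (tr x) = bb x x := by
  rw [bb_apply, bb_apply]
  refine sum_congr rfl fun i _ => ?_
  simp only [tr, LinearMap.coe_mk, AddHom.coe_mk]
  split_ifs <;> ring

lemma bb_row {α : N → K × K} (hα : ∀ f, (α f).1 = 1) {x : V1 K (E ⊕ N × Bool)}
    (hx : rw' α x = 0) : bb x x = 0 := by
  have two : (2 : K) = 0 := CharTwo.two_eq_zero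
  rw [bb_apply]
  simp only [Fintype.sum_sum_type, Fintype.sum_prod_type, Fintype.sum_bool]
  rw [sum_eq_zero, sum_eq_zero, add_zero]
  · intro f _
    have h1 := congrFun hx (.inr (f, true))
    have h2 := congrFun hx (.inr (f, false))
    simp only [rw_inr, hα, Bool.not_true, Bool.not_false, Pi.zero_apply] at h1 h2
    linear_combination x.2 (.inr (f, true)) * h1 + x.2 (.inr (f, false)) * h2 -
      (α f).2 * x.2 (.inr (f, true)) * x.2 (.inr (f, false)) * two
  · intro e _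
    rw [show x.1 (.inl e) = 0 from congrFun hx (.inl e), zero_mul]

lemma bb_eqs {z : E ⊕ N → K} {α c : N → K × K} (hα : ∀ f, (α f).1 = 1) (hc : ∀ f, (c f).1 = 1)
    {g : V2 K (E ⊕ N × Bool)} (hg : g ∈ LinearMap.ker (eqs z α c)) : bb g.1 g.1 = om g.2 g.1 := by
  have two : (2 : K) = 0 := CharTwo.two_eq_zero
  have h1 := bb_row hα (congrArg Prod.fst hg)
  have h2 := bb_row hc (congrArg Prod.snd hg)
  rw [LinearMap.comp_apply, bb_tr] at h2
  rw [← add_zero (om g.2 g.1), ← add_zero 0]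
  nth_rewrite 1 [← h1]
  rw [← h2]
  simp only [om_apply, bb_apply, ← sum_add_distrib, tw1, tw2, Pi.add_apply, Pi.one_apply]
  refine sum_congr rfl fun i _ => ?_
  generalize z (sN i) = t
  linear_combination (-(g.2.1 i * g.2.2 i) - (t + 1) * (g.2.1 i * g.1.2 i + g.1.1 i * g.2.2 i) -
    (t ^ 2 + t) * (g.1.1 i * g.1.2 i)) * two

/-- ALGEBRAIC PART: a colouring or a system of singular pieces -/
theorem alg (E N : Type) [Fintype E] [DecidableEq E] [Fintype N] [DecidableEq N] :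
    ∃ (K : Type) (_ : Field K) (_ : CharP K 2), ∀ L : Submodule K (V1 K (E ⊕ N × Bool)),
      (∀ θ : RingAut K, ∀ x ∈ L, ac θ x ∈ L) → (∀ x ∈ L, ∀ y ∈ L, om x y = 0) →
      Transv L ∨ Nonempty (Pcs L) := by
  classical
  have : Fact (Nat.Prime 2) := ⟨Nat.prime_two⟩
  obtain ⟨K, _, _, _, Z, σ, hσ⟩ := exists_perfect ((E ⊕ N) ⊕ N × Bool)
  refine ⟨K, inferInstance, inferInstance, fun L st hi => ?_⟩
  obtain ⟨s, h1, h2⟩ := exists_sysN Z σ hσ
  set z : E ⊕ N → K := fun v => Z (.inl v) with hz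
  set α : N → K × K := fun f => (1, Z (.inr (f, false))) with hα
  set c : N → K × K := fun f => (1, Z (.inr (f, true))) with hc
  by_cases h : NoSol L z α c
  · exact Or.inl (transv_of hi (fun _ => rfl) (fun _ => rfl) h)
  let p := Sys.pieces hi (s := s) fun v θ _ x hx => st θ x hx
  have iso : ∀ π ∈ p.𝒦, ∀ x ∈ p.R.map (pr π), ∀ y ∈ p.R.map (pr π), om x y = 0 := by
    rintro π hπ _ ⟨x, hx, rfl⟩ _ ⟨y, hy, rfl⟩; exact p.iso π hπ x hx y hy
  have q0 : ∀ π ∈ p.𝒦, ∀ x ∈ p.R, bb (pr π x) (pr π x) = 0 := by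
    intro π hπ
    let ρ := (frobeniusEquiv K 2).symm
    have sq : ∀ t, ρ t ^ 2 = t := fun t => (frobeniusEquiv K 2).apply_symm_apply t
    have inj : ∀ a b : K, a ^ 2 = b ^ 2 → a = b := fun a b k => (frobeniusEquiv K 2).injective k
    let l0 : p.R.map (pr π) →ₗ[K] K :=
      { toFun := fun x => ρ (bb x.1 x.1)
        map_add' := fun x y => by
          have := iso π hπ _ x.2 _ y.2
          rw [om_apply] at this
          rw [← map_add, Submodule.coe_add]
          congr 1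
          simp only [map_add, LinearMap.add_apply]
          linear_combination this
        map_smul' := fun t x => inj _ _ (by
          simp only [RingHom.id_apply, smul_eq_mul, mul_pow, sq, Submodule.coe_smul, map_smul,
            LinearMap.smul_apply]
          ring) }
    obtain ⟨l, hl⟩ := l0.exists_extend
    have la : ∀ x ∈ p.R.map (pr π), l x ^ 2 = bb x x := fun x hx => by
      rw [← sq (bb x x)]
      exact congrArg (· ^ 2) (LinearMap.congr_fun hl ⟨x, hx⟩)
    intro x hx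
    rw [← la _ ⟨x, hx, rfl⟩, p.lam π hπ l (fun v θ hθ y hy => inj _ _ ?_)
      (fun g hg g1 g2 => ?_) x hx]
    · simp
    · rw [← map_pow θ, la _ ⟨y, hy, rfl⟩, la, s1_bb_ac]
      exact ⟨_, Sys.R_stable v θ hθ y hy, (ac_pr θ π y).symm⟩
    · have := la _ g1
      rw [bb_eqs (fun _ => rfl) (fun _ => rfl) (h2 ▸ hg), iso π hπ _ g2 _ g1] at this
      exact pow_eq_zero_iff two_ne_zero |>.1 this
  have ss : ∀ {A : Finset (E ⊕ N × Bool)}, (∀ f b b', .inr (f, b) ∈ A → .inr (f, b') ∈ A) →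
      ∀ e e', s.site e = s.site e' → e ∈ A → e' ∈ A := by
    rw [h1]
    rintro A hA (e | ⟨f, b⟩) (e' | ⟨f', b'⟩) k he
    · rwa [← show e = e' from Sum.inl.inj k]
    · cases k
    · cases k
    · rw [← show f = f' from Sum.inr.inj k]; exact hA _ _ _ he
  refine Or.inr ⟨⟨p.𝒦, p.R, p.le, fun π hπ => ?_, fun π hπ f b b' => p.sat π hπ _ _ (by rw [h1]; rfl),
    p.disj, p.iso, p.dim, p.tot, ?_, q0, fun π hπ A hA sat hR => ?_, fun π hπ a b hab e => ?_⟩⟩
  · rw [nonempty_iff_ne_empty]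
    rintro rfl
    have h3 := p.one _ hπ
    have h4 := Submodule.finrank_eq_zero.1 ((p.dim _ hπ).trans card_empty)
    rw [h4, Submodule.prod_bot, inf_bot_eq, finrank_bot] at h3
    exact zero_ne_one h3
  · have : 0 < finrank K (s.Γ ⊓ L.prod L : Submodule K (V2 K (E ⊕ N × Bool))) := by
      rw [finrank_pos_iff, Submodule.nontrivial_iff_ne_bot]
      intro k
      refine h fun w hw hv => (Submodule.eq_bot_iff _).1 k w ⟨?_, hw⟩
      rw [h2]; exact mem_eqs.2 hv
    have := p.cnt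
    omega
  · obtain ⟨w, hw, w1, w2, hf⟩ := p.full π hπ
    by_contra hn
    obtain ⟨e, he⟩ := nonempty_iff_ne_empty.2 fun k => hn (Or.inl k)
    obtain ⟨e', he', hn'⟩ := exists_of_ssubset (ssubset_of_ne_of_subset (fun k => hn (Or.inr k)) hA)
    have sub : ∀ {B : Finset (E ⊕ N × Bool)}, (∀ e e', s.site e = s.site e' → e ∈ B → e' ∈ B) →
        ∀ i ∈ B, fib s.site (s.site i) ∩ B = fib s.site (s.site i) := fun hB i hi =>
      inter_eq_left.2 fun j hj => hB _ _ ((s1_mem_fib _ _ _).1 hj).symm hi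
    obtain ⟨t, ht⟩ := (finrank_eq_one_iff_of_nonzero' (K := K) (⟨pr2 π w, s.Γ_sat (p.sat π hπ) hw,
      ⟨_, w1, rfl⟩, ⟨_, w2, rfl⟩⟩ : (s.Γ ⊓ (p.R.map (pr π)).prod (p.R.map (pr π)) :
        Submodule K (V2 K (E ⊕ N × Bool)))) fun k => hf e (hA he) (by
          rw [← sub (p.sat π hπ) e (hA he), ← pr2_pr2, show pr2 π w = 0 from congrArg Subtype.val k,
            map_zero])).1 (p.one π hπ) ⟨pr2 A w, s.Γ_sat (ss sat) hw, hR _ w1, hR _ w2⟩
    have ht' : t • pr2 π w = pr2 A w := congrArg Subtype.val ht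
    have k1 := congrArg (pr2 (fib s.site (s.site e))) ht'
    have k2 := congrArg (pr2 (fib s.site (s.site e'))) ht'
    rw [map_smul, pr2_pr2, pr2_pr2] at k1 k2
    rw [sub (p.sat π hπ) e (hA he), sub (ss sat) e he] at k1
    rw [sub (p.sat π hπ) e' he', show fib s.site (s.site e') ∩ A = ∅ from
      eq_empty_of_forall_notMem fun j hj => hn' (ss sat _ _
        ((s1_mem_fib _ _ _).1 (mem_inter.1 hj).1) (mem_inter.1 hj).2), pr2_empty] at k2
    rw [(smul_eq_zero.1 k2).resolve_right (hf e' he'), zero_smul] at k1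
    exact hf e (hA he) k1.symm
  · have supp : ∀ x ∈ p.R.map (pr π), pr π x = x := by
      rintro _ ⟨y, -, rfl⟩; rw [pr_pr, inter_self]
    have z0 : ∀ x ∈ p.R.map (pr π), ∀ i, x.1 (.inr i) = 0 ∧ x.2 (.inr i) = 0 := fun x hx i => by
      rw [← supp x hx]
      simp [m1_pr1, m1_pr2, e]
    have := odd_piece (fun i => z (sN i)) ∅ ∅ supp (iso π hπ) (p.dim π hπ) (by
      refine Eq.trans (congrArg (fun U : Submodule K (V2 K (E ⊕ N × Bool)) => finrank K U) ?_)
        (p.one π hπ)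
      ext g
      refine and_congr_left fun hg => ?_
      rw [h2, SetLike.mem_coe, SetLike.mem_coe, LinearMap.mem_graph_iff, mem_eqs]
      constructor
      · rintro k (v | f)
        · rw [At_inl, k]
          simp [m1_fst, m1_snd, sN, CharTwo.add_self_eq_zero]
        · simp [At_inr', z0 _ hg.1, z0 _ hg.2]
      · intro k
        refine Prod.ext (funext ?_) (funext ?_) <;> rintro (v | f)
        · simpa [m1_fst, sN] using CharTwo.add_eq_zero.1 (At_inl.1 (k (.inl v))).1
        · simp [m1_fst, z0 _ hg.1, z0 _ hg.2]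
        · simpa [m1_snd, sN] using CharTwo.add_eq_zero.1 (At_inl.1 (k (.inl v))).2
        · simp [m1_snd, z0 _ hg.1, z0 _ hg.2]) (by
      rintro _ ⟨x, hx, rfl⟩
      simp [Aop_self, q0 π hπ x hx])
    rw [e, card_pair fun k => hab (Sum.inl.inj k)] at this
    exact absurd this (by decide)

end Pool.Agent.MP_8c1b0d_co
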