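import Pool.Agent.MP_8c1b0d_co.MA
import Pool.Agent.MP_8c1b0d_co.CH

set_option autoImplicit false
set_option linter.unusedSectionVars false
open Finset Module

namespace Pool.Agent.MP_8c1b0d_co

/-- a perfect field of characteristic two with independent shiftable variables -/
theorem exists_perfect (X : Type) [DecidableEq X] : ∃ (K : Type) (_ : Field K) (_ : CharP K 2)
    (_ : PerfectRing K 2) (Z : X → K) (σ : X → RingAut K),
    ∀ u e, σ u (Z e) = Z e + if u = e then 1 else 0 := by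
  obtain ⟨K, _, _, z, σ, h⟩ := exists_field X
  have : Fact (Nat.Prime 2) := ⟨Nat.prime_two⟩
  have hc : CharP (AlgebraicClosure K) 2 :=
    charP_of_injective_algebraMap (algebraMap K (AlgebraicClosure K)).injective 2
  refine ⟨AlgebraicClosure K, inferInstance, hc, inferInstance,
    fun e => algebraMap K _ (z e), fun u => IsAlgClosure.equivOfEquiv _ _ (σ u), fun u e => ?_⟩
  show IsAlgClosure.equivOfEquiv _ _ (σ u) (algebraMap K _ (z e)) = _
  rw [IsAlgClosure.equivOfEquiv_algebraMap, h, map_add]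
  split_ifs <;> simp

section pencil
variable {K M : Type} [Field K] [CharP K 2] [AddCommGroup M] [Module K M]

/-- an isotropic subspace that meets two members of a pencil meets all of them -/
lemma pencil (LL D : Submodule K M) (Φ : M → M → K) (hi : ∀ u ∈ LL, ∀ v ∈ LL, Φ u v = 0)
    (a1 a2 b1 b2 : M →ₗ[K] K)
    (hΦ : ∀ u ∈ D, ∀ v ∈ D, a1 u = 0 → a2 u = 0 → b1 v = 0 → b2 v = 0 →
      Φ u v = b1 u * a2 v + b2 u * a1 v)
    {s t : K} (hst : s ≠ 0 ∨ t ≠ 0)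
    (h : ∀ w ∈ LL, w ∈ D → s * a1 w + t * b1 w = 0 → s * a2 w + t * b2 w = 0 → w = 0) :
    (∀ w ∈ LL, w ∈ D → a1 w = 0 → a2 w = 0 → w = 0) ∨
      ∀ w ∈ LL, w ∈ D → b1 w = 0 → b2 w = 0 → w = 0 := by
  have two : (2 : K) = 0 := CharTwo.two_eq_zero
  by_contra hn
  simp only [not_or, not_forall] at hn
  obtain ⟨⟨u, uL, uD, u1, u2, u0⟩, v, vL, vD, v1, v2, v0⟩ := hn
  have e := hΦ u uD v vD u1 u2 v1 v2
  rw [hi u uL v vL] at e
  have nu : ¬ (b1 u = 0 ∧ b2 u = 0) := fun k =>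
    u0 (h u uL uD (by simp [u1, k.1]) (by simp [u2, k.2]))
  have nv : ¬ (a1 v = 0 ∧ a2 v = 0) := fun k =>
    v0 (h v vL vD (by simp [v1, k.1]) (by simp [v2, k.2]))
  obtain ⟨l, l1, l2⟩ : ∃ l : K, a1 v = l * b1 u ∧ a2 v = l * b2 u := by
    by_cases k : b1 u = 0
    · have k2 : b2 u ≠ 0 := fun j => nu ⟨k, j⟩
      refine ⟨a2 v / b2 u, ?_, by field_simp⟩
      rw [k, zero_mul, zero_add] at e
      rw [k, mul_zero]
      exact (mul_eq_zero.1 e.symm).resolve_left k2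
    · refine ⟨a1 v / b1 u, by field_simp, ?_⟩
      field_simp
      linear_combination -e - b2 u * a1 v * two
  have l0 : l ≠ 0 := fun k => nv ⟨by rw [l1, k, zero_mul], by rw [l2, k, zero_mul]⟩
  have w0 := h ((s * l) • u + t • v) (LL.add_mem (LL.smul_mem _ uL) (LL.smul_mem _ vL))
    (D.add_mem (D.smul_mem _ uD) (D.smul_mem _ vD))
    (by simp only [map_add, map_smul, smul_eq_mul, u1, v1, l1]
        linear_combination (s * t * l * b1 u) * two)
    (by simp only [map_add, map_smul, smul_eq_mul, u2, v2, l2]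
        linear_combination (s * t * l * b2 u) * two)
  have c1 := congrArg b1 w0
  have c2 := congrArg b2 w0
  have c3 := congrArg a1 w0
  have c4 := congrArg a2 w0
  simp only [map_add, map_smul, smul_eq_mul, u1, u2, v1, v2, map_zero, mul_zero, add_zero,
    zero_add, mul_eq_zero] at c1 c2 c3 c4
  tauto

lemma desc_ind {ι T : Type} [Fintype ι] [DecidableEq ι] (Good : (ι → T) → Prop) (Inv B : T → Prop)
    (hB : ∀ t, B t → Inv t)
    (step : ∀ y : ι → T, (∀ i, Inv (y i)) → Good y → ∀ i, ∃ t, B t ∧ Good (Function.update y i t))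
    (y : ι → T) (hy : ∀ i, Inv (y i)) (hg : Good y) : ∃ y', (∀ i, B (y' i)) ∧ Good y' := by
  have key : ∀ A : Finset ι, ∃ y', (∀ i, Inv (y' i)) ∧ (∀ i ∈ A, B (y' i)) ∧ Good y' := by
    intro A
    induction A using Finset.induction_on with
    | empty => exact ⟨y, hy, by simp, hg⟩
    | insert e A _ ih =>
      obtain ⟨y', h1, h2, h3⟩ := ih
      obtain ⟨t, ht, h4⟩ := step y' h1 h3 e
      refine ⟨_, fun i => ?_, fun i hi => ?_, h4⟩ <;> by_cases k : i = e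
      · rw [k, Function.update_self]; exact hB t ht
      · rw [Function.update_of_ne k]; exact h1 i
      · rwa [k, Function.update_self]
      · rw [Function.update_of_ne k]; exact h2 i ((mem_insert.1 hi).resolve_left k)
  obtain ⟨y', -, h2, h3⟩ := key univ
  exact ⟨y', fun i => h2 i (mem_univ i), h3⟩

end pencil

variable {K E N : Type} [Field K] [CharP K 2] [Fintype E] [DecidableEq E] [Fintype N]
  [DecidableEq N]

/-- the site of a coordinate -/
def sN : E ⊕ N × Bool → E ⊕ N := Sum.map id Prod.fst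

/-- twisted coordinate `Q + z P` of a pair `(P, Q)` -/
def tw (z : E ⊕ N → K) : V2 K (E ⊕ N × Bool) →ₗ[K] V1 K (E ⊕ N × Bool) where
  toFun w := (fun i => w.2.1 i + z (sN i) * w.1.1 i, fun i => w.2.2 i + z (sN i) * w.1.2 i)
  map_add' u v := by ext i <;> simp <;> ring
  map_smul' c u := by ext i <;> simp <;> ring

/-- transposition -/
def tr : V1 K (E ⊕ N × Bool) →ₗ[K] V1 K (E ⊕ N × Bool) where
  toFun x := (fun i => if i.elim (fun _ => true) Prod.snd then x.2 i else x.1 i,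
    fun i => if i.elim (fun _ => true) Prod.snd then x.1 i else x.2 i)
  map_add' u v := by ext i <;> simp <;> split_ifs <;> rfl
  map_smul' c u := by ext i <;> simp

/-- the row equations -/
def rw' (α : N → K × K) : V1 K (E ⊕ N × Bool) →ₗ[K] (E ⊕ N × Bool → K) where
  toFun x := Sum.elim (fun e => x.1 (.inl e))
    fun p => (α p.1).1 * x.1 (.inr p) + (α p.1).2 * x.2 (.inr (p.1, !p.2))
  map_add' u v := by ext (e | p) <;> simp; ring
  map_smul' c u := by ext (e | p) <;> simp; ring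

/-- both systems of equations -/
def eqs (z : E ⊕ N → K) (α c : N → K × K) : V2 K (E ⊕ N × Bool) →ₗ[K] V1 K (E ⊕ N × Bool) :=
  (rw' α ∘ₗ tw z).prod (rw' c ∘ₗ tr ∘ₗ tw (z + 1))

lemma eqs_fst (z : E ⊕ N → K) (α c : N → K × K) (w : V2 K (E ⊕ N × Bool)) :
    (eqs z α c w).1 = rw' α (tw z w) := rfl
lemma eqs_snd (z : E ⊕ N → K) (α c : N → K × K) (w : V2 K (E ⊕ N × Bool)) :
    (eqs z α c w).2 = rw' c (tr (tw (z + 1) w)) := rfl
lemma rw_inl (α : N → K × K) (x : V1 K (E ⊕ N × Bool)) (e : E) :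
    rw' α x (.inl e) = x.1 (.inl e) := rfl
lemma rw_inr (α : N → K × K) (x : V1 K (E ⊕ N × Bool)) (f : N) (b : Bool) :
    rw' α x (.inr (f, b)) = (α f).1 * x.1 (.inr (f, b)) + (α f).2 * x.2 (.inr (f, !b)) := rfl

/-- the local part of the symplectic form -/
def omL (x y : V1 K (E ⊕ N × Bool)) : E ⊕ N → K :=
  Sum.elim (fun e => x.1 (.inl e) * y.2 (.inl e) + y.1 (.inl e) * x.2 (.inl e)) fun f =>
    x.1 (.inr (f, true)) * y.2 (.inr (f, true)) + y.1 (.inr (f, true)) * x.2 (.inr (f, true)) +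
    (x.1 (.inr (f, false)) * y.2 (.inr (f, false)) + y.1 (.inr (f, false)) * x.2 (.inr (f, false)))

lemma om_sum (x y : V1 K (E ⊕ N × Bool)) : om x y = ∑ v, omL x y v := by
  rw [om_apply, bb_apply, bb_apply, ← sum_add_distrib]
  simp only [Fintype.sum_sum_type, Fintype.sum_prod_type, Fintype.sum_bool, omL, Sum.elim_inl,
    Sum.elim_inr]

lemma omL_tr (x y : V1 K (E ⊕ N × Bool)) (v : E ⊕ N) : omL (tr x) (tr y) v = omL x y v := by
  rcases v with e | f <;> simp [omL, tr] <;> ring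

lemma omL_row {α : N → K × K} (hα : ∀ f, (α f).1 ≠ 0 ∨ (α f).2 ≠ 0) {x y : V1 K (E ⊕ N × Bool)}
    {v : E ⊕ N} (hx : ∀ i, sN i = v → rw' α x i = 0) (hy : ∀ i, sN i = v → rw' α y i = 0) :
    omL x y v = 0 := by
  have two : (2 : K) = 0 := CharTwo.two_eq_zero
  rcases v with e | f
  · have h1 := hx (.inl e) rfl
    have h2 := hy (.inl e) rfl
    rw [rw_inl] at h1 h2
    simp [omL, h1, h2]
  · have h1 := hx (.inr (f, true)) rfl
    have h2 := hx (.inr (f, false)) rfl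
    have h3 := hy (.inr (f, true)) rfl
    have h4 := hy (.inr (f, false)) rfl
    simp only [rw_inr, Bool.not_true, Bool.not_false] at h1 h2 h3 h4
    simp only [omL, Sum.elim_inr]
    generalize x.1 (.inr (f, true)) = p1, x.1 (.inr (f, false)) = p0, x.2 (.inr (f, true)) = q1,
      x.2 (.inr (f, false)) = q0, y.1 (.inr (f, true)) = r1, y.1 (.inr (f, false)) = r0,
      y.2 (.inr (f, true)) = s1, y.2 (.inr (f, false)) = s0 at *
    rcases hα f with k | k <;> refine (mul_eq_zero.1 ?_).resolve_left k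
    · linear_combination s1 * h1 + s0 * h2 + q1 * h3 + q0 * h4 -
        (α f).2 * (q0 * s1 + q1 * s0) * two
    · linear_combination r0 * h1 + r1 * h2 + p0 * h3 + p1 * h4 -
        (α f).1 * (p1 * r0 + p0 * r1) * two

lemma tw1 (z : E ⊕ N → K) (w : V2 K (E ⊕ N × Bool)) (i : E ⊕ N × Bool) :
    (tw z w).1 i = w.2.1 i + z (sN i) * w.1.1 i := rfl
lemma tw2 (z : E ⊕ N → K) (w : V2 K (E ⊕ N × Bool)) (i : E ⊕ N × Bool) :
    (tw z w).2 i = w.2.2 i + z (sN i) * w.1.2 i := rfl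

/-- the form at one site -/
def PhL (u w : V2 K (E ⊕ N × Bool)) (v : E ⊕ N) : K :=
  omL u.2 w.1 v + omL u.1 w.2 v + omL u.1 w.1 v

lemma Ph_sum (u w : V2 K (E ⊕ N × Bool)) : Ph u w = ∑ v, PhL u w v := by
  simp only [Ph_apply, om_sum, PhL, sum_add_distrib]

lemma PhL_tw (z : E ⊕ N → K) (u w : V2 K (E ⊕ N × Bool)) (v : E ⊕ N) : PhL u w v =
    omL (tw z u) (tw z w) v + omL (tr (tw (z + 1) u)) (tr (tw (z + 1) w)) v := by
  have two : (2 : K) = 0 := CharTwo.two_eq_zero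
  have key : ∀ t p1 p2 q1 q2 r1 r2 s1 s2 : K, q1 * r2 + r1 * q2 + (p1 * s2 + s1 * p2) +
      (p1 * r2 + r1 * p2) = (q1 + t * p1) * (s2 + t * r2) + (s1 + t * r1) * (q2 + t * p2) +
      ((q1 + (t + 1) * p1) * (s2 + (t + 1) * r2) + (s1 + (t + 1) * r1) * (q2 + (t + 1) * p2)) := by
    intro t p1 p2 q1 q2 r1 r2 s1 s2
    linear_combination (-(q1 * s2 + s1 * q2) - t * (q1 * r2 + r1 * q2 + p1 * s2 + s1 * p2) -
      (t ^ 2 + t) * (p1 * r2 + r1 * p2)) * two
  rw [omL_tr]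
  rcases v with e | f <;>
    simp only [PhL, omL, Sum.elim_inl, Sum.elim_inr, tw1, tw2, Pi.add_apply, Pi.one_apply]
  · exact key ..
  · linear_combination key (z (sN (.inr (f, true)))) (u.1.1 (.inr (f, true)))
      (u.1.2 (.inr (f, true))) (u.2.1 (.inr (f, true))) (u.2.2 (.inr (f, true)))
      (w.1.1 (.inr (f, true))) (w.1.2 (.inr (f, true))) (w.2.1 (.inr (f, true)))
      (w.2.2 (.inr (f, true))) + key (z (sN (.inr (f, false)))) (u.1.1 (.inr (f, false)))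
      (u.1.2 (.inr (f, false))) (u.2.1 (.inr (f, false))) (u.2.2 (.inr (f, false)))
      (w.1.1 (.inr (f, false))) (w.1.2 (.inr (f, false))) (w.2.1 (.inr (f, false)))
      (w.2.2 (.inr (f, false)))

/-- the equations at the site `v` -/
def At (z : E ⊕ N → K) (α c : N → K × K) (v : E ⊕ N) (w : V2 K (E ⊕ N × Bool)) : Prop :=
  ∀ i, sN i = v → rw' α (tw z w) i = 0 ∧ rw' c (tr (tw (z + 1) w)) i = 0

lemma mem_eqs {z : E ⊕ N → K} {α c : N → K × K} {w : V2 K (E ⊕ N × Bool)} :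
    w ∈ LinearMap.ker (eqs z α c) ↔ ∀ v, At z α c v w :=
  ⟨fun h _ i _ => ⟨congrFun (congrArg Prod.fst h) i, congrFun (congrArg Prod.snd h) i⟩,
    fun h => Prod.ext (funext fun i => (h _ i rfl).1) (funext fun i => (h _ i rfl).2)⟩

/-- the equations away from `v` -/
def Off (z : E ⊕ N → K) (α c : N → K × K) (v : E ⊕ N) : Submodule K (V2 K (E ⊕ N × Bool)) where
  carrier := {w | ∀ v', v' ≠ v → At z α c v' w}
  zero_mem' := fun _ _ _ _ => by simp
  add_mem' := fun ha hb v' hv i hi => by simp [(ha v' hv i hi), (hb v' hv i hi)]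
  smul_mem' := fun t a ha v' hv i hi => by simp [(ha v' hv i hi)]

lemma Ph_off {z : E ⊕ N → K} {α c : N → K × K} (hα : ∀ f, (α f).1 ≠ 0 ∨ (α f).2 ≠ 0)
    (hc : ∀ f, (c f).1 ≠ 0 ∨ (c f).2 ≠ 0) {v : E ⊕ N} {u w : V2 K (E ⊕ N × Bool)}
    (hu : u ∈ Off z α c v) (hw : w ∈ Off z α c v) : Ph u w = PhL u w v := by
  rw [Ph_sum, sum_eq_single v _ (by simp)]
  intro v' _ hv
  rw [PhL_tw z, omL_row hα (fun i hi => (hu v' hv i hi).1) fun i hi => (hw v' hv i hi).1,
    omL_row hc (fun i hi => (hu v' hv i hi).2) fun i hi => (hw v' hv i hi).2, add_zero]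

lemma At_inl {z : E ⊕ N → K} {α c : N → K × K} {e : E} {w : V2 K (E ⊕ N × Bool)} :
    At z α c (.inl e) w ↔ w.2.1 (.inl e) + z (.inl e) * w.1.1 (.inl e) = 0 ∧
      w.2.2 (.inl e) + (z (.inl e) + 1) * w.1.2 (.inl e) = 0 := by
  refine ⟨fun h => h (.inl e) rfl, ?_⟩
  rintro h (i | i) hi
  · obtain rfl : i = e := Sum.inl.inj hi
    exact h
  · cases hi

lemma At_inr {z : E ⊕ N → K} {α c : N → K × K} {f : N} {w : V2 K (E ⊕ N × Bool)} :
    At z α c (.inr f) w ↔ (∀ b, rw' α (tw z w) (.inr (f, b)) = 0) ∧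
      ∀ b, rw' c (tr (tw (z + 1) w)) (.inr (f, b)) = 0 := by
  refine ⟨fun h => ⟨fun b => (h (.inr (f, b)) rfl).1, fun b => (h (.inr (f, b)) rfl).2⟩, ?_⟩
  rintro h (i | ⟨g, b⟩) hi
  · cases hi
  · obtain rfl : g = f := Sum.inr.inj hi
    exact ⟨h.1 b, h.2 b⟩

/-- explicit form of the four equations at a node -/
lemma At_inr' {z : E ⊕ N → K} {α c : N → K × K} {f : N} {w : V2 K (E ⊕ N × Bool)} :
    At z α c (.inr f) w ↔
    ((α f).1 * (w.2.1 (.inr (f, false)) + z (.inr f) * w.1.1 (.inr (f, false))) +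
      (α f).2 * (w.2.2 (.inr (f, true)) + z (.inr f) * w.1.2 (.inr (f, true))) = 0 ∧
    (α f).1 * (w.2.1 (.inr (f, true)) + z (.inr f) * w.1.1 (.inr (f, true))) +
      (α f).2 * (w.2.2 (.inr (f, false)) + z (.inr f) * w.1.2 (.inr (f, false))) = 0) ∧
    (c f).1 * (w.2.1 (.inr (f, false)) + (z (.inr f) + 1) * w.1.1 (.inr (f, false))) +
      (c f).2 * (w.2.1 (.inr (f, true)) + (z (.inr f) + 1) * w.1.1 (.inr (f, true))) = 0 ∧
    (c f).1 * (w.2.2 (.inr (f, true)) + (z (.inr f) + 1) * w.1.2 (.inr (f, true))) +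
      (c f).2 * (w.2.2 (.inr (f, false)) + (z (.inr f) + 1) * w.1.2 (.inr (f, false))) = 0 := by
  rw [At_inr, Bool.forall_bool, Bool.forall_bool]
  rfl

lemma At_congr {z z' : E ⊕ N → K} {α c α' c' : N → K × K} {v : E ⊕ N} (h1 : z' v = z v)
    (h2 : ∀ f, v = .inr f → α' f = α f ∧ c' f = c f) {w : V2 K (E ⊕ N × Bool)} :
    At z' α' c' v w ↔ At z α c v w := by
  rcases v with e | f
  · rw [At_inl, At_inl, h1]
  · rw [At_inr', At_inr', h1, (h2 f rfl).1, (h2 f rfl).2]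

/-- no pair in `L × L` satisfies the equations -/
def NoSol (L : Submodule K (V1 K (E ⊕ N × Bool))) (z : E ⊕ N → K) (α c : N → K × K) : Prop :=
  ∀ w ∈ L.prod L, (∀ v, At z α c v w) → w = 0

section desc
variable {L : Submodule K (V1 K (E ⊕ N × Bool))} (hi : ∀ x ∈ L, ∀ y ∈ L, om x y = 0)
include hi

lemma prod_iso : ∀ u ∈ L.prod L, ∀ v ∈ L.prod L, Ph u v = 0 := fun u hu v hv => by
  rw [Ph_apply, hi _ hu.2 _ hv.1, hi _ hu.1 _ hv.2, hi _ hu.1 _ hv.1]
  simp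

lemma desc_row (D : Submodule K (V2 K (E ⊕ N × Bool)))
    (h : V2 K (E ⊕ N × Bool) →ₗ[K] V1 K (E ⊕ N × Bool)) (f : N)
    (hΦ : ∀ u ∈ D, ∀ v ∈ D, Ph u v = omL (h u) (h v) (.inr f)) (α : N → K × K)
    (ha : (α f).1 ≠ 0 ∨ (α f).2 ≠ 0)
    (hw : ∀ w ∈ L.prod L, w ∈ D → (∀ b, rw' α (h w) (.inr (f, b)) = 0) → w = 0) :
    ∃ t : K × K, (t = (1, 0) ∨ t = (0, 1)) ∧ ∀ w ∈ L.prod L, w ∈ D →
      (∀ b, rw' (Function.update α f t) (h w) (.inr (f, b)) = 0) → w = 0 := by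
  let p : Bool → V2 K (E ⊕ N × Bool) →ₗ[K] K := fun b =>
    LinearMap.proj (.inr (f, b)) ∘ₗ LinearMap.fst K _ _ ∘ₗ h
  let q : Bool → V2 K (E ⊕ N × Bool) →ₗ[K] K := fun b =>
    LinearMap.proj (.inr (f, b)) ∘ₗ LinearMap.snd K _ _ ∘ₗ h
  have pa : ∀ b w, p b w = (h w).1 (.inr (f, b)) := fun _ _ => rfl
  have qa : ∀ b w, q b w = (h w).2 (.inr (f, b)) := fun _ _ => rfl
  rcases pencil (L.prod L) D (fun u v => Ph u v) (prod_iso hi) (p false) (p true) (q true) (q false)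
    (fun u hu v hv h1 h2 h3 h4 => by
      rw [hΦ u hu v hv]
      simp only [pa, qa] at h1 h2 h3 h4 ⊢
      simp only [omL, Sum.elim_inr, h1, h2, h3, h4]
      ring) ha
    (fun w h1 h2 h3 h4 => hw w h1 h2 (Bool.forall_bool.2 ⟨h3, h4⟩)) with k | k
  · refine ⟨(1, 0), Or.inl rfl, fun w h1 h2 h3 => k w h1 h2 ?_ ?_⟩
    · simpa [rw_inr, pa, qa] using h3 false
    · simpa [rw_inr, pa, qa] using h3 true
  · refine ⟨(0, 1), Or.inr rfl, fun w h1 h2 h3 => k w h1 h2 ?_ ?_⟩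
    · simpa [rw_inr, pa, qa] using h3 false
    · simpa [rw_inr, pa, qa] using h3 true

variable {z : E ⊕ N → K} {α c : N → K × K} (hα : ∀ f, (α f).1 ≠ 0 ∨ (α f).2 ≠ 0)
  (hc : ∀ f, (c f).1 ≠ 0 ∨ (c f).2 ≠ 0) (h : NoSol L z α c)
include hα hc h

lemma desc_α (f : N) :
    ∃ t : K × K, (t = (1, 0) ∨ t = (0, 1)) ∧ NoSol L z (Function.update α f t) c := by
  let D : Submodule K (V2 K (E ⊕ N × Bool)) := Off z α c (.inr f) ⊓ ⨅ b : Bool,
    LinearMap.ker (LinearMap.proj (.inr (f, b)) ∘ₗ rw' c ∘ₗ tr ∘ₗ tw (z + 1))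
  have mD : ∀ w, w ∈ D ↔ w ∈ Off z α c (.inr f) ∧
      ∀ b, rw' c (tr (tw (z + 1) w)) (.inr (f, b)) = 0 := fun w => by
    simp only [D, Submodule.mem_inf, Submodule.mem_iInf]; rfl
  obtain ⟨t, ht, k⟩ := desc_row hi D (tw z) f (fun u hu v hv => by
      rw [mD] at hu hv
      rw [Ph_off hα hc hu.1 hv.1, PhL_tw z,
        omL_row hc (x := tr (tw (z + 1) u)) (v := .inr f), add_zero] <;>
        rintro (i | ⟨g, b⟩) ⟨⟩
      exacts [hu.2 b, hv.2 b]) α (hα f) fun w h1 h2 h3 => h w h1 fun v => by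
    by_cases k : v = .inr f
    · rw [k, At_inr]; exact ⟨h3, ((mD w).1 h2).2⟩
    · exact ((mD w).1 h2).1 v k
  refine ⟨t, ht, fun w h1 h2 => k w h1 ((mD w).2 ⟨fun v hv => (At_congr rfl ?_).1 (h2 v),
    (At_inr.1 (h2 _)).2⟩) (At_inr.1 (h2 _)).1⟩
  rintro g rfl
  exact ⟨Function.update_of_ne (fun k => hv (congrArg _ k)) _ _, rfl⟩

lemma desc_c (f : N) :
    ∃ t : K × K, (t = (1, 0) ∨ t = (0, 1)) ∧ NoSol L z α (Function.update c f t) := by
  let D : Submodule K (V2 K (E ⊕ N × Bool)) := Off z α c (.inr f) ⊓ ⨅ b : Bool,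
    LinearMap.ker (LinearMap.proj (.inr (f, b)) ∘ₗ rw' α ∘ₗ tw z)
  have mD : ∀ w, w ∈ D ↔ w ∈ Off z α c (.inr f) ∧
      ∀ b, rw' α (tw z w) (.inr (f, b)) = 0 := fun w => by
    simp only [D, Submodule.mem_inf, Submodule.mem_iInf]; rfl
  obtain ⟨t, ht, k⟩ := desc_row hi D (tr ∘ₗ tw (z + 1)) f (fun u hu v hv => by
      rw [mD] at hu hv
      rw [Ph_off hα hc hu.1 hv.1, PhL_tw z, omL_row hα (v := .inr f), zero_add]
      · rfl
      all_goals rintro (i | ⟨g, b⟩) ⟨⟩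
      exacts [hu.2 b, hv.2 b]) c (hc f) fun w h1 h2 h3 => h w h1 fun v => by
    by_cases k : v = .inr f
    · rw [k, At_inr]; exact ⟨((mD w).1 h2).2, h3⟩
    · exact ((mD w).1 h2).1 v k
  refine ⟨t, ht, fun w h1 h2 => k w h1 ((mD w).2 ⟨fun v hv => (At_congr rfl ?_).1 (h2 v),
    (At_inr.1 (h2 _)).1⟩) (At_inr.1 (h2 _)).2⟩
  rintro g rfl
  exact ⟨rfl, Function.update_of_ne (fun k => hv (congrArg _ k)) _ _⟩

end desc

lemma loc_plane {α c : N → K × K} (hα : ∀ f, (α f).1 = 1) (hc : ∀ f, (c f).1 = 1) (v : E ⊕ N) :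
    ∃ (D : Submodule K (V1 K (E ⊕ N × Bool))) (τ σ : V1 K (E ⊕ N × Bool) →ₗ[K] K),
      (∀ z w, At z α c v w ↔ w.1 ∈ D ∧ w.2 ∈ D ∧ τ w.2 + z v * τ w.1 = 0 ∧
        σ w.2 + (z v + 1) * σ w.1 = 0) ∧
      ∀ x ∈ D, ∀ y ∈ D, omL x y v = τ x * σ y + τ y * σ x := by
  have two : (2 : K) = 0 := CharTwo.two_eq_zero
  let p : E ⊕ N × Bool → V1 K (E ⊕ N × Bool) →ₗ[K] K := fun i =>
    LinearMap.proj i ∘ₗ LinearMap.fst K _ _
  let q : E ⊕ N × Bool → V1 K (E ⊕ N × Bool) →ₗ[K] K := fun i =>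
    LinearMap.proj i ∘ₗ LinearMap.snd K _ _
  have pa : ∀ i x, p i x = x.1 i := fun _ _ => rfl
  have qa : ∀ i x, q i x = x.2 i := fun _ _ => rfl
  rcases v with e | f
  · exact ⟨⊤, p (.inl e), q (.inl e), fun z w => by simp [At_inl, pa, qa], fun _ _ _ _ => rfl⟩
  refine ⟨LinearMap.ker (p (.inr (f, false)) + (c f).2 • p (.inr (f, true)) +
      (α f).2 • (q (.inr (f, true)) + (c f).2 • q (.inr (f, false)))),
    p (.inr (f, true)) + (α f).2 • q (.inr (f, false)),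
    q (.inr (f, true)) + (c f).2 • q (.inr (f, false)), fun z w => ?_, fun x hx y hy => ?_⟩
  · simp only [At_inr', hα, hc, LinearMap.mem_ker, LinearMap.add_apply, LinearMap.smul_apply, pa,
      qa, smul_eq_mul, one_mul]
    generalize z (.inr f) = t, (α f).2 = a, (c f).2 = b, w.1.1 (.inr (f, false)) = p1,
      w.1.1 (.inr (f, true)) = p2, w.1.2 (.inr (f, true)) = p3, w.1.2 (.inr (f, false)) = p4,
      w.2.1 (.inr (f, false)) = q1, w.2.1 (.inr (f, true)) = q2, w.2.2 (.inr (f, true)) = q3,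
      w.2.2 (.inr (f, false)) = q4
    constructor
    · rintro ⟨⟨h1, h2⟩, h3, h4⟩
      exact ⟨by linear_combination h3 + a * h4 - h1 - b * h2,
        by linear_combination (t + 1) * (h1 + b * h2) - t * (h3 + a * h4),
        by linear_combination h2, by linear_combination h4⟩
    · rintro ⟨h1, h2, h3, h4⟩
      exact ⟨⟨by linear_combination h2 + t * h1 - b * h3, by linear_combination h3⟩,
        by linear_combination h2 + (t + 1) * h1 - a * h4, by linear_combination h4⟩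
  · simp only [omL, Sum.elim_inr, LinearMap.mem_ker, LinearMap.add_apply, LinearMap.smul_apply,
      pa, qa, smul_eq_mul] at hx hy ⊢
    generalize (α f).2 = a, (c f).2 = b, x.1 (.inr (f, false)) = p1,
      x.1 (.inr (f, true)) = p2, x.2 (.inr (f, true)) = p3, x.2 (.inr (f, false)) = p4,
      y.1 (.inr (f, false)) = q1, y.1 (.inr (f, true)) = q2, y.2 (.inr (f, true)) = q3,
      y.2 (.inr (f, false)) = q4 at *
    linear_combination q4 * hx + p4 * hy -
      (b * (p2 * q4 + q2 * p4) + a * (p4 * q3 + q4 * p3) + 2 * a * b * p4 * q4) * two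

lemma desc_z {L : Submodule K (V1 K (E ⊕ N × Bool))} (hi : ∀ x ∈ L, ∀ y ∈ L, om x y = 0)
    {z : E ⊕ N → K} {α c : N → K × K} (hα : ∀ f, (α f).1 = 1) (hc : ∀ f, (c f).1 = 1)
    (h : NoSol L z α c) (v : E ⊕ N) :
    ∃ t : K, (t = 0 ∨ t = 1) ∧ NoSol L (Function.update z v t) α c := by
  have two : (2 : K) = 0 := CharTwo.two_eq_zero
  obtain ⟨D, τ, σ, h1, h2⟩ := loc_plane (E := E) hα hc v
  have off : ∀ t w, (∀ v', At (Function.update z v t) α c v' w) → w ∈ Off z α c v :=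
    fun t w k v' hv => (At_congr (Function.update_of_ne hv _ _) fun _ _ => ⟨rfl, rfl⟩).1 (k v')
  rcases pencil (L.prod L) (Off z α c v ⊓ D.prod D) (fun u v => Ph u v) (prod_iso hi)
    (τ ∘ₗ LinearMap.snd K _ _) (σ ∘ₗ (LinearMap.snd K _ _ + LinearMap.fst K _ _))
    (τ ∘ₗ (LinearMap.snd K _ _ + LinearMap.fst K _ _)) (σ ∘ₗ LinearMap.snd K _ _)
    (fun u hu w hw k1 k2 k3 k4 => by
      rw [Ph_off (fun f => Or.inl (by rw [hα]; exact one_ne_zero))
        (fun f => Or.inl (by rw [hc]; exact one_ne_zero)) hu.1 hw.1, PhL, h2 _ hu.2.2 _ hw.2.1,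
        h2 _ hu.2.1 _ hw.2.2, h2 _ hu.2.1 _ hw.2.1]
      simp only [LinearMap.comp_apply, LinearMap.add_apply, LinearMap.fst_apply,
        LinearMap.snd_apply, map_add] at k1 k2 k3 k4 ⊢
      linear_combination (τ w.1 + τ w.2) * k2 - σ w.2 * k1 - (τ w.2 * σ u.2) * two)
    (s := z v + 1) (t := z v) (by
      by_cases k : z v = 0
      · exact Or.inl (by simp [k])
      · exact Or.inr k)
    (fun w k1 k2 k3 k4 => h w k1 fun v' => by
      by_cases k : v' = v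
      · simp only [LinearMap.comp_apply, LinearMap.add_apply, LinearMap.fst_apply,
          LinearMap.snd_apply, map_add] at k3 k4
        rw [k, h1]
        exact ⟨k2.2.1, k2.2.2, by linear_combination k3 - z v * τ w.2 * two,
          by linear_combination k4 - z v * σ w.2 * two⟩
      · exact k2.1 v' k) with k | k
  · refine ⟨0, Or.inl rfl, fun w k1 k2 => ?_⟩
    have := (h1 _ w).1 (k2 v)
    rw [Function.update_self] at this
    exact k w k1 ⟨off _ w k2, this.1, this.2.1⟩ (by simpa using this.2.2.1)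
      (by simpa using this.2.2.2)
  · refine ⟨1, Or.inr rfl, fun w k1 k2 => ?_⟩
    have := (h1 _ w).1 (k2 v)
    rw [Function.update_self, CharTwo.add_self_eq_zero] at this
    exact k w k1 ⟨off _ w k2, this.1, this.2.1⟩ (by simpa using this.2.2.1)
      (by simpa using this.2.2.2)

/-- descent from the generic parameters to a colouring -/
theorem transv_of {L : Submodule K (V1 K (E ⊕ N × Bool))} (hi : ∀ x ∈ L, ∀ y ∈ L, om x y = 0)
    {z : E ⊕ N → K} {α c : N → K × K} (hα : ∀ f, (α f).1 = 1) (hc : ∀ f, (c f).1 = 1)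
    (h : NoSol L z α c) : Transv L := by
  classical
  have two : (2 : K) = 0 := CharTwo.two_eq_zero
  have nz : ∀ t : K × K, t = (1, 0) ∨ t = (0, 1) → t.1 ≠ 0 ∨ t.2 ≠ 0 := by
    rintro _ (rfl | rfl) <;> simp
  obtain ⟨z', z1, z2⟩ := desc_ind (fun z => NoSol L z α c) (fun _ => True)
    (fun t => t = 0 ∨ t = 1) (fun _ _ => trivial) (fun y _ k v => desc_z hi hα hc k v) z
    (fun _ => trivial) h
  have c0 : ∀ f, (c f).1 ≠ 0 ∨ (c f).2 ≠ 0 := fun f => Or.inl (by rw [hc]; exact one_ne_zero)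
  obtain ⟨α', a1, a2⟩ := desc_ind (fun α => NoSol L z' α c) (fun t => t.1 ≠ 0 ∨ t.2 ≠ 0)
    (fun t => t = (1, 0) ∨ t = (0, 1)) nz (fun y k1 k2 f => desc_α hi k1 c0 k2 f) α
    (fun f => Or.inl (by rw [hα]; exact one_ne_zero)) z2
  obtain ⟨c', c1, c2⟩ := desc_ind (fun c => NoSol L z' α' c) (fun t => t.1 ≠ 0 ∨ t.2 ≠ 0)
    (fun t => t = (1, 0) ∨ t = (0, 1)) nz
    (fun y k1 k2 f => desc_c hi (fun f => nz _ (a1 f)) k1 k2 f) c c0 a2
  refine ⟨fun e => decide (z' (.inl e) = 1), fun f => decide (z' (.inr f) = 0),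
    fun f => decide (α' f = (1, 0)), fun f => decide (c' f = (1, 0)), fun κ x hx h1 h2 => ?_⟩
  refine congrArg Prod.fst (c2 (x, if κ then x else 0)
    ⟨hx, by cases κ; exacts [L.zero_mem, hx]⟩ ?_)
  rintro (e | f)
  · have := h1 e
    rw [At_inl]
    rcases z1 (.inl e) with k | k <;> cases κ <;>
      simp_all [CharTwo.add_self_eq_zero]
  · have := h2 f
    rw [At_inr']
    rcases z1 (.inr f) with k | k <;> rcases a1 f with k1 | k1 <;> rcases c1 f with k2 | k2 <;>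
      cases κ <;> simp [k, k1, k2, Row, Colm, CharTwo.add_self_eq_zero] at this ⊢ <;>
      simp [this]

end Pool.Agent.MP_8c1b0d_co
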