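import Pool.Agent.MP_8c1b0d_co.QS

set_option autoImplicit false
set_option linter.unusedSectionVars false
open Finset Module

namespace Pool.Agent.MP_8c1b0d_co

abbrev V1 (K E : Type) := (E → K) × (E → K)
abbrev V2 (K E : Type) := V1 K E × V1 K E

variable {K E : Type} [Field K] [CharP K 2] [Fintype E] [DecidableEq E]

/-- the form `∑ P Q'` -/
def bb : LinearMap.BilinForm K (V1 K E) :=
  LinearMap.mk₂ K (fun x y => ∑ e, x.1 e * y.2 e)
    (fun a b c => by simp [add_mul, sum_add_distrib])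
    (fun t a b => by simp [mul_sum, mul_assoc])
    (fun a b c => by simp [mul_add, sum_add_distrib])
    (fun t a b => by simp [mul_sum, mul_left_comm])

lemma bb_apply (x y : V1 K E) : bb x y = ∑ e, x.1 e * y.2 e := rfl

/-- the symplectic form -/
def om : LinearMap.BilinForm K (V1 K E) := bb + LinearMap.flip bb

lemma om_apply (x y : V1 K E) : om x y = bb x y + bb y x := rfl

/-- the form on pairs -/
def Ph : LinearMap.BilinForm K (V2 K E) :=
  LinearMap.mk₂ K (fun x y => om x.2 y.1 + om x.1 y.2 + om x.1 y.1)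
    (fun a b c => by simp; ring) (fun t a b => by simp; ring)
    (fun a b c => by simp; ring) (fun t a b => by simp; ring)

lemma Ph_apply (x y : V2 K E) : Ph x y = om x.2 y.1 + om x.1 y.2 + om x.1 y.1 := rfl

/-- multiplication by the indicator of `A` -/
def cut (A : Finset E) : (E → K) →ₗ[K] (E → K) where
  toFun P e := if e ∈ A then P e else 0
  map_add' P Q := by ext e; by_cases h : e ∈ A <;> simp [h]
  map_smul' t P := by ext e; by_cases h : e ∈ A <;> simp [h]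

lemma cut_apply (A : Finset E) (P : E → K) (e : E) : cut A P e = if e ∈ A then P e else 0 := rfl

def pr (A : Finset E) : V1 K E →ₗ[K] V1 K E := (cut A).prodMap (cut A)
def pr2 (A : Finset E) : V2 K E →ₗ[K] V2 K E := (pr A).prodMap (pr A)

/-- coordinatewise action of a field automorphism -/
def ac (θ : RingAut K) (x : V1 K E) : V1 K E := (fun e => θ (x.1 e), fun e => θ (x.2 e))
def ac2 (θ : RingAut K) (x : V2 K E) : V2 K E := (ac θ x.1, ac θ x.2)

/-- coordinates of the site `v` -/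
def fib {S : Type} [DecidableEq S] (site : E → S) (v : S) : Finset E := {e | site e = v}

/-- a system of sites with Lagrangian relations and local groups of field automorphisms -/
structure Sys (K E S : Type) [Field K] [CharP K 2] [Fintype E] [DecidableEq E]
    [DecidableEq S] where
  site : E → S
  G : S → Subgroup (RingAut K)
  Γ : Submodule K (V2 K E)
  iso : ∀ x ∈ Γ, ∀ y ∈ Γ, Ph x y = 0
  dim : finrank K Γ = 2 * Fintype.card E
  loc : ∀ v, ∀ x ∈ Γ, pr2 (fib site v) x ∈ Γ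
  out : ∀ v, ∀ θ ∈ G v, ∀ x ∈ Γ, pr2 (fib site v)ᶜ (ac2 θ x) ∈ Γ
  shift : ∃ τ ∈ ⨆ v, G v, ∀ x ∈ Γ, (ac τ x.1, ac τ x.2 + ac τ x.1) ∈ Γ
  line : ∀ v, ∀ w ∈ Γ, ∀ y ∈ Γ, pr2 (fib site v) w = w → pr2 (fib site v) y = y → w ≠ 0 →
    (∀ θ ∈ G v, Ph w (ac2 θ w) = 0) → (∀ θ ∈ G v, Ph y (ac2 θ w) = 0) → ∃ c : K, y = c • w

namespace Sys
variable {S : Type} [DecidableEq S] (s : Sys K E S)

def Stable (U : Submodule K (V1 K E)) : Prop := ∀ v, ∀ θ ∈ s.G v, ∀ x ∈ U, ac θ x ∈ U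

/-- output of the structure theorem -/
structure Pieces (L : Submodule K (V1 K E)) where
  𝒦 : Finset (Finset E)
  R : Submodule K (V1 K E)
  le : R ≤ L
  sat : ∀ π ∈ 𝒦, ∀ e e', s.site e = s.site e' → e ∈ π → e' ∈ π
  disj : ∀ π ∈ 𝒦, ∀ π' ∈ 𝒦, π ≠ π' → Disjoint π π'
  iso : ∀ π ∈ 𝒦, ∀ x ∈ R, ∀ y ∈ R, om (pr π x) (pr π y) = 0
  dim : ∀ π ∈ 𝒦, finrank K (R.map (pr π)) = #π
  tot : ∀ r ∈ R, pr (𝒦.biUnion id) r = r
  cnt : finrank K (s.Γ ⊓ L.prod L : Submodule K (V2 K E)) + 2 * ∑ π ∈ 𝒦, #π ≤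
    2 * finrank K R + #𝒦
  one : ∀ π ∈ 𝒦,
    finrank K (s.Γ ⊓ (R.map (pr π)).prod (R.map (pr π)) : Submodule K (V2 K E)) = 1
  full : ∀ π ∈ 𝒦, ∃ w ∈ s.Γ, w.1 ∈ R ∧ w.2 ∈ R ∧ ∀ e ∈ π, pr2 (fib s.site (s.site e)) w ≠ 0
  lam : ∀ π ∈ 𝒦, ∀ l : V1 K E →ₗ[K] K,
    (∀ v, ∀ θ ∈ s.G v, ∀ x ∈ R, l (ac θ (pr π x)) = θ (l (pr π x))) →
    (∀ g ∈ s.Γ, g.1 ∈ R.map (pr π) → g.2 ∈ R.map (pr π) → l g.1 = 0) →
    ∀ x ∈ R, l (pr π x) = 0

end Sys

/-- the operator with eigenvalues `z e`, `z e + 1` in the plane of `e` -/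
def Aop (z : E → K) (G1 G2 : Finset E) : V1 K E →ₗ[K] V1 K E where
  toFun x := (fun e => z e * x.1 e + if e ∈ G2 then x.2 e else 0,
    fun e => (z e + 1) * x.2 e + if e ∈ G1 then x.1 e else 0)
  map_add' x y := by
    ext e
    · by_cases h : e ∈ G2 <;> simp [h] <;> ring
    · by_cases h : e ∈ G1 <;> simp [h] <;> ring
  map_smul' t x := by
    ext e
    · by_cases h : e ∈ G2 <;> simp [h] <;> ring
    · by_cases h : e ∈ G1 <;> simp [h] <;> ring

/-- elements of `C` supported on the pieces in `𝒜` whose parts lie in the spaces `RI π` -/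
def XX (C : Submodule K (E → K)) (𝒜 : Finset (Finset E)) (RI : Finset E → Submodule K (E → K)) :
    Submodule K (E → K) :=
  C ⊓ spt K (𝒜.biUnion id) ⊓ ⨅ π ∈ 𝒜, (RI π).comap (cut π)

/-- the combinatorial hypothesis of the refined min-max theorem for one side -/
def Base (C : Submodule K (E → K)) (𝒜 : Finset (Finset E))
    (RI : Finset E → Submodule K (E → K)) : Prop :=
  ∀ ℬ ⊆ 𝒜, (∀ π ∈ ℬ, ∀ P ∈ C ⊓ spt K (ℬ.biUnion id), cut π P ∈ RI π) →
    2 * finrank K (C ⊓ spt K (ℬ.biUnion id) : Submodule K (E → K)) + #ℬ ≤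
      2 * ∑ π ∈ ℬ, finrank K (RI π)

end Pool.Agent.MP_8c1b0d_co

namespace Pool.Agent.MP_8c1b0d_co
variable {K E : Type} [Field K] [CharP K 2] [Fintype E] [DecidableEq E]

lemma s1_pr_fst (A : Finset E) (x : V1 K E) : (pr A x).1 = cut A x.1 := rfl
lemma s1_pr_snd (A : Finset E) (x : V1 K E) : (pr A x).2 = cut A x.2 := rfl
lemma s1_pr2_fst (A : Finset E) (x : V2 K E) : (pr2 A x).1 = pr A x.1 := rfl
lemma s1_pr2_snd (A : Finset E) (x : V2 K E) : (pr2 A x).2 = pr A x.2 := rfl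

lemma om_symm (x y : V1 K E) : om x y = om y x := by
  rw [om_apply, om_apply, add_comm]
lemma om_self (x : V1 K E) : om x x = 0 := by
  rw [om_apply]
  exact CharTwo.add_self_eq_zero _
lemma Ph_symm (x y : V2 K E) : Ph x y = Ph y x := by
  rw [Ph_apply, Ph_apply, om_symm x.2 y.1, om_symm x.1 y.2, om_symm x.1 y.1]
  ring
lemma bb_pr (A : Finset E) (x y : V1 K E) : bb (pr A x) y = bb x (pr A y) := by
  rw [bb_apply, bb_apply]
  refine Finset.sum_congr rfl fun e _ => ?_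
  rw [s1_pr_fst, s1_pr_snd, cut_apply, cut_apply]
  split_ifs <;> simp
lemma om_pr (A : Finset E) (x y : V1 K E) : om (pr A x) y = om x (pr A y) := by
  rw [om_apply, om_apply, bb_pr, ← bb_pr A y x]
lemma Ph_pr2 (A : Finset E) (x y : V2 K E) : Ph (pr2 A x) y = Ph x (pr2 A y) := by
  simp only [Ph_apply, s1_pr2_fst, s1_pr2_snd, om_pr]
lemma cut_cut (A B : Finset E) (P : E → K) : cut A (cut B P) = cut (A ∩ B) P := by
  ext e
  simp only [cut_apply, Finset.mem_inter]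
  by_cases h1 : e ∈ A <;> by_cases h2 : e ∈ B <;> simp [h1, h2]
lemma pr_pr (A B : Finset E) (x : V1 K E) : pr A (pr B x) = pr (A ∩ B) x :=
  Prod.ext (cut_cut A B x.1) (cut_cut A B x.2)
lemma pr2_pr2 (A B : Finset E) (x : V2 K E) : pr2 A (pr2 B x) = pr2 (A ∩ B) x :=
  Prod.ext (pr_pr A B x.1) (pr_pr A B x.2)
lemma s1_cut_empty (P : E → K) : cut ∅ P = 0 := by
  ext e
  simp [cut_apply]
lemma pr_empty (x : V1 K E) : pr ∅ x = 0 :=
  Prod.ext (s1_cut_empty x.1) (s1_cut_empty x.2)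
lemma pr2_empty (x : V2 K E) : pr2 ∅ x = 0 :=
  Prod.ext (pr_empty x.1) (pr_empty x.2)
lemma s1_cut_add_compl (A : Finset E) (P : E → K) : cut A P + cut Aᶜ P = P := by
  ext e
  simp only [Pi.add_apply, cut_apply, Finset.mem_compl]
  by_cases h : e ∈ A <;> simp [h]
lemma pr_add_compl (A : Finset E) (x : V1 K E) : pr A x + pr Aᶜ x = x :=
  Prod.ext (s1_cut_add_compl A x.1) (s1_cut_add_compl A x.2)
lemma pr2_add_compl (A : Finset E) (x : V2 K E) : pr2 A x + pr2 Aᶜ x = x :=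
  Prod.ext (pr_add_compl A x.1) (pr_add_compl A x.2)
lemma pr2_fst (A : Finset E) (x : V2 K E) : (pr2 A x).1 = pr A x.1 := rfl
lemma pr2_snd (A : Finset E) (x : V2 K E) : (pr2 A x).2 = pr A x.2 := rfl
lemma cut_biUnion {𝒜 : Finset (Finset E)} (h : ∀ π ∈ 𝒜, ∀ π' ∈ 𝒜, π ≠ π' → Disjoint π π')
    (P : E → K) : cut (𝒜.biUnion id) P = ∑ π ∈ 𝒜, cut π P := by
  ext e
  rw [Finset.sum_apply, cut_apply]
  split_ifs with he
  · obtain ⟨π, hπ, heπ⟩ := Finset.mem_biUnion.1 he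
    rw [Finset.sum_eq_single_of_mem π hπ]
    · rw [cut_apply, if_pos (show e ∈ π from heπ)]
    · intro π' hπ' hne
      rw [cut_apply, if_neg]
      exact fun he' => Finset.disjoint_left.1 (h π' hπ' π hπ hne) he' heπ
  · symm
    refine Finset.sum_eq_zero fun π hπ => ?_
    rw [cut_apply, if_neg]
    exact fun he' => he (Finset.mem_biUnion.2 ⟨π, hπ, he'⟩)
lemma pr_biUnion {𝒜 : Finset (Finset E)} (h : ∀ π ∈ 𝒜, ∀ π' ∈ 𝒜, π ≠ π' → Disjoint π π')
    (x : V1 K E) : pr (𝒜.biUnion id) x = ∑ π ∈ 𝒜, pr π x := by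
  refine Prod.ext ?_ ?_
  · rw [Prod.fst_sum]
    exact cut_biUnion h x.1
  · rw [Prod.snd_sum]
    exact cut_biUnion h x.2
lemma pr2_biUnion {𝒜 : Finset (Finset E)} (h : ∀ π ∈ 𝒜, ∀ π' ∈ 𝒜, π ≠ π' → Disjoint π π')
    (x : V2 K E) : pr2 (𝒜.biUnion id) x = ∑ π ∈ 𝒜, pr2 π x := by
  refine Prod.ext ?_ ?_
  · rw [Prod.fst_sum]
    exact pr_biUnion h x.1
  · rw [Prod.snd_sum]
    exact pr_biUnion h x.2
lemma s1_mem_fib {S : Type} [DecidableEq S] (site : E → S) (v : S) (e : E) :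
    e ∈ fib site v ↔ site e = v := by
  simp [fib]
lemma s1_cut_sites {S : Type} [DecidableEq S] (site : E → S) {A : Finset E}
    (h : ∀ e e', site e = site e' → e ∈ A → e' ∈ A) (P : E → K) :
    cut A P = ∑ v ∈ A.image site, cut (fib site v) P := by
  ext e
  rw [Finset.sum_apply, cut_apply]
  split_ifs with he
  · rw [Finset.sum_eq_single_of_mem (site e) (Finset.mem_image_of_mem _ he)]
    · rw [cut_apply, if_pos ((s1_mem_fib site _ e).2 rfl)]
    · intro v _ hne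
      rw [cut_apply, if_neg]
      exact fun he' => hne ((s1_mem_fib site v e).1 he').symm
  · symm
    refine Finset.sum_eq_zero fun v hv => ?_
    rw [cut_apply, if_neg]
    intro he'
    obtain ⟨e', he1, he2⟩ := Finset.mem_image.1 hv
    exact he (h e' e (he2.trans ((s1_mem_fib site v e).1 he').symm) he1)
lemma s1_pr_sites {S : Type} [DecidableEq S] (site : E → S) {A : Finset E}
    (h : ∀ e e', site e = site e' → e ∈ A → e' ∈ A) (x : V1 K E) :
    pr A x = ∑ v ∈ A.image site, pr (fib site v) x := by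
  refine Prod.ext ?_ ?_
  · rw [Prod.fst_sum]
    exact s1_cut_sites site h x.1
  · rw [Prod.snd_sum]
    exact s1_cut_sites site h x.2
/-- a saturated set is the union of its sites -/
lemma pr2_sites {S : Type} [DecidableEq S] (site : E → S) {A : Finset E}
    (h : ∀ e e', site e = site e' → e ∈ A → e' ∈ A) (x : V2 K E) :
    pr2 A x = ∑ v ∈ A.image site, pr2 (fib site v) x := by
  refine Prod.ext ?_ ?_
  · rw [Prod.fst_sum]
    exact s1_pr_sites site h x.1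
  · rw [Prod.snd_sum]
    exact s1_pr_sites site h x.2
lemma s1_cut_eq_zero {S : Type} [DecidableEq S] (site : E → S) {A : Finset E} {P : E → K}
    (h : ∀ e ∈ A, cut (fib site (site e)) P = 0) : cut A P = 0 := by
  ext e
  rw [cut_apply]
  split_ifs with he
  · have := congrFun (h e he) e
    rw [cut_apply, if_pos ((s1_mem_fib site _ e).2 rfl)] at this
    exact this
  · rfl
lemma pr2_eq_zero {S : Type} [DecidableEq S] (site : E → S) {A : Finset E} {x : V2 K E}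
    (h : ∀ e ∈ A, pr2 (fib site (site e)) x = 0) : pr2 A x = 0 :=
  Prod.ext
    (Prod.ext (s1_cut_eq_zero site fun e he => congrArg (fun z : V2 K E => z.1.1) (h e he))
      (s1_cut_eq_zero site fun e he => congrArg (fun z : V2 K E => z.1.2) (h e he)))
    (Prod.ext (s1_cut_eq_zero site fun e he => congrArg (fun z : V2 K E => z.2.1) (h e he))
      (s1_cut_eq_zero site fun e he => congrArg (fun z : V2 K E => z.2.2) (h e he)))

lemma ac_zero (θ : RingAut K) : ac θ (0 : V1 K E) = 0 := by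
  ext e <;> simp [ac]
lemma ac_add (θ : RingAut K) (x y : V1 K E) : ac θ (x + y) = ac θ x + ac θ y := by
  ext e <;> simp [ac]
lemma ac_smul (θ : RingAut K) (c : K) (x : V1 K E) : ac θ (c • x) = θ c • ac θ x := by
  ext e <;> simp [ac]
lemma ac_one (x : V1 K E) : ac 1 x = x := rfl
lemma ac_mul (θ η : RingAut K) (x : V1 K E) : ac (θ * η) x = ac θ (ac η x) := rfl
lemma ac_inv_ac (θ : RingAut K) (x : V1 K E) : ac θ⁻¹ (ac θ x) = x := by
  rw [← ac_mul, inv_mul_cancel, ac_one]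
lemma ac_ac_inv (θ : RingAut K) (x : V1 K E) : ac θ (ac θ⁻¹ x) = x := by
  rw [← ac_mul, mul_inv_cancel, ac_one]
lemma ac_pr (θ : RingAut K) (A : Finset E) (x : V1 K E) : ac θ (pr A x) = pr A (ac θ x) := by
  ext e
  · show θ (cut A x.1 e) = cut A (fun e => θ (x.1 e)) e
    rw [cut_apply, cut_apply]
    split_ifs <;> simp
  · show θ (cut A x.2 e) = cut A (fun e => θ (x.2 e)) e
    rw [cut_apply, cut_apply]
    split_ifs <;> simp
lemma s1_bb_ac (θ : RingAut K) (x y : V1 K E) : bb (ac θ x) (ac θ y) = θ (bb x y) := by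
  rw [bb_apply, bb_apply, map_sum]
  refine Finset.sum_congr rfl fun e _ => ?_
  rw [map_mul]
  rfl
lemma om_ac (θ : RingAut K) (x y : V1 K E) : om (ac θ x) (ac θ y) = θ (om x y) := by
  rw [om_apply, om_apply, s1_bb_ac, s1_bb_ac, map_add]
lemma ac2_zero (θ : RingAut K) : ac2 θ (0 : V2 K E) = 0 :=
  Prod.ext (ac_zero θ) (ac_zero θ)
lemma ac2_smul (θ : RingAut K) (c : K) (x : V2 K E) : ac2 θ (c • x) = θ c • ac2 θ x :=
  Prod.ext (ac_smul θ c x.1) (ac_smul θ c x.2)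
lemma ac2_pr2 (θ : RingAut K) (A : Finset E) (x : V2 K E) :
    ac2 θ (pr2 A x) = pr2 A (ac2 θ x) :=
  Prod.ext (ac_pr θ A x.1) (ac_pr θ A x.2)

lemma s1_om_sep (x : V1 K E) (h : ∀ y, om x y = 0) : x = 0 := by
  ext e
  · have := h (0, Pi.single e 1)
    rw [om_apply, bb_apply, bb_apply] at this
    simpa [Pi.single_apply] using this
  · have := h (Pi.single e 1, 0)
    rw [om_apply, bb_apply, bb_apply] at this
    simpa [Pi.single_apply] using this
lemma om_nondeg : (om : LinearMap.BilinForm K (V1 K E)).Nondegenerate :=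
  ⟨fun x h => s1_om_sep x h, fun x h => s1_om_sep x fun y => by rw [om_symm]; exact h y⟩
lemma s1_Ph_sep (x : V2 K E) (h : ∀ y, Ph x y = 0) : x = 0 := by
  have h1 : x.1 = 0 := by
    refine s1_om_sep x.1 fun y => ?_
    have := h (0, y)
    rw [Ph_apply] at this
    simpa using this
  have h2 : x.2 = 0 := by
    refine s1_om_sep x.2 fun y => ?_
    have := h (y, 0)
    rw [Ph_apply, h1] at this
    simpa using this
  exact Prod.ext h1 h2
lemma Ph_nondeg : (Ph : LinearMap.BilinForm K (V2 K E)).Nondegenerate :=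
  ⟨fun x h => s1_Ph_sep x h, fun x h => s1_Ph_sep x fun y => by rw [Ph_symm]; exact h y⟩
lemma finrank_spt (A : Finset E) : finrank K (spt K A) = #A := by
  let f : spt K A →ₗ[K] (A → K) :=
    { toFun := fun P a => P.1 a.1
      map_add' := fun _ _ => rfl
      map_smul' := fun _ _ => rfl }
  have hf : Function.Bijective f := by
    constructor
    · intro P Q h
      ext e
      by_cases he : e ∈ A
      · exact congrFun h ⟨e, he⟩
      · rw [P.2 e he, Q.2 e he]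
    · intro g
      refine ⟨⟨fun e => if he : e ∈ A then g ⟨e, he⟩ else 0, fun e he => dif_neg he⟩, ?_⟩
      ext a
      exact dif_pos a.2
  rw [(LinearEquiv.ofBijective f hf).finrank_eq, Module.finrank_fintype_fun_eq_card,
    Fintype.card_coe]
lemma s1_finrank_V1 : finrank K (V1 K E) = 2 * Fintype.card E := by
  rw [Module.finrank_prod, Module.finrank_fintype_fun_eq_card]
  ring
lemma finrank_V2 : finrank K (V2 K E) = 4 * Fintype.card E := by
  rw [Module.finrank_prod, s1_finrank_V1]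
  ring
lemma s1_finrank_prod {M : Type} [AddCommGroup M] [Module K M] [FiniteDimensional K M]
    (R : Submodule K M) : finrank K (R.prod R) = 2 * finrank K R := by
  let f : R.prod R →ₗ[K] R × R :=
    { toFun := fun x => (⟨x.1.1, x.2.1⟩, ⟨x.1.2, x.2.2⟩)
      map_add' := fun _ _ => rfl
      map_smul' := fun _ _ => rfl }
  have hf : Function.Bijective f := by
    constructor
    · intro x y h
      exact Subtype.ext (Prod.ext (congrArg (fun z : R × R => z.1.1) h)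
        (congrArg (fun z : R × R => z.2.1) h))
    · intro z
      exact ⟨⟨(z.1.1, z.2.1), z.1.2, z.2.2⟩, rfl⟩
  rw [(LinearEquiv.ofBijective f hf).finrank_eq, Module.finrank_prod]
  ring
lemma s1_range_cut (A : Finset E) :
    LinearMap.range (cut A : (E → K) →ₗ[K] (E → K)) = spt K A := by
  ext P
  constructor
  · rintro ⟨Q, rfl⟩ e he
    rw [cut_apply, if_neg he]
  · intro hP
    refine ⟨P, ?_⟩
    ext e
    rw [cut_apply]
    split_ifs with he
    · rfl
    · exact (hP e he).symm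
lemma finrank_range_pr (A : Finset E) :
    finrank K (LinearMap.range (pr A : V1 K E →ₗ[K] V1 K E)) = 2 * #A := by
  rw [pr, LinearMap.range_prodMap, s1_finrank_prod, s1_range_cut, finrank_spt]
lemma finrank_range_pr2 (A : Finset E) :
    finrank K (LinearMap.range (pr2 A : V2 K E →ₗ[K] V2 K E)) = 4 * #A := by
  rw [pr2, LinearMap.range_prodMap, s1_finrank_prod, finrank_range_pr]
  ring

lemma s1_iso {M : Type} [AddCommGroup M] [Module K M] [FiniteDimensional K M]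
    (B : LinearMap.BilinForm K M) (hB : B.Nondegenerate) (p p' : M →ₗ[K] M)
    (hp : ∀ x y, B (p x) y = B x (p y)) (hpp : ∀ x, p (p' x) = 0) {U : Submodule K M}
    (hs : ∀ x ∈ U, p x = x) (hi : ∀ x ∈ U, ∀ y ∈ U, B x y = 0) :
    2 * finrank K U + finrank K (LinearMap.range p') ≤ finrank K M := by
  have h1 : U ⊓ LinearMap.range p' = ⊥ := by
    rw [Submodule.eq_bot_iff]
    rintro x ⟨hx, y, rfl⟩
    rw [← hs _ hx, hpp]
  have h2 : U ⊔ LinearMap.range p' ≤ B.orthogonal U := by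
    refine sup_le (fun y hy x hx => hi x hx y hy) ?_
    rintro _ ⟨y, rfl⟩ x hx
    show B x (p' y) = 0
    rw [← hs x hx, hp, hpp, map_zero]
  have h3 := Submodule.finrank_sup_add_finrank_inf_eq U (LinearMap.range p')
  rw [h1, finrank_bot] at h3
  have h4 := Submodule.finrank_mono h2
  rw [LinearMap.BilinForm.finrank_orthogonal hB] at h4
  have h5 := Submodule.finrank_le U
  omega

/-- `U ⊔ range (pr Aᶜ)` is a direct sum inside the orthogonal of `U` -/
lemma iso_bound {A : Finset E} {U : Submodule K (V1 K E)} (hs : ∀ x ∈ U, pr A x = x)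
    (hi : ∀ x ∈ U, ∀ y ∈ U, om x y = 0) : finrank K U ≤ #A := by
  have h := s1_iso (K := K) (M := V1 K E) om om_nondeg (pr A) (pr Aᶜ) (om_pr A)
    (fun x => by rw [pr_pr, Finset.inter_compl, pr_empty]) hs hi
  rw [finrank_range_pr, s1_finrank_V1] at h
  have h2 := Finset.card_add_card_compl A
  omega
lemma iso_bound2 {A : Finset E} {U : Submodule K (V2 K E)} (hs : ∀ x ∈ U, pr2 A x = x)
    (hi : ∀ x ∈ U, ∀ y ∈ U, Ph x y = 0) : finrank K U ≤ 2 * #A := by
  have h := s1_iso (K := K) (M := V2 K E) Ph Ph_nondeg (pr2 A) (pr2 Aᶜ) (Ph_pr2 A)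
    (fun x => by rw [pr2_pr2, Finset.inter_compl, pr2_empty]) hs hi
  rw [finrank_range_pr2, finrank_V2] at h
  have h2 := Finset.card_add_card_compl A
  omega

/-- a Lagrangian of the part supported on `A` is maximal isotropic: apply `iso_bound` to
`U ⊔ span {y}` -/
lemma mem_of_orth {A : Finset E} {U : Submodule K (V1 K E)} (hs : ∀ x ∈ U, pr A x = x)
    (hi : ∀ x ∈ U, ∀ y ∈ U, om x y = 0) (hd : finrank K U = #A) {y : V1 K E} (hy : pr A y = y)
    (ho : ∀ x ∈ U, om x y = 0) : y ∈ U := by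
  have hm : ∀ z ∈ U ⊔ Submodule.span K {y}, ∃ u ∈ U, ∃ c : K, z = u + c • y := by
    intro z hz
    obtain ⟨u, hu, w, hw, rfl⟩ := Submodule.mem_sup.1 hz
    obtain ⟨c, rfl⟩ := Submodule.mem_span_singleton.1 hw
    exact ⟨u, hu, c, rfl⟩
  have h1 : finrank K (U ⊔ Submodule.span K {y} : Submodule K (V1 K E)) ≤ #A := by
    refine iso_bound ?_ ?_
    · intro z hz
      obtain ⟨u, hu, c, rfl⟩ := hm z hz
      rw [map_add, map_smul, hs u hu, hy]
    · intro z hz z' hz'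
      obtain ⟨u, hu, c, rfl⟩ := hm z hz
      obtain ⟨u', hu', c', rfl⟩ := hm z' hz'
      simp only [map_add, map_smul, LinearMap.add_apply, LinearMap.smul_apply]
      rw [hi u hu u' hu', ho u hu, om_symm y u', ho u' hu', om_self]
      simp
  have h2 : U = U ⊔ Submodule.span K {y} :=
    Submodule.eq_of_le_of_finrank_le le_sup_left (by rw [hd]; exact h1)
  rw [h2]
  exact Submodule.mem_sup_right (Submodule.mem_span_singleton_self y)

/-- double orthogonal complement -/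
lemma mem_of_orth2 {M : Submodule K (V2 K E)} {x : V2 K E}
    (h : ∀ y, (∀ m ∈ M, Ph m y = 0) → Ph y x = 0) : x ∈ M := by
  have hr : (Ph : LinearMap.BilinForm K (V2 K E)).IsRefl := fun a b hab => by
    rw [Ph_symm]
    exact hab
  rw [← LinearMap.BilinForm.orthogonal_orthogonal Ph_nondeg hr M]
  exact fun y hy => h y hy

lemma finrank_orth2 (M : Submodule K (V2 K E)) :
    finrank K M + finrank K (LinearMap.BilinForm.orthogonal Ph M) = 4 * Fintype.card E := by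
  rw [LinearMap.BilinForm.finrank_orthogonal Ph_nondeg, ← finrank_V2 (K := K)]
  have := Submodule.finrank_le M
  omega

lemma finrank_prod_self (R : Submodule K (V1 K E)) :
    finrank K (R.prod R) = 2 * finrank K R := s1_finrank_prod R

end Pool.Agent.MP_8c1b0d_co

namespace Pool.Agent.MP_8c1b0d_co
variable {K E : Type} [Field K] [CharP K 2] [Fintype E] [DecidableEq E]

namespace Sys
variable {S : Type} [DecidableEq S] (s : Sys K E S)

lemma Stable.iSup {U : Submodule K (V1 K E)} (h : s.Stable U) {θ : RingAut K}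
    (hθ : θ ∈ ⨆ v, s.G v) : ∀ x ∈ U, ac θ x ∈ U := by
  refine Subgroup.iSup_induction (C := fun θ => ∀ x ∈ U, ac θ x ∈ U) s.G hθ
    (fun v θ hθ => h v θ hθ) (fun x hx => by rwa [ac_one]) ?_
  intro a b ha hb x hx
  rw [ac_mul]; exact ha _ (hb _ hx)

def hull (X : Set (V1 K E)) : Submodule K (V1 K E) := sInf {U | s.Stable U ∧ X ⊆ U}

lemma hull_stable (X : Set (V1 K E)) : s.Stable (s.hull X) := fun v θ hθ _ hx =>
  Submodule.mem_sInf.2 fun U hU => hU.1 v θ hθ _ (Submodule.mem_sInf.1 hx U hU)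

lemma subset_hull {X : Set (V1 K E)} {x : V1 K E} (h : x ∈ X) : x ∈ s.hull X :=
  Submodule.mem_sInf.2 fun _ hU => hU.2 h

lemma hull_le {X : Set (V1 K E)} {U : Submodule K (V1 K E)} (h : s.Stable U) (hX : X ⊆ U) :
    s.hull X ≤ U := sInf_le ⟨h, hX⟩

lemma hull_ind {X : Set (V1 K E)} (P : V1 K E → Prop) (p0 : P 0)
    (pa : ∀ x y, P x → P y → P (x + y)) (ps : ∀ (c : K) x, P x → P (c • x))
    (pc : ∀ v, ∀ θ ∈ s.G v, ∀ x, P x → P (ac θ x)) (hX : ∀ x ∈ X, P x) :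
    ∀ x ∈ s.hull X, P x :=
  s.hull_le (U := ⟨⟨⟨{x | P x}, fun ha hb => pa _ _ ha hb⟩, p0⟩, fun c x hx => ps c x hx⟩) pc hX

lemma Γ_max {t : V2 K E} (h : ∀ g ∈ s.Γ, Ph g t = 0) : t ∈ s.Γ := by
  have hle : s.Γ ≤ LinearMap.BilinForm.orthogonal Ph s.Γ := fun y hy g hg => s.iso g hg y hy
  have h1 := finrank_orth2 s.Γ
  have := Submodule.eq_of_le_of_finrank_le hle (by have := s.dim; omega)
  rw [this]; exact h

lemma Γ_sat {A : Finset E} (h : ∀ e e', s.site e = s.site e' → e ∈ A → e' ∈ A) {g : V2 K E}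
    (hg : g ∈ s.Γ) : pr2 A g ∈ s.Γ := by
  rw [pr2_sites s.site h]
  exact Submodule.sum_mem _ fun v _ => s.loc v g hg

variable (L : Submodule K (V1 K E))

def W : Submodule K (V2 K E) := s.Γ ⊓ L.prod L
def R : Submodule K (V1 K E) := s.hull {x | ∃ w ∈ s.W L, w.2 = x}
def N : Submodule K (V1 K E) := LinearMap.BilinForm.orthogonal om (s.R L)
def Ws : Submodule K (V2 K E) := s.Γ ⊓ (s.N L).prod (s.N L)
def Act (v : S) : Prop := ∃ w ∈ s.W L, pr2 (fib s.site v) w ≠ 0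
def Eqv (u v : S) : Prop := ∀ y ∈ s.Ws L, pr2 (fib s.site u) y = 0 ↔ pr2 (fib s.site v) y = 0
open Classical in
noncomputable def piece (u : S) : Finset E := {e | s.Act L (s.site e) ∧ s.Eqv L u (s.site e)}
open Classical in
noncomputable def KK : Finset (Finset E) :=
  (univ.filter fun e => s.Act L (s.site e)).image fun e => s.piece L (s.site e)

variable {s L}

lemma mem_N {y : V1 K E} : y ∈ s.N L ↔ ∀ r ∈ s.R L, om r y = 0 := Iff.rfl

lemma mem_piece {u : S} {e : E} :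
    e ∈ s.piece L u ↔ s.Act L (s.site e) ∧ s.Eqv L u (s.site e) := by simp [piece]

lemma mem_KK {π : Finset E} (h : π ∈ s.KK L) : ∃ u, s.Act L u ∧ π = s.piece L u := by
  simp only [KK, mem_image, mem_filter, mem_univ, true_and] at h
  obtain ⟨e, he, rfl⟩ := h
  exact ⟨_, he, rfl⟩

lemma piece_sat (u : S) : ∀ e e', s.site e = s.site e' → e ∈ s.piece L u → e' ∈ s.piece L u := by
  intro e e' h he
  rw [mem_piece] at he ⊢
  rwa [← h]

lemma KK_disj : ∀ π ∈ s.KK L, ∀ π' ∈ s.KK L, π ≠ π' → Disjoint π π' := by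
  intro π h π' h' hne
  obtain ⟨u, -, rfl⟩ := mem_KK h
  obtain ⟨u', -, rfl⟩ := mem_KK h'
  rw [Finset.disjoint_left]
  intro e he he'
  apply hne
  rw [mem_piece] at he he'
  ext f
  rw [mem_piece, mem_piece]
  refine and_congr_right fun _ => ⟨fun k y hy => ?_, fun k y hy => ?_⟩
  · rw [he'.2 y hy, ← he.2 y hy, k y hy]
  · rw [he.2 y hy, ← he'.2 y hy, k y hy]

lemma R_stable : s.Stable (s.R L) := s.hull_stable _

lemma N_stable : s.Stable (s.N L) := by
  intro v θ hθ y hy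
  rw [mem_N] at hy ⊢
  intro r hr
  rw [← ac_ac_inv θ r, om_ac, hy _ (R_stable v _ ((s.G v).inv_mem hθ) r hr), map_zero]

lemma snd_mem {w : V2 K E} (hw : w ∈ s.W L) : w.2 ∈ s.R L := s.subset_hull ⟨w, hw, rfl⟩

lemma fib_piece {u : S} (hu : s.Act L u) : fib s.site u ∩ s.piece L u = fib s.site u := by
  refine inter_eq_left.2 fun e he => ?_
  have : s.site e = u := by simpa [fib] using he
  rw [mem_piece, this]
  exact ⟨hu, fun _ _ => Iff.rfl⟩

lemma W_supp {w : V2 K E} (hw : w ∈ s.W L) : pr2 ((s.KK L).biUnion id) w = w := by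
  have : pr2 ((s.KK L).biUnion id)ᶜ w = 0 := by
    refine pr2_eq_zero s.site fun e he => ?_
    by_contra hne
    have ha : s.Act L (s.site e) := ⟨w, hw, hne⟩
    refine mem_compl.1 he (mem_biUnion.2 ⟨s.piece L (s.site e), ?_, ?_⟩)
    · simp only [KK, mem_image, mem_filter, mem_univ, true_and]
      exact ⟨e, ha, rfl⟩
    · exact mem_piece.2 ⟨ha, fun _ _ => Iff.rfl⟩
  have h := pr2_add_compl ((s.KK L).biUnion id) w
  rwa [this, add_zero] at h

variable (hi : ∀ x ∈ L, ∀ y ∈ L, om x y = 0) (hs : s.Stable L)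
include hs

lemma R_le : s.R L ≤ L := s.hull_le hs (by rintro _ ⟨w, hw, rfl⟩; exact hw.2.2)

lemma shift_W : ∃ τ ∈ ⨆ v, s.G v, ∀ w ∈ s.W L, (ac τ w.1, ac τ w.2 + ac τ w.1) ∈ s.W L := by
  obtain ⟨τ, hτ, h⟩ := s.shift
  exact ⟨τ, hτ, fun w hw => ⟨h w hw.1, hs.iSup s hτ _ hw.2.1,
    L.add_mem (hs.iSup s hτ _ hw.2.2) (hs.iSup s hτ _ hw.2.1)⟩⟩

lemma add_mem_R {w : V2 K E} (hw : w ∈ s.W L) : w.1 + w.2 ∈ s.R L := by
  obtain ⟨τ, hτ, h⟩ := shift_W hs
  have h1 := R_stable.iSup s (Subgroup.inv_mem _ hτ) _ (snd_mem (h w hw))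
  simp only at h1
  rwa [← ac_add, ac_inv_ac, add_comm] at h1

lemma fst_mem {w : V2 K E} (hw : w ∈ s.W L) : w.1 ∈ s.R L := by
  have := (s.R L).sub_mem (add_mem_R hs hw) (snd_mem hw)
  rwa [add_sub_cancel_right] at this

lemma R_eq : s.R L = s.hull {x | ∃ w ∈ s.W L, w.1 + w.2 = x} := by
  refine le_antisymm (s.hull_le (s.hull_stable _) ?_) (s.hull_le R_stable ?_)
  · rintro _ ⟨w, hw, rfl⟩
    obtain ⟨τ, hτ, h⟩ := shift_W hs
    have h1 := (s.hull_stable {x | ∃ w ∈ s.W L, w.1 + w.2 = x}).iSup s (Subgroup.inv_mem _ hτ) _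
      (s.subset_hull ⟨_, h w hw, rfl⟩)
    have e : ac τ w.1 + (ac τ w.2 + ac τ w.1) = ac τ w.2 := by
      rw [add_comm, add_assoc]
      have : ac τ w.1 + ac τ w.1 = 0 := by
        rw [← two_smul K, show (2 : K) = 0 from CharTwo.two_eq_zero, zero_smul]
      rw [this, add_zero]
    simp only [e, ac_inv_ac] at h1
    exact h1
  · rintro _ ⟨w, hw, rfl⟩; exact add_mem_R hs hw

include hi

lemma R_le_N : s.R L ≤ s.N L := fun y hy r hr => hi r (R_le hs hr) y (R_le hs hy)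

lemma W_le_Ws : s.W L ≤ s.Ws L := fun _ hw =>
  ⟨hw.1, R_le_N hi hs (fst_mem hs hw), R_le_N hi hs (snd_mem hw)⟩

omit hi hs in
lemma Ph_Ws {y t : V2 K E} (hy : y ∈ s.Ws L) (h1 : t.1 ∈ s.R L) (h2 : t.2 ∈ s.R L) :
    Ph y t = 0 := by
  rw [Ph_apply, om_symm y.2, om_symm y.1, om_symm y.1, hy.2.2 _ h1, hy.2.1 _ h2, hy.2.1 _ h1]
  simp

omit hi in
lemma Ph_loc {v : S} {w y : V2 K E} (hw : w ∈ s.W L) (hy : y ∈ s.Ws L) {θ : RingAut K}
    (hθ : θ ∈ s.G v) : Ph (pr2 (fib s.site v) y) (ac2 θ (pr2 (fib s.site v) w)) = 0 := by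
  rw [ac2_pr2, Ph_pr2, pr2_pr2, inter_self]
  have h1 : Ph y (ac2 θ w) = 0 :=
    Ph_Ws hy (R_stable v θ hθ _ (fst_mem hs hw)) (R_stable v θ hθ _ (snd_mem hw))
  have h2 := s.iso y hy.1 _ (s.out v θ hθ w hw.1)
  rw [← pr2_add_compl (fib s.site v) (ac2 θ w), map_add, h2, add_zero] at h1
  exact h1

lemma line_Ws {v : S} {w y : V2 K E} (hw : w ∈ s.W L) (hne : pr2 (fib s.site v) w ≠ 0)
    (hy : y ∈ s.Ws L) : ∃ c : K, pr2 (fib s.site v) y = c • pr2 (fib s.site v) w :=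
  s.line v _ (s.loc v w hw.1) _ (s.loc v y hy.1) (by rw [pr2_pr2, inter_self])
    (by rw [pr2_pr2, inter_self]) hne (fun _ hθ => Ph_loc hs hw (W_le_Ws hi hs hw) hθ)
    (fun _ hθ => Ph_loc hs hw hy hθ)

lemma P_line {u : S} {w y : V2 K E} (hw : w ∈ s.W L) (hne : pr2 (fib s.site u) w ≠ 0)
    (hy : y ∈ s.Ws L) : ∃ c : K, pr2 (s.piece L u) y = c • pr2 (s.piece L u) w := by
  obtain ⟨c, hc⟩ := line_Ws hi hs hw hne hy
  refine ⟨c, ?_⟩
  have hm : y - c • w ∈ s.Ws L := (s.Ws L).sub_mem hy ((s.Ws L).smul_mem _ (W_le_Ws hi hs hw))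
  have h0 : pr2 (fib s.site u) (y - c • w) = 0 := by rw [map_sub, map_smul, hc, sub_self]
  have := pr2_eq_zero s.site (A := s.piece L u) (x := y - c • w) fun e he =>
    ((mem_piece.1 he).2 _ hm).1 h0
  rwa [map_sub, map_smul, sub_eq_zero] at this

lemma exists_sep {u v : S} (hu : s.Act L u) (hv : ¬ (s.Act L v ∧ s.Eqv L u v)) :
    ∃ y ∈ s.Ws L, pr2 (fib s.site v) y = 0 ∧ pr2 (fib s.site u) y ≠ 0 := by
  obtain ⟨w, hw, hne⟩ := hu
  by_cases ha : s.Act L v
  · by_contra hn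
    push Not at hn
    obtain ⟨w', hw', hne'⟩ := ha
    refine hv ⟨⟨w', hw', hne'⟩, fun y hy => ⟨fun h => ?_, hn y hy⟩⟩
    have key : ∀ t ∈ s.Ws L, ∃ c : K, pr2 (fib s.site v) t = c • pr2 (fib s.site v) w' ∧
        pr2 (fib s.site u) t = c • pr2 (fib s.site u) w' := by
      intro t ht
      obtain ⟨c, hc⟩ := line_Ws hi hs hw' hne' ht
      refine ⟨c, hc, ?_⟩
      have := hn (t - c • w') ((s.Ws L).sub_mem ht ((s.Ws L).smul_mem _ (W_le_Ws hi hs hw')))
        (by rw [map_sub, map_smul, hc, sub_self])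
      rwa [map_sub, map_smul, sub_eq_zero] at this
    obtain ⟨c, h1, h2⟩ := key y hy
    obtain ⟨c', -, h3⟩ := key w (W_le_Ws hi hs hw)
    rw [h] at h2
    rcases smul_eq_zero.1 h2.symm with k | k
    · rw [h1, k, zero_smul]
    · rw [k, smul_zero] at h3; exact absurd h3 hne
  · refine ⟨w, W_le_Ws hi hs hw, ?_, hne⟩
    by_contra k
    exact ha ⟨w, hw, k⟩

lemma stabW {u v : S} (hu : s.Act L u) (hv : ¬ (s.Act L v ∧ s.Eqv L u v)) {θ : RingAut K}
    (hθ : θ ∈ s.G v) {w : V2 K E} (hw : w ∈ s.W L) :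
    ∃ w' ∈ s.W L, ac2 θ (pr2 (s.piece L u) w) = pr2 (s.piece L u) w' := by
  obtain ⟨y, hy, h0, h1⟩ := exists_sep hi hs hu hv
  obtain ⟨w0, hw0, hne⟩ := id hu
  obtain ⟨a, ha⟩ := P_line hi hs hw0 hne hy
  have a0 : a ≠ 0 := by
    rintro rfl
    apply h1
    rw [← fib_piece hu, ← pr2_pr2, ha, zero_smul, map_zero]
  have ht : ac2 θ y ∈ s.Ws L := by
    refine ⟨?_, N_stable v θ hθ _ hy.2.1, N_stable v θ hθ _ hy.2.2⟩
    have := pr2_add_compl (fib s.site v) (ac2 θ y)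
    rw [← ac2_pr2, h0, ac2_zero, zero_add] at this
    rw [← this]; exact s.out v θ hθ y hy.1
  obtain ⟨b, hb⟩ := P_line hi hs hw0 hne ht
  obtain ⟨c, hc⟩ := P_line hi hs hw0 hne (W_le_Ws hi hs hw)
  rw [← ac2_pr2, ha, ac2_smul] at hb
  have ta : θ a ≠ 0 := fun k => a0 (θ.injective (k.trans (map_zero θ).symm))
  refine ⟨(θ c * ((θ a)⁻¹ * b)) • w0, (s.W L).smul_mem _ hw0, ?_⟩
  rw [hc, ac2_smul, map_smul, mul_smul, mul_smul, ← hb, smul_smul (θ a)⁻¹, inv_mul_cancel₀ ta,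
    one_smul]

lemma step3 (f : V2 K E →ₗ[K] V1 K E) (f1 : ∀ A x, f (pr2 A x) = pr A (f x))
    (f2 : ∀ θ x, f (ac2 θ x) = ac θ (f x)) (f3 : ∀ w ∈ s.W L, f w ∈ L)
    (hR : s.R L = s.hull {x | ∃ w ∈ s.W L, f w = x}) :
    ∀ r ∈ s.R L, ∀ π ∈ s.KK L, ∀ w ∈ s.W L, om (pr π (f w)) r = 0 := by
  have := s.hull_ind (X := {x | ∃ w ∈ s.W L, f w = x})
    (fun r => r ∈ L ∧ ∀ π ∈ s.KK L, ∀ w ∈ s.W L, om (pr π (f w)) r = 0)
    ⟨L.zero_mem, fun _ _ _ _ => map_zero _⟩
    (fun x y hx hy => ⟨L.add_mem hx.1 hy.1, fun π hπ w hw => by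
      rw [map_add, hx.2 π hπ w hw, hy.2 π hπ w hw, add_zero]⟩)
    (fun c x hx => ⟨L.smul_mem c hx.1, fun π hπ w hw => by
      rw [map_smul, hx.2 π hπ w hw, smul_zero]⟩) ?_ ?_
  · intro r hr; rw [hR] at hr; exact (this r hr).2
  · intro v θ hθ r hr
    have hL := hs v θ hθ r hr.1
    refine ⟨hL, ?_⟩
    have far : ∀ u, s.Act L u → s.piece L u ∈ s.KK L → ¬ (s.Act L v ∧ s.Eqv L u v) →
        ∀ w ∈ s.W L, om (pr (s.piece L u) (f w)) (ac θ r) = 0 := by
      intro u hu hK hv w hw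
      obtain ⟨w', hw', e⟩ := stabW hi hs hu hv ((s.G v).inv_mem hθ) hw
      rw [← ac_ac_inv θ (pr (s.piece L u) (f w)), om_ac, ← f1, ← f2, e, f1, hr.2 _ hK w' hw',
        map_zero]
    intro π hπ w hw
    obtain ⟨u, hu, rfl⟩ := mem_KK hπ
    by_cases hv : s.Act L v ∧ s.Eqv L u v
    · have h0 := hi _ (f3 w hw) _ hL
      rw [← W_supp hw, f1, pr_biUnion KK_disj, map_sum, LinearMap.sum_apply,
        ← add_sum_erase _ _ hπ, sum_eq_zero, add_zero] at h0
      · exact h0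
      intro π' hπ'
      obtain ⟨u', hu', rfl⟩ := mem_KK (mem_of_mem_erase hπ')
      refine far u' hu' (mem_of_mem_erase hπ') (fun k => ne_of_mem_erase hπ' ?_) w hw
      ext e
      rw [mem_piece, mem_piece]
      refine and_congr_right fun _ => ⟨fun j y hy => ?_, fun j y hy => ?_⟩
      · rw [hv.2 y hy, ← k.2 y hy, j y hy]
      · rw [k.2 y hy, ← hv.2 y hy, j y hy]
    · exact far u hu hπ hv w hw
  · rintro _ ⟨w', hw', rfl⟩
    refine ⟨f3 w' hw', fun π hπ w hw => ?_⟩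
    obtain ⟨u, ⟨w0, hw0, hne⟩, rfl⟩ := mem_KK hπ
    obtain ⟨c, hc⟩ := P_line hi hs hw0 hne (W_le_Ws hi hs hw)
    obtain ⟨c', hc'⟩ := P_line hi hs hw0 hne (W_le_Ws hi hs hw')
    rw [← inter_self (s.piece L u), ← pr_pr, om_pr, ← f1, ← f1, hc, hc', map_smul, map_smul,
      map_smul, map_smul, LinearMap.smul_apply, om_self, smul_zero, smul_zero]

lemma part_N {π : Finset E} (hπ : π ∈ s.KK L) {w : V2 K E} (hw : w ∈ s.W L) :
    pr π w.2 ∈ s.N L := fun r hr => by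
  have := step3 hi hs (LinearMap.snd K _ _) (fun _ _ => rfl) (fun _ _ => rfl)
    (fun w hw => hw.2.2) rfl r hr π hπ w hw
  rw [om_symm] at this
  exact this

lemma pr_N {π : Finset E} (hπ : π ∈ s.KK L) : ∀ r ∈ s.R L, pr π r ∈ s.N L :=
  s.hull_ind (fun r => pr π r ∈ s.N L) (by rw [map_zero]; exact zero_mem _)
    (fun x y hx hy => by rw [map_add]; exact add_mem hx hy)
    (fun c x hx => by rw [map_smul]; exact Submodule.smul_mem _ _ hx)
    (fun v θ hθ x hx => by rw [← ac_pr]; exact N_stable v θ hθ _ hx)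
    (by rintro _ ⟨w, hw, rfl⟩; exact part_N hi hs hπ hw)

lemma R_iso {π : Finset E} (hπ : π ∈ s.KK L) :
    ∀ x ∈ s.R L, ∀ y ∈ s.R L, om (pr π x) (pr π y) = 0 := by
  intro x hx y hy
  rw [om_pr, pr_pr, inter_self]
  exact pr_N hi hs hπ y hy x hx

omit hi hs in
lemma R_tot : ∀ r ∈ s.R L, pr ((s.KK L).biUnion id) r = r :=
  s.hull_ind (fun r => pr ((s.KK L).biUnion id) r = r) (map_zero _)
    (fun x y hx hy => by rw [map_add, hx, hy]) (fun c x hx => by rw [map_smul, hx])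
    (fun v θ _ x hx => by rw [← ac_pr, hx])
    (by rintro _ ⟨w, hw, rfl⟩; exact congrArg Prod.snd (W_supp hw))

end Sys
end Pool.Agent.MP_8c1b0d_co

namespace Pool.Agent.MP_8c1b0d_co
variable {K E : Type} [Field K] [CharP K 2] [Fintype E] [DecidableEq E]

lemma finrank_inf_ker {M : Type} [AddCommGroup M] [Module K M] [FiniteDimensional K M]
    (U : Submodule K M) (φ : M →ₗ[K] K) :
    finrank K U ≤ finrank K (U ⊓ LinearMap.ker φ : Submodule K M) + 1 := by
  have h1 := LinearMap.finrank_range_add_finrank_ker (φ.domRestrict U)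
  have h2 : finrank K (LinearMap.range (φ.domRestrict U)) ≤ 1 := by
    simpa using Submodule.finrank_le (LinearMap.range (φ.domRestrict U))
  have h3 : finrank K (LinearMap.ker (φ.domRestrict U)) =
      finrank K (U ⊓ LinearMap.ker φ : Submodule K M) := by
    rw [LinearMap.ker_domRestrict, ← Submodule.finrank_map_subtype_eq, Submodule.map_comap_subtype]
  omega

lemma fr_mono {U U' : Submodule K (V2 K E)} (h : U ≤ U') : finrank K U ≤ finrank K U' :=
  Submodule.finrank_mono h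

lemma fr_sup (U U' : Submodule K (V2 K E)) : finrank K (U ⊔ U' : Submodule K (V2 K E)) +
    finrank K (U ⊓ U' : Submodule K (V2 K E)) = finrank K U + finrank K U' :=
  Submodule.finrank_sup_add_finrank_inf_eq U U'

namespace Sys
variable {S : Type} [DecidableEq S] {s : Sys K E S} {L : Submodule K (V1 K E)}

lemma Γ_bound {A : Finset E} (h : ∀ e e', s.site e = s.site e' → e ∈ A → e' ∈ A) :
    finrank K (s.Γ.map (pr2 A)) ≤ 2 * #A := by
  refine iso_bound2 ?_ ?_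
  · rintro _ ⟨g, -, rfl⟩; rw [pr2_pr2, inter_self]
  · rintro _ ⟨g, hg, rfl⟩ _ ⟨g', hg', rfl⟩
    exact s.iso _ (s.Γ_sat h hg) _ (s.Γ_sat h hg')

lemma orth_le_Ws {t : V2 K E} (h : ∀ m ∈ (s.R L).prod (s.R L) ⊔ s.Γ, Ph m t = 0) : t ∈ s.Ws L := by
  have h1 : ∀ r ∈ s.R L, om r t.1 = 0 := fun r hr => by
    have := h (0, r) (Submodule.mem_sup_left ⟨zero_mem _, hr⟩)
    simpa [Ph_apply] using this
  refine ⟨s.Γ_max fun g hg => h g (Submodule.mem_sup_right hg), h1, fun r hr => ?_⟩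
  have := h (r, 0) (Submodule.mem_sup_left ⟨hr, zero_mem _⟩)
  simpa [Ph_apply, h1 r hr] using this

variable (hi : ∀ x ∈ L, ∀ y ∈ L, om x y = 0) (hs : s.Stable L)
include hi hs

lemma key {u : S} {w : V2 K E} (hw : w ∈ s.W L) (hne : pr2 (fib s.site u) w ≠ 0) :
    LinearMap.range (pr2 (s.piece L u)) ⊓ LinearMap.ker (Ph (pr2 (s.piece L u) w)) ≤
      ((s.R L).map (pr (s.piece L u))).prod ((s.R L).map (pr (s.piece L u))) ⊔
        s.Γ.map (pr2 (s.piece L u)) := by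
  rintro _ ⟨⟨y, rfl⟩, hy⟩
  have : pr2 (s.piece L u) y ∈ (s.R L).prod (s.R L) ⊔ s.Γ := by
    refine mem_of_orth2 fun t ht => ?_
    obtain ⟨c, hc⟩ := P_line hi hs hw hne (orth_le_Ws ht)
    rw [← inter_self (s.piece L u), ← pr2_pr2, ← Ph_pr2, hc, map_smul, LinearMap.smul_apply,
      LinearMap.mem_ker.1 hy, smul_zero]
  obtain ⟨a, ha, g, hg, e⟩ := Submodule.mem_sup.1 this
  have e' : pr2 (s.piece L u) y = pr2 (s.piece L u) a + pr2 (s.piece L u) g := by
    rw [← map_add, e, pr2_pr2, inter_self]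
  rw [e']
  exact Submodule.add_mem_sup ⟨⟨_, ha.1, rfl⟩, ⟨_, ha.2, rfl⟩⟩ ⟨g, hg, rfl⟩

lemma key_dim {u : S} (hu : s.Act L u) : 4 * #(s.piece L u) ≤ finrank K
    (((s.R L).map (pr (s.piece L u))).prod ((s.R L).map (pr (s.piece L u))) ⊔
      s.Γ.map (pr2 (s.piece L u)) : Submodule K (V2 K E)) + 1 := by
  obtain ⟨w, hw, hne⟩ := hu
  have h1 := finrank_inf_ker (LinearMap.range (pr2 (s.piece L u))) (Ph (pr2 (s.piece L u) w))
  have h2 := fr_mono (key hi hs hw hne)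
  rw [finrank_range_pr2] at h1
  omega

lemma dim_one {π : Finset E} (hπ : π ∈ s.KK L) : finrank K ((s.R L).map (pr π)) = #π ∧
    finrank K (s.Γ ⊓ ((s.R L).map (pr π)).prod ((s.R L).map (pr π)) : Submodule K (V2 K E)) = 1 := by
  have hiso := R_iso hi hs hπ
  obtain ⟨u, hu, rfl⟩ := mem_KK hπ
  have h1 := key_dim hi hs hu
  set π := s.piece L u with hπ'
  set U := (s.R L).map (pr π) with hU
  have h2 : finrank K U ≤ #π := by
    refine iso_bound ?_ ?_
    · rintro _ ⟨g, -, rfl⟩; rw [pr_pr, inter_self]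
    · rintro _ ⟨g, hg, rfl⟩ _ ⟨g', hg', rfl⟩; exact hiso g hg g' hg'
  have h3 := Γ_bound (s := s) (piece_sat (L := L) u)
  have h4 := fr_sup (U.prod U) (s.Γ.map (pr2 π))
  have h5 : U.prod U ⊓ s.Γ.map (pr2 π) = s.Γ ⊓ U.prod U := by
    ext g
    refine ⟨fun h => ⟨?_, h.1⟩, fun h => ⟨h.2, g, h.1, ?_⟩⟩
    · obtain ⟨g', hg', rfl⟩ := h.2
      exact s.Γ_sat (piece_sat u) hg'
    · obtain ⟨⟨a, -, ha⟩, ⟨b, -, hb⟩⟩ := h.2
      refine Prod.ext ?_ ?_
      · rw [pr2_fst, ← ha, pr_pr, inter_self]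
      · rw [pr2_snd, ← hb, pr_pr, inter_self]
  have h6 : 0 < finrank K (s.Γ ⊓ U.prod U : Submodule K (V2 K E)) := by
    obtain ⟨w, hw, hne⟩ := id hu
    rw [finrank_pos_iff, Submodule.nontrivial_iff_ne_bot, Submodule.ne_bot_iff]
    refine ⟨pr2 π w, ⟨s.Γ_sat (piece_sat u) hw.1, ⟨_, fst_mem hs hw, rfl⟩, ⟨_, snd_mem hw, rfl⟩⟩,
      fun k => hne ?_⟩
    rw [← fib_piece hu, ← pr2_pr2, k, map_zero]
  rw [h5, finrank_prod_self] at h4
  rw [← hπ'] at h3
  omega

lemma cnt : finrank K (s.W L) + 2 * ∑ π ∈ s.KK L, #π ≤ 2 * finrank K (s.R L) + #(s.KK L) := by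
  classical
  have h1 := finrank_orth2 ((s.R L).prod (s.R L) ⊔ s.Γ)
  have h2 := fr_sup ((s.R L).prod (s.R L)) s.Γ
  have h3 : s.W L ≤ (s.R L).prod (s.R L) ⊓ s.Γ := fun w hw => ⟨⟨fst_mem hs hw, snd_mem hw⟩, hw.1⟩
  have h4 := fr_mono h3
  have hz : ∀ π ∈ s.KK L, ∃ z : V2 K E, ∀ y ∈ s.Ws L, ∃ c : K, pr2 π y = c • z := by
    intro π hπ
    obtain ⟨u, ⟨w, hw, hne⟩, rfl⟩ := mem_KK hπ
    exact ⟨_, fun y hy => P_line hi hs hw hne hy⟩
  choose! z hz using hz
  have sat : ∀ e e', s.site e = s.site e' → e ∈ ((s.KK L).biUnion id)ᶜ →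
      e' ∈ ((s.KK L).biUnion id)ᶜ := by
    intro e e' h he
    rw [mem_compl] at he ⊢
    intro k
    obtain ⟨π, hπ, hk⟩ := mem_biUnion.1 k
    obtain ⟨u, -, rfl⟩ := mem_KK hπ
    exact he (mem_biUnion.2 ⟨_, hπ, piece_sat u _ _ h.symm hk⟩)
  have h5 : LinearMap.BilinForm.orthogonal Ph ((s.R L).prod (s.R L) ⊔ s.Γ) ≤
      Submodule.span K ((s.KK L).image z : Set (V2 K E)) ⊔
        s.Γ.map (pr2 ((s.KK L).biUnion id)ᶜ) := by
    intro t ht
    have ht' := orth_le_Ws ht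
    rw [← pr2_add_compl ((s.KK L).biUnion id) t]
    refine Submodule.add_mem_sup ?_ ⟨t, ht'.1, rfl⟩
    rw [pr2_biUnion KK_disj]
    refine Submodule.sum_mem _ fun π hπ => ?_
    obtain ⟨c, hc⟩ := hz π hπ t ht'
    rw [hc]
    exact Submodule.smul_mem _ _ (Submodule.subset_span (mem_coe.2 (mem_image_of_mem z hπ)))
  have h6 := fr_mono h5
  have h7 := fr_sup
    (Submodule.span K ((s.KK L).image z : Set (V2 K E))) (s.Γ.map (pr2 ((s.KK L).biUnion id)ᶜ))
  have h8 := finrank_span_finset_le_card (R := K) ((s.KK L).image z)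
  have h9 := card_image_le (s := s.KK L) (f := z)
  have h10 := Γ_bound (s := s) sat
  have h11 := card_add_card_compl ((s.KK L).biUnion id)
  have h12 : #((s.KK L).biUnion id) = ∑ π ∈ s.KK L, #π :=
    card_biUnion fun a ha b hb h => KK_disj a ha b hb h
  have h13 := s.dim
  rw [finrank_prod_self] at h2
  unfold Set.finrank at h8
  omega

lemma lam {π : Finset E} (hπ : π ∈ s.KK L) (l : V1 K E →ₗ[K] K)
    (hl : ∀ v, ∀ θ ∈ s.G v, ∀ x ∈ s.R L, l (ac θ (pr π x)) = θ (l (pr π x)))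
    (h0 : ∀ g ∈ s.Γ, g.1 ∈ (s.R L).map (pr π) → g.2 ∈ (s.R L).map (pr π) → l g.1 = 0) :
    ∀ x ∈ s.R L, l (pr π x) = 0 := by
  classical
  have hdim := (dim_one hi hs hπ).1
  obtain ⟨u, hu, rfl⟩ := mem_KK hπ
  have h1 := key_dim hi hs hu
  set π := s.piece L u with hπ'
  set U := (s.R L).map (pr π) with hU
  have z1 : ∀ w ∈ s.W L, l (pr π w.1) = 0 := fun w hw =>
    h0 (pr2 π w) (s.Γ_sat (piece_sat u) hw.1) ⟨_, fst_mem hs hw, rfl⟩ ⟨_, snd_mem hw, rfl⟩
  by_cases hz : ∀ w ∈ s.W L, l (pr π w.2) = 0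
  · exact fun x hx => (s.hull_ind (fun r => r ∈ s.R L ∧ l (pr π r) = 0) ⟨zero_mem _, by simp⟩
      (fun x y hx hy => ⟨add_mem hx.1 hy.1, by rw [map_add, map_add, hx.2, hy.2, add_zero]⟩)
      (fun c x hx => ⟨Submodule.smul_mem _ _ hx.1, by rw [map_smul, map_smul, hx.2, smul_zero]⟩)
      (fun v θ hθ x hx => ⟨R_stable v θ hθ x hx.1, by
        rw [← ac_pr, hl v θ hθ x hx.1, hx.2, map_zero]⟩)
      (by rintro _ ⟨w, hw, rfl⟩; exact ⟨snd_mem hw, hz w hw⟩) x hx).2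
  exfalso
  obtain ⟨w, hw, hn⟩ : ∃ w ∈ s.W L, l (pr π w.2) = 1 := by
    push Not at hz
    obtain ⟨w, hw, hn⟩ := hz
    refine ⟨(l (pr π w.2))⁻¹ • w, (s.W L).smul_mem _ hw, ?_⟩
    rw [Prod.smul_snd, map_smul, map_smul, smul_eq_mul, inv_mul_cancel₀ hn]
  set U0 : Submodule K (V1 K E) := U ⊓ LinearMap.ker l with hU0
  set M : Submodule K (V2 K E) := U0.prod U0 ⊔ s.Γ.map (pr2 π) with hM
  have m1 : pr π w.1 ∈ U := ⟨_, fst_mem hs hw, rfl⟩
  have m2 : pr π w.2 ∈ U := ⟨_, snd_mem hw, rfl⟩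
  have d0 : finrank K U0 < finrank K U := by
    refine Submodule.finrank_lt_finrank_of_lt (lt_of_le_of_ne inf_le_left fun k => ?_)
    have : pr π w.2 ∈ U0 := k ▸ m2
    exact one_ne_zero (hn.symm.trans this.2)
  have zM : pr2 π w ∈ M := Submodule.mem_sup_right ⟨w, hw.1, rfl⟩
  have wne : pr2 (fib s.site u) w ≠ 0 := by
    intro k
    have := pr2_eq_zero s.site (A := π) (x := w) fun e he =>
      ((mem_piece.1 he).2 _ (W_le_Ws hi hs hw)).1 k
    have h2 : pr π w.2 = 0 := congrArg Prod.snd this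
    rw [h2, map_zero] at hn
    exact zero_ne_one hn
  have conj : ∀ v, ∀ θ ∈ s.G v, pr2 π (ac2 θ (pr2 (fib s.site v) w)) ∈ M := by
    intro v θ hθ
    have a1 : pr2 π (ac2 θ w) - pr2 π w ∈ U0.prod U0 := by
      refine ⟨⟨U.sub_mem ⟨_, R_stable v θ hθ _ (fst_mem hs hw), rfl⟩ m1, ?_⟩,
        ⟨U.sub_mem ⟨_, R_stable v θ hθ _ (snd_mem hw), rfl⟩ m2, ?_⟩⟩
      · show l (pr π (ac θ w.1) - pr π w.1) = 0
        rw [map_sub, ← ac_pr, hl v θ hθ _ (fst_mem hs hw), z1 w hw, map_zero, sub_self]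
      · show l (pr π (ac θ w.2) - pr π w.2) = 0
        rw [map_sub, ← ac_pr, hl v θ hθ _ (snd_mem hw), hn, map_one, sub_self]
    have a2 : pr2 π (pr2 (fib s.site v)ᶜ (ac2 θ w)) ∈ M :=
      Submodule.mem_sup_right ⟨_, s.out v θ hθ w hw.1, rfl⟩
    have e : pr2 π (ac2 θ (pr2 (fib s.site v) w)) = (pr2 π (ac2 θ w) - pr2 π w) + pr2 π w -
        pr2 π (pr2 (fib s.site v)ᶜ (ac2 θ w)) := by
      rw [sub_add_cancel, ← map_sub, ac2_pr2]
      congr 1
      exact eq_sub_of_add_eq (pr2_add_compl _ _)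
    rw [e]
    exact M.sub_mem (M.add_mem (Submodule.mem_sup_left a1) zM) a2
  have dd : (pr π w.2, pr π w.2) ∈ M := by
    have : (pr π w.2, pr π w.2) ∈ M ⊔ LinearMap.range (pr2 πᶜ) := by
      refine mem_of_orth2 fun y hy => ?_
      have ys : pr2 π y = y := by
        have : pr2 πᶜ y = 0 := by
          refine Ph_nondeg.1 _ fun t => ?_
          rw [Ph_pr2, Ph_symm]
          exact hy _ (Submodule.mem_sup_right ⟨t, rfl⟩)
        have h := pr2_add_compl π y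
        rwa [this, add_zero] at h
      have yΓ : y ∈ s.Γ := s.Γ_max fun g hg => by
        rw [← ys, ← Ph_pr2]
        exact hy _ (Submodule.mem_sup_left (Submodule.mem_sup_right ⟨g, hg, rfl⟩))
      rw [← ys, pr2_sites s.site (piece_sat u), map_sum, LinearMap.sum_apply]
      refine sum_eq_zero fun v hv => ?_
      obtain ⟨e, he, rfl⟩ := mem_image.1 hv
      have he' := mem_piece.1 he
      have ne' : pr2 (fib s.site (s.site e)) w ≠ 0 := fun k =>
        wne ((he'.2 _ (W_le_Ws hi hs hw)).2 k)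
      obtain ⟨c, hc⟩ := s.line (s.site e) _ (s.loc _ w hw.1) _ (s.loc _ y yΓ)
        (by rw [pr2_pr2, inter_self]) (by rw [pr2_pr2, inter_self]) ne'
        (fun _ hθ => Ph_loc hs hw (W_le_Ws hi hs hw) hθ) (fun θ hθ => by
          have := hy _ (Submodule.mem_sup_left (conj _ θ hθ))
          rw [Ph_pr2, ys, Ph_symm] at this
          rw [ac2_pr2, Ph_pr2, pr2_pr2, inter_self, ← ac2_pr2, this])
      have hf : fib s.site (s.site e) ∩ π = fib s.site (s.site e) :=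
        inter_eq_left.2 fun e' h' => piece_sat u e e' (by simpa [fib, eq_comm] using h') he
      rw [← inter_self (fib s.site (s.site e)), ← pr2_pr2, Ph_pr2, hc, map_smul,
        LinearMap.smul_apply, Ph_apply]
      simp only [pr2_fst, pr2_snd, pr_pr, hf, om_self, zero_add, CharTwo.add_self_eq_zero,
        smul_zero]
    obtain ⟨a, ha, _, ⟨t, rfl⟩, e⟩ := Submodule.mem_sup.1 this
    have as : pr2 π a = a := by
      obtain ⟨b, hb, _, ⟨g, -, rfl⟩, rfl⟩ := Submodule.mem_sup.1 ha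
      obtain ⟨⟨⟨b1, -, e1⟩, -⟩, ⟨⟨b2, -, e2⟩, -⟩⟩ := hb
      rw [map_add, pr2_pr2, inter_self]
      congr 1
      refine Prod.ext ?_ ?_
      · rw [pr2_fst, ← e1, pr_pr, inter_self]
      · rw [pr2_snd, ← e2, pr_pr, inter_self]
    have e2 := congrArg (pr2 π) e
    rw [map_add, pr2_pr2, inter_compl, pr2_empty, add_zero, as] at e2
    have e3 : pr2 π (pr π w.2, pr π w.2) = (pr π w.2, pr π w.2) :=
      Prod.ext (by rw [pr2_fst, pr_pr, inter_self]) (by rw [pr2_snd, pr_pr, inter_self])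
    rw [← e3, ← e2]; exact ha
  have d2 : ((0 : V1 K E), pr π w.2) ∈ M := by
    have : ((0 : V1 K E), pr π w.2) = pr2 π w - (pr π w.1, 0) := by
      refine Prod.ext ?_ ?_ <;> simp [pr2_fst, pr2_snd]
    rw [this]
    exact M.sub_mem zM (Submodule.mem_sup_left ⟨⟨m1, z1 w hw⟩, zero_mem _⟩)
  have d1 : (pr π w.2, (0 : V1 K E)) ∈ M := by
    have := M.sub_mem dd d2
    simpa using this
  have hle : U.prod U ⊔ s.Γ.map (pr2 π) ≤ M := by
    refine sup_le ?_ le_sup_right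
    rintro ⟨a, b⟩ ⟨ha, hb⟩
    have k : ∀ x ∈ U, x - l x • pr π w.2 ∈ U0 := fun x hx =>
      ⟨U.sub_mem hx (U.smul_mem _ m2), by
        show l (x - l x • pr π w.2) = 0
        rw [map_sub, map_smul, hn, smul_eq_mul, mul_one, sub_self]⟩
    have e : (a, b) = (a - l a • pr π w.2, b - l b • pr π w.2) + l a • (pr π w.2, (0 : V1 K E)) +
        l b • ((0 : V1 K E), pr π w.2) := by
      refine Prod.ext ?_ ?_ <;> simp
    rw [e]
    exact M.add_mem (M.add_mem (Submodule.mem_sup_left ⟨k a ha, k b hb⟩) (M.smul_mem _ d1))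
      (M.smul_mem _ d2)
  have f1 := fr_mono hle
  have f2 := fr_sup (U0.prod U0) (s.Γ.map (pr2 π))
  have f3 := Γ_bound (s := s) (piece_sat (L := L) u)
  rw [finrank_prod_self] at f2
  rw [← hπ'] at f3
  rw [← hM] at f2
  omega

/-- STRUCTURE THEOREM -/
noncomputable def pieces : s.Pieces L where
  𝒦 := s.KK L
  R := s.R L
  le := R_le hs
  sat π hπ := by obtain ⟨u, -, rfl⟩ := mem_KK hπ; exact piece_sat u
  disj := KK_disj
  iso _ hπ := R_iso hi hs hπ
  dim _ hπ := (dim_one hi hs hπ).1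
  tot := R_tot
  cnt := cnt hi hs
  one _ hπ := (dim_one hi hs hπ).2
  full π hπ := by
    obtain ⟨u, ⟨w, hw, hne⟩, rfl⟩ := mem_KK hπ
    exact ⟨w, hw.1, fst_mem hs hw, snd_mem hw, fun e he k =>
      hne (((mem_piece.1 he).2 _ (W_le_Ws hi hs hw)).2 k)⟩
  lam _ hπ := lam hi hs hπ

end Sys
end Pool.Agent.MP_8c1b0d_co
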