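import Mathlib

set_option autoImplicit false
open SimpleGraph

namespace Pool.Agent.MP_8c1b0d_co

variable {V : Type}

def Closed {α : Type} (H : SimpleGraph α) (P : α → Prop) : Prop :=
  ∀ x y, H.Adj x y → P x → P y

lemma Closed.reach {α : Type} {H : SimpleGraph α} {P : α → Prop} (h : Closed H P) {x y : α}
    (hr : H.Reachable x y) (hx : P x) : P y := by
  obtain ⟨p⟩ := hr
  induction p with
  | nil => exact hx
  | cons ha _ ih => exact ih (h _ _ ha hx)

lemma Closed.iff {α : Type} {H : SimpleGraph α} {P : α → Prop} (h : Closed H P) {x y : α}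
    (hr : H.Adj x y) : P x ↔ P y := ⟨h _ _ hr, h _ _ hr.symm⟩

lemma closed_reach {α : Type} (H : SimpleGraph α) (x : α) : Closed H (H.Reachable x) :=
  fun _ _ ha hx => hx.trans ha.reachable

structure Tour (H : SimpleGraph (V × Bool)) (S : Set V) : Prop where
  deg : ∀ x : V × Bool, x.1 ∈ S → ∃ p q, p ≠ q ∧ ∀ r, H.Adj x r ↔ r = p ∨ r = q
  supp : ∀ x y, H.Adj x y → x.1 ∈ S
  conn : ∀ P, Closed H P → ∀ x y : V × Bool, x.1 ∈ S → y.1 ∈ S → P x → P y

lemma isCycles_of_deg {α : Type} {H : SimpleGraph α}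
    (h : ∀ x y, H.Adj x y → ∃ p q, p ≠ q ∧ ∀ r, H.Adj x r ↔ r = p ∨ r = q) : H.IsCycles := by
  rintro v ⟨w, hw⟩
  obtain ⟨p, q, hpq, hr⟩ := h v w hw
  rw [Set.ncard_eq_two]
  refine ⟨p, q, hpq, ?_⟩
  ext r
  simp [hr]

lemma Tour.isCycles {H : SimpleGraph (V × Bool)} {S : Set V} (h : Tour H S) : H.IsCycles :=
  isCycles_of_deg fun x y hxy => h.deg x (h.supp x y hxy)

def pend (H : SimpleGraph (V × Bool)) (a w : V) : SimpleGraph (V × Bool) where
  Adj x y := (H.Adj x y ∧ ¬ (x.1 = a ∧ y.1 = a)) ∨ (x.1 = a ∧ y.1 = w ∧ x.2 = y.2 ∧ a ≠ w) ∨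
    (x.1 = w ∧ y.1 = a ∧ x.2 = y.2 ∧ a ≠ w) ∨ (x.1 = w ∧ y.1 = w ∧ x.2 ≠ y.2)
  symm := ⟨fun x y h => by
    rcases h with h | h | h | h
    · exact Or.inl ⟨h.1.symm, fun k => h.2 ⟨k.2, k.1⟩⟩
    · exact Or.inr (Or.inr (Or.inl ⟨h.2.1, h.1, h.2.2.1.symm, h.2.2.2⟩))
    · exact Or.inr (Or.inl ⟨h.2.1, h.1, h.2.2.1.symm, h.2.2.2⟩)
    · exact Or.inr (Or.inr (Or.inr ⟨h.2.1, h.1, fun k => h.2.2 k.symm⟩))⟩
  loopless := ⟨fun x h => by
    rcases h with h | h | h | h
    · exact h.1.ne rfl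
    · exact h.2.2.2 (h.1.symm.trans h.2.1)
    · exact h.2.2.2 (h.2.1.symm.trans h.1)
    · exact h.2.2 rfl⟩

def band (H : SimpleGraph (V × Bool)) (a b w : V) : SimpleGraph (V × Bool) where
  Adj x y := (H.Adj x y ∧ ¬ (x.1 = a ∧ y.1 = a) ∧ ¬ (x.1 = b ∧ y.1 = b)) ∨
    ((x.1 = a ∨ x.1 = b) ∧ y.1 = w ∧ x.2 = y.2 ∧ x.1 ≠ w) ∨
    ((y.1 = a ∨ y.1 = b) ∧ x.1 = w ∧ x.2 = y.2 ∧ y.1 ≠ w)
  symm := ⟨fun x y h => by
    rcases h with h | h | h
    · exact Or.inl ⟨h.1.symm, fun k => h.2.1 ⟨k.2, k.1⟩, fun k => h.2.2 ⟨k.2, k.1⟩⟩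
    · exact Or.inr (Or.inr ⟨h.1, h.2.1, h.2.2.1.symm, h.2.2.2⟩)
    · exact Or.inr (Or.inl ⟨h.1, h.2.1, h.2.2.1.symm, h.2.2.2⟩)⟩
  loopless := ⟨fun x h => by
    rcases h with h | h | h
    · exact h.1.ne rfl
    · exact h.2.2.2 h.2.1
    · exact h.2.2.2 h.2.1⟩

def Rung (H : SimpleGraph (V × Bool)) (a : V) : Prop := H.Adj (a, false) (a, true)

lemma Rung.adj {H : SimpleGraph (V × Bool)} {a : V} (h : Rung H a) (l : Bool) :
    H.Adj (a, l) (a, !l) := by
  cases l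
  · exact h
  · exact h.symm

lemma same_fst {H : SimpleGraph (V × Bool)} {a : V} {l : Bool} {r : V × Bool}
    (h : H.Adj (a, l) r) (hr : r.1 = a) : r = (a, !l) := by
  obtain ⟨r1, r2⟩ := r
  have hne := h.ne
  simp only at hr
  subst hr
  cases l <;> cases r2 <;> simp_all

/-- the other neighbour of an end of a rung -/
lemma Tour.other {H : SimpleGraph (V × Bool)} {S : Set V} (h : Tour H S) {a : V}
    (ha : Rung H a) (l : Bool) :
    ∃ q : V × Bool, q.1 ≠ a ∧ q.1 ∈ S ∧ ∀ r, H.Adj (a, l) r ↔ r = (a, !l) ∨ r = q := by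
  have hadj := ha.adj l
  obtain ⟨p, q, hpq, hr⟩ := h.deg (a, l) (h.supp _ _ hadj)
  rcases (hr _).1 hadj with e | e
  · have hq : H.Adj (a, l) q := (hr q).2 (Or.inr rfl)
    refine ⟨q, fun k => hpq (e.symm.trans (same_fst hq k).symm), h.supp _ _ hq.symm, ?_⟩
    intro r; rw [hr, e]
  · have hp : H.Adj (a, l) p := (hr p).2 (Or.inl rfl)
    refine ⟨p, fun k => hpq ((same_fst hp k).trans e), h.supp _ _ hp.symm, ?_⟩
    intro r; rw [hr, e, or_comm]

lemma Tour.pend {H : SimpleGraph (V × Bool)} {S : Set V} (h : Tour H S) {a w : V}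
    (ha : Rung H a) (hw : w ∉ S) : Tour (pend H a w) (insert w S) := by
  have haS : a ∈ S := h.supp _ _ ha
  have haw : a ≠ w := fun k => hw (k ▸ haS)
  refine ⟨?_, ?_, ?_⟩
  · rintro ⟨v, l⟩ hv
    by_cases hvw : v = w
    · subst hvw
      refine ⟨(a, l), (v, !l), fun k => haw (congrArg Prod.fst k), ?_⟩
      rintro ⟨r1, r2⟩
      have : ¬ H.Adj (v, l) (r1, r2) := fun k => hw (h.supp _ _ k)
      simp only [MP_8c1b0d_co.pend, Prod.mk.injEq]
      cases l <;> cases r2 <;> grind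
    · have hvS : v ∈ S := by
        rcases hv with e | e
        · exact absurd e hvw
        · exact e
      by_cases hva : v = a
      · subst hva
        obtain ⟨q, hq1, hq2, hq⟩ := h.other ha l
        refine ⟨(w, l), q, fun k => hw (by rw [← k] at hq2; exact hq2), ?_⟩
        rintro ⟨r1, r2⟩
        have := hq (r1, r2)
        obtain ⟨q1, q2⟩ := q
        simp only [MP_8c1b0d_co.pend, Prod.mk.injEq] at this ⊢
        grind
      · obtain ⟨p, q, hpq, hr⟩ := h.deg (v, l) hvS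
        refine ⟨p, q, hpq, fun r => ?_⟩
        rw [← hr]
        simp only [MP_8c1b0d_co.pend]
        grind
  · rintro x y (k | k | k | k)
    · exact Or.inr (h.supp _ _ k.1)
    · exact Or.inr (k.1 ▸ haS)
    · exact Or.inl k.1
    · exact Or.inl k.1
  · intro P hP
    have h1 : ∀ l, P (a, l) ↔ P (w, l) := fun l =>
      hP.iff (Or.inr (Or.inl ⟨rfl, rfl, rfl, haw⟩))
    have h2 : ∀ l, P (w, l) ↔ P (w, !l) := fun l =>
      hP.iff (Or.inr (Or.inr (Or.inr ⟨rfl, rfl, by cases l <;> simp⟩)))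
    have hP' : Closed H P := by
      rintro ⟨x1, x2⟩ y hxy hx
      by_cases k : x1 = a ∧ y.1 = a
      · obtain ⟨rfl, k2⟩ := k
        rw [same_fst hxy k2, h1, ← h2, ← h1]; exact hx
      · exact hP _ _ (Or.inl ⟨hxy, k⟩) hx
    have key : ∀ x : V × Bool, x.1 ∈ insert w S → ∃ x' : V × Bool, x'.1 ∈ S ∧ (P x ↔ P x') := by
      rintro ⟨x1, x2⟩ (e | e)
      · simp only at e
        subst e
        exact ⟨(a, x2), haS, (h1 x2).symm⟩
      · exact ⟨_, e, Iff.rfl⟩
    intro x y hx hy hPx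
    obtain ⟨x', hx', ex⟩ := key x hx
    obtain ⟨y', hy', ey⟩ := key y hy
    exact ey.2 (h.conn P hP' x' y' hx' hy' (ex.1 hPx))

def Sep (H : SimpleGraph (V × Bool)) (a b w : V) : Prop :=
  ∃ P, Closed (band H a b w) P ∧ ¬ (P (a, false) ↔ P (a, true))

lemma band_iff {H : SimpleGraph (V × Bool)} {a b w : V} {P : V × Bool → Prop}
    (hP : Closed (band H a b w) P) (haw : a ≠ w) (hbw : b ≠ w) (l : Bool) :
    (P (a, l) ↔ P (w, l)) ∧ (P (b, l) ↔ P (w, l)) :=
  ⟨hP.iff (Or.inr (Or.inl ⟨Or.inl rfl, rfl, rfl, haw⟩)),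
   hP.iff (Or.inr (Or.inl ⟨Or.inr rfl, rfl, rfl, hbw⟩))⟩

lemma Tour.band {H : SimpleGraph (V × Bool)} {S : Set V} (h : Tour H S) {a b w : V}
    (ha : Rung H a) (hb : Rung H b) (hab : a ≠ b) (hw : w ∉ S) (hsep : ¬ Sep H a b w) :
    Tour (band H a b w) (insert w S) := by
  have haS : a ∈ S := h.supp _ _ ha
  have hbS : b ∈ S := h.supp _ _ hb
  have haw : a ≠ w := fun k => hw (k ▸ haS)
  have hbw : b ≠ w := fun k => hw (k ▸ hbS)
  refine ⟨?_, ?_, ?_⟩
  · rintro ⟨v, l⟩ hv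
    by_cases hvw : v = w
    · subst hvw
      refine ⟨(a, l), (b, l), fun k => hab (congrArg Prod.fst k), ?_⟩
      rintro ⟨r1, r2⟩
      have : ¬ H.Adj (v, l) (r1, r2) := fun k => hw (h.supp _ _ k)
      simp only [MP_8c1b0d_co.band, Prod.mk.injEq]
      grind
    · have hvS : v ∈ S := by
        rcases hv with e | e
        · exact absurd e hvw
        · exact e
      by_cases hva : v = a
      · subst hva
        obtain ⟨q, hq1, hq2, hq⟩ := h.other ha l
        refine ⟨(w, l), q, fun k => hw (by rw [← k] at hq2; exact hq2), ?_⟩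
        rintro ⟨r1, r2⟩
        have := hq (r1, r2)
        obtain ⟨q1, q2⟩ := q
        simp only [MP_8c1b0d_co.band, Prod.mk.injEq] at this ⊢
        grind
      · by_cases hvb : v = b
        · subst hvb
          obtain ⟨q, hq1, hq2, hq⟩ := h.other hb l
          refine ⟨(w, l), q, fun k => hw (by rw [← k] at hq2; exact hq2), ?_⟩
          rintro ⟨r1, r2⟩
          have := hq (r1, r2)
          obtain ⟨q1, q2⟩ := q
          simp only [MP_8c1b0d_co.band, Prod.mk.injEq] at this ⊢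
          grind
        · obtain ⟨p, q, hpq, hr⟩ := h.deg (v, l) hvS
          refine ⟨p, q, hpq, fun r => ?_⟩
          rw [← hr]
          simp only [MP_8c1b0d_co.band]
          grind
  · rintro x y (k | k | k)
    · exact Or.inr (h.supp _ _ k.1)
    · rcases k.1 with e | e
      · exact Or.inr (e ▸ haS)
      · exact Or.inr (e ▸ hbS)
    · exact Or.inl k.2.1
  · intro P hP
    have h1 := band_iff hP haw hbw
    have h2 : P (a, false) ↔ P (a, true) := by
      by_contra k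
      exact hsep ⟨P, hP, k⟩
    have h3 : ∀ l, P (a, l) ↔ P (a, !l) := by
      intro l; cases l
      · exact h2
      · exact h2.symm
    have hP' : Closed H P := by
      rintro ⟨x1, x2⟩ y hxy hx
      by_cases k : x1 = a ∧ y.1 = a
      · obtain ⟨rfl, k2⟩ := k
        rw [same_fst hxy k2, ← h3]; exact hx
      · by_cases k' : x1 = b ∧ y.1 = b
        · obtain ⟨rfl, k2⟩ := k'
          rw [same_fst hxy k2, (h1 _).2, ← (h1 _).1, ← h3, (h1 _).1, ← (h1 _).2]; exact hx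
        · exact hP _ _ (Or.inl ⟨hxy, k, k'⟩) hx
    have key : ∀ x : V × Bool, x.1 ∈ insert w S → ∃ x' : V × Bool, x'.1 ∈ S ∧ (P x ↔ P x') := by
      rintro ⟨x1, x2⟩ (e | e)
      · simp only at e
        subst e
        exact ⟨(a, x2), haS, (h1 x2).1.symm⟩
      · exact ⟨_, e, Iff.rfl⟩
    intro x y hx hy hPx
    obtain ⟨x', hx', ex⟩ := key x hx
    obtain ⟨y', hy', ey⟩ := key y hy
    exact ey.2 (h.conn P hP' x' y' hx' hy' (ex.1 hPx))

/-- among three rungs of a tour two are traversed in the same direction -/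
lemma Tour.three [Finite V] {H : SimpleGraph (V × Bool)} {S : Set V} (h : Tour H S) {a b c w : V}
    (ha : Rung H a) (hb : Rung H b) (hc : Rung H c) (hab : a ≠ b) (hac : a ≠ c) (hbc : b ≠ c)
    (hw : w ∉ S) (h1 : Sep H a b w) (h2 : Sep H a c w) (h3 : Sep H b c w) : False := by
  have haw : a ≠ w := fun k => hw (k ▸ h.supp _ _ ha)
  have hbw : b ≠ w := fun k => hw (k ▸ h.supp _ _ hb)
  have hcw : c ≠ w := fun k => hw (k ▸ h.supp _ _ hc)
  obtain ⟨P1, c1, n1⟩ := h1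
  obtain ⟨P2, c2, n2⟩ := h2
  obtain ⟨P3, c3, n3⟩ := h3
  have e1 := band_iff c1 haw hbw
  have e2 := band_iff c2 haw hcw
  have e3 := band_iff c3 hbw hcw
  have aux : ∀ (P : V × Bool → Prop) (u v : V), (∀ l, P (u, l) ↔ P (v, l)) →
      ¬ (P (u, false) ↔ P (u, true)) → ∀ l m, (P (u, l) ↔ P (v, m)) → l = m := by
    intro P u v e n l m k
    by_contra hlm
    apply n
    cases l <;> cases m
    · exact absurd rfl hlm
    · exact k.trans (e true).symm
    · exact (e false).trans k.symm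
    · exact absurd rfl hlm
  have f1 : ∀ l, P1 (a, l) ↔ P1 (b, l) := fun l => (e1 l).1.trans (e1 l).2.symm
  have f2 : ∀ l, P2 (a, l) ↔ P2 (c, l) := fun l => (e2 l).1.trans (e2 l).2.symm
  have f3 : ∀ l, P3 (b, l) ↔ P3 (c, l) := fun l => (e3 l).1.trans (e3 l).2.symm
  have s2 := aux P2 a c f2 n2
  have s3 := aux P3 b c f3 n3
  have key : ∀ l, P1 (c, l) ↔ P1 (a, l) := by
    intro l
    by_contra hne
    have hcl : Closed (H.deleteEdges {s((c, l), (c, !l))})
        (fun x => (P1 x ↔ P1 (c, l)) ∧ (P2 x ↔ P2 (c, l)) ∧ (P3 x ↔ P3 (c, l))) := by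
      rintro ⟨x1, x2⟩ y hxy ⟨k1, k2, k3⟩
      rw [deleteEdges_adj] at hxy
      obtain ⟨hxy, hne'⟩ := hxy
      have na : ¬ (x1 = a ∧ y.1 = a) := by
        rintro ⟨rfl, -⟩
        have := s2 _ _ k2
        subst this
        exact hne k1.symm
      have nb : ¬ (x1 = b ∧ y.1 = b) := by
        rintro ⟨rfl, -⟩
        have := s3 _ _ k3
        subst this
        exact hne (k1.symm.trans (f1 _).symm)
      have nc : ¬ (x1 = c ∧ y.1 = c) := by
        rintro ⟨rfl, k⟩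
        have := same_fst hxy k
        subst this
        apply hne'
        cases l <;> cases x2 <;> simp
      refine ⟨?_, ?_, ?_⟩
      · rw [← k1]; exact (c1.iff (Or.inl ⟨hxy, na, nb⟩)).symm
      · rw [← k2]; exact (c2.iff (Or.inl ⟨hxy, na, nc⟩)).symm
      · rw [← k3]; exact (c3.iff (Or.inl ⟨hxy, nb, nc⟩)).symm
    have hr := h.isCycles.reachable_deleteEdges (hc.adj l)
    have := (hcl.reach hr ⟨Iff.rfl, Iff.rfl, Iff.rfl⟩).2.1
    have := s2 _ _ ((f2 _).trans this)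
    cases l <;> simp at this
  have hcc : P1 (c, false) ↔ P1 (c, true) :=
    c1.iff (Or.inl ⟨hc, fun k => hac k.1.symm, fun k => hbc k.1.symm⟩)
  exact n1 ((key false).symm.trans (hcc.trans (key true)))

end Pool.Agent.MP_8c1b0d_co
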