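import Pool.Agent.MP_8c1b0d_co.Euler

set_option autoImplicit false
open SimpleGraph Finset

namespace Pool.Agent.MP_8c1b0d_co

lemma sum_mul_small {V : Type} (s : Finset V) (hs : s.card ≤ 2) (Z W : V → ZMod 2)
    (hZ : ∑ v ∈ s, Z v = 0) (hW : ∑ v ∈ s, W v = 0) : ∑ v ∈ s, Z v * W v = 0 := by
  classical
  have two : ∀ a : ZMod 2, a + a = 0 := CharTwo.add_self_eq_zero
  obtain h | h | h : s.card = 0 ∨ s.card = 1 ∨ s.card = 2 := by omega
  · rw [card_eq_zero.1 h, sum_empty]
  · obtain ⟨a, rfl⟩ := card_eq_one.1 h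
    rw [sum_singleton] at hZ ⊢
    rw [hZ, zero_mul]
  · obtain ⟨a, b, hab, rfl⟩ := card_eq_two.1 h
    rw [sum_pair hab] at hZ hW ⊢
    linear_combination W a * hZ + Z b * hW - two (Z b * W a)

namespace Col
variable {V Φ : Type} (c : Col V Φ)

/-- the colours `x, y, m` have the same cyclic order at every vertex, and the graph is connected -/
structure Zig : Prop where
  a1 : ∀ v, c.fy (c.x v) = c.fm v
  a2 : ∀ v, c.fm (c.y v) = c.fx v
  a3 : ∀ v, c.fx (c.m v) = c.fy v
  conn : ∀ P : V → Prop, (∀ v, P v → P (c.x v) ∧ P (c.y v) ∧ P (c.m v)) → ∀ u v, P u → P v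

/-- cyclic change of the roles of the three colours -/
def rot : Col V Φ where
  x := c.y
  y := c.m
  m := c.x
  fx := c.fy
  fy := c.fm
  fm := c.fx
  xx := c.yy
  yy := c.mm
  mm := c.xx
  x_ne := c.y_ne
  y_ne := c.m_ne
  m_ne := c.x_ne
  xy := c.ym
  xm := fun v => (c.xy v).symm
  ym := fun v => (c.xm v).symm
  hx := fun v => by rw [Sym2.eq_swap, c.hy, Sym2.eq_swap]
  hy := fun v => by rw [Sym2.eq_swap, c.hm, Sym2.eq_swap]
  hm := c.hx
  planar := fun f g hf hg hk => by
    have two : ∀ a : ZMod 2, a + a = 0 := CharTwo.add_self_eq_zero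
    obtain ⟨h, hh⟩ := c.planar (fun v => f v + g v) f hk hf fun v => by
      linear_combination hg v + two (f (c.m v)) - two (f v)
    refine ⟨h, fun v => ⟨?_, ?_⟩⟩
    · rw [(hh v).2, add_comm]
    · linear_combination (hh v).1 + (hh v).2 - two (f v) + two (h (c.fm v))

variable {c} in
lemma Zig.rot (z : c.Zig) : c.rot.Zig :=
  ⟨z.a2, z.a3, z.a1, fun P hP => z.conn P fun v hv => ⟨(hP v hv).2.2, (hP v hv).1, (hP v hv).2.1⟩⟩

variable [Fintype V] [DecidableEq V]

/-- a set of `m`-edges meeting every face evenly -/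
def Ev (Z : V → ZMod 2) : Prop :=
  (∀ v, Z (c.m v) = Z v) ∧ ∀ k : Φ → ZMod 2, ∑ v, k (c.fx v) * Z v = 0

/-- a spanning forest of the dual graph of the `m`-edges -/
lemma exists_forest : ∃ A : Finset V, (∀ v, c.m v ∈ A ↔ v ∈ A) ∧
    (∀ Z, c.Ev Z → (∀ v ∉ A, Z v = 0) → ∀ v, Z v = 0) ∧
    ∀ t ∉ A, ∃ Z, c.Ev Z ∧ Z t = 1 ∧ ∀ v ∉ A, v ≠ t → v ≠ c.m t → Z v = 0 := by
  classical
  let I : Finset V → Prop := fun A => (∀ v, c.m v ∈ A ↔ v ∈ A) ∧
    ∀ Z, c.Ev Z → (∀ v ∉ A, Z v = 0) → ∀ v, Z v = 0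
  obtain ⟨A, hA, hmax⟩ := exists_max_image (univ.filter I) Finset.card
    ⟨∅, mem_filter.2 ⟨mem_univ _, by simp, fun Z _ h v => h v (by simp)⟩⟩
  have hA' := (mem_filter.1 hA).2
  refine ⟨A, hA'.1, hA'.2, fun t ht => ?_⟩
  by_contra hn
  push Not at hn
  have : I (insert t (insert (c.m t) A)) := by
    refine ⟨fun v => ?_, fun Z hZ h0 => ?_⟩
    · have e1 : c.m v = t ↔ v = c.m t := ⟨fun k => by rw [← k, c.mm], fun k => by rw [k, c.mm]⟩
      have e2 : c.m v = c.m t ↔ v = t := ⟨fun k => by rw [← c.mm v, k, c.mm], fun k => by rw [k]⟩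
      simp only [mem_insert, e1, e2, hA'.1]
      tauto
    · have h1 : Z t = 0 := by
        by_contra k
        have k1 : Z t = 1 := by
          generalize Z t = a at k
          revert a; decide
        obtain ⟨v, a, b, d, e⟩ := hn Z hZ k1
        exact e (h0 v (by simp [a, b, d]))
      refine hA'.2 Z hZ fun v hv => ?_
      by_cases a : v = t
      · rw [a, h1]
      by_cases b : v = c.m t
      · rw [b, hZ.1, h1]
      exact h0 v (by simp [a, b, hv])
  have h1 := hmax _ (mem_filter.2 ⟨mem_univ _, this⟩)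
  have h2 : A.card < (insert t (insert (c.m t) A)).card :=
    card_lt_card ⟨fun v hv => by simp [hv], fun k => ht (k (by simp))⟩
  omega

omit [Fintype V] in
lemma sum_single {T : Finset V} (hT : ∀ v, c.m v ∈ T ↔ v ∉ T) (F : V → ZMod 2)
    (hF : ∀ v, F (c.m v) = F v) (t : V) (h0 : ∀ v, v ≠ t → v ≠ c.m t → F v = 0) :
    ∑ v ∈ T, F v = F t := by
  by_cases ht : t ∈ T
  · refine sum_eq_single_of_mem t ht fun v hv k => h0 v k ?_
    rintro rfl
    exact (hT t).1 hv ht
  · rw [← hF t]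
    refine sum_eq_single_of_mem _ ((hT t).2 ht) fun v hv k => h0 v ?_ k
    rintro rfl
    exact ht hv

variable {c}

lemma Zig.sum_T (z : c.Zig) {T : Finset V} (hT : ∀ v, c.m v ∈ T ↔ v ∉ T) (k : Φ → ZMod 2)
    (F : V → ZMod 2) (hF : ∀ v, F (c.m v) = F v) :
    ∑ v, k (c.fx v) * F v = ∑ v ∈ T, (k (c.fx v) + k (c.fy v)) * F v := by
  rw [c.sum_trans hT]
  refine sum_congr rfl fun v _ => ?_
  rw [z.a3, hF, add_mul]

/-- one colour: forest edges on the side `b`, co-forest edges on the other side -/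
lemma Zig.kernel (z : c.Zig) {T : Finset V} (hT : ∀ v, c.m v ∈ T ↔ v ∉ T)
    (orth : ∀ Z W, c.Ev Z → c.Ev W → ∑ v ∈ T, Z v * W v = 0)
    {s : Φ → ZMod 2} (s1 : ∀ v, s (c.fy v) = s (c.fx v)) (s2 : ∀ v, s (c.fm v) = s (c.fx v) + 1)
    {A : Finset V} (ind : ∀ Z, c.Ev Z → (∀ v ∉ A, Z v = 0) → ∀ v, Z v = 0)
    (span : ∀ t ∉ A, ∃ Z, c.Ev Z ∧ Z t = 1 ∧ ∀ v ∉ A, v ≠ t → v ≠ c.m t → Z v = 0)
    (b : ZMod 2) (h : Φ → ZMod 2)
    (h1 : ∀ v, (s (c.fx v) = b ↔ v ∈ A) → c.tw (ZMod 2) v h + c.q (ZMod 2) v h = 0)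
    (h0 : ∀ v, ¬ (s (c.fx v) = b ↔ v ∈ A) → c.p (ZMod 2) v h = 0) : h ∈ c.triv (ZMod 2) := by
  classical
  have two : ∀ a : ZMod 2, a + a = 0 := CharTwo.add_self_eq_zero
  have b1 : ∀ v, c.fm (c.x v) = c.fy v := fun v => by rw [← z.a1, c.xx]
  have b2 : ∀ v, c.fx (c.y v) = c.fm v := fun v => by rw [← z.a2, c.yy]
  have b3 : ∀ v, c.fy (c.m v) = c.fx v := fun v => by rw [← z.a3, c.mm]
  let ψ : V → ZMod 2 := fun v => h (c.fx v) + h (c.fy v)
  let θ : V → ZMod 2 := fun v => h (c.fm v) + h (c.fm (c.m v))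
  have ψm : ∀ v, ψ (c.m v) = ψ v := fun v => by simp only [ψ, z.a3, b3, add_comm]
  have θm : ∀ v, θ (c.m v) = θ v := fun v => by simp only [θ, c.mm, add_comm]
  have sm : ∀ v, s (c.fx (c.m v)) = s (c.fx v) := fun v => by rw [z.a3, s1]
  have g1 : ∀ v, (s (c.fx v) = b ↔ v ∈ A) → ψ v + θ v = 0 := fun v e => by
    have := h1 v e
    rw [tw_apply, q_apply, b3] at this
    simp only [ψ, θ]
    linear_combination this
  have g0 : ∀ v, ¬ (s (c.fx v) = b ↔ v ∈ A) → ψ v = 0 := h0
  have cut : ∀ Z, c.Ev Z → ∑ v ∈ T, ψ v * Z v = 0 := fun Z hZ => by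
    rw [← z.sum_T hT h Z hZ.1]; exact hZ.2 h
  have face : ∀ k : Φ → ZMod 2,
      ∑ v, k (c.fx v) * θ v = ∑ v, k (c.fx v) * ψ (c.x (c.m v)) := by
    intro k
    let π : Equiv.Perm V := Function.Involutive.toPerm _ c.yy *
      (Function.Involutive.toPerm _ c.xx * Function.Involutive.toPerm _ c.mm)
    have e := Equiv.sum_comp π fun v => k (c.fx v) * h (c.fm v)
    have πv : ∀ v, π v = c.y (c.x (c.m v)) := fun _ => rfl
    simp only [πv, b2, b1, b3, z.a2] at e
    simp only [ψ, θ, mul_add, sum_add_distrib, z.a1, e]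
  have side : ∀ (a : ZMod 2) Z, c.Ev Z → c.Ev fun v => if s (c.fx v) = a then Z v else 0 := by
    intro a Z hZ
    refine ⟨fun v => by simp only [sm, hZ.1], fun k => ?_⟩
    refine Eq.trans (sum_congr rfl fun v _ => ?_) (hZ.2 fun f => if s f = a then k f else 0)
    by_cases e : s (c.fx v) = a <;> simp [e]
  have st1 : ∀ v, s (c.fx v) ≠ b → ψ v = 0 := by
    intro t ht
    by_cases hA : t ∈ A
    · exact g0 t (by simp [ht, hA])
    obtain ⟨Z, hZ, z1, z0⟩ := span t hA
    have e := cut _ (side (s (c.fx t)) Z hZ)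
    rw [c.sum_single hT _ (fun v => by simp only [ψm, sm, hZ.1]) t] at e
    · simpa [z1] using e
    · intro v a1 a2
      split_ifs with e'
      · by_cases hv : v ∈ A
        · rw [g0 v (by simp [e', ht, hv]), zero_mul]
        · rw [z0 v hv a1 a2, mul_zero]
      · exact mul_zero _
  have ev1 : c.Ev fun v => if s (c.fx v) = b then θ v else 0 := by
    refine ⟨fun v => by simp only [sm, θm], fun k => ?_⟩
    have e := face fun f => if s f = b then k f else 0
    rw [show ∑ v, (if s (c.fx v) = b then k (c.fx v) else 0) * ψ (c.x (c.m v)) = 0 from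
      sum_eq_zero fun v _ => ?_] at e
    · refine Eq.trans (sum_congr rfl fun v _ => ?_) e
      by_cases e : s (c.fx v) = b <;> simp [e]
    · split_ifs with e'
      · rw [st1, mul_zero]
        have := s2 (c.x (c.m v))
        rw [b1, b3, e'] at this
        intro k
        rw [k] at this
        exact absurd this (by simp)
      · exact zero_mul _
  have st2 : ∀ v, s (c.fx v) = b → θ v = 0 := by
    intro v hv
    have := ind _ ev1 (fun t hA => ?_) v
    · simpa [hv] using this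
    split_ifs with ht
    · obtain ⟨Z, hZ, z1, z0⟩ := span t hA
      have e1 := cut _ (side b Z hZ)
      have e2 := orth _ _ ev1 (side b Z hZ)
      have e3 : ∑ v ∈ T, (ψ v + if s (c.fx v) = b then θ v else 0) *
          (if s (c.fx v) = b then Z v else 0) = 0 := by
        simp only [add_mul, sum_add_distrib]
        rw [e1, e2, add_zero]
      rw [c.sum_single hT _ (fun v => by simp only [ψm, θm, sm, hZ.1]) t] at e3
      · simpa [z1, ht, g0 t (by simp [ht, hA])] using e3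
      · intro v a1 a2
        split_ifs with e'
        · by_cases hv : v ∈ A
          · rw [g1 v (by simp [e', hv]), zero_mul]
          · rw [z0 v hv a1 a2, mul_zero]
        · exact mul_zero _
    · rfl
  have ψ0 : ∀ v, ψ v = 0 := by
    intro v
    by_cases hv : s (c.fx v) = b
    · by_cases hA : v ∈ A
      · simpa [st2 v hv] using g1 v (by simp [hv, hA])
      · exact g0 v (by simp [hv, hA])
    · exact st1 v hv
  have θ0 : ∀ v, θ v = 0 := by
    refine ind θ ⟨θm, fun k => by simp [face, ψ0]⟩ fun v hA => ?_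
    by_cases hv : s (c.fx v) = b
    · exact st2 v hv
    · simpa [ψ0] using g1 v (by simp [hv, hA])
  rcases isEmpty_or_nonempty V with hV | ⟨⟨v₀⟩⟩
  · exact ⟨0, fun v => hV.elim v⟩
  let f : V → ZMod 2 := fun v => h (c.fy v) + h (c.fm v)
  have fg : ∀ v, h (c.fx v) + h (c.fm v) = f v := fun v => by
    have := ψ0 v
    simp only [ψ, f] at this ⊢
    linear_combination this - two (h (c.fy v))
  have all : ∀ v, f v = f v₀ := fun v => z.conn (fun v => f v = f v₀) (fun v hv => by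
    refine ⟨?_, ?_, ?_⟩
    · rw [← hv]; simp only [f, z.a1, b1, add_comm]
    · rw [← hv, ← fg, ← fg, z.a2, b2, add_comm]
    · rw [← hv, ← fg v]
      have := θ0 v
      simp only [θ, f, b3] at this ⊢
      linear_combination this - two (h (c.fm v))) v₀ v rfl
  exact ⟨f v₀, fun v => ⟨all v, (fg v).trans (all v)⟩⟩

/-- every `m`-edge lies on exactly one face of a family of faces with at most two `m`-edges -/
theorem Zig.good (z : c.Zig) {G : SimpleGraph V}
    (hG : ∀ u v, G.Adj u v ↔ v = c.x u ∨ v = c.y u ∨ v = c.m u) (t : Φ → ZMod 2)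
    (ht : ∀ v, t (c.fx v) + t (c.fy v) = 1)
    (small : ∀ a, t a ≠ 0 → ∀ u v w, c.fx u = a → c.fx v = a → c.fx w = a →
      u = v ∨ u = w ∨ v = w) : Good G Set.univ := by
  classical
  have two : ∀ a : ZMod 2, a + a = 0 := CharTwo.add_self_eq_zero
  obtain ⟨T, hT⟩ := exists_transversal c.mm c.m_ne
  obtain ⟨A, hA, ind, span⟩ := c.exists_forest
  obtain ⟨s, hs⟩ := c.planar (fun _ => 1) (fun _ => 1) (fun _ => rfl) (fun _ => rfl) fun _ => rfl
  have s1 : ∀ v, s (c.fy v) = s (c.fx v) := fun v => by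
    linear_combination (hs v).2 - (hs v).1
  have s2 : ∀ v, s (c.fm v) = s (c.fx v) + 1 := fun v => by
    linear_combination - (hs v).2 - two (s (c.fx v))
  have fib : ∀ (F : V → ZMod 2) (a : Φ), ∑ v, (if c.fx v = a then 1 else 0) * F v =
      ∑ v ∈ univ.filter fun v => c.fx v = a, F v := fun F a => by
    rw [sum_filter]
    refine sum_congr rfl fun v _ => ?_
    split_ifs <;> simp
  have orth : ∀ Z W, c.Ev Z → c.Ev W → ∑ v ∈ T, Z v * W v = 0 := by
    intro Z W hZ hW
    have e := z.sum_T hT t (fun v => Z v * W v) fun v => by rw [hZ.1, hW.1]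
    simp only [ht, one_mul] at e
    rw [← e, ← sum_fiberwise_of_maps_to (t := univ.image c.fx) (g := c.fx)
      fun v hv => mem_image_of_mem _ hv]
    refine sum_eq_zero fun a _ => ?_
    rw [sum_congr rfl (g := fun v => t a * (Z v * W v)) fun v hv => by rw [(mem_filter.1 hv).2],
      ← mul_sum]
    by_cases ha : t a = 0
    · rw [ha, zero_mul]
    rw [sum_mul_small _ ?_ Z W (by rw [← fib]; exact hZ.2 fun f => if f = a then 1 else 0)
      (by rw [← fib]; exact hW.2 fun f => if f = a then 1 else 0), mul_zero]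
    by_contra k
    obtain ⟨u, v, w, hu, hv, hw, n1, n2, n3⟩ := two_lt_card_iff.1 (not_le.1 k)
    rcases small a ha u v w (mem_filter.1 hu).2 (mem_filter.1 hv).2 (mem_filter.1 hw).2 with
      e | e | e
    exacts [n1 e, n2 e, n3 e]
  let r : V → Bool := fun v => decide (s (c.fx v) = 0 ↔ v ∈ A)
  have rm : ∀ v, r (c.m v) = r v := fun v => by simp only [r, z.a3, s1, hA]
  have flip : ∀ v, (s (c.fx v) = 1 ↔ v ∈ A) ↔ ¬ (s (c.fx v) = 0 ↔ v ∈ A) := fun v => by
    have : ∀ a : ZMod 2, a = 1 ↔ ¬ a = 0 := by decide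
    rw [this]; tauto
  refine c.good_of_conn hG rm (c.conn_of (K := ZMod 2) rm fun h h1 h0 => ?_)
    (c.conn_of (K := ZMod 2) (r := fun v => !r v) (fun v => by rw [rm]) fun h h1 h0 => ?_)
  · exact z.kernel hT orth s1 s2 ind span 0 h (fun v e => h1 v (by simpa [r] using e))
      fun v e => h0 v (by simpa [r] using e)
  · exact z.kernel hT orth s1 s2 ind span 1 h
      (fun v e => h1 v (by simpa [r] using (flip v).1 e))
      fun v e => h0 v (by simpa [r, flip] using e)

/-- all faces but two have at most two `m`-edges -/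
theorem Zig.good_two (z : c.Zig) {G : SimpleGraph V}
    (hG : ∀ u v, G.Adj u v ↔ v = c.x u ∨ v = c.y u ∨ v = c.m u) (a₁ a₂ : Φ)
    (small : ∀ a, a ≠ a₁ → a ≠ a₂ → ∀ u v w, c.fx u = a → c.fx v = a → c.fx w = a →
      u = v ∨ u = w ∨ v = w) : Good G Set.univ := by
  have two : ∀ a : ZMod 2, a + a = 0 := CharTwo.add_self_eq_zero
  obtain ⟨s, hs⟩ := c.planar (fun _ => 1) (fun _ => 1) (fun _ => rfl) (fun _ => rfl) fun _ => rfl
  obtain ⟨t, ht⟩ := c.planar (fun _ => 1) (fun _ => 0) (fun _ => rfl) (fun _ => rfl) fun _ => rfl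
  have key : ∀ k : Φ → ZMod 2, k a₁ = k a₂ → ∀ a, k a + k a₁ ≠ 0 → a ≠ a₁ ∧ a ≠ a₂ := by
    intro k e a ha
    constructor <;> rintro rfl
    · exact ha (two _)
    · exact ha (by rw [e]; exact two _)
  by_cases e1 : t a₁ = t a₂
  · exact z.good hG (fun a => t a + t a₁)
      (fun v => by linear_combination -(ht v).1 - (ht v).2 - two (t (c.fm v)) + two (t a₁))
      fun a ha => small a (key t e1 a ha).1 (key t e1 a ha).2
  by_cases e2 : s a₁ = s a₂
  · refine z.rot.good (fun u v => by rw [hG]; simp only [Col.rot]; tauto) (fun a => s a + s a₁)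
      (fun v => by simp only [Col.rot]; linear_combination -(hs v).1 + two (s a₁))
      fun a ha u v w hu hv hw => ?_
    simp only [Col.rot, ← z.a3] at hu hv hw
    have inj : Function.Injective c.m := Function.Involutive.injective c.mm
    simpa only [inj.eq_iff] using small a (key s e2 a ha).1 (key s e2 a ha).2 _ _ _ hu hv hw
  have e3 : s a₁ + t a₁ = s a₂ + t a₂ := by
    revert e1 e2
    generalize s a₁ = p, s a₂ = q, t a₁ = p', t a₂ = q'
    revert p q p' q'; decide
  exact z.good hG (fun a => (s a + t a) + (s a₁ + t a₁))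
    (fun v => by
      linear_combination -(ht v).1 - (ht v).2 - two (t (c.fm v)) + two (t a₁) + two (s a₁)
        - (hs v).1 - (hs v).2 - two (s (c.fm v)) + two 1)
    fun a ha => small a (key (fun a => s a + t a) e3 a ha).1 (key (fun a => s a + t a) e3 a ha).2

end Col

end Pool.Agent.MP_8c1b0d_co
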